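import Pool.Agent.R903.Calc
import Pool.Agent.H914R2.Graded

/-!
# The calculus of correspondences, in cohomology
-/

open CategoryTheory CategoryTheory.Limits AlgebraicGeometry
open Pool.Agent.H914 Pool.Agent.H914.VarClass Pool.Agent.H914.VarClass.Obj

universe u v w

namespace Pool.Agent.R903

variable {k : Type u} [Field k] {𝒱 : VarClass k} {C : ChowTheory.{u, v} 𝒱}

namespace WeilTheory

variable (W : WeilTheory.{u, v, w} C) {X Y Z A B P : 𝒱.Obj}

lemma map_id (X : 𝒱.Obj) (a : W.H X) : W.map (𝟙 X) a = a := by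
  rw [W.mapFunctorial.map_id]; rfl
lemma map_comp {X Y Z : 𝒱.Obj} (f : X ⟶ Y) (g : Y ⟶ Z) (a : W.H Z) :
    W.map (f ≫ g) a = W.map f (W.map g a) := by
  rw [W.mapFunctorial.map_comp]; rfl
lemma cl_mem {X : 𝒱.Obj} {p : ℕ} {x : C.CH X} (hx : x ∈ C.gr X p) :
    W.cl X x ∈ W.gr X (2 * p) := (W.isClassMap X).cl_mem hx
lemma cl_pull {X Y : 𝒱.Obj} (f : X ⟶ Y) (y : C.CH Y) :
    W.cl X (C.pull f y) = W.map f (W.cl Y y) := (W.isClassFunctorial f).cl_pull y
lemma cl_push {X Y : 𝒱.Obj} (f : X ⟶ Y) (x : C.CH X) :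
    W.cl Y (C.push f x) = W.push f (W.cl X x) := (W.isClassFunctorial f).cl_push x
lemma tr_cl {X : 𝒱.Obj} (x : C.CH X) : W.tr X (W.cl X x) = (C.deg X x : W.K) :=
  (W.isClassMap X).tr_cl x
lemma isInternal (X) : DirectSum.IsInternal (W.gr X) := (W.isPoincareAlgebra X).isInternal
lemma one_mem (X) : (1 : W.H X) ∈ W.gr X 0 := (W.isPoincareAlgebra X).one_mem
lemma mul_mem {X} {i j : ℕ} {a b : W.H X} (ha : a ∈ W.gr X i) (hb : b ∈ W.gr X j) :
    a * b ∈ W.gr X (i + j) := (W.isPoincareAlgebra X).mul_mem ha hb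
lemma comm {X} {i j : ℕ} {a b : W.H X} (ha : a ∈ W.gr X i) (hb : b ∈ W.gr X j) :
    a * b = (-1 : W.K) ^ (i * j) • (b * a) := (W.isPoincareAlgebra X).comm ha hb
lemma gr_eq_bot (X) (i) (h : 2 * X.dim < i) : W.gr X i = ⊥ :=
  (W.isPoincareAlgebra X).gr_eq_bot i h
lemma map_mem {X Y : 𝒱.Obj} (f : X ⟶ Y) {i : ℕ} {a : W.H Y} (ha : a ∈ W.gr Y i) :
    W.map f a ∈ W.gr X i := (W.isPullPush f).map_mem ha
lemma tr_eq_zero {X} {i : ℕ} {a : W.H X} (ha : a ∈ W.gr X i) (hi : i ≠ 2 * X.dim) :
    W.tr X a = 0 := (W.isPoincareAlgebra X).tr_eq_zero ha hi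
lemma nondeg {X} (a : W.H X) (h : ∀ b, W.tr X (a * b) = 0) : a = 0 :=
  (W.isPoincareAlgebra X).nondeg a h
lemma tr_push {X Y : 𝒱.Obj} (f : X ⟶ Y) (a : W.H X) (b : W.H Y) :
    W.tr Y (W.push f a * b) = W.tr X (a * W.map f b) :=
  (W.isPullPush f).tr_push a b
lemma kunneth (X Y : 𝒱.Obj) :
    Function.Bijective (kunnethMap (W.map (Obj.fst X Y)) (W.map (Obj.snd X Y))) :=
  (W.isKunneth X Y).bijective
lemma tr_prod {X Y : 𝒱.Obj} (a : W.H X) (b : W.H Y) :
    W.tr (X.prod Y) (W.map (Obj.fst X Y) a * W.map (Obj.snd X Y) b) = W.tr X a * W.tr Y b :=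
  (W.isKunneth X Y).tr_prod a b
lemma map_mul' (f : X ⟶ Y) (a b : W.H Y) : W.map f (a * b) = W.map f a * W.map f b :=
  map_mul _ _ _

lemma cl_mul (x y : C.CH X) : W.cl X (x * y) = W.cl X x * W.cl X y := map_mul _ _ _

lemma tr_ext {a b : W.H X} (h : ∀ c, W.tr X (a * c) = W.tr X (b * c)) : a = b := by
  rw [← sub_eq_zero]
  apply W.nondeg
  intro c
  rw [sub_mul, map_sub, h, sub_self]

lemma even_comm {p : ℕ} {c : W.H X} (hc : c ∈ W.gr X (2 * p)) (a : W.H X) : c * a = a * c := by
  refine gr_induction (W.isInternal X) (p := fun a => c * a = a * c) ?_ ?_ a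
  · intro i a ha
    rw [W.comm hc ha, mul_assoc, pow_mul]
    simp
  · intro a b ha hb
    rw [mul_add, add_mul, ha, hb]

lemma push_mul (f : X ⟶ Y) (a : W.H X) (b : W.H Y) :
    W.push f (a * W.map f b) = W.push f a * b := by
  apply W.tr_ext
  intro c
  rw [W.tr_push, mul_assoc, mul_assoc, W.tr_push, map_mul (W.map f)]

lemma push_id (a : W.H X) : W.push (𝟙 X) a = a := by
  apply W.tr_ext
  intro c
  rw [W.tr_push, W.map_id]

lemma push_comp (f : X ⟶ Y) (g : Y ⟶ Z) (a : W.H X) :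
    W.push (f ≫ g) a = W.push g (W.push f a) := by
  apply W.tr_ext
  intro c
  rw [W.tr_push, W.tr_push, W.tr_push, W.map_comp]

/-- The trace of a commutator up to sign. -/
lemma tr_comm {p : ℕ} {a : W.H X} (ha : a ∈ W.gr X p) (b : W.H X) :
    W.tr X (a * b) = (-1 : W.K) ^ p * W.tr X (b * a) := by
  refine gr_induction (W.isInternal X)
    (p := fun b => W.tr X (a * b) = (-1 : W.K) ^ p * W.tr X (b * a)) ?_ ?_ b
  · intro q b hb
    by_cases h : p + q = 2 * X.dim
    · rw [W.comm ha hb, map_smul, smul_eq_mul]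
      congr 1
      have h1 : (-1 : W.K) ^ (p * q) * (-1 : W.K) ^ (p * p) = 1 := by
        rw [← pow_add, ← mul_add, add_comm q p, h, mul_left_comm, pow_mul]; simp
      have h2 : (-1 : W.K) ^ (p * p) = (-1 : W.K) ^ p := by
        rcases Nat.even_or_odd p with h | h
        · rw [h.neg_one_pow, (h.mul_right p).neg_one_pow]
        · rw [h.neg_one_pow, (h.mul h).neg_one_pow]
      rw [h2] at h1
      have h3 : (-1 : W.K) ^ p * (-1 : W.K) ^ p = 1 := by
        rw [← pow_add, ← two_mul, pow_mul]; simp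
      calc (-1 : W.K) ^ (p * q) = (-1 : W.K) ^ (p * q) * ((-1 : W.K) ^ p * (-1 : W.K) ^ p) := by
            rw [h3, mul_one]
        _ = _ := by rw [← mul_assoc, h1, one_mul]
    · rw [W.tr_eq_zero (W.mul_mem ha hb) h, W.tr_eq_zero (W.mul_mem hb ha) (by omega), mul_zero]
  · intro b b' hb hb'
    rw [mul_add, add_mul, map_add, map_add, hb, hb', mul_add]

/-- Projection formula on the other side. -/
lemma map_push_mul (f : X ⟶ Y) {p : ℕ} {b : W.H Y} (hb : b ∈ W.gr Y p) (a : W.H X) :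
    W.push f (W.map f b * a) = b * W.push f a := by
  apply W.tr_ext
  intro c
  rw [W.tr_push, mul_assoc, mul_assoc, W.tr_comm (W.map_mem f hb), W.tr_comm hb, mul_assoc,
    mul_assoc, W.tr_push, map_mul (W.map f)]

lemma push_snd (a : W.H X) (b : W.H Y) :
    W.push (snd X Y) (W.map (fst X Y) a * W.map (snd X Y) b) = W.tr X a • b := by
  apply W.tr_ext
  intro c
  rw [W.tr_push, mul_assoc, ← map_mul, W.tr_prod, smul_mul_assoc, map_smul, smul_eq_mul]

lemma kunneth_induction {p : W.H (X.prod Y) → Prop}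
    (hadd : ∀ a b, p a → p b → p (a + b))
    (h : ∀ i j, ∀ a ∈ W.gr X i, ∀ b ∈ W.gr Y j, p (W.map (fst X Y) a * W.map (snd X Y) b))
    (c : W.H (X.prod Y)) : p c := by
  have h0 : p 0 := by
    have := h 0 0 0 (Submodule.zero_mem _) 0 (Submodule.zero_mem _)
    simpa using this
  obtain ⟨t, rfl⟩ := (W.kunneth X Y).2 c
  induction t using TensorProduct.induction_on with
  | zero => simpa using h0
  | add x y hx hy => rw [map_add]; exact hadd _ _ hx hy
  | tmul a b =>
    simp only [kunnethMap, TensorProduct.lift.tmul, LinearMap.compl₁₂_apply,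
      LinearMap.mul_apply', AlgHom.toLinearMap_apply]
    refine gr_induction (W.isInternal X)
      (p := fun a => p (W.map (fst X Y) a * W.map (snd X Y) b)) ?_ ?_ a
    · intro i a ha
      refine gr_induction (W.isInternal Y)
        (p := fun b => p (W.map (fst X Y) a * W.map (snd X Y) b)) ?_ ?_ b
      · intro j b hb; exact h i j a ha b hb
      · intro b b' hb hb'; rw [map_add, mul_add]; exact hadd _ _ hb hb'
    · intro a a' ha ha'; rw [map_add, add_mul]; exact hadd _ _ ha ha'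

lemma push_fst (a : W.H X) {j : ℕ} {b : W.H Y} (hb : b ∈ W.gr Y j) :
    W.push (fst X Y) (W.map (fst X Y) a * W.map (snd X Y) b) = W.tr Y b • a := by
  refine gr_induction (W.isInternal X)
    (p := fun a => W.push (fst X Y) (W.map (fst X Y) a * W.map (snd X Y) b) = W.tr Y b • a)
    ?_ ?_ a
  · intro i a ha
    rw [W.map_push_mul _ ha]
    have : W.push (fst X Y) (W.map (snd X Y) b) = W.tr Y b • (1 : W.H X) := by
      apply W.tr_ext
      intro c
      rw [W.tr_push, W.tr_comm (W.map_mem _ hb), W.tr_prod, smul_mul_assoc, one_mul, map_smul,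
        smul_eq_mul]
      by_cases hj : j = 2 * Y.dim
      · rw [hj, pow_mul]
        simp only [even_two, Even.neg_pow, one_pow, one_mul]
        ring
      · rw [W.tr_eq_zero hb hj]; simp
    rw [this, mul_smul_comm, mul_one]
  · intro a a' ha ha'
    rw [map_add, add_mul, map_add, ha, ha', smul_add]

lemma bc1 (c : W.H (X.prod Y)) :
    W.map (fst Y Z) (W.push (snd X Y) c) =
      W.push (snd X (Y.prod Z)) (W.map (p12 X Y Z) c) := by
  refine W.kunneth_induction (p := fun c => W.map (fst Y Z) (W.push (snd X Y) c) =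
    W.push (snd X (Y.prod Z)) (W.map (p12 X Y Z) c)) ?_ ?_ c
  · intro a b ha hb
    simp only [map_add, ha, hb]
  · intro i j a _ b _
    rw [push_snd, map_smul, W.map_mul', ← W.map_comp, ← W.map_comp, p12_fst, p12_snd, W.map_comp,
      push_snd]

/-- Integration over the middle factor. -/
lemma push_p13_mid {j : ℕ} {b : W.H Y} (hb : b ∈ W.gr Y j) :
    W.push (p13 X Y Z) (W.map (snd X (Y.prod Z) ≫ fst Y Z) b) = W.tr Y b • 1 := by
  apply W.tr_ext
  intro c
  rw [W.tr_push, smul_mul_assoc, one_mul, map_smul, smul_eq_mul]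
  refine W.kunneth_induction (p := fun c => W.tr (X.prod (Y.prod Z))
    (W.map (snd X (Y.prod Z) ≫ fst Y Z) b * W.map (p13 X Y Z) c) =
      W.tr Y b * W.tr (X.prod Z) c) ?_ ?_ c
  · intro c c' h h'
    simp only [map_add, mul_add, h, h']
  · intro p q x hx z hz
    rw [W.map_mul', ← W.map_comp, ← W.map_comp, p13_fst, p13_snd, W.tr_prod, ← mul_assoc,
      W.comm (W.map_mem _ hb) (W.map_mem _ hx), smul_mul_assoc, mul_assoc, W.map_comp, W.map_comp,
      ← W.map_mul', map_smul, W.tr_prod, W.tr_prod, smul_eq_mul]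
    by_cases hj : j = 2 * Y.dim
    · rw [hj, mul_assoc 2, pow_mul]
      simp only [even_two, Even.neg_pow, one_pow, one_mul]
      ring
    · rw [W.tr_eq_zero hb hj]; simp

lemma bc2 (c : W.H (Y.prod Z)) :
    W.map (snd X Z) (W.push (snd Y Z) c) =
      W.push (p13 X Y Z) (W.map (snd X (Y.prod Z)) c) := by
  refine W.kunneth_induction (p := fun c => W.map (snd X Z) (W.push (snd Y Z) c) =
    W.push (p13 X Y Z) (W.map (snd X (Y.prod Z)) c)) ?_ ?_ c
  · intro a b ha hb
    simp only [map_add, ha, hb]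
  · intro i j a ha b _
    rw [push_snd, map_smul, W.map_mul', ← W.map_comp, ← W.map_comp, ← p13_snd,
      W.map_comp (p13 X Y Z), W.push_mul, W.push_p13_mid ha, smul_mul_assoc, one_mul]

lemma bc3 (c : W.H (X.prod Y)) :
    W.map (fst X Z) (W.push (fst X Y) c) = W.push (p13 X Y Z) (W.map (p12 X Y Z) c) := by
  refine W.kunneth_induction (p := fun c => W.map (fst X Z) (W.push (fst X Y) c) =
    W.push (p13 X Y Z) (W.map (p12 X Y Z) c)) ?_ ?_ c
  · intro a b ha hb
    simp only [map_add, ha, hb]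
  · intro i j a ha b hb
    rw [W.push_fst a hb, map_smul, W.map_mul', ← W.map_comp, ← W.map_comp, p12_fst, p12_snd,
      ← p13_fst, W.map_comp (p13 X Y Z), W.map_push_mul _ (W.map_mem _ ha), W.push_p13_mid hb,
      mul_smul_comm, mul_one]

/-! ### the action of correspondences -/

lemma act_apply (γ : C.CH (X.prod Y)) (a : W.H X) :
    W.act γ a = W.push (snd X Y) (W.cl _ γ * W.map (fst X Y) a) := rfl

lemma act_add (γ δ : C.CH (X.prod Y)) : W.act (γ + δ) = W.act γ + W.act δ := by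
  ext x; simp [act_apply, add_mul]

lemma act_sub (γ δ : C.CH (X.prod Y)) : W.act (γ - δ) = W.act γ - W.act δ := by
  ext x; simp [act_apply, sub_mul]

lemma cl_smul (q : ℚ) (x : C.CH X) : W.cl X (q • x) = (q : W.K) • W.cl X x := by
  have := map_ratCast_smul (W.cl X) ℚ W.K q x
  simpa using this

lemma act_smul (q : ℚ) (γ : C.CH (X.prod Y)) : W.act (q • γ) = (q : W.K) • W.act γ := by
  ext x; simp [act_apply, cl_smul]

lemma act_zero : W.act (0 : C.CH (X.prod Y)) = 0 := by
  ext x; simp [act_apply]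

lemma act_sum {ι : Type*} (s : Finset ι) (γ : ι → C.CH (X.prod Y)) :
    W.act (∑ i ∈ s, γ i) = ∑ i ∈ s, W.act (γ i) := by
  classical
  induction s using Finset.induction_on with
  | empty => simp [act_zero]
  | insert a s ha ih => rw [Finset.sum_insert ha, Finset.sum_insert ha, act_add, ih]

lemma act_span (a : P ⟶ A) (b : P ⟶ B) (ω : C.CH P) (x : W.H A) :
    W.act (C.span a b ω) x = W.push b (W.cl P ω * W.map a x) := by
  rw [act_apply, ChowTheory.span, W.cl_push, ← W.push_mul, ← W.push_comp, ← W.map_comp, lift_snd,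
    lift_fst]

/-- The class of the result of a correspondence. -/
lemma cl_act (γ : C.CH (X.prod Y)) (x : C.CH X) : W.cl Y (C.act γ x) = W.act γ (W.cl X x) := by
  rw [ChowTheory.act_apply, W.cl_push, W.cl_mul, W.cl_pull, act_apply]

lemma act_diagC (a : W.H X) : W.act (C.diagC X) a = a := by
  rw [ChowTheory.diagC_eq, act_span, map_one, one_mul, W.map_id, W.push_id]

lemma act_comp (α : C.CH (X.prod Y)) {β : C.CH (Y.prod Z)} {q : ℕ}
    (hβ : β ∈ C.gr (Y.prod Z) q) (a : W.H X) :
    W.act (C.comp α β) a = W.act β (W.act α a) := by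
  have hβ' := W.cl_mem hβ
  rw [act_apply, act_apply, act_apply, ChowTheory.comp, W.bc1, W.cl_push, W.cl_mul, W.cl_pull,
    W.cl_pull, ← W.push_mul, ← W.push_comp, ← W.map_comp, p13_fst, p13_snd,
    ← W.map_push_mul _ hβ', ← W.push_comp, W.map_mul', ← W.map_comp, p12_fst,
    ← mul_assoc, W.even_comm (W.map_mem _ hβ')]

lemma act_opL {w : C.CH (Y.prod Y)} (hw : w ∈ C.gr (Y.prod Y) Y.dim) {p : ℕ} {a : W.H X}
    (ha : a ∈ W.gr X p) (b : W.H Y) :
    W.act (C.opL X w) (W.map (fst X Y) a * W.map (snd X Y) b) =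
      W.map (fst X Y) a * W.map (snd X Y) (W.act w b) := by
  rw [ChowTheory.opL, act_span, act_apply, W.bc2, ← W.map_push_mul _ (W.map_mem _ ha), W.cl_pull,
    W.map_mul', W.map_mul', ← W.map_comp, ← W.map_comp, ← W.map_comp, ← W.map_comp, p12_fst,
    p12_snd, p13_fst, ← mul_assoc, ← mul_assoc, W.even_comm (W.map_mem _ (W.cl_mem hw))]

lemma act_opM {w : C.CH (X.prod X)} (a : W.H X) (b : W.H Y) :
    W.act (C.opM w Y) (W.map (fst X Y) a * W.map (snd X Y) b) =
      W.map (fst X Y) (W.act w a) * W.map (snd X Y) b := by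
  rw [ChowTheory.opM, act_span, act_apply, W.bc1, ← W.push_mul, W.cl_pull,
    W.map_mul', W.map_mul', ← W.map_comp, ← W.map_comp, ← W.map_comp, ← W.map_comp, p12_fst,
    p13_fst, p13_snd, mul_assoc]

/-- The transposed action. -/
noncomputable def coact (γ : C.CH (X.prod Y)) (b : W.H Y) : W.H X :=
  W.push (fst X Y) (W.cl _ γ * W.map (snd X Y) b)

lemma act_opR {w : C.CH (X.prod X)} (a : W.H X) (b : W.H Y) :
    W.act (C.opR w Y) (W.map (fst X Y) a * W.map (snd X Y) b) =
      W.map (fst X Y) (W.coact w a) * W.map (snd X Y) b := by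
  rw [ChowTheory.opR, act_span, coact, W.bc3, ← W.push_mul, W.cl_pull,
    W.map_mul', W.map_mul', ← W.map_comp, ← W.map_comp, ← W.map_comp, ← W.map_comp,
    p12_snd, p13_snd, mul_assoc]

lemma coact_of_isDegree {d : C.CH (X.prod X)} (hd : W.IsDegree X d) {j : ℕ} {a : W.H X}
    (ha : a ∈ W.gr X j) : W.coact d a = ((2 * X.dim : ℕ) - (j : ℕ) : W.K) • a := by
  have hcl := W.cl_mem hd.1
  apply W.tr_ext
  intro c
  rw [coact, W.tr_push]
  refine gr_induction (W.isInternal X) (p := fun c =>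
    W.tr (X.prod X) (W.cl _ d * W.map (snd X X) a * W.map (fst X X) c) =
      W.tr X (((2 * X.dim : ℕ) - (j : ℕ) : W.K) • a * c)) ?_ ?_ c
  · intro l c hc
    have h1 : W.tr X (W.act d c * a) = (l : W.K) * W.tr X (c * a) := by
      rw [hd.2 l c hc, smul_mul_assoc, map_smul, smul_eq_mul]
    rw [act_apply, W.tr_push] at h1
    rw [mul_assoc, W.comm (W.map_mem _ ha) (W.map_mem _ hc), mul_smul_comm, map_smul, ← mul_assoc,
      h1, smul_mul_assoc, map_smul, smul_eq_mul, smul_eq_mul]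
    by_cases h : j + l = 2 * X.dim
    · rw [W.comm hc ha, map_smul, smul_eq_mul, ← h]
      have h2 : (-1 : W.K) ^ (j * l) * (-1 : W.K) ^ (l * j) = 1 := by
        rw [mul_comm l j, ← pow_add, ← two_mul, pow_mul]; simp
      have h3 : (((j + l : ℕ) : W.K) - (j : W.K)) = l := by push_cast; ring
      rw [h3]
      linear_combination (l : W.K) * W.tr X (a * c) * h2
    · rw [W.tr_eq_zero (W.mul_mem hc ha) (by omega), W.tr_eq_zero (W.mul_mem ha hc) h]
      simp
  · intro c c' h h'
    simp only [map_add, mul_add, h, h']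

/-- A linear operator which acts on products of homogeneous classes as the degree is the degree
operator. -/
lemma isDegree_of_prod {d : C.CH ((X.prod Y).prod (X.prod Y))}
    (hd : d ∈ C.gr ((X.prod Y).prod (X.prod Y)) (X.prod Y).dim)
    (h : ∀ p q, ∀ a ∈ W.gr X p, ∀ b ∈ W.gr Y q,
      W.act d (W.map (fst X Y) a * W.map (snd X Y) b) =
        ((p + q : ℕ) : W.K) • (W.map (fst X Y) a * W.map (snd X Y) b)) :
    W.IsDegree (X.prod Y) d := by
  refine ⟨hd, ?_⟩
  have key : ∀ c, W.act d c = scal (W.isInternal (X.prod Y)) (fun i => (i : W.K)) c := by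
    intro c
    refine W.kunneth_induction (p := fun c => W.act d c =
      scal (W.isInternal (X.prod Y)) (fun i => (i : W.K)) c) ?_ ?_ c
    · intro a b ha hb; rw [map_add, map_add, ha, hb]
    · intro p q a ha b hb
      rw [h p q a ha b hb, scal_apply _ _ (W.mul_mem (W.map_mem _ ha) (W.map_mem _ hb))]
  intro j a ha
  rw [key, scal_apply _ _ ha]

/-- The degree operator on `X × Y` which induces `γ ↦ 2 dim(X) γ - γ ∘ d + e ∘ γ`. -/
noncomputable def degHom (C : ChowTheory.{u, v} 𝒱) {X Y : 𝒱.Obj} (d : C.CH (X.prod X))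
    (e : C.CH (Y.prod Y)) : C.CH ((X.prod Y).prod (X.prod Y)) :=
  (2 * X.dim : ℚ) • C.diagC (X.prod Y) - C.opR d Y + C.opL X e

lemma isDegree_degHom {d : C.CH (X.prod X)} {e : C.CH (Y.prod Y)} (hd : W.IsDegree X d)
    (he : W.IsDegree Y e) : W.IsDegree (X.prod Y) (degHom C d e) := by
  apply W.isDegree_of_prod
  · exact Submodule.add_mem _ (Submodule.sub_mem _ (Submodule.smul_mem _ _ (C.diagC_mem _))
      (C.opR_mem hd.1)) (C.opL_mem he.1)
  · intro p q a ha b hb
    rw [degHom, act_add, act_sub, act_smul, LinearMap.add_apply, LinearMap.sub_apply,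
      LinearMap.smul_apply, act_diagC, W.act_opR, W.act_opL he.1 ha, W.coact_of_isDegree hd ha,
      he.2 q b hb, map_smul, map_smul, smul_mul_assoc, mul_smul_comm]
    push_cast
    module

/-- The degree operator on `X × Y` which acts on external products by `d` and `e`. -/
noncomputable def degExt (C : ChowTheory.{u, v} 𝒱) {X Y : 𝒱.Obj} (d : C.CH (X.prod X))
    (e : C.CH (Y.prod Y)) : C.CH ((X.prod Y).prod (X.prod Y)) :=
  C.opM d Y + C.opL X e

lemma isDegree_degExt {d : C.CH (X.prod X)} {e : C.CH (Y.prod Y)} (hd : W.IsDegree X d)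
    (he : W.IsDegree Y e) : W.IsDegree (X.prod Y) (degExt C d e) := by
  apply W.isDegree_of_prod
  · exact Submodule.add_mem _ (C.opM_mem hd.1) (C.opL_mem he.1)
  · intro p q a ha b hb
    rw [degExt, act_add, LinearMap.add_apply, W.act_opM, W.act_opL he.1 ha, hd.2 p a ha,
      he.2 q b hb, map_smul, map_smul, smul_mul_assoc, mul_smul_comm]
    push_cast
    module

end WeilTheory

end Pool.Agent.R903
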