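import Pool.Agent.R903.Ring

/-!
# Products and transposes of correspondences
-/

open CategoryTheory CategoryTheory.Limits AlgebraicGeometry
open Pool.Agent.H914 Pool.Agent.H914.VarClass Pool.Agent.H914.VarClass.Obj

universe u v w

namespace Pool.Agent.R903

variable {k : Type u} [Field k] {𝒱 : VarClass k}

section Maps

variable {X Y Z X' Y' Z' X'' Y'' T : 𝒱.Obj}

/-- the product of two morphisms -/
noncomputable def prodMap (f : X ⟶ X') (g : Y ⟶ Y') : X.prod Y ⟶ X'.prod Y' :=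
  lift (fst X Y ≫ f) (snd X Y ≫ g)

@[reassoc (attr := simp)]
lemma prodMap_fst (f : X ⟶ X') (g : Y ⟶ Y') : prodMap f g ≫ fst X' Y' = fst X Y ≫ f := by
  simp [prodMap]
@[reassoc (attr := simp)]
lemma prodMap_snd (f : X ⟶ X') (g : Y ⟶ Y') : prodMap f g ≫ snd X' Y' = snd X Y ≫ g := by
  simp [prodMap]

/-- the swap -/
noncomputable def swap (X Y : 𝒱.Obj) : X.prod Y ⟶ Y.prod X := lift (snd X Y) (fst X Y)

@[reassoc (attr := simp)]
lemma swap_fst : swap X Y ≫ fst Y X = snd X Y := by simp [swap]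
@[reassoc (attr := simp)]
lemma swap_snd : swap X Y ≫ snd Y X = fst X Y := by simp [swap]

instance : IsIso (swap X Y) := isIso_swap

end Maps

namespace ChowTheory

variable (C : ChowTheory.{u, v} 𝒱) {X Y Z X' Y' Z' X'' Y'' T P Q P1 P2 Q1 Q2 : 𝒱.Obj}

lemma pull_fst_push (f : X ⟶ X') (x : C.CH X) :
    C.pull (fst X' Y) (C.push f x) = C.push (prodMap f (𝟙 Y)) (C.pull (fst X Y) x) := by
  refine C.base_change (T := Y) f (prodMap f (𝟙 Y)) (fst X Y) (fst X' Y) (snd X' Y) (by simp)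
    isIso_lift_fst_snd ?_ x
  have : prodMap f (𝟙 Y) ≫ snd X' Y = snd X Y := by simp
  rw [this]; exact isIso_lift_fst_snd

lemma pull_snd_push (g : Y ⟶ Y') (y : C.CH Y) :
    C.pull (snd X Y') (C.push g y) = C.push (prodMap (𝟙 X) g) (C.pull (snd X Y) y) := by
  refine C.base_change (T := X) g (prodMap (𝟙 X) g) (snd X Y) (snd X Y') (fst X Y') (by simp)
    isIso_swap ?_ y
  have : prodMap (𝟙 X) g ≫ fst X Y' = fst X Y := by simp
  rw [this]; exact isIso_swap

lemma push_prodMap_ext (f : X ⟶ X') (g : Y ⟶ Y') (x : C.CH X) (y : C.CH Y) :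
    C.push (prodMap f g) (C.ext x y) = C.ext (C.push f x) (C.push g y) := by
  have e : prodMap f g = prodMap f (𝟙 Y) ≫ prodMap (𝟙 X') g := by
    apply hom_ext_prod <;> simp
  have e1 : snd X Y = prodMap f (𝟙 Y) ≫ snd X' Y := by simp
  have e2 : fst X' Y = prodMap (𝟙 X') g ≫ fst X' Y' := by simp
  rw [e, C.push_comp, ext, e1, C.pull_comp, C.push_mul, ← C.pull_fst_push, e2, C.pull_comp,
    C.mul_push, ← C.pull_snd_push, ext]

/-- push-forward of the pull-back along an isomorphism to a product -/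
lemma push_pull_iso {A B T : 𝒱.Obj} (φ : A ⟶ B.prod T) [IsIso φ] (y : C.CH (B.prod T)) :
    C.push φ (C.pull φ y) = y := by
  have h1 : C.push φ 1 = 1 := by
    have h := C.base_change (T := T) (𝟙 B) φ (φ ≫ fst B T) (fst B T) (snd B T) (by simp)
      isIso_lift_fst_snd ?_ 1
    · rw [C.push_id, map_one, map_one] at h
      exact h.symm
    · have : lift (φ ≫ fst B T) (φ ≫ snd B T) = φ := by
        rw [← comp_lift, lift_fst_snd, Category.comp_id]
      rw [this]; infer_instance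
  have h2 := C.push_mul φ 1 y
  rwa [one_mul, h1, one_mul] at h2

lemma push_injective {A B : 𝒱.Obj} (φ : A ⟶ B) [IsIso φ] : Function.Injective (C.push φ) := by
  intro x y h
  have h2 := congrArg (C.push (inv φ)) h
  rwa [← C.push_comp, ← C.push_comp, IsIso.hom_inv_id, C.push_id, C.push_id] at h2

/-- Künneth formula for the push-forward. -/
lemma push_kunneth (f : P ⟶ Q) (f1 : P1 ⟶ Q1) (f2 : P2 ⟶ Q2) (R1 : P ⟶ P1) (R2 : P ⟶ P2)
    (m1 : Q ⟶ Q1) (m2 : Q ⟶ Q2) (hR : IsIso (lift R1 R2)) (hm : IsIso (lift m1 m2))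
    (e1 : f ≫ m1 = R1 ≫ f1) (e2 : f ≫ m2 = R2 ≫ f2) (u : C.CH P1) (v : C.CH P2) :
    C.push f (C.pull R1 u * C.pull R2 v) =
      C.pull m1 (C.push f1 u) * C.pull m2 (C.push f2 v) := by
  have h1 : ∀ (A A1 A2 : 𝒱.Obj) (r1 : A ⟶ A1) (r2 : A ⟶ A2) (x : C.CH A1) (y : C.CH A2),
      C.pull (lift r1 r2) (C.ext x y) = C.pull r1 x * C.pull r2 y := by
    intro A A1 A2 r1 r2 x y
    rw [ext, C.pull_mul, ← C.pull_comp, ← C.pull_comp, lift_fst, lift_snd]
  have h2 : f ≫ lift m1 m2 = lift R1 R2 ≫ prodMap f1 f2 := by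
    apply hom_ext_prod <;> simp [e1, e2]
  apply C.push_injective (lift m1 m2)
  rw [← h1, ← h1, C.push_pull_iso, ← C.push_comp, h2, C.push_comp, C.push_pull_iso,
    C.push_prodMap_ext]

/-- `α ⊗ β`, a correspondence from `X × Y` to `X' × Y'` -/
noncomputable def tensor (α : C.CH (X.prod X')) (β : C.CH (Y.prod Y')) :
    C.CH ((X.prod Y).prod (X'.prod Y')) :=
  C.pull (prodMap (fst X Y) (fst X' Y')) α * C.pull (prodMap (snd X Y) (snd X' Y')) β

lemma isIso_shuffle : IsIso (lift (prodMap (fst X Y) (fst X' Y')) (prodMap (snd X Y) (snd X' Y')))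
    := by
  refine isIso_of (lift (lift (fst _ _ ≫ fst _ _) (snd _ _ ≫ fst _ _))
    (lift (fst _ _ ≫ snd _ _) (snd _ _ ≫ snd _ _))) ?_ ?_
  · apply hom_ext_prod <;> apply hom_ext_prod <;> simp
  · apply hom_ext_prod <;> apply hom_ext_prod <;> simp

lemma tensor_mem {α : C.CH (X.prod X')} {β : C.CH (Y.prod Y')} {p q : ℕ}
    (hα : α ∈ C.gr _ p) (hβ : β ∈ C.gr _ q) : C.tensor α β ∈ C.gr _ (p + q) :=
  C.mul_mem (C.pull_mem _ hα) (C.pull_mem _ hβ)

lemma isIso_shuffle3 : IsIso (lift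
    (prodMap (fst X Y) (prodMap (fst X' Y') (fst X'' Y'')))
    (prodMap (snd X Y) (prodMap (snd X' Y') (snd X'' Y'')))) := by
  refine isIso_of (lift (lift (fst _ _ ≫ fst _ _) (snd _ _ ≫ fst _ _))
    (lift (lift (fst _ _ ≫ snd _ _ ≫ fst _ _) (snd _ _ ≫ snd _ _ ≫ fst _ _))
      (lift (fst _ _ ≫ snd _ _ ≫ snd _ _) (snd _ _ ≫ snd _ _ ≫ snd _ _)))) ?_ ?_
  · apply hom_ext_prod
    · apply hom_ext_prod <;> simp
    · apply hom_ext_prod <;> apply hom_ext_prod <;> simp
  · apply hom_ext_prod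
    · apply hom_ext_prod
      · simp
      · apply hom_ext_prod <;> simp
    · apply hom_ext_prod
      · simp
      · apply hom_ext_prod <;> simp

lemma comp_tensor (α : C.CH (X.prod X')) (β : C.CH (Y.prod Y')) (α' : C.CH (X'.prod X''))
    (β' : C.CH (Y'.prod Y'')) :
    C.comp (C.tensor α β) (C.tensor α' β') = C.tensor (C.comp α α') (C.comp β β') := by
  have h := C.push_kunneth (p13 (X.prod Y) (X'.prod Y') (X''.prod Y'')) (p13 X X' X'')
    (p13 Y Y' Y'') (prodMap (fst X Y) (prodMap (fst X' Y') (fst X'' Y'')))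
    (prodMap (snd X Y) (prodMap (snd X' Y') (snd X'' Y'')))
    (prodMap (fst X Y) (fst X'' Y'')) (prodMap (snd X Y) (snd X'' Y''))
    isIso_shuffle3 isIso_shuffle
    (by apply hom_ext_prod <;> simp) (by apply hom_ext_prod <;> simp)
    (C.pull (p12 X X' X'') α * C.pull (snd _ _) α')
    (C.pull (p12 Y Y' Y'') β * C.pull (snd _ _) β')
  refine Eq.trans ?_ h
  rw [comp, tensor, tensor]
  congr 1
  simp only [C.pull_mul, ← C.pull_comp]
  have e1 : p12 (X.prod Y) (X'.prod Y') (X''.prod Y'') ≫ prodMap (fst X Y) (fst X' Y') =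
    prodMap (fst X Y) (prodMap (fst X' Y') (fst X'' Y'')) ≫ p12 X X' X'' := by
    apply hom_ext_prod <;> simp
  have e2 : p12 (X.prod Y) (X'.prod Y') (X''.prod Y'') ≫ prodMap (snd X Y) (snd X' Y') =
    prodMap (snd X Y) (prodMap (snd X' Y') (snd X'' Y'')) ≫ p12 Y Y' Y'' := by
    apply hom_ext_prod <;> simp
  rw [e1, e2, prodMap_snd, prodMap_snd]
  ring

lemma tensor_diagC (X Y : 𝒱.Obj) :
    C.tensor (C.diagC X) (C.diagC Y) = C.diagC (X.prod Y) := by
  have h := C.push_kunneth (Obj.diag (X.prod Y)) (Obj.diag X) (Obj.diag Y) (fst X Y) (snd X Y)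
    (prodMap (fst X Y) (fst X Y)) (prodMap (snd X Y) (snd X Y)) isIso_lift_fst_snd isIso_shuffle
    (by apply hom_ext_prod <;> simp) (by apply hom_ext_prod <;> simp) 1 1
  rw [tensor, diagC, diagC, ← h, map_one, map_one, one_mul, diagC]

lemma opL_eq (w : C.CH (Y.prod Y)) : C.opL X w = C.tensor (C.diagC X) w := by
  have h := C.push_kunneth (lift (p12 X Y Y) (p13 X Y Y)) (Obj.diag X) (𝟙 _) (fst X (Y.prod Y))
    (snd X (Y.prod Y))
    (prodMap (fst X Y) (fst X Y)) (prodMap (snd X Y) (snd X Y)) isIso_lift_fst_snd isIso_shuffle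
    (by apply hom_ext_prod <;> simp) (by apply hom_ext_prod <;> simp) 1 w
  rw [tensor, diagC, opL, span]
  rw [map_one, one_mul, C.push_id] at h
  exact h

lemma opM_eq (w : C.CH (X.prod X)) : C.opM w Y = C.tensor w (C.diagC Y) := by
  have h := C.push_kunneth (lift (p13 X X Y) (snd X (X.prod Y))) (𝟙 _) (Obj.diag Y)
    (p12 X X Y) (snd X (X.prod Y) ≫ snd X Y)
    (prodMap (fst X Y) (fst X Y)) (prodMap (snd X Y) (snd X Y)) isIso_assoc isIso_shuffle
    (by apply hom_ext_prod <;> simp) (by apply hom_ext_prod <;> simp) w 1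
  rw [tensor, diagC, opM, span]
  rw [map_one, mul_one, C.push_id] at h
  exact h

lemma tensor_eq (α : C.CH (X.prod X)) (β : C.CH (Y.prod Y)) :
    C.tensor α β = C.comp (C.opM α Y) (C.opL X β) := by
  rw [opL_eq, opM_eq, comp_tensor, C.comp_diagC, C.diagC_comp]

lemma tensor_add (α : C.CH (X.prod X')) (β β' : C.CH (Y.prod Y')) :
    C.tensor α (β + β') = C.tensor α β + C.tensor α β' := by
  simp [tensor, mul_add]

lemma tensor_sum {ι : Type*} (s : Finset ι) (α : C.CH (X.prod X')) (β : ι → C.CH (Y.prod Y')) :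
    C.tensor α (∑ i ∈ s, β i) = ∑ i ∈ s, C.tensor α (β i) := by
  simp [tensor, Finset.mul_sum]

lemma sum_tensor {ι : Type*} (s : Finset ι) (α : ι → C.CH (X.prod X')) (β : C.CH (Y.prod Y')) :
    C.tensor (∑ i ∈ s, α i) β = ∑ i ∈ s, C.tensor (α i) β := by
  simp [tensor, Finset.sum_mul]

lemma tensor_zero (α : C.CH (X.prod X')) : C.tensor α (0 : C.CH (Y.prod Y')) = 0 := by
  simp [tensor]

lemma zero_tensor (β : C.CH (Y.prod Y')) : C.tensor (0 : C.CH (X.prod X')) β = 0 := by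
  simp [tensor]

/-- the transpose -/
noncomputable def transp (γ : C.CH (X.prod Y)) : C.CH (Y.prod X) := C.pull (swap Y X) γ

lemma transp_mem {γ : C.CH (X.prod Y)} {p : ℕ} (h : γ ∈ C.gr _ p) : C.transp γ ∈ C.gr _ p :=
  C.pull_mem _ h

lemma transp_sum {ι : Type*} (s : Finset ι) (α : ι → C.CH (X.prod Y)) :
    C.transp (∑ i ∈ s, α i) = ∑ i ∈ s, C.transp (α i) := by
  simp [transp]

lemma transp_zero : C.transp (0 : C.CH (X.prod Y)) = 0 := by
  simp [transp]

/-- the isomorphism `Z × (Y × X) → X × (Y × Z)` -/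
noncomputable def rev (X Y Z : 𝒱.Obj) : Z.prod (Y.prod X) ⟶ X.prod (Y.prod Z) :=
  lift (snd _ _ ≫ snd _ _) (lift (snd _ _ ≫ fst _ _) (fst _ _))

instance : IsIso (rev X Y Z) := by
  refine isIso_of (rev Z Y X) ?_ ?_ <;>
  · rw [rev]
    apply hom_ext_prod
    · simp [rev]
    · apply hom_ext_prod <;> simp [rev]

lemma comp_transp (α : C.CH (X.prod Y)) (β : C.CH (Y.prod Z)) :
    C.comp (C.transp β) (C.transp α) = C.transp (C.comp α β) := by
  have e1 : p12 Z Y X ≫ swap Z Y = rev X Y Z ≫ snd X (Y.prod Z) := by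
    apply hom_ext_prod <;> simp [rev]
  have e2 : snd Z (Y.prod X) ≫ swap Y X = rev X Y Z ≫ p12 X Y Z := by
    apply hom_ext_prod <;> simp [rev]
  have e3 : p13 Z Y X ≫ swap Z X = rev X Y Z ≫ p13 X Y Z := by
    apply hom_ext_prod <;> simp [rev]
  apply C.push_injective (swap Z X)
  rw [transp, transp, transp, C.push_pull_iso, comp, ← C.pull_comp, ← C.pull_comp, e1, e2,
    C.pull_comp, C.pull_comp, ← C.pull_mul, ← C.push_comp, e3, C.push_comp, C.push_pull_iso, comp,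
    mul_comm]

lemma transp_diagC (X : 𝒱.Obj) : C.transp (C.diagC X) = C.diagC X := by
  apply C.push_injective (swap X X)
  rw [transp, C.push_pull_iso, diagC, ← C.push_comp]
  congr 1
  have : Obj.diag X ≫ swap X X = Obj.diag X := by apply hom_ext_prod <;> simp
  rw [this]

/-- the isomorphism `(X × Y) × (X' × Y') → X' × (X × (Y × Y'))` -/
noncomputable def lieb (X Y X' Y' : 𝒱.Obj) :
    (X.prod Y).prod (X'.prod Y') ⟶ X'.prod (X.prod (Y.prod Y')) :=
  lift (snd _ _ ≫ fst _ _) (lift (fst _ _ ≫ fst _ _) (lift (fst _ _ ≫ snd _ _)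
    (snd _ _ ≫ snd _ _)))

instance : IsIso (lieb X Y X' Y') := by
  refine isIso_of (lift (lift (snd _ _ ≫ fst _ _) (snd _ _ ≫ snd _ _ ≫ fst _ _))
    (lift (fst _ _) (snd _ _ ≫ snd _ _ ≫ snd _ _))) ?_ ?_
  · rw [lieb]
    apply hom_ext_prod <;> apply hom_ext_prod <;> simp
  · rw [lieb]
    apply hom_ext_prod
    · simp
    · apply hom_ext_prod
      · simp
      · apply hom_ext_prod <;> simp

lemma comp_comp (α : C.CH (X.prod Y)) (β : C.CH (Y.prod Z)) (γ : C.CH (Z.prod T)) :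
    C.comp (C.comp α β) γ = C.push (q124 X Y Z T ≫ p13 X Y T)
      (C.pull (p12 X Y (Z.prod T)) α * C.pull (snd X _ ≫ p12 Y Z T) β *
        C.pull (snd X _ ≫ snd Y _) γ) := by
  have h2 : C.pull (snd X (Y.prod T)) (C.push (p13 Y Z T)
      (C.pull (p12 Y Z T) β * C.pull (snd Y (Z.prod T)) γ)) =
      C.push (q124 X Y Z T) (C.pull (snd X _)
        (C.pull (p12 Y Z T) β * C.pull (snd Y (Z.prod T)) γ)) := by
    refine C.base_change (T := X) _ _ _ (snd X (Y.prod T)) (fst X _) ?_ isIso_swap ?_ _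
    · simp
    · rw [q124_fst]; exact isIso_swap
  have e3 : q124 X Y Z T ≫ p12 X Y T = p12 X Y (Z.prod T) := by
    apply hom_ext_prod <;> simp
  rw [comp_assoc, comp, comp, h2, ← C.mul_push, C.push_comp, C.pull_mul, ← C.pull_comp,
    ← C.pull_comp, ← C.pull_comp, e3, mul_assoc]

/-- Lieberman's lemma -/
lemma act_tensor (α : C.CH (X'.prod X)) (β : C.CH (Y.prod Y')) (γ : C.CH (X.prod Y)) :
    C.act (C.tensor (C.transp α) β) γ = C.comp (C.comp α γ) β := by
  have e0 : snd (X.prod Y) (X'.prod Y') = lieb X Y X' Y' ≫ q124 X' X Y Y' ≫ p13 X' X Y' := by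
    apply hom_ext_prod <;> simp [lieb]
  have e1 : prodMap (fst X Y) (fst X' Y') ≫ swap X X' =
      lieb X Y X' Y' ≫ p12 X' X (Y.prod Y') := by
    apply hom_ext_prod <;> simp [lieb]
  have e2 : prodMap (snd X Y) (snd X' Y') = lieb X Y X' Y' ≫ snd X' _ ≫ snd X _ := by
    apply hom_ext_prod <;> simp [lieb]
  have e3 : fst (X.prod Y) (X'.prod Y') = lieb X Y X' Y' ≫ snd X' _ ≫ p12 X Y Y' := by
    apply hom_ext_prod <;> simp [lieb]
  rw [act_apply, e0, C.push_comp, tensor, transp, ← C.pull_comp, e1, e2, e3, C.pull_comp,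
    C.pull_comp (lieb X Y X' Y') (snd _ _ ≫ snd _ _),
    C.pull_comp (lieb X Y X' Y') (snd _ _ ≫ p12 _ _ _), ← C.pull_mul, ← C.pull_mul,
    C.push_pull_iso, comp_comp]
  congr 1
  ring

end ChowTheory

end Pool.Agent.R903
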