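import Pool.Agent.R903.MurreDefs
import Pool.Agent.R903.Tensor
import Pool.Agent.R903.Coh

/-!
# Chow–Künneth decompositions
-/

open CategoryTheory CategoryTheory.Limits AlgebraicGeometry
open Pool.Agent.H914 Pool.Agent.H914.VarClass Pool.Agent.H914.VarClass.Obj

universe u v w

namespace Pool.Agent.R903

variable {k : Type u} [Field k] {𝒱 : VarClass k} {C : ChowTheory.{u, v} 𝒱}

namespace WeilTheory

variable (W : WeilTheory.{u, v, w} C) {X Y : 𝒱.Obj}

section Basic

variable {W} {π π' : ℕ → C.CH (X.prod X)}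

lemma IsCK.comp_eq (h : W.IsCK X π) (i j : ℕ) :
    C.comp (π i) (π j) = if i = j then π i else 0 := by
  split_ifs with hij
  · rw [← hij, h.idem]
  · exact h.orth i j hij

lemma IsCK.eq_zero (h : W.IsCK X π) {j : ℕ} (hj : 2 * X.dim < j) : π j = 0 := by
  rw [← C.comp_diagC (π j), ← h.sum, C.comp_sum]
  refine Finset.sum_eq_zero fun i hi => h.orth j i ?_
  rw [Finset.mem_range] at hi
  omega

lemma IsCK.act_act (h : W.IsCK X π) (i j : ℕ) (x : C.CH X) :
    C.act (π i) (C.act (π j) x) = if i = j then C.act (π i) x else 0 := by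
  rw [← C.act_comp, h.comp_eq]
  split_ifs with h1 h2 h2
  · rw [h1]
  · exact absurd h1.symm h2
  · exact absurd h2.symm h1
  · rw [C.act_zero, LinearMap.zero_apply]

lemma act_sum_apply {ι : Type*} (s : Finset ι) (γ : ι → C.CH (X.prod Y)) (x : C.CH X) :
    C.act (∑ i ∈ s, γ i) x = ∑ i ∈ s, C.act (γ i) x := by
  rw [C.act_sum, LinearMap.sum_apply]

lemma IsCK.sum_act (h : W.IsCK X π) (x : C.CH X) :
    ∑ j ∈ Finset.range (2 * X.dim + 1), C.act (π j) x = x := by
  rw [← act_sum_apply, h.sum, C.act_diagC]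

lemma mem_ckFil (h : W.IsCK X π) {i k : ℕ} {x : C.CH X} :
    x ∈ C.ckFil π i k ↔ x ∈ C.gr X i ∧ ∀ b, 2 * i < b + k → C.act (π b) x = 0 := by
  constructor
  · rintro ⟨y, hy, rfl⟩
    refine ⟨C.act_mem (Submodule.sum_mem _ fun j _ => h.mem j) hy rfl, fun b hb => ?_⟩
    rw [act_sum_apply, map_sum]
    refine Finset.sum_eq_zero fun j hj => ?_
    rw [Finset.mem_range] at hj
    rw [h.act_act, if_neg (by omega)]
  · rintro ⟨hx, h0⟩
    refine ⟨x, hx, ?_⟩
    rw [act_sum_apply]
    have h1 : ∑ j ∈ Finset.range (2 * i + 1 - k), C.act (π j) x =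
        ∑ j ∈ Finset.range (2 * i + 1 - k) ∩ Finset.range (2 * X.dim + 1), C.act (π j) x := by
      refine (Finset.sum_subset Finset.inter_subset_left fun j _ h2 => ?_).symm
      have : 2 * X.dim < j := by
        by_contra h3
        exact h2 (Finset.mem_inter.2 ⟨‹_›, Finset.mem_range.2 (by omega)⟩)
      rw [h.eq_zero this, C.act_zero, LinearMap.zero_apply]
    have h2 : ∑ j ∈ Finset.range (2 * X.dim + 1), C.act (π j) x =
        ∑ j ∈ Finset.range (2 * i + 1 - k) ∩ Finset.range (2 * X.dim + 1), C.act (π j) x := by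
      refine (Finset.sum_subset Finset.inter_subset_right fun j h1 h2 => ?_).symm
      refine h0 j ?_
      by_contra h3
      exact h2 (Finset.mem_inter.2 ⟨Finset.mem_range.2 (by omega), ‹_›⟩)
    rw [h1, ← h2, h.sum_act]

lemma ckFil_zero_eq_iff (h : W.IsCK X π) {i : ℕ} :
    C.ckFil π i 0 = C.gr X i ↔ ∀ b, 2 * i < b → ∀ x ∈ C.gr X i, C.act (π b) x = 0 := by
  constructor
  · intro h1 b hb x hx
    rw [← h1, mem_ckFil h] at hx
    exact hx.2 b (by omega)
  · intro h1
    ext x
    rw [mem_ckFil h]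
    exact ⟨fun h2 => h2.1, fun h2 => ⟨h2, fun b hb => h1 b (by omega) x h2⟩⟩

end Basic

/-! ### transposes and products of Chow–Künneth decompositions -/

lemma coact_scal {γ : C.CH (X.prod X)} {q : ℕ} (hγ : γ ∈ C.gr (X.prod X) q) (c : ℕ → W.K)
    (h : ∀ l, ∀ a ∈ W.gr X l, W.act γ a = c l • a) {j : ℕ} {a : W.H X}
    (ha : a ∈ W.gr X j) : W.coact γ a = c (2 * X.dim - j) • a := by
  by_cases hj : j ≤ 2 * X.dim
  swap
  · rw [W.gr_eq_bot X j (by omega), Submodule.mem_bot] at ha
    rw [ha]
    simp [coact]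
  have hcl := W.cl_mem hγ
  apply W.tr_ext
  intro b
  rw [coact, W.tr_push]
  refine gr_induction (W.isInternal X) (p := fun b =>
    W.tr (X.prod X) (W.cl _ γ * W.map (snd X X) a * W.map (fst X X) b) =
      W.tr X (c (2 * X.dim - j) • a * b)) ?_ ?_ b
  · intro l b hb
    have h1 : W.tr X (W.act γ b * a) = c l * W.tr X (b * a) := by
      rw [h l b hb, smul_mul_assoc, map_smul, smul_eq_mul]
    rw [act_apply, W.tr_push] at h1
    rw [mul_assoc, W.comm (W.map_mem _ ha) (W.map_mem _ hb), mul_smul_comm, map_smul, ← mul_assoc,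
      h1, smul_mul_assoc, map_smul, smul_eq_mul, smul_eq_mul]
    by_cases h : j + l = 2 * X.dim
    · have hl : 2 * X.dim - j = l := by omega
      rw [W.comm hb ha, map_smul, smul_eq_mul, hl]
      have h2 : (-1 : W.K) ^ (j * l) * (-1 : W.K) ^ (l * j) = 1 := by
        rw [mul_comm l j, ← pow_add, ← two_mul, pow_mul]; simp
      linear_combination (c l) * W.tr X (a * b) * h2
    · rw [W.tr_eq_zero (W.mul_mem hb ha) (by omega), W.tr_eq_zero (W.mul_mem ha hb) h]
      simp
  · intro c c' h h'
    simp only [map_add, mul_add, h, h']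

lemma tr_map_swap (c : W.H (Y.prod X)) :
    W.tr (X.prod Y) (W.map (swap X Y) c) = W.tr (Y.prod X) c := by
  refine W.kunneth_induction (p := fun c => W.tr (X.prod Y) (W.map (swap X Y) c) =
    W.tr (Y.prod X) c) ?_ ?_ c
  · intro a b ha hb
    simp only [map_add, ha, hb]
  · intro i j a ha b hb
    rw [W.map_mul', ← W.map_comp, ← W.map_comp, swap_fst, swap_snd, W.tr_prod,
      W.comm (W.map_mem _ ha) (W.map_mem _ hb), map_smul, W.tr_prod, smul_eq_mul]
    by_cases hi : i = 2 * Y.dim
    · rw [hi, mul_assoc 2, pow_mul]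
      simp only [even_two, Even.neg_pow, one_pow, one_mul]
      ring
    · rw [W.tr_eq_zero ha hi]; simp

lemma push_map_swap (c : W.H (Y.prod X)) :
    W.push (swap X Y) (W.map (swap X Y) c) = c := by
  apply W.tr_ext
  intro d
  rw [W.tr_push, ← W.map_mul', W.tr_map_swap]

lemma act_transp (γ : C.CH (X.prod Y)) (b : W.H Y) :
    W.act (C.transp γ) b = W.coact γ b := by
  have e1 : fst Y X = swap Y X ≫ snd X Y := by simp
  have e2 : snd Y X = swap Y X ≫ fst X Y := by simp
  rw [act_apply, coact, ChowTheory.transp, W.cl_pull, e1, W.map_comp, ← W.map_mul', e2, W.push_comp,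
    W.push_map_swap]

/-- The transposed decomposition. -/
noncomputable def transCK (C : ChowTheory.{u, v} 𝒱) {X : 𝒱.Obj} (π : ℕ → C.CH (X.prod X)) (j : ℕ) :
    C.CH (X.prod X) :=
  if j ≤ 2 * X.dim then C.transp (π (2 * X.dim - j)) else 0

variable {W}

lemma IsCK.transp {π : ℕ → C.CH (X.prod X)} (h : W.IsCK X π) : W.IsCK X (transCK C π) where
  mem j := by
    rw [transCK]
    split_ifs
    · exact C.transp_mem (h.mem _)
    · exact Submodule.zero_mem _
  idem j := by
    rw [transCK]
    split_ifs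
    · rw [C.comp_transp, h.idem]
    · exact C.comp_zero _
  orth i j hij := by
    rw [transCK, transCK]
    split_ifs with h1 h2 h2
    · rw [C.comp_transp, h.orth _ _ (by omega), C.transp_zero]
    · exact C.comp_zero _
    · exact C.zero_comp _
    · exact C.comp_zero _
  sum := by
    have h1 : ∀ j ∈ Finset.range (2 * X.dim + 1), transCK C π j = C.transp (π (2 * X.dim - j)) := by
      intro j hj
      rw [Finset.mem_range] at hj
      rw [transCK, if_pos (by omega)]
    rw [Finset.sum_congr rfl h1]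
    have h2 := Finset.sum_range_reflect (fun j => C.transp (π j)) (2 * X.dim + 1)
    simp only [Nat.add_sub_cancel] at h2
    rw [h2, ← C.transp_sum, h.sum, C.transp_diagC]
  proj j := by
    intro l a ha
    rw [transCK]
    by_cases hl : 2 * X.dim < l
    · rw [W.gr_eq_bot X l hl, Submodule.mem_bot] at ha
      rw [ha]; simp
    split_ifs with h1 h2 h2
    · rw [W.act_transp, W.coact_scal (h.mem _) (fun l => if l = 2 * X.dim - j then 1 else 0)
        (fun l a ha => ?_) ha]
      · rw [if_pos (by omega), one_smul]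
      · rw [h.proj _ l a ha]; split_ifs <;> simp
    · rw [W.act_transp, W.coact_scal (h.mem _) (fun l => if l = 2 * X.dim - j then 1 else 0)
        (fun l a ha => ?_) ha]
      · rw [if_neg (by omega), zero_smul]
      · rw [h.proj _ l a ha]; split_ifs <;> simp
    · omega
    · rw [W.act_zero, LinearMap.zero_apply]

/-- The product decomposition. -/
noncomputable def prodCK (C : ChowTheory.{u, v} 𝒱) {X Y : 𝒱.Obj} (π : ℕ → C.CH (X.prod X))
    (ρ : ℕ → C.CH (Y.prod Y)) (m : ℕ) : C.CH ((X.prod Y).prod (X.prod Y)) :=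
  ∑ p ∈ Finset.HasAntidiagonal.antidiagonal m, C.tensor (π p.1) (ρ p.2)

lemma act_tensor_prod {α : C.CH (X.prod X)} {β : C.CH (Y.prod Y)} (hβ : β ∈ C.gr _ Y.dim)
    {p : ℕ} {a : W.H X} (ha : W.act α a ∈ W.gr X p) (b : W.H Y) :
    W.act (C.tensor α β) (W.map (fst X Y) a * W.map (snd X Y) b) =
      W.map (fst X Y) (W.act α a) * W.map (snd X Y) (W.act β b) := by
  rw [C.tensor_eq, W.act_comp _ (C.opL_mem hβ), W.act_opM, W.act_opL hβ ha]

lemma isProjector_of_prod (W : WeilTheory.{u, v, w} C) {m : ℕ}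
    {d : C.CH ((X.prod Y).prod (X.prod Y))}
    (h : ∀ p q, ∀ a ∈ W.gr X p, ∀ b ∈ W.gr Y q,
      W.act d (W.map (fst X Y) a * W.map (snd X Y) b) =
        if p + q = m then W.map (fst X Y) a * W.map (snd X Y) b else 0) :
    IsProjector (W.gr (X.prod Y)) m (W.act d) := by
  have key : ∀ c, W.act d c =
      scal (W.isInternal (X.prod Y)) (fun i => if i = m then 1 else 0) c := by
    intro c
    refine W.kunneth_induction (p := fun c => W.act d c =
      scal (W.isInternal (X.prod Y)) (fun i => if i = m then 1 else 0) c) ?_ ?_ c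
    · intro a b ha hb; rw [map_add, map_add, ha, hb]
    · intro p q a ha b hb
      rw [h p q a ha b hb, scal_apply _ _ (W.mul_mem (W.map_mem _ ha) (W.map_mem _ hb))]
      split_ifs <;> simp
  intro j a ha
  rw [key, scal_apply _ _ ha]
  split_ifs <;> simp

lemma IsCK.prod {π : ℕ → C.CH (X.prod X)} {ρ : ℕ → C.CH (Y.prod Y)} (h : W.IsCK X π)
    (h' : W.IsCK Y ρ) : W.IsCK (X.prod Y) (prodCK C π ρ) := by
  have key : ∀ m m', C.comp (prodCK C π ρ m) (prodCK C π ρ m') =
      ∑ p ∈ Finset.HasAntidiagonal.antidiagonal m, ∑ q ∈ Finset.HasAntidiagonal.antidiagonal m',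
        if p = q then C.tensor (π p.1) (ρ p.2) else 0 := by
    intro m m'
    rw [prodCK, prodCK, C.sum_comp]
    refine Finset.sum_congr rfl fun p _ => ?_
    rw [C.comp_sum]
    refine Finset.sum_congr rfl fun q _ => ?_
    rw [C.comp_tensor, h.comp_eq, h'.comp_eq]
    by_cases h1 : p.1 = q.1
    · by_cases h2 : p.2 = q.2
      · rw [if_pos h1, if_pos h2, if_pos (Prod.ext h1 h2)]
      · rw [if_neg h2, C.tensor_zero, if_neg (fun h3 => h2 (congrArg Prod.snd h3))]
    · rw [if_neg h1, C.zero_tensor, if_neg (fun h3 => h1 (congrArg Prod.fst h3))]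
  refine ⟨fun m => ?_, fun m => ?_, fun m m' hm => ?_, ?_, fun m => ?_⟩
  · exact Submodule.sum_mem _ fun p _ => C.tensor_mem (h.mem _) (h'.mem _)
  · rw [key, prodCK]
    refine Finset.sum_congr rfl fun p hp => ?_
    rw [Finset.sum_ite_eq, if_pos hp]
  · rw [key]
    refine Finset.sum_eq_zero fun p hp => ?_
    rw [Finset.sum_ite_eq, if_neg]
    intro hp'
    rw [Finset.HasAntidiagonal.mem_antidiagonal] at hp hp'
    omega
  · have h1 : ∑ m ∈ Finset.range (2 * (X.prod Y).dim + 1), prodCK C π ρ m =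
        ∑ p ∈ Finset.range (2 * X.dim + 1) ×ˢ Finset.range (2 * Y.dim + 1),
          C.tensor (π p.1) (ρ p.2) := by
      unfold prodCK
      rw [Finset.sum_sigma' (Finset.range (2 * (X.prod Y).dim + 1))
        (fun m => Finset.HasAntidiagonal.antidiagonal m) (fun _ p => C.tensor (π p.1) (ρ p.2))]
      symm
      apply Finset.sum_of_injOn (fun p : ℕ × ℕ => (⟨p.1 + p.2, p⟩ : Σ _ : ℕ, ℕ × ℕ))
      · intro p _ q _ hpq
        simpa using congrArg (fun z : Σ _ : ℕ, ℕ × ℕ => z.2) hpq
      · intro p hp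
        simp only [Finset.coe_product, Set.mem_prod, Finset.mem_coe, Finset.mem_range] at hp
        simp only [Finset.mem_coe, Finset.mem_sigma, Finset.mem_range, Finset.HasAntidiagonal.mem_antidiagonal,
          dim_prod, and_true]
        omega
      · rintro ⟨m, p⟩ hp hnot
        simp only [Finset.mem_sigma, Finset.HasAntidiagonal.mem_antidiagonal] at hp
        simp only [Set.mem_image, Finset.mem_coe, Finset.mem_product, Finset.mem_range,
          not_exists, not_and] at hnot
        by_cases h1 : 2 * X.dim < p.1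
        · rw [h.eq_zero h1, C.zero_tensor]
        · by_cases h2 : 2 * Y.dim < p.2
          · rw [h'.eq_zero h2, C.tensor_zero]
          · exact absurd (by rw [← hp.2]) (hnot p ⟨by omega, by omega⟩)
      · intro p _
        rfl
    rw [h1, Finset.sum_product]
    simp_rw [← C.tensor_sum]
    rw [← C.sum_tensor, h.sum, h'.sum, C.tensor_diagC]
  · apply W.isProjector_of_prod
    intro p q a ha b hb
    rw [prodCK, W.act_sum, LinearMap.sum_apply]
    have h1 : ∀ x ∈ Finset.HasAntidiagonal.antidiagonal m, W.act (C.tensor (π x.1) (ρ x.2))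
        (W.map (fst X Y) a * W.map (snd X Y) b) =
        if x = (p, q) then W.map (fst X Y) a * W.map (snd X Y) b else 0 := by
      intro x _
      have h2 : W.act (π x.1) a = if p = x.1 then a else 0 := h.proj _ p a ha
      have h3 : W.act (ρ x.2) b = if q = x.2 then b else 0 := h'.proj _ q b hb
      rw [act_tensor_prod (h'.mem _) (p := p), h2, h3]
      · by_cases h4 : p = x.1
        · by_cases h5 : q = x.2
          · rw [if_pos h4, if_pos h5, if_pos (Prod.ext h4.symm h5.symm)]
          · rw [if_neg h5, map_zero, mul_zero, if_neg (fun h6 => h5 (congrArg Prod.snd h6).symm)]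
        · rw [if_neg h4, map_zero, zero_mul, if_neg (fun h6 => h4 (congrArg Prod.fst h6).symm)]
      · rw [h2]; split_ifs
        · exact ha
        · exact Submodule.zero_mem _
    rw [Finset.sum_congr rfl h1, Finset.sum_ite_eq']
    simp only [Finset.HasAntidiagonal.mem_antidiagonal]

end WeilTheory

end Pool.Agent.R903
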