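import Pool.Agent.R903.Lin

/-!
# A Jacobson–Morozov theorem for nilpotent elements of `ℚ`-algebras
-/

open Polynomial Finset

namespace Pool.Agent.R903

section Rep

variable {V : Type*} [AddCommGroup V] [Module ℚ V] {x z h : Module.End ℚ V}

/-- `x^(i+1) z = z x^(i+1) + (i+1) (h - i) x^i` -/
lemma jm_comm {K : Type*} [Field K] {V : Type*} [AddCommGroup V] [Module K V]
    {x z h : Module.End K V}
    (h1 : ∀ v, x (z v) = z (x v) + h v) (h2 : ∀ v, h (x v) = x (h v) + (2 : K) • x v)
    (i : ℕ) (v : V) : (x ^ (i + 1)) (z v) =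
      z ((x ^ (i + 1)) v) + ((i : K) + 1) • (h ((x ^ i) v) - (i : K) • (x ^ i) v) := by
  induction i with
  | zero => simp [h1]
  | succ i ih =>
    have e : ∀ w : V, x (h w) = h (x w) - (2 : K) • x w := fun w => by rw [h2]; abel
    rw [pow_succ' x (i + 1), Module.End.mul_apply, ih, map_add, h1, map_smul, map_sub, map_smul, e,
      ← Module.End.mul_apply x, ← pow_succ', ← Module.End.mul_apply x, ← pow_succ']
    push_cast
    module

lemma jm_pow_comm {K : Type*} [Field K] {V : Type*} [AddCommGroup V] [Module K V]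
    {x h : Module.End K V} (h2 : ∀ v, h (x v) = x (h v) + (2 : K) • x v) (i : ℕ) (v : V) :
    h ((x ^ i) v) = (x ^ i) (h v) + (2 * i : K) • (x ^ i) v := by
  induction i with
  | zero => simp
  | succ i ih =>
    rw [pow_succ' x i, Module.End.mul_apply, h2, ih, map_add, map_smul, Module.End.mul_apply]
    push_cast
    module

lemma jm_step (h1 : ∀ v, x (z v) = z (x v) + h v) (h2 : ∀ v, h (x v) = x (h v) + (2 : ℚ) • x v)
    {i : ℕ} {v w : V} (hv : v = (x ^ i) w) (hx : x v = 0) :
    ∃ w', h v - (i : ℚ) • v = (x ^ (i + 1)) w' := by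
  refine ⟨((i : ℚ) + 1)⁻¹ • z w, ?_⟩
  have h3 : (x ^ (i + 1)) w = 0 := by
    rw [pow_succ', Module.End.mul_apply, ← hv, hx]
  have hne : (i : ℚ) + 1 ≠ 0 := by positivity
  rw [map_smul, jm_comm h1 h2, h3, map_zero, zero_add, smul_smul, inv_mul_cancel₀ hne, one_smul,
    hv]

lemma jm_ker_stable (h2 : ∀ v, h (x v) = x (h v) + (2 : ℚ) • x v) :
    ∀ v ∈ LinearMap.ker x, h v ∈ LinearMap.ker x := by
  intro v hv
  rw [LinearMap.mem_ker] at hv ⊢
  have := h2 v
  rw [hv, map_zero, smul_zero, add_zero] at this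
  exact this.symm

lemma jm_ker (h1 : ∀ v, x (z v) = z (x v) + h v) (h2 : ∀ v, h (x v) = x (h v) + (2 : ℚ) • x v)
    {a b : ℕ} (hab : a ≤ b) {v w : V} (hv : v = (x ^ a) w) (hx : x v = 0) :
    ∃ w', aeval h (pol (Ico a b)) v = (x ^ b) w' := by
  induction b, hab using Nat.le_induction with
  | base => exact ⟨w, by simp [pol, hv]⟩
  | succ b hab ih =>
    obtain ⟨w', hw'⟩ := ih
    have h3 : x (aeval h (pol (Ico a b)) v) = 0 :=
      aeval_mem (U := LinearMap.ker x) (jm_ker_stable h2) _ (LinearMap.mem_ker.2 hx)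
    obtain ⟨w'', hw''⟩ := jm_step h1 h2 hw' h3
    refine ⟨w'', ?_⟩
    rw [← hw'', pol, prod_Ico_succ_top hab, mul_comm, map_mul, Module.End.mul_apply]
    rw [map_sub, aeval_X, aeval_C, LinearMap.sub_apply, Module.algebraMap_end_apply]
    rfl

lemma jm_ker_zero (h1 : ∀ v, x (z v) = z (x v) + h v)
    (h2 : ∀ v, h (x v) = x (h v) + (2 : ℚ) • x v) {N a : ℕ} (hN : x ^ N = 0) (ha : a ≤ N)
    {v w : V} (hv : v = (x ^ a) w) (hx : x v = 0) : aeval h (pol (Ico a N)) v = 0 := by
  obtain ⟨w', hw'⟩ := jm_ker h1 h2 ha hv hx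
  rw [hw', hN, LinearMap.zero_apply]

/-- `x^m` is injective on the vectors of weight `-m`. -/
lemma jm_inj (h1 : ∀ v, x (z v) = z (x v) + h v) (h2 : ∀ v, h (x v) = x (h v) + (2 : ℚ) • x v)
    {N : ℕ} (hN : x ^ N = 0) {v : V} {m : ℕ} (hv : h v = (-(m : ℚ)) • v) :
    ∀ k ≤ m, (x ^ k) v = 0 → v = 0 := by
  intro k
  induction k with
  | zero => intro _ h0; simpa using h0
  | succ k ih =>
    intro hk h0
    apply ih (by omega)
    by_cases hkN : k ≤ N
    · have hxu : x ((x ^ k) v) = 0 := by rw [← Module.End.mul_apply, ← pow_succ', h0]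
      have h3 := jm_ker_zero h1 h2 hN hkN (v := (x ^ k) v) (w := v) rfl hxu
      have h4 : h ((x ^ k) v) = (-(m : ℚ) + 2 * k) • (x ^ k) v := by
        rw [jm_pow_comm h2, hv, map_smul, add_smul]
      rw [aeval_eigen h4, smul_eq_zero] at h3
      refine h3.resolve_left (pol_eval_ne fun j hj h5 => ?_)
      rw [mem_Ico] at hj
      have h6 : (2 * k : ℚ) = j + m := by rw [← h5]; ring
      have h7 : 2 * k = j + m := by exact_mod_cast h6
      omega
    · have : x ^ k = 0 := pow_eq_zero_of_le (by omega) hN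
      rw [this, LinearMap.zero_apply]

/-- The operator `h + 2` is surjective on `ker x`. -/
lemma jm_solve (h1 : ∀ v, x (z v) = z (x v) + h v)
    (h2 : ∀ v, h (x v) = x (h v) + (2 : ℚ) • x v) {N : ℕ} (hN : x ^ N = 0) {S : Submodule ℚ V}
    (hS : ∀ v ∈ S, h v ∈ S) {c : V} (hc : x c = 0) (hcS : c ∈ S) :
    ∃ c' ∈ S, x c' = 0 ∧ h c' + (2 : ℚ) • c' = c := by
  have hcop : IsCoprime (X - C (-2 : ℚ)) (pol (range N)) := by
    apply IsCoprime.prod_right
    intro i _
    apply isCoprime_X_sub_C_of_isUnit_sub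
    rw [isUnit_iff_ne_zero]
    have : (0 : ℚ) ≤ (i : ℚ) := Nat.cast_nonneg _
    intro h
    linarith
  obtain ⟨p, q, hpq⟩ := hcop
  have h3 : aeval h (pol (range N)) c = 0 := by
    have := jm_ker_zero (a := 0) h1 h2 hN (Nat.zero_le _) (v := c) (w := c) (by simp) hc
    rwa [Nat.Ico_zero_eq_range] at this
  refine ⟨aeval h p c, aeval_mem hS p hcS,
    aeval_mem (U := LinearMap.ker x) (jm_ker_stable h2) p (LinearMap.mem_ker.2 hc), ?_⟩
  have h4 := congrArg (fun f => aeval h f c) hpq
  simp only [map_add, map_mul, LinearMap.add_apply, Module.End.mul_apply, h3, map_zero, add_zero,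
    map_one, Module.End.one_apply] at h4
  rw [← Module.End.mul_apply (aeval h p), ← map_mul, mul_comm, map_mul, Module.End.mul_apply,
    map_sub, aeval_X, aeval_C, LinearMap.sub_apply, Module.algebraMap_end_apply] at h4
  refine Eq.trans ?_ h4
  module

/-- `x z^(i+1) u = (i+1) (l - i) z^i u` for a highest weight vector `u` of weight `l`. -/
lemma jm_lower (h1 : ∀ v, x (z v) = z (x v) + h v)
    (h3 : ∀ v, h (z v) = z (h v) - (2 : ℚ) • z v) {u : V} {l : ℚ} (hu : h u = l • u)
    (hx : x u = 0) (i : ℕ) :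
    h ((z ^ i) u) = (l - 2 * i) • (z ^ i) u ∧
      x ((z ^ (i + 1)) u) = (((i : ℚ) + 1) * (l - i)) • (z ^ i) u := by
  induction i with
  | zero => simp [hu, h1, hx]
  | succ i ih =>
    obtain ⟨ih1, ih2⟩ := ih
    have e1 : h ((z ^ (i + 1)) u) = (l - 2 * ((i + 1 : ℕ) : ℚ)) • (z ^ (i + 1)) u := by
      rw [pow_succ', Module.End.mul_apply, h3, ih1, map_smul]
      push_cast
      module
    refine ⟨e1, ?_⟩
    rw [pow_succ' z (i + 1), Module.End.mul_apply, h1, ih2, e1, map_smul, ← Module.End.mul_apply,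
      ← pow_succ']
    push_cast
    module

lemma jm_lower_pow (h1 : ∀ v, x (z v) = z (x v) + h v)
    (h3 : ∀ v, h (z v) = z (h v) - (2 : ℚ) • z v) {u : V} {l : ℚ} (hu : h u = l • u)
    (hx : x u = 0) (i : ℕ) :
    (x ^ i) ((z ^ i) u) = (∏ s ∈ range i, (((s : ℚ) + 1) * (l - s))) • u := by
  induction i with
  | zero => simp
  | succ i ih =>
    rw [pow_succ x, Module.End.mul_apply, (jm_lower h1 h3 hu hx i).2, map_smul, ih, smul_smul,
      prod_range_succ, mul_comm]

/-- Semisimplicity: if `(x, h, z)` is an `sl₂`-triple and `x^(n+1) = 0`, then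
`∏_{-n ≤ m ≤ n} (h - m) = 0`. -/
theorem jm_semisimple (h1 : ∀ v, x (z v) = z (x v) + h v)
    (h2 : ∀ v, h (x v) = x (h v) + (2 : ℚ) • x v) (h3 : ∀ v, h (z v) = z (h v) - (2 : ℚ) • z v)
    {n : ℕ} (hn : x ^ (n + 1) = 0) (v : V) :
    aeval (h + algebraMap ℚ (Module.End ℚ V) n) (pol (range (2 * n + 1))) v = 0 := by
  have eig : ∀ (u : V) (m : ℕ), m ≤ 2 * n → h u = ((m : ℚ) - n) • u →
      aeval (h + algebraMap ℚ (Module.End ℚ V) n) (pol (range (2 * n + 1))) u = 0 := by
    intro u m hm hu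
    have h4 : (h + algebraMap ℚ (Module.End ℚ V) n) u = (m : ℚ) • u := by
      rw [LinearMap.add_apply, Module.algebraMap_end_apply, hu]
      module
    rw [aeval_eigen h4, pol_eval_mem (mem_range.2 (by omega)), zero_smul]
  have key : ∀ k, k ≤ n + 1 → ∀ v, (x ^ k) v = 0 →
      aeval (h + algebraMap ℚ (Module.End ℚ V) n) (pol (range (2 * n + 1))) v = 0 := by
    intro k
    induction k with
    | zero => intro _ v hv; rw [pow_zero, Module.End.one_apply] at hv; rw [hv, map_zero]
    | succ k ih =>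
      intro hk v hv
      set w := (x ^ k) v with hw
      have hxw : x w = 0 := by rw [hw, ← Module.End.mul_apply, ← pow_succ', hv]
      have hpw : aeval h (pol (Ico k (n + 1))) w = 0 := jm_ker_zero h1 h2 hn (by omega) hw hxw
      have hsum := sum_lag hpw
      have hxl : ∀ i, x (aeval h (lag (Ico k (n + 1)) i) w) = 0 := fun i =>
        aeval_mem (U := LinearMap.ker x) (jm_ker_stable h2) _ (LinearMap.mem_ker.2 hxw)
      set c : ℕ → ℚ := fun i => ∏ s ∈ range k, (((s : ℚ) + 1) * ((i : ℚ) - s)) with hc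
      have hc0 : ∀ i ∈ Ico k (n + 1), c i ≠ 0 := by
        intro i hi
        rw [mem_Ico] at hi
        rw [hc]
        simp only
        rw [prod_ne_zero_iff]
        intro s hs
        rw [mem_range] at hs
        have h4 : (s : ℚ) < (i : ℚ) := by exact_mod_cast lt_of_lt_of_le hs hi.1
        have h5 : (0 : ℚ) ≤ (s : ℚ) := Nat.cast_nonneg _
        exact mul_ne_zero (by linarith) (by linarith)
      set v' := ∑ i ∈ Ico k (n + 1), (c i)⁻¹ • (z ^ k) (aeval h (lag (Ico k (n + 1)) i) w)
        with hv'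
      have hxv' : (x ^ k) v' = w := by
        rw [hv', map_sum]
        conv_rhs => rw [← hsum]
        refine sum_congr rfl fun i hi => ?_
        rw [map_smul, jm_lower_pow h1 h3 (lag_eigen hpw hi) (hxl i), smul_smul,
          inv_mul_cancel₀ (hc0 i hi), one_smul]
      have hd : (x ^ k) (v - v') = 0 := by rw [map_sub, hxv', ← hw, sub_self]
      have h4 := ih (by omega) _ hd
      have h5 : aeval (h + algebraMap ℚ (Module.End ℚ V) n) (pol (range (2 * n + 1))) v' = 0 := by
        rw [hv', map_sum]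
        refine sum_eq_zero fun i hi => ?_
        rw [map_smul]
        rw [mem_Ico] at hi
        rw [eig _ (n + i - 2 * k) (by omega) ?_, smul_zero]
        rw [(jm_lower h1 h3 (lag_eigen hpw (mem_Ico.2 hi)) (hxl i) k).1]
        congr 1
        have h6 : ((n + i - 2 * k : ℕ) : ℚ) = (n : ℚ) + i - 2 * k := by
          rw [Nat.cast_sub (by omega)]
          push_cast
          ring
        rw [h6]
        ring
      rw [map_sub, h5, sub_zero] at h4
      exact h4
  exact key (n + 1) le_rfl v (by rw [hn, LinearMap.zero_apply])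

end Rep

section HardLefschetz

variable {K : Type*} [Field K] [CharZero K] {V : Type*} [AddCommGroup V] [Module K V]
  {x z h : Module.End K V}

/-- If `x` has the hard Lefschetz property, `z` has degree `-2`, `h = [x, z]` and `[h, x] = 2x`,
then `h` acts on `gr j` as `j - n`. -/
theorem hl_degree {n : ℕ} {gr : ℕ → Submodule K V} (hbot : ∀ j, 2 * n < j → gr j = ⊥)
    (hx : ∀ j, ∀ v ∈ gr j, x v ∈ gr (j + 2)) (hz : ∀ j, ∀ v ∈ gr (j + 2), z v ∈ gr j)
    (hz0 : ∀ j < 2, ∀ v ∈ gr j, z v = 0)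
    (h1 : ∀ v, x (z v) = z (x v) + h v) (h2 : ∀ v, h (x v) = x (h v) + (2 : K) • x v)
    (hL : ∀ j ≤ n, Set.BijOn (fun v => (x ^ (n - j)) v) (gr j) (gr (2 * n - j))) {j : ℕ} {v : V}
    (hv : v ∈ gr j) : h v = ((j : K) - n) • v := by
  have hpow : ∀ (i j : ℕ) (v : V), v ∈ gr j → (x ^ i) v ∈ gr (j + 2 * i) := by
    intro i
    induction i with
    | zero => intro j v hv; simpa using hv
    | succ i ih =>
      intro j v hv
      rw [pow_succ', Module.End.mul_apply]
      have := hx _ _ (ih j v hv)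
      have e : j + 2 * (i + 1) = j + 2 * i + 2 := by ring
      rwa [e]
  have inj : ∀ j ≤ n, ∀ v ∈ gr j, (x ^ (n - j)) v = 0 → v = 0 := by
    intro j hj v hv h0
    exact (hL j hj).injOn hv (Submodule.zero_mem _) (by simpa using h0)
  have hh : ∀ j, ∀ v ∈ gr j, h v ∈ gr j := by
    intro j v hv
    have e : h v = x (z v) - z (x v) := by rw [h1]; abel
    rw [e]
    refine Submodule.sub_mem _ ?_ (hz _ _ (hx _ _ hv))
    by_cases hj : j < 2
    · rw [hz0 j hj v hv, map_zero]; exact Submodule.zero_mem _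
    · obtain ⟨i, rfl⟩ := Nat.exists_eq_add_of_le' (not_lt.1 hj)
      exact hx _ _ (hz _ _ hv)
  -- primitive elements
  have prim : ∀ j ≤ n, ∀ v ∈ gr j, (x ^ (n - j + 1)) v = 0 → h v = ((j : K) - n) • v := by
    intro j hj v hv h0
    have hcast : ((n - j : ℕ) : K) = (n : K) - j := by rw [Nat.cast_sub hj]
    have e1 := jm_comm h1 h2 (n - j) v
    rw [h0, map_zero, zero_add, jm_pow_comm h2, hcast] at e1
    set u := h v - ((j : K) - n) • v with hu
    have hugr : u ∈ gr j := Submodule.sub_mem _ (hh j v hv) (Submodule.smul_mem _ _ hv)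
    have e2 : (x ^ (n - j)) (x (z v) - ((n : K) - j + 1) • u) = 0 := by
      rw [map_sub, map_smul, ← Module.End.mul_apply, ← pow_succ, e1, hu, map_sub, map_smul]
      module
    have hxz : x (z v) ∈ gr j := by
      by_cases hj2 : j < 2
      · rw [hz0 j hj2 v hv, map_zero]; exact Submodule.zero_mem _
      · obtain ⟨i, rfl⟩ := Nat.exists_eq_add_of_le' (not_lt.1 hj2)
        exact hx _ _ (hz _ _ hv)
    have e3 := inj j hj _ (Submodule.sub_mem _ hxz (Submodule.smul_mem _ _ hugr)) e2
    have hne : (n : K) - j + 1 ≠ 0 := by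
      rw [← hcast]
      exact Nat.cast_add_one_ne_zero _
    have e4 : (x ^ (n - j + 1)) u = 0 := by
      have e5 := jm_pow_comm h2 (n - j + 1) v
      rw [h0, map_zero, smul_zero, add_zero] at e5
      rw [hu, map_sub, map_smul, h0, smul_zero, sub_zero, ← e5]
    have hzv : z v = 0 := by
      by_cases hj2 : j < 2
      · exact hz0 j hj2 v hv
      · obtain ⟨i, rfl⟩ := Nat.exists_eq_add_of_le' (not_lt.1 hj2)
        apply inj i (by omega) _ (hz _ _ hv)
        have e6 : n - i = (n - (i + 2) + 1) + 1 := by omega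
        rw [e6, pow_succ, Module.End.mul_apply, sub_eq_zero.1 e3, map_smul, e4, smul_zero]
    rw [hzv, map_zero, zero_sub, neg_eq_zero, smul_eq_zero] at e3
    exact sub_eq_zero.1 (e3.resolve_left hne)
  have low : ∀ j, j ≤ n → ∀ v ∈ gr j, h v = ((j : K) - n) • v := by
    intro j
    induction j using Nat.strong_induction_on with
    | _ j ih =>
      intro hj v hv
      by_cases hj2 : j < 2
      · apply prim j hj v hv
        have := hpow (n - j + 1) j v hv
        rwa [hbot _ (by omega), Submodule.mem_bot] at this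
      · obtain ⟨i, rfl⟩ := Nat.exists_eq_add_of_le' (not_lt.1 hj2)
        have hmem := hpow (n - (i + 2) + 1) (i + 2) v hv
        have e : i + 2 + 2 * (n - (i + 2) + 1) = 2 * n - i := by omega
        rw [e] at hmem
        obtain ⟨w, hw, hw'⟩ := (hL i (by omega)).surjOn hmem
        simp only at hw'
        have e6 : n - i = (n - (i + 2) + 1) + 1 := by omega
        rw [e6, pow_succ, Module.End.mul_apply] at hw'
        have e7 := prim (i + 2) hj (v - x w) (Submodule.sub_mem _ hv (hx _ _ hw))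
          (by rw [map_sub, hw', sub_self])
        have e8 := ih i (by omega) (by omega) w hw
        have e9 : h (x w) = (((i + 2 : ℕ) : K) - n) • x w := by
          rw [h2, e8, map_smul]
          push_cast
          module
        rw [map_sub, e9, smul_sub, sub_left_inj] at e7
        exact e7
  by_cases hj : j ≤ n
  · exact low j hj v hv
  · by_cases hj2 : 2 * n < j
    · rw [hbot j hj2, Submodule.mem_bot] at hv
      rw [hv]; simp
    · obtain ⟨i, hi⟩ : ∃ i, i = 2 * n - j := ⟨_, rfl⟩
      have hji : j = 2 * n - i := by omega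
      have hi2 : i ≤ n := by omega
      rw [hji] at hv
      obtain ⟨w, hw, hw'⟩ := (hL i hi2).surjOn hv
      simp only at hw'
      rw [← hw', jm_pow_comm h2, low i hi2 w hw, map_smul]
      have c1 : ((n - i : ℕ) : K) = (n : K) - i := by rw [Nat.cast_sub hi2]
      have c2 : ((j : ℕ) : K) = 2 * n - i := by
        rw [hji, Nat.cast_sub (by omega)]; push_cast; ring
      rw [c1, c2]
      module

end HardLefschetz

section Ring

variable {A : Type*} [Ring A] [Algebra ℚ A]

/-- **Jacobson–Morozov**: if `x` is nilpotent, `h = [x, z]` and `[h, x] = 2x`, then `z` can be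
changed such that moreover `[h, z] = -2z`. -/
theorem jacobson_morozov {x z h : A} (hx : IsNilpotent x) (h1 : x * z - z * x = h)
    (h2 : h * x - x * h = (2 : ℚ) • x) {S : Submodule ℚ A} (hz : z ∈ S)
    (hS : ∀ a ∈ S, h * a - a * h ∈ S) :
    ∃ y ∈ S, x * y - y * x = h ∧ h * y - y * h = -((2 : ℚ) • y) := by
  set ad : A → Module.End ℚ A := fun a => LinearMap.mulLeft ℚ a - LinearMap.mulRight ℚ a with had
  have had' : ∀ a b, ad a b = a * b - b * a := fun a b => by simp [had]
  have hnil : IsNilpotent (ad x) := by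
    have h3 : Commute (LinearMap.mulLeft ℚ x) (LinearMap.mulRight ℚ x) :=
      LinearMap.commute_mulLeft_right (R := ℚ) x x
    refine h3.isNilpotent_sub ?_ ?_
    · rw [LinearMap.isNilpotent_mulLeft_iff]; exact hx
    · rw [LinearMap.isNilpotent_mulRight_iff]; exact hx
  obtain ⟨N, hN⟩ := hnil
  have e1 : ∀ v, ad x (ad z v) = ad z (ad x v) + ad h v := by
    intro v
    rw [had', had', had', had', had', ← h1]
    noncomm_ring
  have e2 : ∀ v, ad h (ad x v) = ad x (ad h v) + (2 : ℚ) • ad x v := by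
    intro v
    have h3 : (2 : ℚ) • ad x v = (h * x - x * h) * v - v * (h * x - x * h) := by
      rw [h2, had', smul_mul_assoc, mul_smul_comm, smul_sub]
    rw [h3, had', had', had', had']
    noncomm_ring
  have hc : ad x (h * z - z * h + (2 : ℚ) • z) = 0 := by
    have h3 : (2 : ℚ) • x * z = (h * x - x * h) * z := by rw [h2]
    have h4 : z * ((2 : ℚ) • x) = z * (h * x - x * h) := by rw [h2]
    rw [had', mul_add, add_mul, mul_smul_comm, smul_mul_assoc, ← mul_smul_comm 2 z x,
      ← smul_mul_assoc 2 x z, h3, h4, ← h1]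
    noncomm_ring
  obtain ⟨c', hc'S, hc'x, hc'⟩ := jm_solve e1 e2 hN (S := S)
    (fun v hv => by rw [had']; exact hS v hv) hc
    (S.add_mem (hS z hz) (S.smul_mem _ hz))
  rw [had'] at hc'x hc'
  refine ⟨z - c', S.sub_mem hz hc'S, ?_, ?_⟩
  · have : x * (z - c') - (z - c') * x = (x * z - z * x) - (x * c' - c' * x) := by noncomm_ring
    rw [this, h1, hc'x, sub_zero]
  · have : h * (z - c') - (z - c') * h = (h * z - z * h) - (h * c' - c' * h) := by noncomm_ring
    rw [this]
    have h5 : h * c' - c' * h = h * z - z * h + (2 : ℚ) • z - (2 : ℚ) • c' := by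
      rw [← hc']; abel
    rw [h5, smul_sub]
    abel

/-- The `h` of an `sl₂`-triple with `x^(n+1) = 0` satisfies `∏_{-n ≤ m ≤ n} (h - m) = 0`. -/
theorem sl2_semisimple {x z h : A} {n : ℕ} (hx : x ^ (n + 1) = 0) (h1 : x * z - z * x = h)
    (h2 : h * x - x * h = (2 : ℚ) • x) (h3 : h * z - z * h = -((2 : ℚ) • z)) :
    aeval (h + algebraMap ℚ A n) (pol (range (2 * n + 1))) = 0 := by
  have e1 : aeval (Algebra.lmul ℚ A (h + algebraMap ℚ A n)) (pol (range (2 * n + 1))) 1 = 0 := by
    have h4 : Algebra.lmul ℚ A (h + algebraMap ℚ A n) =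
        Algebra.lmul ℚ A h + algebraMap ℚ (Module.End ℚ A) n := by
      rw [map_add, AlgHom.commutes]
    rw [h4]
    refine jm_semisimple (x := Algebra.lmul ℚ A x) (z := Algebra.lmul ℚ A z) ?_ ?_ ?_ ?_ 1
    · intro v
      simp only [Algebra.coe_lmul_eq_mul, LinearMap.mul_apply']
      rw [← h1]
      noncomm_ring
    · intro v
      simp only [Algebra.coe_lmul_eq_mul, LinearMap.mul_apply']
      rw [← smul_mul_assoc, ← h2]
      noncomm_ring
    · intro v
      simp only [Algebra.coe_lmul_eq_mul, LinearMap.mul_apply']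
      have h5 : (2 : ℚ) • (z * v) = -((h * z - z * h) * v) := by
        rw [h3, neg_mul, neg_neg, smul_mul_assoc]
      rw [h5]
      noncomm_ring
    · rw [← map_pow, hx, map_zero]
  rw [aeval_algHom_apply] at e1
  simpa using e1

end Ring

end Pool.Agent.R903
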