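import Pool.Agent.R903.LefDefs
import Pool.Agent.R903.CK
import Pool.Agent.R903.JM

/-!
# Lefschetz systems
-/

open CategoryTheory CategoryTheory.Limits AlgebraicGeometry Polynomial
open Pool.Agent.H914 Pool.Agent.H914.VarClass Pool.Agent.H914.VarClass.Obj

universe u v w

namespace Pool.Agent.R903

variable {k : Type u} [Field k] {𝒱 : VarClass k} {C : ChowTheory.{u, v} 𝒱}

namespace WeilTheory

variable (W : WeilTheory.{u, v, w} C) {X Y : 𝒱.Obj}

lemma mem_gr_of_tr {b : W.H X} {m : ℕ}
    (h : ∀ l, l + m ≠ 2 * X.dim → ∀ c ∈ W.gr X l, W.tr X (b * c) = 0) : b ∈ W.gr X m := by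
  classical
  obtain ⟨b', rfl⟩ := (W.isInternal X).2 b
  rw [DirectSum.coeAddMonoidHom_eq_dfinsuppSum, DFinsupp.sum] at h ⊢
  refine Submodule.sum_mem _ fun i hi => ?_
  by_cases him : i = m
  · subst him; exact (b' i).2
  have h0 : ((b' i : W.gr X i) : W.H X) = 0 := by
    apply W.nondeg
    intro c
    refine gr_induction (W.isInternal X) (p := fun c => W.tr X ((b' i : W.H X) * c) = 0) ?_ ?_ c
    · intro l c hc
      by_cases hl : i + l = 2 * X.dim
      · have h1 := h l (by omega) c hc
        rw [Finset.sum_mul, map_sum, Finset.sum_eq_single i] at h1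
        · exact h1
        · intro j _ hj
          exact W.tr_eq_zero (W.mul_mem (b' j).2 hc) (by omega)
        · intro hi'; exact absurd hi hi'
      · exact W.tr_eq_zero (W.mul_mem (b' i).2 hc) hl
    · intro c c' hc hc'
      rw [mul_add, map_add, hc, hc', add_zero]
  rw [h0]; exact Submodule.zero_mem _

lemma push_mem (f : X ⟶ Y) {p q : ℕ} {a : W.H X} (ha : a ∈ W.gr X p)
    (h : p + 2 * Y.dim = q + 2 * X.dim) : W.push f a ∈ W.gr Y q := by
  apply W.mem_gr_of_tr
  intro l hl c hc
  rw [W.tr_push]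
  exact W.tr_eq_zero (W.mul_mem ha (W.map_mem f hc)) (by omega)

lemma push_eq_zero (f : X ⟶ Y) {p : ℕ} {a : W.H X} (ha : a ∈ W.gr X p)
    (h : p + 2 * Y.dim < 2 * X.dim) : W.push f a = 0 := by
  apply W.nondeg
  intro c
  refine gr_induction (W.isInternal Y) (p := fun c => W.tr Y (W.push f a * c) = 0) ?_ ?_ c
  · intro l c hc
    rw [W.tr_push]
    by_cases hl : 2 * Y.dim < l
    · rw [W.gr_eq_bot Y l hl, Submodule.mem_bot] at hc
      rw [hc, map_zero, mul_zero, map_zero]
    · exact W.tr_eq_zero (W.mul_mem ha (W.map_mem f hc)) (by omega)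
  · intro c c' hc hc'
    rw [mul_add, map_add, hc, hc', add_zero]

lemma act_mem {γ : C.CH (X.prod Y)} {c i j : ℕ} (hγ : γ ∈ C.gr (X.prod Y) c) {a : W.H X}
    (ha : a ∈ W.gr X i) (h : i + 2 * c = j + 2 * X.dim) : W.act γ a ∈ W.gr Y j := by
  rw [act_apply]
  exact W.push_mem _ (W.mul_mem (W.cl_mem hγ) (W.map_mem _ ha)) (by rw [dim_prod]; omega)

lemma act_eq_zero {γ : C.CH (X.prod Y)} {c i : ℕ} (hγ : γ ∈ C.gr (X.prod Y) c) {a : W.H X}
    (ha : a ∈ W.gr X i) (h : i + 2 * c < 2 * X.dim) : W.act γ a = 0 := by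
  rw [act_apply]
  exact W.push_eq_zero _ (W.mul_mem (W.cl_mem hγ) (W.map_mem _ ha)) (by rw [dim_prod]; omega)

end WeilTheory

namespace ChowTheory

variable {X : 𝒱.Obj}

lemma of_bracket (α β : C.CH (X.prod X)) :
    CorrRing.of C X (C.bracket α β) =
      CorrRing.of C X α * CorrRing.of C X β - CorrRing.of C X β * CorrRing.of C X α := rfl

/-- The polynomial in `d`, as a correspondence -/
lemma aeval_mem_gr {d : C.CH (X.prod X)} (hd : d ∈ C.gr (X.prod X) X.dim) (p : ℚ[X]) :
    (CorrRing.of C X).symm (aeval (CorrRing.of C X d) p) ∈ C.gr (X.prod X) X.dim := by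
  set U : Submodule ℚ (CorrRing C X) := (C.gr (X.prod X) X.dim).map (CorrRing.of C X).toLinearMap
  have hU : ∀ a, a ∈ U ↔ (CorrRing.of C X).symm a ∈ C.gr (X.prod X) X.dim := by
    intro a
    constructor
    · rintro ⟨b, hb, rfl⟩; exact hb
    · intro h; exact ⟨_, h, rfl⟩
  rw [← hU]
  have h1 : ∀ y ∈ U, (Algebra.lmul ℚ (CorrRing C X) (CorrRing.of C X d)) y ∈ U := by
    intro y hy
    rw [hU] at hy ⊢
    exact C.comp_mem hy hd rfl
  have h2 := aeval_mem h1 p (x := (1 : CorrRing C X)) ((hU _).2 (C.diagC_mem X))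
  rw [aeval_algHom_apply] at h2
  simpa using h2

variable {L : C.CH (X.prod X)} (hL : L ∈ C.gr (X.prod X) (X.dim + 1))

include hL

lemma pow_eq_zero_of_codim : (CorrRing.of C X L) ^ (X.dim + 1) = 0 := by
  have h : ∀ i, (CorrRing.of C X).symm ((CorrRing.of C X L) ^ i) ∈
      C.gr (X.prod X) (X.dim + i) := by
    intro i
    induction i with
    | zero => exact C.diagC_mem X
    | succ i ih =>
      rw [pow_succ']
      exact C.comp_mem ih hL (by ring)
  have h1 := h (X.dim + 1)
  rw [C.gr_eq_bot _ _ (by rw [dim_prod]; omega), Submodule.mem_bot] at h1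
  exact h1

/-- Existence of a Lefschetz system. -/
theorem exists_system {Λ : C.CH (X.prod X)} (hΛ : Λ ∈ C.gr (X.prod X) (X.dim - 1))
    (h : C.bracket L (C.bracket L Λ) = -((2 : ℚ) • L)) :
    ∃ Λ' π, C.IsLefschetzSystem L Λ' π := by
  classical
  by_cases hn : X.dim = 0
  · -- dimension zero
    have hL0 : L = 0 := by
      rw [C.gr_eq_bot _ _ (by rw [dim_prod]; omega), Submodule.mem_bot] at hL
      exact hL
    subst hL0
    refine ⟨0, fun j => if j = 0 then C.diagC X else 0, ⟨?_, ?_, ?_, ?_⟩, ?_, ⟨?_, ?_, ?_⟩⟩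
    · intro j; split_ifs
      · exact C.diagC_mem X
      · exact Submodule.zero_mem _
    · intro j; split_ifs
      · exact C.comp_diagC _
      · exact C.comp_zero _
    · intro i j hij
      by_cases hi : i = 0
      · rw [if_neg (show ¬ j = 0 by omega)]; exact C.comp_zero _
      · rw [if_neg hi]; exact C.zero_comp _
    · rw [hn]; simp
    · exact Submodule.zero_mem _
    · simp [bracket, wt, hn, C.comp_zero]
    · simp [bracket, wt, hn, C.comp_zero]
    · simp [bracket, wt, hn, C.comp_zero]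
  set x := CorrRing.of C X L with hx
  set z := CorrRing.of C X Λ with hz
  set hh := CorrRing.of C X (C.bracket L Λ) with hhh
  have hxz : x * z - z * x = hh := rfl
  have hbr : C.bracket L Λ ∈ C.gr (X.prod X) X.dim :=
    Submodule.sub_mem _ (C.comp_mem hΛ hL (by omega)) (C.comp_mem hL hΛ (by omega))
  have hhx : hh * x - x * hh = (2 : ℚ) • x := by
    have h1 : x * hh - hh * x = -((2 : ℚ) • x) := h
    rw [← neg_sub, h1, neg_neg]
  set S : Submodule ℚ (CorrRing C X) :=
    (C.gr (X.prod X) (X.dim - 1)).map (CorrRing.of C X).toLinearMap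
  have hS : ∀ a, a ∈ S ↔ (CorrRing.of C X).symm a ∈ C.gr (X.prod X) (X.dim - 1) := by
    intro a
    constructor
    · rintro ⟨b, hb, rfl⟩; exact hb
    · intro h; exact ⟨_, h, rfl⟩
  have hnil := C.pow_eq_zero_of_codim hL
  obtain ⟨y, hyS, hxy, hhy⟩ := jacobson_morozov ⟨_, hnil⟩ hxz hhx (S := S) ((hS _).2 hΛ)
    (fun a ha => by
      rw [hS] at ha ⊢
      exact Submodule.sub_mem _ (C.comp_mem ha hbr (by omega)) (C.comp_mem hbr ha (by omega)))
  have hss := sl2_semisimple hnil hxy hhx hhy
  set d : C.CH (X.prod X) := C.bracket L Λ + (X.dim : ℚ) • C.diagC X with hd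
  have hdgr : d ∈ C.gr (X.prod X) X.dim :=
    Submodule.add_mem _ hbr (Submodule.smul_mem _ _ (C.diagC_mem X))
  have hdof : CorrRing.of C X d = hh + algebraMap ℚ _ (X.dim : ℚ) := by
    rw [hd, map_add, map_smul, CorrRing.of_one, Algebra.algebraMap_eq_smul_one]
  rw [← hdof] at hss
  set N := 2 * X.dim + 1 with hN
  set π : ℕ → CorrRing C X := fun j =>
    if j < N then aeval (CorrRing.of C X d) (lag (Finset.range N) j) else 0 with hπ
  have hmod : ∀ p : ℚ[X], pol (Finset.range N) ∣ p → aeval (CorrRing.of C X d) p = 0 := by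
    rintro p ⟨q, rfl⟩
    rw [map_mul, hss, zero_mul]
  have hdπ : ∀ j, CorrRing.of C X d * π j = (j : ℚ) • π j := by
    intro j
    simp only [hπ]
    split_ifs with hj
    · obtain ⟨c, hc⟩ := lag_mul (Finset.mem_range.2 hj)
      have h1 := hmod _ (Dvd.intro_left _ hc.symm)
      rw [map_mul, map_sub, aeval_X, aeval_C, sub_mul, sub_eq_zero] at h1
      rw [h1, Algebra.smul_def]
    · rw [mul_zero, smul_zero]
  have hpπ : ∀ (p : ℚ[X]) (j : ℕ), aeval (CorrRing.of C X d) p * π j = p.eval (j : ℚ) • π j := by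
    intro p j
    have h1 : (Algebra.lmul ℚ (CorrRing C X) (CorrRing.of C X d)) (π j) = (j : ℚ) • π j := by
      simpa using hdπ j
    have h2 := aeval_eigen h1 p
    rw [aeval_algHom_apply] at h2
    simpa using h2
  have hmul : ∀ i j, π i * π j = if i = j then π j else 0 := by
    intro i j
    by_cases hi : i < N
    · have h1 : π i = aeval (CorrRing.of C X d) (lag (Finset.range N) i) := by
        simp only [hπ]; rw [if_pos hi]
      rw [h1, hpπ]
      by_cases hj : j < N
      · split_ifs with hij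
        · subst hij
          have h2 : (lag (Finset.range N) i).eval (i : ℚ) = 1 :=
            Lagrange.eval_basis_self (v := fun j : ℕ => (j : ℚ))
              (fun a _ b _ hab => by have h : (a : ℚ) = b := hab; exact_mod_cast h)
              (Finset.mem_range.2 hi)
          rw [h2, one_smul]
        · have h2 : (lag (Finset.range N) i).eval (j : ℚ) = 0 :=
            Lagrange.eval_basis_of_ne (v := fun j : ℕ => (j : ℚ)) hij (Finset.mem_range.2 hj)
          rw [h2, zero_smul]
      · have h3 : π j = 0 := by simp only [hπ]; rw [if_neg hj]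
        rw [h3, smul_zero, ite_self]
    · have h3 : π i = 0 := by simp only [hπ]; rw [if_neg hi]
      rw [h3, zero_mul]
      split_ifs with hij
      · rw [← hij, h3]
      · rfl
  have hsum : ∑ j ∈ Finset.range N, π j = 1 := by
    have h1 : ∀ j ∈ Finset.range N, π j =
        aeval (CorrRing.of C X d) (lag (Finset.range N) j) := by
      intro j hj
      simp only [hπ]; rw [if_pos (Finset.mem_range.1 hj)]
    rw [Finset.sum_congr rfl h1, ← map_sum]
    have h2 := Lagrange.sum_basis (s := Finset.range N) (v := fun j : ℕ => (j : ℚ))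
      (fun a _ b _ hab => by have h : (a : ℚ) = b := hab; exact_mod_cast h)
      ⟨0, Finset.mem_range.2 (by omega)⟩
    have h3 : ∑ j ∈ Finset.range N, lag (Finset.range N) j = 1 := h2
    rw [h3, map_one]
  have hwt : ∑ j ∈ Finset.range N, ((j : ℚ) - X.dim) • π j = hh := by
    have h1 : ∀ j ∈ Finset.range N, ((j : ℚ) - X.dim) • π j =
        (CorrRing.of C X d - algebraMap ℚ _ (X.dim : ℚ)) * π j := by
      intro j _
      rw [sub_smul, sub_mul, hdπ, Algebra.smul_def (X.dim : ℚ)]
    rw [Finset.sum_congr rfl h1, ← Finset.mul_sum, hsum, mul_one, hdof]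
    abel
  refine ⟨(CorrRing.of C X).symm y, fun j => (CorrRing.of C X).symm (π j), ⟨?_, ?_, ?_, ?_⟩, ?_,
    ⟨?_, ?_, ?_⟩⟩
  · intro j
    simp only [hπ]
    split_ifs
    · exact C.aeval_mem_gr hdgr _
    · exact Submodule.zero_mem _
  · intro j
    have := hmul j j
    rw [if_pos rfl] at this
    exact this
  · intro i j hij
    have := hmul j i
    rw [if_neg (Ne.symm hij)] at this
    exact this
  · exact hsum
  · exact (hS y).1 hyS
  · exact hxy.trans hwt.symm
  · have h1 : C.wt (fun j => (CorrRing.of C X).symm (π j)) = C.bracket L Λ := hwt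
    rw [h1]
    exact hhx
  · have h1 : C.wt (fun j => (CorrRing.of C X).symm (π j)) = C.bracket L Λ := hwt
    rw [h1]
    exact hhy

omit hL in
lemma IsLefschetzSystem.bracket_bracket {Λ : C.CH (X.prod X)} {π : ℕ → C.CH (X.prod X)}
    (h : C.IsLefschetzSystem L Λ π) : C.bracket L (C.bracket L Λ) = -((2 : ℚ) • L) := by
  rw [h.triple.bracket_LΛ, ← h.triple.bracket_HL, bracket, bracket, neg_sub]

/-- A Lefschetz system is a Chow–Künneth decomposition for each Weil cohomology theory for which `L`
has the hard Lefschetz property. -/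
theorem IsLefschetzSystem.isCK {Λ : C.CH (X.prod X)} {π : ℕ → C.CH (X.prod X)}
    (h : C.IsLefschetzSystem L Λ π) (W : WeilTheory.{u, v, w} C) (hW : W.HardLefschetz L) :
    W.IsCK X π := by
  refine ⟨h.decomp.mem, h.decomp.idem, h.decomp.orth, h.decomp.sum, ?_⟩
  have hwt : C.wt π ∈ C.gr (X.prod X) X.dim :=
    Submodule.sum_mem _ fun j _ => Submodule.smul_mem _ _ (h.decomp.mem j)
  -- the action of `wt`
  have hdeg : ∀ j, ∀ a ∈ W.gr X j, W.act (C.wt π) a = ((j : W.K) - X.dim) • a := by
    intro j a ha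
    by_cases hn : X.dim = 0
    · have hL0 : L = 0 := by
        rw [C.gr_eq_bot _ _ (by rw [dim_prod]; omega), Submodule.mem_bot] at hL
        exact hL
      have h0 : C.wt π = 0 := by
        rw [← h.triple.bracket_LΛ, hL0, bracket, C.comp_zero, C.zero_comp, sub_zero]
      rw [h0, W.act_zero, LinearMap.zero_apply, hn]
      by_cases hj : j = 0
      · rw [hj]; simp
      · rw [W.gr_eq_bot X j (by omega), Submodule.mem_bot] at ha
        rw [ha, smul_zero]
    refine hl_degree (x := W.act L) (z := W.act Λ) (h := W.act (C.wt π)) (n := X.dim)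
      (W.gr_eq_bot X) ?_ ?_ ?_ ?_ ?_ (fun j hj => ?_) ha
    · intro j v hv; exact W.act_mem hL hv (by omega)
    · intro j v hv; exact W.act_mem h.mem_Λ hv (by omega)
    · intro j hj v hv; exact W.act_eq_zero h.mem_Λ hv (by omega)
    · intro v
      rw [← h.triple.bracket_LΛ, bracket, W.act_sub, LinearMap.sub_apply, W.act_comp _ hL,
        W.act_comp _ h.mem_Λ]
      abel
    · intro v
      have h1 := congrArg (fun γ => W.act γ v) h.triple.bracket_HL
      simp only [bracket, W.act_sub, W.act_smul, LinearMap.sub_apply, LinearMap.smul_apply,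
        W.act_comp _ hL, W.act_comp _ hwt] at h1
      rw [sub_eq_iff_eq_add] at h1
      rw [h1]
      push_cast
      abel
    · have h1 := hW j hj
      convert h1 using 1
      ext v
      exact Module.End.pow_apply _ _ _
  have hπwt : ∀ j ∈ Finset.range (2 * X.dim + 1), C.comp (C.wt π) (π j) =
      ((j : ℚ) - X.dim) • π j := by
    intro j hj
    rw [wt, C.sum_comp, Finset.sum_eq_single j]
    · rw [C.smul_comp, h.decomp.idem]
    · intro i _ hij; rw [C.smul_comp, h.decomp.orth i j hij, smul_zero]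
    · intro hj'; exact absurd hj hj'
  have hoff : ∀ j ∈ Finset.range (2 * X.dim + 1), ∀ l, l ≠ j → ∀ a ∈ W.gr X l,
      W.act (π j) a = 0 := by
    intro j hj l hl a ha
    have h1 := congrArg (fun γ => W.act γ a) (hπwt j hj)
    simp only [W.act_comp _ (h.decomp.mem j), W.act_smul, LinearMap.smul_apply, hdeg l a ha,
      map_smul] at h1
    push_cast at h1
    have h2 : ((l : W.K) - j) • W.act (π j) a = 0 := by
      have h3 : ((l : W.K) - j) • W.act (π j) a = ((l : W.K) - X.dim) • W.act (π j) a -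
        ((j : W.K) - X.dim) • W.act (π j) a := by module
      rw [h3, h1, sub_self]
    refine (smul_eq_zero.1 h2).resolve_left fun h3 => hl ?_
    exact_mod_cast sub_eq_zero.1 h3
  have hz : ∀ j, 2 * X.dim < j → π j = 0 := by
    intro j hj
    rw [← C.comp_diagC (π j), ← h.decomp.sum, C.comp_sum]
    refine Finset.sum_eq_zero fun i hi => h.decomp.orth j i ?_
    rw [Finset.mem_range] at hi
    omega
  intro j l a ha
  by_cases hj : 2 * X.dim < j
  · rw [hz j hj, W.act_zero, LinearMap.zero_apply]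
    split_ifs with hlj
    · rw [hlj, W.gr_eq_bot X j hj, Submodule.mem_bot] at ha
      exact ha.symm
    · rfl
  have hj' : j ∈ Finset.range (2 * X.dim + 1) := Finset.mem_range.2 (by omega)
  split_ifs with hlj
  · subst hlj
    have h1 : W.act (∑ i ∈ Finset.range (2 * X.dim + 1), π i) a = a := by
      rw [h.decomp.sum, W.act_diagC]
    rw [W.act_sum, LinearMap.sum_apply, Finset.sum_eq_single l] at h1
    · exact h1
    · intro i hi hil; exact hoff i hi l (Ne.symm hil) a ha
    · intro h2; exact absurd hj' h2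
  · exact hoff j hj' l hlj a ha

omit hL

/-! ### the operator of a divisor class -/

lemma comp_push_diag (γ : C.CH (X.prod X)) (D : C.CH X) :
    C.comp γ (C.push (Obj.diag X) D) = γ * C.pull (snd X X) D := by
  have h1 : C.pull (snd X (X.prod X)) (C.push (Obj.diag X) D) =
      C.push (lift (fst X X) (snd X X ≫ Obj.diag X)) (C.pull (snd X X) D) := by
    refine C.base_change (T := X) (Obj.diag X) (lift (fst X X) (snd X X ≫ Obj.diag X)) (snd X X)
      (snd X (X.prod X)) (fst X _) ?_ isIso_swap ?_ D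
    · simp
    · rw [lift_fst]; exact isIso_swap
  rw [comp, h1, ← C.mul_push, ← C.push_comp, ← C.pull_comp]
  have e1 : lift (fst X X) (snd X X ≫ Obj.diag X) ≫ p13 X X X = 𝟙 _ := by
    apply hom_ext_prod <;> simp
  have e2 : lift (fst X X) (snd X X ≫ Obj.diag X) ≫ p12 X X X = 𝟙 _ := by
    apply hom_ext_prod <;> simp
  rw [e1, C.push_id, e2, C.pull_id]

lemma push_diag_comp (γ : C.CH (X.prod X)) (D : C.CH X) :
    C.comp (C.push (Obj.diag X) D) γ = C.pull (fst X X) D * γ := by
  have h1 : C.pull (p12 X X X) (C.push (Obj.diag X) D) =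
      C.push (lift (fst X X) (𝟙 _)) (C.pull (fst X X) D) := by
    refine C.base_change (T := X) (Obj.diag X) (lift (fst X X) (𝟙 _)) (fst X X) (p12 X X X)
      (snd X _ ≫ snd X X) ?_ isIso_assoc ?_ D
    · apply hom_ext_prod <;> simp
    · have : lift (fst X X) (𝟙 (X.prod X)) ≫ snd X (X.prod X) ≫ snd X X = snd X X := by simp
      rw [this]; exact isIso_lift_fst_snd
  rw [comp, h1, ← C.push_mul, ← C.push_comp, ← C.pull_comp]
  have e1 : lift (fst X X) (𝟙 (X.prod X)) ≫ p13 X X X = 𝟙 _ := by
    apply hom_ext_prod <;> simp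
  rw [e1, C.push_id, lift_snd, C.pull_id]

lemma bracket_push_diag (γ : C.CH (X.prod X)) (D : C.CH X) :
    C.bracket (C.push (Obj.diag X) D) γ = (C.pull (snd X X) D - C.pull (fst X X) D) * γ := by
  rw [bracket, comp_push_diag, push_diag_comp]
  ring

/-! ### vanishing for Lefschetz systems -/

lemma comp_eq_zero_of_codim {Y Z : 𝒱.Obj} {α : C.CH (X.prod Y)} {β : C.CH (Y.prod Z)} {p q : ℕ}
    (hα : α ∈ C.gr (X.prod Y) p) (hβ : β ∈ C.gr (Y.prod Z) q) (h : p + q < Y.dim) :
    C.comp α β = 0 :=
  C.push_eq_zero _ (C.mul_mem (C.pull_mem _ hα) (C.pull_mem _ hβ)) (by simp only [dim_prod]; omega)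

lemma IsLefschetzSystem.lambda_pow {L Λ : C.CH (X.prod X)} {π : ℕ → C.CH (X.prod X)}
    (h : C.IsLefschetzSystem L Λ π) : (CorrRing.of C X Λ) ^ (X.dim + 1) = 0 := by
  by_cases hn : X.dim = 0
  · have h1 : C.wt π = 0 := by simp [wt, hn]
    have h2 := h.triple.bracket_HΛ
    rw [h1, bracket, C.comp_zero, C.zero_comp, sub_zero, eq_comm, neg_eq_zero, smul_eq_zero] at h2
    rw [h2.resolve_left (by norm_num), map_zero, zero_pow (by omega)]
  have key : ∀ i ≤ X.dim, (CorrRing.of C X).symm ((CorrRing.of C X Λ) ^ i) ∈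
      C.gr (X.prod X) (X.dim - i) := by
    intro i
    induction i with
    | zero => intro _; exact C.diagC_mem X
    | succ i ih =>
      intro hi
      rw [pow_succ']
      exact C.comp_mem (ih (by omega)) h.mem_Λ (by omega)
  have h1 := key X.dim le_rfl
  rw [pow_succ']
  exact C.comp_eq_zero_of_codim h1 h.mem_Λ (by omega)

theorem IsLefschetzSystem.act_eq_zero {L Λ : C.CH (X.prod X)} {π : ℕ → C.CH (X.prod X)}
    (h : C.IsLefschetzSystem L Λ π) (hL : L ∈ C.gr (X.prod X) (X.dim + 1)) {i j : ℕ}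
    (hij : j < i ∨ i + X.dim < j) {y : C.CH X} (hy : y ∈ C.gr X i) : C.act (π j) y = 0 := by
  by_cases hj : 2 * X.dim < j
  · have hz : π j = 0 := by
      rw [← C.comp_diagC (π j), ← h.decomp.sum, C.comp_sum]
      refine Finset.sum_eq_zero fun l hl => h.decomp.orth j l ?_
      rw [Finset.mem_range] at hl
      omega
    rw [hz, C.act_zero, LinearMap.zero_apply]
  by_cases hi : X.dim < i
  · rw [C.gr_eq_bot X i hi, Submodule.mem_bot] at hy
    rw [hy, map_zero]
  set v := C.act (π j) y with hv
  have hvgr : v ∈ C.gr X i := C.act_mem (h.decomp.mem j) hy rfl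
  have hwt : C.comp (π j) (C.wt π) = ((j : ℚ) - X.dim) • π j := by
    rw [wt, C.comp_sum, Finset.sum_eq_single j]
    · rw [C.comp_smul, h.decomp.idem]
    · intro l _ hl; rw [C.comp_smul, h.decomp.orth j l (Ne.symm hl), smul_zero]
    · intro hj'; exact absurd (Finset.mem_range.2 (by omega)) hj'
  have hev : C.act (C.wt π) v = ((j : ℚ) - X.dim) • v := by
    rw [hv, ← C.act_comp, hwt, C.act_smul, LinearMap.smul_apply]
  have h1 : ∀ v, C.act L (C.act Λ v) = C.act Λ (C.act L v) + C.act (C.wt π) v := by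
    intro v
    rw [← h.triple.bracket_LΛ, bracket, C.act_sub, LinearMap.sub_apply, C.act_comp, C.act_comp]
    abel
  have h2 : ∀ v, C.act (C.wt π) (C.act L v) = C.act L (C.act (C.wt π) v) +
      (2 : ℚ) • C.act L v := by
    intro v
    rw [← LinearMap.smul_apply, ← C.act_smul, ← h.triple.bracket_HL, bracket, C.act_sub,
      LinearMap.sub_apply, C.act_comp, C.act_comp]
    abel
  have h3 : ∀ v, C.act (C.wt π) (C.act Λ v) = C.act Λ (C.act (C.wt π) v) -
      (2 : ℚ) • C.act Λ v := by
    intro v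
    have h4 := congrArg (fun γ => C.act γ v) h.triple.bracket_HΛ
    simp only [bracket, C.act_sub, LinearMap.sub_apply, C.act_comp] at h4
    rw [← neg_smul, C.act_smul, LinearMap.smul_apply, sub_eq_iff_eq_add] at h4
    rw [h4, neg_smul]
    abel
  rcases hij with hij | hij
  · -- negative weights
    have hev' : C.act (C.wt π) v = (-((X.dim - j : ℕ) : ℚ)) • v := by
      rw [hev, Nat.cast_sub (by omega)]
      congr 1
      ring
    have hnil : (C.act L : Module.End ℚ (C.CH X)) ^ (X.dim + 1) = 0 := by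
      rw [← CorrRing.actH_of, ← map_pow, C.pow_eq_zero_of_codim hL, map_zero]
    refine jm_inj h1 h2 hnil hev' (X.dim - j) le_rfl ?_
    have h5 : ∀ m, ((C.act L : Module.End ℚ (C.CH X)) ^ m) v ∈ C.gr X (i + m) := by
      intro m
      induction m with
      | zero => simpa using hvgr
      | succ m ih =>
        rw [pow_succ', Module.End.mul_apply]
        exact C.act_mem hL ih (by omega)
    have h6 := h5 (X.dim - j)
    rwa [C.gr_eq_bot X _ (by omega), Submodule.mem_bot] at h6
  · -- large positive weights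
    have hev' : (-(C.act (C.wt π)) : Module.End ℚ (C.CH X)) v = (-((j - X.dim : ℕ) : ℚ)) • v := by
      rw [LinearMap.neg_apply, hev, Nat.cast_sub (by omega), neg_smul]
    have hnil : (C.act Λ : Module.End ℚ (C.CH X)) ^ (X.dim + 1) = 0 := by
      rw [← CorrRing.actH_of, ← map_pow, h.lambda_pow, map_zero]
    refine jm_inj (x := C.act Λ) (z := C.act L) (h := -(C.act (C.wt π))) (fun v => ?_)
      (fun v => ?_) hnil hev' (i + 1) (by omega) ?_
    · rw [h1, LinearMap.neg_apply]; abel
    · rw [LinearMap.neg_apply, LinearMap.neg_apply, h3, map_neg]; abel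
    have h5 : ∀ m ≤ i, ((C.act Λ : Module.End ℚ (C.CH X)) ^ m) v ∈ C.gr X (i - m) := by
      intro m
      induction m with
      | zero => intro _; simpa using hvgr
      | succ m ih =>
        intro hm
        rw [pow_succ', Module.End.mul_apply]
        exact C.act_mem h.mem_Λ (ih (by omega)) (by omega)
    rw [pow_succ', Module.End.mul_apply]
    exact C.act_eq_zero h.mem_Λ (h5 i le_rfl) (by omega)

end ChowTheory

end Pool.Agent.R903
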