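import Pool.Agent.R903.OneCK
import Pool.Agent.R903.Lef

/-!
# Algebraic degree operators
-/

open CategoryTheory CategoryTheory.Limits AlgebraicGeometry Polynomial
open Pool.Agent.H914 Pool.Agent.H914.VarClass Pool.Agent.H914.VarClass.Obj

universe u v w

namespace Pool.Agent.R903

variable {k : Type u} [Field k] {𝒱 : VarClass k} {C : ChowTheory.{u, v} 𝒱}

namespace WeilTheory

variable {W : WeilTheory.{u, v, w} C} {X Y : 𝒱.Obj}

lemma act_aeval {d : C.CH (X.prod X)} (hd : d ∈ C.gr (X.prod X) X.dim) {q : ℚ} {a : W.H X}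
    (ha : W.act d a = (q : W.K) • a) (p : ℚ[X]) :
    W.act ((CorrRing.of C X).symm (aeval (CorrRing.of C X d) p)) a =
      ((p.eval q : ℚ) : W.K) • a := by
  induction p using Polynomial.induction_on' with
  | add p q hp hq =>
    rw [map_add, map_add, W.act_add, LinearMap.add_apply, hp, hq, eval_add, Rat.cast_add, add_smul]
  | monomial n c =>
    have hn : ∀ n : ℕ, W.act ((CorrRing.of C X).symm ((CorrRing.of C X d) ^ n)) a =
        ((q : W.K) ^ n) • a := by
      intro n
      induction n with
      | zero => rw [pow_zero, pow_zero, one_smul]; exact W.act_diagC a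
      | succ n ih =>
        rw [pow_succ]
        have h1 : (CorrRing.of C X).symm ((CorrRing.of C X d) ^ n * CorrRing.of C X d) =
            C.comp d ((CorrRing.of C X).symm ((CorrRing.of C X d) ^ n)) := rfl
        have h2 : (CorrRing.of C X).symm ((CorrRing.of C X d) ^ n) ∈ C.gr (X.prod X) X.dim := by
          have := C.aeval_mem_gr hd (Polynomial.X ^ n)
          rwa [map_pow, aeval_X] at this
        rw [h1, W.act_comp _ h2, ha, map_smul, ih, smul_smul, pow_succ, mul_comm]
    rw [aeval_monomial, eval_monomial, ← Algebra.smul_def, map_smul, W.act_smul,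
      LinearMap.smul_apply, hn, smul_smul]
    push_cast
    rfl

/-- **A variety with an algebraic degree operator has a Chow–Künneth decomposition.** -/
theorem exists_CK_of_algebraic {d : C.CH (X.prod X)} (hd : W.IsDegree X d) {Q : ℚ[X]}
    (hQ : Q ≠ 0) (h : aeval (CorrRing.of C X d) Q = 0) : W.HasCK X := by
  classical
  set N := 2 * X.dim + 1 with hN
  set δ := CorrRing.of C X d with hδ
  set Q1 := Q * pol (Finset.range N) with hQ1
  have hP0 : pol (Finset.range N) ≠ 0 := by
    rw [pol, Finset.prod_ne_zero_iff]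
    exact fun j _ => X_sub_C_ne_zero _
  have hQ10 : Q1 ≠ 0 := mul_ne_zero hQ hP0
  have hmod : ∀ p : ℚ[X], Q1 ∣ p → aeval δ p = 0 := by
    rintro p ⟨r, rfl⟩
    rw [hQ1, map_mul, map_mul, h, zero_mul, zero_mul]
  -- local factors
  have key : ∀ j : ℕ, j < N → ∃ (m : ℕ) (q u v : ℚ[X]), 0 < m ∧
      Q1 = (Polynomial.X - Polynomial.C (j : ℚ)) ^ m * q ∧ u * (Polynomial.X - Polynomial.C (j : ℚ)) ^ m + v * q = 1 := by
    intro j hj
    obtain ⟨q, hq, hndvd⟩ := Polynomial.exists_eq_pow_rootMultiplicity_mul_and_not_dvd Q1 hQ10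
      (j : ℚ)
    have hcop : IsCoprime ((Polynomial.X - Polynomial.C (j : ℚ)) ^ (rootMultiplicity (j : ℚ) Q1)) q := by
      apply IsCoprime.pow_left
      exact (Polynomial.irreducible_X_sub_C _).coprime_iff_not_dvd.2 hndvd
    obtain ⟨u, v, huv⟩ := hcop
    refine ⟨rootMultiplicity (j : ℚ) Q1, q, u, v, ?_, hq, huv⟩
    rw [Polynomial.rootMultiplicity_pos hQ10, IsRoot, hQ1, eval_mul,
      pol_eval_mem (Finset.mem_range.2 hj), mul_zero]
  choose! m q u v hm hq huv using key
  set E : ℕ → ℚ[X] := fun j => v j * q j with hE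
  have hEE : ∀ j, j < N → aeval δ (E j) * aeval δ (E j) = aeval δ (E j) := by
    intro j hj
    rw [← sub_eq_zero, ← map_mul, ← map_sub]
    apply hmod
    refine ⟨-(v j * u j), ?_⟩
    have h1 : v j * q j = 1 - u j * (Polynomial.X - Polynomial.C (j : ℚ)) ^ m j := by rw [← huv j hj]; ring
    simp only [hE]
    calc v j * q j * (v j * q j) - v j * q j = v j * q j * (v j * q j - 1) := by ring
      _ = v j * q j * (-(u j * (Polynomial.X - Polynomial.C (j : ℚ)) ^ m j)) := by rw [h1]; ring
      _ = ((Polynomial.X - Polynomial.C (j : ℚ)) ^ m j * q j) * (-(v j * u j)) := by ring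
      _ = Q1 * (-(v j * u j)) := by rw [← hq j hj]
  have hdvd : ∀ i j, i < N → j < N → i ≠ j → (Polynomial.X - Polynomial.C (i : ℚ)) ^ m i ∣ q j := by
    intro i j hi hj hij
    have h1 : (Polynomial.X - Polynomial.C (i : ℚ)) ^ m i ∣ (Polynomial.X - Polynomial.C (j : ℚ)) ^ m j * q j := by
      rw [← hq j hj]; exact Dvd.intro _ (hq i hi).symm
    refine IsCoprime.dvd_of_dvd_mul_left ?_ h1
    apply IsCoprime.pow
    apply isCoprime_X_sub_C_of_isUnit_sub
    rw [isUnit_iff_ne_zero, sub_ne_zero]
    exact_mod_cast hij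
  have hEij : ∀ i j, i < N → j < N → i ≠ j → aeval δ (E i) * aeval δ (E j) = 0 := by
    intro i j hi hj hij
    rw [← map_mul]
    apply hmod
    obtain ⟨r, hr⟩ := hdvd i j hi hj hij
    refine ⟨r * (v i * v j), ?_⟩
    simp only [hE]
    rw [hr]
    calc v i * q i * (v j * ((Polynomial.X - Polynomial.C (i : ℚ)) ^ m i * r)) =
        ((Polynomial.X - Polynomial.C (i : ℚ)) ^ m i * q i) * (r * (v i * v j)) := by ring
      _ = Q1 * (r * (v i * v j)) := by rw [← hq i hi]
  have heval : ∀ j, j < N → (E j).eval (j : ℚ) = 1 := by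
    intro j hj
    have h1 : E j = 1 - u j * (Polynomial.X - Polynomial.C (j : ℚ)) ^ m j := by
      simp only [hE]; rw [← huv j hj]; ring
    rw [h1]
    simp [(hm j hj).ne']
  have heval' : ∀ i j, i < N → j < N → i ≠ j → (E j).eval (i : ℚ) = 0 := by
    intro i j hi hj hij
    obtain ⟨r, hr⟩ := hdvd i j hi hj hij
    simp only [hE]
    rw [hr]
    simp [(hm i hi).ne']
  -- the decomposition
  set e : ℕ → CorrRing C X := fun j => if j < N then aeval δ (E j) else 0 with he
  have hee : ∀ i j, e i * e j = if i = j then e i else 0 := by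
    intro i j
    simp only [he]
    by_cases hi : i < N
    · rw [if_pos hi]
      by_cases hj : j < N
      · rw [if_pos hj]
        split_ifs with hij
        · subst hij; exact hEE i hi
        · exact hEij i j hi hj hij
      · rw [if_neg hj, mul_zero, if_neg (by rintro rfl; exact hj hi)]
    · rw [if_neg hi, zero_mul, ite_self]
  set f : CorrRing C X := 1 - ∑ j ∈ Finset.range N, e j with hf
  have hsum_e : ∀ i, i < N → (∑ j ∈ Finset.range N, e j) * e i = e i := by
    intro i hi
    rw [Finset.sum_mul, Finset.sum_eq_single i]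
    · rw [hee, if_pos rfl]
    · intro j _ hj; rw [hee, if_neg hj]
    · intro h1; exact absurd (Finset.mem_range.2 hi) h1
  have he_sum : ∀ i, i < N → e i * (∑ j ∈ Finset.range N, e j) = e i := by
    intro i hi
    rw [Finset.mul_sum, Finset.sum_eq_single i]
    · rw [hee, if_pos rfl]
    · intro j _ hj; rw [hee, if_neg (Ne.symm hj)]
    · intro h1; exact absurd (Finset.mem_range.2 hi) h1
  have hfe : ∀ i, f * e i = 0 := by
    intro i
    by_cases hi : i < N
    · rw [hf, sub_mul, one_mul, hsum_e i hi, sub_self]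
    · simp only [he]; rw [if_neg hi, mul_zero]
  have hef : ∀ i, e i * f = 0 := by
    intro i
    by_cases hi : i < N
    · rw [hf, mul_sub, mul_one, he_sum i hi, sub_self]
    · simp only [he]; rw [if_neg hi, zero_mul]
  have hff : f * f = f := by
    have h1 : (∑ j ∈ Finset.range N, e j) * f = 0 := by
      rw [Finset.sum_mul]; exact Finset.sum_eq_zero fun j _ => hef j
    conv_lhs => rw [hf]
    rw [sub_mul, one_mul, ← hf, h1, sub_zero]
  set π : ℕ → CorrRing C X := fun j => e j + if j = 0 then f else 0 with hπ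
  have hππ : ∀ i j, π i * π j = if i = j then π i else 0 := by
    intro i j
    simp only [hπ]
    rw [mul_add, add_mul, add_mul, hee]
    by_cases hi : i = 0
    · by_cases hj : j = 0
      · subst hi; subst hj
        rw [if_pos rfl, if_pos rfl, if_pos rfl, hfe, hef, hff]
        abel
      · subst hi
        rw [if_neg (Ne.symm hj), if_pos rfl, if_neg hj, if_neg (Ne.symm hj), hfe, mul_zero,
          mul_zero]
        simp
    · by_cases hj : j = 0
      · subst hj
        rw [if_neg hi, if_neg hi, if_pos rfl, if_neg hi, hef, zero_mul, zero_mul]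
        simp
      · rw [if_neg hi, if_neg hj, zero_mul, mul_zero, mul_zero]
        simp
  have hfgr : (CorrRing.of C X).symm f ∈ C.gr (X.prod X) X.dim := by
    rw [hf, map_sub, map_sum]
    refine Submodule.sub_mem _ (C.diagC_mem X) (Submodule.sum_mem _ fun j _ => ?_)
    simp only [he]
    split_ifs
    · exact C.aeval_mem_gr hd.1 _
    · exact Submodule.zero_mem _
  have hacte : ∀ j l, ∀ a ∈ W.gr X l, W.act ((CorrRing.of C X).symm (e j)) a =
      if l = j then a else 0 := by
    intro j l a ha
    by_cases hl : 2 * X.dim < l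
    · rw [W.gr_eq_bot X l hl, Submodule.mem_bot] at ha
      rw [ha]; simp
    simp only [he]
    by_cases hj : j < N
    · rw [if_pos hj]
      have h1 : W.act d a = (((l : ℚ) : ℚ) : W.K) • a := by rw [hd.2 l a ha]; push_cast; rfl
      rw [act_aeval hd.1 h1]
      split_ifs with hlj
      · subst hlj; rw [heval l hj]; simp
      · rw [heval' l j (by omega) hj hlj]; simp
    · rw [if_neg hj, if_neg (by omega), map_zero, W.act_zero, LinearMap.zero_apply]
  have hactf : ∀ l, ∀ a ∈ W.gr X l, W.act ((CorrRing.of C X).symm f) a = 0 := by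
    intro l a ha
    rw [hf, map_sub, map_sum, W.act_sub, W.act_sum, LinearMap.sub_apply, LinearMap.sum_apply]
    have h1 : W.act ((CorrRing.of C X).symm 1) a = a := W.act_diagC a
    rw [h1, Finset.sum_congr rfl (fun j _ => hacte j l a ha), Finset.sum_ite_eq]
    by_cases hl : 2 * X.dim < l
    · rw [W.gr_eq_bot X l hl, Submodule.mem_bot] at ha
      rw [ha]; simp
    · rw [if_pos (Finset.mem_range.2 (by omega)), sub_self]
  refine ⟨fun j => (CorrRing.of C X).symm (π j), fun j => ?_, fun j => ?_, fun i j hij => ?_, ?_,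
    fun j => ?_⟩
  · simp only [hπ, he]
    rw [map_add]
    refine Submodule.add_mem _ ?_ ?_
    · split_ifs
      · exact C.aeval_mem_gr hd.1 _
      · exact Submodule.zero_mem _
    · split_ifs
      · exact hfgr
      · exact Submodule.zero_mem _
  · have := hππ j j
    rw [if_pos rfl] at this
    exact this
  · have := hππ j i
    rw [if_neg (Ne.symm hij)] at this
    exact this
  · have h1 : ∑ j ∈ Finset.range N, π j = 1 := by
      simp only [hπ]
      rw [Finset.sum_add_distrib, Finset.sum_ite_eq', if_pos (Finset.mem_range.2 (by omega)), hf]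
      abel
    exact h1
  · intro l a ha
    simp only [hπ]
    rw [map_add, W.act_add, LinearMap.add_apply, hacte j l a ha]
    by_cases hj : j = 0
    · rw [if_pos hj, hactf l a ha, add_zero]
    · rw [if_neg hj, map_zero, W.act_zero, LinearMap.zero_apply, add_zero]

end WeilTheory

end Pool.Agent.R903
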