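import Mathlib

/-!
# Linear algebra for the annihilation criterion
-/

open Polynomial Finset

namespace Pool.Agent.R903

/-- The polynomial `∏ (X - j)`, the product over `j ∈ S`. -/
noncomputable def pol (S : Finset ℕ) : ℚ[X] := ∏ j ∈ S, (X - C (j : ℚ))

lemma pol_eval (S : Finset ℕ) (a : ℚ) : (pol S).eval a = ∏ j ∈ S, (a - j) := by
  simp [pol, eval_prod]

lemma pol_eval_mem {S : Finset ℕ} {j : ℕ} (hj : j ∈ S) : (pol S).eval (j : ℚ) = 0 := by
  rw [pol_eval]; exact Finset.prod_eq_zero hj (sub_self _)

lemma pol_eval_ne {S : Finset ℕ} {a : ℚ} (ha : ∀ j ∈ S, a ≠ j) : (pol S).eval a ≠ 0 := by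
  rw [pol_eval, Finset.prod_ne_zero_iff]
  exact fun j hj => sub_ne_zero.2 (ha j hj)

lemma pol_derivative_ne {S : Finset ℕ} {j : ℕ} (hj : j ∈ S) :
    (derivative (pol S)).eval (j : ℚ) ≠ 0 := by
  have h : pol S = (X - C (j : ℚ)) * pol (S.erase j) := by
    rw [pol, pol, Finset.mul_prod_erase S (fun j : ℕ => (X - C (j : ℚ))) hj]
  rw [h, derivative_mul]
  simp only [derivative_sub, derivative_X, derivative_C, sub_zero, one_mul, eval_add, eval_mul,
    eval_sub, eval_X, eval_C, sub_self, zero_mul, add_zero]
  apply pol_eval_ne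
  intro i hi h
  exact (Finset.ne_of_mem_erase hi) (by exact_mod_cast h.symm)

section

variable {V : Type*} [AddCommGroup V] [Module ℚ V]

lemma aeval_eigen {T : Module.End ℚ V} {a : ℚ} {x : V} (h : T x = a • x) (p : ℚ[X]) :
    aeval T p x = p.eval a • x := by
  induction p using Polynomial.induction_on' with
  | add p q hp hq => rw [map_add, LinearMap.add_apply, hp, hq, eval_add, add_smul]
  | monomial n c =>
    have hn : ∀ n : ℕ, (T ^ n) x = a ^ n • x := by
      intro n
      induction n with
      | zero => simp
      | succ n ih => rw [pow_succ', Module.End.mul_apply, ih, map_smul, h, smul_smul, pow_succ]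
    rw [aeval_monomial, Module.End.mul_apply, hn, eval_monomial, Module.algebraMap_end_apply,
      smul_smul]

/-- The Lagrange polynomials of the nodes in `S`. -/
noncomputable def lag (S : Finset ℕ) (j : ℕ) : ℚ[X] := Lagrange.basis S (fun j : ℕ => (j : ℚ)) j

lemma lag_mul {S : Finset ℕ} {j : ℕ} (hj : j ∈ S) :
    ∃ c : ℚ, (X - C (j : ℚ)) * lag S j = C c * pol S := by
  refine ⟨∏ i ∈ S.erase j, ((j : ℚ) - i)⁻¹, ?_⟩
  rw [lag, Lagrange.basis, pol, ← Finset.mul_prod_erase S (fun j : ℕ => (X - C (j : ℚ))) hj]
  simp only [Lagrange.basisDivisor, Finset.prod_mul_distrib, map_prod]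
  ring

lemma sum_lag {T : Module.End ℚ V} {S : Finset ℕ} {x : V} (hx : aeval T (pol S) x = 0) :
    ∑ j ∈ S, aeval T (lag S j) x = x := by
  rcases S.eq_empty_or_nonempty with rfl | hS
  · simp [pol] at hx
    simp [hx]
  · have h := Lagrange.sum_basis (s := S) (v := fun j : ℕ => (j : ℚ))
      (fun a _ b _ hab => by have h : (a : ℚ) = b := hab; exact_mod_cast h) hS
    have h2 := congrArg (fun p => aeval T p x) h
    simp only [map_sum, map_one, Module.End.one_apply, LinearMap.sum_apply] at h2
    exact h2

lemma lag_eigen {T : Module.End ℚ V} {S : Finset ℕ} {x : V} (hx : aeval T (pol S) x = 0) {j : ℕ}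
    (hj : j ∈ S) : T (aeval T (lag S j) x) = (j : ℚ) • aeval T (lag S j) x := by
  obtain ⟨c, hc⟩ := lag_mul hj
  have h := congrArg (fun p => aeval T p x) hc
  simp only [map_mul, map_sub, aeval_X, aeval_C, Module.End.mul_apply, hx, map_zero,
    LinearMap.sub_apply, Module.algebraMap_end_apply] at h
  exact sub_eq_zero.1 h

lemma aeval_mem {T : Module.End ℚ V} {U : Submodule ℚ V} (hU : ∀ y ∈ U, T y ∈ U) (p : ℚ[X])
    {x : V} (hx : x ∈ U) : aeval T p x ∈ U := by
  induction p using Polynomial.induction_on' with
  | add p q hp hq => rw [map_add, LinearMap.add_apply]; exact U.add_mem hp hq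
  | monomial n c =>
    have hn : ∀ n : ℕ, (T ^ n) x ∈ U := by
      intro n
      induction n with
      | zero => simpa using hx
      | succ n ih => rw [pow_succ', Module.End.mul_apply]; exact hU _ ih
    rw [aeval_monomial, Module.End.mul_apply, Module.algebraMap_end_apply]
    exact U.smul_mem _ (hn n)

/-- A polynomial identity in a parameter. -/
lemma coeff_eq_zero {n : ℕ} {v : ℕ → V} (h : ∀ t : ℚ, ∑ s ∈ range n, t ^ s • v s = 0) {s : ℕ}
    (hs : s < n) : v s = 0 := by
  rw [← Module.forall_dual_apply_eq_zero_iff ℚ]
  intro f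
  have h1 : ∑ s ∈ range n, (C (f (v s)) * X ^ s : ℚ[X]) = 0 := by
    apply Polynomial.funext
    intro t
    have := congrArg f (h t)
    rw [map_sum, map_zero] at this
    rw [eval_finsetSum, eval_zero, ← this]
    apply Finset.sum_congr rfl
    intro s _
    rw [eval_mul, eval_C, eval_pow, eval_X, map_smul, smul_eq_mul, mul_comm]
  have h2 := congrArg (fun p => coeff p s) h1
  simp only [finsetSum_coeff, coeff_C_mul, coeff_X_pow, coeff_zero, mul_ite, mul_one,
    mul_zero] at h2
  rw [Finset.sum_ite_eq] at h2
  simpa [hs] using h2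

/-- If all operators `T + t N` satisfy a polynomial with a simple root at the eigenvalue of `x`,
then `N` kills `x`. -/
lemma perturb {T N : Module.End ℚ V} (hTN : T * N = N * T) {a : ℚ} {x : V} (hx : T x = a • x)
    (q : ℚ[X]) (hq : (derivative q).eval a ≠ 0) (h : ∀ t : ℚ, aeval (T + t • N) q x = 0) :
    N x = 0 := by
  -- the space on which `T` acts as `a`
  have key : ∀ (t : ℚ) (p : ℚ[X]) (y : V), T y = a • y →
      aeval (T + t • N) p y = aeval (t • N) (taylor a p) y := by
    intro t p
    induction p using Polynomial.induction_on' with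
    | add p q hp hq =>
      intro y hy
      rw [map_add, LinearMap.add_apply, hp y hy, hq y hy, map_add, map_add, LinearMap.add_apply]
    | monomial n c =>
      intro y hy
      have hn : ∀ (n : ℕ) (y : V), T y = a • y →
          ((T + t • N) ^ n) y = ((algebraMap ℚ (Module.End ℚ V) a + t • N) ^ n) y := by
        intro n
        induction n with
        | zero => intro y _; simp
        | succ n ih =>
          intro y hy
          rw [pow_succ, pow_succ, Module.End.mul_apply, Module.End.mul_apply]
          have e : (T + t • N) y = (algebraMap ℚ (Module.End ℚ V) a + t • N) y := by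
            rw [LinearMap.add_apply, LinearMap.add_apply, hy, Module.algebraMap_end_apply]
          rw [e]
          apply ih
          have hN : T (N y) = a • N y := by
            have := congrArg (fun F : Module.End ℚ V => F y) hTN
            simp only [Module.End.mul_apply] at this
            rw [this, hy, map_smul]
          rw [LinearMap.add_apply, map_add, Module.algebraMap_end_apply, LinearMap.smul_apply,
            map_smul, map_smul, hy, hN, smul_add, smul_comm t a]
      rw [aeval_monomial, Module.End.mul_apply, hn n y hy, taylor_monomial, map_mul, map_pow,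
        map_add, aeval_X, aeval_C, aeval_C, Module.End.mul_apply, add_comm]
  have h2 : ∀ t : ℚ, ∑ s ∈ range ((taylor a q).natDegree + 2),
      t ^ s • ((taylor a q).coeff s • (N ^ s) x) = 0 := by
    intro t
    have h3 := h t
    rw [key t q x hx, aeval_eq_sum_range' (n := (taylor a q).natDegree + 2) (by omega),
      LinearMap.sum_apply] at h3
    rw [← h3]
    apply Finset.sum_congr rfl
    intro s _
    rw [_root_.smul_pow, LinearMap.smul_apply, LinearMap.smul_apply, smul_comm]
  have h4 := coeff_eq_zero h2 (s := 1) (by omega)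
  rw [taylor_coeff_one, pow_one] at h4
  exact (smul_eq_zero.1 h4).resolve_left hq

end

end Pool.Agent.R903
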