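import Pool.Agent.R903.BBDegDefs
import Pool.Agent.R903.Coh
import Pool.Agent.R903.Lin

/-!
# Bloch–Beilinson filtrations: the annihilation criterion
-/

open CategoryTheory CategoryTheory.Limits AlgebraicGeometry Polynomial
open Pool.Agent.H914 Pool.Agent.H914.VarClass Pool.Agent.H914.VarClass.Obj

universe u v w

namespace Pool.Agent.R903

variable {k : Type u} [Field k] {𝒱 : VarClass k} {C : ChowTheory.{u, v} 𝒱}

/-- The nodes `lo ≤ j ≤ 2i - k`. -/
def nodes (lo i k : ℕ) : Finset ℕ := (Finset.Icc lo (2 * i)).filter (fun j => j + k ≤ 2 * i)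

lemma mem_nodes {lo i k j : ℕ} : j ∈ nodes lo i k ↔ lo ≤ j ∧ j + k ≤ 2 * i := by
  simp only [nodes, Finset.mem_filter, Finset.mem_Icc]
  omega

/-- The filtration given by a degree operator. -/
noncomputable def fil (lo : ℕ → ℕ) {X : 𝒱.Obj} (d : C.CH (X.prod X)) (i k : ℕ) :
    Submodule ℚ (C.CH X) :=
  C.gr X i ⊓ LinearMap.ker (aeval (C.act d) (pol (nodes (lo i) i k)))

lemma mem_fil {lo : ℕ → ℕ} {X : 𝒱.Obj} {d : C.CH (X.prod X)} {i k : ℕ} {x : C.CH X} :
    x ∈ fil lo d i k ↔ x ∈ C.gr X i ∧ aeval (C.act d) (pol (nodes (lo i) i k)) x = 0 := Iff.rfl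

/-- The annihilation property for the interval `[lo i, 2i]`. -/
def WeilTheory.AnnihilationFrom (W : WeilTheory.{u, v, w} C) (lo : ℕ → ℕ) : Prop :=
  ∀ (X : 𝒱.Obj) (i : ℕ) (d : C.CH (X.prod X)), W.IsDegree X d → ∀ x ∈ C.gr X i,
    Polynomial.aeval (C.act d) (pol (Finset.Icc (lo i) (2 * i))) x = 0

namespace WeilTheory

variable (W : WeilTheory.{u, v, w} C) {X Y : 𝒱.Obj}

section

variable {W}

lemma IsDegree.act_mem {d : C.CH (X.prod X)} (hd : W.IsDegree X d) {i : ℕ} {x : C.CH X}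
    (hx : x ∈ C.gr X i) : C.act d x ∈ C.gr X i :=
  C.act_mem hd.1 hx rfl

variable {lo : ℕ → ℕ} (hA : W.AnnihilationFrom lo)

include hA

lemma mem_fil_of_eigen {d : C.CH (X.prod X)} (hd : W.IsDegree X d) {i k : ℕ} {x : C.CH X}
    (hx : x ∈ C.gr X i) {m : ℤ} (hm : C.act d x = (m : ℚ) • x) (hk : m + k ≤ 2 * i) :
    x ∈ fil lo d i k := by
  refine mem_fil.2 ⟨hx, ?_⟩
  rw [aeval_eigen hm]
  by_cases hi : (lo i : ℤ) ≤ m
  · obtain ⟨j, rfl⟩ := Int.eq_ofNat_of_zero_le (le_trans (Int.natCast_nonneg _) hi)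
    have hj : j ∈ nodes (lo i) i k := mem_nodes.2 (by omega)
    have h := pol_eval_mem hj
    rw [show (((j : ℕ) : ℤ) : ℚ) = (j : ℚ) by norm_cast, h, zero_smul]
  · have h := hA X i d hd x hx
    rw [aeval_eigen hm] at h
    have h2 : (pol (Finset.Icc (lo i) (2 * i))).eval (m : ℚ) ≠ 0 := by
      apply pol_eval_ne
      intro j hj h3
      have h4 : m = (j : ℤ) := by exact_mod_cast h3
      rw [Finset.mem_Icc] at hj
      omega
    rw [(smul_eq_zero.1 h).resolve_left h2, smul_zero]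

omit hA in
lemma fil_decomp {d : C.CH (X.prod X)} (hd : W.IsDegree X d) {i : ℕ} {S : Finset ℕ} {x : C.CH X}
    (hx : x ∈ C.gr X i) (hS : aeval (C.act d) (pol S) x = 0) :
    ∃ y : ℕ → C.CH X, (∀ j ∈ S, y j ∈ C.gr X i ∧ C.act d (y j) = (j : ℚ) • y j) ∧
      ∑ j ∈ S, y j = x :=
  ⟨fun j => aeval (C.act d) (lag S j) x, fun j hj =>
    ⟨aeval_mem (U := C.gr X i) (fun y hy => hd.act_mem hy) _ hx, lag_eigen hS hj⟩, sum_lag hS⟩

/-- The decomposition of a correspondence. -/
lemma corr_decomp {d : C.CH (X.prod X)} (hd : W.IsDegree X d) {e : C.CH (Y.prod Y)}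
    (he : W.IsDegree Y e) {c : ℕ} {γ : C.CH (X.prod Y)} (hγ : γ ∈ C.gr (X.prod Y) c)
    (J : Submodule ℚ (C.CH (X.prod Y))) (hJ : ∀ δ ∈ J, C.act (degHom C d e) δ ∈ J)
    (hγJ : γ ∈ J) :
    ∃ δ : ℕ → C.CH (X.prod Y), (∀ m ∈ Finset.Icc (lo c) (2 * c), δ m ∈ C.gr (X.prod Y) c ∧ δ m ∈ J ∧
      C.comp (δ m) e = C.comp d (δ m) + ((m : ℚ) - 2 * X.dim) • δ m) ∧
      ∑ m ∈ Finset.Icc (lo c) (2 * c), δ m = γ := by
  have hD := W.isDegree_degHom hd he
  have h0 := hA (X.prod Y) c _ hD γ hγ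
  refine ⟨fun m => aeval (C.act (degHom C d e)) (lag (Finset.Icc (lo c) (2 * c)) m) γ,
    fun m hm => ⟨aeval_mem (U := C.gr _ c) (fun y hy => hD.act_mem hy) _ hγ,
      aeval_mem hJ _ hγJ, ?_⟩, sum_lag h0⟩
  have h1 := lag_eigen h0 hm
  set δ := aeval (C.act (degHom C d e)) (lag (Finset.Icc (lo c) (2 * c)) m) γ
  rw [degHom, C.act_add, C.act_sub, C.act_smul, LinearMap.add_apply, LinearMap.sub_apply,
    LinearMap.smul_apply, C.act_diagC, C.act_opR, C.act_opL] at h1
  rw [sub_smul, ← h1]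
  abel

omit hA in
lemma act_comp_eigen {d : C.CH (X.prod X)} {e : C.CH (Y.prod Y)} {δ : C.CH (X.prod Y)} {m a : ℕ}
    (h : C.comp δ e = C.comp d δ + ((m : ℚ) - 2 * X.dim) • δ) {x : C.CH X}
    (hx : C.act d x = (a : ℚ) • x) :
    C.act e (C.act δ x) = (((a : ℤ) + m - 2 * X.dim : ℤ) : ℚ) • C.act δ x := by
  rw [← C.act_comp, h, C.act_add, C.act_smul, LinearMap.add_apply, LinearMap.smul_apply,
    C.act_comp, hx, map_smul, ← add_smul]
  congr 1
  push_cast
  ring

/-- Correspondences respect the filtration. -/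
lemma act_mem_fil {d : C.CH (X.prod X)} (hd : W.IsDegree X d) {e : C.CH (Y.prod Y)}
    (he : W.IsDegree Y e) {c i j k : ℕ} {γ : C.CH (X.prod Y)} (hγ : γ ∈ C.gr (X.prod Y) c)
    (h : i + c = j + X.dim) {x : C.CH X} (hx : x ∈ fil lo d i k) : C.act γ x ∈ fil lo e j k := by
  obtain ⟨δ, hδ, rfl⟩ := corr_decomp hA hd he hγ ⊤ (fun _ _ => Submodule.mem_top)
    Submodule.mem_top
  obtain ⟨y, hy, rfl⟩ := fil_decomp hd (mem_fil.1 hx).1 (mem_fil.1 hx).2
  rw [C.act_sum, LinearMap.sum_apply]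
  refine Submodule.sum_mem _ (fun m hm => ?_)
  rw [map_sum]
  refine Submodule.sum_mem _ (fun a ha => ?_)
  refine mem_fil_of_eigen hA he (C.act_mem (hδ m hm).1 (hy a ha).1 h)
    (act_comp_eigen (hδ m hm).2.2 (hy a ha).2) ?_
  rw [Finset.mem_Icc] at hm
  rw [mem_nodes] at ha
  omega

lemma fil_indep {d d' : C.CH (X.prod X)} (hd : W.IsDegree X d) (hd' : W.IsDegree X d')
    (i k : ℕ) : fil lo d i k = fil lo d' i k := by
  apply le_antisymm
  · intro x hx
    have := act_mem_fil hA hd hd' (C.diagC_mem X) (j := i) rfl hx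
    rwa [C.act_diagC] at this
  · intro x hx
    have := act_mem_fil hA hd' hd (C.diagC_mem X) (j := i) rfl hx
    rwa [C.act_diagC] at this

lemma fil_zero {d : C.CH (X.prod X)} (hd : W.IsDegree X d) (i : ℕ) : fil lo d i 0 = C.gr X i := by
  have h : nodes (lo i) i 0 = Finset.Icc (lo i) (2 * i) := by
    ext j; rw [mem_nodes, Finset.mem_Icc]; omega
  apply le_antisymm
  · exact inf_le_left
  · intro x hx
    exact mem_fil.2 ⟨hx, by rw [h]; exact hA X i d hd x hx⟩

omit hA in
lemma nodes_eq_empty {lo i k : ℕ} (h : 2 * i < lo + k) : nodes lo i k = ∅ := by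
  ext j
  rw [mem_nodes]
  simp only [Finset.notMem_empty, iff_false]
  omega

omit hA in
lemma fil_top {d : C.CH (X.prod X)} (i k : ℕ) (h : 2 * i < lo i + k) : fil lo d i k = ⊥ := by
  rw [eq_bot_iff]
  intro x hx
  have := (mem_fil.1 hx).2
  rw [nodes_eq_empty h] at this
  simpa [pol] using this

omit hA in
lemma fil_antitone {d : C.CH (X.prod X)} (hd : W.IsDegree X d) (i k : ℕ) :
    fil lo d i (k + 1) ≤ fil lo d i k := by
  intro x hx
  obtain ⟨hx1, hx2⟩ := mem_fil.1 hx
  obtain ⟨y, hy, rfl⟩ := fil_decomp hd hx1 hx2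
  refine Submodule.sum_mem _ (fun a ha => mem_fil.2 ⟨(hy a ha).1, ?_⟩)
  rw [aeval_eigen (hy a ha).2, pol_eval_mem, zero_smul]
  rw [mem_nodes] at ha ⊢
  omega

/-- Homologically trivial correspondences shift the filtration. -/
lemma act_null {d : C.CH (X.prod X)} (hd : W.IsDegree X d) {i k : ℕ} {n : C.CH (X.prod X)}
    (hn : n ∈ C.gr (X.prod X) X.dim) (hn0 : W.act n = 0) {x : C.CH X} (hx : x ∈ fil lo d i k) :
    C.act n x ∈ fil lo d i (k + 1) := by
  -- the ideal of the homologically trivial correspondences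
  let J : Submodule ℚ (C.CH (X.prod X)) :=
    { carrier := {n | n ∈ C.gr (X.prod X) X.dim ∧ W.act n = 0}
      add_mem' := fun {a b} ha hb => ⟨Submodule.add_mem _ ha.1 hb.1, by
        rw [W.act_add, ha.2, hb.2, add_zero]⟩
      zero_mem' := ⟨Submodule.zero_mem _, W.act_zero⟩
      smul_mem' := fun c a ha => ⟨Submodule.smul_mem _ _ ha.1, by
        rw [W.act_smul, ha.2, smul_zero]⟩ }
  have hD := W.isDegree_degHom hd hd
  have hJ : ∀ δ ∈ J, C.act (degHom C d d) δ ∈ J := by
    rintro δ ⟨h1, h2⟩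
    refine ⟨C.act_mem hD.1 h1 rfl, ?_⟩
    rw [degHom, C.act_add, C.act_sub, C.act_smul, LinearMap.add_apply, LinearMap.sub_apply,
      LinearMap.smul_apply, C.act_diagC, C.act_opR, C.act_opL, W.act_add, W.act_sub, W.act_smul,
      h2, smul_zero, zero_sub]
    apply LinearMap.ext
    intro a
    rw [LinearMap.add_apply, LinearMap.neg_apply, W.act_comp _ h1, W.act_comp _ hd.1, h2]
    simp
  obtain ⟨δ, hδ, rfl⟩ := corr_decomp hA hd hd hn J hJ ⟨hn, hn0⟩
  obtain ⟨y, hy, rfl⟩ := fil_decomp hd (mem_fil.1 hx).1 (mem_fil.1 hx).2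
  rw [C.act_sum, LinearMap.sum_apply]
  refine Submodule.sum_mem _ (fun m hm => ?_)
  rw [map_sum]
  refine Submodule.sum_mem _ (fun a ha => ?_)
  have hm' := Finset.mem_Icc.1 hm
  have ha' := mem_nodes.1 ha
  by_cases hm2 : m = 2 * X.dim
  · -- the part of weight zero commutes with `d`
    have hc : C.comp (δ m) d = C.comp d (δ m) := by
      rw [(hδ m hm).2.2, hm2]
      push_cast
      rw [sub_self, zero_smul, add_zero]
    have hTN : C.act d * C.act (δ m) = C.act (δ m) * C.act d := by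
      apply LinearMap.ext
      intro z
      rw [Module.End.mul_apply, Module.End.mul_apply, ← C.act_comp, ← C.act_comp, hc]
    have h0 : C.act (δ m) (y a) = 0 := by
      refine perturb hTN (hy a ha).2 (pol (Finset.Icc (lo i) (2 * i)))
        (pol_derivative_ne (Finset.mem_Icc.2 (by omega))) (fun t => ?_)
      have hdt : W.IsDegree X (d + t • δ m) := by
        refine ⟨Submodule.add_mem _ hd.1 (Submodule.smul_mem _ _ (hδ m hm).1), fun j a ha => ?_⟩
        rw [W.act_add, W.act_smul, (hδ m hm).2.1.2, smul_zero, add_zero, hd.2 j a ha]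
      have := hA X i _ hdt (y a) (hy a ha).1
      rwa [C.act_add, C.act_smul] at this
    rw [h0]
    exact Submodule.zero_mem _
  · refine mem_fil_of_eigen hA hd (C.act_mem (hδ m hm).1 (hy a ha).1 rfl)
      (act_comp_eigen (hδ m hm).2.2 (hy a ha).2) ?_
    omega

/-- The weight property. -/
lemma act_weight (hK : W.Kunneth) {d : C.CH (X.prod X)} (hd : W.IsDegree X d) {i j k : ℕ}
    (hjk : j + k = 2 * i) {γ : C.CH (X.prod X)} (hγ : γ ∈ C.gr (X.prod X) X.dim)
    (hγ0 : ∀ a ∈ W.gr X j, W.act γ a = 0) {x : C.CH X} (hx : x ∈ fil lo d i k) :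
    C.act γ x ∈ fil lo d i (k + 1) := by
  choose π hπ1 hπ2 using hK X
  obtain ⟨y, hy, rfl⟩ := fil_decomp hd (mem_fil.1 hx).1 (mem_fil.1 hx).2
  rw [map_sum]
  refine Submodule.sum_mem _ (fun a ha => ?_)
  have ha' := mem_nodes.1 ha
  obtain ⟨hy1, hy2⟩ := hy a ha
  have hyk : y a ∈ fil lo d i k := mem_fil.2 ⟨hy1, by
    rw [aeval_eigen hy2, pol_eval_mem ha, zero_smul]⟩
  by_cases haj : a = j
  swap
  · refine act_mem_fil hA hd hd hγ rfl (mem_fil.2 ⟨hy1, ?_⟩)
    rw [aeval_eigen hy2, pol_eval_mem, zero_smul]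
    rw [mem_nodes]
    omega
  subst haj
  -- the Künneth components of the element
  have h1 : ∀ l, l ≠ a → C.act (π l) (y a) ∈ fil lo d i (k + 1) := by
    intro l hl
    have hn : C.comp d (π l) - (l : ℚ) • π l ∈ C.gr (X.prod X) X.dim :=
      Submodule.sub_mem _ (C.comp_mem hd.1 (hπ1 l) rfl) (Submodule.smul_mem _ _ (hπ1 l))
    have hn0 : W.act (C.comp d (π l) - (l : ℚ) • π l) = 0 := by
      apply gr_ext (W.isInternal X)
      intro p b hb
      rw [W.act_sub, W.act_smul, LinearMap.sub_apply, LinearMap.smul_apply, W.act_comp _ (hπ1 l),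
        hd.2 p b hb, map_smul, hπ2 l p b hb, LinearMap.zero_apply]
      split_ifs with h
      · rw [h]; simp
      · simp
    have h2 := act_null hA hd hn hn0 hyk
    rw [C.act_sub, C.act_smul, LinearMap.sub_apply, LinearMap.smul_apply, C.act_comp, hy2,
      map_smul, ← sub_smul] at h2
    have h3 : ((a : ℚ) - l) ≠ 0 := sub_ne_zero.2 (fun h => hl (by exact_mod_cast h.symm))
    have h4 := Submodule.smul_mem _ ((a : ℚ) - l)⁻¹ h2
    rwa [smul_smul, inv_mul_cancel₀ h3, one_smul] at h4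
  have h2 : y a - C.act (π a) (y a) ∈ fil lo d i (k + 1) := by
    have hn : C.diagC X - ∑ l ∈ Finset.range (2 * X.dim + 1 + a), π l ∈
        C.gr (X.prod X) X.dim :=
      Submodule.sub_mem _ (C.diagC_mem X) (Submodule.sum_mem _ (fun l _ => hπ1 l))
    have hn0 : W.act (C.diagC X - ∑ l ∈ Finset.range (2 * X.dim + 1 + a), π l) = 0 := by
      apply gr_ext (W.isInternal X)
      intro p b hb
      rw [W.act_sub, W.act_sum, LinearMap.sub_apply, LinearMap.sum_apply, W.act_diagC,
        LinearMap.zero_apply]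
      by_cases hp : 2 * X.dim < p
      · rw [W.gr_eq_bot X p hp] at hb
        rw [(Submodule.mem_bot _).1 hb]
        simp
      · rw [Finset.sum_congr rfl (fun l _ => hπ2 l p b hb), Finset.sum_ite_eq,
          if_pos (Finset.mem_range.2 (by omega)), sub_self]
    have h3 := act_null hA hd hn hn0 hyk
    rw [C.act_sub, C.act_sum, LinearMap.sub_apply, LinearMap.sum_apply, C.act_diagC,
      ← Finset.add_sum_erase _ _ (Finset.mem_range.2 (by omega : a < 2 * X.dim + 1 + a)),
      ← sub_sub] at h3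
    have h4 := Submodule.add_mem _ h3 (Submodule.sum_mem _ (fun l hl =>
      h1 l (Finset.ne_of_mem_erase hl)) (t := (Finset.range (2 * X.dim + 1 + a)).erase a))
    rwa [sub_add_cancel] at h4
  have h3 : C.act γ (C.act (π a) (y a)) ∈ fil lo d i (k + 1) := by
    rw [← C.act_comp]
    refine act_null hA hd (C.comp_mem (hπ1 a) hγ rfl) ?_ hyk
    apply gr_ext (W.isInternal X)
    intro p b hb
    rw [W.act_comp _ hγ, hπ2 a p b hb, LinearMap.zero_apply]
    split_ifs with h
    · exact hγ0 b (h ▸ hb)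
    · rw [map_zero]
  have h4 := Submodule.add_mem _ h3 (act_mem_fil hA hd hd hγ rfl h2)
  rwa [← map_add, add_sub_cancel] at h4

omit hA in
/-- The class of an eigenvector. -/
lemma cl_eigen {d : C.CH (X.prod X)} (hd : W.IsDegree X d) {i a : ℕ} {x : C.CH X}
    (hx : x ∈ C.gr X i) (hxa : C.act d x = (a : ℚ) • x) (ha : a ≠ 2 * i) : W.cl X x = 0 := by
  have h1 := congrArg (W.cl X) hxa
  rw [W.cl_act, W.cl_smul, hd.2 _ _ (W.cl_mem hx)] at h1
  have h2 : ((2 * i : ℕ) : W.K) - ((a : ℚ) : W.K) ≠ 0 := by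
    rw [Rat.cast_natCast, sub_ne_zero]
    exact fun h => ha (by exact_mod_cast h.symm)
  have h3 : (((2 * i : ℕ) : W.K) - ((a : ℚ) : W.K)) • W.cl X x = 0 := by
    rw [sub_smul, h1, sub_self]
  exact (smul_eq_zero.1 h3).resolve_left h2

/-- The first step of the filtration is the kernel of the cycle class map. -/
lemma mem_fil_one (hlo : ∀ i, lo i ≤ 2 * i) (hP : C.Polarized) {d : C.CH (X.prod X)} (hd : W.IsDegree X d) {i : ℕ}
    {x : C.CH X} : x ∈ fil lo d i 1 ↔ x ∈ C.gr X i ∧ W.cl X x = 0 := by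
  constructor
  · intro hx
    obtain ⟨hx1, hx2⟩ := mem_fil.1 hx
    refine ⟨hx1, ?_⟩
    obtain ⟨y, hy, rfl⟩ := fil_decomp hd hx1 hx2
    rw [map_sum]
    refine Finset.sum_eq_zero (fun a ha => cl_eigen hd (hy a ha).1 (hy a ha).2 ?_)
    rw [mem_nodes] at ha
    omega
  · rintro ⟨hx1, hx2⟩
    by_cases hid : X.dim < i
    · rw [C.gr_eq_bot X i hid] at hx1
      rw [(Submodule.mem_bot _).1 hx1]
      exact Submodule.zero_mem _
    push Not at hid
    obtain ⟨D, hD, hdeg⟩ := hP X
    have hpow : ∀ n : ℕ, D ^ n ∈ C.gr X n := by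
      intro n
      induction n with
      | zero => rw [pow_zero]; exact C.one_mem X
      | succ n ih => rw [pow_succ]; exact C.mul_mem ih hD
    -- decompose `x`
    obtain ⟨y, hy, hyx⟩ := fil_decomp hd hx1 (hA X i d hd x hx1)
    have hrest : ∀ a ∈ (Finset.Icc (lo i) (2 * i)).erase (2 * i), y a ∈ fil lo d i 1 := by
      intro a ha
      obtain ⟨ha1, ha2⟩ := Finset.mem_erase.1 ha
      refine mem_fil.2 ⟨(hy a ha2).1, ?_⟩
      rw [aeval_eigen (hy a ha2).2, pol_eval_mem, zero_smul]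
      rw [Finset.mem_Icc] at ha2
      rw [mem_nodes]
      omega
    have h2i : 2 * i ∈ Finset.Icc (lo i) (2 * i) := Finset.mem_Icc.2 ⟨hlo i, le_rfl⟩
    rw [← Finset.add_sum_erase _ _ h2i] at hyx
    set z := y (2 * i) with hz
    have hz1 : z ∈ C.gr X i := (hy _ h2i).1
    have hcz : W.cl X z = 0 := by
      have h5 := congrArg (W.cl X) hyx
      rw [map_add, hx2, map_sum, Finset.sum_eq_zero, add_zero] at h5
      · exact h5
      · intro a ha
        obtain ⟨ha1, ha2⟩ := Finset.mem_erase.1 ha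
        exact cl_eigen hd (hy a ha2).1 (hy a ha2).2 ha1
    -- a class of nonzero degree against `D ^ (dim - i)`
    obtain ⟨v, hv, hvx⟩ := fil_decomp hd (hpow i) (hA X i d hd _ (hpow i))
    have hvdeg : C.deg X (v (2 * i) * D ^ (X.dim - i)) ≠ 0 := by
      have h6 : C.deg X (D ^ i * D ^ (X.dim - i)) ≠ 0 := by
        rw [← pow_add, Nat.add_sub_cancel' hid]; exact hdeg
      rw [← hvx, Finset.sum_mul, map_sum, ← Finset.add_sum_erase _ _ h2i, Finset.sum_eq_zero,
        add_zero] at h6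
      · exact h6
      · intro a ha
        obtain ⟨ha1, ha2⟩ := Finset.mem_erase.1 ha
        have h7 := cl_eigen hd (hv a ha2).1 (hv a ha2).2 ha1
        have h8 := W.tr_cl (v a * D ^ (X.dim - i))
        rw [W.cl_mul, h7, zero_mul, map_zero] at h8
        exact_mod_cast h8.symm
    have hzfil : z ∈ fil lo d i 1 := by
      have hn : C.ext (D ^ (X.dim - i)) z ∈ C.gr (X.prod X) X.dim := by
        have := C.ext_mem (hpow (X.dim - i)) hz1
        rwa [Nat.sub_add_cancel hid] at this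
      have hn0 : W.act (C.ext (D ^ (X.dim - i)) z) = 0 := by
        apply LinearMap.ext
        intro a
        rw [W.act_apply, ChowTheory.ext, W.cl_mul, W.cl_pull, W.cl_pull, hcz, map_zero, mul_zero,
          zero_mul, map_zero, LinearMap.zero_apply]
      have h9 : v (2 * i) ∈ fil lo d i 0 := by rw [fil_zero hA hd]; exact (hv _ h2i).1
      have h10 := act_null hA hd hn hn0 h9
      rw [C.act_ext] at h10
      have h11 := Submodule.smul_mem _ (C.deg X (v (2 * i) * D ^ (X.dim - i)))⁻¹ h10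
      rwa [smul_smul, inv_mul_cancel₀ hvdeg, one_smul] at h11
    rw [← hyx]
    exact Submodule.add_mem _ hzfil (Submodule.sum_mem _ hrest)

/-- External products. -/
lemma ext_mem_fil {d : C.CH (X.prod X)} (hd : W.IsDegree X d) {e : C.CH (Y.prod Y)}
    (he : W.IsDegree Y e) {i j k l : ℕ} {x : C.CH X} {y : C.CH Y} (hx : x ∈ fil lo d i k)
    (hy : y ∈ fil lo e j l) : C.ext x y ∈ fil lo (degExt C d e) (i + j) (k + l) := by
  obtain ⟨x', hx', rfl⟩ := fil_decomp hd (mem_fil.1 hx).1 (mem_fil.1 hx).2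
  obtain ⟨y', hy', rfl⟩ := fil_decomp he (mem_fil.1 hy).1 (mem_fil.1 hy).2
  have : C.ext (∑ a ∈ nodes (lo i) i k, x' a) (∑ b ∈ nodes (lo j) j l, y' b) =
      ∑ a ∈ nodes (lo i) i k, ∑ b ∈ nodes (lo j) j l, C.ext (x' a) (y' b) := by
    simp only [ChowTheory.ext, map_sum, Finset.sum_mul, Finset.mul_sum]
    exact Finset.sum_comm
  rw [this]
  refine Submodule.sum_mem _ (fun a ha => Submodule.sum_mem _ (fun b hb => ?_))
  refine mem_fil_of_eigen hA (W.isDegree_degExt hd he) (m := ((a + b : ℕ) : ℤ))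
    (C.ext_mem (hx' a ha).1 (hy' b hb).1) ?_ ?_
  · rw [degExt, C.act_add, LinearMap.add_apply, C.act_opM_ext, C.act_opL_ext, (hx' a ha).2,
      (hy' b hb).2]
    simp only [ChowTheory.ext, map_smul, smul_mul_assoc, mul_smul_comm, ← add_smul]
    congr 1
    push_cast
    ring
  · rw [mem_nodes] at ha hb
    omega

/-- If the annihilation property holds, then the filtration is a Bloch-Beilinson filtration. -/
theorem isPreBlochBeilinson (hlo : ∀ i, lo i ≤ 2 * i) (hK : W.Kunneth) (hP : C.Polarized)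
    (d : ∀ X : 𝒱.Obj, C.CH (X.prod X)) (hd : ∀ X, W.IsDegree X (d X)) :
    W.IsPreBlochBeilinson (fun X i k => fil lo (d X) i k) where
  isFiltration X i := ⟨fun k => fil_antitone (hd X) i k, fil_zero hA (hd X) i⟩
  kernel X i x := mem_fil_one hA hlo hP (hd X)
  mul X i j k l x hx y hy := by
    have h1 := ext_mem_fil hA (hd X) (hd X) hx hy
    have h2 := act_mem_fil hA (W.isDegree_degExt (hd X) (hd X)) (hd X) (C.cograph_mem (diag X))
      (j := i + j) rfl h1
    rwa [C.act_cograph, C.pull_diag_ext] at h2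
  pull X Y f i k y hy := by
    have h2 := act_mem_fil hA (hd Y) (hd X) (C.cograph_mem f) (j := i) rfl hy
    rwa [C.act_cograph] at h2
  push X Y f i j k hij x hx := by
    have h2 := act_mem_fil hA (hd X) (hd Y) (C.graph_mem f) hij hx
    rwa [C.act_graph] at h2
  weight X i j k γ hjk hγ hγ0 x hx := act_weight hA hK (hd X) hjk hγ hγ0 hx

end

/-- Degree operators exist if the standard conjecture of Künneth type holds. -/
lemma Kunneth.exists_degree {W : WeilTheory.{u, v, w} C} (hK : W.Kunneth) (X : 𝒱.Obj) :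
    ∃ d, W.IsDegree X d := by
  choose π hπ1 hπ2 using hK X
  refine ⟨∑ l ∈ Finset.range (2 * X.dim + 1), (l : ℚ) • π l,
    Submodule.sum_mem _ (fun l _ => Submodule.smul_mem _ _ (hπ1 l)), fun j a ha => ?_⟩
  rw [W.act_sum, LinearMap.sum_apply]
  by_cases hj : 2 * X.dim < j
  · rw [W.gr_eq_bot X j hj] at ha
    rw [(Submodule.mem_bot _).1 ha]
    simp
  · have : ∀ l ∈ Finset.range (2 * X.dim + 1), W.act ((l : ℚ) • π l) a =
        if j = l then (l : W.K) • a else 0 := by
      intro l _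
      rw [W.act_smul, LinearMap.smul_apply, hπ2 l j a ha, Rat.cast_natCast]
      split_ifs <;> simp
    rw [Finset.sum_congr rfl this, Finset.sum_ite_eq, if_pos (Finset.mem_range.2 (by omega))]

variable {W}

lemma IsWeightFiltration.anti {F : ∀ X : 𝒱.Obj, ℕ → ℕ → Submodule ℚ (C.CH X)}
    (hF : W.IsWeightFiltration F) (X : 𝒱.Obj) (i : ℕ) {k l : ℕ} (h : k ≤ l) :
    F X i l ≤ F X i k := by
  induction l, h using Nat.le_induction with
  | base => exact le_rfl
  | succ l _ ih => exact ((hF.isFiltration X i).antitone l).trans ih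

lemma nodes_succ {lo i k : ℕ} (hk : lo + k ≤ 2 * i) : pol (nodes lo i k) =
    pol (nodes lo i (k + 1)) * (Polynomial.X - Polynomial.C ((2 * i - k : ℕ) : ℚ)) := by
  have h : nodes lo i k = insert (2 * i - k) (nodes lo i (k + 1)) := by
    ext j
    rw [Finset.mem_insert, mem_nodes, mem_nodes]
    omega
  have h2 : 2 * i - k ∉ nodes lo i (k + 1) := by
    rw [mem_nodes]; omega
  rw [h, pol, Finset.prod_insert h2, pol, mul_comm]

/-- A weight filtration is given by each degree operator. -/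
theorem IsWeightFiltration.eq_fil {F : ∀ X : 𝒱.Obj, ℕ → ℕ → Submodule ℚ (C.CH X)}
    (hF : W.IsWeightFiltration F) {lo : ℕ → ℕ} (hlo : ∀ i, lo i ≤ 2 * i)
    (hbot : ∀ X i, F X i (2 * i - lo i + 1) = ⊥) {d : C.CH (X.prod X)} (hd : W.IsDegree X d)
    (i k : ℕ) : F X i k = fil lo d i k := by
  have hloi := hlo i
  -- the inclusion, by descending induction on the step
  have hle : ∀ n k : ℕ, k + n = 2 * i - lo i + 1 → F X i k ≤ fil lo d i k := by
    intro n
    induction n with
    | zero =>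
      intro k hk
      have : k = 2 * i - lo i + 1 := by omega
      rw [this, hbot]
      exact bot_le
    | succ n ih =>
      intro k hk x hx
      refine mem_fil.2 ⟨?_, ?_⟩
      · rw [← (hF.isFiltration _ _).zero]; exact hF.anti X i (Nat.zero_le k) hx
      · rw [nodes_succ (by omega), map_mul, Module.End.mul_apply]
        have h1 := hF.degree X i (2 * i - k) k d (by omega) hd x hx
        have h2 := (mem_fil.1 (ih (k + 1) (by omega) h1)).2
        rw [map_sub, aeval_X, aeval_C, LinearMap.sub_apply,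
          Module.algebraMap_end_apply]
        exact h2
  have hge : ∀ (a : ℕ) (x : C.CH X), x ∈ C.gr X i → C.act d x = (a : ℚ) • x →
      ∀ k, a + k ≤ 2 * i → x ∈ F X i k := by
    intro a x hx hxa k
    induction k with
    | zero => intro _; rw [(hF.isFiltration _ _).zero]; exact hx
    | succ k ih =>
      intro hak
      have h0 := ih (by omega)
      have h1 := hF.degree X i (2 * i - k) k d (by omega) hd x h0
      rw [hxa, ← sub_smul] at h1
      have h2 : ((a : ℚ) - ((2 * i - k : ℕ) : ℚ)) ≠ 0 := by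
        rw [sub_ne_zero]
        intro h
        have : a = 2 * i - k := by exact_mod_cast h
        omega
      have h3 := Submodule.smul_mem _ ((a : ℚ) - ((2 * i - k : ℕ) : ℚ))⁻¹ h1
      rwa [smul_smul, inv_mul_cancel₀ h2, one_smul] at h3
  by_cases hk : k ≤ 2 * i - lo i + 1
  · apply le_antisymm
    · exact hle (2 * i - lo i + 1 - k) k (by omega)
    · intro x hx
      obtain ⟨y, hy, rfl⟩ := fil_decomp hd (mem_fil.1 hx).1 (mem_fil.1 hx).2
      refine Submodule.sum_mem _ (fun a ha => ?_)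
      exact hge a _ (hy a ha).1 (hy a ha).2 k (mem_nodes.1 ha).2
  · have h1 : F X i k = ⊥ := by
      rw [eq_bot_iff, ← hbot X i]
      exact hF.anti X i (by omega)
    rw [h1, fil_top i k (by omega)]

/-- A weight filtration implies the annihilation property. -/
theorem IsWeightFiltration.annihilationFrom {F : ∀ X : 𝒱.Obj, ℕ → ℕ → Submodule ℚ (C.CH X)}
    (hF : W.IsWeightFiltration F) {lo : ℕ → ℕ} (hlo : ∀ i, lo i ≤ 2 * i)
    (hbot : ∀ X i, F X i (2 * i - lo i + 1) = ⊥) : W.AnnihilationFrom lo := by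
  intro X i d hd x hx
  rw [← (hF.isFiltration X i).zero, hF.eq_fil hlo hbot hd] at hx
  have h : nodes (lo i) i 0 = Finset.Icc (lo i) (2 * i) := by
    ext j; rw [mem_nodes, Finset.mem_Icc]; omega
  have := (mem_fil.1 hx).2
  rwa [h] at this

lemma IsPreBlochBeilinson.isWeightFiltration {F : ∀ X : 𝒱.Obj, ℕ → ℕ → Submodule ℚ (C.CH X)}
    (hF : W.IsPreBlochBeilinson F) (hbot : ∀ X i, F X i (2 * i + 1) = ⊥) :
    W.IsWeightFiltration F := by
  refine ⟨hF.isFiltration, hbot, fun X i j k d hjk hd x hx => ?_⟩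
  have h := hF.weight X i j k (d - (j : ℚ) • C.diagC X) hjk
    (Submodule.sub_mem _ hd.1 (Submodule.smul_mem _ _ (C.diagC_mem X))) (fun a ha => by
      rw [W.act_sub, W.act_smul, LinearMap.sub_apply, LinearMap.smul_apply, W.act_diagC,
        hd.2 j a ha, Rat.cast_natCast, sub_self]) x hx
  rwa [C.act_sub, C.act_smul, LinearMap.sub_apply, LinearMap.smul_apply, C.act_diagC] at h

lemma IsBlochBeilinson.isWeightFiltration {F : ∀ X : 𝒱.Obj, ℕ → ℕ → Submodule ℚ (C.CH X)}
    (hF : W.IsBlochBeilinson F) : W.IsWeightFiltration F := by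
  refine hF.1.isWeightFiltration (fun X i => ?_)
  have h : ∀ l, i + 1 ≤ l → F X i l = ⊥ := by
    intro l hl
    induction l, hl using Nat.le_induction with
    | base => exact hF.2 X i
    | succ l _ ih => rw [eq_bot_iff, ← ih]; exact (hF.1.isFiltration X i).antitone l
  exact h _ (by omega)

/-- **Local to global principle**: a family of weight filtrations, one for each variety, satisfies
all the axioms of a Bloch-Beilinson filtration except perhaps `F^(i+1) CH^i = 0`. -/
theorem IsWeightFiltration.isPreBlochBeilinson (hK : W.Kunneth) (hP : C.Polarized)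
    {F : ∀ X : 𝒱.Obj, ℕ → ℕ → Submodule ℚ (C.CH X)} (hF : W.IsWeightFiltration F) :
    W.IsPreBlochBeilinson F := by
  choose d hd using hK.exists_degree
  have hlo : ∀ i : ℕ, (fun _ => 0 : ℕ → ℕ) i ≤ 2 * i := fun i => Nat.zero_le _
  have h := WeilTheory.isPreBlochBeilinson (lo := fun _ => 0)
    (hF.annihilationFrom hlo (fun X i => hF.bot X i)) hlo hK hP d hd
  have h2 : F = fun X i k => fil (fun _ => 0) (d X) i k := by
    funext X i k
    exact hF.eq_fil hlo (fun X i => hF.bot X i) (hd X) i k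
  rwa [← h2] at h

/-- **Annihilation criterion**. -/
theorem exists_isBlochBeilinson_iff (hK : W.Kunneth) (hP : C.Polarized) :
    (∃ F, W.IsBlochBeilinson F) ↔ W.Annihilation := by
  have hlo : ∀ i : ℕ, (id : ℕ → ℕ) i ≤ 2 * i := fun i => by simp only [id_eq]; omega
  constructor
  · rintro ⟨F, hF⟩
    exact hF.isWeightFiltration.annihilationFrom hlo (fun X i => by
      have h : 2 * i - id i + 1 = i + 1 := by simp only [id_eq]; omega
      exact h ▸ hF.2 X i)
  · intro hA
    choose d hd using hK.exists_degree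
    have h := WeilTheory.isPreBlochBeilinson (lo := id) hA hlo hK hP d hd
    exact ⟨_, h, fun X i => fil_top i (i + 1) (by simp only [id_eq]; omega)⟩

/-- The Bloch-Beilinson filtration in terms of a degree operator. -/
theorem IsBlochBeilinson.eq_fil {F : ∀ X : 𝒱.Obj, ℕ → ℕ → Submodule ℚ (C.CH X)}
    (hF : W.IsBlochBeilinson F) {d : C.CH (X.prod X)} (hd : W.IsDegree X d) (i k : ℕ) :
    F X i k = fil id d i k := by
  have hlo : ∀ i : ℕ, (id : ℕ → ℕ) i ≤ 2 * i := fun i => by simp only [id_eq]; omega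
  exact hF.isWeightFiltration.eq_fil hlo (fun X i => by
      have h : 2 * i - id i + 1 = i + 1 := by simp only [id_eq]; omega
      exact h ▸ hF.2 X i) hd i k

end WeilTheory

end Pool.Agent.R903
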