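import Pool.Agent.R903.Murre

/-!
# Testing Murre's conjectures (B) and (C) on a single decomposition
-/

open CategoryTheory CategoryTheory.Limits AlgebraicGeometry
open Pool.Agent.H914 Pool.Agent.H914.VarClass Pool.Agent.H914.VarClass.Obj

universe u v w

namespace Pool.Agent.R903

variable {k : Type u} [Field k] {𝒱 : VarClass k} {C : ChowTheory.{u, v} 𝒱}

lemma ChowTheory.gr_zero {X : 𝒱.Obj} {x : C.CH X} (hx : x ∈ C.gr X 0) : ∃ q : ℚ, x = q • 1 := by
  classical
  obtain ⟨z, hz, rfl⟩ := C.mem_gr.1 hx
  refine ⟨X.V.coeff z (genericPoint X.V.X), ?_⟩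
  rw [← C.cls_fund, ← map_smul]
  congr 1
  have h : ∀ x : X.V.X, x ≠ genericPoint X.V.X → X.V.coeff z x = 0 := by
    intro x hx
    by_contra h0
    have h1 := hz x h0
    rw [Nat.cast_zero, Order.coheight_eq_zero] at h1
    apply hx
    have h2 : x ≤ genericPoint X.V.X := genericPoint_specializes x
    have h3 : genericPoint X.V.X ≤ x := h1 h2
    exact (Specializes.antisymm h3 h2).eq
  refine Finsupp.ext (α := X.V.X) (M := ℚ) fun x => ?_
  by_cases hx : x = genericPoint X.V.X
  · subst hx
    change X.V.coeff z _ = (X.V.coeff z _ • (Finsupp.single (genericPoint X.V.X) (1 : ℚ) :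
      X.V.X →₀ ℚ)) _
    simp
  · have h1 := h x hx
    change X.V.coeff z x = (X.V.coeff z (genericPoint X.V.X) •
      (Finsupp.single (genericPoint X.V.X) (1 : ℚ) : X.V.X →₀ ℚ)) x
    rw [h1]
    simp [Ne.symm hx]

namespace WeilTheory

variable {W : WeilTheory.{u, v, w} C} {X Y : 𝒱.Obj}

/-- moving an idempotent from one summand to another -/
lemma IsCK.move {π : ℕ → C.CH (X.prod X)} (h : W.IsCK X π) {φ : C.CH (X.prod X)}
    (hφ : φ ∈ C.gr (X.prod X) X.dim) (h0 : W.act φ = 0) (hi : C.comp φ φ = φ) {s t : ℕ}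
    (hst : s ≠ t) (hs : C.comp (π t) φ = φ) (ht : C.comp φ (π t) = φ) (hs' : s ≤ 2 * X.dim)
    (ht' : t ≤ 2 * X.dim) : W.IsCK X (shiftCK π φ s t) := by
  have h1 : ∀ i, C.comp (π i) φ = if i = t then φ else 0 := by
    intro i
    conv_lhs => rw [← hs]
    rw [← C.comp_assoc, h.comp_eq]
    split_ifs with hi
    · rw [hi, hs]
    · exact C.zero_comp _
  have h2 : ∀ j, C.comp φ (π j) = if j = t then φ else 0 := by
    intro j
    conv_lhs => rw [← ht]
    rw [C.comp_assoc, h.comp_eq]
    by_cases hj : t = j
    · rw [if_pos hj, if_pos hj.symm, ht]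
    · rw [if_neg hj, if_neg (Ne.symm hj), C.comp_zero]
  have key : ∀ i j, C.comp (shiftCK π φ s t i) (shiftCK π φ s t j) =
      if i = j then shiftCK π φ s t i else 0 := by
    intro i j
    rw [shiftCK, shiftCK, C.comp_add, C.add_comp, C.add_comp, C.comp_smul, C.smul_comp,
      C.comp_smul, C.smul_comp, h1, h2, hi, h.comp_eq]
    by_cases hij : i = j
    · subst hij
      by_cases his : i = s
      · subst his
        simp [hst]
      · by_cases hit : i = t
        · subst hit
          simp [his]
        · simp [his, hit]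
    · by_cases his : i = s
      · subst his
        by_cases hjt : j = t
        · subst hjt
          simp [hst, Ne.symm hst]
        · simp [hij, hjt, Ne.symm hij, hst]
      · by_cases hit : i = t
        · subst hit
          by_cases hjs : j = s
          · subst hjs
            simp [hij, Ne.symm hij]
          · simp [hij, Ne.symm hij, his, hjs]
        · simp [hij, his, hit]
  refine ⟨fun j => ?_, fun j => ?_, fun i j hij => ?_, ?_, fun j => ?_⟩
  · exact Submodule.add_mem _ (h.mem j) (Submodule.smul_mem _ _ hφ)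
  · rw [key, if_pos rfl]
  · rw [key, if_neg hij]
  · unfold shiftCK
    rw [Finset.sum_add_distrib, h.sum, ← Finset.sum_smul, Finset.sum_sub_distrib,
      Finset.sum_ite_eq', Finset.sum_ite_eq', if_pos (Finset.mem_range.2 (by omega)),
      if_pos (Finset.mem_range.2 (by omega)), sub_self, zero_smul, add_zero]
  · intro l a ha
    rw [shiftCK, W.act_add, W.act_smul, h0, smul_zero, add_zero]
    exact h.proj j l a ha

lemma IsCK.comp_sum_comp {π : ℕ → C.CH (X.prod X)} (h : W.IsCK X π) (α β : C.CH (X.prod X)) :
    C.comp α β = ∑ l ∈ Finset.range (2 * X.dim + 1), C.comp (C.comp α (π l)) β := by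
  rw [← C.sum_comp, ← C.comp_sum, h.sum, C.comp_diagC]

/-- the diagonal blocks of an idempotent are idempotent -/
lemma IsCK.block_idem {π : ℕ → C.CH (X.prod X)} (h : W.IsCK X π) (hT : C.IsTriangular π)
    {e : C.CH (X.prod X)} (he : e ∈ C.gr (X.prod X) X.dim) (hee : C.comp e e = e) (j : ℕ) :
    C.comp (C.comp (C.comp (π j) e) (π j)) (C.comp (C.comp (π j) e) (π j)) =
      C.comp (C.comp (π j) e) (π j) := by
  by_cases hj : 2 * X.dim < j
  · rw [h.eq_zero hj, C.comp_zero, C.comp_zero]
  have h1 : C.comp (C.comp (π j) e) (π j) =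
      C.comp (C.comp (C.comp (π j) e) (π j)) (C.comp e (π j)) := by
    conv_lhs => rw [← hee, ← C.comp_assoc, h.comp_sum_comp (C.comp (π j) e) e, C.sum_comp]
    rw [Finset.sum_eq_single j]
    · rw [C.comp_assoc _ e (π j)]
    · intro l _ hlj
      rcases lt_or_gt_of_ne hlj with hlt | hgt
      · have h2 : C.comp (C.comp (π l) e) (π j) = 0 := hT l j hlt e he
        rw [C.comp_assoc (C.comp (π j) e) (π l) e, C.comp_assoc, h2, C.comp_zero]
      · rw [hT j l hgt e he, C.zero_comp, C.zero_comp]
    · intro hj'
      exact absurd (Finset.mem_range.2 (by omega)) hj'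
  conv_rhs => rw [h1]
  rw [← C.comp_assoc (C.comp (C.comp (π j) e) (π j)) (C.comp (π j) e) (π j),
    ← C.comp_assoc (C.comp (C.comp (π j) e) (π j)) (π j) e,
    C.comp_assoc (C.comp (π j) e) (π j) (π j), h.idem, C.comp_assoc _ e (π j)]

/-- Under the vanishing of `Hom(h^a(X), h^b(X))` for `a < b`, for all pairs of decompositions, there
are no phantoms. -/
theorem Triangular.noPhantoms (hP : C.Polarized) (hT : W.Triangular X) {π : ℕ → C.CH (X.prod X)}
    (h : W.IsCK X π) : W.NoPhantoms X := by
  intro e he hee he0'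
  have he0 : W.act e = 0 := LinearMap.ext he0'
  have hTπ : C.IsTriangular π := hT π π h h
  by_cases hn : X.dim = 0
  · -- dimension zero
    obtain ⟨q, rfl⟩ : ∃ q : ℚ, e = q • 1 := ChowTheory.gr_zero (by rwa [hn] at he)
    have h1 : ∀ a : W.H X, (q : W.K) • W.tr X a • (1 : W.H X) = 0 := by
      intro a
      have h2 := congrArg (fun T => T a) he0
      simp only [W.act_smul, LinearMap.smul_apply, LinearMap.zero_apply] at h2
      rw [act_apply, map_one, one_mul] at h2
      have h3 := W.push_snd a (1 : W.H X)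
      rw [map_one, mul_one] at h3
      rwa [h3] at h2
    by_contra hne
    have hq : (q : W.K) ≠ 0 := by
      intro h0
      apply hne
      have : q = 0 := by exact_mod_cast h0
      rw [this, zero_smul]
    have h4 : (1 : W.H X) = 0 := by
      apply W.nondeg
      intro b
      by_contra hb
      rw [one_mul] at hb
      have h5 := h1 b
      have h6 := (smul_eq_zero.1 ((smul_eq_zero.1 h5).resolve_left hq)).resolve_left hb
      apply hb
      rw [← one_mul b, h6, zero_mul, map_zero]
    obtain ⟨D, _, hD⟩ := hP X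
    apply hD
    have h5 := W.tr_cl (D ^ X.dim)
    rw [← one_mul (W.cl X (D ^ X.dim)), h4, zero_mul, map_zero] at h5
    exact_mod_cast h5.symm
  have hblock : ∀ j, C.comp (C.comp (π j) e) (π j) = 0 := by
    intro j
    by_cases hj : 2 * X.dim < j
    · rw [h.eq_zero hj, C.comp_zero]
    set f := C.comp (C.comp (π j) e) (π j) with hf
    have hff : C.comp f f = f := h.block_idem hTπ he hee j
    have hfgr : f ∈ C.gr (X.prod X) X.dim := C.comp_mem (C.comp_mem (h.mem j) he rfl) (h.mem j) rfl
    have hf0 : W.act f = 0 := by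
      ext a
      rw [hf, W.act_comp _ (h.mem j), W.act_comp _ he, he0, LinearMap.zero_apply, map_zero,
        LinearMap.zero_apply]
    have hs : C.comp (π j) f = f := by rw [hf, ← C.comp_assoc, ← C.comp_assoc, h.idem]
    have ht : C.comp f (π j) = f := by rw [hf, C.comp_assoc, h.idem]
    by_cases hj0 : j = 0
    · subst hj0
      have hCK := h.move hfgr hf0 hff (s := 1) (t := 0) (by omega) hs ht (by omega) (by omega)
      have h1 := hT.comp_eq_zero h hCK (a := 0) (b := 1) (by omega)
      rw [shiftCK, if_pos rfl, if_neg (by omega), sub_zero, one_smul, C.comp_add, hs,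
        h.orth 0 1 (by omega), zero_add] at h1
      exact h1
    · have hCK := h.move hfgr hf0 hff (s := j - 1) (t := j) (by omega) hs ht (by omega) (by omega)
      have h1 := hT.comp_eq_zero hCK h (a := j - 1) (b := j) (by omega)
      rw [shiftCK, if_pos rfl, if_neg (by omega), sub_zero, one_smul, C.add_comp, ht,
        h.orth (j - 1) j (by omega), zero_add] at h1
      exact h1
  have hzero : ∀ j, C.comp (π j) e = 0 := by
    intro j
    induction j using Nat.strong_induction_on with
    | _ j ih =>
      conv_lhs => rw [← hee, ← C.comp_assoc, h.comp_sum_comp (C.comp (π j) e) e]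
      refine Finset.sum_eq_zero fun l _ => ?_
      rcases lt_trichotomy l j with hl | rfl | hl
      · rw [C.comp_assoc, ih l hl, C.comp_zero]
      · rw [hblock, C.zero_comp]
      · rw [hTπ j l hl e he, C.zero_comp]
  rw [← C.diagC_comp e, ← h.sum, C.sum_comp]
  exact Finset.sum_eq_zero fun j _ => hzero j

/-- Comparison of an arbitrary decomposition with a triangular one. -/
theorem IsCK.comparison {π π' : ℕ → C.CH (X.prod X)} (h : W.IsCK X π) (hT : C.IsTriangular π)
    (hN : W.NoPhantoms X) (h' : W.IsCK X π') {a b : ℕ} (hab : a < b) :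
    C.comp (π a) (π' b) = 0 ∧ C.comp (π' a) (π b) = 0 := by
  have hblock : ∀ i j, i ≠ j → C.comp (C.comp (π j) (π' i)) (π j) = 0 := by
    intro i j hij
    apply hN _ (C.comp_mem (C.comp_mem (h.mem j) (h'.mem i) rfl) (h.mem j) rfl)
      (h.block_idem hT (h'.mem i) (h'.idem i) j)
    intro c
    refine gr_induction (W.isInternal X)
      (p := fun c => W.act (C.comp (C.comp (π j) (π' i)) (π j)) c = 0) ?_ ?_ c
    · intro l c hc
      rw [W.act_comp _ (h.mem j), W.act_comp _ (h'.mem i), h.proj j l c hc]
      split_ifs with hl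
      · rw [h'.proj i l c hc, if_neg (by omega), map_zero]
      · rw [map_zero, map_zero]
    · intro c c' hc hc'
      rw [map_add, hc, hc', add_zero]
  constructor
  · revert b
    induction a using Nat.strong_induction_on with
    | _ a ih =>
      intro b hab
      conv_lhs => rw [← h'.idem b, ← C.comp_assoc, h.comp_sum_comp (C.comp (π a) (π' b)) (π' b)]
      refine Finset.sum_eq_zero fun l _ => ?_
      rcases lt_trichotomy l a with hl | rfl | hl
      · rw [C.comp_assoc, ih l hl (by omega), C.comp_zero]
      · rw [hblock b l (by omega), C.zero_comp]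
      · rw [hT a l hl _ (h'.mem b), C.zero_comp]
  · have key : ∀ m b, 2 * X.dim + 1 ≤ b + m → a < b → C.comp (π' a) (π b) = 0 := by
      intro m
      induction m with
      | zero => intro b hb _; rw [h.eq_zero (by omega), C.comp_zero]
      | succ m ih =>
        intro b hb hab
        rw [← h'.idem a, C.comp_assoc, h.comp_sum_comp (π' a) (C.comp (π' a) (π b))]
        refine Finset.sum_eq_zero fun l _ => ?_
        rcases lt_trichotomy l b with hl | rfl | hl
        · rw [C.comp_assoc, ← C.comp_assoc (π l), hT l b hl _ (h'.mem a), C.comp_zero]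
        · rw [C.comp_assoc, ← C.comp_assoc (π l), hblock a l (by omega), C.comp_zero]
        · rw [ih l (by omega) (by omega), C.zero_comp]
    exact key (2 * X.dim + 1) b (by omega) hab

lemma ckFil_le {π π' : ℕ → C.CH (X.prod X)} (h : W.IsCK X π) (h' : W.IsCK X π')
    (h0 : ∀ a b, a < b → C.comp (π a) (π' b) = 0) (i k : ℕ) :
    C.ckFil π i k ≤ C.ckFil π' i k := by
  intro x hx
  rw [mem_ckFil h] at hx
  rw [mem_ckFil h']
  refine ⟨hx.1, fun b hb => ?_⟩
  rw [← h.sum_act x, map_sum]
  refine Finset.sum_eq_zero fun a _ => ?_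
  by_cases ha : 2 * i < a + k
  · rw [hx.2 a ha, map_zero]
  · rw [← C.act_comp, h0 a b (by omega), C.act_zero, LinearMap.zero_apply]

theorem IsCK.murreC {π : ℕ → C.CH (X.prod X)} (h : W.IsCK X π) (hT : C.IsTriangular π)
    (hN : W.NoPhantoms X) : W.MurreC X := by
  have key : ∀ (i k : ℕ) (π' : ℕ → C.CH (X.prod X)), W.IsCK X π' →
      C.ckFil π i k = C.ckFil π' i k := fun i k π' h' =>
    le_antisymm (ckFil_le h h' (fun a b hab => (h.comparison hT hN h' hab).1) i k)
      (ckFil_le h' h (fun a b hab => (h.comparison hT hN h' hab).2) i k)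
  intro i k π' π'' h' h''
  rw [← key i k π' h', ← key i k π'' h'']

end WeilTheory

end Pool.Agent.R903
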