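import Pool.Agent.R903.ActTriDefs
import Pool.Agent.R903.OneCK
import Pool.Agent.R903.Lef

/-!
# Murre's conjecture (C) for a single variety
-/

open CategoryTheory CategoryTheory.Limits AlgebraicGeometry
open Pool.Agent.H914 Pool.Agent.H914.VarClass Pool.Agent.H914.VarClass.Obj

universe u v w

namespace Pool.Agent.R903

variable {k : Type u} [Field k] {𝒱 : VarClass k} {C : ChowTheory.{u, v} 𝒱}

namespace WeilTheory

variable {W : WeilTheory.{u, v, w} C} {X Y : 𝒱.Obj}

/-- Off-diagonal blocks act as zero on the cohomology. -/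
lemma IsCK.act_block_eq_zero {π π' : ℕ → C.CH (X.prod X)} (h : W.IsCK X π) (h' : W.IsCK X π')
    {γ : C.CH (X.prod X)} (hγ : γ ∈ C.gr (X.prod X) X.dim) {a b : ℕ} (hab : a ≠ b) :
    W.act (C.comp (C.comp (π a) γ) (π' b)) = 0 := by
  ext c
  rw [LinearMap.zero_apply]
  refine gr_induction (W.isInternal X)
    (p := fun c => W.act (C.comp (C.comp (π a) γ) (π' b)) c = 0) ?_ ?_ c
  · intro l c hc
    rw [W.act_comp _ (h'.mem b), W.act_comp _ hγ, h.proj a l c hc]
    split_ifs with hl
    · rw [h'.proj b l _ (W.act_mem hγ hc (by omega)), if_neg (by omega)]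
    · rw [map_zero, map_zero]
  · intro c c' hc hc'
    rw [map_add, hc, hc', add_zero]

/-- (C) for `X` implies that `Hom(h^a(X), h^b(X))` acts as zero on `CH(X)` for `a < b`. -/
theorem MurreC.actsTriangularly (hP : C.Polarized) (hC : W.MurreC X)
    {π : ℕ → C.CH (X.prod X)} (h : W.IsCK X π) : C.ActsTriangularly π := by
  intro a b hab γ hγ x
  refine gr_induction (C.isInternal X)
    (p := fun x => C.act (C.comp (C.comp (π a) γ) (π b)) x = 0) ?_ ?_ x
  · intro i x hx
    by_cases hb : 2 * X.dim < b
    · rw [h.eq_zero hb, C.comp_zero, C.act_zero, LinearMap.zero_apply]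
    by_cases hbi : 2 * i < b
    · have hB := (ckFil_zero_eq_iff h).1 ((hC i 0).murreB0 hP π h) b hbi
      rw [C.act_comp]
      exact hB _ (C.act_mem (C.comp_mem (h.mem a) hγ rfl) hx rfl)
    set φ := C.comp (C.comp (π a) γ) (π b) with hφ
    have hφgr : φ ∈ C.gr (X.prod X) X.dim := C.comp_mem (C.comp_mem (h.mem a) hγ rfl) (h.mem b) rfl
    have hs : C.comp (π a) φ = φ := by rw [hφ, ← C.comp_assoc, ← C.comp_assoc, h.idem]
    have ht : C.comp φ (π b) = φ := by rw [hφ, C.comp_assoc, h.idem]
    have hCK := h.shift hφgr (h.act_block_eq_zero h hγ (by omega)) (s := a) (t := b) (by omega)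
      hs ht (by omega) (by omega)
    have hmem : C.act (shiftCK π φ a b a) x ∈ C.ckFil π i (2 * i - a) := by
      rw [hC i (2 * i - a) π _ h hCK, mem_ckFil hCK]
      refine ⟨C.act_mem (hCK.mem _) hx rfl, fun c hc => ?_⟩
      rw [hCK.act_act, if_neg (by omega)]
    have h2 := ((mem_ckFil h).1 hmem).2 b (by omega)
    have hφφ : C.act (π b) (C.act φ x) = C.act φ x := by
      rw [← C.act_comp, ht]
    rwa [shiftCK, if_pos rfl, if_neg (by omega), sub_zero, one_smul, C.act_add,
      LinearMap.add_apply, map_add, h.act_act, if_neg (by omega), zero_add, hφφ] at h2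
  · intro c c' hc hc'
    rw [map_add, hc, hc', add_zero]

/-- The component with the highest index. -/
lemma IsCK.top_component {π σ : ℕ → C.CH (X.prod X)} (h : W.IsCK X π)
    (hT : C.ActsTriangularly π) (hN : W.HomTrivialNilp X) (hσ : W.IsCK X σ) {j : ℕ} {x : C.CH X}
    (hx : C.act (σ j) x = x) {b : ℕ} (hbj : b ≠ j) (hb : ∀ b', b < b' → C.act (π b') x = 0) :
    C.act (π b) x = 0 := by
  set n := C.comp (C.comp (π b) (σ j)) (π b) with hn
  have hngr : n ∈ C.gr (X.prod X) X.dim :=
    C.comp_mem (C.comp_mem (h.mem b) (hσ.mem j) rfl) (h.mem b) rfl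
  have hn0 : W.act n = 0 := by
    ext c
    rw [LinearMap.zero_apply]
    refine gr_induction (W.isInternal X) (p := fun c => W.act n c = 0) ?_ ?_ c
    · intro l c hc
      rw [hn, W.act_comp _ (h.mem b), W.act_comp _ (hσ.mem j), h.proj b l c hc]
      split_ifs with hl
      · rw [hσ.proj j l c hc, if_neg (by omega), map_zero]
      · rw [map_zero, map_zero]
    · intro c c' hc hc'
      rw [map_add, hc, hc', add_zero]
  set y := C.act (π b) x with hy
  have hyy : C.act (π b) y = y := by rw [hy, h.act_act, if_pos rfl]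
  have hny : C.act n y = y := by
    have h1 : C.act (π b) (C.act (σ j) x) = y := by rw [hx]
    have h2 : C.act (π b) (C.act (σ j) x) = C.act n y := by
      conv_lhs => rw [← h.sum_act x, map_sum, map_sum]
      by_cases hb2 : 2 * X.dim < b
      · rw [hn, h.eq_zero hb2, C.comp_zero, C.act_zero, LinearMap.zero_apply]
        exact Finset.sum_eq_zero fun a _ => by rw [LinearMap.zero_apply]
      rw [Finset.sum_eq_single b]
      · rw [hn, C.act_comp, C.act_comp, hyy]
      · intro a _ ha
        rcases lt_or_gt_of_ne ha with hlt | hgt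
        · have h3 := hT a b hlt (σ j) (hσ.mem j) x
          rwa [C.act_comp, C.act_comp] at h3
        · rw [hb a hgt, map_zero, map_zero]
      · intro hnot
        exact absurd (Finset.mem_range.2 (by omega)) hnot
    rw [← h2, h1]
  obtain ⟨r, hr⟩ := hN n hngr (fun a => by rw [hn0, LinearMap.zero_apply])
  have hpow : ∀ r, C.act ((fun δ => C.comp δ n)^[r] n) y = y := by
    intro r
    induction r with
    | zero => exact hny
    | succ r ih => rw [Function.iterate_succ_apply', C.act_comp, ih, hny]
  rw [← hpow r, hr, C.act_zero, LinearMap.zero_apply]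

lemma IsCK.above {π σ : ℕ → C.CH (X.prod X)} (h : W.IsCK X π)
    (hT : C.ActsTriangularly π) (hN : W.HomTrivialNilp X) (hσ : W.IsCK X σ) {j : ℕ} {x : C.CH X}
    (hx : C.act (σ j) x = x) {b : ℕ} (hbj : j < b) : C.act (π b) x = 0 := by
  have key : ∀ m b, 2 * X.dim + 1 ≤ b + m → j < b → C.act (π b) x = 0 := by
    intro m
    induction m with
    | zero => intro b hb _; rw [h.eq_zero (by omega), C.act_zero, LinearMap.zero_apply]
    | succ m ih =>
      intro b hb hjb
      exact h.top_component hT hN hσ hx (by omega) fun b' hb' => ih b' (by omega) (by omega)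
  exact key (2 * X.dim + 1) b (by omega) hbj

lemma IsCK.eq_zero_of_above {π σ : ℕ → C.CH (X.prod X)} (h : W.IsCK X π)
    (hT : C.ActsTriangularly π) (hN : W.HomTrivialNilp X) (hσ : W.IsCK X σ) {j : ℕ} {x : C.CH X}
    (hx : C.act (σ j) x = x) (hj : C.act (π j) x = 0) : x = 0 := by
  have key : ∀ m b, 2 * X.dim + 1 ≤ b + m → C.act (π b) x = 0 := by
    intro m
    induction m with
    | zero => intro b hb; rw [h.eq_zero (by omega), C.act_zero, LinearMap.zero_apply]
    | succ m ih =>
      intro b hb
      by_cases hbj : b = j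
      · rw [hbj, hj]
      exact h.top_component hT hN hσ hx hbj fun b' hb' => ih b' (by omega)
  rw [← h.sum_act x]
  exact Finset.sum_eq_zero fun b _ => key (2 * X.dim + 1) b (by omega)

/-- If homologically trivial correspondences are nilpotent and `Hom(h^a(X), h^b(X))` acts as zero on
`CH(X)` for `a < b`, for one decomposition, then (C) holds for `X`. -/
theorem IsCK.murreC_of_actsTriangularly {π : ℕ → C.CH (X.prod X)} (h : W.IsCK X π)
    (hT : C.ActsTriangularly π) (hN : W.HomTrivialNilp X) : W.MurreC X := by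
  have key : ∀ (i k : ℕ) (σ : ℕ → C.CH (X.prod X)), W.IsCK X σ →
      C.ckFil σ i k = C.ckFil π i k := by
    intro i k σ hσ
    apply le_antisymm
    · intro x hx
      rw [mem_ckFil hσ] at hx
      rw [mem_ckFil h]
      refine ⟨hx.1, fun b hb => ?_⟩
      rw [← hσ.sum_act x, map_sum]
      refine Finset.sum_eq_zero fun j _ => ?_
      by_cases hj : 2 * i < j + k
      · rw [hx.2 j hj, map_zero]
      · exact h.above hT hN hσ (by rw [hσ.act_act, if_pos rfl]) (by omega)
    · intro x hx
      rw [mem_ckFil h] at hx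
      rw [mem_ckFil hσ]
      refine ⟨hx.1, fun j hj => ?_⟩
      rw [← h.sum_act x, map_sum]
      refine Finset.sum_eq_zero fun a _ => ?_
      by_cases ha : 2 * i < a + k
      · rw [hx.2 a ha, map_zero]
      · apply h.eq_zero_of_above hT hN hσ (by rw [hσ.act_act, if_pos rfl])
        have h3 := hT a j (by omega) (σ j) (hσ.mem j) x
        rwa [C.act_comp, C.act_comp] at h3
  intro i k σ σ' h1 h2
  rw [key i k σ h1, key i k σ' h2]

end WeilTheory

end Pool.Agent.R903
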