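import Pool.Agent.R903.MurreDDefs
import Pool.Agent.R903.ActTri

/-!
# Murre's conjecture (D)
-/

open CategoryTheory CategoryTheory.Limits AlgebraicGeometry
open Pool.Agent.H914 Pool.Agent.H914.VarClass Pool.Agent.H914.VarClass.Obj

universe u v w

namespace Pool.Agent.R903

variable {k : Type u} [Field k] {𝒱 : VarClass k} {C : ChowTheory.{u, v} 𝒱}

namespace WeilTheory

variable {W : WeilTheory.{u, v, w} C} {X Y : 𝒱.Obj}

lemma cl_eq_zero_of_isZeroMap {γ : C.CH (X.prod X)} (h : IsZeroMap (W.act γ)) :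
    W.cl _ γ = 0 := by
  apply W.nondeg
  intro c
  refine W.kunneth_induction (p := fun c => W.tr (X.prod X) (W.cl _ γ * c) = 0) ?_ ?_ c
  · intro a b ha hb
    rw [mul_add, map_add, ha, hb, add_zero]
  · intro i j a _ b _
    rw [← mul_assoc, ← W.tr_push]
    have h1 : W.push (snd X X) (W.cl _ γ * W.map (fst X X) a) = W.act γ a := rfl
    rw [h1, h a, zero_mul, map_zero]

/-- `F^1 CH^i(X)` is contained in the kernel of the cycle class map. -/
lemma IsCK.first_le {π : ℕ → C.CH (X.prod X)} (h : W.IsCK X π) {i : ℕ} {x : C.CH X}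
    (hx : x ∈ C.ckFil π i 1) : x ∈ C.gr X i ∧ W.cl X x = 0 := by
  rw [mem_ckFil h] at hx
  refine ⟨hx.1, ?_⟩
  rw [← h.sum_act x, map_sum]
  refine Finset.sum_eq_zero fun j _ => ?_
  by_cases hj : 2 * i < j + 1
  · rw [hx.2 j hj, map_zero]
  · rw [W.cl_act, h.proj j _ _ (W.cl_mem hx.1), if_neg (by omega)]

lemma IsCK.firstIsKernel_iff {π : ℕ → C.CH (X.prod X)} (h : W.IsCK X π) {i : ℕ} :
    W.FirstIsKernel π i ↔
      ∀ x ∈ C.gr X i, W.cl X x = 0 → ∀ b, 2 * i ≤ b → C.act (π b) x = 0 := by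
  constructor
  · intro hD x hx h0 b hb
    have h1 := (hD x).2 ⟨hx, h0⟩
    exact ((mem_ckFil h).1 h1).2 b (by omega)
  · intro hD x
    refine ⟨fun hx => h.first_le hx, fun hx => ?_⟩
    rw [mem_ckFil h]
    exact ⟨hx.1, fun b hb => hD x hx.1 hx.2 b (by omega)⟩

/-- (D) for `X × X` in the middle codimension gives strict triangularity. -/
lemma lowersIndex_of_square (hD : ∀ σ, W.IsCK (X.prod X) σ → W.FirstIsKernel σ X.dim)
    {π π' : ℕ → C.CH (X.prod X)} (h : W.IsCK X π) (h' : W.IsCK X π') :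
    W.LowersIndex π π' := by
  intro γ hγ h0 a b hab
  by_cases hb : 2 * X.dim < b
  · rw [h'.eq_zero hb, C.comp_zero]
  have hCK := h.transp.prod h'
  have hz : IsZeroMap (W.act (C.comp (C.comp (π a) γ) (π' b))) := by
    intro c
    rw [W.act_comp _ (h'.mem b), W.act_comp _ hγ, h0, map_zero]
  have h1 := (hCK.firstIsKernel_iff.1 (hD _ hCK)) (C.comp (C.comp (π a) γ) (π' b))
    (C.comp_mem (C.comp_mem (h.mem a) hγ rfl) (h'.mem b) rfl) (cl_eq_zero_of_isZeroMap hz)
    (2 * X.dim - a + b) (by omega)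
  rwa [act_prodCK_block h h' (by omega)] at h1

section Lowers

variable {π : ℕ → C.CH (X.prod X)} (h : W.IsCK X π) (hL : W.LowersIndex π π)

include h hL

lemma LowersIndex.isTriangular : C.IsTriangular π := by
  intro a b hab γ hγ
  have h1 := hL (C.comp (C.comp (π a) γ) (π b))
    (C.comp_mem (C.comp_mem (h.mem a) hγ rfl) (h.mem b) rfl)
    (fun c => by rw [h.act_block_eq_zero h hγ (by omega), LinearMap.zero_apply]) a b hab.le
  rwa [← C.comp_assoc, ← C.comp_assoc, h.idem, C.comp_assoc, h.idem] at h1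

lemma LowersIndex.noPhantoms : W.NoPhantoms X := by
  intro e he hee he0
  have hzero : ∀ j, C.comp (π j) e = 0 := by
    intro j
    induction j using Nat.strong_induction_on with
    | _ j ih =>
      conv_lhs => rw [← hee, ← C.comp_assoc, h.comp_sum_comp (C.comp (π j) e) e]
      refine Finset.sum_eq_zero fun l _ => ?_
      rcases Nat.lt_or_ge l j with hl | hl
      · rw [C.comp_assoc, ih l hl, C.comp_zero]
      · rw [hL e he he0 j l hl, C.zero_comp]
  rw [← C.diagC_comp e, ← h.sum, C.sum_comp]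
  exact Finset.sum_eq_zero fun j _ => hzero j

/-- Strict triangularity does not depend on the decompositions. -/
theorem LowersIndex.all {π' π'' : ℕ → C.CH (X.prod X)} (h' : W.IsCK X π') (h'' : W.IsCK X π'') :
    W.LowersIndex π' π'' := by
  intro γ hγ h0 a b hab
  have hT := hL.isTriangular h
  have hN := hL.noPhantoms h
  have e1 : C.comp (C.comp (π' a) γ) (π'' b) = ∑ c ∈ Finset.range (2 * X.dim + 1),
      ∑ d ∈ Finset.range (2 * X.dim + 1),
        C.comp (C.comp (π' a) (π d)) (C.comp (C.comp (π d) γ) (C.comp (π c) (π'' b))) := by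
    rw [h.comp_sum_comp (C.comp (π' a) γ) (π'' b)]
    refine Finset.sum_congr rfl fun c _ => ?_
    rw [C.comp_assoc (C.comp (π' a) γ) (π c) (π'' b), C.comp_assoc (π' a) γ,
      h.comp_sum_comp (π' a) (C.comp γ (C.comp (π c) (π'' b)))]
    refine Finset.sum_congr rfl fun d _ => ?_
    conv_lhs => rw [← h.idem d]
    rw [← C.comp_assoc (π' a) (π d) (π d), C.comp_assoc (C.comp (π' a) (π d)) (π d),
      ← C.comp_assoc (π d) γ]
  rw [e1]
  refine Finset.sum_eq_zero fun c _ => Finset.sum_eq_zero fun d _ => ?_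
  by_cases hcb : c < b
  · rw [(h.comparison hT hN h'' hcb).1, C.comp_zero, C.comp_zero]
  by_cases had : a < d
  · rw [(h.comparison hT hN h' had).2, C.zero_comp]
  · rw [← C.comp_assoc (C.comp (π d) γ), hL γ hγ h0 d c (by omega), C.zero_comp, C.comp_zero]

theorem LowersIndex.murreC : W.MurreC X := h.murreC (hL.isTriangular h) (hL.noPhantoms h)

theorem LowersIndex.murreD (hP : C.Polarized) : W.MurreD X := by
  intro σ hσ i
  rw [hσ.firstIsKernel_iff]
  intro x hx hcl b hb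
  by_cases hi : X.dim < i
  · rw [C.gr_eq_bot X i hi, Submodule.mem_bot] at hx
    rw [hx, map_zero]
  have hLσ := hL.all h hσ hσ
  obtain ⟨D, hD, hdeg⟩ := hP X
  have hpow : ∀ m, D ^ m ∈ C.gr X m := by
    intro m
    induction m with
    | zero => rw [pow_zero]; exact C.one_mem X
    | succ m ih => rw [pow_succ]; exact C.mul_mem ih hD
  set y := D ^ (X.dim - i) with hy
  have hγ : C.ext y x ∈ C.gr (X.prod X) X.dim := by
    have := C.ext_mem (hpow (X.dim - i)) hx
    rwa [Nat.sub_add_cancel (by omega)] at this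
  have hγ0 : IsZeroMap (W.act (C.ext y x)) := by
    intro c
    rw [act_apply, ChowTheory.ext, W.cl_mul, W.cl_pull (snd X X), hcl, map_zero, mul_zero,
      zero_mul, map_zero]
  have h1 := congrArg (fun γ => C.act γ (D ^ i)) (hLσ _ hγ hγ0 (2 * i) b hb)
  simp only [C.act_comp, C.act_ext, C.act_zero, LinearMap.zero_apply, map_smul] at h1
  have hdeg' : C.deg X (C.act (σ (2 * i)) (D ^ i) * y) = C.deg X (D ^ X.dim) := by
    have h1 : (C.deg X (C.act (σ (2 * i)) (D ^ i) * y) : W.K) = (C.deg X (D ^ X.dim) : W.K) := by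
      rw [← W.tr_cl, ← W.tr_cl, W.cl_mul, W.cl_act, hσ.proj _ _ _ (W.cl_mem (hpow i)), if_pos rfl,
        ← W.cl_mul, hy, ← pow_add, Nat.add_sub_cancel' (by omega)]
    exact_mod_cast h1
  rw [hdeg'] at h1
  exact (smul_eq_zero.1 h1).resolve_left hdeg

omit h hL in
/-- (D) in codimension `i` implies the first half of (B) in codimension `i`. -/
theorem murreB0_of_firstIsKernel {i : ℕ} (hD : ∀ σ, W.IsCK X σ → W.FirstIsKernel σ i) :
    W.MurreB0 X i := by
  intro σ hσ
  rw [ckFil_zero_eq_iff hσ]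
  intro b hb x hx
  have h0 : W.cl X (C.act (σ b) x) = 0 := by
    rw [W.cl_act, hσ.proj b _ _ (W.cl_mem hx), if_neg (by omega)]
  have h1 := (hσ.firstIsKernel_iff.1 (hD σ hσ)) _ (C.act_mem (hσ.mem b) hx rfl) h0 b hb.le
  rwa [hσ.act_act, if_pos rfl] at h1

end Lowers

theorem murreD_tfae (hP : C.Polarized) :
    List.TFAE [∀ X : 𝒱.Obj, W.MurreD X,
      ∀ (X : 𝒱.Obj) σ, W.IsCK (X.prod X) σ → W.FirstIsKernel σ X.dim,
      ∀ X : 𝒱.Obj, W.HasCK X → W.MurreC X ∧ ∃ π, W.IsCK X π ∧ ∀ i, W.FirstIsKernel π i,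
      ∀ X : 𝒱.Obj, W.HasCK X → ∃ π, W.IsCK X π ∧ W.LowersIndex π π] := by
  tfae_have 1 → 2 := fun h X σ hσ => h (X.prod X) σ hσ X.dim
  tfae_have 2 → 4 := fun h X ⟨π, hπ⟩ => ⟨π, hπ, lowersIndex_of_square (h X) hπ hπ⟩
  tfae_have 4 → 3 := by
    intro h X hX
    obtain ⟨π, hπ, hL⟩ := h X hX
    exact ⟨hL.murreC hπ, π, hπ, fun i => hL.murreD hπ hP π hπ i⟩
  tfae_have 3 → 1 := by
    intro h X σ hσ i
    obtain ⟨hC, π, hπ, hD⟩ := h X ⟨σ, hσ⟩
    intro x
    rw [hC i 1 σ π hσ hπ]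
    exact hD i x
  tfae_finish

end WeilTheory

end Pool.Agent.R903
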