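import Pool.Agent.R903.SummandDefs
import Pool.Agent.R903.AlgCK

/-!
# Direct summands of motives with a triangular Chow–Künneth decomposition
-/

open CategoryTheory CategoryTheory.Limits AlgebraicGeometry Polynomial
open Pool.Agent.H914 Pool.Agent.H914.VarClass Pool.Agent.H914.VarClass.Obj

universe u v w

namespace Pool.Agent.R903

variable {k : Type u} [Field k] {𝒱 : VarClass k} {C : ChowTheory.{u, v} 𝒱}

namespace ChowTheory

variable {X Y Z : 𝒱.Obj}

lemma cograph_comp (f : Y ⟶ X) (β : C.CH (Y.prod Z)) :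
    C.comp (C.cograph f) β = C.push (prodMap f (𝟙 Z)) β := by
  have h1 : C.pull (p12 X Y Z) (C.push (lift f (𝟙 Y)) 1) =
      C.push (lift (fst Y Z ≫ f) (𝟙 _)) (C.pull (fst Y Z) 1) := by
    refine C.base_change (T := Z) (lift f (𝟙 Y)) (lift (fst Y Z ≫ f) (𝟙 _)) (fst Y Z)
      (p12 X Y Z) (snd X _ ≫ snd Y Z) ?_ isIso_assoc ?_ 1
    · apply hom_ext_prod <;> simp
    · have : lift (fst Y Z ≫ f) (𝟙 (Y.prod Z)) ≫ snd X (Y.prod Z) ≫ snd Y Z = snd Y Z := by simp
      rw [this]; exact isIso_lift_fst_snd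
  rw [comp, cograph, span, h1, ← C.push_mul, ← C.push_comp, ← C.pull_comp, map_one, one_mul,
    lift_snd, C.pull_id]
  congr 1
  have : lift (fst Y Z ≫ f) (𝟙 (Y.prod Z)) ≫ p13 X Y Z = prodMap f (𝟙 Z) := by
    apply hom_ext_prod <;> simp
  rw [this]

theorem Dominates.isSummand (h : C.Dominates Y X) : C.IsSummand X Y := by
  obtain ⟨hdim, f, ζ, hζ, h1⟩ := h
  refine ⟨X.dim, Y.dim, C.cograph f, C.span (𝟙 Y) f ζ, C.cograph_mem f,
    C.span_mem _ _ hζ (by omega), rfl, ?_⟩
  rw [cograph_comp, span, ← C.push_comp, diagC, ← h1, ← C.push_comp]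
  congr 1
  have : lift (𝟙 Y) f ≫ prodMap f (𝟙 X) = f ≫ Obj.diag X := by
    apply hom_ext_prod <;> simp
  rw [this]

end ChowTheory

namespace WeilTheory

variable {W : WeilTheory.{u, v, w} C} {X Y Z : 𝒱.Obj}

lemma IsCK.comp_sum_comp' {ρ : ℕ → C.CH (Y.prod Y)} (h : W.IsCK Y ρ) (α : C.CH (X.prod Y))
    (β : C.CH (Y.prod Z)) :
    C.comp α β = ∑ l ∈ Finset.range (2 * Y.dim + 1), C.comp (C.comp α (ρ l)) β := by
  rw [← C.sum_comp, ← C.comp_sum, h.sum, C.comp_diagC]

/-- A direct summand of a motive with a triangular Chow–Künneth decomposition has a Chow–Künneth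
decomposition. -/
theorem hasCK_of_isSummand (hs : C.IsSummand X Y) {ρ : ℕ → C.CH (Y.prod Y)} (h : W.IsCK Y ρ)
    (hT : C.IsTriangular ρ) : W.HasCK X := by
  classical
  obtain ⟨c, c', α, β, hα, hβ, hcc, hαβ⟩ := hs
  set a : ℚ := 2 * (c : ℚ) - 2 * (X.dim : ℚ) with ha
  set M := 2 * Y.dim + 1 with hM
  set δ : C.CH (Y.prod Y) := ∑ m ∈ Finset.range M, ((m : ℚ) - a) • ρ m with hδ
  have hδgr : δ ∈ C.gr (Y.prod Y) Y.dim :=
    Submodule.sum_mem _ fun m _ => Submodule.smul_mem _ _ (h.mem m)
  set d : C.CH (X.prod X) := C.comp (C.comp α δ) β with hd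
  set p : C.CH (Y.prod Y) := C.comp β α with hp
  have hpgr : p ∈ C.gr (Y.prod Y) Y.dim := C.comp_mem hβ hα (by omega)
  have hdgr : d ∈ C.gr (X.prod X) X.dim := C.comp_mem (C.comp_mem hα hδgr rfl) hβ (by omega)
  -- the degree operator
  have hdeg : W.IsDegree X d := by
    refine ⟨hdgr, fun j v hv => ?_⟩
    rw [hd, W.act_comp _ hβ, W.act_comp _ hδgr]
    have hback : W.act β (W.act α v) = v := by
      rw [← W.act_comp _ hβ, hαβ, W.act_diagC]
    by_cases hj : j + 2 * c < 2 * X.dim
    · have h0 := W.act_eq_zero hα hv hj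
      rw [h0, map_zero] at hback
      rw [← hback]; simp
    · obtain ⟨m, hm⟩ : ∃ m, m + 2 * X.dim = j + 2 * c := ⟨j + 2 * c - 2 * X.dim, by omega⟩
      have hw : W.act α v ∈ W.gr Y m := W.act_mem hα hv (by omega)
      have hδw : W.act δ (W.act α v) = (j : W.K) • W.act α v := by
        rw [hδ, W.act_sum, LinearMap.sum_apply]
        by_cases hmM : m < M
        · rw [Finset.sum_eq_single m]
          · rw [W.act_smul, LinearMap.smul_apply, h.proj m m _ hw, if_pos rfl]
            congr 1
            have h1 : (m : ℚ) - a = j := by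
              have h2 : ((m + 2 * X.dim : ℕ) : ℚ) = ((j + 2 * c : ℕ) : ℚ) := by rw [hm]
              push_cast at h2
              rw [ha]
              linarith
            rw [h1]
            push_cast
            rfl
          · intro l _ hl
            rw [W.act_smul, LinearMap.smul_apply, h.proj l m _ hw, if_neg (Ne.symm hl), smul_zero]
          · intro h1; exact absurd (Finset.mem_range.2 hmM) h1
        · rw [W.gr_eq_bot Y m (by omega), Submodule.mem_bot] at hw
          rw [hw]; simp
      rw [hδw, map_smul, hback]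
  -- it is algebraic
  set s : ℕ → ℚ := fun m => (m : ℚ) - a with hs
  set D := Algebra.lmul ℚ (CorrRing C X) (CorrRing.of C X d) with hD
  have hDapp : ∀ γ : C.CH (X.prod X), D (CorrRing.of C X γ) = CorrRing.of C X (C.comp γ d) :=
    fun γ => rfl
  have step : ∀ (M' : ℕ) (g : C.CH (X.prod Y)) (t : ℕ → ℚ), C.comp g p = g →
      (∀ l, M' + 1 ≤ l → C.comp g (ρ l) = 0) → ∀ l, M' ≤ l →
      ∑ m ∈ Finset.range M, t m • C.comp (C.comp (C.comp g (ρ m)) p) (ρ l) =
        t M' • C.comp g (ρ l) := by
    intro M' g t hgp hg l hl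
    have hzero : ∀ m, m ≠ M' → C.comp (C.comp (C.comp g (ρ m)) p) (ρ M') = 0 := by
      intro m hm
      rcases lt_or_gt_of_ne hm with hlt | hgt
      · rw [C.comp_assoc (C.comp g (ρ m)) p, C.comp_assoc g (ρ m), ← C.comp_assoc (ρ m) p,
          hT m M' hlt p hpgr, C.comp_zero]
      · rw [hg m (by omega), C.zero_comp, C.zero_comp]
    rcases Nat.lt_or_ge M' l with hl' | hl'
    · rw [hg l (by omega), smul_zero]
      refine Finset.sum_eq_zero fun m _ => ?_
      by_cases hm : M' + 1 ≤ m
      · rw [hg m hm, C.zero_comp, C.zero_comp, smul_zero]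
      · rw [C.comp_assoc (C.comp g (ρ m)) p, C.comp_assoc g (ρ m), ← C.comp_assoc (ρ m) p,
          hT m l (by omega) p hpgr, C.comp_zero, smul_zero]
    · have hlM : l = M' := le_antisymm hl' hl
      subst hlM
      by_cases hlM : l < M
      · rw [Finset.sum_eq_single l (fun m _ hm => by rw [hzero m hm, smul_zero])
          (fun h1 => absurd (Finset.mem_range.2 hlM) h1)]
        congr 1
        conv_rhs => rw [← hgp, h.comp_sum_comp' g p, C.sum_comp]
        rw [Finset.sum_eq_single l (fun m _ hm => hzero m hm)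
          (fun h1 => absurd (Finset.mem_range.2 hlM) h1)]
      · rw [h.eq_zero (by omega : 2 * Y.dim < l), C.comp_zero, smul_zero]
        refine Finset.sum_eq_zero fun m _ => ?_
        rw [C.comp_zero, smul_zero]
  have key : ∀ (M' : ℕ) (γ : C.CH (X.prod X)), (∀ l, M' ≤ l → C.comp (C.comp γ α) (ρ l) = 0) →
      aeval D (∏ m ∈ Finset.range M', (Polynomial.X - Polynomial.C (s m)))
        (CorrRing.of C X γ) = 0 := by
    intro M'
    induction M' with
    | zero =>
      intro γ hγ
      have h1 : C.comp γ α = 0 := by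
        rw [← C.comp_diagC (C.comp γ α), ← h.sum, C.comp_sum]
        exact Finset.sum_eq_zero fun l _ => hγ l (Nat.zero_le _)
      have h2 : γ = 0 := by
        rw [← C.comp_diagC γ, ← hαβ, ← C.comp_assoc, h1, C.zero_comp]
      rw [h2, map_zero, map_zero]
    | succ M' ih =>
      intro γ hγ
      rw [Finset.prod_range_succ, map_mul, Module.End.mul_apply, map_sub, aeval_X, aeval_C,
        LinearMap.sub_apply, Module.algebraMap_end_apply, hDapp, ← map_smul, ← map_sub]
      apply ih
      intro l hl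
      set g := C.comp γ α with hg
      have hgp : C.comp g p = g := by
        rw [hg, hp, C.comp_assoc, ← C.comp_assoc α β α, hαβ, C.diagC_comp]
      have e1 : C.comp (C.comp γ d) α = C.comp (C.comp g δ) p := by
        rw [hd, hg, hp]
        simp only [C.comp_assoc]
      have e2 : C.comp (C.comp (C.comp g δ) p) (ρ l) =
          ∑ m ∈ Finset.range M, s m • C.comp (C.comp (C.comp g (ρ m)) p) (ρ l) := by
        rw [hδ, C.comp_sum, C.sum_comp, C.sum_comp]
        refine Finset.sum_congr rfl fun m _ => ?_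
        rw [C.comp_smul, C.smul_comp, C.smul_comp]
      have e3 := step M' g s hgp hγ l hl
      have e4 : C.comp (C.comp (C.comp γ d - s M' • γ) α) (ρ l) =
          C.comp (C.comp (C.comp γ d) α) (ρ l) - s M' • C.comp g (ρ l) := by
        rw [sub_eq_add_neg, ← neg_smul, C.add_comp, C.add_comp, C.smul_comp, C.smul_comp,
          neg_smul, ← sub_eq_add_neg]
      rw [e4, e1, e2, e3, sub_self]
  have hQ : aeval (CorrRing.of C X d)
      (∏ m ∈ Finset.range M, (Polynomial.X - Polynomial.C (s m))) = 0 := by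
    have h1 := key M (C.diagC X) (fun l hl => by
      rw [h.eq_zero (by omega : 2 * Y.dim < l), C.comp_zero])
    rw [hD, aeval_algHom_apply, CorrRing.of_one] at h1
    simpa using h1
  refine exists_CK_of_algebraic hdeg ?_ hQ
  rw [Finset.prod_ne_zero_iff]
  exact fun m _ => X_sub_C_ne_zero _

/-- Comparison of a triangular decomposition with an idempotent which is concentrated in one
degree. -/
theorem IsCK.comparison' {ρ : ℕ → C.CH (Y.prod Y)} (h : W.IsCK Y ρ) (hT : C.IsTriangular ρ)
    (hN : W.NoPhantoms Y) {e : C.CH (Y.prod Y)} (he : e ∈ C.gr (Y.prod Y) Y.dim)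
    (hee : C.comp e e = e) {m : ℕ} (hact : ∀ l, l ≠ m → ∀ v ∈ W.gr Y l, W.act e v = 0) :
    (∀ a < m, C.comp (ρ a) e = 0) ∧ ∀ b, m < b → C.comp e (ρ b) = 0 := by
  have hblock : ∀ j, j ≠ m → C.comp (C.comp (ρ j) e) (ρ j) = 0 := by
    intro j hj
    apply hN _ (C.comp_mem (C.comp_mem (h.mem j) he rfl) (h.mem j) rfl)
      (h.block_idem hT he hee j)
    intro c
    refine gr_induction (W.isInternal Y)
      (p := fun c => W.act (C.comp (C.comp (ρ j) e) (ρ j)) c = 0) ?_ ?_ c
    · intro l c hc
      rw [W.act_comp _ (h.mem j), W.act_comp _ he, h.proj j l c hc]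
      split_ifs with hl
      · rw [hact l (by omega) c hc, map_zero]
      · rw [map_zero, map_zero]
    · intro c c' hc hc'
      rw [map_add, hc, hc', add_zero]
  constructor
  · intro a
    induction a using Nat.strong_induction_on with
    | _ a ih =>
      intro ha
      conv_lhs => rw [← hee, ← C.comp_assoc, h.comp_sum_comp (C.comp (ρ a) e) e]
      refine Finset.sum_eq_zero fun l _ => ?_
      rcases lt_trichotomy l a with hl | rfl | hl
      · rw [C.comp_assoc, ih l hl (by omega), C.comp_zero]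
      · rw [hblock l (by omega), C.zero_comp]
      · rw [hT a l hl _ he, C.zero_comp]
  · have key : ∀ n b, 2 * Y.dim + 1 ≤ b + n → m < b → C.comp e (ρ b) = 0 := by
      intro n
      induction n with
      | zero => intro b hb _; rw [h.eq_zero (by omega), C.comp_zero]
      | succ n ih =>
        intro b hb hmb
        rw [← hee, C.comp_assoc, h.comp_sum_comp e (C.comp e (ρ b))]
        refine Finset.sum_eq_zero fun l _ => ?_
        rcases lt_trichotomy l b with hl | rfl | hl
        · rw [C.comp_assoc, ← C.comp_assoc (ρ l), hT l b hl _ he, C.comp_zero]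
        · rw [C.comp_assoc, ← C.comp_assoc (ρ l), hblock l (by omega), C.comp_zero]
        · rw [ih l (by omega) (by omega), C.zero_comp]
    intro b hb
    exact key (2 * Y.dim + 1) b (by omega) hb

/-- Triangularity and the absence of phantoms pass to direct summands. -/
theorem triangular_of_isSummand (hs : C.IsSummand X Y) {ρ : ℕ → C.CH (Y.prod Y)}
    (h : W.IsCK Y ρ) (hT : C.IsTriangular ρ) (hN : W.NoPhantoms Y) :
    W.NoPhantoms X ∧ ∀ π : ℕ → C.CH (X.prod X), W.IsCK X π → C.IsTriangular π := by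
  obtain ⟨c, c', α, β, hα, hβ, hcc, hαβ⟩ := hs
  set hat : C.CH (X.prod X) → C.CH (Y.prod Y) := fun e => C.comp (C.comp β e) α with hhat
  have hgr : ∀ e ∈ C.gr (X.prod X) X.dim, hat e ∈ C.gr (Y.prod Y) Y.dim := fun e he =>
    C.comp_mem (C.comp_mem hβ he rfl) hα (by omega)
  have hmul : ∀ e f, C.comp (hat e) (hat f) = hat (C.comp e f) := by
    intro e f
    simp only [hhat]
    rw [C.comp_assoc (C.comp β e) α, ← C.comp_assoc α (C.comp β f) α, ← C.comp_assoc α β f, hαβ,
      C.diagC_comp]
    simp only [C.comp_assoc]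
  have hinj : ∀ e, C.comp (C.comp α (hat e)) β = e := by
    intro e
    simp only [hhat]
    rw [← C.comp_assoc α (C.comp β e) α, ← C.comp_assoc α β e, hαβ, C.diagC_comp, C.comp_assoc,
      hαβ, C.comp_diagC]
  have hact : ∀ e ∈ C.gr (X.prod X) X.dim, ∀ v, W.act (hat e) v =
      W.act α (W.act e (W.act β v)) := by
    intro e he v
    simp only [hhat]
    rw [W.act_comp _ hα, W.act_comp _ he]
  have hNX : W.NoPhantoms X := by
    intro e he hee h0
    have h1 : hat e = 0 := hN _ (hgr e he) (by rw [hmul, hee])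
      (fun v => by rw [hact e he, h0, map_zero])
    rw [← hinj e, h1, C.comp_zero, C.zero_comp]
  refine ⟨hNX, fun π hπ a b hab γ hγ => ?_⟩
  -- the degrees of the idempotents
  have hdeg : ∀ a l, l + 2 * c' ≠ a + 2 * Y.dim → ∀ v ∈ W.gr Y l, W.act (hat (π a)) v = 0 := by
    intro a l hl v hv
    rw [hact _ (hπ.mem a)]
    by_cases h1 : l + 2 * c' < 2 * Y.dim
    · rw [W.act_eq_zero hβ hv h1, map_zero, map_zero]
    · have h2 : W.act β v ∈ W.gr X (l + 2 * c' - 2 * Y.dim) := W.act_mem hβ hv (by omega)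
      rw [hπ.proj a _ _ h2, if_neg (by omega), map_zero]
  have hzero : C.comp (C.comp (hat (π a)) (hat γ)) (hat (π b)) = 0 := by
    by_cases ha : a + 2 * Y.dim < 2 * c'
    · have h1 : hat (π a) = 0 := by
        apply hN _ (hgr _ (hπ.mem a)) (by rw [hmul, hπ.idem])
        intro v
        refine gr_induction (W.isInternal Y) (p := fun v => W.act (hat (π a)) v = 0) ?_ ?_ v
        · intro l v hv
          exact hdeg a l (by omega) v hv
        · intro v v' hv hv'
          rw [map_add, hv, hv', add_zero]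
      rw [h1, C.zero_comp, C.zero_comp]
    · obtain ⟨ma, hma⟩ : ∃ ma, ma + 2 * c' = a + 2 * Y.dim := ⟨a + 2 * Y.dim - 2 * c', by omega⟩
      obtain ⟨mb, hmb⟩ : ∃ mb, mb + 2 * c' = b + 2 * Y.dim := ⟨b + 2 * Y.dim - 2 * c', by omega⟩
      have ca := h.comparison' hT hN (hgr _ (hπ.mem a)) (by rw [hmul, hπ.idem]) (m := ma)
        (fun l hl => hdeg a l (by omega))
      have cb := h.comparison' hT hN (hgr _ (hπ.mem b)) (by rw [hmul, hπ.idem]) (m := mb)
        (fun l hl => hdeg b l (by omega))
      rw [h.comp_sum_comp (hat (π a)) (hat γ), C.sum_comp]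
      refine Finset.sum_eq_zero fun l _ => ?_
      by_cases hl : ma < l
      · rw [ca.2 l hl, C.zero_comp, C.zero_comp]
      · rw [h.comp_sum_comp (C.comp (C.comp (hat (π a)) (ρ l)) (hat γ)) (hat (π b))]
        refine Finset.sum_eq_zero fun l' _ => ?_
        by_cases hl' : l' < mb
        · rw [C.comp_assoc _ (ρ l'), cb.1 l' hl', C.comp_zero]
        · have h2 := hT l l' (by omega) (hat γ) (hgr γ hγ)
          have h3 : C.comp (C.comp (C.comp (hat (π a)) (ρ l)) (hat γ)) (ρ l') =
              C.comp (hat (π a)) (C.comp (C.comp (ρ l) (hat γ)) (ρ l')) := by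
            simp only [C.comp_assoc]
          rw [h3, h2, C.comp_zero, C.zero_comp]
  rw [hmul, hmul] at hzero
  rw [← hinj (C.comp (C.comp (π a) γ) (π b)), hzero, C.comp_zero, C.zero_comp]

end WeilTheory

end Pool.Agent.R903
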