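import Pool.Agent.R903.MurreDefs

/-!
# Direct summands and dominated varieties: definitions
-/

open CategoryTheory CategoryTheory.Limits AlgebraicGeometry
open Pool.Agent.H914 Pool.Agent.H914.VarClass Pool.Agent.H914.VarClass.Obj

universe u v w

namespace Pool.Agent.R903

variable {k : Type u} [Field k] {𝒱 : VarClass k}

/-- `h(X)` is a direct summand of `h(Y)`, up to a Tate twist: there are correspondences `α` from `X`
to `Y` and `β` from `Y` to `X`, of opposite degrees, with `β ∘ α = Δ_X`. -/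
def ChowTheory.IsSummand (C : ChowTheory.{u, v} 𝒱) (X Y : 𝒱.Obj) : Prop :=
  ∃ (c c' : ℕ) (α : C.CH (X.prod Y)) (β : C.CH (Y.prod X)), α ∈ C.gr (X.prod Y) c ∧
    β ∈ C.gr (Y.prod X) c' ∧ c + c' = X.dim + Y.dim ∧ C.comp α β = C.diagC X

/-- `Y` dominates `X`: there are a morphism `f : Y ⟶ X` and a class `ζ` in
`CH^(dim Y - dim X)(Y)` with `f_* ζ = [X]`. For projective varieties this holds for each surjective
`f`, with `ζ` a rational multiple of the class of a multisection. -/
def ChowTheory.Dominates (C : ChowTheory.{u, v} 𝒱) (Y X : 𝒱.Obj) : Prop :=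
  X.dim ≤ Y.dim ∧ ∃ (f : Y ⟶ X) (ζ : C.CH Y), ζ ∈ C.gr Y (Y.dim - X.dim) ∧ C.push f ζ = 1

/-- `X` has a Chow–Künneth decomposition with `Hom(h^a(X), h^b(X)) = 0` for `a < b`. -/
def WeilTheory.HasTriangularCK {C : ChowTheory.{u, v} 𝒱} (W : WeilTheory.{u, v, w} C)
    (X : 𝒱.Obj) : Prop :=
  ∃ π : ℕ → C.CH (X.prod X), W.IsCK X π ∧ C.IsTriangular π

end Pool.Agent.R903
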