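import Pool.Agent.R903.BBMurreDefs
import Pool.Agent.R903.BB
import Pool.Agent.R903.AlgCK

/-!
# The Bloch–Beilinson filtration and one decomposition for each variety
-/

open CategoryTheory CategoryTheory.Limits AlgebraicGeometry Polynomial
open Pool.Agent.H914 Pool.Agent.H914.VarClass Pool.Agent.H914.VarClass.Obj

universe u v w

namespace Pool.Agent.R903

variable {k : Type u} [Field k] {𝒱 : VarClass k} {C : ChowTheory.{u, v} 𝒱}

namespace WeilTheory

variable {W : WeilTheory.{u, v, w} C} {X Y : 𝒱.Obj}

lemma cl_eq_zero_of_act {γ : C.CH (X.prod Y)} (h : ∀ a, W.act γ a = 0) : W.cl _ γ = 0 := by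
  apply W.nondeg
  intro c
  refine W.kunneth_induction (p := fun c => W.tr (X.prod Y) (W.cl _ γ * c) = 0) ?_ ?_ c
  · intro a b ha hb
    rw [mul_add, map_add, ha, hb, add_zero]
  · intro i j a _ b _
    rw [← mul_assoc, ← W.tr_push]
    have h1 : W.push (snd X Y) (W.cl _ γ * W.map (fst X Y) a) = W.act γ a := rfl
    rw [h1, h, zero_mul, map_zero]

/-! ### from decompositions to the filtration -/

/-- homologically trivial correspondences have no diagonal blocks -/
lemma block_eq_zero {π : ℕ → C.CH (X.prod X)} (h : W.IsCK X π)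
    (hD : ∀ σ : ℕ → C.CH ((X.prod X).prod (X.prod X)), W.IsCK (X.prod X) σ →
      IsKernelOn (W.cl (X.prod X)) (C.gr (X.prod X) X.dim) (C.ckFil σ X.dim 1))
    {γ : C.CH (X.prod X)} (hγ : γ ∈ C.gr (X.prod X) X.dim) {m : ℕ} (hm : m ≤ 2 * X.dim)
    (h0 : ∀ a, W.act (C.comp (C.comp (π m) γ) (π m)) a = 0) :
    C.comp (C.comp (π m) γ) (π m) = 0 := by
  have hCK := h.transp.prod h
  have h1 := (hD _ hCK (C.comp (C.comp (π m) γ) (π m))).2
    ⟨C.comp_mem (C.comp_mem (h.mem m) hγ rfl) (h.mem m) rfl, cl_eq_zero_of_act h0⟩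
  have h2 := ((mem_ckFil hCK).1 h1).2 (2 * X.dim - m + m) (by omega)
  rwa [act_prodCK_block h h hm] at h2

theorem annihilation_of_decompositions (hP : C.Polarized)
    (hG : ∀ X : 𝒱.Obj, W.HasBBDecomposition X) : W.Annihilation := by
  have hC : ∀ X : 𝒱.Obj, W.MurreC X := by
    intro X
    obtain ⟨hN, π, hπ, hT, _⟩ := hG X
    exact hπ.murreC hT hN
  intro X i d hd
  obtain ⟨hN, π, hπ, hT, hker⟩ := hG X
  -- the diagonal blocks of `d - m`
  have hblock : ∀ m, m ≤ 2 * X.dim →
      C.comp (C.comp (π m) (d - (m : ℚ) • C.diagC X)) (π m) = 0 := by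
    intro m hm
    refine block_eq_zero hπ ?_ (Submodule.sub_mem _ hd.1
      (Submodule.smul_mem _ _ (C.diagC_mem X))) hm ?_
    · intro σ hσ
      obtain ⟨_, ρ, hρ, _, hkerρ⟩ := hG (X.prod X)
      rw [hC (X.prod X) X.dim 1 σ ρ hσ hρ]
      exact (hkerρ X.dim).1
    · intro a
      refine gr_induction (W.isInternal X) (p := fun a =>
        W.act (C.comp (C.comp (π m) (d - (m : ℚ) • C.diagC X)) (π m)) a = 0) ?_ ?_ a
      · intro l a ha
        rw [W.act_comp _ (hπ.mem m), W.act_comp _ (Submodule.sub_mem _ hd.1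
          (Submodule.smul_mem _ _ (C.diagC_mem X))), hπ.proj m l a ha]
        split_ifs with hl
        · rw [W.act_sub, W.act_smul, LinearMap.sub_apply, LinearMap.smul_apply, W.act_diagC,
            hd.2 l a ha, hl]
          simp
        · simp
      · intro a b ha hb
        rw [map_add, ha, hb, add_zero]
  have key : ∀ (t : ℕ) (x : C.CH X), x ∈ C.gr X i →
      (∀ b, i + t ≤ b → C.act (π b) x = 0) → aeval (C.act d) (pol (Finset.Ico i (i + t))) x = 0 := by
    intro t
    induction t with
    | zero =>
      intro x hx h0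
      have h1 : x ∈ C.ckFil π i (i + 1) := by
        rw [mem_ckFil hπ]
        exact ⟨hx, fun b hb => h0 b (by omega)⟩
      rw [(hker i).2, Submodule.mem_bot] at h1
      rw [h1, map_zero]
    | succ t ih =>
      intro x hx h0
      rw [pol, ← add_assoc, Finset.prod_Ico_succ_top (by omega), map_mul, Module.End.mul_apply]
      apply ih
      · rw [map_sub, aeval_X, aeval_C, LinearMap.sub_apply, Module.algebraMap_end_apply]
        exact Submodule.sub_mem _ (C.act_mem hd.1 hx rfl) (Submodule.smul_mem _ _ hx)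
      · intro b hb
        rw [map_sub, aeval_X, aeval_C, LinearMap.sub_apply, Module.algebraMap_end_apply, map_sub,
          map_smul]
        have hterm : ∀ a, a < b → C.act (π b) (C.act d (C.act (π a) x)) = 0 := by
          intro a hab
          rw [← C.act_comp, ← C.act_comp, ← C.comp_assoc, hT a b hab d hd.1, C.act_zero,
            LinearMap.zero_apply]
        have hexp : C.act (π b) (C.act d x) =
            ∑ a ∈ Finset.range (2 * X.dim + 1), C.act (π b) (C.act d (C.act (π a) x)) := by
          conv_lhs => rw [← hπ.sum_act x, map_sum, map_sum]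
        rcases Nat.lt_or_ge (i + t) b with hlt | hge
        · rw [h0 b (by omega), smul_zero, sub_zero, hexp]
          refine Finset.sum_eq_zero fun a _ => ?_
          by_cases ha : i + (t + 1) ≤ a
          · rw [h0 a ha, map_zero, map_zero]
          · exact hterm a (by omega)
        · have hb' : b = i + t := le_antisymm hge hb
          subst hb'
          by_cases hdim : 2 * X.dim < i + t
          · rw [hπ.eq_zero hdim, C.act_zero, LinearMap.zero_apply, LinearMap.zero_apply, smul_zero,
              sub_zero]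
          rw [hexp, Finset.sum_eq_single (i + t)]
          · have h1 := congrArg (fun γ => C.act γ x) (hblock (i + t) (by omega))
            simp only [C.act_zero, LinearMap.zero_apply, C.act_comp, C.act_sub, C.act_smul,
              LinearMap.sub_apply, LinearMap.smul_apply, C.act_diagC, map_sub, map_smul] at h1
            rw [hπ.act_act, if_pos rfl] at h1
            exact h1
          · intro a _ ha
            rcases lt_or_gt_of_ne ha with hlt | hgt
            · exact hterm a hlt
            · rw [h0 a (by omega), map_zero, map_zero]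
          · intro hnot; exact absurd (Finset.mem_range.2 (by omega)) hnot
  intro x hx
  have hB0 := (ckFil_zero_eq_iff hπ).1 ((hC X i 0).murreB0 hP π hπ)
  have h1 := key (i + 1) x hx (fun b hb => hB0 b (by omega) x hx)
  have h2 : Finset.Ico i (i + (i + 1)) = Finset.Icc i (2 * i) := by
    ext j; rw [Finset.mem_Ico, Finset.mem_Icc]; omega
  rw [h2] at h1
  exact h1

lemma kunneth_of_decompositions (hG : ∀ X : 𝒱.Obj, W.HasBBDecomposition X) : W.Kunneth := by
  intro X j
  obtain ⟨_, π, hπ, _⟩ := hG X
  exact ⟨π j, hπ.mem j, hπ.proj j⟩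

/-! ### from the filtration to decompositions -/

section BB

variable {F : C.Family} (hF : W.IsBlochBeilinson F)

include hF

lemma IsBlochBeilinson.anti (X : 𝒱.Obj) (i : ℕ) {k l : ℕ} (h : k ≤ l) : F X i l ≤ F X i k := by
  induction l, h using Nat.le_induction with
  | base => exact le_rfl
  | succ l _ ih => exact ((hF.1.isFiltration X i).antitone l).trans ih

lemma IsBlochBeilinson.eq_bot (X : 𝒱.Obj) (i : ℕ) {l : ℕ} (h : i + 1 ≤ l) : F X i l = ⊥ := by
  rw [eq_bot_iff, ← hF.2 X i]
  exact hF.anti X i h

lemma IsBlochBeilinson.weight' {γ : C.CH (X.prod X)} (hγ : γ ∈ C.gr (X.prod X) X.dim)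
    {i k : ℕ} (h0 : ∀ j, j + k = 2 * i → VanishesOn (W.act γ) (W.gr X j)) {x : C.CH X}
    (hx : x ∈ F X i k) : C.act γ x ∈ F X i (k + 1) := by
  by_cases hk : k ≤ 2 * i
  · exact hF.1.weight X i (2 * i - k) k γ (by omega) hγ (h0 _ (by omega)) x hx
  · rw [hF.eq_bot X i (by omega), Submodule.mem_bot] at hx
    rw [hx, map_zero]
    exact Submodule.zero_mem _

/-- Homologically trivial correspondences are nilpotent. -/
lemma IsBlochBeilinson.nilpotent {γ : C.CH (X.prod X)} (hγ : γ ∈ C.gr (X.prod X) X.dim)
    (h0 : ∀ a, W.act γ a = 0) : (CorrRing.of C X γ) ^ (X.dim + 1) = 0 := by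
  have hΓ : ∀ c, W.act (C.opL X γ) c = 0 := by
    intro c
    refine W.kunneth_induction (p := fun c => W.act (C.opL X γ) c = 0) ?_ ?_ c
    · intro a b ha hb; rw [map_add, ha, hb, add_zero]
    · intro i j a ha b _
      rw [W.act_opL hγ ha, h0, map_zero, mul_zero]
  have key : ∀ r, (CorrRing.of C X).symm ((CorrRing.of C X γ) ^ r) ∈ F (X.prod X) X.dim r := by
    intro r
    induction r with
    | zero =>
      rw [(hF.1.isFiltration _ _).zero]
      exact C.diagC_mem X
    | succ r ih =>
      have h1 := hF.weight' (C.opL_mem (X := X) hγ) (fun j _ a _ => hΓ a) ih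
      rw [C.act_opL] at h1
      rw [pow_succ']
      exact h1
  have h1 := key (X.dim + 1)
  rw [hF.2, Submodule.mem_bot] at h1
  exact h1

theorem IsBlochBeilinson.hasCK (hK : W.Kunneth) (X : 𝒱.Obj) : W.HasCK X := by
  obtain ⟨d, hd⟩ := Kunneth.exists_degree hK X
  set P := pol (Finset.range (2 * X.dim + 1)) with hPdef
  have hP0 : P ≠ 0 := by
    rw [hPdef, pol, Finset.prod_ne_zero_iff]
    exact fun j _ => X_sub_C_ne_zero _
  refine exists_CK_of_algebraic hd (pow_ne_zero (X.dim + 1) hP0) ?_
  rw [map_pow]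
  have h1 := hF.nilpotent (C.aeval_mem_gr hd.1 P) (fun a => ?_)
  · simpa using h1
  · refine gr_induction (W.isInternal X) (p := fun a =>
      W.act ((CorrRing.of C X).symm (aeval (CorrRing.of C X d) P)) a = 0) ?_ ?_ a
    · intro l a ha
      by_cases hl : 2 * X.dim < l
      · rw [W.gr_eq_bot X l hl, Submodule.mem_bot] at ha
        rw [ha, map_zero]
      · have h2 : W.act d a = (((l : ℚ) : ℚ) : W.K) • a := by rw [hd.2 l a ha]; push_cast; rfl
        rw [act_aeval hd.1 h2, hPdef, pol_eval_mem (Finset.mem_range.2 (by omega))]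
        simp
    · intro a b ha hb
      rw [map_add, ha, hb, add_zero]

/-- The filtration of each Chow–Künneth decomposition is the Bloch–Beilinson filtration. -/
theorem IsBlochBeilinson.eq_ckFil {π : ℕ → C.CH (X.prod X)} (h : W.IsCK X π) (i k : ℕ) :
    F X i k = C.ckFil π i k := by
  have hstep : ∀ (j l : ℕ) (x : C.CH X), j + l ≠ 2 * i → x ∈ F X i l →
      C.act (π j) x ∈ F X i (l + 1) := by
    intro j l x hjl hx
    refine hF.weight' (h.mem j) (fun m hm a ha => ?_) hx
    rw [h.proj j m a ha, if_neg (by omega)]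
  apply le_antisymm
  · intro x hx
    rw [mem_ckFil h]
    refine ⟨?_, fun b hb => ?_⟩
    · rw [← (hF.1.isFiltration X i).zero]
      exact hF.anti X i (Nat.zero_le k) hx
    · have key : ∀ t, C.act (π b) x ∈ F X i (k + t) := by
        intro t
        induction t with
        | zero => exact hF.anti X i (Nat.le_succ k) (hstep b k x (by omega) hx)
        | succ t ih =>
          have h1 := hstep b (k + t) _ (by omega) ih
          rwa [h.act_act, if_pos rfl] at h1
      have h1 := key (i + 1)
      rwa [hF.eq_bot X i (by omega), Submodule.mem_bot] at h1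
  · rintro _ ⟨y, hy, rfl⟩
    rw [act_sum_apply]
    refine Submodule.sum_mem _ fun j hj => ?_
    rw [Finset.mem_range] at hj
    have key : ∀ l, j + l ≤ 2 * i → C.act (π j) y ∈ F X i l := by
      intro l
      induction l with
      | zero =>
        intro _
        rw [(hF.1.isFiltration X i).zero]
        exact C.act_mem (h.mem j) hy rfl
      | succ l ih =>
        intro hl
        have h1 := hstep j l _ (by omega) (ih (by omega))
        rwa [h.act_act, if_pos rfl] at h1
    exact key k (by omega)

theorem IsBlochBeilinson.hasBBDecomposition (hP : C.Polarized) (hK : W.Kunneth) (X : 𝒱.Obj) :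
    W.HasBBDecomposition X := by
  obtain ⟨π, hπ⟩ := hF.hasCK hK X
  have hB0 : W.MurreB0 (X.prod X) X.dim := by
    intro σ hσ
    rw [← hF.eq_ckFil hσ, (hF.1.isFiltration _ _).zero]
  have hT := hB0.triangular
  refine ⟨hT.noPhantoms hP hπ, π, hπ, hT π π hπ hπ, fun i => ⟨?_, ?_⟩⟩
  · rw [← hF.eq_ckFil hπ]
    exact hF.1.kernel X i
  · rw [← hF.eq_ckFil hπ]
    exact hF.2 X i

end BB

theorem bb_iff_decompositions (hP : C.Polarized) :
    (W.Kunneth ∧ W.HasBlochBeilinson) ↔ ∀ X : 𝒱.Obj, W.HasBBDecomposition X :=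
  ⟨fun ⟨hK, _, hF⟩ X => hF.hasBBDecomposition hP hK X, fun hG =>
    ⟨kunneth_of_decompositions hG,
      (exists_isBlochBeilinson_iff (kunneth_of_decompositions hG) hP).2
        (annihilation_of_decompositions hP hG)⟩⟩

end WeilTheory

end Pool.Agent.R903
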