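import Pool.Agent.R903.Corr

/-!
# Murre's conjectures: definitions
-/

open CategoryTheory CategoryTheory.Limits AlgebraicGeometry
open Pool.Agent.H914 Pool.Agent.H914.VarClass Pool.Agent.H914.VarClass.Obj

universe u v w

namespace Pool.Agent.R903

variable {k : Type u} [Field k] {𝒱 : VarClass k} {C : ChowTheory.{u, v} 𝒱}

/-- The filtration `F^k CH^i(X) = (π_0 + ⋯ + π_(2i - k))_* CH^i(X)`; the sum is empty if
`k > 2i`. -/
noncomputable def ChowTheory.ckFil (C : ChowTheory.{u, v} 𝒱) {X : 𝒱.Obj}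
    (π : ℕ → C.CH (X.prod X)) (i k : ℕ) : Submodule ℚ (C.CH X) :=
  (C.gr X i).map (C.act (∑ j ∈ Finset.range (2 * i + 1 - k), π j))

/-- `F^k CH^i(X)` is the same for all Chow–Künneth decompositions of `X`. -/
def WeilTheory.Indep (W : WeilTheory.{u, v, w} C) (X : 𝒱.Obj) (i k : ℕ) : Prop :=
  ∀ π π' : ℕ → C.CH (X.prod X), W.IsCK X π → W.IsCK X π' → C.ckFil π i k = C.ckFil π' i k

/-- Murre's conjecture (C) for `X`: the filtration `F^k CH^i(X)` does not depend on the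
Chow–Künneth decomposition of `X`. -/
def WeilTheory.MurreC (W : WeilTheory.{u, v, w} C) (X : 𝒱.Obj) : Prop :=
  ∀ i k, W.Indep X i k

/-- The first half of Murre's conjecture (B), for `X` and codimension `i`: for each Chow–Künneth
decomposition of `X` one has `F^0 CH^i(X) = CH^i(X)`. -/
def WeilTheory.MurreB0 (W : WeilTheory.{u, v, w} C) (X : 𝒱.Obj) (i : ℕ) : Prop :=
  ∀ π : ℕ → C.CH (X.prod X), W.IsCK X π → C.ckFil π i 0 = C.gr X i

/-- If `π` and `π'` are Chow–Künneth decompositions of `X`, then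
`π' b ∘ γ ∘ π a = 0` for all correspondences `γ` in `CH^(dim X)(X × X)` and all `a < b`. -/
def WeilTheory.Triangular (W : WeilTheory.{u, v, w} C) (X : 𝒱.Obj) : Prop :=
  ∀ π π' : ℕ → C.CH (X.prod X), W.IsCK X π → W.IsCK X π' →
    ∀ a b, a < b → ∀ γ ∈ C.gr (X.prod X) X.dim, C.comp (C.comp (π a) γ) (π' b) = 0

/-- Murre's conjecture (B) for `X`: for each Chow–Künneth decomposition of `X` and each `i` one has
`F^0 CH^i(X) = CH^i(X)` and `F^(i+1) CH^i(X) = 0`. -/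
def WeilTheory.MurreB (W : WeilTheory.{u, v, w} C) (X : 𝒱.Obj) : Prop :=
  ∀ π : ℕ → C.CH (X.prod X), W.IsCK X π → ∀ i, C.ckFil π i 0 = C.gr X i ∧ C.ckFil π i (i + 1) = ⊥

/-- `π b ∘ γ ∘ π a = 0` for all correspondences `γ` in `CH^(dim X)(X × X)` and all `a < b`, that is
`Hom(h^a(X), h^b(X)) = 0` for `a < b`. -/
def ChowTheory.IsTriangular (C : ChowTheory.{u, v} 𝒱) {X : 𝒱.Obj} (π : ℕ → C.CH (X.prod X)) :
    Prop :=
  ∀ a b, a < b → ∀ γ ∈ C.gr (X.prod X) X.dim, C.comp (C.comp (π a) γ) (π b) = 0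

/-- The operator `T` is zero. -/
def IsZeroMap {K : Type w} [Field K] {V : Type w} [AddCommGroup V] [Module K V]
    (T : V →ₗ[K] V) : Prop :=
  ∀ a, T a = 0

/-- The only idempotent correspondence in `CH^(dim X)(X × X)` which acts as zero on the cohomology
of `X` is `0`. -/
def WeilTheory.NoPhantoms (W : WeilTheory.{u, v, w} C) (X : 𝒱.Obj) : Prop :=
  ∀ e ∈ C.gr (X.prod X) X.dim, C.comp e e = e → IsZeroMap (W.act e) → e = 0

/-- `X` has no phantoms, and it has one Chow–Künneth decomposition with `Hom(h^a(X), h^b(X)) = 0`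
for `a < b` and `F^(i+1) CH^i(X) = 0` for all `i`. -/
def WeilTheory.HasGoodCK (W : WeilTheory.{u, v, w} C) (X : 𝒱.Obj) : Prop :=
  W.NoPhantoms X ∧ ∃ π : ℕ → C.CH (X.prod X),
    W.IsCK X π ∧ C.IsTriangular π ∧ ∀ i, C.ckFil π i (i + 1) = ⊥

/-- `X` has a Chow–Künneth decomposition. -/
def WeilTheory.HasCK (W : WeilTheory.{u, v, w} C) (X : 𝒱.Obj) : Prop :=
  ∃ π : ℕ → C.CH (X.prod X), W.IsCK X π

end Pool.Agent.R903
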