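import Pool.Agent.R903.BBMurre
import Pool.Agent.R903.MurreD

/-!
# The Bloch–Beilinson filtration and Murre's conjecture (D)
-/

open CategoryTheory CategoryTheory.Limits AlgebraicGeometry
open Pool.Agent.H914 Pool.Agent.H914.VarClass Pool.Agent.H914.VarClass.Obj

universe u v w

namespace Pool.Agent.R903

variable {k : Type u} [Field k] {𝒱 : VarClass k} {C : ChowTheory.{u, v} 𝒱}

namespace WeilTheory

variable {W : WeilTheory.{u, v, w} C} {X Y : 𝒱.Obj}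

theorem bb_tfae (hP : C.Polarized) :
    List.TFAE [W.Kunneth ∧ W.HasBlochBeilinson,
      ∀ X : 𝒱.Obj, W.MurreD X ∧ ∃ π, W.IsCK X π ∧ ∀ i, C.ckFil π i (i + 1) = ⊥,
      ∀ X : 𝒱.Obj, ∃ π, W.IsCK X π ∧ W.LowersIndex π π ∧ ∀ i, C.ckFil π i (i + 1) = ⊥] := by
  tfae_have 1 → 2 := by
    rintro ⟨hK, F, hF⟩ X
    refine ⟨fun π hπ i => ?_, ?_⟩
    · rw [FirstIsKernel, ← hF.eq_ckFil hπ]
      exact hF.1.kernel X i
    · obtain ⟨π, hπ⟩ := hF.hasCK hK X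
      refine ⟨π, hπ, fun i => ?_⟩
      rw [← hF.eq_ckFil hπ]
      exact hF.2 X i
  tfae_have 2 → 3 := by
    intro h X
    obtain ⟨_, π, hπ, h0⟩ := h X
    exact ⟨π, hπ, lowersIndex_of_square (fun σ hσ => (h (X.prod X)).1 σ hσ X.dim) hπ hπ, h0⟩
  tfae_have 3 → 1 := by
    intro h
    rw [bb_iff_decompositions hP]
    intro X
    obtain ⟨π, hπ, hL, h0⟩ := h X
    exact ⟨hL.noPhantoms hπ, π, hπ, hL.isTriangular hπ, fun i => ⟨hL.murreD hπ hP π hπ i, h0 i⟩⟩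
  tfae_finish

end WeilTheory

end Pool.Agent.R903
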