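import Pool.Agent.R903.KerDefs

/-!
# Bloch–Beilinson filtrations: definitions
-/

open CategoryTheory CategoryTheory.Limits AlgebraicGeometry
open Pool.Agent.H914 Pool.Agent.H914.VarClass Pool.Agent.H914.VarClass.Obj

universe u v w

namespace Pool.Agent.R903

variable {k : Type u} [Field k] {𝒱 : VarClass k} {C : ChowTheory.{u, v} 𝒱}

/-- `T` maps the subspace `U` into `U'`. -/
def Sends {V V' : Type v} [AddCommGroup V] [Module ℚ V] [AddCommGroup V'] [Module ℚ V']
    (T : V →ₗ[ℚ] V') (U : Submodule ℚ V) (U' : Submodule ℚ V') : Prop :=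
  ∀ x ∈ U, T x ∈ U'

/-- `T` vanishes on `U`. -/
def VanishesOn {K : Type w} [Field K] {V : Type w} [AddCommGroup V] [Module K V] (T : V →ₗ[K] V)
    (U : Submodule K V) : Prop :=
  ∀ a ∈ U, T a = 0

/-- The subspaces `F k` form a descending filtration with `F 0 = U`. -/
structure IsDescending {V : Type v} [AddCommGroup V] [Module ℚ V] (U : Submodule ℚ V)
    (F : ℕ → Submodule ℚ V) : Prop where
  antitone : ∀ k, F (k + 1) ≤ F k
  zero : F 0 = U

section

variable {A : Type v} [CommRing A] [Algebra ℚ A] {B : Type v} [CommRing B] [Algebra ℚ B]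

/-- `U · U' ⊆ U''` -/
def MulSends (U U' U'' : Submodule ℚ A) : Prop :=
  ∀ x ∈ U, ∀ y ∈ U', x * y ∈ U''

/-- `f` maps `U` into `U'`. -/
def PullSends (f : B →ₐ[ℚ] A) (U : Submodule ℚ B) (U' : Submodule ℚ A) : Prop :=
  ∀ y ∈ U, f y ∈ U'

end

/-- A family of subspaces `F X i k = F^k CH^i(X)` for the varieties `X` of the class. -/
abbrev ChowTheory.Family (C : ChowTheory.{u, v} 𝒱) : Type _ :=
  ∀ X : 𝒱.Obj, ℕ → ℕ → Submodule ℚ (C.CH X)

/-- A descending filtration of each `CH^i(X)`, with `F^0 CH^i(X) = CH^i(X)`. -/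
def ChowTheory.IsFiltration (C : ChowTheory.{u, v} 𝒱) (F : C.Family) : Prop :=
  ∀ X i, IsDescending (C.gr X i) (F X i)

/-- `F^1 CH^i(X)` is the kernel of the cycle class map on `CH^i(X)`. -/
def WeilTheory.KernelAxiom (W : WeilTheory.{u, v, w} C) (F : C.Family) : Prop :=
  ∀ X i, IsKernelOn (W.cl X) (C.gr X i) (F X i 1)

/-- `F^k CH^i(X) · F^l CH^j(X) ⊆ F^(k+l) CH^(i+j)(X)` -/
def ChowTheory.MulAxiom (C : ChowTheory.{u, v} 𝒱) (F : C.Family) : Prop :=
  ∀ X i j k l, MulSends (F X i k) (F X j l) (F X (i + j) (k + l))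

/-- `f^* F^k CH^i(Y) ⊆ F^k CH^i(X)` for each morphism `f : X ⟶ Y` -/
def ChowTheory.PullAxiom (C : ChowTheory.{u, v} 𝒱) (F : C.Family) : Prop :=
  ∀ (X Y : 𝒱.Obj) (f : X ⟶ Y) (i k : ℕ), PullSends (C.pull f) (F Y i k) (F X i k)

/-- `f_* F^k CH^i(X) ⊆ F^k CH^j(Y)` for each morphism `f : X ⟶ Y`, with
`i - j = dim(X) - dim(Y)` -/
def ChowTheory.PushAxiom (C : ChowTheory.{u, v} 𝒱) (F : C.Family) : Prop :=
  ∀ (X Y : 𝒱.Obj) (f : X ⟶ Y) (i j k : ℕ), i + Y.dim = j + X.dim →
    Sends (C.push f) (F X i k) (F Y j k)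

/-- The action of a correspondence from `X` to `X` on `Gr^k CH^i(X)` is zero if its action on
`H^(2i - k)(X)` is zero: the action factors through `End(h^(2i-k)_hom(X))`. -/
def WeilTheory.WeightAxiom (W : WeilTheory.{u, v, w} C) (F : C.Family) : Prop :=
  ∀ (X : 𝒱.Obj) (i j k : ℕ) (γ : C.CH (X.prod X)), j + k = 2 * i →
    γ ∈ C.gr (X.prod X) X.dim → VanishesOn (W.act γ) (W.gr X j) →
      Sends (C.act γ) (F X i k) (F X i (k + 1))

/-- The axioms of a Bloch-Beilinson filtration `F X i k = F^k CH^i(X)`, for all varieties `X` of the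
class, with the exception of `F^(i+1) CH^i(X) = 0`. -/
structure WeilTheory.IsPreBlochBeilinson (W : WeilTheory.{u, v, w} C) (F : C.Family) : Prop where
  isFiltration : C.IsFiltration F
  kernel : W.KernelAxiom F
  mul : C.MulAxiom F
  pull : C.PullAxiom F
  push : C.PushAxiom F
  weight : W.WeightAxiom F

/-- `F X i k`, for the varieties `X` of the class, is a **Bloch-Beilinson filtration**
`F^k CH^i(X)`. -/
def WeilTheory.IsBlochBeilinson (W : WeilTheory.{u, v, w} C) (F : C.Family) : Prop :=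
  W.IsPreBlochBeilinson F ∧ ∀ X i, F X i (i + 1) = ⊥

/-- There is a Bloch–Beilinson filtration on the varieties of the class. -/
def WeilTheory.HasBlochBeilinson (W : WeilTheory.{u, v, w} C) : Prop :=
  ∃ F : C.Family, W.IsBlochBeilinson F

end Pool.Agent.R903
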