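import Pool.Agent.R903.MurreDefs

/-!
# Murre's conjecture (C) for a single variety: definitions
-/

open CategoryTheory CategoryTheory.Limits AlgebraicGeometry
open Pool.Agent.H914 Pool.Agent.H914.VarClass Pool.Agent.H914.VarClass.Obj

universe u v w

namespace Pool.Agent.R903

variable {k : Type u} [Field k] {𝒱 : VarClass k} {C : ChowTheory.{u, v} 𝒱}

/-- `π b ∘ γ ∘ π a` acts as zero on `CH(X)` for all correspondences `γ` in
`CH^(dim X)(X × X)` and all `a < b`: the elements of `Hom(h^a(X), h^b(X))` act as zero. -/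
def ChowTheory.ActsTriangularly (C : ChowTheory.{u, v} 𝒱) {X : 𝒱.Obj}
    (π : ℕ → C.CH (X.prod X)) : Prop :=
  ∀ a b, a < b → ∀ γ ∈ C.gr (X.prod X) X.dim, ∀ x,
    C.act (C.comp (C.comp (π a) γ) (π b)) x = 0

/-- `γ` is nilpotent: a power `γ ∘ ⋯ ∘ γ` is zero. -/
def ChowTheory.IsNilp (C : ChowTheory.{u, v} 𝒱) {X : 𝒱.Obj} (γ : C.CH (X.prod X)) : Prop :=
  ∃ r, (fun δ => C.comp δ γ)^[r] γ = 0

/-- Each correspondence in `CH^(dim X)(X × X)` which acts as zero on the cohomology of `X` is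
nilpotent. -/
def WeilTheory.HomTrivialNilp (W : WeilTheory.{u, v, w} C) (X : 𝒱.Obj) : Prop :=
  ∀ γ ∈ C.gr (X.prod X) X.dim, IsZeroMap (W.act γ) → C.IsNilp γ

end Pool.Agent.R903
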