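import Pool.Agent.R903.AlgCohDefs
import Pool.Agent.R903.MurreD

/-!
# Varieties with algebraic cohomology
-/

open CategoryTheory CategoryTheory.Limits AlgebraicGeometry
open Pool.Agent.H914 Pool.Agent.H914.VarClass Pool.Agent.H914.VarClass.Obj

universe u v w

namespace Pool.Agent.R903

variable {k : Type u} [Field k] {𝒱 : VarClass k} {C : ChowTheory.{u, v} 𝒱}

namespace ChowTheory

variable {X Y : 𝒱.Obj}

lemma ext_comp (x y : C.CH X) (w : C.CH (X.prod X)) :
    C.comp (C.ext x y) w = C.ext x (C.act w y) := by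
  rw [← C.act_opL, C.act_opL_ext]

lemma ext_smul (q : ℚ) (x y : C.CH X) : C.ext x (q • y) = q • C.ext x y := by
  rw [ext, ext, map_smul, mul_smul_comm]

lemma ext_comp_ext (x y x' y' : C.CH X) :
    C.comp (C.ext x y) (C.ext x' y') = C.deg X (y * x') • C.ext x y' := by
  rw [ext_comp, act_ext, ext_smul]

end ChowTheory

namespace WeilTheory

variable {W : WeilTheory.{u, v, w} C} {X Y : 𝒱.Obj}

/-- dual bases of algebraic classes -/
lemma AlgebraicCohomology.exists_dual (hX : W.AlgebraicCohomology X) :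
    ∃ (ι : Type w) (_ : Fintype ι) (_ : DecidableEq ι) (d : ι → ℕ) (x y : ι → C.CH X),
      (∀ s, d s ≤ X.dim) ∧ (∀ s, x s ∈ C.gr X (d s)) ∧ (∀ s, y s ∈ C.gr X (X.dim - d s)) ∧
      (∀ s t, C.deg X (x s * y t) = if s = t then 1 else 0) ∧
      Submodule.span W.K (Set.range fun s => W.cl X (x s)) = ⊤ := by
  classical
  set S : Set (W.H X) := {a | ∃ i, ∃ x ∈ C.gr X i, W.cl X x = a} with hS
  have hspan : Submodule.span W.K S = ⊤ := by
    rw [eq_top_iff, ← show Submodule.span W.K (Set.range (W.cl X)) = ⊤ from hX, Submodule.span_le]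
    rintro _ ⟨x, rfl⟩
    refine gr_induction (C.isInternal X) (p := fun x => W.cl X x ∈ Submodule.span W.K S) ?_ ?_ x
    · intro i x hx
      exact Submodule.subset_span ⟨i, x, hx, rfl⟩
    · intro a b ha hb
      rw [map_add]
      exact Submodule.add_mem _ ha hb
  obtain ⟨b, hbS, hb, hli⟩ := exists_linearIndependent W.K S
  rw [hspan] at hb
  have : Module.Finite W.K (W.H X) := (W.isPoincareAlgebra X).finite
  have : Finite b := hli.finite
  let _ : Fintype b := Fintype.ofFinite b
  have hb' : ∀ s : b, ∃ i, ∃ x ∈ C.gr X i, W.cl X x = (s : W.H X) := fun s => hbS s.2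
  choose d x hx hcl using hb'
  have hne : ∀ s : b, (s : W.H X) ≠ 0 := fun s => hli.ne_zero s
  have hd : ∀ s, d s ≤ X.dim := by
    intro s
    by_contra hlt
    apply hne s
    have h1 := hx s
    rw [C.gr_eq_bot X _ (by omega), Submodule.mem_bot] at h1
    rw [← hcl s, h1, map_zero]
  -- the Gram matrix
  set M : Matrix b b ℚ := fun s t => C.deg X (x s * x t) with hM
  have hMK : ∀ s t, ((M s t : ℚ) : W.K) = W.tr X ((s : W.H X) * (t : W.H X)) := by
    intro s t
    rw [hM, ← W.tr_cl, W.cl_mul, hcl, hcl]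
  have hMsymm : ∀ s t, M s t = M t s := fun s t => by rw [hM]; simp only; rw [mul_comm]
  have hM0 : ∀ s t, d s + d t ≠ X.dim → M s t = 0 := by
    intro s t hst
    have h1 : ((M s t : ℚ) : W.K) = 0 := by
      rw [hMK, ← hcl s, ← hcl t, ← W.cl_mul]
      exact W.tr_eq_zero (W.cl_mem (C.mul_mem (hx s) (hx t))) (by omega)
    exact_mod_cast h1
  have hdet : IsUnit M.det := by
    rw [isUnit_iff_ne_zero]
    intro h0
    obtain ⟨c, hc, hcM⟩ := Matrix.exists_vecMul_eq_zero_iff.2 h0
    apply hc
    have ha : ∑ s, ((c s : ℚ) : W.K) • (s : W.H X) = 0 := by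
      apply W.nondeg
      intro e
      have he : e ∈ Submodule.span W.K b := by rw [hb]; exact Submodule.mem_top
      induction he using Submodule.span_induction with
      | mem t ht =>
        have h1 := congrFun hcM ⟨t, ht⟩
        rw [Matrix.vecMul, dotProduct] at h1
        rw [Finset.sum_mul, map_sum]
        have h2 : (∑ s, ((c s * M s ⟨t, ht⟩ : ℚ) : W.K)) = 0 := by
          rw [← Rat.cast_sum, h1]; simp
        rw [← h2]
        refine Finset.sum_congr rfl fun s _ => ?_
        rw [smul_mul_assoc, map_smul, smul_eq_mul, Rat.cast_mul, hMK]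
      | zero => rw [mul_zero, map_zero]
      | add p q _ _ hp hq => rw [mul_add, map_add, hp, hq, add_zero]
      | smul r p _ hp => rw [mul_smul_comm, map_smul, hp, smul_zero]
    have h3 := Fintype.linearIndependent_iff.1 hli (fun s => ((c s : ℚ) : W.K)) ha
    funext s
    have := h3 s
    rw [Pi.zero_apply]
    exact_mod_cast this
  have hinv : M⁻¹ * M = 1 := Matrix.nonsing_inv_mul _ hdet
  set y : b → C.CH X := fun s =>
    ∑ t ∈ Finset.univ.filter (fun t => d s + d t = X.dim), (M⁻¹ s t) • x t with hy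
  refine ⟨b, inferInstance, inferInstance, d, x, y, hd, hx, ?_, ?_, ?_⟩
  · intro s
    rw [hy]
    refine Submodule.sum_mem _ fun t ht => Submodule.smul_mem _ _ ?_
    rw [Finset.mem_filter] at ht
    have : X.dim - d s = d t := by omega
    rw [this]
    exact hx t
  · intro u s
    have h1 : C.deg X (x u * y s) =
        ∑ t ∈ Finset.univ.filter (fun t => d s + d t = X.dim), M⁻¹ s t * M u t := by
      rw [hy]
      simp only
      rw [Finset.mul_sum, map_sum]
      refine Finset.sum_congr rfl fun t _ => ?_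
      rw [mul_smul_comm, map_smul, smul_eq_mul]
    rw [h1]
    by_cases hus : d u = d s
    · have h2 : ∑ t ∈ Finset.univ.filter (fun t => d s + d t = X.dim), M⁻¹ s t * M u t =
          ∑ t, M⁻¹ s t * M u t := by
        rw [Finset.sum_filter]
        refine Finset.sum_congr rfl fun t _ => ?_
        split_ifs with h
        · rfl
        · rw [hM0 u t (by omega), mul_zero]
      have h3 : ∑ t, M⁻¹ s t * M u t = (M⁻¹ * M) s u := by
        rw [Matrix.mul_apply]
        exact Finset.sum_congr rfl fun t _ => by rw [hMsymm u t]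
      rw [h2, h3, hinv, Matrix.one_apply]
      simp only [eq_comm]
    · rw [if_neg (fun h => hus (by rw [h]))]
      refine Finset.sum_eq_zero fun t ht => ?_
      rw [Finset.mem_filter] at ht
      rw [hM0 u t (by omega), mul_zero]
  · have h1 : (Set.range fun s => W.cl X (x s)) = b := by
      ext a
      constructor
      · rintro ⟨s, rfl⟩
        simp only [hcl]
        exact s.2
      · intro ha
        exact ⟨⟨a, ha⟩, hcl ⟨a, ha⟩⟩
    rw [h1, hb]

/-- The part of the motive of `X` without cohomology. -/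
lemma AlgebraicCohomology.exists_phantom (hX : W.AlgebraicCohomology X) :
    ∃ φ ∈ C.gr (X.prod X) X.dim, C.comp φ φ = φ ∧ W.act φ = 0 ∧
      (φ = 0 → ∀ γ : C.CH (X.prod X), W.cl _ γ = 0 → γ = 0) ∧
      ∀ m ≤ 2 * X.dim, ∃ σ, W.IsCK X σ ∧ ∀ z : C.CH X, W.cl X z = 0 → ∀ a,
        C.act (σ a) z = if a = m then z else 0 := by
  classical
  obtain ⟨ι, _, _, d, x, y, hd, hx, hy, hxy, hsp⟩ := hX.exists_dual
  set f : ι → C.CH (X.prod X) := fun s => C.ext (y s) (x s) with hf
  have hfgr : ∀ s, f s ∈ C.gr (X.prod X) X.dim := by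
    intro s
    have := C.ext_mem (hy s) (hx s)
    rwa [Nat.sub_add_cancel (hd s)] at this
  have hff : ∀ s t, C.comp (f s) (f t) = if s = t then f s else 0 := by
    intro s t
    rw [hf]
    simp only
    rw [C.ext_comp_ext, hxy]
    split_ifs with h
    · rw [h, one_smul]
    · rw [zero_smul]
  have hact : ∀ s z, C.act (f s) z = C.deg X (z * y s) • x s := fun s z => C.act_ext _ _ _
  set E : ℕ → C.CH (X.prod X) := fun a => ∑ s ∈ Finset.univ.filter (fun s => 2 * d s = a), f s
    with hE
  set ψ : C.CH (X.prod X) := ∑ s, f s with hψ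
  have hEgr : ∀ a, E a ∈ C.gr (X.prod X) X.dim := fun a => Submodule.sum_mem _ fun s _ => hfgr s
  have hψgr : ψ ∈ C.gr (X.prod X) X.dim := Submodule.sum_mem _ fun s _ => hfgr s
  have hfE : ∀ s b, C.comp (f s) (E b) = if 2 * d s = b then f s else 0 := by
    intro s b
    rw [hE]
    simp only
    rw [C.comp_sum]
    simp only [hff]
    rw [Finset.sum_ite_eq]
    simp
  have hEE : ∀ a b, C.comp (E a) (E b) = if a = b then E a else 0 := by
    intro a b
    conv_lhs => rw [hE]
    simp only
    rw [C.sum_comp]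
    have h1 : ∀ s ∈ Finset.univ.filter (fun s => 2 * d s = a), C.comp (f s)
        (∑ s ∈ Finset.univ.filter (fun s => 2 * d s = b), f s) = if a = b then f s else 0 := by
      intro s hs
      rw [Finset.mem_filter] at hs
      have h2 := hfE s b
      rw [hE] at h2
      simp only at h2
      rw [h2, hs.2]
    rw [Finset.sum_congr rfl h1]
    split_ifs with h
    · rfl
    · exact Finset.sum_const_zero
  have hfψ : ∀ s, C.comp (f s) ψ = f s := by
    intro s
    rw [hψ, C.comp_sum]
    simp only [hff]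
    rw [Finset.sum_ite_eq]
    simp
  have hψf : ∀ s, C.comp ψ (f s) = f s := by
    intro s
    rw [hψ, C.sum_comp]
    simp only [hff]
    rw [Finset.sum_ite_eq']
    simp
  have hψψ : C.comp ψ ψ = ψ := by
    conv_lhs => rw [hψ, C.sum_comp]
    exact Finset.sum_congr rfl fun s _ => hfψ s
  have hEψ : ∀ a, C.comp (E a) ψ = E a := by
    intro a
    rw [hE]
    simp only
    rw [C.sum_comp]
    exact Finset.sum_congr rfl fun s _ => hfψ s
  have hψE : ∀ a, C.comp ψ (E a) = E a := by
    intro a
    rw [hE]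
    simp only
    rw [C.comp_sum]
    exact Finset.sum_congr rfl fun s _ => hψf s
  have hEsum : ∑ a ∈ Finset.range (2 * X.dim + 1), E a = ψ := by
    rw [hE, hψ]
    exact Finset.sum_fiberwise_of_maps_to (fun s _ => Finset.mem_range.2 (by
      have := hd s; omega)) _
  have hxu : ∀ u, C.act ψ (x u) = x u := by
    intro u
    rw [hψ, C.act_sum, LinearMap.sum_apply]
    simp only [hact, hxy]
    rw [Finset.sum_eq_single u]
    · rw [if_pos rfl, one_smul]
    · intro s _ hs
      rw [if_neg (Ne.symm hs), zero_smul]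
    · intro h; exact absurd (Finset.mem_univ _) h
  have hWψ : W.act ψ = LinearMap.id := by
    apply LinearMap.ext_on_range hsp
    intro u
    rw [← W.cl_act, hxu, LinearMap.id_apply]
  set φ := C.diagC X - ψ with hφ
  have hφgr : φ ∈ C.gr (X.prod X) X.dim := Submodule.sub_mem _ (C.diagC_mem X) hψgr
  have hsubcomp : ∀ α β γ : C.CH (X.prod X), C.comp (α - β) γ = C.comp α γ - C.comp β γ := by
    intro α β γ
    rw [sub_eq_add_neg, C.add_comp, ← neg_one_smul ℚ β, C.smul_comp, neg_one_smul,
      ← sub_eq_add_neg]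
  have hcompsub : ∀ α β γ : C.CH (X.prod X), C.comp α (β - γ) = C.comp α β - C.comp α γ := by
    intro α β γ
    rw [sub_eq_add_neg, C.comp_add, ← neg_one_smul ℚ γ, C.comp_smul, neg_one_smul,
      ← sub_eq_add_neg]
  have hφψ : C.comp φ ψ = 0 := by rw [hφ, hsubcomp, C.diagC_comp, hψψ, sub_self]
  have hφφ : C.comp φ φ = φ := by
    conv_lhs => rw [hφ, hcompsub, C.comp_diagC]
    rw [← hφ, hφψ, sub_zero]
  have hEφ : ∀ a, C.comp (E a) φ = 0 := by
    intro a
    rw [hφ, hcompsub, C.comp_diagC, hEψ, sub_self]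
  have hφE : ∀ a, C.comp φ (E a) = 0 := by
    intro a
    rw [hφ, hsubcomp, C.diagC_comp, hψE, sub_self]
  have hWφ : W.act φ = 0 := by
    rw [hφ, W.act_sub, hWψ]
    ext a
    rw [LinearMap.sub_apply, W.act_diagC, LinearMap.id_apply, sub_self, LinearMap.zero_apply]
  have hEmem : ∀ a (c : W.H X), W.act (E a) c ∈ W.gr X a := by
    intro a c
    have hc : c ∈ Submodule.span W.K (Set.range fun s => W.cl X (x s)) := by
      rw [hsp]; exact Submodule.mem_top
    induction hc using Submodule.span_induction with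
    | mem t ht =>
      obtain ⟨u, rfl⟩ := ht
      simp only
      rw [← W.cl_act, hE]
      simp only
      rw [C.act_sum, LinearMap.sum_apply, map_sum]
      refine Submodule.sum_mem _ fun s hs => ?_
      rw [Finset.mem_filter] at hs
      rw [hact, ← hs.2]
      exact W.cl_mem (Submodule.smul_mem _ _ (hx s))
    | zero => rw [map_zero]; exact Submodule.zero_mem _
    | add p q _ _ hp hq => rw [map_add]; exact Submodule.add_mem _ hp hq
    | smul r p _ hp => rw [map_smul]; exact Submodule.smul_mem _ _ hp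
  have hEne : ∀ a l (c : W.H X), c ∈ W.gr X l → l ≠ a → W.act (E a) c = 0 := by
    intro a l c hc hl
    have h1 := (W.isInternal X).submodule_iSupIndep.pairwiseDisjoint hl
    exact Submodule.disjoint_def.1 h1 _ (W.act_mem (hEgr a) hc (by omega)) (hEmem a c)
  have hEproj : ∀ a, IsProjector (W.gr X) a (W.act (E a)) := by
    intro a l c hc
    split_ifs with hl
    · subst hl
      by_cases hl2 : 2 * X.dim < l
      · rw [W.gr_eq_bot X l hl2, Submodule.mem_bot] at hc
        rw [hc, map_zero]
      have h1 : W.act ψ c = c := by rw [hWψ, LinearMap.id_apply]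
      rw [← hEsum, W.act_sum, LinearMap.sum_apply, Finset.sum_eq_single l] at h1
      · exact h1
      · intro b _ hb
        exact hEne b l c hc (Ne.symm hb)
      · intro h; exact absurd (Finset.mem_range.2 (by omega)) h
    · exact hEne a l c hc hl
  refine ⟨φ, hφgr, hφφ, hWφ, ?_, ?_⟩
  · intro hφ0 γ hγ
    have hdiag : C.diagC X = ψ := by rwa [hφ, sub_eq_zero] at hφ0
    have hWγ : ∀ a, W.act γ a = 0 := by
      intro a
      rw [act_apply, hγ, zero_mul, map_zero]
    have h1 : γ = C.comp (C.comp ψ γ) ψ := by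
      rw [← hdiag, C.diagC_comp, C.comp_diagC]
    rw [h1, hψ, C.sum_comp, C.sum_comp]
    refine Finset.sum_eq_zero fun s _ => ?_
    rw [C.comp_sum]
    refine Finset.sum_eq_zero fun t _ => ?_
    rw [hf]
    simp only
    rw [C.ext_comp, C.ext_comp_ext]
    have h2 : ((C.deg X (C.act γ (x s) * y t) : ℚ) : W.K) = 0 := by
      rw [← W.tr_cl, W.cl_mul, W.cl_act, hWγ, zero_mul, map_zero]
    have h3 : C.deg X (C.act γ (x s) * y t) = 0 := by exact_mod_cast h2
    rw [h3, zero_smul]
  · intro m hm
    set σ : ℕ → C.CH (X.prod X) := fun a => E a + if a = m then φ else 0 with hσ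
    have key : ∀ a b, C.comp (σ a) (σ b) = if a = b then σ a else 0 := by
      intro a b
      rw [hσ]
      simp only
      rw [C.comp_add, C.add_comp, C.add_comp, hEE]
      have h1 : C.comp (if a = m then φ else 0) (E b) = 0 := by
        split_ifs
        · exact hφE b
        · exact C.zero_comp _
      have h2 : C.comp (E a) (if b = m then φ else 0) = 0 := by
        split_ifs
        · exact hEφ a
        · exact C.comp_zero _
      rw [h1, h2, add_zero, zero_add]
      by_cases hab : a = b
      · subst hab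
        rw [if_pos rfl, if_pos rfl]
        split_ifs
        · rw [hφφ]
        · rw [C.comp_zero]
      · rw [if_neg hab, if_neg hab, zero_add]
        by_cases ham : a = m
        · have hbm : ¬ b = m := fun h => hab (ham.trans h.symm)
          rw [if_neg hbm, C.comp_zero]
        · rw [if_neg ham, C.zero_comp]
    refine ⟨σ, ⟨fun a => ?_, fun a => ?_, fun a b hab => ?_, ?_, fun a => ?_⟩, ?_⟩
    · refine Submodule.add_mem _ (hEgr a) ?_
      split_ifs
      · exact hφgr
      · exact Submodule.zero_mem _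
    · rw [key, if_pos rfl]
    · rw [key, if_neg hab]
    · rw [hσ]
      simp only
      rw [Finset.sum_add_distrib, hEsum, Finset.sum_ite_eq', if_pos (Finset.mem_range.2 (by omega)),
        hφ, add_sub_cancel]
    · intro l c hc
      rw [hσ]
      simp only
      rw [W.act_add, LinearMap.add_apply, hEproj a l c hc]
      have : W.act (if a = m then φ else 0) = 0 := by
        split_ifs
        · exact hWφ
        · exact W.act_zero
      rw [this, LinearMap.zero_apply, add_zero]
    · intro z hz a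
      have h1 : ∀ s, C.act (f s) z = 0 := by
        intro s
        rw [hact]
        have h2 : ((C.deg X (z * y s) : ℚ) : W.K) = 0 := by
          rw [← W.tr_cl, W.cl_mul, hz, zero_mul, map_zero]
        have h3 : C.deg X (z * y s) = 0 := by exact_mod_cast h2
        rw [h3, zero_smul]
      have hE0 : C.act (E a) z = 0 := by
        rw [hE]
        simp only
        rw [C.act_sum, LinearMap.sum_apply]
        exact Finset.sum_eq_zero fun s _ => h1 s
      have hψ0 : C.act ψ z = 0 := by
        rw [hψ, C.act_sum, LinearMap.sum_apply]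
        exact Finset.sum_eq_zero fun s _ => h1 s
      rw [hσ]
      simp only
      rw [C.act_add, LinearMap.add_apply, hE0, zero_add]
      split_ifs
      · rw [hφ, C.act_sub, LinearMap.sub_apply, C.act_diagC, hψ0, sub_zero]
      · rw [C.act_zero, LinearMap.zero_apply]

/-! ### consequences of injectivity -/

lemma ClInjective.act_eq {i : ℕ} (hi : W.ClInjective X i) {π : ℕ → C.CH (X.prod X)}
    (h : W.IsCK X π) {x : C.CH X} (hx : x ∈ C.gr X i) (b : ℕ) :
    C.act (π b) x = if b = 2 * i then x else 0 := by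
  rw [← sub_eq_zero]
  apply hi
  · refine Submodule.sub_mem _ (C.act_mem (h.mem b) hx rfl) ?_
    split_ifs
    · exact hx
    · exact Submodule.zero_mem _
  · rw [map_sub, W.cl_act, h.proj b _ _ (W.cl_mem hx)]
    by_cases hb : b = 2 * i
    · rw [if_pos hb.symm, if_pos hb, sub_self]
    · rw [if_neg (Ne.symm hb), if_neg hb, map_zero, sub_self]

lemma ClInjective.mem_ckFil_iff {i : ℕ} (hi : W.ClInjective X i) {π : ℕ → C.CH (X.prod X)}
    (h : W.IsCK X π) {x : C.CH X} {l : ℕ} :
    x ∈ C.ckFil π i l ↔ x ∈ C.gr X i ∧ (0 < l → x = 0) := by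
  rw [mem_ckFil h]
  refine and_congr_right fun hx => ⟨fun h1 hl => ?_, fun h1 b hb => ?_⟩
  · have h2 := h1 (2 * i) (by omega)
    rwa [hi.act_eq h hx, if_pos rfl] at h2
  · rw [hi.act_eq h hx]
    split_ifs with hb2
    · exact h1 (by omega)
    · rfl

lemma ClInjective.indep {i : ℕ} (hi : W.ClInjective X i) (l : ℕ) : W.Indep X i l := by
  intro π π' h h'
  ext x
  rw [hi.mem_ckFil_iff h, hi.mem_ckFil_iff h']

lemma clInjective_zero (hP : C.Polarized) : W.ClInjective X 0 := by
  intro x hx h0
  obtain ⟨q, rfl⟩ := ChowTheory.gr_zero hx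
  obtain ⟨D, _, hD⟩ := hP X
  have h1 : ((C.deg X (q • 1 * D ^ X.dim) : ℚ) : W.K) = 0 := by
    rw [← W.tr_cl, W.cl_mul, h0, zero_mul, map_zero]
  have h2 : C.deg X (q • 1 * D ^ X.dim) = 0 := by exact_mod_cast h1
  rw [smul_mul_assoc, one_mul, map_smul, smul_eq_mul, mul_eq_zero] at h2
  rw [h2.resolve_right hD, zero_smul]

lemma clInjective_of_lt {i : ℕ} (hi : X.dim < i) : W.ClInjective X i := by
  intro x hx _
  rwa [C.gr_eq_bot X i hi, Submodule.mem_bot] at hx

theorem AlgebraicCohomology.tfae (hP : C.Polarized) (hX : W.AlgebraicCohomology X) (i : ℕ) :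
    List.TFAE [W.ClInjective X i, ∀ l, W.Indep X i l, W.Indep X i 1,
      ∀ π, W.IsCK X π → C.ckFil π i (i + 1) = ⊥, ∀ π, W.IsCK X π → W.FirstIsKernel π i] := by
  obtain ⟨φ, -, -, -, -, hσ⟩ := hX.exists_phantom
  tfae_have 1 → 2 := fun h l => h.indep l
  tfae_have 2 → 3 := fun h => h 1
  tfae_have 1 → 4 := by
    intro h π hπ
    rw [eq_bot_iff]
    intro x hx
    rw [Submodule.mem_bot]
    exact ((h.mem_ckFil_iff hπ).1 hx).2 (by omega)
  tfae_have 1 → 5 := by
    intro h π hπ
    rw [hπ.firstIsKernel_iff]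
    intro x hx h0 b _
    rw [h x hx h0, map_zero]
  tfae_have 3 → 1 := by
    intro h
    by_cases hi0 : i = 0
    · subst hi0; exact clInjective_zero hP
    by_cases hin : X.dim < i
    · exact clInjective_of_lt hin
    intro x hx h0
    obtain ⟨σ, hσ1, hσ2⟩ := hσ 0 (by omega)
    obtain ⟨τ, hτ1, hτ2⟩ := hσ (2 * i) (by omega)
    have h1 : x ∈ C.ckFil σ i 1 := by
      rw [mem_ckFil hσ1]
      exact ⟨hx, fun b hb => by rw [hσ2 x h0, if_neg (by omega)]⟩
    rw [h σ τ hσ1 hτ1, mem_ckFil hτ1] at h1
    have h2 := h1.2 (2 * i) (by omega)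
    rwa [hτ2 x h0, if_pos rfl] at h2
  tfae_have 4 → 1 := by
    intro h
    by_cases hi0 : i = 0
    · subst hi0; exact clInjective_zero hP
    intro x hx h0
    obtain ⟨σ, hσ1, hσ2⟩ := hσ 0 (by omega)
    have h1 : x ∈ C.ckFil σ i (i + 1) := by
      rw [mem_ckFil hσ1]
      exact ⟨hx, fun b hb => by rw [hσ2 x h0, if_neg (by omega)]⟩
    rwa [h σ hσ1, Submodule.mem_bot] at h1
  tfae_have 5 → 1 := by
    intro h
    by_cases hin : X.dim < i
    · exact clInjective_of_lt hin
    intro x hx h0
    obtain ⟨τ, hτ1, hτ2⟩ := hσ (2 * i) (by omega)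
    have h2 := (hτ1.firstIsKernel_iff.1 (h τ hτ1)) x hx h0 (2 * i) le_rfl
    rwa [hτ2 x h0, if_pos rfl] at h2
  tfae_finish

theorem AlgebraicCohomology.motive_tfae (hP : C.Polarized) (hX : W.AlgebraicCohomology X) :
    List.TFAE [∀ i, W.ClInjective (X.prod X) i, W.ClInjective (X.prod X) X.dim, W.NoPhantoms X,
      W.Indep (X.prod X) X.dim 0, W.MurreC (X.prod X)] := by
  obtain ⟨φ, hφ, hφφ, hφ0, hinj, hσ⟩ := hX.exists_phantom
  obtain ⟨σ, hσ1, -⟩ := hσ 0 (by omega)
  tfae_have 1 → 2 := fun h => h _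
  tfae_have 2 → 1 := by
    intro h i γ _ hγ
    refine hinj (h φ hφ (cl_eq_zero_of_isZeroMap fun a => ?_)) γ hγ
    rw [hφ0, LinearMap.zero_apply]
  tfae_have 1 → 5 := fun h i l => (h i).indep l
  tfae_have 5 → 4 := fun h => h _ _
  tfae_have 4 → 3 := fun h => (h.murreB0 hP).triangular.noPhantoms hP hσ1
  tfae_have 3 → 1 := by
    intro h i γ _ hγ
    refine hinj (h φ hφ hφφ fun a => ?_) γ hγ
    rw [hφ0, LinearMap.zero_apply]
  tfae_finish

lemma clInjective_of_square (h : ∀ i, W.ClInjective (X.prod X) i) (i : ℕ) :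
    W.ClInjective X i := by
  intro x hx h0
  have h1 : C.pull (fst X X) x = 0 :=
    h i _ (C.pull_mem _ hx) (by rw [W.cl_pull, h0, map_zero])
  have h2 : C.pull (diag X) (C.pull (fst X X) x) = x := by
    have e1 : diag X ≫ fst X X = 𝟙 X := Obj.lift_fst _ _
    rw [← C.pull_comp, e1, C.pull_id]
  rw [← h2, h1, map_zero]

end WeilTheory

end Pool.Agent.R903
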