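import Pool.Agent.R903.MurreDDefs

/-!
# Varieties with algebraic cohomology: definitions
-/

open CategoryTheory CategoryTheory.Limits AlgebraicGeometry
open Pool.Agent.H914 Pool.Agent.H914.VarClass Pool.Agent.H914.VarClass.Obj

universe u v w

namespace Pool.Agent.R903

variable {k : Type u} [Field k] {𝒱 : VarClass k} {C : ChowTheory.{u, v} 𝒱}

/-- The elements of the range of `f` span the vector space `V`. -/
def RangeSpans {A : Type v} {K : Type w} [Field K] {V : Type w} [AddCommGroup V] [Module K V]
    (f : A → V) : Prop :=
  Submodule.span K (Set.range f) = ⊤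

/-- The cohomology of `X` is spanned by the classes of algebraic cycles. (For complex surfaces this
holds if and only if `p_g = q = 0`, by Lefschetz' theorem on `(1,1)`-classes.) -/
def WeilTheory.AlgebraicCohomology (W : WeilTheory.{u, v, w} C) (X : 𝒱.Obj) : Prop :=
  RangeSpans (K := W.K) (W.cl X)

/-- `f` is injective on `U`. -/
def KillsNothing {A : Type v} [CommRing A] [Algebra ℚ A] {H : Type w} [Ring H] (f : A →+* H)
    (U : Submodule ℚ A) : Prop :=
  ∀ x ∈ U, f x = 0 → x = 0

/-- The cycle class map is injective on `CH^i(X)`: homologically trivial cycles of codimension `i`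
are zero in the Chow group with rational coefficients. -/
def WeilTheory.ClInjective (W : WeilTheory.{u, v, w} C) (X : 𝒱.Obj) (i : ℕ) : Prop :=
  KillsNothing (W.cl X) (C.gr X i)

end Pool.Agent.R903
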