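import Pool.Agent.R903.BBDefs

/-!
# Bloch–Beilinson filtrations and degree operators: definitions
-/

open CategoryTheory CategoryTheory.Limits AlgebraicGeometry
open Pool.Agent.H914 Pool.Agent.H914.VarClass Pool.Agent.H914.VarClass.Obj

universe u v w

namespace Pool.Agent.R903

variable {k : Type u} [Field k] {𝒱 : VarClass k} {C : ChowTheory.{u, v} 𝒱}

/-- `T` acts on `U / U'` as multiplication by `q`. -/
def ActsAs {V : Type v} [AddCommGroup V] [Module ℚ V] (T : V →ₗ[ℚ] V) (q : ℚ)
    (U U' : Submodule ℚ V) : Prop :=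
  ∀ x ∈ U, T x - q • x ∈ U'

/-- Each degree operator of `X` acts on `Gr^k CH^i(X)` as multiplication by `2i - k`. -/
def WeilTheory.DegreeAxiom (W : WeilTheory.{u, v, w} C) (F : C.Family) : Prop :=
  ∀ (X : 𝒱.Obj) (i j k : ℕ) (d : C.CH (X.prod X)), j + k = 2 * i → W.IsDegree X d →
    ActsAs (C.act d) j (F X i k) (F X i (k + 1))

/-- A **weight filtration**: for each variety `X` separately a descending filtration of `CH^i(X)`
with `F^0 CH^i(X) = CH^i(X)` and `F^(2i+1) CH^i(X) = 0`, such that each correspondence `d` of degree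
zero from `X` to `X` which acts on `H^l(X)` as multiplication by `l`, for all `l`, acts on
`Gr^k CH^i(X)` as multiplication by `2i - k`. -/
structure WeilTheory.IsWeightFiltration (W : WeilTheory.{u, v, w} C) (F : C.Family) : Prop where
  isFiltration : C.IsFiltration F
  bot : ∀ X i, F X i (2 * i + 1) = ⊥
  degree : W.DegreeAxiom F

/-- The operator `∏_{j ∈ S} (T - j)`. -/
noncomputable def prodSub {V : Type v} [AddCommGroup V] [Module ℚ V] (T : V →ₗ[ℚ] V)
    (S : Finset ℕ) : V →ₗ[ℚ] V :=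
  Polynomial.aeval (R := ℚ) (A := Module.End ℚ V) T
    (∏ j ∈ S, (Polynomial.X - Polynomial.C (j : ℚ)))

/-- For each `X`, `i` and each degree operator `d` of `X` the operator `∏_{j=i}^{2i} (d - j)`
annihilates `CH^i(X)`. -/
def WeilTheory.Annihilation (W : WeilTheory.{u, v, w} C) : Prop :=
  ∀ (X : 𝒱.Obj) (i : ℕ) (d : C.CH (X.prod X)), W.IsDegree X d → ∀ x ∈ C.gr X i,
    prodSub (C.act d) (Finset.Icc i (2 * i)) x = 0

/-- For each degree operator `d` of `X` the subspace `F X i k` is the kernel of the operator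
`∏_j (d - j)`, for `i ≤ j` and `j + k ≤ 2 * i`, on `CH^i(X)`. -/
def WeilTheory.GivenByDegreeOperators (W : WeilTheory.{u, v, w} C) (F : C.Family) : Prop :=
  ∀ (X : 𝒱.Obj) (i k : ℕ) (d : C.CH (X.prod X)), W.IsDegree X d → ∀ x : C.CH X,
    x ∈ F X i k ↔ x ∈ C.gr X i ∧
      prodSub (C.act d) ((Finset.Icc i (2 * i)).filter (fun j => j + k ≤ 2 * i)) x = 0

end Pool.Agent.R903
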