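import Pool.Agent.R903.BBDefs
import Pool.Agent.R903.MurreDefs

/-!
# The Bloch–Beilinson filtration and one decomposition for each variety: definitions
-/

open CategoryTheory CategoryTheory.Limits AlgebraicGeometry
open Pool.Agent.H914 Pool.Agent.H914.VarClass Pool.Agent.H914.VarClass.Obj

universe u v w

namespace Pool.Agent.R903

variable {k : Type u} [Field k] {𝒱 : VarClass k} {C : ChowTheory.{u, v} 𝒱}

/-- `X` has no phantoms, and it has one Chow–Künneth decomposition with `Hom(h^a(X), h^b(X)) = 0`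
for `a < b` for which, for all `i`, `F^1 CH^i(X)` is the kernel of the cycle class map and
`F^(i+1) CH^i(X) = 0`. -/
def WeilTheory.HasBBDecomposition (W : WeilTheory.{u, v, w} C) (X : 𝒱.Obj) : Prop :=
  W.NoPhantoms X ∧ ∃ π : ℕ → C.CH (X.prod X), W.IsCK X π ∧ C.IsTriangular π ∧
    ∀ i, IsKernelOn (W.cl X) (C.gr X i) (C.ckFil π i 1) ∧ C.ckFil π i (i + 1) = ⊥

end Pool.Agent.R903
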