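import Pool.Agent.R903.Corr

/-!
# The calculus of correspondences, on Chow groups
-/

open CategoryTheory CategoryTheory.Limits AlgebraicGeometry
open Pool.Agent.H914 Pool.Agent.H914.VarClass Pool.Agent.H914.VarClass.Obj

universe u v w

namespace Pool.Agent.R903

variable {k : Type u} [Field k] {𝒱 : VarClass k}

section Maps

variable {W X Y Z A B : 𝒱.Obj}

lemma hom_ext_prod {f g : W ⟶ X.prod Y} (h1 : f ≫ fst X Y = g ≫ fst X Y)
    (h2 : f ≫ snd X Y = g ≫ snd X Y) : f = g := by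
  apply SmVar.hom_ext (X := W.V) (Y := (X.prod Y).V)
  apply pullback.hom_ext
  · exact congrArg SmVar.Hom.hom h1
  · exact congrArg SmVar.Hom.hom h2

@[reassoc]
lemma comp_lift (h : W ⟶ A) (f : A ⟶ X) (g : A ⟶ Y) : h ≫ lift f g = lift (h ≫ f) (h ≫ g) := by
  apply hom_ext_prod <;> simp

lemma lift_fst_snd (X Y : 𝒱.Obj) : lift (fst X Y) (snd X Y) = 𝟙 (X.prod Y) := by
  apply hom_ext_prod <;> simp

/-- `X × (Y × Z) → Y × Z` -/
noncomputable abbrev p23 (X Y Z : 𝒱.Obj) : X.prod (Y.prod Z) ⟶ Y.prod Z := snd X (Y.prod Z)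

@[reassoc (attr := simp)]
lemma p12_fst : p12 X Y Z ≫ fst X Y = fst X (Y.prod Z) := by simp [p12]
@[reassoc (attr := simp)]
lemma p12_snd : p12 X Y Z ≫ snd X Y = snd X (Y.prod Z) ≫ fst Y Z := by simp [p12]
@[reassoc (attr := simp)]
lemma p13_fst : p13 X Y Z ≫ fst X Z = fst X (Y.prod Z) := by simp [p13]
@[reassoc (attr := simp)]
lemma p13_snd : p13 X Y Z ≫ snd X Z = snd X (Y.prod Z) ≫ snd Y Z := by simp [p13]

@[reassoc (attr := simp)]
lemma diag_fst : Obj.diag X ≫ fst X X = 𝟙 X := Obj.lift_fst _ _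
@[reassoc (attr := simp)]
lemma diag_snd : Obj.diag X ≫ snd X X = 𝟙 X := Obj.lift_snd _ _

lemma isIso_of {f : A ⟶ B} (g : B ⟶ A) (h1 : f ≫ g = 𝟙 A) (h2 : g ≫ f = 𝟙 B) : IsIso f :=
  ⟨g, h1, h2⟩

lemma isIso_lift_fst_snd : IsIso (lift (fst X Y) (snd X Y)) := by
  rw [lift_fst_snd]; infer_instance

lemma isIso_swap : IsIso (lift (snd X Y) (fst X Y)) := by
  refine isIso_of (lift (snd Y X) (fst Y X)) ?_ ?_ <;>
  · apply hom_ext_prod <;> simp

lemma isIso_assoc : IsIso (lift (p12 X Y Z) (snd X (Y.prod Z) ≫ snd Y Z)) := by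
  refine isIso_of (lift (fst (X.prod Y) Z ≫ fst X Y)
    (lift (fst (X.prod Y) Z ≫ snd X Y) (snd (X.prod Y) Z))) ?_ ?_
  · apply hom_ext_prod
    · simp
    · apply hom_ext_prod <;> simp
  · apply hom_ext_prod
    · apply hom_ext_prod <;> simp
    · simp

end Maps

namespace ChowTheory

variable (C : ChowTheory.{u, v} 𝒱) {W X Y Z A B P : 𝒱.Obj}

lemma mem_gr {p : ℕ} {x : C.CH X} : x ∈ C.gr X p ↔ ∃ z, X.IsCyc p z ∧ C.cls X z = x :=
  (C.isChowRing X).mem_gr
lemma cls_fund (X : 𝒱.Obj) : C.cls X X.V.fundCycle = 1 := (C.isChowRing X).cls_fund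
lemma isInternal (X) : DirectSum.IsInternal (C.gr X) := (C.isChowRing X).isInternal
lemma gr_eq_bot (X : 𝒱.Obj) (i : ℕ) (h : X.dim < i) : C.gr X i = ⊥ :=
  (C.isChowRing X).gr_eq_bot i h
lemma mul_mem {p q : ℕ} {x y : C.CH X} (hx : x ∈ C.gr X p) (hy : y ∈ C.gr X q) :
    x * y ∈ C.gr X (p + q) := (C.isChowRing X).mul_mem hx hy
lemma pull_id (X : 𝒱.Obj) (x : C.CH X) : C.pull (𝟙 X) x = x := by
  rw [C.pullFunctorial.pull_id]; rfl
lemma pull_comp (f : X ⟶ Y) (g : Y ⟶ Z) (z : C.CH Z) :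
    C.pull (f ≫ g) z = C.pull f (C.pull g z) := by
  rw [C.pullFunctorial.pull_comp]; rfl
lemma pull_mem (f : X ⟶ Y) {p : ℕ} {y : C.CH Y} (hy : y ∈ C.gr Y p) : C.pull f y ∈ C.gr X p :=
  (C.isPullPush f).pull_mem hy
lemma push_id (X : 𝒱.Obj) (x : C.CH X) : C.push (𝟙 X) x = x := by
  rw [C.pushFunctorial.push_id]; rfl
lemma push_comp (f : X ⟶ Y) (g : Y ⟶ Z) (x : C.CH X) :
    C.push (f ≫ g) x = C.push g (C.push f x) := by
  rw [C.pushFunctorial.push_comp]; rfl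
lemma push_mem (f : X ⟶ Y) {p q : ℕ} {x : C.CH X} (hx : x ∈ C.gr X p)
    (h : p + Y.dim = q + X.dim) : C.push f x ∈ C.gr Y q := (C.isPullPush f).push_mem hx h
lemma push_eq_zero (f : X ⟶ Y) {p : ℕ} {x : C.CH X} (hx : x ∈ C.gr X p)
    (h : p + Y.dim < X.dim) : C.push f x = 0 := (C.isPullPush f).push_eq_zero hx h
lemma push_mul (f : X ⟶ Y) (x : C.CH X) (y : C.CH Y) :
    C.push f (x * C.pull f y) = C.push f x * y := (C.isPullPush f).push_mul x y
lemma base_change {A B A' B' T : 𝒱.Obj} (f : A ⟶ B) (f' : A' ⟶ B') (a : A' ⟶ A) (b : B' ⟶ B)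
    (t : B' ⟶ T) (h : f' ≫ b = a ≫ f) (h1 : IsIso (lift b t)) (h2 : IsIso (lift a (f' ≫ t)))
    (x : C.CH A) : C.pull b (C.push f x) = C.push f' (C.pull a x) :=
  C.baseChange f f' a b t h h1 h2 x
lemma push_snd_pull_fst (X Y : 𝒱.Obj) (x : C.CH X) :
    C.push (snd X Y) (C.pull (fst X Y) x) = algebraMap ℚ (C.CH Y) (C.deg X x) :=
  C.degreeFormula X Y x

lemma pull_mul (f : X ⟶ Y) (x y : C.CH Y) : C.pull f (x * y) = C.pull f x * C.pull f y :=
  map_mul _ _ _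

lemma mul_push (f : X ⟶ Y) (y : C.CH Y) (x : C.CH X) :
    C.push f (C.pull f y * x) = y * C.push f x := by
  rw [mul_comm, C.push_mul, mul_comm]

lemma act_apply (γ : C.CH (X.prod Y)) (x : C.CH X) :
    C.act γ x = C.push (snd X Y) (γ * C.pull (fst X Y) x) := rfl

lemma act_add (γ δ : C.CH (X.prod Y)) : C.act (γ + δ) = C.act γ + C.act δ := by
  ext x; simp [act_apply, add_mul]

lemma act_smul (q : ℚ) (γ : C.CH (X.prod Y)) : C.act (q • γ) = q • C.act γ := by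
  ext x; simp [act_apply]

lemma act_zero : C.act (0 : C.CH (X.prod Y)) = 0 := by
  ext x; simp [act_apply]

lemma act_sub (γ δ : C.CH (X.prod Y)) : C.act (γ - δ) = C.act γ - C.act δ := by
  ext x; simp [act_apply, sub_mul]

/-- the action, as a linear map in the correspondence -/
noncomputable def actL (X Y : 𝒱.Obj) : C.CH (X.prod Y) →ₗ[ℚ] C.CH X →ₗ[ℚ] C.CH Y where
  toFun := C.act
  map_add' := C.act_add
  map_smul' := C.act_smul

@[simp] lemma actL_apply (γ : C.CH (X.prod Y)) : C.actL X Y γ = C.act γ := rfl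

lemma act_sum {ι : Type*} (s : Finset ι) (γ : ι → C.CH (X.prod Y)) :
    C.act (∑ i ∈ s, γ i) = ∑ i ∈ s, C.act (γ i) := by
  rw [← actL_apply, map_sum]; rfl

lemma act_mem {γ : C.CH (X.prod Y)} {x : C.CH X} {c i j : ℕ} (hγ : γ ∈ C.gr (X.prod Y) c)
    (hx : x ∈ C.gr X i) (h : i + c = j + X.dim) : C.act γ x ∈ C.gr Y j := by
  rw [act_apply]
  exact C.push_mem _ (C.mul_mem hγ (C.pull_mem _ hx)) (by rw [dim_prod]; omega)

lemma act_eq_zero {γ : C.CH (X.prod Y)} {x : C.CH X} {c i : ℕ} (hγ : γ ∈ C.gr (X.prod Y) c)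
    (hx : x ∈ C.gr X i) (h : i + c < X.dim) : C.act γ x = 0 := by
  rw [act_apply]
  exact C.push_eq_zero _ (C.mul_mem hγ (C.pull_mem _ hx)) (by rw [dim_prod]; omega)

/-- The correspondence given by a class on a variety `P` with morphisms to `A` and `B`. -/
noncomputable def span (a : P ⟶ A) (b : P ⟶ B) (ω : C.CH P) : C.CH (A.prod B) :=
  C.push (lift a b) ω

lemma act_span (a : P ⟶ A) (b : P ⟶ B) (ω : C.CH P) (x : C.CH A) :
    C.act (C.span a b ω) x = C.push b (ω * C.pull a x) := by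
  rw [act_apply, span, ← C.push_mul, ← C.push_comp, ← C.pull_comp, lift_snd, lift_fst]

lemma span_mem (a : P ⟶ A) (b : P ⟶ B) {ω : C.CH P} {p q : ℕ} (hω : ω ∈ C.gr P p)
    (h : p + (A.dim + B.dim) = q + P.dim) : C.span a b ω ∈ C.gr (A.prod B) q :=
  C.push_mem _ hω (by rw [dim_prod]; exact h)

lemma one_mem (X : 𝒱.Obj) : (1 : C.CH X) ∈ C.gr X 0 :=
  C.mem_gr.2 ⟨_, X.V.fundCycle_mem, C.cls_fund X⟩

lemma diagC_eq (X : 𝒱.Obj) : C.diagC X = C.span (𝟙 X) (𝟙 X) 1 := rfl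

lemma diagC_mem (X : 𝒱.Obj) : C.diagC X ∈ C.gr (X.prod X) X.dim :=
  C.span_mem _ _ (C.one_mem X) (by omega)

lemma act_diagC (x : C.CH X) : C.act (C.diagC X) x = x := by
  rw [diagC_eq, act_span, one_mul, C.pull_id, C.push_id]

/-- The graph of a morphism. -/
noncomputable def graph (f : X ⟶ Y) : C.CH (X.prod Y) := C.span (𝟙 X) f 1

lemma graph_mem (f : X ⟶ Y) : C.graph f ∈ C.gr (X.prod Y) Y.dim :=
  C.span_mem _ _ (C.one_mem X) (by omega)

lemma act_graph (f : X ⟶ Y) (x : C.CH X) : C.act (C.graph f) x = C.push f x := by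
  rw [graph, act_span, one_mul, C.pull_id]

/-- The transpose of the graph of a morphism. -/
noncomputable def cograph (f : X ⟶ Y) : C.CH (Y.prod X) := C.span f (𝟙 X) 1

lemma cograph_mem (f : X ⟶ Y) : C.cograph f ∈ C.gr (Y.prod X) Y.dim :=
  C.span_mem _ _ (C.one_mem X) (by omega)

lemma act_cograph (f : X ⟶ Y) (y : C.CH Y) : C.act (C.cograph f) y = C.pull f y := by
  rw [cograph, act_span, one_mul, C.push_id]

/-! ### base change -/

lemma bc1 (c : C.CH (X.prod Y)) :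
    C.pull (fst Y Z) (C.push (snd X Y) c) = C.push (snd X (Y.prod Z)) (C.pull (p12 X Y Z) c) :=
  C.base_change (T := Z) (snd X Y) (snd X (Y.prod Z)) (p12 X Y Z) (fst Y Z) (snd Y Z)
    (by simp) isIso_lift_fst_snd isIso_assoc c

lemma bc2 (c : C.CH (Y.prod Z)) :
    C.pull (snd X Z) (C.push (snd Y Z) c) = C.push (p13 X Y Z) (C.pull (snd X (Y.prod Z)) c) := by
  refine C.base_change (T := X) (snd Y Z) (p13 X Y Z) (snd X (Y.prod Z)) (snd X Z) (fst X Z)
    (by simp) isIso_swap ?_ c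
  rw [p13_fst]
  exact isIso_swap

lemma bc3 (c : C.CH (X.prod Y)) :
    C.pull (fst X Z) (C.push (fst X Y) c) = C.push (p13 X Y Z) (C.pull (p12 X Y Z) c) := by
  refine C.base_change (T := Z) (fst X Y) (p13 X Y Z) (p12 X Y Z) (fst X Z) (snd X Z)
    (by simp) isIso_lift_fst_snd ?_ c
  rw [p13_snd]
  exact isIso_assoc

lemma comp_mem {α : C.CH (X.prod Y)} {β : C.CH (Y.prod Z)} {p q r : ℕ}
    (hα : α ∈ C.gr (X.prod Y) p) (hβ : β ∈ C.gr (Y.prod Z) q) (h : p + q = r + Y.dim) :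
    C.comp α β ∈ C.gr (X.prod Z) r :=
  C.push_mem _ (C.mul_mem (C.pull_mem _ hα) (C.pull_mem _ hβ)) (by simp only [dim_prod]; omega)

lemma act_comp (α : C.CH (X.prod Y)) (β : C.CH (Y.prod Z)) (x : C.CH X) :
    C.act (C.comp α β) x = C.act β (C.act α x) := by
  rw [act_apply, act_apply, act_apply, comp, bc1, ← C.mul_push, ← C.push_comp, ← C.push_mul,
    ← C.push_comp, ← C.pull_comp, p13_fst, p13_snd, C.pull_mul, ← C.pull_comp, p12_fst]
  congr 1
  ring

lemma comp_add (α : C.CH (X.prod Y)) (β β' : C.CH (Y.prod Z)) :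
    C.comp α (β + β') = C.comp α β + C.comp α β' := by
  simp [comp, mul_add]

lemma add_comp (α α' : C.CH (X.prod Y)) (β : C.CH (Y.prod Z)) :
    C.comp (α + α') β = C.comp α β + C.comp α' β := by
  simp [comp, add_mul]

/-- The correspondence on `X × Y` which induces the composition with `w` after. -/
noncomputable def opL (X : 𝒱.Obj) (w : C.CH (Y.prod Y)) : C.CH ((X.prod Y).prod (X.prod Y)) :=
  C.span (p12 X Y Y) (p13 X Y Y) (C.pull (snd X (Y.prod Y)) w)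

/-- The correspondence on `X × Y` which induces the composition with `w` before. -/
noncomputable def opR (w : C.CH (X.prod X)) (Y : 𝒱.Obj) : C.CH ((X.prod Y).prod (X.prod Y)) :=
  C.span (snd X (X.prod Y)) (p13 X X Y) (C.pull (p12 X X Y) w)

/-- The correspondence on `X × Y` which acts as `w` on the first factor. -/
noncomputable def opM (w : C.CH (X.prod X)) (Y : 𝒱.Obj) : C.CH ((X.prod Y).prod (X.prod Y)) :=
  C.span (p13 X X Y) (snd X (X.prod Y)) (C.pull (p12 X X Y) w)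

lemma opL_mem {w : C.CH (Y.prod Y)} (hw : w ∈ C.gr (Y.prod Y) Y.dim) :
    C.opL X w ∈ C.gr ((X.prod Y).prod (X.prod Y)) (X.prod Y).dim :=
  C.span_mem _ _ (C.pull_mem _ hw) (by simp only [dim_prod]; omega)

lemma opR_mem {w : C.CH (X.prod X)} (hw : w ∈ C.gr (X.prod X) X.dim) :
    C.opR w Y ∈ C.gr ((X.prod Y).prod (X.prod Y)) (X.prod Y).dim :=
  C.span_mem _ _ (C.pull_mem _ hw) (by simp only [dim_prod]; omega)

lemma opM_mem {w : C.CH (X.prod X)} (hw : w ∈ C.gr (X.prod X) X.dim) :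
    C.opM w Y ∈ C.gr ((X.prod Y).prod (X.prod Y)) (X.prod Y).dim :=
  C.span_mem _ _ (C.pull_mem _ hw) (by simp only [dim_prod]; omega)

lemma act_opL (w : C.CH (Y.prod Y)) (γ : C.CH (X.prod Y)) :
    C.act (C.opL X w) γ = C.comp γ w := by
  rw [opL, act_span, comp, mul_comm]

lemma act_opR (w : C.CH (X.prod X)) (γ : C.CH (X.prod Y)) :
    C.act (C.opR w Y) γ = C.comp w γ := by
  rw [opR, act_span, comp]

/-- The external product. -/
noncomputable def ext (x : C.CH X) (y : C.CH Y) : C.CH (X.prod Y) :=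
  C.pull (fst X Y) x * C.pull (snd X Y) y

lemma ext_mem {x : C.CH X} {y : C.CH Y} {i j : ℕ} (hx : x ∈ C.gr X i) (hy : y ∈ C.gr Y j) :
    C.ext x y ∈ C.gr (X.prod Y) (i + j) :=
  C.mul_mem (C.pull_mem _ hx) (C.pull_mem _ hy)

lemma act_opL_ext (w : C.CH (Y.prod Y)) (x : C.CH X) (y : C.CH Y) :
    C.act (C.opL X w) (C.ext x y) = C.ext x (C.act w y) := by
  rw [opL, act_span, ext, ext, act_apply, bc2, ← C.mul_push, C.pull_mul, C.pull_mul, ← C.pull_comp,
    ← C.pull_comp, ← C.pull_comp, ← C.pull_comp, p12_fst, p12_snd, p13_fst]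
  congr 1
  ring

lemma act_opM_ext (w : C.CH (X.prod X)) (x : C.CH X) (y : C.CH Y) :
    C.act (C.opM w Y) (C.ext x y) = C.ext (C.act w x) y := by
  rw [opM, act_span, ext, ext, act_apply, bc1, ← C.push_mul, C.pull_mul, C.pull_mul, ← C.pull_comp,
    ← C.pull_comp, ← C.pull_comp, ← C.pull_comp, p12_fst, p13_fst, p13_snd, mul_assoc]

lemma act_ext (y : C.CH X) (z : C.CH Y) (x : C.CH X) :
    C.act (C.ext y z) x = (C.deg X (x * y)) • z := by
  rw [act_apply, ext]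
  have : C.pull (fst X Y) y * C.pull (snd X Y) z * C.pull (fst X Y) x =
      C.pull (fst X Y) (x * y) * C.pull (snd X Y) z := by rw [C.pull_mul]; ring
  rw [this, C.push_mul, C.push_snd_pull_fst, Algebra.smul_def]

lemma pull_diag_ext (x y : C.CH X) : C.pull (diag X) (C.ext x y) = x * y := by
  rw [ext, C.pull_mul, ← C.pull_comp, ← C.pull_comp]
  have e1 : diag X ≫ fst X X = 𝟙 X := Obj.lift_fst _ _
  have e2 : diag X ≫ snd X X = 𝟙 X := Obj.lift_snd _ _
  rw [e1, e2, C.pull_id, C.pull_id]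

end ChowTheory

end Pool.Agent.R903
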