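import Mathlib

/-!
# Exchange of idempotents with local endomorphism rings
-/

namespace Pool.Agent.R903.Exch

variable {A : Type*} [Ring A] {ι : Type*} [Fintype ι] [DecidableEq ι]

/-- `ρ` is a family of orthogonal idempotents with sum `q` -/
structure IsDec (q : A) (ρ : ι → A) : Prop where
  idem : ∀ i, ρ i * ρ i = ρ i
  orth : ∀ i j, i ≠ j → ρ i * ρ j = 0
  sum : ∑ i, ρ i = q

/-- `x` is invertible in the ring `e A e` -/
def UnitIn (e x : A) : Prop := ∃ u, e * u = u ∧ u * e = u ∧ x * u = e ∧ u * x = e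

/-- the ring `e A e` is local -/
structure LocalIdem (e : A) : Prop where
  idem : e * e = e
  ne_zero : e ≠ 0
  isLocal : ∀ x, e * x = x → x * e = x → UnitIn e x ∨ UnitIn e (e - x)

omit [DecidableEq ι] in
lemma IsDec.mul_left {q : A} {ρ : ι → A} (h : IsDec q ρ) (i : ι) : q * ρ i = ρ i := by
  rw [← h.sum, Finset.sum_mul, Finset.sum_eq_single i, h.idem]
  · intro j _ hj; exact h.orth j i hj
  · intro hi; exact absurd (Finset.mem_univ i) hi

omit [DecidableEq ι] in
lemma IsDec.mul_right {q : A} {ρ : ι → A} (h : IsDec q ρ) (i : ι) : ρ i * q = ρ i := by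
  rw [← h.sum, Finset.mul_sum, Finset.sum_eq_single i, h.idem]
  · intro j _ hj; exact h.orth i j (Ne.symm hj)
  · intro hi; exact absurd (Finset.mem_univ i) hi

omit [Fintype ι] [DecidableEq ι] in
/-- a summand of an invertible element of a local ring is invertible -/
lemma LocalIdem.exists_unit {e : A} (he : LocalIdem e) (s : Finset ι) (x : ι → A)
    (hx : ∀ i, e * x i = x i ∧ x i * e = x i) (hs : UnitIn e (∑ i ∈ s, x i)) :
    ∃ i ∈ s, UnitIn e (x i) := by
  classical
  induction s using Finset.induction_on with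
  | empty =>
    obtain ⟨u, -, -, h1, -⟩ := hs
    rw [Finset.sum_empty, zero_mul] at h1
    exact absurd h1.symm he.ne_zero
  | insert i s hi ih =>
    obtain ⟨u, h1, h2, h3, h4⟩ := hs
    rw [Finset.sum_insert hi] at h3 h4
    have hs1 : e * ∑ j ∈ s, x j = ∑ j ∈ s, x j := by
      rw [Finset.mul_sum]; exact Finset.sum_congr rfl fun j _ => (hx j).1
    have hs2 : (∑ j ∈ s, x j) * e = ∑ j ∈ s, x j := by
      rw [Finset.sum_mul]; exact Finset.sum_congr rfl fun j _ => (hx j).2
    -- a left factor of a unit of the form `u * y`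
    have key : ∀ y, e * y = y → UnitIn e (u * y) → UnitIn e y := by
      rintro y hy ⟨v, hv1, hv2, hv3, hv4⟩
      have h5 : y = (x i + ∑ j ∈ s, x j) * (u * y) := by
        rw [← mul_assoc, h3, hy]
      refine ⟨v * u, by rw [← mul_assoc, hv1], by rw [mul_assoc, h2], ?_, ?_⟩
      · rw [h5, mul_assoc, ← mul_assoc (u * y), hv3, h1, h3]
      · rw [mul_assoc, hv4]
    rcases he.isLocal (u * x i) (by rw [← mul_assoc, h1]) (by rw [mul_assoc, (hx i).2]) with h | h
    · exact ⟨i, Finset.mem_insert_self i s, key _ (hx i).1 h⟩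
    · have h6 : e - u * x i = u * ∑ j ∈ s, x j := by
        rw [← h4, mul_add]; abel
      rw [h6] at h
      obtain ⟨j, hj, hj'⟩ := ih (key _ hs1 h)
      exact ⟨j, Finset.mem_insert_of_mem hj, hj'⟩

/-- Exchange of one idempotent with a local endomorphism ring. -/
theorem exchange_one {q e : A} {ρ : ι → A} (h : IsDec q ρ) (he : LocalIdem e) (hqe : q * e = e)
    (heq : e * q = e) :
    ∃ ρ' : ι → A, IsDec (q - e) ρ' ∧ ∀ i, ∃ x y, ρ' i = x * ρ i * y := by
  have hqq : q * q = q := by
    conv_lhs => rw [← h.sum, Finset.sum_mul, h.sum]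
    rw [← h.sum]
    refine Finset.sum_congr rfl fun i _ => ?_
    rw [h.sum, h.mul_right]
  obtain ⟨i, -, u, hu1, hu2, hwu, huw⟩ := he.exists_unit Finset.univ (fun i => e * ρ i * e)
    (fun i => ⟨by rw [← mul_assoc, ← mul_assoc, he.idem], by rw [mul_assoc, he.idem]⟩)
    ⟨e, he.idem, he.idem, by
      rw [← Finset.sum_mul, ← Finset.mul_sum, h.sum, heq, he.idem, he.idem], by
      rw [← Finset.sum_mul, ← Finset.mul_sum, h.sum, heq, he.idem, he.idem]⟩
  -- `u ρ_i u = u`
  have hup : u * ρ i * u = u := by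
    calc u * ρ i * u = u * (e * ρ i * e) * u := by
          rw [← mul_assoc, ← mul_assoc, hu2, mul_assoc (u * ρ i), hu1]
      _ = u := by rw [huw, hu1]
  set g := u * ρ i with hg
  set q' := ρ i * u * ρ i with hq'
  have hge : g * e = e := by
    calc g * e = u * (e * ρ i * e) := by rw [← mul_assoc, ← mul_assoc, hu2]
      _ = e := huw
  have heg : e * g = g := by rw [hg, ← mul_assoc, hu1]
  have hqu : q * u = u := by rw [← hu1, ← mul_assoc, hqe]
  have hqg : q * g = g := by rw [hg, ← mul_assoc, hqu]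
  have hgq : g * q = g := by rw [hg, mul_assoc, h.mul_right]
  have hq'g : q' * g = q' := by
    calc ρ i * u * ρ i * (u * ρ i) = ρ i * (u * ρ i * u) * ρ i := by simp only [mul_assoc]
      _ = q' := by rw [hup]
  have hgq' : g * q' = g := by
    calc u * ρ i * (ρ i * u * ρ i) = u * (ρ i * ρ i) * u * ρ i := by simp only [mul_assoc]
      _ = u * ρ i * u * ρ i := by rw [h.idem]
      _ = g := by rw [hup]
  have hqq' : q * q' = q' := by rw [hq', ← mul_assoc, ← mul_assoc, h.mul_left]
  have hq'q : q' * q = q' := by rw [hq', mul_assoc, h.mul_right]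
  have hpq' : ρ i * q' = q' := by rw [hq', ← mul_assoc, ← mul_assoc, h.idem]
  have hq'p : q' * ρ i = q' := by rw [hq', mul_assoc, h.idem]
  have hq'q' : q' * q' = q' := by
    calc ρ i * u * ρ i * (ρ i * u * ρ i) = ρ i * u * (ρ i * ρ i) * u * ρ i := by
          simp only [mul_assoc]
      _ = ρ i * (u * ρ i * u) * ρ i := by rw [h.idem]; simp only [mul_assoc]
      _ = q' := by rw [hup]
  set a := (q - e) * (q - q') with ha
  set b := q - g with hb
  have hab : a * b = q - e := by
    have h1 : (q - q') * (q - g) = q - g := by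
      rw [sub_mul, mul_sub, mul_sub, hqq, hqg, hq'q, hq'g]; abel
    have h2 : (q - e) * (q - g) = q - e := by
      rw [sub_mul, mul_sub, mul_sub, hqq, hqg, heq, heg]; abel
    rw [ha, hb, mul_assoc, h1, h2]
  have hba : b * a = q - q' := by
    have h1 : (q - g) * (q - e) = q - g := by
      rw [sub_mul, mul_sub, mul_sub, hqq, hqe, hgq, hge]; abel
    have h2 : (q - g) * (q - q') = q - q' := by
      rw [sub_mul, mul_sub, mul_sub, hqq, hqq', hgq, hgq']; abel
    rw [ha, hb, ← mul_assoc, h1, h2]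
  have haq : a * (q - q') = a := by
    have h1 : (q - q') * (q - q') = q - q' := by
      rw [sub_mul, mul_sub, mul_sub, hqq, hqq', hq'q, hq'q']; abel
    rw [ha, mul_assoc, h1]
  -- the remaining pieces
  set σ : ι → A := fun j => if j = i then ρ i - q' else ρ j with hσ
  have hσi : σ i = ρ i - q' := if_pos rfl
  have hσj : ∀ j, j ≠ i → σ j = ρ j := fun j hj => if_neg hj
  have hρσ : ∀ j, ρ j * σ j = σ j := by
    intro j
    by_cases hj : j = i
    · subst hj; rw [hσi, mul_sub, h.idem, hpq']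
    · rw [hσj j hj, h.idem]
  have hσσ : ∀ j, σ j * σ j = σ j := by
    intro j
    by_cases hj : j = i
    · subst hj
      rw [hσi, sub_mul, mul_sub, mul_sub, h.idem, hpq', hq'p, hq'q']; abel
    · rw [hσj j hj, h.idem]
  have hσo : ∀ j l, j ≠ l → σ j * σ l = 0 := by
    intro j l hjl
    by_cases hj : j = i
    · subst hj
      rw [hσi, hσj l (Ne.symm hjl), sub_mul, h.orth j l hjl, ← hq'p, mul_assoc, h.orth j l hjl,
        mul_zero, sub_zero]
    · by_cases hl : l = i
      · subst hl
        rw [hσi, hσj j hj, mul_sub, h.orth j l hjl, ← hpq', ← mul_assoc, h.orth j l hjl,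
          zero_mul, sub_zero]
      · rw [hσj j hj, hσj l hl, h.orth j l hjl]
  have hσs : ∑ j, σ j = q - q' := by
    rw [← Finset.add_sum_erase _ _ (Finset.mem_univ i), hσi,
      Finset.sum_congr rfl fun j hj => hσj j (Finset.mem_erase.1 hj).1]
    have h1 : ρ i + ∑ j ∈ Finset.univ.erase i, ρ j = q := by
      rw [Finset.add_sum_erase _ _ (Finset.mem_univ i), h.sum]
    rw [← h1]; abel
  have hσd : IsDec (q - q') σ := ⟨hσσ, hσo, hσs⟩
  refine ⟨fun j => a * σ j * b, ⟨fun j => ?_, fun j l hjl => ?_, ?_⟩, fun j =>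
    ⟨a, σ j * b, ?_⟩⟩
  · calc a * σ j * b * (a * σ j * b) = a * σ j * (b * a) * σ j * b := by simp only [mul_assoc]
      _ = a * σ j * b := by
        rw [hba, mul_assoc a, hσd.mul_right, mul_assoc a (σ j) (σ j), hσσ]
  · calc a * σ j * b * (a * σ l * b) = a * σ j * (b * a) * σ l * b := by simp only [mul_assoc]
      _ = 0 := by
        rw [hba, mul_assoc a, hσd.mul_right, mul_assoc a (σ j) (σ l), hσo j l hjl, mul_zero,
          zero_mul]
  · rw [← Finset.sum_mul, ← Finset.mul_sum, hσs, haq, hab]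
  · calc a * σ j * b = a * (ρ j * σ j) * b := by rw [hρσ]
      _ = a * ρ j * (σ j * b) := by simp only [mul_assoc]

/-- Exchange of a sum of idempotents with local endomorphism rings. -/
theorem exchange {κ : Type*} (s : Finset κ) (e : κ → A) (he : ∀ j ∈ s, LocalIdem (e j))
    (horth : ∀ j ∈ s, ∀ l ∈ s, j ≠ l → e j * e l = 0) {ρ : ι → A} (h : IsDec 1 ρ) :
    ∃ ρ' : ι → A, IsDec (1 - ∑ j ∈ s, e j) ρ' ∧ ∀ i, ∃ x y, ρ' i = x * ρ i * y := by
  classical
  induction s using Finset.induction_on with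
  | empty =>
    exact ⟨ρ, by rwa [Finset.sum_empty, sub_zero], fun i => ⟨1, 1, by rw [one_mul, mul_one]⟩⟩
  | insert j s hj ih =>
    obtain ⟨ρ₁, h1, h2⟩ := ih (fun l hl => he l (Finset.mem_insert_of_mem hl))
      (fun l hl m hm => horth l (Finset.mem_insert_of_mem hl) m (Finset.mem_insert_of_mem hm))
    have hj1 : (∑ l ∈ s, e l) * e j = 0 := by
      rw [Finset.sum_mul]
      exact Finset.sum_eq_zero fun l hl => horth l (Finset.mem_insert_of_mem hl) j
        (Finset.mem_insert_self j s) (fun h => hj (h ▸ hl))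
    have hj2 : e j * (∑ l ∈ s, e l) = 0 := by
      rw [Finset.mul_sum]
      exact Finset.sum_eq_zero fun l hl => horth j (Finset.mem_insert_self j s) l
        (Finset.mem_insert_of_mem hl) (fun h => hj (h ▸ hl))
    obtain ⟨ρ₂, h3, h4⟩ := exchange_one h1 (he j (Finset.mem_insert_self j s))
      (by rw [sub_mul, one_mul, hj1, sub_zero]) (by rw [mul_sub, mul_one, hj2, sub_zero])
    refine ⟨ρ₂, ?_, fun i => ?_⟩
    · have h5 : (1 : A) - ∑ l ∈ insert j s, e l = 1 - ∑ l ∈ s, e l - e j := by
        rw [Finset.sum_insert hj]; abel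
      rw [h5]; exact h3
    · obtain ⟨x, y, hxy⟩ := h4 i
      obtain ⟨x', y', hxy'⟩ := h2 i
      refine ⟨x * x', y' * y, ?_⟩
      rw [hxy, hxy']
      simp only [mul_assoc]

end Pool.Agent.R903.Exch
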