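import Pool.Agent.R903.CancelDefs
import Pool.Agent.R903.Exch
import Pool.Agent.R903.Lef

/-!
# Chow–Künneth decompositions and complements with local endomorphism rings
-/

open CategoryTheory CategoryTheory.Limits AlgebraicGeometry
open Pool.Agent.H914 Pool.Agent.H914.VarClass Pool.Agent.H914.VarClass.Obj

universe u v w

namespace Pool.Agent.R903

variable {k : Type u} [Field k] {𝒱 : VarClass k} {C : ChowTheory.{u, v} 𝒱}

namespace CorrRing

variable {Y : 𝒱.Obj}

/-- the ring of correspondences of degree zero -/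
noncomputable def deg0 (C : ChowTheory.{u, v} 𝒱) (Y : 𝒱.Obj) : Subring (CorrRing C Y) where
  carrier := {x | (of C Y).symm x ∈ C.gr (Y.prod Y) Y.dim}
  mul_mem' := fun {a b} ha hb =>
    C.comp_mem (α := (of C Y).symm b) (β := (of C Y).symm a) hb ha rfl
  one_mem' := C.diagC_mem Y
  add_mem' := fun ha hb => Submodule.add_mem _ ha hb
  zero_mem' := Submodule.zero_mem _
  neg_mem' := fun ha => Submodule.neg_mem _ ha

/-- a correspondence of degree zero as an element of the ring -/
noncomputable def dz {x : C.CH (Y.prod Y)} (hx : x ∈ C.gr (Y.prod Y) Y.dim) : deg0 C Y :=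
  ⟨of C Y x, hx⟩

/-- the correspondence of an element of the ring -/
noncomputable def un (x : deg0 C Y) : C.CH (Y.prod Y) := (of C Y).symm x.1

lemma un_mem (x : deg0 C Y) : un x ∈ C.gr (Y.prod Y) Y.dim := x.2

lemma un_mul (x y : deg0 C Y) : un (x * y) = C.comp (un y) (un x) := rfl

lemma un_inj {x y : deg0 C Y} (h : un x = un y) : x = y := Subtype.ext h

lemma un_dz {x : C.CH (Y.prod Y)} (hx : x ∈ C.gr (Y.prod Y) Y.dim) : un (dz hx) = x := rfl

lemma un_sum {ι : Type*} (s : Finset ι) (x : ι → deg0 C Y) :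
    un (∑ i ∈ s, x i) = ∑ i ∈ s, un (x i) := by
  classical
  induction s using Finset.induction_on with
  | empty => rfl
  | insert i s hi ih =>
    rw [Finset.sum_insert hi, Finset.sum_insert hi, ← ih]
    rfl

lemma localIdem {e : C.CH (Y.prod Y)} (he : C.IsLocalMotive e) : Exch.LocalIdem (dz he.mem) where
  idem := un_inj he.idem
  ne_zero := fun h => he.ne_zero (congrArg un h)
  isLocal := by
    have key : ∀ (x : deg0 C Y), C.InvertibleIn e (un x) → Exch.UnitIn (dz he.mem) x := by
      rintro x ⟨u, hu, h1, h2, h3, h4⟩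
      exact ⟨dz hu, un_inj h2, un_inj h1, un_inj h4, un_inj h3⟩
    intro x h1 h2
    rcases he.isLocal (un x) x.2 (congrArg un h2) (congrArg un h1) with h | h
    · exact Or.inl (key _ h)
    · exact Or.inr (key (dz he.mem - x) h)

end CorrRing

namespace WeilTheory

variable {W : WeilTheory.{u, v, w} C} {X Y Z : 𝒱.Obj}

/-- If the diagonal is a sum of orthogonal idempotents with pure cohomology, then there is a
Chow–Künneth decomposition. -/
theorem hasCK_of_pure {κ : Type*} [Fintype κ] {t : κ → C.CH (X.prod X)}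
    (hmem : ∀ i, t i ∈ C.gr (X.prod X) X.dim) (hidem : ∀ i, C.comp (t i) (t i) = t i)
    (horth : ∀ i j, i ≠ j → C.comp (t i) (t j) = 0) (hsum : ∑ i, t i = C.diagC X) (d : κ → ℕ)
    (hd : ∀ i l, l ≠ d i → ∀ a ∈ W.gr X l, W.act (t i) a = 0) : W.HasCK X := by
  classical
  set d' : κ → ℕ := fun i => if d i ≤ 2 * X.dim then d i else 0 with hd'
  have hd'le : ∀ i, d' i < 2 * X.dim + 1 := by
    intro i
    simp only [hd']
    split_ifs <;> omega
  have hcomp : ∀ S T : Finset κ, C.comp (∑ i ∈ S, t i) (∑ i ∈ T, t i) = ∑ i ∈ S ∩ T, t i := by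
    intro S T
    rw [C.sum_comp]
    have h1 : ∀ i ∈ S, C.comp (t i) (∑ j ∈ T, t j) = if i ∈ T then t i else 0 := by
      intro i _
      rw [C.comp_sum]
      by_cases hi : i ∈ T
      · rw [if_pos hi, Finset.sum_eq_single i, hidem]
        · intro j _ hj
          exact horth i j (Ne.symm hj)
        · intro h; exact absurd hi h
      · rw [if_neg hi]
        exact Finset.sum_eq_zero fun j hj => horth i j fun h => hi (h ▸ hj)
    rw [Finset.sum_congr rfl h1, ← Finset.sum_filter, Finset.filter_mem_eq_inter]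
  refine ⟨fun m => ∑ i ∈ Finset.univ.filter (fun i => d' i = m), t i, ⟨fun m => ?_, fun m => ?_,
    fun m n hmn => ?_, ?_, fun m l a ha => ?_⟩⟩
  · exact Submodule.sum_mem _ fun i _ => hmem i
  · rw [hcomp, Finset.inter_self]
  · rw [hcomp]
    apply Finset.sum_eq_zero
    intro i hi
    rw [Finset.mem_inter, Finset.mem_filter, Finset.mem_filter] at hi
    exact absurd (hi.1.2.symm.trans hi.2.2) hmn
  · rw [← hsum]
    exact Finset.sum_fiberwise_of_maps_to (fun i _ => Finset.mem_range.2 (hd'le i)) t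
  · rw [W.act_sum, LinearMap.sum_apply]
    by_cases hl : 2 * X.dim < l
    · rw [W.gr_eq_bot X l hl, Submodule.mem_bot] at ha
      rw [ha]
      simp
    · have hne : ∀ i, d' i ≠ l → W.act (t i) a = 0 := by
        intro i hi
        apply hd i l _ a ha
        rintro rfl
        apply hi
        simp only [hd']
        rw [if_pos (by omega)]
      have hall : ∑ i, W.act (t i) a = a := by
        rw [← LinearMap.sum_apply, ← W.act_sum, hsum, W.act_diagC]
      split_ifs with hlm
      · conv_rhs => rw [← hall]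
        rw [Finset.sum_filter]
        refine Finset.sum_congr rfl fun i _ => ?_
        split_ifs with h1
        · rfl
        · exact (hne i (by omega)).symm
      · refine Finset.sum_eq_zero fun i hi => hne i ?_
        rw [(Finset.mem_filter.1 hi).2]
        exact Ne.symm hlm

end WeilTheory

namespace ChowTheory.LocalComplement

open CorrRing

variable {W : WeilTheory.{u, v, w} C} {X Y : 𝒱.Obj} {c c' : ℕ} {α : C.CH (X.prod Y)}
  {β : C.CH (Y.prod X)} {r : ℕ} {e : Fin r → C.CH (Y.prod Y)}

lemma sum_comp_e (h : C.LocalComplement c c' α β e) (j : Fin r) :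
    C.comp (∑ i, e i) (e j) = e j := by
  rw [C.sum_comp, Finset.sum_eq_single j, (h.isLocal j).idem]
  · intro i _ hi; exact h.orth i j hi
  · intro hj; exact absurd (Finset.mem_univ j) hj

lemma e_comp_sum (h : C.LocalComplement c c' α β e) (j : Fin r) :
    C.comp (e j) (∑ i, e i) = e j := by
  rw [C.comp_sum, Finset.sum_eq_single j, (h.isLocal j).idem]
  · intro i _ hi; exact h.orth j i (Ne.symm hi)
  · intro hj; exact absurd (Finset.mem_univ j) hj

lemma alpha_comp_e (h : C.LocalComplement c c' α β e) (j : Fin r) : C.comp α (e j) = 0 := by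
  have h1 : C.comp (C.comp β α) (e j) = 0 := by
    have h2 := congrArg (fun x => C.comp x (e j)) h.sum
    simp only [C.add_comp, C.diagC_comp] at h2
    rw [h.sum_comp_e] at h2
    exact add_eq_right.1 h2
  calc C.comp α (e j) = C.comp (C.comp (C.comp α β) α) (e j) := by rw [h.comp_eq, C.diagC_comp]
    _ = C.comp α (C.comp (C.comp β α) (e j)) := by simp only [C.comp_assoc]
    _ = 0 := by rw [h1, C.comp_zero]

lemma e_comp_beta (h : C.LocalComplement c c' α β e) (j : Fin r) : C.comp (e j) β = 0 := by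
  have h1 : C.comp (e j) (C.comp β α) = 0 := by
    have h2 := congrArg (fun x => C.comp (e j) x) h.sum
    simp only [C.comp_add, C.comp_diagC] at h2
    rw [h.e_comp_sum] at h2
    exact add_eq_right.1 h2
  calc C.comp (e j) β = C.comp (e j) (C.comp β (C.comp α β)) := by rw [h.comp_eq, C.comp_diagC]
    _ = C.comp (C.comp (e j) (C.comp β α)) β := by simp only [C.comp_assoc]
    _ = 0 := by rw [h1, C.zero_comp]

/-- the pieces of the exchange -/
theorem exists_pieces (h : C.LocalComplement c c' α β e) {ρ : ℕ → C.CH (Y.prod Y)}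
    (hρ : W.IsCK Y ρ) : ∃ s : Fin (2 * Y.dim + 1) → C.CH (Y.prod Y),
      (∀ m, s m ∈ C.gr (Y.prod Y) Y.dim) ∧ (∀ m, C.comp (s m) (s m) = s m) ∧
      (∀ m n, m ≠ n → C.comp (s m) (s n) = 0) ∧ ∑ m, s m = C.comp β α ∧
      ∀ m, ∃ x ∈ C.gr (Y.prod Y) Y.dim, ∃ y ∈ C.gr (Y.prod Y) Y.dim,
        s m = C.comp (C.comp y (ρ m)) x := by
  have hdec : Exch.IsDec (1 : deg0 C Y) (fun m : Fin (2 * Y.dim + 1) => dz (hρ.mem m)) := by
    refine ⟨fun m => un_inj (hρ.idem m), fun m n hmn => un_inj ?_, un_inj ?_⟩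
    · rw [un_mul, un_dz, un_dz]
      exact hρ.orth n m fun h => hmn (Fin.ext h.symm)
    · rw [un_sum]
      simp only [un_dz]
      rw [Fin.sum_univ_eq_sum_range (fun m => ρ m) (2 * Y.dim + 1), hρ.sum]
      rfl
  obtain ⟨σ, hσ, hσf⟩ := Exch.exchange Finset.univ (fun j => dz (h.isLocal j).mem)
    (fun j _ => localIdem (h.isLocal j))
    (fun i _ j _ hij => un_inj (h.orth j i (Ne.symm hij))) hdec
  refine ⟨fun m => un (σ m), fun m => un_mem _, fun m => ?_, fun m n hmn => ?_, ?_, fun m => ?_⟩
  · rw [← un_mul, hσ.idem]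
  · rw [← un_mul, hσ.orth n m (Ne.symm hmn)]
    rfl
  · rw [← un_sum, hσ.sum]
    have h1 : un ((1 : deg0 C Y) - ∑ j, dz (h.isLocal j).mem) =
        C.diagC Y - un (∑ j, dz (h.isLocal j).mem) := rfl
    rw [h1, un_sum]
    simp only [un_dz]
    rw [← h.sum, add_sub_cancel_right]
  · obtain ⟨x, y, hxy⟩ := hσf m
    refine ⟨un x, un_mem x, un y, un_mem y, ?_⟩
    change un (σ m) = _
    rw [hxy, un_mul, un_mul, un_dz, C.comp_assoc]

/-- If `Y` has a Chow–Künneth decomposition, then so has `X`. -/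
theorem hasCK_left (h : C.LocalComplement c c' α β e) (hY : W.HasCK Y) : W.HasCK X := by
  obtain ⟨ρ, hρ⟩ := hY
  obtain ⟨s, hs1, hs2, hs3, hs4, hs5⟩ := h.exists_pieces hρ
  have hp : ∀ m, C.comp (s m) (C.comp β α) = s m := by
    intro m
    rw [← hs4, C.comp_sum, Finset.sum_eq_single m, hs2]
    · intro n _ hn; exact hs3 m n (Ne.symm hn)
    · intro hm; exact absurd (Finset.mem_univ m) hm
  have hmul : ∀ m n, C.comp (C.comp (C.comp α (s m)) β) (C.comp (C.comp α (s n)) β) =
      C.comp (C.comp α (C.comp (s m) (s n))) β := by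
    intro m n
    calc _ = C.comp (C.comp α (C.comp (C.comp (s m) (C.comp β α)) (s n))) β := by
          simp only [C.comp_assoc]
      _ = _ := by rw [hp]
  refine WeilTheory.hasCK_of_pure (t := fun m => C.comp (C.comp α (s m)) β)
    (fun m => C.comp_mem (C.comp_mem h.mem_left (hs1 m) rfl) h.mem_right (by
      have := h.degree; omega))
    (fun m => by rw [hmul, hs2]) (fun m n hmn => by
      rw [hmul, hs3 m n hmn, C.comp_zero, C.zero_comp]) ?_ (fun m => m + 2 * X.dim - 2 * c)
    (fun m l hl a ha => ?_)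
  · rw [← C.sum_comp, ← C.comp_sum, hs4]
    calc C.comp (C.comp α (C.comp β α)) β = C.comp (C.comp α β) (C.comp α β) := by
          simp only [C.comp_assoc]
      _ = C.diagC X := by rw [h.comp_eq, C.diagC_comp]
  · rw [W.act_comp _ h.mem_right, W.act_comp _ (hs1 m)]
    by_cases hlc : l + 2 * c < 2 * X.dim
    · rw [W.act_eq_zero h.mem_left ha hlc, map_zero, map_zero]
    · have hw : W.act α a ∈ W.gr Y (l + 2 * c - 2 * X.dim) :=
        W.act_mem h.mem_left ha (by omega)
      obtain ⟨x, hx, y, hy, hxy⟩ := hs5 m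
      rw [hxy, W.act_comp _ hx, W.act_comp _ (hρ.mem m)]
      have hw' : W.act y (W.act α a) ∈ W.gr Y (l + 2 * c - 2 * X.dim) :=
        W.act_mem hy hw (by omega)
      rw [hρ.proj m _ _ hw', if_neg (by omega), map_zero, map_zero]

/-- If `Y` has a Chow–Künneth decomposition, then the complementary motives are pure. -/
theorem isPure (h : C.LocalComplement c c' α β e) (hY : W.HasCK Y) (j : Fin r) :
    W.IsPure (e j) := by
  obtain ⟨ρ, hρ⟩ := hY
  have he := localIdem (h.isLocal j)
  set E := dz (h.isLocal j).mem with hE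
  set R : Fin (2 * Y.dim + 1) → deg0 C Y := fun m => dz (hρ.mem m) with hR
  have hR1 : ∑ m, R m = 1 := by
    apply un_inj
    rw [un_sum]
    simp only [hR, un_dz]
    rw [Fin.sum_univ_eq_sum_range (fun m => ρ m) (2 * Y.dim + 1), hρ.sum]
    rfl
  have hs : ∑ m, E * R m * E = E := by
    rw [← Finset.sum_mul, ← Finset.mul_sum, hR1, mul_one, he.idem]
  obtain ⟨m, -, u, hu1, hu2, hwu, huw⟩ := he.exists_unit Finset.univ (fun m => E * R m * E)
    (fun m => ⟨by rw [← mul_assoc, ← mul_assoc, he.idem], by rw [mul_assoc, he.idem]⟩)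
    ⟨E, he.idem, he.idem, by rw [hs, he.idem], by rw [hs, he.idem]⟩
  refine ⟨m, fun l hl a ha => ?_⟩
  have h1 : C.comp (un u) (C.comp (e j) (C.comp (ρ m) (e j))) = e j := congrArg un hwu
  have he' := (h.isLocal j).mem
  rw [← h1, W.act_comp _ (C.comp_mem he' (C.comp_mem (hρ.mem m) he' rfl) rfl),
    W.act_comp _ (C.comp_mem (hρ.mem m) he' rfl), W.act_comp _ he']
  have hw : W.act (e j) (W.act (un u) a) ∈ W.gr Y l :=
    W.act_mem he' (W.act_mem (un_mem u) ha rfl) rfl
  rw [hρ.proj m _ _ hw, if_neg hl, map_zero]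

/-- If `X` has a Chow–Künneth decomposition and the complementary motives are pure, then `Y` has
one. -/
theorem hasCK_right (h : C.LocalComplement c c' α β e) (hX : W.HasCK X)
    (hp : ∀ j, W.IsPure (e j)) : W.HasCK Y := by
  obtain ⟨π, hπ⟩ := hX
  choose n hn using hp
  have hmul : ∀ a b, C.comp (C.comp (C.comp β a) α) (C.comp (C.comp β b) α) =
      C.comp (C.comp β (C.comp a b)) α := by
    intro a b
    calc _ = C.comp (C.comp β (C.comp (C.comp a (C.comp α β)) b)) α := by
          simp only [C.comp_assoc]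
      _ = _ := by rw [h.comp_eq, C.comp_diagC]
  refine WeilTheory.hasCK_of_pure (κ := Fin (2 * X.dim + 1) ⊕ Fin r)
    (t := Sum.elim (fun i => C.comp (C.comp β (π i)) α) e) ?_ ?_ ?_ ?_
    (Sum.elim (fun i => i + 2 * c - 2 * X.dim) n) ?_
  · rintro (i | j)
    · exact C.comp_mem (C.comp_mem h.mem_right (hπ.mem i) rfl) h.mem_left (by
        have := h.degree; omega)
    · exact (h.isLocal j).mem
  · rintro (i | j)
    · change C.comp (C.comp (C.comp β (π i)) α) (C.comp (C.comp β (π i)) α) = _
      rw [hmul, hπ.idem]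
      rfl
    · exact (h.isLocal j).idem
  · rintro (i | i) (j | j) hij
    · change C.comp (C.comp (C.comp β (π i)) α) (C.comp (C.comp β (π j)) α) = 0
      rw [hmul, hπ.orth i j fun h => hij (by rw [Fin.ext h]), C.comp_zero, C.zero_comp]
    · change C.comp (C.comp (C.comp β (π i)) α) (e j) = 0
      rw [C.comp_assoc, h.alpha_comp_e, C.comp_zero]
    · change C.comp (e i) (C.comp (C.comp β (π j)) α) = 0
      rw [← C.comp_assoc, ← C.comp_assoc, h.e_comp_beta, C.zero_comp, C.zero_comp]
    · exact h.orth i j fun h => hij (by rw [h])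
  · rw [Fintype.sum_sum_type]
    simp only [Sum.elim_inl, Sum.elim_inr]
    rw [← C.sum_comp, ← C.comp_sum, Fin.sum_univ_eq_sum_range (fun m => π m) (2 * X.dim + 1),
      hπ.sum, C.comp_diagC, h.sum]
  · rintro (i | j) l hl a ha
    · change W.act (C.comp (C.comp β (π i)) α) a = 0
      have hl' : l ≠ i + 2 * c - 2 * X.dim := hl
      rw [W.act_comp _ h.mem_left, W.act_comp _ (hπ.mem i)]
      have hdeg := h.degree
      by_cases hlc : l + 2 * c' < 2 * Y.dim
      · rw [W.act_eq_zero h.mem_right ha hlc, map_zero, map_zero]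
      · have hw : W.act β a ∈ W.gr X (l + 2 * c' - 2 * Y.dim) :=
          W.act_mem h.mem_right ha (by omega)
        rw [hπ.proj i _ _ hw, if_neg (by omega), map_zero]
    · exact hn j l hl a ha

/-- Chow–Künneth decompositions of `X` and `Y`. -/
theorem hasCK_iff (h : C.LocalComplement c c' α β e) :
    W.HasCK Y ↔ W.HasCK X ∧ ∀ j, W.IsPure (e j) :=
  ⟨fun hY => ⟨h.hasCK_left hY, h.isPure hY⟩, fun hX => h.hasCK_right hX.1 hX.2⟩

end ChowTheory.LocalComplement

end Pool.Agent.R903
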