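import Pool.Agent.R903.CancelP
import Pool.Agent.R903.CancelBDefs

/-!
# Murre's conjecture (B) and complements with local endomorphism rings
-/

open CategoryTheory CategoryTheory.Limits AlgebraicGeometry
open Pool.Agent.H914 Pool.Agent.H914.VarClass Pool.Agent.H914.VarClass.Obj

universe u v w

namespace Pool.Agent.R903

variable {k : Type u} [Field k] {𝒱 : VarClass k} {C : ChowTheory.{u, v} 𝒱}

variable (C) in
lemma isFunctorial_gr : IsFunctorial C (fun Z i => C.gr Z i) where
  map := fun hγ _ _ hx => C.act_mem hγ hx rfl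

namespace WeilTheory

variable {W : WeilTheory.{u, v, w} C} {X : 𝒱.Obj} {π : ℕ → C.CH (X.prod X)}

lemma ckFil_last_iff (h : W.IsCK X π) {i : ℕ} :
    C.ckFil π i (i + 1) = ⊥ ↔ ∀ m < i, ∀ x ∈ C.gr X i, C.act (π m) x = 0 := by
  constructor
  · intro h1 m hm x hx
    have h2 : C.act (π m) x ∈ C.ckFil π i (i + 1) := by
      rw [mem_ckFil h]
      refine ⟨C.act_mem (h.mem m) hx rfl, fun b hb => ?_⟩
      rw [h.act_act, if_neg (by omega)]
    rwa [h1, Submodule.mem_bot] at h2
  · intro h1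
    rw [Submodule.eq_bot_iff]
    intro x hx
    rw [mem_ckFil h] at hx
    rw [← h.sum_act x]
    refine Finset.sum_eq_zero fun b _ => ?_
    by_cases hb : b < i
    · exact h1 b hb x hx.1
    · exact hx.2 b (by omega)

lemma kills_gr_iff (h : W.IsCK X π) :
    Kills (fun Z i => C.gr Z i) (fun m i => m < i ∨ 2 * i < m) π ↔
      ∀ i, C.ckFil π i 0 = C.gr X i ∧ C.ckFil π i (i + 1) = ⊥ := by
  constructor
  · intro hK i
    rw [ckFil_zero_eq_iff h, ckFil_last_iff h]
    exact ⟨fun b hb x hx => hK b i (Or.inr hb) x hx, fun m hm x hx => hK m i (Or.inl hm) x hx⟩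
  · intro hB m i hmi x hx
    obtain ⟨h1, h2⟩ := hB i
    rw [ckFil_zero_eq_iff h] at h1
    rw [ckFil_last_iff h] at h2
    rcases hmi with hmi | hmi
    · exact h2 m hmi x hx
    · exact h1 m hmi x hx

lemma murreB_iff_kills : W.MurreB X ↔ ∀ π : ℕ → C.CH (X.prod X), W.IsCK X π →
    Kills (fun Z i => C.gr Z i) (fun m i => m < i ∨ 2 * i < m) π :=
  ⟨fun h π hπ => (kills_gr_iff hπ).2 (h π hπ), fun h π hπ => (kills_gr_iff hπ).1 (h π hπ)⟩

end WeilTheory

namespace ChowTheory.LocalComplement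

variable {W : WeilTheory.{u, v, w} C} {X Y : 𝒱.Obj} {α : C.CH (X.prod Y)}
  {β : C.CH (Y.prod X)} {r : ℕ} {e : Fin r → C.CH (Y.prod Y)}

/-- (B) passes from `X` and the complementary motives to `Y`. -/
theorem murreB_right (h : C.LocalComplement X.dim Y.dim α β e) (hdim : X.dim = Y.dim)
    (hX : W.MurreB X) (he : ∀ j, W.PieceB (e j)) : W.MurreB Y := by
  rw [WeilTheory.murreB_iff_kills] at hX ⊢
  exact h.kills_build (isFunctorial_gr C) hdim hX
    fun j n hn hp i hi x hx => he j n hn hp i hi x hx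

/-- (B) passes from `Y` to `X`. -/
theorem murreB_left (h : C.LocalComplement X.dim Y.dim α β e) (hdim : X.dim = Y.dim)
    (hpure : ∀ j, W.IsPure (e j)) (hY : W.MurreB Y) : W.MurreB X := by
  by_cases hX : W.HasCK X
  · rw [WeilTheory.murreB_iff_kills] at hY ⊢
    exact (h.kills_of (isFunctorial_gr C) hdim hX hpure hY).1
  · intro π hπ
    exact absurd ⟨π, hπ⟩ hX

/-- (B) for `Y`, `X` and the complementary motives. -/
theorem murreB_iff (h : C.LocalComplement X.dim Y.dim α β e) (hdim : X.dim = Y.dim)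
    (hX : W.HasCK X) (hpure : ∀ j, W.IsPure (e j)) :
    W.MurreB Y ↔ W.MurreB X ∧ ∀ j, W.PieceB (e j) := by
  refine ⟨fun hY => ⟨h.murreB_left hdim hpure hY, ?_⟩, fun h1 => h.murreB_right hdim h1.1 h1.2⟩
  rw [WeilTheory.murreB_iff_kills] at hY
  exact fun j n hn hp i hi x hx => (h.kills_of (isFunctorial_gr C) hdim hX hpure hY).2
    j n hn hp i hi x hx

end ChowTheory.LocalComplement

end Pool.Agent.R903
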