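import Pool.Agent.R903.CancelP
import Pool.Agent.R903.MurreD

/-!
# Murre's conjecture (D) and complements with local endomorphism rings
-/

open CategoryTheory CategoryTheory.Limits AlgebraicGeometry
open Pool.Agent.H914 Pool.Agent.H914.VarClass Pool.Agent.H914.VarClass.Obj

universe u v w

namespace Pool.Agent.R903

variable {k : Type u} [Field k] {𝒱 : VarClass k} {C : ChowTheory.{u, v} 𝒱}

/-- the homologically trivial classes -/
noncomputable def WeilTheory.homTriv (W : WeilTheory.{u, v, w} C) (Z : 𝒱.Obj) (i : ℕ) :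
    Submodule ℚ (C.CH Z) where
  carrier := {x | x ∈ C.gr Z i ∧ W.cl Z x = 0}
  add_mem' := fun ha hb => ⟨Submodule.add_mem _ ha.1 hb.1, by rw [map_add, ha.2, hb.2, add_zero]⟩
  zero_mem' := ⟨Submodule.zero_mem _, map_zero _⟩
  smul_mem' := fun q x hx => ⟨Submodule.smul_mem _ _ hx.1, by rw [W.cl_smul, hx.2, smul_zero]⟩

lemma WeilTheory.isFunctorial_homTriv (W : WeilTheory.{u, v, w} C) :
    IsFunctorial C W.homTriv where
  map := fun hγ i _ hx => ⟨C.act_mem hγ hx.1 rfl, by rw [W.cl_act, hx.2, map_zero]⟩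

lemma WeilTheory.kills_homTriv_iff {W : WeilTheory.{u, v, w} C} {X : 𝒱.Obj}
    {π : ℕ → C.CH (X.prod X)} (h : W.IsCK X π) :
    Kills W.homTriv (fun m i => 2 * i ≤ m) π ↔ ∀ i, W.FirstIsKernel π i := by
  constructor
  · intro hK i
    rw [h.firstIsKernel_iff]
    exact fun x hx h0 b hb => hK b i hb x ⟨hx, h0⟩
  · intro hD m i hmi x hx
    exact (h.firstIsKernel_iff.1 (hD i)) x hx.1 hx.2 m hmi

lemma WeilTheory.murreD_iff_kills {W : WeilTheory.{u, v, w} C} {X : 𝒱.Obj} :
    W.MurreD X ↔ ∀ π : ℕ → C.CH (X.prod X), W.IsCK X π →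
      Kills W.homTriv (fun m i => 2 * i ≤ m) π :=
  ⟨fun h π hπ => (kills_homTriv_iff hπ).2 (h π hπ),
    fun h π hπ => (kills_homTriv_iff hπ).1 (h π hπ)⟩

namespace ChowTheory.LocalComplement

variable {W : WeilTheory.{u, v, w} C} {X Y : 𝒱.Obj} {α : C.CH (X.prod Y)}
  {β : C.CH (Y.prod X)} {r : ℕ} {e : Fin r → C.CH (Y.prod Y)}

/-- (D) passes from `X` and the complementary motives to `Y`. -/
theorem murreD_right (h : C.LocalComplement X.dim Y.dim α β e) (hdim : X.dim = Y.dim)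
    (hX : W.MurreD X) (he : ∀ j, W.PieceD (e j)) : W.MurreD Y := by
  rw [WeilTheory.murreD_iff_kills] at hX ⊢
  exact h.kills_build W.isFunctorial_homTriv hdim hX
    fun j n hn hp i hi x hx => he j n hn hp i hi x hx.1 hx.2

/-- (D) passes from `Y` to `X`. -/
theorem murreD_left (h : C.LocalComplement X.dim Y.dim α β e) (hdim : X.dim = Y.dim)
    (hpure : ∀ j, W.IsPure (e j)) (hY : W.MurreD Y) : W.MurreD X := by
  by_cases hX : W.HasCK X
  · rw [WeilTheory.murreD_iff_kills] at hY ⊢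
    exact (h.kills_of W.isFunctorial_homTriv hdim hX hpure hY).1
  · intro π hπ
    exact absurd ⟨π, hπ⟩ hX

/-- (D) for `Y`, `X` and the complementary motives. -/
theorem murreD_iff (h : C.LocalComplement X.dim Y.dim α β e) (hdim : X.dim = Y.dim)
    (hX : W.HasCK X) (hpure : ∀ j, W.IsPure (e j)) :
    W.MurreD Y ↔ W.MurreD X ∧ ∀ j, W.PieceD (e j) := by
  refine ⟨fun hY => ⟨h.murreD_left hdim hpure hY, ?_⟩, fun h1 => h.murreD_right hdim h1.1 h1.2⟩
  rw [WeilTheory.murreD_iff_kills] at hY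
  exact fun j n hn hp i hi x hx h0 => (h.kills_of W.isFunctorial_homTriv hdim hX hpure hY).2
    j n hn hp i hi x ⟨hx, h0⟩

end ChowTheory.LocalComplement

end Pool.Agent.R903
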