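import Pool.Agent.R903.Chow

/-!
# Kernels on subspaces
-/

universe v w

namespace Pool.Agent.R903

variable {A : Type v} [CommRing A] [Algebra ℚ A] {H : Type w} [Ring H]

/-- `U'` is the kernel of `f` on `U`. -/
def IsKernelOn (f : A →+* H) (U U' : Submodule ℚ A) : Prop :=
  ∀ x, x ∈ U' ↔ x ∈ U ∧ f x = 0

end Pool.Agent.R903
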