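import Pool.Agent.R903.MurreDefs
import Pool.Agent.R903.KerDefs

/-!
# Murre's conjecture (D): definitions
-/

open CategoryTheory CategoryTheory.Limits AlgebraicGeometry
open Pool.Agent.H914 Pool.Agent.H914.VarClass Pool.Agent.H914.VarClass.Obj

universe u v w

namespace Pool.Agent.R903

variable {k : Type u} [Field k] {𝒱 : VarClass k} {C : ChowTheory.{u, v} 𝒱}

/-- (D) for `X`, codimension `i` and the decomposition `π`: `F^1 CH^i(X)` is the kernel of the cycle
class map on `CH^i(X)`. -/
def WeilTheory.FirstIsKernel (W : WeilTheory.{u, v, w} C) {X : 𝒱.Obj} (π : ℕ → C.CH (X.prod X))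
    (i : ℕ) : Prop :=
  IsKernelOn (W.cl X) (C.gr X i) (C.ckFil π i 1)

/-- Murre's conjecture (D) for `X`: for each Chow–Künneth decomposition of `X` and each `i` the
group `F^1 CH^i(X)` is the kernel of the cycle class map on `CH^i(X)`. -/
def WeilTheory.MurreD (W : WeilTheory.{u, v, w} C) (X : 𝒱.Obj) : Prop :=
  ∀ π : ℕ → C.CH (X.prod X), W.IsCK X π → ∀ i, W.FirstIsKernel π i

/-- The homologically trivial correspondences of degree zero strictly lower the index: if `γ` in
`CH^(dim X)(X × X)` acts as zero on the cohomology, then `π' b ∘ γ ∘ π a = 0` for all `a ≤ b`. -/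
def WeilTheory.LowersIndex (W : WeilTheory.{u, v, w} C) {X : 𝒱.Obj}
    (π π' : ℕ → C.CH (X.prod X)) : Prop :=
  ∀ γ ∈ C.gr (X.prod X) X.dim, IsZeroMap (W.act γ) → ∀ a b, a ≤ b →
    C.comp (C.comp (π a) γ) (π' b) = 0

end Pool.Agent.R903
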