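import Pool.Agent.R903.CancelDefs
import Pool.Agent.R903.MurreDDefs

/-!
# Murre's conjecture (D) for direct summands: definitions
-/

open CategoryTheory CategoryTheory.Limits AlgebraicGeometry
open Pool.Agent.H914 Pool.Agent.H914.VarClass Pool.Agent.H914.VarClass.Obj

universe u v w

namespace Pool.Agent.R903

/-- `T` kills `gr l` for all `l ≠ n`. -/
def IsConcentrated {K : Type w} [Field K] {V : Type w} [AddCommGroup V] [Module K V]
    (gr : ℕ → Submodule K V) (n : ℕ) (T : V →ₗ[K] V) : Prop :=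
  ∀ l, l ≠ n → ∀ a ∈ gr l, T a = 0

/-- `T` kills the kernel of `f` on `U`. -/
def KillsKernel {A : Type v} [CommRing A] [Algebra ℚ A] {H : Type w} [Ring H] (f : A →+* H)
    (U : Submodule ℚ A) (T : A →ₗ[ℚ] A) : Prop :=
  ∀ x ∈ U, f x = 0 → T x = 0

variable {k : Type u} [Field k] {𝒱 : VarClass k}

/-- The cohomology of the motive `(Y, e)` is concentrated in degree `n`. -/
def WeilTheory.PureIn {C : ChowTheory.{u, v} 𝒱} (W : WeilTheory.{u, v, w} C) {Y : 𝒱.Obj}
    (e : C.CH (Y.prod Y)) (n : ℕ) : Prop :=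
  IsConcentrated (W.gr Y) n (W.act e)

/-- (D) for the motive `(Y, e)`: if its cohomology is concentrated in degree `n ≤ 2 dim Y`, then `e`
kills the homologically trivial classes in `CH^i(Y)` for all `i` with `2 i ≤ n`. -/
def WeilTheory.PieceD {C : ChowTheory.{u, v} 𝒱} (W : WeilTheory.{u, v, w} C) {Y : 𝒱.Obj}
    (e : C.CH (Y.prod Y)) : Prop :=
  ∀ n ≤ 2 * Y.dim, W.PureIn e n → ∀ i, 2 * i ≤ n → KillsKernel (W.cl Y) (C.gr Y i) (C.act e)

end Pool.Agent.R903
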