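import Pool.Agent.R903.MurreDefs

/-!
# Motives with local endomorphism rings: definitions
-/

open CategoryTheory CategoryTheory.Limits AlgebraicGeometry
open Pool.Agent.H914 Pool.Agent.H914.VarClass Pool.Agent.H914.VarClass.Obj

universe u v w

namespace Pool.Agent.R903

variable {k : Type u} [Field k] {𝒱 : VarClass k}

/-- `x` is an automorphism of the motive `(Y, e)`: it has an inverse `u` in the ring
`e ∘ CH^(dim Y)(Y × Y) ∘ e` of endomorphisms of `(Y, e)`. -/
def ChowTheory.InvertibleIn (C : ChowTheory.{u, v} 𝒱) {Y : 𝒱.Obj} (e x : C.CH (Y.prod Y)) : Prop :=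
  ∃ u ∈ C.gr (Y.prod Y) Y.dim, C.comp e u = u ∧ C.comp u e = u ∧ C.comp x u = e ∧ C.comp u x = e

/-- `e` is a nonzero idempotent correspondence in `CH^(dim Y)(Y × Y)`, and the ring of endomorphisms
of the motive `(Y, e)` is local: for each endomorphism `x`, one of `x`, `1 - x` is invertible. -/
structure ChowTheory.IsLocalMotive (C : ChowTheory.{u, v} 𝒱) {Y : 𝒱.Obj} (e : C.CH (Y.prod Y)) :
    Prop where
  mem : e ∈ C.gr (Y.prod Y) Y.dim
  idem : C.comp e e = e
  ne_zero : e ≠ 0
  isLocal : ∀ x ∈ C.gr (Y.prod Y) Y.dim, C.comp e x = x → C.comp x e = x →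
    C.InvertibleIn e x ∨ C.InvertibleIn e (e - x)

/-- `h(Y)` is, via `α` and `β`, the direct sum of a Tate twist of `h(X)` and of the motives
`(Y, e j)`, whose endomorphism rings are local: `α` and `β` are correspondences of opposite degrees
from `X` to `Y` and from `Y` to `X` with `β ∘ α = Δ_X`, and the idempotent `Δ_Y - α ∘ β` is the sum
of the orthogonal idempotents `e j`. -/
structure ChowTheory.LocalComplement (C : ChowTheory.{u, v} 𝒱) {X Y : 𝒱.Obj} (c c' : ℕ)
    (α : C.CH (X.prod Y)) (β : C.CH (Y.prod X)) {r : ℕ} (e : Fin r → C.CH (Y.prod Y)) : Prop where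
  mem_left : α ∈ C.gr (X.prod Y) c
  mem_right : β ∈ C.gr (Y.prod X) c'
  degree : c + c' = X.dim + Y.dim
  comp_eq : C.comp α β = C.diagC X
  isLocal : ∀ j, C.IsLocalMotive (e j)
  orth : ∀ i j, i ≠ j → C.comp (e i) (e j) = 0
  sum : C.comp β α + ∑ j, e j = C.diagC Y

/-- The cohomology of the motive `(Y, e)` is concentrated in one degree. -/
def WeilTheory.IsPure {C : ChowTheory.{u, v} 𝒱} (W : WeilTheory.{u, v, w} C) {Y : 𝒱.Obj}
    (e : C.CH (Y.prod Y)) : Prop :=
  ∃ n : ℕ, ∀ l, l ≠ n → ∀ v ∈ W.gr Y l, W.act e v = 0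

end Pool.Agent.R903
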