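import Pool.Agent.R903.Exch

/-!
# Exchange of idempotents with local endomorphism rings: comparison of the pieces
-/

namespace Pool.Agent.R903.Exch

variable {A : Type*} [Ring A] {ι : Type*} [Fintype ι] [DecidableEq ι]

/-- Exchange of one idempotent with a local endomorphism ring. -/
theorem exchange_one' {q e : A} {ρ : ι → A} (h : IsDec q ρ) (he : LocalIdem e) (hqe : q * e = e)
    (heq : e * q = e) :
    ∃ (ρ' : ι → A) (i₀ : ι), IsDec (q - e) ρ' ∧ (∀ i, ∃ x y, ρ' i = x * ρ i * y) ∧
      (∃ x y, e = x * ρ i₀ * y) ∧ (∀ i, i ≠ i₀ → ∃ x y, ρ i = x * ρ' i * y) ∧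
      ∃ x y x' y', ρ i₀ = x * ρ' i₀ * y + x' * e * y' := by
  have hqq : q * q = q := by
    conv_lhs => rw [← h.sum, Finset.sum_mul, h.sum]
    rw [← h.sum]
    refine Finset.sum_congr rfl fun i _ => ?_
    rw [h.sum, h.mul_right]
  obtain ⟨i, -, u, hu1, hu2, hwu, huw⟩ := he.exists_unit Finset.univ (fun i => e * ρ i * e)
    (fun i => ⟨by rw [← mul_assoc, ← mul_assoc, he.idem], by rw [mul_assoc, he.idem]⟩)
    ⟨e, he.idem, he.idem, by
      rw [← Finset.sum_mul, ← Finset.mul_sum, h.sum, heq, he.idem, he.idem], by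
      rw [← Finset.sum_mul, ← Finset.mul_sum, h.sum, heq, he.idem, he.idem]⟩
  -- `u ρ_i u = u`
  have hup : u * ρ i * u = u := by
    calc u * ρ i * u = u * (e * ρ i * e) * u := by
          rw [← mul_assoc, ← mul_assoc, hu2, mul_assoc (u * ρ i), hu1]
      _ = u := by rw [huw, hu1]
  set g := u * ρ i with hg
  set q' := ρ i * u * ρ i with hq'
  have hge : g * e = e := by
    calc g * e = u * (e * ρ i * e) := by rw [← mul_assoc, ← mul_assoc, hu2]
      _ = e := huw
  have heg : e * g = g := by rw [hg, ← mul_assoc, hu1]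
  have hqu : q * u = u := by rw [← hu1, ← mul_assoc, hqe]
  have hqg : q * g = g := by rw [hg, ← mul_assoc, hqu]
  have hgq : g * q = g := by rw [hg, mul_assoc, h.mul_right]
  have hq'g : q' * g = q' := by
    calc ρ i * u * ρ i * (u * ρ i) = ρ i * (u * ρ i * u) * ρ i := by simp only [mul_assoc]
      _ = q' := by rw [hup]
  have hgq' : g * q' = g := by
    calc u * ρ i * (ρ i * u * ρ i) = u * (ρ i * ρ i) * u * ρ i := by simp only [mul_assoc]
      _ = u * ρ i * u * ρ i := by rw [h.idem]
      _ = g := by rw [hup]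
  have hqq' : q * q' = q' := by rw [hq', ← mul_assoc, ← mul_assoc, h.mul_left]
  have hq'q : q' * q = q' := by rw [hq', mul_assoc, h.mul_right]
  have hpq' : ρ i * q' = q' := by rw [hq', ← mul_assoc, ← mul_assoc, h.idem]
  have hq'p : q' * ρ i = q' := by rw [hq', mul_assoc, h.idem]
  have hq'q' : q' * q' = q' := by
    calc ρ i * u * ρ i * (ρ i * u * ρ i) = ρ i * u * (ρ i * ρ i) * u * ρ i := by
          simp only [mul_assoc]
      _ = ρ i * (u * ρ i * u) * ρ i := by rw [h.idem]; simp only [mul_assoc]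
      _ = q' := by rw [hup]
  set a := (q - e) * (q - q') with ha
  set b := q - g with hb
  have hab : a * b = q - e := by
    have h1 : (q - q') * (q - g) = q - g := by
      rw [sub_mul, mul_sub, mul_sub, hqq, hqg, hq'q, hq'g]; abel
    have h2 : (q - e) * (q - g) = q - e := by
      rw [sub_mul, mul_sub, mul_sub, hqq, hqg, heq, heg]; abel
    rw [ha, hb, mul_assoc, h1, h2]
  have hba : b * a = q - q' := by
    have h1 : (q - g) * (q - e) = q - g := by
      rw [sub_mul, mul_sub, mul_sub, hqq, hqe, hgq, hge]; abel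
    have h2 : (q - g) * (q - q') = q - q' := by
      rw [sub_mul, mul_sub, mul_sub, hqq, hqq', hgq, hgq']; abel
    rw [ha, hb, ← mul_assoc, h1, h2]
  have haq : a * (q - q') = a := by
    have h1 : (q - q') * (q - q') = q - q' := by
      rw [sub_mul, mul_sub, mul_sub, hqq, hqq', hq'q, hq'q']; abel
    rw [ha, mul_assoc, h1]
  -- the remaining pieces
  set σ : ι → A := fun j => if j = i then ρ i - q' else ρ j with hσ
  have hσi : σ i = ρ i - q' := if_pos rfl
  have hσj : ∀ j, j ≠ i → σ j = ρ j := fun j hj => if_neg hj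
  have hρσ : ∀ j, ρ j * σ j = σ j := by
    intro j
    by_cases hj : j = i
    · subst hj; rw [hσi, mul_sub, h.idem, hpq']
    · rw [hσj j hj, h.idem]
  have hσσ : ∀ j, σ j * σ j = σ j := by
    intro j
    by_cases hj : j = i
    · subst hj
      rw [hσi, sub_mul, mul_sub, mul_sub, h.idem, hpq', hq'p, hq'q']; abel
    · rw [hσj j hj, h.idem]
  have hσo : ∀ j l, j ≠ l → σ j * σ l = 0 := by
    intro j l hjl
    by_cases hj : j = i
    · subst hj
      rw [hσi, hσj l (Ne.symm hjl), sub_mul, h.orth j l hjl, ← hq'p, mul_assoc, h.orth j l hjl,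
        mul_zero, sub_zero]
    · by_cases hl : l = i
      · subst hl
        rw [hσi, hσj j hj, mul_sub, h.orth j l hjl, ← hpq', ← mul_assoc, h.orth j l hjl,
          zero_mul, sub_zero]
      · rw [hσj j hj, hσj l hl, h.orth j l hjl]
  have hσs : ∑ j, σ j = q - q' := by
    rw [← Finset.add_sum_erase _ _ (Finset.mem_univ i), hσi,
      Finset.sum_congr rfl fun j hj => hσj j (Finset.mem_erase.1 hj).1]
    have h1 : ρ i + ∑ j ∈ Finset.univ.erase i, ρ j = q := by
      rw [Finset.add_sum_erase _ _ (Finset.mem_univ i), h.sum]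
    rw [← h1]; abel
  have hσd : IsDec (q - q') σ := ⟨hσσ, hσo, hσs⟩
  have hback : ∀ j, b * (a * σ j * b) * a = σ j := by
    intro j
    calc b * (a * σ j * b) * a = (b * a) * σ j * (b * a) := by simp only [mul_assoc]
      _ = σ j := by rw [hba, hσd.mul_left, hσd.mul_right]
  refine ⟨fun j => a * σ j * b, i, ⟨fun j => ?_, fun j l hjl => ?_, ?_⟩, fun j =>
    ⟨a, σ j * b, ?_⟩, ⟨e, e * u, ?_⟩, fun j hj => ⟨b, a, ?_⟩, b, a, ρ i * u, ρ i, ?_⟩
  · calc a * σ j * b * (a * σ j * b) = a * σ j * (b * a) * σ j * b := by simp only [mul_assoc]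
      _ = a * σ j * b := by
        rw [hba, mul_assoc a, hσd.mul_right, mul_assoc a (σ j) (σ j), hσσ]
  · calc a * σ j * b * (a * σ l * b) = a * σ j * (b * a) * σ l * b := by simp only [mul_assoc]
      _ = 0 := by
        rw [hba, mul_assoc a, hσd.mul_right, mul_assoc a (σ j) (σ l), hσo j l hjl, mul_zero,
          zero_mul]
  · rw [← Finset.sum_mul, ← Finset.mul_sum, hσs, haq, hab]
  · calc a * σ j * b = a * (ρ j * σ j) * b := by rw [hρσ]
      _ = a * ρ j * (σ j * b) := by simp only [mul_assoc]
  · rw [← mul_assoc, hwu]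
  · change ρ j = b * (a * σ j * b) * a
    rw [hback, hσj j hj]
  · change ρ i = b * (a * σ i * b) * a + ρ i * u * e * ρ i
    rw [hback, hσi, mul_assoc (ρ i) u e, hu2, ← hq', sub_add_cancel]

/-- Exchange of a sum of idempotents with local endomorphism rings. -/
theorem exchange' {κ : Type*} [DecidableEq κ] (s : Finset κ) (e : κ → A)
    (he : ∀ j ∈ s, LocalIdem (e j))
    (horth : ∀ j ∈ s, ∀ l ∈ s, j ≠ l → e j * e l = 0) {ρ : ι → A} (h : IsDec 1 ρ) :
    ∃ (ρ' : ι → A) (τ : κ → ι → Prop), IsDec (1 - ∑ j ∈ s, e j) ρ' ∧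
      (∀ i, ∃ x y, ρ' i = x * ρ i * y) ∧ (∀ j ∈ s, ∀ i, τ j i → ∃ x y, e j = x * ρ i * y) ∧
      ∀ i, ∃ (a b : A) (x y : κ → A), (∀ j, ¬ τ j i → x j = 0) ∧
        ρ i = a * ρ' i * b + ∑ j ∈ s, x j * e j * y j := by
  classical
  induction s using Finset.induction_on with
  | empty =>
    refine ⟨ρ, fun _ _ => False, by rwa [Finset.sum_empty, sub_zero], fun i => ⟨1, 1, by
      rw [one_mul, mul_one]⟩, fun j hj => absurd hj (Finset.notMem_empty j), fun i =>
      ⟨1, 1, 0, 0, fun _ _ => rfl, ?_⟩⟩
    rw [Finset.sum_empty, one_mul, mul_one, add_zero]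
  | insert j s hj ih =>
    obtain ⟨ρ₁, τ, h1, h2, hτ, h2'⟩ := ih (fun l hl => he l (Finset.mem_insert_of_mem hl))
      (fun l hl m hm => horth l (Finset.mem_insert_of_mem hl) m (Finset.mem_insert_of_mem hm))
    have hj1 : (∑ l ∈ s, e l) * e j = 0 := by
      rw [Finset.sum_mul]
      exact Finset.sum_eq_zero fun l hl => horth l (Finset.mem_insert_of_mem hl) j
        (Finset.mem_insert_self j s) (fun h => hj (h ▸ hl))
    have hj2 : e j * (∑ l ∈ s, e l) = 0 := by
      rw [Finset.mul_sum]
      exact Finset.sum_eq_zero fun l hl => horth j (Finset.mem_insert_self j s) l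
        (Finset.mem_insert_of_mem hl) (fun h => hj (h ▸ hl))
    obtain ⟨ρ₂, i₀, h3, h4, ⟨x₀, y₀, h5⟩, h6, x₁, y₁, x₂, y₂, h7⟩ :=
      exchange_one' h1 (he j (Finset.mem_insert_self j s))
      (by rw [sub_mul, one_mul, hj1, sub_zero]) (by rw [mul_sub, mul_one, hj2, sub_zero])
    refine ⟨ρ₂, fun l i => if l = j then i = i₀ else τ l i, ?_, fun i => ?_, fun l hl i hli => ?_,
      fun i => ?_⟩
    · have h8 : (1 : A) - ∑ l ∈ insert j s, e l = 1 - ∑ l ∈ s, e l - e j := by
        rw [Finset.sum_insert hj]; abel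
      rw [h8]; exact h3
    · obtain ⟨x, y, hxy⟩ := h4 i
      obtain ⟨x', y', hxy'⟩ := h2 i
      refine ⟨x * x', y' * y, ?_⟩
      rw [hxy, hxy']
      simp only [mul_assoc]
    · beta_reduce at hli
      by_cases hlj : l = j
      · rw [if_pos hlj] at hli
        subst hli
        obtain ⟨x', y', hxy'⟩ := h2 i
        refine ⟨x₀ * x', y' * y₀, ?_⟩
        rw [hlj, h5, hxy']
        simp only [mul_assoc]
      · rw [if_neg hlj] at hli
        exact hτ l ((Finset.mem_insert.1 hl).resolve_left hlj) i hli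
    · obtain ⟨a, b, x, y, hx, hxy⟩ := h2' i
      by_cases hi : i = i₀
      · subst hi
        refine ⟨a * x₁, y₁ * b, fun l => if l = j then a * x₂ else x l,
          fun l => if l = j then y₂ * b else y l, fun l hl => ?_, ?_⟩
        · beta_reduce at hl
          by_cases hlj : l = j
          · rw [if_pos hlj] at hl
            exact absurd rfl hl
          · rw [if_neg hlj] at hl
            change (if l = j then _ else _) = (0 : A)
            rw [if_neg hlj, hx l hl]
        · beta_reduce
          rw [Finset.sum_insert hj, if_pos rfl, if_pos rfl]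
          have h8 : ∑ l ∈ s, (if l = j then a * x₂ else x l) * e l * (if l = j then y₂ * b else y l) =
              ∑ l ∈ s, x l * e l * y l := by
            refine Finset.sum_congr rfl fun l hl => ?_
            have hlj : l ≠ j := fun h => hj (h ▸ hl)
            rw [if_neg hlj, if_neg hlj]
          rw [h8, hxy]
          conv_lhs => rw [h7]
          rw [mul_add, add_mul]
          simp only [mul_assoc]
          abel
      · obtain ⟨x', y', h9⟩ := h6 i hi
        refine ⟨a * x', y' * b, fun l => if l = j then 0 else x l, y, fun l hl => ?_, ?_⟩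
        · beta_reduce at hl
          by_cases hlj : l = j
          · change (if l = j then _ else _) = (0 : A)
            rw [if_pos hlj]
          · rw [if_neg hlj] at hl
            change (if l = j then _ else _) = (0 : A)
            rw [if_neg hlj, hx l hl]
        · beta_reduce
          rw [Finset.sum_insert hj, if_pos rfl, zero_mul, zero_mul, zero_add]
          have h8 : ∑ l ∈ s, (if l = j then 0 else x l) * e l * y l =
              ∑ l ∈ s, x l * e l * y l := by
            refine Finset.sum_congr rfl fun l hl => ?_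
            have hlj : l ≠ j := fun h => hj (h ▸ hl)
            rw [if_neg hlj]
          rw [h8, hxy, h9]
          simp only [mul_assoc]

end Pool.Agent.R903.Exch
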