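import Pool.Agent.R903.Cancel
import Pool.Agent.R903.Exch2
import Pool.Agent.R903.CancelDDefs

/-!
# Properties of Chow–Künneth decompositions and complements with local endomorphism rings
-/

open CategoryTheory CategoryTheory.Limits AlgebraicGeometry
open Pool.Agent.H914 Pool.Agent.H914.VarClass Pool.Agent.H914.VarClass.Obj

universe u v w

namespace Pool.Agent.R903

variable {k : Type u} [Field k] {𝒱 : VarClass k} {C : ChowTheory.{u, v} 𝒱}

variable (C) in
/-- subspaces of the Chow groups which are preserved by the correspondences of degree zero -/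
structure IsFunctorial (V : ∀ Z : 𝒱.Obj, ℕ → Submodule ℚ (C.CH Z)) : Prop where
  map : ∀ {Z Z' : 𝒱.Obj} {γ : C.CH (Z.prod Z')}, γ ∈ C.gr (Z.prod Z') Z.dim → ∀ i, ∀ x ∈ V Z i,
    C.act γ x ∈ V Z' i

/-- The idempotents kill the subspaces. -/
def Kills (V : ∀ Z : 𝒱.Obj, ℕ → Submodule ℚ (C.CH Z)) (S : ℕ → ℕ → Prop) {Z : 𝒱.Obj}
    (π : ℕ → C.CH (Z.prod Z)) : Prop :=
  ∀ m i, S m i → ∀ x ∈ V Z i, C.act (π m) x = 0

namespace ChowTheory.LocalComplement

open CorrRing

variable {W : WeilTheory.{u, v, w} C} {X Y : 𝒱.Obj} {α : C.CH (X.prod Y)}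
  {β : C.CH (Y.prod X)} {r : ℕ} {e : Fin r → C.CH (Y.prod Y)}

lemma pureIn_of_isPure {e : C.CH (Y.prod Y)} (h : W.IsPure e) :
    ∃ n ≤ 2 * Y.dim, W.PureIn e n := by
  obtain ⟨n, hn⟩ := h
  by_cases h1 : n ≤ 2 * Y.dim
  · exact ⟨n, h1, hn⟩
  · refine ⟨0, Nat.zero_le _, fun l _ v hv => ?_⟩
    by_cases hl : l = n
    · subst hl
      rw [W.gr_eq_bot Y l (by omega), Submodule.mem_bot] at hv
      rw [hv, map_zero]
    · exact hn l hl v hv

/-- the decomposition of `Y` given by a decomposition of `X` and the pure motives -/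
theorem isCK_build (h : C.LocalComplement X.dim Y.dim α β e) (hdim : X.dim = Y.dim)
    {π : ℕ → C.CH (X.prod X)} (hπ : W.IsCK X π) {n : Fin r → ℕ} (hn : ∀ j, n j ≤ 2 * Y.dim)
    (hp : ∀ j, W.PureIn (e j) (n j)) :
    W.IsCK Y fun m => C.comp (C.comp β (π m)) α +
      ∑ j ∈ Finset.univ.filter (fun j => n j = m), e j := by
  have hAA : ∀ a b, C.comp (C.comp (C.comp β a) α) (C.comp (C.comp β b) α) =
      C.comp (C.comp β (C.comp a b)) α := by
    intro a b
    calc _ = C.comp (C.comp β (C.comp (C.comp a (C.comp α β)) b)) α := by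
          simp only [C.comp_assoc]
      _ = _ := by rw [h.comp_eq, C.comp_diagC]
  have hAE : ∀ a j, C.comp (C.comp (C.comp β a) α) (e j) = 0 := by
    intro a j
    rw [C.comp_assoc, h.alpha_comp_e, C.comp_zero]
  have hEA : ∀ a j, C.comp (e j) (C.comp (C.comp β a) α) = 0 := by
    intro a j
    rw [← C.comp_assoc, ← C.comp_assoc, h.e_comp_beta, C.zero_comp, C.zero_comp]
  have hEE : ∀ S T : Finset (Fin r), C.comp (∑ i ∈ S, e i) (∑ i ∈ T, e i) =
      ∑ i ∈ S ∩ T, e i := by
    intro S T
    rw [C.sum_comp]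
    have h1 : ∀ i ∈ S, C.comp (e i) (∑ j ∈ T, e j) = if i ∈ T then e i else 0 := by
      intro i _
      rw [C.comp_sum]
      by_cases hi : i ∈ T
      · rw [if_pos hi, Finset.sum_eq_single i, (h.isLocal i).idem]
        · intro j _ hj
          exact h.orth i j (Ne.symm hj)
        · intro h; exact absurd hi h
      · rw [if_neg hi]
        exact Finset.sum_eq_zero fun j hj => h.orth i j fun h => hi (h ▸ hj)
    rw [Finset.sum_congr rfl h1, ← Finset.sum_filter, Finset.filter_mem_eq_inter]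
  have hprod : ∀ a b (S T : Finset (Fin r)), C.comp (C.comp (C.comp β a) α + ∑ j ∈ S, e j)
      (C.comp (C.comp β b) α + ∑ j ∈ T, e j) =
      C.comp (C.comp β (C.comp a b)) α + ∑ j ∈ S ∩ T, e j := by
    intro a b S T
    rw [C.add_comp, C.comp_add, C.comp_add, hAA, hEE, C.comp_sum, C.sum_comp]
    rw [Finset.sum_eq_zero fun j _ => hAE a j, Finset.sum_eq_zero fun j _ => hEA b j, add_zero,
      zero_add]
  refine ⟨fun m => ?_, fun m => ?_, fun m m' hm => ?_, ?_, fun m l a ha => ?_⟩
  · exact Submodule.add_mem _ (C.comp_mem (C.comp_mem h.mem_right (hπ.mem m) rfl) h.mem_left rfl)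
      (Submodule.sum_mem _ fun j _ => (h.isLocal j).mem)
  · rw [hprod, hπ.idem, Finset.inter_self]
  · rw [hprod, hπ.orth m m' hm, C.comp_zero, C.zero_comp, zero_add]
    apply Finset.sum_eq_zero
    intro i hi
    rw [Finset.mem_inter, Finset.mem_filter, Finset.mem_filter] at hi
    exact absurd (hi.1.2.symm.trans hi.2.2) hm
  · rw [Finset.sum_add_distrib, ← C.sum_comp, ← C.comp_sum, ← hdim, hπ.sum, C.comp_diagC,
      Finset.sum_fiberwise_of_maps_to (fun j _ => Finset.mem_range.2 (by
        have := hn j; omega)) e, h.sum]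
  · rw [W.act_add, LinearMap.add_apply, W.act_sum, LinearMap.sum_apply, W.act_comp _ h.mem_left,
      W.act_comp _ (hπ.mem m)]
    have hb : W.act β a ∈ W.gr X l := W.act_mem h.mem_right ha rfl
    rw [hπ.proj m l _ hb]
    have hall : W.act α (W.act β a) + ∑ j, W.act (e j) a = a := by
      rw [← LinearMap.sum_apply, ← W.act_sum, ← W.act_comp _ h.mem_left, ← LinearMap.add_apply,
        ← W.act_add, h.sum, W.act_diagC]
    split_ifs with hlm
    · conv_rhs => rw [← hall]
      congr 1
      rw [Finset.sum_filter]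
      refine Finset.sum_congr rfl fun j _ => ?_
      split_ifs with h1
      · rfl
      · exact (hp j l (by omega) a ha).symm
    · rw [map_zero, zero_add]
      refine Finset.sum_eq_zero fun j hj => hp j l ?_ a ha
      rw [(Finset.mem_filter.1 hj).2]
      exact hlm

variable {V : ∀ Z : 𝒱.Obj, ℕ → Submodule ℚ (C.CH Z)} {S : ℕ → ℕ → Prop}

/-- The property passes from `Y` to `X` and to the complementary motives. -/
theorem kills_of (hV : IsFunctorial C V) (h : C.LocalComplement X.dim Y.dim α β e)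
    (hdim : X.dim = Y.dim) (hX : W.HasCK X) (hpure : ∀ j, W.IsPure (e j))
    (hY : ∀ ρ : ℕ → C.CH (Y.prod Y), W.IsCK Y ρ → Kills V S ρ) :
    (∀ π : ℕ → C.CH (X.prod X), W.IsCK X π → Kills V S π) ∧
    ∀ j, ∀ n ≤ 2 * Y.dim, W.PureIn (e j) n → ∀ i, S n i → ∀ x ∈ V Y i, C.act (e j) x = 0 := by
  choose n hn hp using fun j => pureIn_of_isPure (hpure j)
  constructor
  · intro π hπ m i hmi x hx
    have h1 := hY _ (h.isCK_build hdim hπ hn hp) m i hmi (C.act α x) (hV.map h.mem_left i x hx)
    have h2 : ∀ j, C.act (e j) (C.act α x) = 0 := by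
      intro j
      rw [← C.act_comp, h.alpha_comp_e, C.act_zero, LinearMap.zero_apply]
    rw [C.act_add, LinearMap.add_apply, C.act_sum, LinearMap.sum_apply,
      Finset.sum_eq_zero fun j _ => h2 j, add_zero, C.act_comp, C.act_comp, ← C.act_comp α β,
      h.comp_eq, C.act_diagC] at h1
    have h3 := congrArg (C.act β) h1
    rwa [map_zero, ← C.act_comp α β, h.comp_eq, C.act_diagC] at h3
  · intro j m hm hj i hmi x hx
    obtain ⟨π, hπ⟩ := hX
    have h1 := hY _ (h.isCK_build hdim hπ (n := Function.update n j m) (fun l => by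
      by_cases hl : l = j
      · rw [hl, Function.update_self]; exact hm
      · rw [Function.update_of_ne hl]; exact hn l) (fun l => by
      by_cases hl : l = j
      · rw [hl, Function.update_self]; exact hj
      · rw [Function.update_of_ne hl]; exact hp l)) m i hmi x hx
    have h2 := congrArg (C.act (e j)) h1
    rw [map_zero, ← C.act_comp, C.add_comp, C.comp_assoc, h.alpha_comp_e, C.comp_zero, zero_add,
      C.sum_comp, Finset.sum_eq_single j, (h.isLocal j).idem] at h2
    · exact h2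
    · intro l _ hl; exact h.orth l j hl
    · intro hj'
      exact absurd (Finset.mem_filter.2 ⟨Finset.mem_univ j, Function.update_self j m n⟩) hj'

/-- The property passes from `X` and the complementary motives to `Y`. -/
theorem kills_build (hV : IsFunctorial C V) (h : C.LocalComplement X.dim Y.dim α β e)
    (hdim : X.dim = Y.dim) (hX : ∀ π : ℕ → C.CH (X.prod X), W.IsCK X π → Kills V S π)
    (he : ∀ j, ∀ n ≤ 2 * Y.dim, W.PureIn (e j) n → ∀ i, S n i → ∀ x ∈ V Y i,
      C.act (e j) x = 0) (ρ : ℕ → C.CH (Y.prod Y)) (hρ : W.IsCK Y ρ) : Kills V S ρ := by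
  have hdec : Exch.IsDec (1 : deg0 C Y) (fun m : Fin (2 * Y.dim + 1) => dz (hρ.mem m)) := by
    refine ⟨fun m => un_inj (hρ.idem m), fun m n hmn => un_inj ?_, un_inj ?_⟩
    · rw [un_mul, un_dz, un_dz]
      exact hρ.orth n m fun h => hmn (Fin.ext h.symm)
    · rw [un_sum]
      simp only [un_dz]
      rw [Fin.sum_univ_eq_sum_range (fun m => ρ m) (2 * Y.dim + 1), hρ.sum]
      rfl
  obtain ⟨σ, τ, hσ, hσf, hτ, hback⟩ := Exch.exchange' Finset.univ
    (fun j => dz (h.isLocal j).mem) (fun j _ => localIdem (h.isLocal j))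
    (fun i _ j _ hij => un_inj (h.orth j i (Ne.symm hij))) hdec
  have hsum : ∑ m, un (σ m) = C.comp β α := by
    rw [← un_sum, hσ.sum]
    have h1 : un ((1 : deg0 C Y) - ∑ j, dz (h.isLocal j).mem) =
        C.diagC Y - un (∑ j, dz (h.isLocal j).mem) := rfl
    rw [h1, un_sum]
    simp only [un_dz]
    rw [← h.sum, add_sub_cancel_right]
  have hid : ∀ m, C.comp (un (σ m)) (un (σ m)) = un (σ m) := fun m => by
    rw [← un_mul, hσ.idem]
  have ho : ∀ m n, m ≠ n → C.comp (un (σ m)) (un (σ n)) = 0 := fun m n hmn => by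
    rw [← un_mul, hσ.orth n m (Ne.symm hmn)]
    rfl
  have hp1 : ∀ m, C.comp (un (σ m)) (C.comp β α) = un (σ m) := by
    intro m
    rw [← hsum, C.comp_sum, Finset.sum_eq_single m, hid]
    · intro n _ hn; exact ho m n (Ne.symm hn)
    · intro hm; exact absurd (Finset.mem_univ m) hm
  have hp2 : ∀ m, C.comp (C.comp β α) (un (σ m)) = un (σ m) := by
    intro m
    rw [← hsum, C.sum_comp, Finset.sum_eq_single m, hid]
    · intro n _ hn; exact ho n m hn
    · intro hm; exact absurd (Finset.mem_univ m) hm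
  have hmul : ∀ m n, C.comp (C.comp (C.comp α (un (σ m))) β) (C.comp (C.comp α (un (σ n))) β) =
      C.comp (C.comp α (C.comp (un (σ m)) (un (σ n)))) β := by
    intro m n
    calc _ = C.comp (C.comp α (C.comp (C.comp (un (σ m)) (C.comp β α)) (un (σ n)))) β := by
          simp only [C.comp_assoc]
      _ = _ := by rw [hp1]
  -- the degrees of the pieces
  have hpiece : ∀ (z : deg0 C Y) (m : Fin (2 * Y.dim + 1)),
      (∃ x y, z = x * dz (hρ.mem m) * y) → W.PureIn (un z) m := by
    rintro z m ⟨x, y, rfl⟩ l hl a ha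
    rw [un_mul, un_mul, un_dz, W.act_comp _ (C.comp_mem (hρ.mem m) (un_mem x) rfl),
      W.act_comp _ (un_mem x)]
    have hw : W.act (un y) a ∈ W.gr Y l := W.act_mem (un_mem y) ha rfl
    rw [hρ.proj m _ _ hw, if_neg hl, map_zero]
  -- the decomposition of `X`
  set π : ℕ → C.CH (X.prod X) := fun m =>
    if hm : m < 2 * Y.dim + 1 then C.comp (C.comp α (un (σ ⟨m, hm⟩))) β else 0 with hπdef
  have hπm : ∀ m : Fin (2 * Y.dim + 1), π m = C.comp (C.comp α (un (σ m))) β := by
    intro m
    simp only [hπdef]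
    rw [dif_pos m.2]
  have hπ0 : ∀ m, ¬ m < 2 * Y.dim + 1 → π m = 0 := fun m hm => dif_neg hm
  have hπ : W.IsCK X π := by
    refine ⟨fun m => ?_, fun m => ?_, fun m n hmn => ?_, ?_, fun m l a ha => ?_⟩
    · by_cases hm : m < 2 * Y.dim + 1
      · rw [hπm ⟨m, hm⟩]
        exact C.comp_mem (C.comp_mem h.mem_left (un_mem _) rfl) h.mem_right rfl
      · rw [hπ0 m hm]; exact Submodule.zero_mem _
    · by_cases hm : m < 2 * Y.dim + 1
      · rw [hπm ⟨m, hm⟩, hmul, hid]
      · rw [hπ0 m hm, C.comp_zero]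
    · by_cases hm : m < 2 * Y.dim + 1
      · by_cases hn : n < 2 * Y.dim + 1
        · rw [hπm ⟨m, hm⟩, hπm ⟨n, hn⟩, hmul, ho _ _ (fun h => hmn (congrArg Fin.val h)),
            C.comp_zero, C.zero_comp]
        · rw [hπ0 n hn, C.comp_zero]
      · rw [hπ0 m hm, C.zero_comp]
    · rw [hdim, ← Fin.sum_univ_eq_sum_range (fun m => π m) (2 * Y.dim + 1)]
      simp only [hπm]
      rw [← C.sum_comp, ← C.comp_sum, hsum]
      calc C.comp (C.comp α (C.comp β α)) β = C.comp (C.comp α β) (C.comp α β) := by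
            simp only [C.comp_assoc]
        _ = C.diagC X := by rw [h.comp_eq, C.diagC_comp]
    · by_cases hl : l < 2 * Y.dim + 1
      · have hz : ∀ m : Fin (2 * Y.dim + 1), (m : ℕ) ≠ l → W.act (π m) a = 0 := by
          intro m hml
          rw [hπm, W.act_comp _ h.mem_right, W.act_comp _ (un_mem _)]
          rw [hpiece _ m (hσf m) l (Ne.symm hml) _ (W.act_mem h.mem_left ha rfl), map_zero]
        have hall : ∑ m : Fin (2 * Y.dim + 1), W.act (π m) a = a := by
          rw [← LinearMap.sum_apply, ← W.act_sum]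
          simp only [hπm]
          rw [← C.sum_comp, ← C.comp_sum, hsum]
          have h1 : C.comp (C.comp α (C.comp β α)) β = C.diagC X := by
            calc C.comp (C.comp α (C.comp β α)) β = C.comp (C.comp α β) (C.comp α β) := by
                  simp only [C.comp_assoc]
              _ = C.diagC X := by rw [h.comp_eq, C.diagC_comp]
          rw [h1, W.act_diagC]
        split_ifs with hlm
        · subst hlm
          conv_rhs => rw [← hall]
          rw [Finset.sum_eq_single (⟨l, hl⟩ : Fin (2 * Y.dim + 1))]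
          · intro m _ hm
            exact hz m fun h => hm (Fin.ext h)
          · intro h; exact absurd (Finset.mem_univ _) h
        · by_cases hm : m < 2 * Y.dim + 1
          · exact hz ⟨m, hm⟩ (Ne.symm hlm)
          · rw [hπ0 m hm, W.act_zero, LinearMap.zero_apply]
      · rw [W.gr_eq_bot X l (by omega), Submodule.mem_bot] at ha
        rw [ha]
        simp
  intro m i hmi x hx
  by_cases hm : m < 2 * Y.dim + 1
  · obtain ⟨a, b, f, g, hf, hfg⟩ := hback ⟨m, hm⟩
    have h1 := congrArg (fun z => C.act (un z) x) hfg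
    have h2 : C.act (un (dz (hρ.mem m))) x = C.act (un (a * σ ⟨m, hm⟩ * b +
        ∑ j, f j * dz (h.isLocal j).mem * g j)) x := h1
    rw [un_dz] at h2
    rw [h2]
    have h3 : un (a * σ ⟨m, hm⟩ * b + ∑ j, f j * dz (h.isLocal j).mem * g j) =
        C.comp (un b) (C.comp (un (σ ⟨m, hm⟩)) (un a)) +
        ∑ j, C.comp (un (g j)) (C.comp (e j) (un (f j))) := by
      have h4 : un (a * σ ⟨m, hm⟩ * b + ∑ j, f j * dz (h.isLocal j).mem * g j) =
        un (a * σ ⟨m, hm⟩ * b) + un (∑ j, f j * dz (h.isLocal j).mem * g j) := rfl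
      rw [h4, un_sum]
      rfl
    rw [h3, C.act_add, LinearMap.add_apply, C.act_sum, LinearMap.sum_apply, C.act_comp,
      C.act_comp]
    have h5 : C.act (un (σ ⟨m, hm⟩)) (C.act (un b) x) = 0 := by
      have h6 : un (σ ⟨m, hm⟩) = C.comp (C.comp β (π m)) α := by
        rw [hπm ⟨m, hm⟩]
        calc un (σ ⟨m, hm⟩) = C.comp (C.comp (C.comp β α) (un (σ ⟨m, hm⟩))) (C.comp β α) := by
              rw [hp2, hp1]
          _ = _ := by simp only [C.comp_assoc]
      rw [h6, C.act_comp, C.act_comp, hX π hπ m i hmi _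
        (hV.map h.mem_right i _ (hV.map (un_mem b) i x hx)), map_zero]
    rw [h5, map_zero, zero_add]
    refine Finset.sum_eq_zero fun j _ => ?_
    rw [C.act_comp, C.act_comp]
    by_cases hj : τ j ⟨m, hm⟩
    · rw [he j m (by omega) (hpiece _ ⟨m, hm⟩ (hτ j (Finset.mem_univ j) _ hj)) i hmi _
        (hV.map (un_mem (g j)) i x hx), map_zero]
    · rw [hf j hj]
      change C.act (0 : C.CH (Y.prod Y)) _ = 0
      rw [C.act_zero, LinearMap.zero_apply]
  · rw [hρ.eq_zero (by omega : 2 * Y.dim < m), C.act_zero, LinearMap.zero_apply]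

end ChowTheory.LocalComplement

end Pool.Agent.R903
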