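import Pool.Agent.H914R2.Weil

/-!
# Chow groups of smooth projective varieties and Weil cohomology theories

`SmVar`, `VarClass` and the notion of Poincare algebra are those of the starting files
`Pool.Agent.H914R2.Var` and `Pool.Agent.H914R2.Weil`: a `VarClass k` is a class of smooth proper
geometrically irreducible schemes over the field `k` which is closed under products.
-/

open CategoryTheory AlgebraicGeometry
open Pool.Agent.H914 Pool.Agent.H914.VarClass Pool.Agent.H914.VarClass.Obj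

universe u v w

namespace Pool.Agent.R903

section Alg

variable {A : Type v} [CommRing A] [Algebra ℚ A] {B : Type v} [CommRing B] [Algebra ℚ B]

/-- The `ℚ`-algebra `A` with the subspaces `gr i` and the class map `cls` behaves like the Chow ring
of the variety `X`: `gr p` consists of the classes of the cycles of codimension `p`, `A` is their
direct sum, and it is a graded ring with unit the class of `X`. -/
structure IsChowRing {k : Type u} [Field k] (X : SmVar k) (gr : ℕ → Submodule ℚ A)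
    (cls : X.Cycles →ₗ[ℚ] A) : Prop where
  mem_gr : ∀ {p : ℕ} {x : A}, x ∈ gr p ↔ ∃ z, X.IsCyc p z ∧ cls z = x
  cls_fund : cls X.fundCycle = 1
  isInternal : DirectSum.IsInternal gr
  gr_eq_bot : ∀ i : ℕ, X.dim < i → gr i = ⊥
  mul_mem : ∀ {p q : ℕ} {x y : A}, x ∈ gr p → y ∈ gr q → x * y ∈ gr (p + q)

/-- `f` and `g` behave like the pull-back and the push-forward for a morphism from a variety of
dimension `dA` to a variety of dimension `dB`: `f` preserves codimensions, `g` preserves dimensions,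
and the projection formula holds. -/
structure IsPullPushCH (dA dB : ℕ) (grA : ℕ → Submodule ℚ A) (grB : ℕ → Submodule ℚ B)
    (f : B →ₐ[ℚ] A) (g : A →ₗ[ℚ] B) : Prop where
  pull_mem : ∀ {p : ℕ} {b : B}, b ∈ grB p → f b ∈ grA p
  push_mem : ∀ {p q : ℕ} {a : A}, a ∈ grA p → p + dB = q + dA → g a ∈ grB q
  push_eq_zero : ∀ {p : ℕ} {a : A}, a ∈ grA p → p + dB < dA → g a = 0
  push_mul : ∀ (a : A) (b : B), g (a * f b) = g a * b

end Alg

variable {k : Type u} [Field k]

/-- The data of an intersection theory on the varieties of the class `𝒱`: rings `CH X` with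
subspaces `gr X i = CH^i(X)`, classes of cycles, pull-backs, push-forwards and the degree. -/
structure ChowData (𝒱 : VarClass k) where
  /-- the ring `CH^*(X)`, with rational coefficients -/
  CH : 𝒱.Obj → Type v
  [ring : ∀ X, CommRing (CH X)]
  [algebra : ∀ X, Algebra ℚ (CH X)]
  /-- `gr X i` is `CH^i(X)` -/
  gr : ∀ X, ℕ → Submodule ℚ (CH X)
  /-- the class of a cycle -/
  cls : ∀ X : 𝒱.Obj, X.Cycles →ₗ[ℚ] CH X
  /-- pull-back `f^*` -/
  pull : ∀ {X Y : 𝒱.Obj}, (X ⟶ Y) → (CH Y →ₐ[ℚ] CH X)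
  /-- push-forward `f_*` -/
  push : ∀ {X Y : 𝒱.Obj}, (X ⟶ Y) → (CH X →ₗ[ℚ] CH Y)
  /-- the degree of zero-cycles -/
  deg : ∀ X, CH X →ₗ[ℚ] ℚ

attribute [instance] ChowData.ring ChowData.algebra

/-- Pull-back is a functor. -/
structure ChowData.PullFunctorial {𝒱 : VarClass k} (C : ChowData.{u, v} 𝒱) : Prop where
  pull_id : ∀ X : 𝒱.Obj, C.pull (𝟙 X) = AlgHom.id ℚ (C.CH X)
  pull_comp : ∀ {X Y Z : 𝒱.Obj} (f : X ⟶ Y) (g : Y ⟶ Z),
    C.pull (f ≫ g) = (C.pull f).comp (C.pull g)

/-- Push-forward is a functor. -/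
structure ChowData.PushFunctorial {𝒱 : VarClass k} (C : ChowData.{u, v} 𝒱) : Prop where
  push_id : ∀ X : 𝒱.Obj, C.push (𝟙 X) = LinearMap.id
  push_comp : ∀ {X Y Z : 𝒱.Obj} (f : X ⟶ Y) (g : Y ⟶ Z),
    C.push (f ≫ g) = C.push g ∘ₗ C.push f

/-- Base change for the projections `B × T → B`: if `B'` is `B × T` with the projections `b` and
`t`, and `A'` is `A × T` with the projections `a` and `f' ≫ t`, then `b^* f_* = f'_* a^*`. -/
def ChowData.BaseChange {𝒱 : VarClass k} (C : ChowData.{u, v} 𝒱) : Prop :=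
  ∀ {A B A' B' T : 𝒱.Obj} (f : A ⟶ B) (f' : A' ⟶ B') (a : A' ⟶ A) (b : B' ⟶ B)
    (t : B' ⟶ T), f' ≫ b = a ≫ f → IsIso (lift b t) → IsIso (lift a (f' ≫ t)) →
    ∀ x : C.CH A, C.pull b (C.push f x) = C.push f' (C.pull a x)

/-- The degree of `x` is the multiplicity of the push-forward of `x × [Y]` to `Y`. -/
def ChowData.DegreeFormula {𝒱 : VarClass k} (C : ChowData.{u, v} 𝒱) : Prop :=
  ∀ (X Y : 𝒱.Obj) (x : C.CH X),
    C.push (snd X Y) (C.pull (fst X Y) x) = algebraMap ℚ (C.CH Y) (C.deg X x)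

/-- An intersection theory on the varieties of the class `𝒱`, for example the Chow groups with
rational coefficients: all classes are classes of cycles, and pull-back, push-forward and product
have the usual properties. -/
structure ChowTheory (𝒱 : VarClass k) extends ChowData.{u, v} 𝒱 where
  isChowRing : ∀ X : 𝒱.Obj, IsChowRing X.V (gr X) (cls X)
  isPullPush : ∀ {X Y : 𝒱.Obj} (f : X ⟶ Y),
    IsPullPushCH X.dim Y.dim (gr X) (gr Y) (pull f) (push f)
  pullFunctorial : toChowData.PullFunctorial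
  pushFunctorial : toChowData.PushFunctorial
  baseChange : toChowData.BaseChange
  degreeFormula : toChowData.DegreeFormula

/-- Every variety has a divisor class with nonzero top self-intersection number: this holds for
projective varieties, by taking the class of an ample divisor. -/
def ChowTheory.Polarized {𝒱 : VarClass k} (C : ChowTheory.{u, v} 𝒱) : Prop :=
  ∀ X : 𝒱.Obj, ∃ D ∈ C.gr X 1, C.deg X (D ^ X.dim) ≠ 0

/-- The operator `x ↦ s(γ · p(x))`. -/
noncomputable def corrOpCH {A B D : Type v} [CommRing A] [Algebra ℚ A] [CommRing B] [Algebra ℚ B]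
    [CommRing D] [Algebra ℚ D] (p : A →ₐ[ℚ] D) (s : D →ₗ[ℚ] B) (γ : D) : A →ₗ[ℚ] B :=
  s ∘ₗ LinearMap.mulLeft ℚ γ ∘ₗ p.toLinearMap

/-- The operator `x ↦ p_{2*}(γ · p_1^* x)` from `CH(X)` to `CH(Y)` given by a correspondence. -/
noncomputable def ChowTheory.act {𝒱 : VarClass k} (C : ChowTheory.{u, v} 𝒱) {X Y : 𝒱.Obj}
    (γ : C.CH (X.prod Y)) : C.CH X →ₗ[ℚ] C.CH Y :=
  corrOpCH (C.pull (fst X Y)) (C.push (snd X Y)) γ

/-- The data of a Weil cohomology theory on the varieties of the class `𝒱`, with coefficients in a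
field `K` of characteristic zero and with cycle class maps defined on the Chow groups. -/
structure WeilDatum {𝒱 : VarClass k} (C : ChowData.{u, v} 𝒱) where
  /-- the coefficient field -/
  K : Type w
  [field : Field K]
  [charZero : CharZero K]
  /-- the cohomology algebra -/
  H : 𝒱.Obj → Type w
  [ring : ∀ X, Ring (H X)]
  [algebra : ∀ X, Algebra K (H X)]
  /-- `gr X i` is `H^i(X)` -/
  gr : ∀ X, ℕ → Submodule K (H X)
  /-- pull-back -/
  map : ∀ {X Y : 𝒱.Obj}, (X ⟶ Y) → (H Y →ₐ[K] H X)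
  /-- the orientation -/
  tr : ∀ X, H X →ₗ[K] K
  /-- push-forward -/
  push : ∀ {X Y : 𝒱.Obj}, (X ⟶ Y) → (H X →ₗ[K] H Y)
  /-- the cycle class map -/
  cl : ∀ X : 𝒱.Obj, C.CH X →+* H X

attribute [instance] WeilDatum.field WeilDatum.charZero WeilDatum.ring WeilDatum.algebra

/-- Pull-back in cohomology is a functor. -/
structure WeilDatum.MapFunctorial {𝒱 : VarClass k} {C : ChowData.{u, v} 𝒱}
    (W : WeilDatum.{u, v, w} C) : Prop where
  map_id : ∀ X : 𝒱.Obj, W.map (𝟙 X) = AlgHom.id W.K (W.H X)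
  map_comp : ∀ {X Y Z : 𝒱.Obj} (f : X ⟶ Y) (g : Y ⟶ Z),
    W.map (f ≫ g) = (W.map f).comp (W.map g)

section ClassMap

variable {A : Type v} [CommRing A] [Algebra ℚ A] {B : Type v} [CommRing B] [Algebra ℚ B]
  {K : Type w} [Field K] {HA : Type w} [Ring HA] [Algebra K HA] {HB : Type w} [Ring HB]
  [Algebra K HB]

/-- The homomorphism `cl` maps codimension `p` to degree `2p`, and the degree to the orientation. -/
structure IsClassMap (gr : ℕ → Submodule ℚ A) (deg : A →ₗ[ℚ] ℚ) (grH : ℕ → Submodule K HA)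
    (tr : HA →ₗ[K] K) (cl : A →+* HA) : Prop where
  cl_mem : ∀ {p : ℕ} {x : A}, x ∈ gr p → cl x ∈ grH (2 * p)
  tr_cl : ∀ x : A, tr (cl x) = (deg x : K)

/-- The homomorphisms `clA` and `clB` are compatible with pull-back and push-forward. -/
structure IsClassFunctorial (clA : A →+* HA) (clB : B →+* HB) (pull : B →ₐ[ℚ] A)
    (push : A →ₗ[ℚ] B) (map : HB →ₐ[K] HA) (pushH : HA →ₗ[K] HB) : Prop where
  cl_pull : ∀ y : B, clA (pull y) = map (clB y)
  cl_push : ∀ x : A, clB (push x) = pushH (clA x)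

end ClassMap

/-- A Weil cohomology theory on the varieties of the class `𝒱` (Tate twists are suppressed), with
cycle class maps defined on the Chow groups `C`: Poincare duality, functoriality, the Künneth
formula, and the compatibilities of the cycle class maps. -/
structure WeilTheory {𝒱 : VarClass k} (C : ChowTheory.{u, v} 𝒱) extends
    WeilDatum.{u, v, w} C.toChowData where
  isPoincareAlgebra : ∀ X, IsPoincareAlgebra (gr X) X.dim (tr X)
  mapFunctorial : toWeilDatum.MapFunctorial
  isPullPush : ∀ {X Y : 𝒱.Obj} (f : X ⟶ Y),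
    IsPullPush (gr X) (gr Y) (tr X) (tr Y) (map f) (push f)
  isKunneth : ∀ X Y : 𝒱.Obj, IsKunneth (map (fst X Y)) (map (snd X Y)) (tr X) (tr Y)
    (tr (X.prod Y))
  isClassMap : ∀ X, IsClassMap (C.gr X) (C.deg X) (gr X) (tr X) (cl X)
  isClassFunctorial : ∀ {X Y : 𝒱.Obj} (f : X ⟶ Y),
    IsClassFunctorial (cl X) (cl Y) (C.pull f) (C.push f) (map f) (push f)

variable {𝒱 : VarClass k} {C : ChowTheory.{u, v} 𝒱}

/-- The operator `a ↦ p_{2*}(cl(γ) · p_1^* a)` from `H(X)` to `H(Y)` given by a correspondence. -/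
noncomputable def WeilTheory.act (W : WeilTheory.{u, v, w} C) {X Y : 𝒱.Obj}
    (γ : C.CH (X.prod Y)) : W.H X →ₗ[W.K] W.H Y :=
  corrOp (W.map (fst X Y)) (W.push (snd X Y)) (W.cl _ γ)

section Alg

variable {K : Type w} [Field K] {V : Type w} [AddCommGroup V] [Module K V]

/-- `T` is the projector onto the subspace `gr j` of `V = ⨁ gr l`. -/
def IsProjector (gr : ℕ → Submodule K V) (j : ℕ) (T : V →ₗ[K] V) : Prop :=
  ∀ l, ∀ a ∈ gr l, T a = if l = j then a else 0

/-- `T` acts on `gr j` as multiplication by `j`, for all `j`. -/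
def ActsAsDegree (gr : ℕ → Submodule K V) (T : V →ₗ[K] V) : Prop :=
  ∀ j, ∀ a ∈ gr j, T a = (j : K) • a

end Alg

/-- The standard conjecture of Künneth type for the varieties of the class: for each `X` and `j`
there is a correspondence which acts on `H^j(X)` as the identity and on the other `H^l(X)` as
zero. -/
def WeilTheory.Kunneth (W : WeilTheory.{u, v, w} C) : Prop :=
  ∀ (X : 𝒱.Obj) (j : ℕ), ∃ π ∈ C.gr (X.prod X) X.dim, IsProjector (W.gr X) j (W.act π)

/-- `d` is a degree operator: a correspondence of degree zero from `X` to `X` which acts on `H^j(X)`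
as multiplication by `j`, for all `j`. -/
def WeilTheory.IsDegree (W : WeilTheory.{u, v, w} C) (X : 𝒱.Obj) (d : C.CH (X.prod X)) : Prop :=
  d ∈ C.gr (X.prod X) X.dim ∧ ActsAsDegree (W.gr X) (W.act d)

end Pool.Agent.R903
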