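import Pool.Agent.R903.Chow

/-!
# Composition of correspondences and Chow–Künneth decompositions: definitions
-/

open CategoryTheory CategoryTheory.Limits AlgebraicGeometry
open Pool.Agent.H914 Pool.Agent.H914.VarClass Pool.Agent.H914.VarClass.Obj

universe u v w

namespace Pool.Agent.R903

variable {k : Type u} [Field k] {𝒱 : VarClass k}

/-- `X × (Y × Z) → X × Y` -/
noncomputable def p12 (X Y Z : 𝒱.Obj) : X.prod (Y.prod Z) ⟶ X.prod Y :=
  lift (fst X (Y.prod Z)) (snd X (Y.prod Z) ≫ fst Y Z)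

/-- `X × (Y × Z) → X × Z` -/
noncomputable def p13 (X Y Z : 𝒱.Obj) : X.prod (Y.prod Z) ⟶ X.prod Z :=
  lift (fst X (Y.prod Z)) (snd X (Y.prod Z) ≫ snd Y Z)

/-- The class of the diagonal of `X`. -/
noncomputable def ChowTheory.diagC (C : ChowTheory.{u, v} 𝒱) (X : 𝒱.Obj) : C.CH (X.prod X) :=
  C.push (diag X) 1

/-- Composition of correspondences, first `α`, then `β`: `comp α β` is the correspondence `β ∘ α`,
that is `p13_*(p12^* α · p23^* β)`. -/
noncomputable def ChowTheory.comp (C : ChowTheory.{u, v} 𝒱) {X Y Z : 𝒱.Obj}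
    (α : C.CH (X.prod Y)) (β : C.CH (Y.prod Z)) : C.CH (X.prod Z) :=
  C.push (p13 X Y Z) (C.pull (p12 X Y Z) α * C.pull (snd X (Y.prod Z)) β)

variable {C : ChowTheory.{u, v} 𝒱}

/-- `π 0, …, π (2 dim X)` is a **Chow–Künneth decomposition** of `X`: mutually orthogonal
idempotent correspondences in `CH^(dim X)(X × X)` whose sum is the diagonal, such that `π j` acts on
`H^j(X)` as the identity and on `H^l(X)` as zero for `l ≠ j`. (The other `π j` are `0`, because they
are orthogonal to the diagonal.) -/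
structure WeilTheory.IsCK (W : WeilTheory.{u, v, w} C) (X : 𝒱.Obj) (π : ℕ → C.CH (X.prod X)) :
    Prop where
  mem : ∀ j, π j ∈ C.gr (X.prod X) X.dim
  idem : ∀ j, C.comp (π j) (π j) = π j
  orth : ∀ i j, i ≠ j → C.comp (π i) (π j) = 0
  sum : ∑ j ∈ Finset.range (2 * X.dim + 1), π j = C.diagC X
  proj : ∀ j, IsProjector (W.gr X) j (W.act (π j))

end Pool.Agent.R903
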