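import Pool.Agent.R903.PermMain

/-!
# Sums of motives with vanishing exterior or symmetric powers
-/

open CategoryTheory CategoryTheory.Limits AlgebraicGeometry
open Pool.Agent.H914 Pool.Agent.H914.VarClass Pool.Agent.H914.VarClass.Obj
open Equiv Equiv.Perm

universe u v w

namespace Pool.Agent.R903

namespace PermCore

section

variable {R : Type*} [CommRing R] [Algebra ℚ R]

/-- The determinant (for `ε = 1`) and the permanent (for `ε = -1`), up to transposition. -/
def gdet (ε : ℤˣ) {n : ℕ} (c : Fin n → Fin n → R) : R :=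
  ∑ σ : Perm (Fin n), chi ε σ • ∏ i, c i (σ i)

lemma chi_mul (ε : ℤˣ) {n : ℕ} (σ τ : Perm (Fin n)) : chi ε (σ * τ) = chi ε σ * chi ε τ := by
  rw [chi, chi, chi]
  split_ifs
  · rw [Perm.sign_mul]; push_cast; rfl
  · rw [one_mul]

lemma chi_via (ε : ℤˣ) {a n : ℕ} (τ : Perm (Fin a)) (f : Fin a ↪ Fin n) :
    chi ε (τ.viaFintypeEmbedding f) = chi ε τ := by
  rw [chi, chi, viaFintypeEmbedding_sign]

lemma gdet_eq_zero (ε : ℤˣ) {a n : ℕ} (f : Fin a ↪ Fin n) (c : Fin n → Fin n → R)
    (h : ∀ g : Fin a → Fin n, gdet ε (fun i j => c (f i) (g j)) = 0) : gdet ε c = 0 := by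
  classical
  have h1 : ∀ τ : Perm (Fin a), gdet ε c = ∑ σ : Perm (Fin n),
      chi ε (σ * τ.viaFintypeEmbedding f) • ∏ i, c i ((σ * τ.viaFintypeEmbedding f) i) :=
    fun τ => (Equiv.sum_comp (Equiv.mulRight (τ.viaFintypeEmbedding f))
      (fun σ => chi ε σ • ∏ i, c i (σ i))).symm
  have h2 : ∑ τ : Perm (Fin a), gdet ε c = 0 := by
    rw [Finset.sum_congr rfl fun τ _ => h1 τ, Finset.sum_comm]
    refine Finset.sum_eq_zero fun σ _ => ?_
    have h3 : ∀ τ : Perm (Fin a), chi ε (σ * τ.viaFintypeEmbedding f) •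
        ∏ i, c i ((σ * τ.viaFintypeEmbedding f) i) =
        chi ε σ • ((chi ε τ • ∏ j, c (f j) (σ (f (τ j)))) *
          ∏ i ∈ (Finset.univ.map f)ᶜ, c i (σ i)) := by
      intro τ
      rw [chi_mul, chi_via, mul_smul, smul_mul_assoc,
        ← Finset.prod_mul_prod_compl (Finset.univ.map f) (fun i =>
          c i ((σ * τ.viaFintypeEmbedding f) i)), Finset.prod_map]
      congr 3
      · refine Finset.prod_congr rfl fun j _ => ?_
        rw [Perm.mul_apply, viaFintypeEmbedding_apply_image]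
      · refine Finset.prod_congr rfl fun i hi => ?_
        have h4 : i ∉ Set.range f := by
          rintro ⟨j, rfl⟩
          exact (Finset.mem_compl.1 hi) (Finset.mem_map_of_mem f (Finset.mem_univ j))
        rw [Perm.mul_apply, viaFintypeEmbedding_apply_notMem_range _ _ h4]
    rw [Finset.sum_congr rfl fun τ _ => h3 τ, ← Finset.smul_sum, ← Finset.sum_mul]
    have h5 := h (fun j => σ (f j))
    rw [gdet] at h5
    rw [h5, zero_mul, smul_zero]
  rw [Finset.sum_const, Finset.card_univ, ← Nat.cast_smul_eq_nsmul ℚ] at h2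
  refine (smul_eq_zero.1 h2).resolve_left ?_
  exact_mod_cast Fintype.card_ne_zero

lemma gdet_add (ε : ℤˣ) {a b n : ℕ} (hn : n + 1 = a + b) (A B : Fin n → Fin n → R)
    (hA : ∀ f g : Fin a → Fin n, gdet ε (fun i j => A (f i) (g j)) = 0)
    (hB : ∀ f g : Fin b → Fin n, gdet ε (fun i j => B (f i) (g j)) = 0) :
    gdet ε (fun i j => A i j + B i j) = 0 := by
  classical
  have h1 : gdet ε (fun i j => A i j + B i j) = ∑ S ∈ (Finset.univ : Finset (Fin n)).powerset,
      gdet ε (fun i j => if i ∈ S then A i j else B i j) := by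
    simp only [gdet]
    rw [Finset.sum_comm]
    refine Finset.sum_congr rfl fun σ _ => ?_
    rw [Finset.prod_add, Finset.smul_sum]
    refine Finset.sum_congr rfl fun S _ => ?_
    rw [Finset.prod_ite]
    congr 3
    · ext i; simp
    · ext i; simp
  rw [h1]
  refine Finset.sum_eq_zero fun S _ => ?_
  have hcard : S.card + Sᶜ.card = n := by
    rw [Finset.card_add_card_compl, Fintype.card_fin]
  have key : ∀ (d : ℕ) (T : Finset (Fin n)), d ≤ T.card →
      ∃ f : Fin d ↪ Fin n, ∀ i, f i ∈ T := by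
    intro d T hT
    obtain ⟨T', h2, h3⟩ := Finset.exists_subset_card_eq hT
    exact ⟨(T'.orderEmbOfFin h3).toEmbedding, fun i => h2 (Finset.orderEmbOfFin_mem T' h3 i)⟩
  by_cases hS : a ≤ S.card
  · obtain ⟨f, hf⟩ := key a S hS
    refine gdet_eq_zero ε f _ fun g => ?_
    have : (fun (i : Fin a) (j : Fin a) => if f i ∈ S then A (f i) (g j) else B (f i) (g j)) =
        fun i j => A (f i) (g j) := by
      funext i j; rw [if_pos (hf i)]
    rw [this]
    exact hA f g
  · obtain ⟨f, hf⟩ := key b Sᶜ (by omega)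
    refine gdet_eq_zero ε f _ fun g => ?_
    have : (fun (i : Fin b) (j : Fin b) => if f i ∈ S then A (f i) (g j) else B (f i) (g j)) =
        fun i j => B (f i) (g j) := by
      funext i j; rw [if_neg (Finset.mem_compl.1 (hf i))]
    rw [this]
    exact hB f g

end

end PermCore

open PermCore

variable {k : Type u} [Field k] {𝒱 : VarClass k} {C : ChowTheory.{u, v} 𝒱}

namespace ChowTheory

variable {X Y : 𝒱.Obj}

lemma PermRel.add {ω ω' : C.CH (X.prod X)} {ε : ℤˣ} {a b n : ℕ} (hn : n + 1 = a + b)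
    (h : C.PermRel ω a (chi ε)) (h' : C.PermRel ω' b (chi ε)) :
    C.PermRel (ω + ω') n (chi ε) := by
  intro Y x y
  have h1 := gdet_add ε hn (fun i j => C.pull (lift (x i) (y j)) ω)
    (fun i j => C.pull (lift (x i) (y j)) ω') (fun f g => h Y (x ∘ f) (y ∘ g))
    (fun f g => h' Y (x ∘ f) (y ∘ g))
  simpa only [gdet, ← map_add] using h1

lemma PermRel.sum {J : Type*} {ω : J → C.CH (X.prod X)} {ε : ℤˣ} (s : Finset J)
    (h : ∀ j ∈ s, ∃ n, 1 ≤ n ∧ C.PermRel (ω j) n (chi ε)) :
    ∃ n, 1 ≤ n ∧ C.PermRel (∑ j ∈ s, ω j) n (chi ε) := by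
  classical
  induction s using Finset.induction_on with
  | empty =>
    refine ⟨1, le_rfl, fun Y x y => Finset.sum_eq_zero fun σ _ => ?_⟩
    rw [Finset.sum_empty, Fin.prod_univ_one, map_zero, smul_zero]
  | insert j s hj ih =>
    obtain ⟨a, ha1, ha⟩ := h j (Finset.mem_insert_self j s)
    obtain ⟨b, hb1, hb⟩ := ih fun i hi => h i (Finset.mem_insert_of_mem hi)
    rw [Finset.sum_insert hj]
    exact ⟨a + b - 1, by omega, ha.add (by omega) hb⟩

end ChowTheory

end Pool.Agent.R903
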