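import Pool.Agent.R903.KimDefs
import Pool.Agent.R903.PermSum

/-!
# Relations between permutations and Kimura finite-dimensionality
-/

open CategoryTheory CategoryTheory.Limits AlgebraicGeometry
open Pool.Agent.H914 Pool.Agent.H914.VarClass Pool.Agent.H914.VarClass.Obj
open Equiv Equiv.Perm Pool.Agent.R903.PermCore

universe u v w

namespace Pool.Agent.R903

variable {k : Type u} [Field k] {𝒱 : VarClass k} {C : ChowTheory.{u, v} 𝒱}

namespace PermCore

lemma ptr_chi (t : ℚ) (ε : ℤˣ) (n : ℕ) : ptr t (chi ε : Perm (Fin (n + 1)) → ℚ) =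
    fun τ => (t - ((ε : ℤ) : ℚ) * n) * chi ε τ := by
  funext τ
  have h0 : ∀ p : Fin (n + 1), chi ε (decomposeFin.symm (p, τ)) =
      (if p = 0 then 1 else -((ε : ℤ) : ℚ)) * chi ε τ := by
    intro p
    rcases Int.units_eq_one_or ε with rfl | rfl
    · rw [chi, chi, if_pos rfl, if_pos rfl, decomposeFin.symm_sign]
      split_ifs <;> simp
    · simp [chi]
  rw [ptr, Fin.sum_univ_succ, if_pos rfl, h0, if_pos rfl]
  have h1 : ∀ i : Fin n, (if i.succ = 0 then t else 1) * chi ε (decomposeFin.symm (i.succ, τ)) =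
      -((ε : ℤ) : ℚ) * chi ε τ := by
    intro i
    rw [if_neg (Fin.succ_ne_zero i), h0, if_neg (Fin.succ_ne_zero i), one_mul]
  rw [Finset.sum_congr rfl fun i _ => h1 i, Finset.sum_const, Finset.card_univ,
    Fintype.card_fin, nsmul_eq_mul]
  ring

/-- A symmetrizer or antisymmetrizer implies the one of the expected size. -/
lemma IsRelSystem.descend {t : ℚ} {R : ∀ n : ℕ, (Perm (Fin n) → ℚ) → Prop}
    (hR : IsRelSystem t R) (ε : ℤˣ) {n : ℕ} (h : R n (chi ε)) :
    ∃ N : ℕ, (N : ℚ) = ((ε : ℤ) : ℚ) * t + 1 ∧ R N (chi ε) := by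
  induction n with
  | zero =>
    exfalso
    have h1 := congrFun (hR.zero h) 1
    rw [chi_one] at h1
    exact one_ne_zero h1
  | succ n ih =>
    by_cases ht : t = ((ε : ℤ) : ℚ) * n
    · refine ⟨n + 1, ?_, h⟩
      rw [ht, ← mul_assoc, units_sq, one_mul]
      push_cast
      rfl
    · apply ih
      have h1 := hR.trace h
      rw [ptr_chi] at h1
      have h2 := hR.smul (t - ((ε : ℤ) : ℚ) * n)⁻¹ h1
      have h3 : t - ((ε : ℤ) : ℚ) * n ≠ 0 := sub_ne_zero.2 ht
      simpa only [inv_mul_cancel_left₀ h3] using h2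

end PermCore

namespace ChowTheory

variable {X Y : 𝒱.Obj} {ω : C.CH (X.prod X)}

/-- A motive is evenly finite-dimensional if and only if there is a linear relation between few
permutations of the factors of a tensor power. -/
theorem ext_tfae (hP : C.Polarized) (hω : C.comp ω ω = ω) :
    List.TFAE [∃ m, C.ExtVanishes ω m,
      ∃ N : ℕ, (N : ℚ) = C.motDim ω + 1 ∧ C.ExtVanishes ω N,
      ∃ m : ℕ, (m : ℚ) ≤ 2 * C.motDim ω + 3 ∧ C.PermDependent ω m] := by
  have hR := isRelSystem (one_ne_zero_of_polarized hP X) hω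
  tfae_have 2 ↔ 3 := (ext_iff hP hω).symm
  tfae_have 2 → 1 := fun ⟨N, _, h⟩ => ⟨N, h⟩
  tfae_have 1 → 2 := by
    rintro ⟨m, hm⟩
    obtain ⟨N, h1, h2⟩ := hR.descend 1 (extVanishes_iff.1 hm).2
    simp only [Units.val_one, Int.cast_one, one_mul] at h1
    refine ⟨N, h1, extVanishes_iff.2 ⟨?_, h2⟩⟩
    by_contra hN
    obtain rfl : N = 0 := by omega
    exact chi_ne_zero (hR.zero h2)
  tfae_finish

/-- A motive is oddly finite-dimensional if and only if there is a linear relation between few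
permutations of the factors of a tensor power. -/
theorem sym_tfae (hP : C.Polarized) (hω : C.comp ω ω = ω) :
    List.TFAE [∃ m, C.SymVanishes ω m,
      ∃ N : ℕ, (N : ℚ) = -C.motDim ω + 1 ∧ C.SymVanishes ω N,
      ∃ m : ℕ, (m : ℚ) ≤ -2 * C.motDim ω + 3 ∧ C.PermDependent ω m] := by
  have hR := isRelSystem (one_ne_zero_of_polarized hP X) hω
  tfae_have 2 ↔ 3 := (sym_iff hP hω).symm
  tfae_have 2 → 1 := fun ⟨N, _, h⟩ => ⟨N, h⟩
  tfae_have 1 → 2 := by
    rintro ⟨m, hm⟩
    obtain ⟨N, h1, h2⟩ := hR.descend (-1) (symVanishes_iff.1 hm).2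
    simp only [Units.val_neg, Units.val_one, Int.cast_neg, Int.cast_one, neg_mul, one_mul] at h1
    refine ⟨N, h1, symVanishes_iff.2 ⟨?_, h2⟩⟩
    by_contra hN
    obtain rfl : N = 0 := by omega
    exact chi_ne_zero (hR.zero h2)
  tfae_finish

/-- If each summand has a linear relation between few permutations, then the motive is Kimura
finite-dimensional. -/
theorem kimuraFinite_of_relations (hP : C.Polarized) {J : Type*} [Fintype J]
    {p : J → C.CH (X.prod X)} (hp : ∀ j, p j ∈ C.gr (X.prod X) X.dim)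
    (hidem : ∀ j, C.comp (p j) (p j) = p j) (horth : ∀ i j, i ≠ j → C.comp (p i) (p j) = 0)
    (hrel : ∀ j, ∃ m : ℕ, (m : ℚ) ≤ 2 * |C.motDim (p j)| + 3 ∧ C.PermDependent (p j) m) :
    C.KimuraFinite (∑ j, p j) := by
  classical
  set S : Finset J := Finset.univ.filter fun j => 0 ≤ C.motDim (p j) with hS
  have hcomp : ∀ A B : Finset J, C.comp (∑ j ∈ A, p j) (∑ j ∈ B, p j) = ∑ j ∈ A ∩ B, p j := by
    intro A B
    rw [C.sum_comp]
    have h1 : ∀ i ∈ A, C.comp (p i) (∑ j ∈ B, p j) = if i ∈ B then p i else 0 := by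
      intro i _
      rw [C.comp_sum]
      by_cases hi : i ∈ B
      · rw [if_pos hi, Finset.sum_eq_single i, hidem]
        · intro j _ hj
          exact horth i j (Ne.symm hj)
        · intro h; exact absurd hi h
      · rw [if_neg hi]
        exact Finset.sum_eq_zero fun j hj => horth i j fun h => hi (h ▸ hj)
    rw [Finset.sum_congr rfl h1, ← Finset.sum_filter, Finset.filter_mem_eq_inter]
  have hpos : ∀ j ∈ S, ∃ n, 1 ≤ n ∧ C.PermRel (p j) n (chi 1) := by
    intro j hj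
    have hj' : 0 ≤ C.motDim (p j) := (Finset.mem_filter.1 hj).2
    obtain ⟨m, h1, h2⟩ := hrel j
    rw [abs_of_nonneg hj'] at h1
    obtain ⟨N, -, h3⟩ := (ext_iff (X := X) hP (hidem j)).1 ⟨m, h1, h2⟩
    exact ⟨N, extVanishes_iff.1 h3⟩
  have hneg : ∀ j ∈ Sᶜ, ∃ n, 1 ≤ n ∧ C.PermRel (p j) n (chi (-1)) := by
    intro j hj
    have hj' : C.motDim (p j) ≤ 0 := by
      by_contra h
      exact (Finset.mem_compl.1 hj) (Finset.mem_filter.2 ⟨Finset.mem_univ _, (not_le.1 h).le⟩)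
    obtain ⟨m, h1, h2⟩ := hrel j
    rw [abs_of_nonpos hj'] at h1
    obtain ⟨N, -, h3⟩ := (sym_iff (X := X) hP (hidem j)).1 ⟨m, by linarith, h2⟩
    exact ⟨N, symVanishes_iff.1 h3⟩
  refine ⟨∑ j ∈ S, p j, Submodule.sum_mem _ fun j _ => hp j, ∑ j ∈ Sᶜ, p j,
    Submodule.sum_mem _ fun j _ => hp j, ?_, ?_, ?_, ?_, ?_, ?_, ?_⟩
  · rw [hcomp, Finset.inter_self]
  · rw [hcomp, Finset.inter_self]
  · rw [hcomp, Finset.inter_compl, Finset.sum_empty]
  · rw [hcomp, Finset.inter_comm, Finset.inter_compl, Finset.sum_empty]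
  · rw [Finset.sum_add_sum_compl]
  · obtain ⟨n, h1, h2⟩ := PermRel.sum S hpos
    exact ⟨n, extVanishes_iff.2 ⟨h1, h2⟩⟩
  · obtain ⟨n, h1, h2⟩ := PermRel.sum Sᶜ hneg
    exact ⟨n, symVanishes_iff.2 ⟨h1, h2⟩⟩

end ChowTheory

end Pool.Agent.R903
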