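import Pool.Agent.R903.PermCyc
import Pool.Agent.R903.AlgCoh

/-!
# Relations between permutations and finite-dimensionality
-/

open CategoryTheory CategoryTheory.Limits AlgebraicGeometry
open Pool.Agent.H914 Pool.Agent.H914.VarClass Pool.Agent.H914.VarClass.Obj
open Equiv Equiv.Perm Pool.Agent.R903.PermCore

universe u v w

namespace Pool.Agent.R903

variable {k : Type u} [Field k] {𝒱 : VarClass k} {C : ChowTheory.{u, v} 𝒱}

namespace ChowTheory

variable {X Y : 𝒱.Obj} {ω : C.CH (X.prod X)}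

lemma one_ne_zero_of_polarized (hP : C.Polarized) (X : 𝒱.Obj) : (1 : C.CH X) ≠ 0 := by
  intro h
  obtain ⟨D, -, hD⟩ := hP X
  apply hD
  rw [← one_mul (D ^ X.dim), h, zero_mul, map_zero]

lemma chi_ne_zero {ε : ℤˣ} {n : ℕ} : (chi ε : Perm (Fin n) → ℚ) ≠ 0 := by
  intro h
  have := congrFun h 1
  rw [chi_one] at this
  exact one_ne_zero this

/-- Relations between few permutations imply the vanishing of an exterior power. -/
theorem ext_iff (hP : C.Polarized) (hω : C.comp ω ω = ω) :
    (∃ m : ℕ, (m : ℚ) ≤ 2 * C.motDim ω + 3 ∧ C.PermDependent ω m) ↔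
      ∃ N : ℕ, (N : ℚ) = C.motDim ω + 1 ∧ C.ExtVanishes ω N := by
  have hR := isRelSystem (one_ne_zero_of_polarized hP X) hω
  constructor
  · rintro ⟨m, hm, hd⟩
    obtain ⟨h1, a, ha0, ha⟩ := permDependent_iff.1 hd
    obtain ⟨N, -, h2, h3⟩ := hR.main 1 ha ha0 (by push_cast; linarith)
    simp only [Units.val_one, Int.cast_one, one_mul] at h2
    refine ⟨N, h2, extVanishes_iff.2 ⟨?_, h3⟩⟩
    by_contra hN
    obtain rfl : N = 0 := by omega
    exact chi_ne_zero (hR.zero h3)
  · rintro ⟨N, h1, h2⟩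
    obtain ⟨h3, h4⟩ := extVanishes_iff.1 h2
    refine ⟨N, ?_, permDependent_iff.2 ⟨h3, chi 1, chi_ne_zero, h4⟩⟩
    have : (1 : ℚ) ≤ N := by exact_mod_cast h3
    linarith

/-- Relations between few permutations imply the vanishing of a symmetric power. -/
theorem sym_iff (hP : C.Polarized) (hω : C.comp ω ω = ω) :
    (∃ m : ℕ, (m : ℚ) ≤ -2 * C.motDim ω + 3 ∧ C.PermDependent ω m) ↔
      ∃ N : ℕ, (N : ℚ) = -C.motDim ω + 1 ∧ C.SymVanishes ω N := by
  have hR := isRelSystem (one_ne_zero_of_polarized hP X) hω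
  constructor
  · rintro ⟨m, hm, hd⟩
    obtain ⟨h1, a, ha0, ha⟩ := permDependent_iff.1 hd
    obtain ⟨N, -, h2, h3⟩ := hR.main (-1) ha ha0 (by push_cast; linarith)
    simp only [Units.val_neg, Units.val_one, Int.cast_neg, Int.cast_one, neg_mul, one_mul] at h2
    refine ⟨N, h2, symVanishes_iff.2 ⟨?_, h3⟩⟩
    by_contra hN
    obtain rfl : N = 0 := by omega
    exact chi_ne_zero (hR.zero h3)
  · rintro ⟨N, h1, h2⟩
    obtain ⟨h3, h4⟩ := symVanishes_iff.1 h2
    refine ⟨N, ?_, permDependent_iff.2 ⟨h3, chi (-1), chi_ne_zero, h4⟩⟩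
    have : (1 : ℚ) ≤ N := by exact_mod_cast h3
    linarith

lemma pull_lift_ext (a b : C.CH X) (x y : Y ⟶ X) :
    C.pull (lift x y) (C.ext a b) = C.pull x a * C.pull y b := by
  rw [ext, C.pull_mul, ← C.pull_comp, ← C.pull_comp, Obj.lift_fst, Obj.lift_snd]

/-- A matrix which factors through a smaller set has determinant zero. -/
lemma det_eq_zero {R : Type*} [CommRing R] {ι : Type*} [Fintype ι] {n : ℕ}
    (hn : Fintype.card ι + 1 = n) (A : Fin n → ι → R) (B : ι → Fin n → R) :
    (Matrix.of fun i j => ∑ s, A i s * B s j).det = 0 := by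
  classical
  have e : Option ι ≃ Fin n := Fintype.equivFinOfCardEq (by rw [Fintype.card_option, hn])
  set A' : Matrix (Fin n) (Fin n) R := Matrix.of fun i j => (e.symm j).elim 0 (A i) with hA'
  set B' : Matrix (Fin n) (Fin n) R := Matrix.of fun i j => (e.symm i).elim 0 (fun s => B s j)
    with hB'
  have h1 : (Matrix.of fun i j => ∑ s, A i s * B s j) = A' * B' := by
    ext i j
    rw [Matrix.mul_apply, ← Equiv.sum_comp e, Fintype.sum_option]
    simp [hA', hB']
  have h2 : A'.det = 0 := by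
    refine Matrix.det_eq_zero_of_column_eq_zero (e none) fun i => ?_
    simp [hA']
  rw [h1, Matrix.det_mul, h2, zero_mul]

/-- If the diagonal is a sum of `b` products of cycles, then the `b + 1`-st exterior power is
zero. -/
lemma permRel_of_split {ι : Type*} [Fintype ι] {p q : ι → C.CH X}
    (h : ω = ∑ s, C.ext (p s) (q s)) {n : ℕ} (hn : Fintype.card ι + 1 = n) :
    C.PermRel ω n (chi 1) := by
  intro Y x y
  have h1 := det_eq_zero hn (fun i s => C.pull (x i) (p s)) (fun s j => C.pull (y j) (q s))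
  rw [← Matrix.det_transpose, Matrix.det_apply] at h1
  rw [← h1]
  refine Finset.sum_congr rfl fun σ _ => ?_
  have h2 : ∀ i j, C.pull (lift (x i) (y j)) ω =
      ∑ s, C.pull (x i) (p s) * C.pull (y j) (q s) := by
    intro i j
    rw [h, map_sum]
    exact Finset.sum_congr rfl fun s _ => pull_lift_ext _ _ _ _
  simp only [h2, Matrix.transpose_apply, Matrix.of_apply, chi, if_true]
  rw [Int.cast_smul_eq_zsmul, Units.smul_def]

end ChowTheory

namespace WeilTheory

variable {W : WeilTheory.{u, v, w} C} {X : 𝒱.Obj}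

/-- The decomposition of the diagonal of a variety with algebraic cohomology. -/
lemma AlgebraicCohomology.exists_split (hX : W.AlgebraicCohomology X) :
    ∃ (ι : Type w) (_ : Fintype ι) (p q : ι → C.CH X) (φ : C.CH (X.prod X)),
      C.diagC X = ∑ s, C.ext (p s) (q s) + φ ∧ C.comp φ φ = φ ∧ W.cl _ φ = 0 ∧
      φ ∈ C.gr (X.prod X) X.dim ∧ (Fintype.card ι : ℚ) = C.motDim (C.diagC X) ∧
      Fintype.card ι = Module.finrank W.K (W.H X) ∧
      (φ = 0 → ∀ γ : C.CH (X.prod X), W.cl _ γ = 0 → γ = 0) := by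
  classical
  obtain ⟨ι, _, _, d, x, y, hd, hx, hy, hxy, hsp⟩ := hX.exists_dual
  set f : ι → C.CH (X.prod X) := fun s => C.ext (y s) (x s) with hf
  have hfgr : ∀ s, f s ∈ C.gr (X.prod X) X.dim := by
    intro s
    have := C.ext_mem (hy s) (hx s)
    rwa [Nat.sub_add_cancel (hd s)] at this
  have hff : ∀ s t, C.comp (f s) (f t) = if s = t then f s else 0 := by
    intro s t
    rw [hf]
    simp only
    rw [C.ext_comp_ext, hxy]
    split_ifs with h
    · rw [h, one_smul]
    · rw [zero_smul]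
  have hact : ∀ s z, C.act (f s) z = C.deg X (z * y s) • x s := fun s z => C.act_ext _ _ _
  set ψ : C.CH (X.prod X) := ∑ s, f s with hψ
  have hψgr : ψ ∈ C.gr (X.prod X) X.dim := Submodule.sum_mem _ fun s _ => hfgr s
  have hfψ : ∀ s, C.comp (f s) ψ = f s := by
    intro s
    rw [hψ, C.comp_sum]
    simp only [hff]
    rw [Finset.sum_ite_eq]
    simp
  have hψψ : C.comp ψ ψ = ψ := by
    conv_lhs => rw [hψ, C.sum_comp]
    exact Finset.sum_congr rfl fun s _ => hfψ s
  have hxu : ∀ u, C.act ψ (x u) = x u := by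
    intro u
    rw [hψ, C.act_sum, LinearMap.sum_apply]
    simp only [hact, hxy]
    rw [Finset.sum_eq_single u]
    · rw [if_pos rfl, one_smul]
    · intro s _ hs
      rw [if_neg (Ne.symm hs), zero_smul]
    · intro h; exact absurd (Finset.mem_univ _) h
  have hWψ : W.act ψ = LinearMap.id := by
    apply LinearMap.ext_on_range hsp
    intro u
    rw [← W.cl_act, hxu, LinearMap.id_apply]
  set φ := C.diagC X - ψ with hφ
  have hφgr : φ ∈ C.gr (X.prod X) X.dim := Submodule.sub_mem _ (C.diagC_mem X) hψgr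
  have hsubcomp : ∀ α β γ : C.CH (X.prod X), C.comp (α - β) γ = C.comp α γ - C.comp β γ := by
    intro α β γ
    rw [sub_eq_add_neg, C.add_comp, ← neg_one_smul ℚ β, C.smul_comp, neg_one_smul,
      ← sub_eq_add_neg]
  have hcompsub : ∀ α β γ : C.CH (X.prod X), C.comp α (β - γ) = C.comp α β - C.comp α γ := by
    intro α β γ
    rw [sub_eq_add_neg, C.comp_add, ← neg_one_smul ℚ γ, C.comp_smul, neg_one_smul,
      ← sub_eq_add_neg]
  have hφψ : C.comp φ ψ = 0 := by rw [hφ, hsubcomp, C.diagC_comp, hψψ, sub_self]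
  have hφφ : C.comp φ φ = φ := by
    conv_lhs => rw [hφ, hcompsub, C.comp_diagC]
    rw [← hφ, hφψ, sub_zero]
  have hWφ : W.act φ = 0 := by
    rw [hφ, W.act_sub, hWψ]
    ext a
    rw [LinearMap.sub_apply, W.act_diagC, LinearMap.id_apply, sub_self, LinearMap.zero_apply]
  have hclφ : W.cl _ φ = 0 := cl_eq_zero_of_isZeroMap fun a => by
    rw [hWφ, LinearMap.zero_apply]
  have hli : LinearIndependent W.K fun s => W.cl X (x s) := by
    rw [Fintype.linearIndependent_iff]
    intro c hc t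
    have h1 := congrArg (fun z => W.tr X (z * W.cl X (y t))) hc
    simp only [zero_mul, map_zero, Finset.sum_mul, map_sum, smul_mul_assoc, map_smul,
      ← W.cl_mul, W.tr_cl, hxy, smul_eq_mul] at h1
    rw [Finset.sum_eq_single t] at h1
    · simpa using h1
    · intro s _ hs
      rw [if_neg hs]; simp
    · intro h; exact absurd (Finset.mem_univ _) h
  refine ⟨ι, inferInstance, y, x, φ, by rw [hφ]; abel, hφφ, hclφ, hφgr, ?_, ?_, ?_⟩
  · have h1 : C.diagC X = ψ + φ := by rw [hφ]; abel
    have h2 : C.deg X (C.pull (diag X) φ) = 0 := by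
      have h3 : ((C.deg X (C.pull (diag X) φ) : ℚ) : W.K) = 0 := by
        rw [← W.tr_cl, W.cl_pull, hclφ, map_zero, map_zero]
      exact_mod_cast h3
    rw [ChowTheory.motDim, h1, map_add, map_add, h2, add_zero, hψ, map_sum, map_sum]
    have h4 : ∀ s, C.deg X (C.pull (diag X) (f s)) = 1 := by
      intro s
      rw [hf]
      simp only
      rw [C.pull_diag_ext, mul_comm, hxy, if_pos rfl]
    simp only [h4, Finset.sum_const, Finset.card_univ, nsmul_eq_mul, mul_one]
  · exact (Module.finrank_eq_card_basis (Module.Basis.mk hli hsp.ge)).symm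
  · intro hφ0 γ hγ
    have hdiag : C.diagC X = ψ := by rwa [hφ, sub_eq_zero] at hφ0
    have hWγ : ∀ a, W.act γ a = 0 := by
      intro a
      rw [act_apply, hγ, zero_mul, map_zero]
    have h1 : γ = C.comp (C.comp ψ γ) ψ := by
      rw [← hdiag, C.diagC_comp, C.comp_diagC]
    rw [h1, hψ, C.sum_comp, C.sum_comp]
    refine Finset.sum_eq_zero fun s _ => ?_
    rw [C.comp_sum]
    refine Finset.sum_eq_zero fun t _ => ?_
    rw [hf]
    simp only
    rw [C.ext_comp, C.ext_comp_ext]
    have h2 : ((C.deg X (C.act γ (x s) * y t) : ℚ) : W.K) = 0 := by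
      rw [← W.tr_cl, W.cl_mul, W.cl_act, hWγ, zero_mul, map_zero]
    have h3 : C.deg X (C.act γ (x s) * y t) = 0 := by exact_mod_cast h2
    rw [h3, zero_smul]

/-- For a variety with algebraic cohomology a single relation between few permutations implies the
injectivity of the cycle class map on the square. -/
theorem AlgebraicCohomology.perm_tfae (hP : C.Polarized) (hX : W.AlgebraicCohomology X) :
    List.TFAE [∀ i, W.ClInjective (X.prod X) i,
      C.ExtVanishes (C.diagC X) (Module.finrank W.K (W.H X) + 1),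
      ∃ m ≤ 2 * Module.finrank W.K (W.H X) + 3, C.PermDependent (C.diagC X) m] := by
  obtain ⟨ι, _, p, q, φ, h1, h2, h3, h4, h5, h6, h7⟩ := hX.exists_split
  have hdd : C.comp (C.diagC X) (C.diagC X) = C.diagC X := C.diagC_comp _
  have h56 : C.motDim (C.diagC X) = (Module.finrank W.K (W.H X) : ℚ) := by rw [← h5, h6]
  have hext := ChowTheory.ext_iff (X := X) hP hdd
  tfae_have 1 → 2 := by
    intro h
    have hφ0 : φ = 0 := h _ φ h4 h3
    rw [hφ0, add_zero] at h1
    refine ChowTheory.extVanishes_iff.2 ⟨by omega, ?_⟩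
    exact ChowTheory.permRel_of_split h1 (by rw [h6])
  tfae_have 2 → 3 := by
    intro h
    obtain ⟨h8, h9⟩ := ChowTheory.extVanishes_iff.1 h
    exact ⟨_, by omega, ChowTheory.permDependent_iff.2 ⟨h8, _, ChowTheory.chi_ne_zero, h9⟩⟩
  tfae_have 3 → 1 := by
    rintro ⟨m, hm, hd⟩
    have hm' : (m : ℚ) ≤ 2 * C.motDim (C.diagC X) + 3 := by
      rw [h56]
      exact_mod_cast hm
    obtain ⟨N, -, h8⟩ := hext.1 ⟨m, hm', hd⟩
    obtain ⟨h9, h10⟩ := ChowTheory.extVanishes_iff.1 h8
    obtain ⟨n, rfl⟩ : ∃ n, N = n + 1 := ⟨N - 1, by omega⟩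
    have h11 : C.PermRel φ (n + 1) (chi 1) := h10.restrict (C.comp_diagC φ)
    have h12 : C.motDim φ = 0 := by
      have h13 : ((C.deg X (C.pull (diag X) φ) : ℚ) : W.K) = 0 := by
        rw [← W.tr_cl, W.cl_pull, h3, map_zero, map_zero]
      exact_mod_cast h13
    have h14 := ChowTheory.eq_zero_of_altRel h2 h12 n h11
    intro i γ _ hγ
    exact h7 h14 γ hγ
  tfae_finish

end WeilTheory

end Pool.Agent.R903
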