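import Pool.Agent.R903.SmashMain

/-!
# The growth gap
-/

open CategoryTheory CategoryTheory.Limits AlgebraicGeometry
open Pool.Agent.H914 Pool.Agent.H914.VarClass Pool.Agent.H914.VarClass.Obj
open Module

universe u v w

namespace Pool.Agent.R903

variable {k : Type u} [Field k] {𝒱 : VarClass k} {C : ChowTheory.{u, v} 𝒱}

namespace ChowTheory

variable {X Y : 𝒱.Obj}

lemma prod_eq_zero_of_card {ι : Type*} {a : C.CH X} {n : ℕ}
    (h : C.extProd n (fun _ => a) = 0) (S : Finset ι) (hS : n + 1 ≤ S.card) (x : ι → (Y ⟶ X)) :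
    ∏ i ∈ S, C.pull (x i) a = 0 := by
  classical
  obtain ⟨T, hTS, hT⟩ := Finset.exists_subset_card_eq hS
  rw [← Finset.prod_sdiff hTS]
  have h1 : ∏ i ∈ T, C.pull (x i) a = 0 := by
    set e : Fin (n + 1) ≃ T := (T.equivFin.trans (finCongr hT)).symm
    obtain ⟨g, hg⟩ := exists_lift n (fun i => x (e i))
    rw [← Finset.prod_coe_sort, ← e.prod_comp, ← pull_extProd hg, h, map_zero]
  rw [h1, mul_zero]

lemma extSpan_eq_bot (N : Submodule ℚ (C.CH X)) [FiniteDimensional ℚ N]
    (h : ∀ a ∈ N, C.SmashNilpotent a) : ∃ K, ∀ n, K ≤ n → C.extSpan N n = ⊥ := by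
  classical
  set u := finBasis ℚ N with hu
  have hsp : Submodule.span ℚ (Set.range fun i => (u i : C.CH X)) = N := by
    have h1 := congrArg (Submodule.map N.subtype) u.span_eq
    rw [Submodule.map_span, Submodule.map_top, Submodule.range_subtype, ← Set.range_comp] at h1
    exact h1
  choose m hm using fun t => h (u t : C.CH X) (u t).2
  refine ⟨∑ t, m t, fun n hn => ?_⟩
  rw [← span_extProd _ hsp, Submodule.span_eq_bot]
  rintro _ ⟨c, rfl⟩
  have h2 : ∃ t, m t + 1 ≤ (Finset.univ.filter fun i => c i = t).card := by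
    by_contra hc
    push Not at hc
    have h3 : (Finset.univ : Finset (Fin (n + 1))).card =
        ∑ t, (Finset.univ.filter fun i => c i = t).card :=
      Finset.card_eq_sum_card_fiberwise fun i _ => Finset.mem_coe.2 (Finset.mem_univ (c i))
    have h4 : ∑ t, (Finset.univ.filter fun i => c i = t).card ≤ ∑ t, m t :=
      Finset.sum_le_sum fun t _ => by have := hc t; omega
    rw [Finset.card_univ, Fintype.card_fin] at h3
    omega
  obtain ⟨t, ht⟩ := h2
  change C.extProd n (fun i => (u (c i) : C.CH X)) = 0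
  rw [extProd, ← Finset.prod_filter_mul_prod_filter_not Finset.univ fun i => c i = t]
  have h5 : ∏ i ∈ Finset.univ.filter (fun i => c i = t), C.pull (pr X n i) (u (c i) : C.CH X) =
      ∏ i ∈ Finset.univ.filter (fun i => c i = t), C.pull (pr X n i) (u t : C.CH X) := by
    refine Finset.prod_congr rfl fun i hi => ?_
    rw [(Finset.mem_filter.1 hi).2]
  rw [h5, prod_eq_zero_of_card (hm t) _ ht, zero_mul]

lemma extProd_mem_extSpan {V : Submodule ℚ (C.CH X)} {n : ℕ} {v : Fin (n + 1) → C.CH X}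
    (hv : ∀ i, v i ∈ V) : C.extProd n v ∈ C.extSpan V n :=
  Submodule.subset_span ⟨v, hv, rfl⟩

lemma extSpan_finite (V : Submodule ℚ (C.CH X)) [FiniteDimensional ℚ V] (n : ℕ) :
    FiniteDimensional ℚ (C.extSpan V n) := by
  set u := finBasis ℚ V with hu
  have hsp : Submodule.span ℚ (Set.range fun i => (u i : C.CH X)) = V := by
    have h1 := congrArg (Submodule.map V.subtype) u.span_eq
    rw [Submodule.map_span, Submodule.map_top, Submodule.range_subtype, ← Set.range_comp] at h1
    exact h1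
  rw [← span_extProd _ hsp]
  exact FiniteDimensional.span_of_finite ℚ (Set.finite_range _)

/-- the lower bound if some numerically trivial class in `V` is not smash-nilpotent -/
lemma le_finrank (V : Submodule ℚ (C.CH X)) [FiniteDimensional ℚ V] {a : C.CH X} (ha : a ∈ V)
    (haN : a ∈ C.numTrivial X) (hs : ¬ C.SmashNilpotent a) (n : ℕ) :
    (C.numRank V + 1) ^ (n + 1) ≤ finrank ℚ (C.extSpan V n) := by
  have hfin : FiniteDimensional ℚ (V ⊓ C.numTrivial X : Submodule ℚ (C.CH X)) :=
    Submodule.finiteDimensional_of_le inf_le_left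
  have h1 : ∀ i, 1 ≤ finrank ℚ (C.extSpan (V ⊓ C.numTrivial X) i) := by
    intro i
    have := extSpan_finite (V ⊓ C.numTrivial X) i
    rw [Nat.one_le_iff_ne_zero, Ne, Submodule.finrank_eq_zero]
    intro h0
    apply hs
    refine ⟨i, ?_⟩
    have h2 := extProd_mem_extSpan (V := V ⊓ C.numTrivial X) (n := i) (v := fun _ => a)
      fun _ => ⟨ha, haN⟩
    rwa [h0, Submodule.mem_bot] at h2
  rw [finrank_extSpan, add_comm (C.numRank V) 1, add_pow, Finset.sum_range_succ', add_comm]
  apply add_le_add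
  · simp
  · refine Finset.sum_le_sum fun i _ => ?_
    rw [one_pow, one_mul, Nat.succ_sub_succ, mul_comm]
    exact Nat.le_mul_of_pos_right _ (h1 i)

/-- the upper bound if all numerically trivial classes in `V` are smash-nilpotent -/
lemma finrank_le (V : Submodule ℚ (C.CH X)) [FiniteDimensional ℚ V]
    (h : ∀ a ∈ V, a ∈ C.numTrivial X → C.SmashNilpotent a) :
    ∃ A d : ℕ, ∀ n, A ≤ n →
      finrank ℚ (C.extSpan V n) ≤ A * (n + 1) ^ d * C.numRank V ^ (n + 1) := by
  have hfin : FiniteDimensional ℚ (V ⊓ C.numTrivial X : Submodule ℚ (C.CH X)) :=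
    Submodule.finiteDimensional_of_le inf_le_left
  obtain ⟨K, hK⟩ := extSpan_eq_bot (V ⊓ C.numTrivial X) fun a ha => h a ha.1 ha.2
  set M := ∑ i ∈ Finset.range K, finrank ℚ (C.extSpan (V ⊓ C.numTrivial X) i) with hM
  refine ⟨1 + M + K, K, fun n hn => ?_⟩
  set q := C.numRank V with hq
  have hKn : K ≤ n + 1 := by omega
  have h1 : finrank ℚ (C.extSpan V n) ≤ q ^ (n + 1) + ∑ i ∈ Finset.range K,
      (n + 1) ^ K * q ^ (n + 1) * finrank ℚ (C.extSpan (V ⊓ C.numTrivial X) i) := by
    rw [finrank_extSpan, ← hq]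
    refine Nat.add_le_add_left ?_ _
    rw [← Finset.sum_subset (Finset.range_subset_range.2 hKn)]
    · refine Finset.sum_le_sum fun i hi => Nat.mul_le_mul_right _ (Nat.mul_le_mul ?_ ?_)
      · refine (Nat.choose_le_pow _ _).trans (Nat.pow_le_pow_right (Nat.succ_pos n) ?_)
        exact Finset.mem_range.1 hi
      · rcases Nat.eq_zero_or_pos q with h0 | h0
        · have hi' := Finset.mem_range.1 hi
          have : n - i ≠ 0 := by omega
          rw [h0, zero_pow this]
          exact Nat.zero_le _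
        · exact Nat.pow_le_pow_right h0 (by omega)
    · intro i _ hi
      rw [Finset.mem_range, not_lt] at hi
      rw [hK i hi, finrank_bot, mul_zero]
  refine h1.trans ?_
  rw [← Finset.mul_sum, ← hM]
  have h2 : 1 ≤ (n + 1) ^ K := Nat.one_le_pow _ _ (Nat.succ_pos n)
  calc q ^ (n + 1) + (n + 1) ^ K * q ^ (n + 1) * M
      ≤ (n + 1) ^ K * q ^ (n + 1) + (n + 1) ^ K * q ^ (n + 1) * M :=
        Nat.add_le_add_right (Nat.le_mul_of_pos_left _ (by omega)) _
    _ ≤ (1 + M + K) * (n + 1) ^ K * q ^ (n + 1) := by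
        have : (1 + M + K) * (n + 1) ^ K * q ^ (n + 1) = (n + 1) ^ K * q ^ (n + 1) +
          (n + 1) ^ K * q ^ (n + 1) * M + K * (n + 1) ^ K * q ^ (n + 1) := by ring
        omega

lemma exists_lt (A d q : ℕ) : ∃ n, A ≤ n ∧ A * (n + 1) ^ d * q ^ (n + 1) < (q + 1) ^ (n + 1) := by
  have hr : |(q : ℝ) / (q + 1)| < 1 := by
    rw [abs_of_nonneg (by positivity), div_lt_one (by positivity)]
    linarith
  have h1 := tendsto_pow_const_mul_const_pow_of_abs_lt_one d hr
  have h2 := (h1.const_mul (A : ℝ)).comp (Filter.tendsto_add_atTop_nat 1)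
  rw [mul_zero] at h2
  obtain ⟨n, hn, hAn⟩ := ((h2.eventually_lt_const (show (0 : ℝ) < 1 by norm_num)).and
    (Filter.eventually_ge_atTop A)).exists
  refine ⟨n, hAn, ?_⟩
  simp only [Function.comp] at hn
  rw [div_pow] at hn
  have hpos : (0 : ℝ) < ((q : ℝ) + 1) ^ (n + 1) := by positivity
  have h3 : (A : ℝ) * ((n + 1 : ℕ) : ℝ) ^ d * (q : ℝ) ^ (n + 1) < ((q : ℝ) + 1) ^ (n + 1) := by
    have h4 : (A : ℝ) * (((n + 1 : ℕ) : ℝ) ^ d * ((q : ℝ) ^ (n + 1) / ((q : ℝ) + 1) ^ (n + 1))) =
        (A : ℝ) * ((n + 1 : ℕ) : ℝ) ^ d * (q : ℝ) ^ (n + 1) / ((q : ℝ) + 1) ^ (n + 1) := by ring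
    rw [h4, div_lt_one hpos] at hn
    exact hn
  exact_mod_cast h3

/-- The growth gap. -/
theorem tfae_gap (V : Submodule ℚ (C.CH X)) [FiniteDimensional ℚ V] :
    List.TFAE [
      ∀ a ∈ V, a ∈ C.numTrivial X → C.SmashNilpotent a,
      ∃ n, finrank ℚ (C.extSpan V n) < (C.numRank V + 1) ^ (n + 1),
      ∃ A d : ℕ, ∀ n, A ≤ n →
        finrank ℚ (C.extSpan V n) ≤ A * (n + 1) ^ d * C.numRank V ^ (n + 1)] := by
  tfae_have 1 → 3 := finrank_le V
  tfae_have 3 → 2 := by
    rintro ⟨A, d, h⟩
    obtain ⟨n, hn, hlt⟩ := exists_lt A d (C.numRank V)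
    exact ⟨n, (h n hn).trans_lt hlt⟩
  tfae_have 2 → 1 := by
    rintro ⟨n, hn⟩ a ha haN
    by_contra hs
    exact absurd (le_finrank V ha haN hs n) (not_le.2 hn)
  tfae_finish

/-! ### numerical equivalence -/

lemma deg_eq_zero_of_mem {p : ℕ} {x : C.CH X} (hx : x ∈ C.gr X p) (hp : p ≠ X.dim) :
    C.deg X x = 0 := by
  rcases lt_or_gt_of_ne hp with h | h
  · have h1 := C.push_snd_pull_fst X X x
    rw [C.push_eq_zero (snd X X) (C.pull_mem (fst X X) hx) (by rw [dim_prod]; omega)] at h1
    by_cases h0 : (1 : C.CH X) = 0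
    · have h2 : x = 0 := by rw [← mul_one x, h0, mul_zero]
      rw [h2, map_zero]
    · have : Nontrivial (C.CH X) := ⟨⟨1, 0, h0⟩⟩
      exact (FaithfulSMul.algebraMap_injective ℚ (C.CH X)) (by rw [← h1, map_zero])
  · rw [C.gr_eq_bot X p h, Submodule.mem_bot] at hx
    rw [hx, map_zero]

/-- For homogeneous classes it suffices to intersect with classes of complementary codimension. -/
lemma mem_numTrivial_iff {r : ℕ} {a : C.CH X} (ha : a ∈ C.gr X r) :
    a ∈ C.numTrivial X ↔ ∀ b ∈ C.gr X (X.dim - r), C.deg X (a * b) = 0 := by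
  constructor
  · intro h b _
    exact h b
  · intro h b
    have hb : b ∈ ⨆ i, C.gr X i := by
      rw [(C.isInternal X).submodule_iSup_eq_top]
      trivial
    induction hb using Submodule.iSup_induction' with
    | mem i x hx =>
      by_cases hi : r + i = X.dim
      · exact h x (by rwa [show X.dim - r = i by omega])
      · exact deg_eq_zero_of_mem (C.mul_mem ha hx) hi
    | zero => rw [mul_zero, map_zero]
    | add x y _ _ hx hy => rw [mul_add, map_add, hx, hy, add_zero]

/-- the subset of the indices with `c i = none` -/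
def subsetEquiv (n : ℕ) : (Fin n → Option Unit) ≃ Finset (Fin n) where
  toFun c := Finset.univ.filter fun i => c i = none
  invFun S := fun i => if i ∈ S then none else some ()
  left_inv c := by
    funext i
    rcases h : c i with _ | ⟨⟩ <;> simp [h]
  right_inv S := by
    ext i
    simp

/-- One linear relation between the products of the pull-backs of `a` and `w`. -/
theorem linearIndependent_iff {a w : C.CH X} (ha : a ∈ C.numTrivial X)
    (hw : w ∉ C.numTrivial X) (n : ℕ) :
    LinearIndependent ℚ (fun S : Finset (Fin (n + 1)) =>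
      C.extProd n fun i => if i ∈ S then a else w) ↔ C.extProd n (fun _ => a) ≠ 0 := by
  constructor
  · intro h
    have h1 := h.ne_zero Finset.univ
    simpa using h1
  · intro h
    obtain ⟨b, hb⟩ : ∃ b, C.deg X (w * b) ≠ 0 := by
      by_contra hc
      push Not at hc
      exact hw hc
    rw [Fintype.linearIndependent_iff]
    intro g hg S
    have h1 := indep (κ := Unit) (fun _ => w) (fun _ => (C.deg X (w * b))⁻¹ • b) a
      (fun _ _ => by
        rw [mul_smul_comm, map_smul, smul_eq_mul, inv_mul_cancel₀ hb, if_pos rfl])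
      (fun _ => ha _) (n + 1) 0 (fun c => g (subsetEquiv _ c))
      (fun c _ => (nz_succ_iff.2 h).anti (by
        rw [zero_add, cnt]
        refine (Finset.sum_le_sum (g := fun _ => 1) fun i _ => ?_).trans (by simp)
        split <;> omega))
      (fun Y x z => ?_) ((subsetEquiv _).symm S)
    · rwa [Equiv.apply_symm_apply] at h1
    · obtain ⟨f, hf⟩ := exists_lift n x
      have h2 := congrArg (C.pull f) hg
      rw [map_zero, map_sum, ← (subsetEquiv (n + 1)).sum_comp] at h2
      rw [← h2]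
      refine Finset.sum_congr rfl fun c _ => ?_
      rw [Fin.prod_univ_zero, mul_one, map_smul, pull_extProd hf]
      congr 1
      refine Finset.prod_congr rfl fun i _ => ?_
      rcases h3 : c i with _ | ⟨⟩ <;> simp [subsetEquiv, h3]

end ChowTheory

end Pool.Agent.R903
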