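import Pool.Agent.R903.TautDefs
import Pool.Agent.R903.SmashGap
import Pool.Agent.R903.PermMain

/-!
# Tautological rings of powers and Bloch's conjecture
-/

open CategoryTheory CategoryTheory.Limits AlgebraicGeometry
open Pool.Agent.H914 Pool.Agent.H914.VarClass Pool.Agent.H914.VarClass.Obj
open Module

universe u v w

namespace Pool.Agent.R903

variable {k : Type u} [Field k] {𝒱 : VarClass k} {C : ChowTheory.{u, v} 𝒱}

namespace ChowTheory

variable {X Y : 𝒱.Obj} {ω : C.CH (X.prod X)}

lemma deg_push (f : X ⟶ Y) (x : C.CH X) : C.deg Y (C.push f x) = C.deg X x := by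
  by_cases h : (1 : C.CH X) = 0
  · have h1 : x = 0 := by rw [← mul_one x, h, mul_zero]
    rw [h1, map_zero, map_zero, map_zero]
  · have : Nontrivial (C.CH X) := ⟨⟨1, 0, h⟩⟩
    apply FaithfulSMul.algebraMap_injective ℚ (C.CH X)
    rw [← C.push_snd_pull_fst, ← C.push_snd_pull_fst, C.pull_fst_push, ← C.push_comp,
      prodMap_snd, Category.comp_id]

lemma deg_ext (a : C.CH X) (b : C.CH Y) :
    C.deg (X.prod Y) (C.ext a b) = C.deg X a * C.deg Y b := by
  rw [← deg_push (fst X Y), ext, C.mul_push, push_fst_pull_snd, mul_comm a, ← Algebra.smul_def,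
    map_smul, smul_eq_mul, mul_comm]

lemma ext_mul_ext (a c : C.CH X) (b d : C.CH Y) :
    C.ext a b * C.ext c d = C.ext (a * c) (b * d) := by
  rw [ext, ext, ext, C.pull_mul, C.pull_mul]
  ring

lemma extProd_succ (n : ℕ) (v : Fin (n + 2) → C.CH X) :
    C.extProd (n + 1) v = C.ext (v 0) (C.extProd n fun i => v i.succ) := by
  rw [extProd, Fin.prod_univ_succ, ext, extProd, map_prod]
  congr 1
  refine Finset.prod_congr rfl fun i _ => ?_
  rw [← C.pull_comp]
  rfl

lemma deg_extProd (n : ℕ) (v : Fin (n + 1) → C.CH X) :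
    C.deg (pw X n) (C.extProd n v) = ∏ i, C.deg X (v i) := by
  induction n with
  | zero =>
    rw [extProd, Fin.prod_univ_one, Fin.prod_univ_one]
    exact congrArg (C.deg X) (C.pull_id X (v 0))
  | succ n ih =>
    rw [extProd_succ, Fin.prod_univ_succ, ← ih]
    exact deg_ext _ _

lemma extProd_mul (n : ℕ) (v v' : Fin (n + 1) → C.CH X) :
    C.extProd n v * C.extProd n v' = C.extProd n fun i => v i * v' i := by
  rw [extProd, extProd, extProd, ← Finset.prod_mul_distrib]
  refine Finset.prod_congr rfl fun i _ => ?_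
  rw [C.pull_mul]

lemma extProd_one (n : ℕ) : C.extProd n (fun _ => (1 : C.CH X)) = 1 := by
  rw [extProd]
  refine Finset.prod_eq_one fun i _ => map_one _

/-- A nonzero idempotent correspondence is not smash-nilpotent. -/
lemma nz_of_idem (hω : C.comp ω ω = ω) (h0 : ω ≠ 0) (n : ℕ) : C.NZ ω n := by
  have h1 : C.NZ ω 1 := ⟨X.prod X, fun _ => 𝟙 _, by simpa [C.pull_id] using h0⟩
  have step : ∀ n, C.NZ ω (n + 1) → C.NZ ω (n + 2) := by
    rintro n ⟨Y, z, hz⟩
    refine ⟨Y.prod X, Fin.cons (lift (fst Y X ≫ z 0 ≫ fst X X) (snd Y X))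
      (Fin.cons (lift (snd Y X) (fst Y X ≫ z 0 ≫ snd X X)) fun i => fst Y X ≫ z i.succ),
      fun h => hz ?_⟩
    have h2 := congrArg (C.push (fst Y X)) h
    rw [map_zero, Fin.prod_univ_succ, Fin.prod_univ_succ] at h2
    simp only [Fin.cons_zero, Fin.cons_succ] at h2
    rw [← mul_assoc] at h2
    have h3 : ∏ i : Fin n, C.pull (fst Y X ≫ z i.succ) ω =
        C.pull (fst Y X) (∏ i : Fin n, C.pull (z i.succ) ω) := by
      rw [map_prod]
      simp only [C.pull_comp]
    rw [h3, C.push_mul, pull_comp_corr, hω] at h2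
    rw [Fin.prod_univ_succ]
    have h4 : lift (z 0 ≫ fst X X) (z 0 ≫ snd X X) = z 0 := by
      apply hom_ext_prod <;> simp
    rwa [h4] at h2
  have h2 : ∀ n, C.NZ ω (n + 1) := by
    intro n
    induction n with
    | zero => exact h1
    | succ n ih => exact step n ih
  rcases n with _ | n
  · exact h1.anti (by omega)
  · exact h2 n

/-- the `l`-th pair of factors -/
noncomputable def pt (X : 𝒱.Obj) (r : ℕ) (l : Fin (r + 1)) : pw X (2 * r + 1) ⟶ X.prod X :=
  lift (pr X (2 * r + 1) ⟨2 * l, by omega⟩) (pr X (2 * r + 1) ⟨2 * l + 1, by omega⟩)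

lemma exists_lift_pt (r : ℕ) (z : Fin (r + 1) → (Y ⟶ X.prod X)) :
    ∃ g : Y ⟶ pw X (2 * r + 1), ∀ l, g ≫ pt X r l = z l := by
  obtain ⟨g, hg⟩ := exists_lift (2 * r + 1) (fun i => if (i : ℕ) % 2 = 0 then
    z ⟨i / 2, by omega⟩ ≫ fst X X else z ⟨i / 2, by omega⟩ ≫ snd X X)
  refine ⟨g, fun l => ?_⟩
  apply hom_ext_prod
  · rw [pt, Category.assoc, Obj.lift_fst, hg]
    have h1 : (2 * (l : ℕ)) % 2 = 0 := by omega
    have h2 : (⟨2 * (l : ℕ) / 2, by omega⟩ : Fin (r + 1)) = l := Fin.ext (by simp)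
    simp only [h1, if_true, h2]
  · rw [pt, Category.assoc, Obj.lift_snd, hg]
    have h1 : (2 * (l : ℕ) + 1) % 2 ≠ 0 := by omega
    have h2 : (⟨(2 * (l : ℕ) + 1) / 2, by omega⟩ : Fin (r + 1)) = l :=
      Fin.ext (by simp only; omega)
    simp only [h1, if_false, h2]

lemma pull_pt_ext_mem {V : Submodule ℚ (C.CH X)} {r : ℕ} (l : Fin (r + 1)) {v v' : C.CH X}
    (hv : v ∈ V) (hv' : v' ∈ V) :
    C.pull (pt X r l) (C.ext v v') ∈ C.tautRing V (2 * r + 1) := by
  rw [pt, pull_lift_ext]
  exact MulMemClass.mul_mem (Algebra.subset_adjoin (Or.inl ⟨_, v, hv, rfl⟩))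
    (Algebra.subset_adjoin (Or.inl ⟨_, v', hv', rfl⟩))

lemma pull_pt_mem {V : Submodule ℚ (C.CH X)} {q : ℕ} {x y : Fin q → C.CH X}
    (hx : ∀ s, x s ∈ V) (hy : ∀ s, y s ∈ V) {φ : C.CH (X.prod X)}
    (hφ : φ = C.diagC X - ∑ s, C.ext (y s) (x s)) {r : ℕ} (l : Fin (r + 1)) :
    C.pull (pt X r l) φ ∈ C.tautRing V (2 * r + 1) := by
  rw [hφ, map_sub, map_sum]
  refine sub_mem (Algebra.subset_adjoin (Or.inr ⟨_, _, ?_, rfl⟩))
    (sum_mem fun s _ => pull_pt_ext_mem l (hy s) (hx s))
  intro h
  have := congrArg Fin.val h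
  simp at this

/-- The tautological rings are large if the phantom part of the diagonal does not vanish. -/
lemma le_tautRank {V : Submodule ℚ (C.CH X)} {q : ℕ} {x y : Fin q → C.CH X}
    (hx : ∀ s, x s ∈ V) (hy : ∀ s, y s ∈ V)
    (hxy : ∀ s t, C.deg X (x s * y t) = if s = t then 1 else 0) {φ : C.CH (X.prod X)}
    (hφ : φ = C.diagC X - ∑ s, C.ext (y s) (x s)) (hφφ : C.comp φ φ = φ)
    (hnum : φ ∈ C.numTrivial (X.prod X)) (h0 : φ ≠ 0) (r : ℕ) :
    (((q ^ 2 + 1) ^ (r + 1) : ℕ) : Cardinal) ≤ C.tautRank V (2 * r + 1) := by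
  classical
  set w : Fin q × Fin q → C.CH (X.prod X) := fun p => C.ext (x p.1) (x p.2) with hw
  set b : Fin q × Fin q → C.CH (X.prod X) := fun p => C.ext (y p.1) (y p.2) with hb
  have hwb : ∀ i j, C.deg (X.prod X) (w i * b j) = if i = j then 1 else 0 := by
    intro i j
    rw [hw, hb]
    simp only
    rw [ext_mul_ext, deg_ext, hxy, hxy]
    by_cases h1 : i.1 = j.1
    · by_cases h2 : i.2 = j.2
      · rw [if_pos h1, if_pos h2, if_pos (Prod.ext h1 h2), one_mul]
      · rw [if_neg h2, if_neg fun h => h2 (congrArg Prod.snd h), mul_zero]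
    · rw [if_neg h1, if_neg fun h => h1 (congrArg Prod.fst h), zero_mul]
  set F : (Fin (r + 1) → Option (Fin q × Fin q)) → C.CH (pw X (2 * r + 1)) :=
    fun c => ∏ l, C.pull (pt X r l) ((c l).elim φ w) with hF
  have hFmem : ∀ c, F c ∈ C.tautRing V (2 * r + 1) := by
    intro c
    refine prod_mem fun l _ => ?_
    rcases c l with _ | p
    · exact pull_pt_mem hx hy hφ l
    · exact pull_pt_ext_mem l (hx _) (hx _)
  have hli : LinearIndependent ℚ F := by
    rw [Fintype.linearIndependent_iff]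
    intro g hg
    refine indep w b φ hwb (fun j => hnum _) (r + 1) 0 g (fun c _ => nz_of_idem hφφ h0 _)
      fun Y z z' => ?_
    obtain ⟨f, hf⟩ := exists_lift_pt r z
    have h2 := congrArg (C.pull f) hg
    rw [map_zero, map_sum] at h2
    rw [← h2]
    refine Finset.sum_congr rfl fun c _ => ?_
    rw [Fin.prod_univ_zero, mul_one, map_smul, hF]
    simp only
    rw [map_prod]
    congr 1
    refine Finset.prod_congr rfl fun l _ => ?_
    rw [← C.pull_comp, hf]
  set G : (Fin (r + 1) → Option (Fin q × Fin q)) → C.tautRing V (2 * r + 1) :=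
    fun c => ⟨F c, hFmem c⟩ with hG
  have hGli : LinearIndependent ℚ G := by
    apply LinearIndependent.of_comp (C.tautRing V (2 * r + 1)).val.toLinearMap
    exact hli
  have h1 := hGli.cardinal_lift_le_rank
  rw [Cardinal.mk_fintype, Cardinal.lift_natCast, Cardinal.nat_le_lift_iff] at h1
  refine le_trans ?_ h1
  rw [Fintype.card_fun, Fintype.card_fin, Fintype.card_option, Fintype.card_prod,
    Fintype.card_fin, sq]

lemma extSpan_mul_mem {n : ℕ} {a b : C.CH (pw X n)} (ha : a ∈ C.extSpan (⊤ : Submodule ℚ _) n)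
    (hb : b ∈ C.extSpan (⊤ : Submodule ℚ (C.CH X)) n) :
    a * b ∈ C.extSpan (⊤ : Submodule ℚ (C.CH X)) n := by
  rw [extSpan] at ha hb ⊢
  induction ha using Submodule.span_induction with
  | mem a ha =>
    obtain ⟨v, -, rfl⟩ := ha
    induction hb using Submodule.span_induction with
    | mem b hb =>
      obtain ⟨v', -, rfl⟩ := hb
      rw [extProd_mul]
      exact Submodule.subset_span ⟨_, fun _ => trivial, rfl⟩
    | zero => rw [mul_zero]; exact Submodule.zero_mem _
    | add x y _ _ hx hy => rw [mul_add]; exact Submodule.add_mem _ hx hy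
    | smul c x _ hx => rw [mul_smul_comm]; exact Submodule.smul_mem _ _ hx
  | zero => rw [zero_mul]; exact Submodule.zero_mem _
  | add x y _ _ hx hy => rw [add_mul]; exact Submodule.add_mem _ hx hy
  | smul c x _ hx => rw [smul_mul_assoc]; exact Submodule.smul_mem _ _ hx

lemma one_mem_extSpan (n : ℕ) : (1 : C.CH (pw X n)) ∈ C.extSpan (⊤ : Submodule ℚ (C.CH X)) n :=
  Submodule.subset_span ⟨fun _ => 1, fun _ => trivial, (extProd_one n).symm⟩

lemma pull_mem_extSpan {n : ℕ} (i : Fin (n + 1)) (v : C.CH X) :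
    C.pull (pr X n i) v ∈ C.extSpan (⊤ : Submodule ℚ (C.CH X)) n := by
  classical
  refine Submodule.subset_span ⟨fun j => if j = i then v else 1, fun _ => trivial, ?_⟩
  rw [extProd, Finset.prod_eq_single i]
  · rw [if_pos rfl]
  · intro j _ hj
    rw [if_neg hj, map_one]
  · intro h
    exact absurd (Finset.mem_univ i) h

lemma mem_tautRing_iff (n : ℕ) {q : ℕ} {x y : Fin q → C.CH X}
    (h : C.diagC X = ∑ s, C.ext (y s) (x s)) (z : C.CH (pw X n)) :
    z ∈ C.tautRing (⊤ : Submodule ℚ (C.CH X)) n ↔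
      z ∈ C.extSpan (⊤ : Submodule ℚ (C.CH X)) n := by
  constructor
  · intro hz
    rw [tautRing] at hz
    induction hz using Algebra.adjoin_induction with
    | mem z hz =>
      rcases hz with ⟨i, v, -, rfl⟩ | ⟨i, j, -, rfl⟩
      · exact pull_mem_extSpan i v
      · rw [h, map_sum]
        refine Submodule.sum_mem _ fun s _ => ?_
        rw [pull_lift_ext]
        exact extSpan_mul_mem (pull_mem_extSpan i _) (pull_mem_extSpan j _)
    | algebraMap r =>
      rw [Algebra.algebraMap_eq_smul_one]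
      exact Submodule.smul_mem _ _ (one_mem_extSpan n)
    | add a b _ _ ha hb => exact Submodule.add_mem _ ha hb
    | mul a b _ _ ha hb => exact extSpan_mul_mem ha hb
  · intro hz
    rw [extSpan] at hz
    induction hz using Submodule.span_induction with
    | mem z hz =>
      obtain ⟨v, -, rfl⟩ := hz
      exact prod_mem fun i _ => Algebra.subset_adjoin (Or.inl ⟨i, v i, trivial, rfl⟩)
    | zero => exact zero_mem _
    | add a b _ _ ha hb => exact add_mem ha hb
    | smul c a _ ha => exact Subalgebra.smul_mem _ ha c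

/-- if the diagonal is a sum of exterior products, then the tautological rings are spanned by
exterior products -/
lemma span_of_diag {q : ℕ} {x y : Fin q → C.CH X} (h : C.diagC X = ∑ s, C.ext (y s) (x s)) :
    Submodule.span ℚ (Set.range x) = ⊤ := by
  rw [eq_top_iff]
  intro a _
  rw [← C.act_diagC a, h, C.act_sum, LinearMap.sum_apply]
  refine Submodule.sum_mem _ fun s _ => ?_
  rw [C.act_ext]
  exact Submodule.smul_mem _ _ (Submodule.subset_span ⟨s, rfl⟩)

/-- if the diagonal is a sum of exterior products, then classes in the tautological rings are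
determined by their intersection numbers -/
lemma eq_zero_of_taut {q : ℕ} {x y : Fin q → C.CH X}
    (hxy : ∀ s t, C.deg X (x s * y t) = if s = t then 1 else 0)
    (h : C.diagC X = ∑ s, C.ext (y s) (x s)) {n : ℕ} {z : C.CH (pw X n)}
    (hz : z ∈ C.extSpan (⊤ : Submodule ℚ (C.CH X)) n) (h0 : z ∈ C.numTrivial (pw X n)) :
    z = 0 := by
  classical
  rw [← span_extProd x (span_of_diag h), Submodule.mem_span_range_iff_exists_fun] at hz
  obtain ⟨g, rfl⟩ := hz
  have key : ∀ c, g c = 0 := by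
    intro c
    have h1 := h0 (C.extProd n fun i => y (c i))
    rw [Finset.sum_mul, map_sum, Finset.sum_eq_single c] at h1
    · rw [smul_mul_assoc, map_smul, extProd_mul, deg_extProd] at h1
      simpa [hxy] using h1
    · intro c' _ hc'
      rw [smul_mul_assoc, map_smul, extProd_mul, deg_extProd]
      obtain ⟨i, hi⟩ := Function.ne_iff.1 hc'
      rw [Finset.prod_eq_zero (Finset.mem_univ i) (by rw [hxy, if_neg hi]), smul_zero]
    · intro hc
      exact absurd (Finset.mem_univ c) hc
  exact Finset.sum_eq_zero fun c _ => by rw [key, zero_smul]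

/-- if the diagonal is a sum of exterior products, then the tautological rings have the expected
dimension -/
lemma finrank_extSpan_top {q : ℕ} {x y : Fin q → C.CH X}
    (hxy : ∀ s t, C.deg X (x s * y t) = if s = t then 1 else 0)
    (h : C.diagC X = ∑ s, C.ext (y s) (x s)) (n : ℕ) :
    FiniteDimensional ℚ (C.extSpan (⊤ : Submodule ℚ (C.CH X)) n) ∧
      finrank ℚ (C.extSpan (⊤ : Submodule ℚ (C.CH X)) n) = q ^ (n + 1) := by
  classical
  rw [← span_extProd x (span_of_diag h)]
  refine ⟨FiniteDimensional.span_of_finite ℚ (Set.finite_range _), ?_⟩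
  have hli : LinearIndependent ℚ fun c : Fin (n + 1) → Fin q => C.extProd n fun i => x (c i) := by
    rw [Fintype.linearIndependent_iff]
    intro g hg c
    have h1 := congrArg (fun z => C.deg _ (z * C.extProd n fun i => y (c i))) hg
    simp only [zero_mul, map_zero] at h1
    rw [Finset.sum_mul, map_sum, Finset.sum_eq_single c] at h1
    · rw [smul_mul_assoc, map_smul, extProd_mul, deg_extProd] at h1
      simpa [hxy] using h1
    · intro c' _ hc'
      rw [smul_mul_assoc, map_smul, extProd_mul, deg_extProd]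
      obtain ⟨i, hi⟩ := Function.ne_iff.1 hc'
      rw [Finset.prod_eq_zero (Finset.mem_univ i) (by rw [hxy, if_neg hi]), smul_zero]
    · intro hc
      exact absurd (Finset.mem_univ c) hc
  rw [finrank_span_eq_card hli, Fintype.card_fun, Fintype.card_fin, Fintype.card_fin]

end ChowTheory

namespace WeilTheory

variable {W : WeilTheory.{u, v, w} C} {X : 𝒱.Obj}

/-- The decomposition of the diagonal given by dual families of classes. -/
lemma split_of_dual {ι : Type*} [Fintype ι] [DecidableEq ι] {x y : ι → C.CH X}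
    (hxy : ∀ s t, C.deg X (x s * y t) = if s = t then 1 else 0)
    (hsp : Submodule.span W.K (Set.range fun s => W.cl X (x s)) = ⊤) {φ : C.CH (X.prod X)}
    (hφ : φ = C.diagC X - ∑ s, C.ext (y s) (x s)) :
    C.comp φ φ = φ ∧ W.cl _ φ = 0 ∧ (φ = 0 → ∀ γ : C.CH (X.prod X), W.cl _ γ = 0 → γ = 0) := by
  set f : ι → C.CH (X.prod X) := fun s => C.ext (y s) (x s) with hf
  have hff : ∀ s t, C.comp (f s) (f t) = if s = t then f s else 0 := by
    intro s t
    rw [hf]
    simp only
    rw [C.ext_comp_ext, hxy]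
    split_ifs with h
    · rw [h, one_smul]
    · rw [zero_smul]
  have hact : ∀ s z, C.act (f s) z = C.deg X (z * y s) • x s := fun s z => C.act_ext _ _ _
  set ψ : C.CH (X.prod X) := ∑ s, f s with hψ
  have hfψ : ∀ s, C.comp (f s) ψ = f s := by
    intro s
    rw [hψ, C.comp_sum]
    simp only [hff]
    rw [Finset.sum_ite_eq]
    simp
  have hψψ : C.comp ψ ψ = ψ := by
    conv_lhs => rw [hψ, C.sum_comp]
    exact Finset.sum_congr rfl fun s _ => hfψ s
  have hxu : ∀ u, C.act ψ (x u) = x u := by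
    intro u
    rw [hψ, C.act_sum, LinearMap.sum_apply]
    simp only [hact, hxy]
    rw [Finset.sum_eq_single u]
    · rw [if_pos rfl, one_smul]
    · intro s _ hs
      rw [if_neg (Ne.symm hs), zero_smul]
    · intro h; exact absurd (Finset.mem_univ _) h
  have hWψ : W.act ψ = LinearMap.id := by
    apply LinearMap.ext_on_range hsp
    intro u
    rw [← W.cl_act, hxu, LinearMap.id_apply]
  have hsubcomp : ∀ α β γ : C.CH (X.prod X), C.comp (α - β) γ = C.comp α γ - C.comp β γ := by
    intro α β γ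
    rw [sub_eq_add_neg, C.add_comp, ← neg_one_smul ℚ β, C.smul_comp, neg_one_smul,
      ← sub_eq_add_neg]
  have hcompsub : ∀ α β γ : C.CH (X.prod X), C.comp α (β - γ) = C.comp α β - C.comp α γ := by
    intro α β γ
    rw [sub_eq_add_neg, C.comp_add, ← neg_one_smul ℚ γ, C.comp_smul, neg_one_smul,
      ← sub_eq_add_neg]
  have hφψ : C.comp φ ψ = 0 := by rw [hφ, hsubcomp, C.diagC_comp, hψψ, sub_self]
  have hφφ : C.comp φ φ = φ := by
    conv_lhs => rw [hφ, hcompsub, C.comp_diagC]
    rw [← hφ, hφψ, sub_zero]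
  have hWφ : W.act φ = 0 := by
    rw [hφ, W.act_sub, hWψ]
    ext a
    rw [LinearMap.sub_apply, W.act_diagC, LinearMap.id_apply, sub_self, LinearMap.zero_apply]
  have hclφ : W.cl _ φ = 0 := cl_eq_zero_of_isZeroMap fun a => by
    rw [hWφ, LinearMap.zero_apply]
  refine ⟨hφφ, hclφ, ?_⟩
  intro hφ0 γ hγ
  have hdiag : C.diagC X = ψ := by rwa [hφ, sub_eq_zero] at hφ0
  have hWγ : ∀ a, W.act γ a = 0 := by
    intro a
    rw [act_apply, hγ, zero_mul, map_zero]
  have h1 : γ = C.comp (C.comp ψ γ) ψ := by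
    rw [← hdiag, C.diagC_comp, C.comp_diagC]
  rw [h1, hψ, C.sum_comp, C.sum_comp]
  refine Finset.sum_eq_zero fun s _ => ?_
  rw [C.comp_sum]
  refine Finset.sum_eq_zero fun t _ => ?_
  rw [hf]
  simp only
  rw [C.ext_comp, C.ext_comp_ext]
  have h2 : ((C.deg X (C.act γ (x s) * y t) : ℚ) : W.K) = 0 := by
    rw [← W.tr_cl, W.cl_mul, W.cl_act, hWγ, zero_mul, map_zero]
  have h3 : C.deg X (C.act γ (x s) * y t) = 0 := by exact_mod_cast h2
  rw [h3, zero_smul]

/-- If the cohomology is algebraic then numerically trivial classes are homologically trivial. -/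
lemma AlgebraicCohomology.cl_eq_zero (hX : W.AlgebraicCohomology X) {a : C.CH X}
    (ha : a ∈ C.numTrivial X) : W.cl X a = 0 := by
  apply W.nondeg
  intro b
  have hb : b ∈ Submodule.span W.K (Set.range (W.cl X)) := by
    rw [show Submodule.span W.K (Set.range (W.cl X)) = ⊤ from hX]
    trivial
  induction hb using Submodule.span_induction with
  | mem x hx =>
    obtain ⟨c, rfl⟩ := hx
    rw [← W.cl_mul, W.tr_cl, ha c, Rat.cast_zero]
  | zero => rw [mul_zero, map_zero]
  | add x y _ _ hx hy => rw [mul_add, map_add, hx, hy, add_zero]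
  | smul c x _ hx => rw [mul_smul_comm, map_smul, hx, smul_zero]

/-- Dual families in a complement of the space of the numerically trivial classes. -/
lemma AlgebraicCohomology.exists_dual_in (hX : W.AlgebraicCohomology X)
    {V : Submodule ℚ (C.CH X)} (hV : C.IsLift V) :
    ∃ x y : Fin (finrank W.K (W.H X)) → C.CH X,
      (∀ s, x s ∈ V) ∧ (∀ s, y s ∈ V) ∧
      (∀ s t, C.deg X (x s * y t) = if s = t then 1 else 0) ∧
      Submodule.span W.K (Set.range fun s => W.cl X (x s)) = ⊤ := by
  obtain ⟨ι, _, _, d, x, y, hd, hx, hy, hxy, hsp⟩ := hX.exists_dual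
  have h1 : ∀ a : C.CH X, ∃ v ∈ V, a - v ∈ C.numTrivial X := by
    intro a
    have ha : a ∈ V ⊔ C.numTrivial X := by
      rw [hV.sup_eq_top]
      trivial
    obtain ⟨v, hv, n, hn, rfl⟩ := Submodule.mem_sup.1 ha
    exact ⟨v, hv, by simpa using hn⟩
  choose f hfV hf using h1
  have hli : LinearIndependent W.K fun s => W.cl X (x s) := by
    rw [Fintype.linearIndependent_iff]
    intro c hc t
    have h1 := congrArg (fun z => W.tr X (z * W.cl X (y t))) hc
    simp only [zero_mul, map_zero, Finset.sum_mul, map_sum, smul_mul_assoc, map_smul,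
      ← W.cl_mul, W.tr_cl, hxy, smul_eq_mul] at h1
    rw [Finset.sum_eq_single t] at h1
    · simpa using h1
    · intro s _ hs
      rw [if_neg hs]; simp
    · intro h; exact absurd (Finset.mem_univ _) h
  have hcard : Fintype.card ι = finrank W.K (W.H X) :=
    (Module.finrank_eq_card_basis (Module.Basis.mk hli hsp.ge)).symm
  set e : Fin (finrank W.K (W.H X)) ≃ ι := (Fintype.equivFinOfCardEq hcard).symm with he
  refine ⟨fun s => f (x (e s)), fun s => f (y (e s)),
    fun s => hfV _, fun s => hfV _, fun s t => ?_, ?_⟩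
  · have e2 : (if s = t then (1 : ℚ) else 0) = if e s = e t then 1 else 0 := by
      simp only [e.injective.eq_iff]
    rw [e2, ← hxy]
    have e1 : x (e s) * y (e t) = f (x (e s)) * f (y (e t)) + (x (e s) - f (x (e s))) * y (e t) +
        (y (e t) - f (y (e t))) * f (x (e s)) := by ring
    rw [e1, map_add, map_add, hf, hf, add_zero, add_zero]
  · rw [← hsp]
    have h2 : (fun s => W.cl X (f (x (e s)))) = (fun s => W.cl X (x s)) ∘ e := by
      funext s
      have h2 := hX.cl_eq_zero (hf (x (e s)))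
      rw [map_sub, sub_eq_zero] at h2
      exact h2.symm
    rw [h2, e.surjective.range_comp]

/-- Bloch's conjecture and the growth of the tautological rings. -/
theorem AlgebraicCohomology.taut_tfae (hX : W.AlgebraicCohomology X)
    {V : Submodule ℚ (C.CH X)} (hV : C.IsLift V) :
    List.TFAE [∀ i, W.ClInjective (X.prod X) i,
      ∀ n, C.tautRank V n = ((finrank W.K (W.H X) ^ (n + 1) : ℕ) : Cardinal),
      ∀ n, W.InjectiveOnTaut V n,
      ∃ r, C.tautRank V (2 * r + 1) <
        (((finrank W.K (W.H X) ^ 2 + 1) ^ (r + 1) : ℕ) : Cardinal)] := by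
  obtain ⟨x, y, hx, hy, hxy, hsp⟩ := hX.exists_dual_in hV
  obtain ⟨hφφ, hφcl, hφ0⟩ := split_of_dual (W := W) hxy hsp rfl
  set φ := C.diagC X - ∑ s, C.ext (y s) (x s) with hφ
  have hnum : φ ∈ C.numTrivial (X.prod X) := by
    intro b
    have h1 : ((C.deg _ (φ * b) : ℚ) : W.K) = 0 := by
      rw [← W.tr_cl, W.cl_mul, hφcl, zero_mul, map_zero]
    exact_mod_cast h1
  -- the phantom part vanishes
  have key : φ = 0 → C.diagC X = ∑ s, C.ext (y s) (x s) ∧ V = ⊤ := by
    intro h
    have h1 : C.diagC X = ∑ s, C.ext (y s) (x s) := by rwa [hφ, sub_eq_zero] at h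
    refine ⟨h1, ?_⟩
    rw [eq_top_iff, ← ChowTheory.span_of_diag h1, Submodule.span_le]
    rintro _ ⟨s, rfl⟩
    exact hx s
  have hzero : (∀ i, W.ClInjective (X.prod X) i) → φ = 0 := by
    intro h
    obtain ⟨ι, _, p, q, φ', h1, h2, h3, h4, h5, h6, h7⟩ := hX.exists_split
    exact h7 (h _ φ' h4 h3) φ hφcl
  tfae_have 1 → 2 := by
    intro h n
    obtain ⟨h1, rfl⟩ := key (hzero h)
    obtain ⟨h2, h3⟩ := ChowTheory.finrank_extSpan_top hxy h1 n
    have h4 : Subalgebra.toSubmodule (C.tautRing (⊤ : Submodule ℚ (C.CH X)) n) =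
        C.extSpan ⊤ n := by
      ext z
      exact ChowTheory.mem_tautRing_iff n h1 z
    rw [ChowTheory.tautRank, ← h3, finrank_eq_rank]
    exact (LinearEquiv.ofEq _ _ h4).rank_eq
  tfae_have 1 → 3 := by
    intro h n z hz h0
    obtain ⟨h1, rfl⟩ := key (hzero h)
    refine ChowTheory.eq_zero_of_taut hxy h1 ((ChowTheory.mem_tautRing_iff n h1 z).1 hz) ?_
    intro b
    have h2 : ((C.deg _ (z * b) : ℚ) : W.K) = 0 := by
      rw [← W.tr_cl, W.cl_mul, h0, zero_mul, map_zero]
    exact_mod_cast h2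
  tfae_have 2 → 4 := by
    intro h
    refine ⟨0, ?_⟩
    rw [h]
    exact_mod_cast (by simp : finrank W.K (W.H X) ^ (2 * 0 + 1 + 1) <
      (finrank W.K (W.H X) ^ 2 + 1) ^ (0 + 1))
  tfae_have 4 → 1 := by
    rintro ⟨r, hr⟩
    have h1 : φ = 0 := by
      by_contra h0
      exact absurd (ChowTheory.le_tautRank hx hy hxy hφ hφφ hnum h0 r) (not_le.2 hr)
    exact fun i γ _ hγ => hφ0 h1 γ hγ
  tfae_have 3 → 1 := by
    intro h i γ _ hγ
    refine hφ0 ?_ γ hγ
    obtain ⟨g, hg⟩ := ChowTheory.exists_lift_pt (X := X) 0 (fun _ => 𝟙 (X.prod X))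
    have h1 := h _ _ (ChowTheory.pull_pt_mem hx hy hφ (0 : Fin (0 + 1)))
      (by rw [W.cl_pull, hφcl, map_zero])
    rw [← C.pull_id _ φ, ← hg 0, C.pull_comp, h1, map_zero]
  tfae_finish

end WeilTheory

end Pool.Agent.R903
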