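import Pool.Agent.R903.ExpDefs
import Pool.Agent.R903.Taut
import Pool.Agent.R903.PermKim

/-!
# Fibre powers of families of cycles
-/

open CategoryTheory CategoryTheory.Limits AlgebraicGeometry
open Pool.Agent.H914 Pool.Agent.H914.VarClass Pool.Agent.H914.VarClass.Obj
open Equiv Equiv.Perm Pool.Agent.R903.PermCore

universe u v w

namespace Pool.Agent.R903

variable {k : Type u} [Field k] {𝒱 : VarClass k} {C : ChowTheory.{u, v} 𝒱}

namespace ChowTheory

variable {X Y : 𝒱.Obj} {φ : C.CH (X.prod X)}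

variable (C) in
/-- the product of the sums of the values of `φ` vanishes for all morphisms to `X` -/
def FunVanish (φ : C.CH (X.prod X)) (r n : ℕ) : Prop :=
  ∀ (Y : 𝒱.Obj) (x : Fin r → (Y ⟶ X)) (y : Fin n → (Y ⟶ X)),
    ∏ j, ∑ i, C.pull (lift (x i) (y j)) φ = 0

lemma famPower_pointSum (φ : C.CH (X.prod X)) (r n : ℕ) :
    C.famPower (C.pointSum φ r) n = ∏ j, ∑ i, C.pull
      (lift (fst (pw X r) (pw X n) ≫ pr X r i) (snd (pw X r) (pw X n) ≫ pr X n j)) φ := by
  rw [famPower]
  refine Finset.prod_congr rfl fun j _ => ?_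
  rw [pointSum, map_sum]
  refine Finset.sum_congr rfl fun i _ => ?_
  rw [← C.pull_comp, comp_lift, Obj.lift_fst_assoc, Obj.lift_snd]

lemma sumPowerVanishes_iff {r n : ℕ} :
    C.SumPowerVanishes φ r n ↔ 1 ≤ r ∧ 1 ≤ n ∧ C.FunVanish φ r n := by
  constructor
  · rintro ⟨r', n', rfl, rfl, h⟩
    refine ⟨by omega, by omega, fun Y x y => ?_⟩
    obtain ⟨f, hf⟩ := exists_lift r' x
    obtain ⟨g, hg⟩ := exists_lift n' y
    have h1 := congrArg (C.pull (lift f g)) h
    rw [map_zero, famPower_pointSum, map_prod] at h1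
    rw [← h1]
    refine Finset.prod_congr rfl fun j _ => ?_
    rw [map_sum]
    refine Finset.sum_congr rfl fun i _ => ?_
    rw [← C.pull_comp, comp_lift, Obj.lift_fst_assoc, Obj.lift_snd_assoc, hf, hg]
  · rintro ⟨h1, h2, h⟩
    obtain ⟨r', rfl⟩ : ∃ r', r = r' + 1 := ⟨r - 1, by omega⟩
    obtain ⟨n', rfl⟩ : ∃ n', n = n' + 1 := ⟨n - 1, by omega⟩
    exact ⟨r', n', rfl, rfl, by rw [famPower_pointSum]; exact h _ _ _⟩

lemma prod_eq_zero_of_emb {R : Type*} [CommRing R] {n e : ℕ} (g : Fin e ↪ Fin n) {F : Fin n → R}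
    (h : ∏ j, F (g j) = 0) : ∏ j, F j = 0 := by
  classical
  rw [← Finset.prod_mul_prod_compl (Finset.univ.map g) F, Finset.prod_map, h, zero_mul]

lemma FunVanish.mono {r n n' : ℕ} (h : C.FunVanish φ r n) (hn : n ≤ n') : C.FunVanish φ r n' := by
  intro Y x y
  exact prod_eq_zero_of_emb (Fin.castLEEmb hn) (h Y x (fun j => y (Fin.castLE hn j)))

/-- Pigeonhole. -/
lemma FunVanish.of_one {e r n : ℕ} (he : C.FunVanish φ 1 e) (hn : r * (e - 1) < n) :
    C.FunVanish φ r n := by
  classical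
  intro Y x y
  rw [Finset.prod_univ_sum]
  refine Finset.sum_eq_zero fun f _ => ?_
  obtain ⟨i, -, hi⟩ := Finset.exists_lt_card_fiber_of_mul_lt_card_of_maps_to
    (s := (Finset.univ : Finset (Fin n))) (t := (Finset.univ : Finset (Fin r))) (f := f)
    (n := e - 1) (fun _ _ => Finset.mem_univ _) (by simpa using hn)
  obtain ⟨J, hJ, hJc⟩ := Finset.exists_subset_card_eq
    (s := Finset.univ.filter fun j => f j = i) (n := e) (by omega)
  refine prod_eq_zero_of_emb (J.orderEmbOfFin hJc).toEmbedding ?_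
  have h1 := he Y (fun _ => x i) (fun j => y (J.orderEmbOfFin hJc j))
  rw [← h1]
  refine Finset.prod_congr rfl fun j _ => ?_
  rw [Fintype.sum_unique]
  have h2 : f (J.orderEmbOfFin hJc j) = i :=
    (Finset.mem_filter.1 (hJ (J.orderEmbOfFin_mem hJc j))).2
  change C.pull (lift (x (f (J.orderEmbOfFin hJc j))) (y (J.orderEmbOfFin hJc j))) φ = _
  rw [h2]

/-! ### Polarization -/

variable (C) in
/-- `φ` acts on the parameter `x` of `∏ φ(x, y_j)`, `j ∈ J` -/
noncomputable def blk {n : ℕ} (φ : C.CH (X.prod X)) (x : Y ⟶ X) (J : Finset (Fin n))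
    (y : Fin n → (Y ⟶ X)) : C.CH Y :=
  C.push (fst Y X) (C.pull (lift (fst Y X ≫ x) (snd Y X)) φ *
    ∏ j ∈ J, C.pull (lift (snd Y X) (fst Y X ≫ y j)) φ)

/-- the graph of the base change -/
lemma pull_push_fst {B : 𝒱.Obj} (f : Y ⟶ B) (z : C.CH (B.prod X)) :
    C.pull f (C.push (fst B X) z) =
      C.push (fst Y X) (C.pull (lift (fst Y X ≫ f) (snd Y X)) z) :=
  C.pull_push_proj (fst B X) (snd B X) isIso_lift_fst_snd f _ (Obj.lift_fst _ _)
    (Obj.lift_snd _ _) z

lemma blk_empty {n : ℕ} (h1 : C.push (fst X X) φ = 0) (x : Y ⟶ X) (y : Fin n → (Y ⟶ X)) :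
    C.blk φ x ∅ y = 0 := by
  rw [blk, Finset.prod_empty, mul_one, ← pull_push_fst, h1, map_zero]

lemma blk_singleton {n : ℕ} (hφ : C.comp φ φ = φ) (x : Y ⟶ X) (y : Fin n → (Y ⟶ X)) (j : Fin n) :
    C.blk φ x {j} y = C.pull (lift x (y j)) φ := by
  rw [blk, Finset.prod_singleton, pull_comp_corr, hφ]

lemma pull_blk {n : ℕ} (x : Y ⟶ X) (J : Finset (Fin n)) (y : Fin n → (Y ⟶ X)) :
    C.pull (fst Y X) (C.blk φ x J y) = C.blk φ (fst Y X ≫ x) J (fun j => fst Y X ≫ y j) := by
  rw [blk, pull_push_fst, blk, C.pull_mul, map_prod]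
  congr 2
  · rw [← C.pull_comp]
    congr 2
    apply hom_ext_prod <;> simp
  · refine Finset.prod_congr rfl fun j _ => ?_
    rw [← C.pull_comp]
    congr 2
    apply hom_ext_prod <;> simp

/-- the function `f`-term with `φ` applied to the parameters in `S` -/
noncomputable def trm (φ : C.CH (X.prod X)) {n r : ℕ} (S : Finset (Fin r)) (x : Fin r → (Y ⟶ X))
    (y : Fin n → (Y ⟶ X)) (f : Fin n → Fin r) (i : Fin r) : C.CH Y :=
  if i ∈ S then C.blk φ (x i) (Finset.univ.filter fun j => f j = i) y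
    else ∏ j ∈ Finset.univ.filter fun j => f j = i, C.pull (lift (x i) (y j)) φ

lemma FunVanish.term {r n : ℕ} (h : C.FunVanish φ r n) (S : Finset (Fin r)) :
    ∀ (Y : 𝒱.Obj) (x : Fin r → (Y ⟶ X)) (y : Fin n → (Y ⟶ X)),
      ∑ f : Fin n → Fin r, ∏ i, C.trm φ S x y f i = 0 := by
  classical
  induction S using Finset.induction_on with
  | empty =>
    intro Y x y
    have h1 := h Y x y
    rw [Finset.prod_univ_sum, Fintype.piFinset_univ] at h1
    rw [← h1]
    refine Finset.sum_congr rfl fun f _ => ?_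
    rw [← Finset.prod_fiberwise (s := (Finset.univ : Finset (Fin n))) f]
    refine Finset.prod_congr rfl fun i _ => ?_
    rw [trm, if_neg (Finset.notMem_empty i)]
    refine Finset.prod_congr rfl fun j hj => ?_
    rw [(Finset.mem_filter.1 hj).2]
  | insert i₀ S hi₀ ih =>
    intro Y x y
    have h1 := ih (Y.prod X) (fun i => if i = i₀ then snd Y X else fst Y X ≫ x i)
      (fun j => fst Y X ≫ y j)
    have h2 := congrArg (fun z => C.push (fst Y X)
      (C.pull (lift (fst Y X ≫ x i₀) (snd Y X)) φ * z)) h1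
    simp only [mul_zero, map_zero, Finset.mul_sum, map_sum] at h2
    rw [← h2]
    refine Finset.sum_congr rfl fun f _ => ?_
    rw [← Finset.mul_prod_erase Finset.univ _ (Finset.mem_univ i₀),
      ← Finset.mul_prod_erase Finset.univ _ (Finset.mem_univ i₀)]
    have h3 : ∀ i ∈ Finset.univ.erase i₀,
        C.trm φ S (fun i => if i = i₀ then snd Y X else fst Y X ≫ x i)
          (fun j => fst Y X ≫ y j) f i = C.pull (fst Y X) (C.trm φ (insert i₀ S) x y f i) := by
      intro i hi
      have hij : i ≠ i₀ := (Finset.mem_erase.1 hi).1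
      have h4 : (i ∈ insert i₀ S) = (i ∈ S) := by simp [hij]
      rw [trm, trm]
      simp only [h4, if_neg hij]
      split_ifs with hS
      · rw [pull_blk]
      · rw [map_prod]
        refine Finset.prod_congr rfl fun j _ => ?_
        rw [← C.pull_comp, comp_lift]
    rw [Finset.prod_congr rfl h3, ← map_prod, ← mul_assoc, C.push_mul]
    congr 1
    rw [trm, if_pos (Finset.mem_insert_self i₀ S), trm, if_neg hi₀]
    simp only [if_true]
    rfl

/-- The symmetrizer. -/
lemma FunVanish.sym {n : ℕ} (hφ : C.comp φ φ = φ) (h1 : C.push (fst X X) φ = 0)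
    (h : C.FunVanish φ n n) : C.PermRel φ n (chi (-1)) := by
  classical
  intro Y x y
  have h2 := h.term Finset.univ Y x y
  have h3 : ∀ σ : Perm (Fin n), ∏ i, C.trm φ Finset.univ x y (⇑σ) i =
      ∏ i, C.pull (lift (x i) (y (σ⁻¹ i))) φ := by
    intro σ
    refine Finset.prod_congr rfl fun i _ => ?_
    rw [trm, if_pos (Finset.mem_univ i)]
    have h4 : (Finset.univ.filter fun j => σ j = i) = {σ⁻¹ i} := by
      ext j
      simp only [Finset.mem_filter, Finset.mem_univ, true_and, Finset.mem_singleton]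
      constructor
      · rintro rfl; simp
      · rintro rfl; simp
    rw [h4, blk_singleton hφ]
  have h5 : ∀ f : Fin n → Fin n, f ∉ Finset.univ.image (fun σ : Perm (Fin n) => ⇑σ) →
      ∏ i, C.trm φ Finset.univ x y f i = 0 := by
    intro f hf
    have h6 : ¬ Function.Surjective f := by
      intro hs
      apply hf
      refine Finset.mem_image.2 ⟨Equiv.ofBijective f (Finite.surjective_iff_bijective.1 hs),
        Finset.mem_univ _, rfl⟩
    rw [Function.Surjective] at h6
    push Not at h6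
    obtain ⟨i, hi⟩ := h6
    refine Finset.prod_eq_zero (Finset.mem_univ i) ?_
    rw [trm, if_pos (Finset.mem_univ i)]
    have h4 : (Finset.univ.filter fun j => f j = i) = ∅ :=
      Finset.filter_eq_empty_iff.2 fun j _ => hi j
    rw [h4, blk_empty h1]
  rw [← Finset.sum_subset (Finset.subset_univ (Finset.univ.image fun σ : Perm (Fin n) => ⇑σ))
    (fun f _ hf => h5 f hf), Finset.sum_image (fun σ _ τ _ h => DFunLike.coe_injective h)] at h2
  rw [← Equiv.sum_comp (Equiv.inv (Perm (Fin n)))]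
  rw [← h2]
  refine Finset.sum_congr rfl fun σ _ => ?_
  rw [h3]
  have h7 : chi (-1) ((Equiv.inv (Perm (Fin n))) σ) = 1 := by
    rw [chi, if_neg (by decide)]
  rw [h7, one_smul]
  rfl

lemma eq_zero_of_funVanish {n : ℕ} (hφ : C.comp φ φ = φ) (h1 : C.push (fst X X) φ = 0)
    (h0 : C.motDim φ = 0) (h : C.FunVanish φ n n) : φ = 0 := by
  by_cases hX : (1 : C.CH X) = 0
  · rw [← mul_one φ, ← map_one (C.pull (fst X X)), hX, map_zero, mul_zero]
  · have hR := isRelSystem hX hφ
    obtain ⟨N, hN, h2⟩ := hR.descend (-1) (h.sym hφ h1)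
    rw [h0, mul_zero, zero_add] at hN
    obtain rfl : N = 1 := by exact_mod_cast hN
    have h3 := h2 (X.prod X) (fun _ => fst X X) (fun _ => snd X X)
    have hu : (Finset.univ : Finset (Perm (Fin 1))) = {1} := by decide
    rw [hu, Finset.sum_singleton, chi_one, one_smul, Fin.prod_univ_one, lift_fst_snd,
      C.pull_id] at h3
    exact h3

/-! ### the residual part of the diagonal -/

lemma push_fst_diagC_mul (y : C.CH X) :
    C.push (fst X X) (C.diagC X * C.pull (snd X X) y) = y := by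
  rw [diagC, ← C.push_mul, one_mul, ← C.push_comp, ← C.pull_comp, diag_fst, diag_snd, C.push_id,
    C.pull_id]

lemma push_fst_ext_mul (a b : C.CH X) (y : C.CH X) :
    C.push (fst X X) (C.pull (fst X X) a * C.pull (snd X X) b * C.pull (snd X X) y) =
      C.deg X (b * y) • a := by
  rw [mul_assoc, ← C.pull_mul, mul_comm, C.push_mul, push_fst_pull_snd, ← Algebra.smul_def]

lemma residual_orth {q : ℕ} {x y : Fin q → C.CH X}
    (hxy : ∀ s t, C.deg X (x s * y t) = if s = t then 1 else 0) (t : Fin q) :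
    C.push (fst X X) (C.residual x y * C.pull (snd X X) (y t)) = 0 := by
  rw [residual, sub_mul, map_sub, push_fst_diagC_mul, Finset.sum_mul, map_sum]
  simp only [push_fst_ext_mul, hxy]
  rw [Finset.sum_eq_single t]
  · rw [if_pos rfl, one_smul, sub_self]
  · intro s _ hs
    rw [if_neg hs, zero_smul]
  · intro h; exact absurd (Finset.mem_univ _) h

lemma push_fst_residual {q : ℕ} {x y : Fin q → C.CH X}
    (hxy : ∀ s t, C.deg X (x s * y t) = if s = t then 1 else 0)
    (h1 : 1 ∈ Submodule.span ℚ (Set.range y)) :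
    C.push (fst X X) (C.residual x y) = 0 := by
  have h2 : ∀ z ∈ Submodule.span ℚ (Set.range y),
      C.push (fst X X) (C.residual x y * C.pull (snd X X) z) = 0 := by
    intro z hz
    induction hz using Submodule.span_induction with
    | mem z hz =>
      obtain ⟨t, rfl⟩ := hz
      exact residual_orth hxy t
    | zero => rw [map_zero, mul_zero, map_zero]
    | add a b _ _ ha hb => rw [map_add, mul_add, map_add, ha, hb, add_zero]
    | smul c a _ ha => rw [map_smul, mul_smul_comm, map_smul, ha, smul_zero]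
  simpa using h2 1 h1

/-- A family which is orthogonal to the `y s` vanishes if the residual part vanishes. -/
lemma eq_zero_of_orth {q : ℕ} {x y : Fin q → C.CH X} (h : C.residual x y = 0)
    {α : C.CH (Y.prod X)} (hα : C.OrthogonalTo y α) : α = 0 := by
  have h1 : C.diagC X = ∑ s, C.pull (fst X X) (y s) * C.pull (snd X X) (x s) := by
    rwa [residual, sub_eq_zero] at h
  have h2 : C.comp α (C.diagC X) = α := C.comp_diagC α
  rw [← h2, h1, C.comp_sum]
  refine Finset.sum_eq_zero fun s _ => ?_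
  have h3 := pull_comp_corr (Y := Y.prod X) α
    (C.pull (fst X X) (y s) * C.pull (snd X X) (x s)) (fst Y X) (snd Y X)
  rw [lift_fst_snd, C.pull_id] at h3
  rw [← h3, C.pull_mul, ← C.pull_comp, ← C.pull_comp, Obj.lift_fst, Obj.lift_snd]
  have h4 : C.push (fst (Y.prod X) X) (C.pull (lift (fst (Y.prod X) X ≫ fst Y X)
      (snd (Y.prod X) X)) (α * C.pull (snd Y X) (y s))) = 0 := by
    rw [← pull_push_fst, hα s, map_zero]
  rw [C.pull_mul, ← C.pull_comp, Obj.lift_snd] at h4
  rw [← mul_assoc, C.pull_comp (fst (Y.prod X) X) (snd Y X), C.push_mul, h4, zero_mul]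

lemma pointSum_orth {q : ℕ} {y : Fin q → C.CH X}
    (hφ : ∀ t, C.push (fst X X) (φ * C.pull (snd X X) (y t)) = 0) (r : ℕ) :
    C.OrthogonalTo y (C.pointSum φ r) := by
  intro s
  rw [pointSum, Finset.sum_mul, map_sum]
  refine Finset.sum_eq_zero fun i _ => ?_
  have h1 := pull_push_fst (Y := pw X r) (pr X r i) (φ * C.pull (snd X X) (y s))
  rw [hφ, map_zero, C.pull_mul, ← C.pull_comp, Obj.lift_snd] at h1
  exact h1.symm

end ChowTheory

namespace WeilTheory

variable {W : WeilTheory.{u, v, w} C} {X : 𝒱.Obj}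

theorem IsDualSystem.tfae {q : ℕ} {x y : Fin q → C.CH X} (h : W.IsDualSystem x y) :
    List.TFAE [∀ i, W.ClInjective (X.prod X) i,
      ∃ n, C.UniformlyNilpotent y n,
      ∃ n, C.SumPowerVanishes (C.residual x y) n n,
      ∃ r n, n ≤ r ∧ C.SumPowerVanishes (C.residual x y) r n] := by
  obtain ⟨hφφ, hφcl, hφ0⟩ := split_of_dual (W := W) h.dual h.spans
    (φ := C.residual x y) rfl
  have horth := ChowTheory.residual_orth h.dual
  have hfund := ChowTheory.push_fst_residual h.dual h.fund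
  have h0 : C.motDim (C.residual x y) = 0 := by
    have h3 : ((C.deg X (C.pull (diag X) (C.residual x y)) : ℚ) : W.K) = 0 := by
      rw [← W.tr_cl, W.cl_pull, hφcl, map_zero, map_zero]
    exact_mod_cast h3
  have hmem : (∀ i, W.ClInjective (X.prod X) i) → C.residual x y = 0 := by
    intro hi
    have hX : W.AlgebraicCohomology X := by
      rw [WeilTheory.AlgebraicCohomology, RangeSpans, eq_top_iff,
        ← show Submodule.span W.K (Set.range fun s => W.cl X (x s)) = ⊤ from h.spans]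
      refine Submodule.span_mono ?_
      rintro _ ⟨s, rfl⟩
      exact ⟨x s, rfl⟩
    obtain ⟨ι, _, p, q, φ', h1, h2, h3, h4, h5, h6, h7⟩ := hX.exists_split
    exact h7 (hi _ φ' h4 h3) _ hφcl
  tfae_have 1 → 2 := by
    intro hi
    refine ⟨1, 0, rfl, fun Y α hα => ?_⟩
    rw [ChowTheory.eq_zero_of_orth (hmem hi) hα, ChowTheory.famPower]
    exact Finset.prod_eq_zero (Finset.mem_univ 0) (map_zero _)
  tfae_have 2 → 3 := by
    rintro ⟨n, n', rfl, hn⟩
    exact ⟨n' + 1, n', n', rfl, rfl, hn _ _ (ChowTheory.pointSum_orth horth n')⟩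
  tfae_have 3 → 4 := fun ⟨n, hn⟩ => ⟨n, n, le_rfl, hn⟩
  tfae_have 4 → 1 := by
    rintro ⟨r, n, hrn, hn⟩
    obtain ⟨-, -, h1⟩ := ChowTheory.sumPowerVanishes_iff.1 hn
    have h2 := ChowTheory.eq_zero_of_funVanish hφφ hfund h0 (h1.mono hrn)
    exact fun i γ _ hγ => hφ0 h2 γ hγ
  tfae_finish

end WeilTheory

end Pool.Agent.R903
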