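import Pool.Agent.R903.PermDefs
import Pool.Agent.R903.AlgCohDefs

/-!
# Fibre powers of families of cycles: definitions
-/

open CategoryTheory CategoryTheory.Limits AlgebraicGeometry
open Pool.Agent.H914 Pool.Agent.H914.VarClass Pool.Agent.H914.VarClass.Obj

universe u v w

namespace Pool.Agent.R903

variable {k : Type u} [Field k] {𝒱 : VarClass k}

/-- For a family `α` of cycles on `X` with parameters in `Y` the family of the exterior powers
`α_t × ⋯ × α_t` (`n + 1` factors), `t ∈ Y`, of cycles on `X^(n + 1)`: the product of the pull-backs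
of `α` under the projections `Y × X^(n + 1) → Y × X`. -/
noncomputable def ChowTheory.famPower (C : ChowTheory.{u, v} 𝒱) {X Y : 𝒱.Obj}
    (α : C.CH (Y.prod X)) (n : ℕ) : C.CH (Y.prod (pw X n)) :=
  ∏ j, C.pull (lift (fst Y (pw X n)) (snd Y (pw X n) ≫ pr X n j)) α

/-- The sum `∑ φ(x_i)` of the values of the correspondence `φ` at `r + 1` points of `X`, as a family
with parameters `(x_0, …, x_r)` in `X^(r + 1)`. -/
noncomputable def ChowTheory.pointSum (C : ChowTheory.{u, v} 𝒱) {X : 𝒱.Obj}
    (φ : C.CH (X.prod X)) (r : ℕ) : C.CH ((pw X r).prod X) :=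
  ∑ i, C.pull (lift (fst (pw X r) X ≫ pr X r i) (snd (pw X r) X)) φ

/-- The `n`-fold exterior power of the sum of the values of `φ` at `r` points vanishes on
`X^r × X^n`. -/
def ChowTheory.SumPowerVanishes (C : ChowTheory.{u, v} 𝒱) {X : 𝒱.Obj} (φ : C.CH (X.prod X))
    (r n : ℕ) : Prop :=
  ∃ r' n', r' + 1 = r ∧ n' + 1 = n ∧ C.famPower (C.pointSum φ r') n' = 0

/-- The family `α` of cycles on `X` with parameters in `Y` has intersection zero with the classes
`y s`. -/
def ChowTheory.OrthogonalTo (C : ChowTheory.{u, v} 𝒱) {X Y : 𝒱.Obj} {ι : Type w}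
    (y : ι → C.CH X) (α : C.CH (Y.prod X)) : Prop :=
  ∀ s, C.push (fst Y X) (α * C.pull (snd Y X) (y s)) = 0

/-- All families of cycles on `X` which have intersection zero with the classes `y s` have `n`-fold
exterior power zero, for all varieties of parameters. -/
def ChowTheory.UniformlyNilpotent (C : ChowTheory.{u, v} 𝒱) {X : 𝒱.Obj} {ι : Type w}
    (y : ι → C.CH X) (n : ℕ) : Prop :=
  ∃ n', n' + 1 = n ∧ ∀ (Y : 𝒱.Obj) (α : C.CH (Y.prod X)), C.OrthogonalTo y α →
    C.famPower α n' = 0

/-- The classes `x s` and `y s` on `X` are dual with respect to the degree of the product, the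
classes of the `x s` span the cohomology of `X`, and the fundamental class is a linear combination
of the `y s`. -/
structure WeilTheory.IsDualSystem {C : ChowTheory.{u, v} 𝒱} (W : WeilTheory.{u, v, w} C)
    {X : 𝒱.Obj} {q : ℕ} (x y : Fin q → C.CH X) : Prop where
  dual : ∀ s t, C.deg X (x s * y t) = if s = t then 1 else 0
  spans : RangeSpans (K := W.K) fun s => W.cl X (x s)
  fund : 1 ∈ Submodule.span ℚ (Set.range y)

/-- The diagonal minus the sum of the exterior products `y s × x s`. -/
noncomputable def ChowTheory.residual (C : ChowTheory.{u, v} 𝒱) {X : 𝒱.Obj} {q : ℕ}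
    (x y : Fin q → C.CH X) : C.CH (X.prod X) :=
  C.diagC X - ∑ s, C.pull (fst X X) (y s) * C.pull (snd X X) (x s)

end Pool.Agent.R903
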