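import Mathlib

/-!
# Zero-cycles with their Galois action, models over number fields, and quadratic twists

`G` is the absolute Galois group of a base field (for example `ℚ`), a variety `X` over the algebraic closure comes with
its points `P X`, its group `A X` of semilinear automorphisms (pairs of `σ ∈ G` and an automorphism of the
scheme `X` over `σ`), and `Ch X = CH_0(X) ⊗ ℚ`.
-/

namespace Pool.Agent.R903.GalZ

/-- Zero-cycles (rational coefficients, modulo rational equivalence) on the smooth projective varieties over an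
algebraic closure, with the semilinear automorphisms and the models over finite extensions of the base field.
`IsOpen U`: `U` is the Galois group of a finite extension `K` of the base field.
`IsModel X U s`: the descent datum `s` on `U` (`s σ` is an automorphism of `X` over `σ`, for `σ ∈ U`) comes from a model
of `X` over `K`. -/
structure ZeroCycles (G : Type) [Group G] where
  Var : Type
  P : Var → Type
  nonempty : ∀ X, Nonempty (P X)
  A : Var → Type
  grp : ∀ X, Group (A X)
  pact : ∀ X, MulAction (A X) (P X)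
  Ch : Var → Type
  acg : ∀ X, AddCommGroup (Ch X)
  mod : ∀ X, Module ℚ (Ch X)
  p : ∀ X, A X →* G
  cl : ∀ X, P X → Ch X
  span_cl : ∀ X, Submodule.span ℚ (Set.range (cl X)) = ⊤
  act : ∀ X, A X →* (Ch X →ₗ[ℚ] Ch X)
  act_cl : ∀ X (a : A X) (x : P X), act X a (cl X x) = cl X (a • x)
  deg : ∀ X, Ch X →ₗ[ℚ] ℚ
  deg_cl : ∀ X x, deg X (cl X x) = 1
  IsOpen : Subgroup G → Prop
  open_inf : ∀ U V, IsOpen U → IsOpen V → IsOpen (U ⊓ V)
  /-- every finite extension of the base field has a quadratic extension -/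
  exists_quad : ∀ U, IsOpen U → ∃ V, IsOpen V ∧ V ≤ U ∧ V.relIndex U = 2
  IsModel : ∀ X, Subgroup G → (G → A X) → Prop
  model_open : ∀ X U s, IsModel X U s → IsOpen U
  model_mul : ∀ X U s, IsModel X U s → ∀ σ ∈ U, ∀ τ ∈ U, s (σ * τ) = s σ * s τ
  model_p : ∀ X U s, IsModel X U s → ∀ σ ∈ U, p X (s σ) = σ
  /-- each point is defined over a finite extension -/
  model_point : ∀ X U s, IsModel X U s → ∀ x : P X, ∃ V, IsOpen V ∧ V ≤ U ∧ ∀ σ ∈ V, s σ • x = x
  /-- each automorphism is defined over a finite extension -/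
  model_aut : ∀ X U s, IsModel X U s → ∀ j : A X, p X j = 1 →
    ∃ V, IsOpen V ∧ V ≤ U ∧ ∀ σ ∈ V, s σ * j = j * s σ
  /-- base change of a model to a finite extension -/
  model_res : ∀ X U s, IsModel X U s → ∀ V, IsOpen V → V ≤ U → IsModel X V s
  /-- Weil's descent: a descent datum on `U` which comes from a model on a smaller open subgroup comes from a model -/
  descent : ∀ X U, IsOpen U → ∀ s' : G → A X, (∀ σ ∈ U, ∀ τ ∈ U, s' (σ * τ) = s' σ * s' τ) →
    (∀ σ ∈ U, p X (s' σ) = σ) → ∀ V ≤ U, ∀ s, IsModel X V s → (∀ σ ∈ V, s' σ = s σ) → IsModel X U s'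
  exists_model : ∀ X, ∃ U s, IsModel X U s

attribute [instance] ZeroCycles.grp ZeroCycles.pact ZeroCycles.acg ZeroCycles.mod

variable {G : Type} [Group G]

namespace ZeroCycles

variable (Z : ZeroCycles G)

/-- `V ⊂ U` are open and `V` has index 2 in `U`: the extension `L/K` is quadratic. -/
def IsQuad (V U : Subgroup G) : Prop := Z.IsOpen V ∧ V ≤ U ∧ V.relIndex U = 2

/-- `z ∈ CH_0(X_K) ⊗ ℚ`, the classes fixed by the Galois group `U` of `K` (for the model `s`). -/
def DefinedOver (X : Z.Var) (U : Subgroup G) (s : G → Z.A X) (z : Z.Ch X) : Prop :=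
  ∀ σ ∈ U, Z.act X (s σ) z = z

/-- an automorphism `j` of `X` with `j ∘ j = id` -/
def IsInvolution (X : Z.Var) (j : Z.A X) : Prop := Z.p X j = 1 ∧ j * j = 1

open Classical in
/-- the quadratic twist of the descent datum `s` by the involution `j` -/
noncomputable def twist {X : Z.Var} (V : Subgroup G) (s : G → Z.A X) (j : Z.A X) : G → Z.A X :=
  fun σ => if σ ∈ V then s σ else j * s σ

variable {Z}

theorem quad_mul {V U : Subgroup G} (h : V.relIndex U = 2) {σ τ : G} (hσ : σ ∈ U) (hτ : τ ∈ U) :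
    σ * τ ∈ V ↔ (σ ∈ V ↔ τ ∈ V) := by
  have h2 : (V.subgroupOf U).index = 2 := h
  have := Subgroup.mul_mem_iff_of_index_two h2 (a := ⟨σ, hσ⟩) (b := ⟨τ, hτ⟩)
  simpa [Subgroup.mem_subgroupOf] using this

theorem quad_exists {V U : Subgroup G} (h : V.relIndex U = 2) : ∃ σ ∈ U, σ ∉ V := by
  by_contra hc
  push Not at hc
  have hle : U ≤ V := fun σ hσ => hc σ hσ
  have := Subgroup.relIndex_eq_one.mpr hle
  omega

/-- the quadratic twist is a model -/
theorem twist_model {X : Z.Var} {U V : Subgroup G} {s : G → Z.A X} {j : Z.A X} (hU : Z.IsModel X U s)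
    (hV : Z.IsQuad V U) (hj : Z.IsInvolution X j) (hc : ∀ σ ∈ U, s σ * j = j * s σ) :
    Z.IsModel X U (Z.twist V s j) := by
  obtain ⟨hVo, hVU, h2⟩ := hV
  refine Z.descent X U (Z.model_open X U s hU) _ ?_ ?_ V hVU s (Z.model_res X U s hU V hVo hVU) ?_
  · intro σ hσ τ hτ
    have hm := Z.model_mul X U s hU σ hσ τ hτ
    have hq := quad_mul h2 hσ hτ
    by_cases h1 : σ ∈ V <;> by_cases h3 : τ ∈ V
    · have : σ * τ ∈ V := hq.mpr (by simp [h1, h3])
      simp [twist, h1, h3, this, hm]
    · have : σ * τ ∉ V := fun h => h3 ((hq.mp h).mp h1)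
      simp only [twist, h1, h3, this, if_true, if_false, hm]
      rw [← mul_assoc, ← mul_assoc, hc σ hσ]
    · have : σ * τ ∉ V := fun h => h1 ((hq.mp h).mpr h3)
      simp only [twist, h1, h3, this, if_true, if_false, hm]
      rw [← mul_assoc]
    · have : σ * τ ∈ V := hq.mpr (by simp [h1, h3])
      simp only [twist, h1, h3, this, if_true, if_false, hm]
      rw [show j * s σ * (j * s τ) = j * (s σ * j) * s τ by simp only [mul_assoc], hc σ hσ,
        ← mul_assoc, hj.2, one_mul]
  · intro σ hσ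
    have hp := Z.model_p X U s hU σ hσ
    by_cases h1 : σ ∈ V
    · simp [twist, h1, hp]
    · simp [twist, h1, hp, hj.1]
  · intro σ hσ
    simp [twist, hσ]

/-- each zero-cycle is defined over a finite extension -/
theorem model_cycle {X : Z.Var} {U : Subgroup G} {s : G → Z.A X} (hU : Z.IsModel X U s) (z : Z.Ch X) :
    ∃ V, Z.IsOpen V ∧ V ≤ U ∧ Z.DefinedOver X V s z := by
  have hz : z ∈ Submodule.span ℚ (Set.range (Z.cl X)) := by rw [Z.span_cl X]; trivial
  induction hz using Submodule.span_induction with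
  | mem y hy =>
    obtain ⟨x, rfl⟩ := hy
    obtain ⟨V, h1, h2, h3⟩ := Z.model_point X U s hU x
    exact ⟨V, h1, h2, fun σ hσ => by rw [Z.act_cl, h3 σ hσ]⟩
  | zero => exact ⟨U, Z.model_open X U s hU, le_refl U, fun σ _ => map_zero _⟩
  | add y w _ _ hy hw =>
    obtain ⟨V, h1, h2, h3⟩ := hy
    obtain ⟨W, h4, h5, h6⟩ := hw
    exact ⟨V ⊓ W, Z.open_inf V W h1 h4, inf_le_left.trans h2, fun σ hσ => by
      rw [map_add, h3 σ hσ.1, h6 σ hσ.2]⟩
  | smul a y _ hy =>
    obtain ⟨V, h1, h2, h3⟩ := hy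
    exact ⟨V, h1, h2, fun σ hσ => by rw [map_smul, h3 σ hσ]⟩

theorem mem_span_point {X : Z.Var} (x₀ : Z.P X) (h : ∀ x, Z.cl X x = Z.cl X x₀) (z : Z.Ch X) :
    z = Z.deg X z • Z.cl X x₀ := by
  have hz : z ∈ Submodule.span ℚ (Set.range (Z.cl X)) := by rw [Z.span_cl X]; trivial
  induction hz using Submodule.span_induction with
  | mem y hy => obtain ⟨x, rfl⟩ := hy; rw [Z.deg_cl, one_smul, h x]
  | zero => simp
  | add y w _ _ hy hw => rw [map_add, add_smul, ← hy, ← hw]
  | smul a y _ hy => rw [map_smul, smul_assoc, ← hy]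

theorem deg_act {X : Z.Var} (a : Z.A X) (z : Z.Ch X) : Z.deg X (Z.act X a z) = Z.deg X z := by
  have hz : z ∈ Submodule.span ℚ (Set.range (Z.cl X)) := by rw [Z.span_cl X]; trivial
  induction hz using Submodule.span_induction with
  | mem y hy => obtain ⟨x, rfl⟩ := hy; rw [Z.act_cl, Z.deg_cl, Z.deg_cl]
  | zero => simp
  | add y w _ _ hy hw => rw [map_add, map_add, map_add, hy, hw]
  | smul a y _ hy => rw [map_smul, map_smul, map_smul, hy]

theorem eq_zero_of_neg {M : Type} [AddCommGroup M] [Module ℚ M] {v : M} (h : -v = v) : v = 0 := by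
  have h2 : (2 : ℚ) • v = 0 := by
    rw [two_smul]; nth_rewrite 1 [← h]; simp
  exact (smul_eq_zero.mp h2).resolve_left (by norm_num)

end ZeroCycles

end Pool.Agent.R903.GalZ
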