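import Pool.Agent.R903.PermDefs

/-!
# Kimura finite-dimensional motives: definition
-/

open CategoryTheory CategoryTheory.Limits AlgebraicGeometry
open Pool.Agent.H914 Pool.Agent.H914.VarClass Pool.Agent.H914.VarClass.Obj

universe u v w

namespace Pool.Agent.R903

variable {k : Type u} [Field k] {𝒱 : VarClass k}

/-- The motive `(X, ω)` is finite-dimensional in the sense of Kimura: it is the direct sum of a
motive with a vanishing exterior power and a motive with a vanishing symmetric power. -/
def ChowTheory.KimuraFinite (C : ChowTheory.{u, v} 𝒱) {X : 𝒱.Obj} (ω : C.CH (X.prod X)) : Prop :=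
  ∃ e ∈ C.gr (X.prod X) X.dim, ∃ f ∈ C.gr (X.prod X) X.dim,
    C.comp e e = e ∧ C.comp f f = f ∧ C.comp e f = 0 ∧ C.comp f e = 0 ∧ e + f = ω ∧
    (∃ m, C.ExtVanishes e m) ∧ ∃ m, C.SymVanishes f m

end Pool.Agent.R903
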