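import Pool.Agent.R903.LefBBDefs
import Pool.Agent.R903.Lef
import Pool.Agent.R903.BBD
import Pool.Agent.R898.BDecEq

/-!
# The Lefschetz standard conjecture and the Bloch–Beilinson filtration
-/

open CategoryTheory CategoryTheory.Limits AlgebraicGeometry Polynomial
open Pool.Agent.H914 Pool.Agent.H914.VarClass Pool.Agent.H914.VarClass.Obj

universe u v w

namespace Pool.Agent.R903

variable {k : Type u} [Field k] {𝒱 : VarClass k} {C : ChowTheory.{u, v} 𝒱}

namespace ChowTheory

variable {X : 𝒱.Obj} {L : C.CH (X.prod X)} (hL : L ∈ C.gr (X.prod X) (X.dim + 1))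

include hL

/-- Existence of a Lefschetz system. -/
theorem exists_system_wt {Λ : C.CH (X.prod X)} (hΛ : Λ ∈ C.gr (X.prod X) (X.dim - 1))
    (h : C.bracket L (C.bracket L Λ) = -((2 : ℚ) • L)) :
    ∃ Λ' π, C.IsLefschetzSystem L Λ' π ∧ C.wt π = C.bracket L Λ := by
  classical
  by_cases hn : X.dim = 0
  · -- dimension zero
    have hL0 : L = 0 := by
      rw [C.gr_eq_bot _ _ (by rw [dim_prod]; omega), Submodule.mem_bot] at hL
      exact hL
    subst hL0
    refine ⟨0, fun j => if j = 0 then C.diagC X else 0, ⟨⟨?_, ?_, ?_, ?_⟩, ?_, ⟨?_, ?_, ?_⟩⟩, ?_⟩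
    · intro j; split_ifs
      · exact C.diagC_mem X
      · exact Submodule.zero_mem _
    · intro j; split_ifs
      · exact C.comp_diagC _
      · exact C.comp_zero _
    · intro i j hij
      by_cases hi : i = 0
      · rw [if_neg (show ¬ j = 0 by omega)]; exact C.comp_zero _
      · rw [if_neg hi]; exact C.zero_comp _
    · rw [hn]; simp
    · exact Submodule.zero_mem _
    · simp [bracket, wt, hn, C.comp_zero]
    · simp [bracket, wt, hn, C.comp_zero]
    · simp [bracket, wt, hn, C.comp_zero]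
    · simp [bracket, wt, hn, C.comp_zero, C.zero_comp]
  set x := CorrRing.of C X L with hx
  set z := CorrRing.of C X Λ with hz
  set hh := CorrRing.of C X (C.bracket L Λ) with hhh
  have hxz : x * z - z * x = hh := rfl
  have hbr : C.bracket L Λ ∈ C.gr (X.prod X) X.dim :=
    Submodule.sub_mem _ (C.comp_mem hΛ hL (by omega)) (C.comp_mem hL hΛ (by omega))
  have hhx : hh * x - x * hh = (2 : ℚ) • x := by
    have h1 : x * hh - hh * x = -((2 : ℚ) • x) := h
    rw [← neg_sub, h1, neg_neg]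
  set S : Submodule ℚ (CorrRing C X) :=
    (C.gr (X.prod X) (X.dim - 1)).map (CorrRing.of C X).toLinearMap
  have hS : ∀ a, a ∈ S ↔ (CorrRing.of C X).symm a ∈ C.gr (X.prod X) (X.dim - 1) := by
    intro a
    constructor
    · rintro ⟨b, hb, rfl⟩; exact hb
    · intro h; exact ⟨_, h, rfl⟩
  have hnil := C.pow_eq_zero_of_codim hL
  obtain ⟨y, hyS, hxy, hhy⟩ := jacobson_morozov ⟨_, hnil⟩ hxz hhx (S := S) ((hS _).2 hΛ)
    (fun a ha => by
      rw [hS] at ha ⊢
      exact Submodule.sub_mem _ (C.comp_mem ha hbr (by omega)) (C.comp_mem hbr ha (by omega)))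
  have hss := sl2_semisimple hnil hxy hhx hhy
  set d : C.CH (X.prod X) := C.bracket L Λ + (X.dim : ℚ) • C.diagC X with hd
  have hdgr : d ∈ C.gr (X.prod X) X.dim :=
    Submodule.add_mem _ hbr (Submodule.smul_mem _ _ (C.diagC_mem X))
  have hdof : CorrRing.of C X d = hh + algebraMap ℚ _ (X.dim : ℚ) := by
    rw [hd, map_add, map_smul, CorrRing.of_one, Algebra.algebraMap_eq_smul_one]
  rw [← hdof] at hss
  set N := 2 * X.dim + 1 with hN
  set π : ℕ → CorrRing C X := fun j =>
    if j < N then aeval (CorrRing.of C X d) (lag (Finset.range N) j) else 0 with hπ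
  have hmod : ∀ p : ℚ[X], pol (Finset.range N) ∣ p → aeval (CorrRing.of C X d) p = 0 := by
    rintro p ⟨q, rfl⟩
    rw [map_mul, hss, zero_mul]
  have hdπ : ∀ j, CorrRing.of C X d * π j = (j : ℚ) • π j := by
    intro j
    simp only [hπ]
    split_ifs with hj
    · obtain ⟨c, hc⟩ := lag_mul (Finset.mem_range.2 hj)
      have h1 := hmod _ (Dvd.intro_left _ hc.symm)
      rw [map_mul, map_sub, aeval_X, aeval_C, sub_mul, sub_eq_zero] at h1
      rw [h1, Algebra.smul_def]
    · rw [mul_zero, smul_zero]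
  have hpπ : ∀ (p : ℚ[X]) (j : ℕ), aeval (CorrRing.of C X d) p * π j = p.eval (j : ℚ) • π j := by
    intro p j
    have h1 : (Algebra.lmul ℚ (CorrRing C X) (CorrRing.of C X d)) (π j) = (j : ℚ) • π j := by
      simpa using hdπ j
    have h2 := aeval_eigen h1 p
    rw [aeval_algHom_apply] at h2
    simpa using h2
  have hmul : ∀ i j, π i * π j = if i = j then π j else 0 := by
    intro i j
    by_cases hi : i < N
    · have h1 : π i = aeval (CorrRing.of C X d) (lag (Finset.range N) i) := by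
        simp only [hπ]; rw [if_pos hi]
      rw [h1, hpπ]
      by_cases hj : j < N
      · split_ifs with hij
        · subst hij
          have h2 : (lag (Finset.range N) i).eval (i : ℚ) = 1 :=
            Lagrange.eval_basis_self (v := fun j : ℕ => (j : ℚ))
              (fun a _ b _ hab => by have h : (a : ℚ) = b := hab; exact_mod_cast h)
              (Finset.mem_range.2 hi)
          rw [h2, one_smul]
        · have h2 : (lag (Finset.range N) i).eval (j : ℚ) = 0 :=
            Lagrange.eval_basis_of_ne (v := fun j : ℕ => (j : ℚ)) hij (Finset.mem_range.2 hj)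
          rw [h2, zero_smul]
      · have h3 : π j = 0 := by simp only [hπ]; rw [if_neg hj]
        rw [h3, smul_zero, ite_self]
    · have h3 : π i = 0 := by simp only [hπ]; rw [if_neg hi]
      rw [h3, zero_mul]
      split_ifs with hij
      · rw [← hij, h3]
      · rfl
  have hsum : ∑ j ∈ Finset.range N, π j = 1 := by
    have h1 : ∀ j ∈ Finset.range N, π j =
        aeval (CorrRing.of C X d) (lag (Finset.range N) j) := by
      intro j hj
      simp only [hπ]; rw [if_pos (Finset.mem_range.1 hj)]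
    rw [Finset.sum_congr rfl h1, ← map_sum]
    have h2 := Lagrange.sum_basis (s := Finset.range N) (v := fun j : ℕ => (j : ℚ))
      (fun a _ b _ hab => by have h : (a : ℚ) = b := hab; exact_mod_cast h)
      ⟨0, Finset.mem_range.2 (by omega)⟩
    have h3 : ∑ j ∈ Finset.range N, lag (Finset.range N) j = 1 := h2
    rw [h3, map_one]
  have hwt : ∑ j ∈ Finset.range N, ((j : ℚ) - X.dim) • π j = hh := by
    have h1 : ∀ j ∈ Finset.range N, ((j : ℚ) - X.dim) • π j =
        (CorrRing.of C X d - algebraMap ℚ _ (X.dim : ℚ)) * π j := by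
      intro j _
      rw [sub_smul, sub_mul, hdπ, Algebra.smul_def (X.dim : ℚ)]
    rw [Finset.sum_congr rfl h1, ← Finset.mul_sum, hsum, mul_one, hdof]
    abel
  refine ⟨(CorrRing.of C X).symm y, fun j => (CorrRing.of C X).symm (π j), ⟨⟨?_, ?_, ?_, ?_⟩, ?_,
    ⟨?_, ?_, ?_⟩⟩, hwt⟩
  · intro j
    simp only [hπ]
    split_ifs
    · exact C.aeval_mem_gr hdgr _
    · exact Submodule.zero_mem _
  · intro j
    have := hmul j j
    rw [if_pos rfl] at this
    exact this
  · intro i j hij
    have := hmul j i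
    rw [if_neg (Ne.symm hij)] at this
    exact this
  · exact hsum
  · exact (hS y).1 hyS
  · exact hxy.trans hwt.symm
  · have h1 : C.wt (fun j => (CorrRing.of C X).symm (π j)) = C.bracket L Λ := hwt
    rw [h1]
    exact hhx
  · have h1 : C.wt (fun j => (CorrRing.of C X).symm (π j)) = C.bracket L Λ := hwt
    rw [h1]
    exact hhy


end ChowTheory

namespace WeilTheory

variable {W : WeilTheory.{u, v, w} C} {X Y : 𝒱.Obj}

/-! ### the weight operator of a Chow–Künneth decomposition -/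

section CK

variable {π : ℕ → C.CH (X.prod X)} (h : W.IsCK X π)

include h

lemma IsCK.comp_wt (b : ℕ) : C.comp (π b) (C.wt π) = ((b : ℚ) - X.dim) • π b := by
  rw [ChowTheory.wt, C.comp_sum]
  by_cases hb : 2 * X.dim < b
  · rw [h.eq_zero hb, smul_zero]
    exact Finset.sum_eq_zero fun j _ => C.zero_comp _
  · rw [Finset.sum_eq_single b]
    · rw [C.comp_smul, h.idem]
    · intro j _ hj
      rw [C.comp_smul, h.orth b j (Ne.symm hj), smul_zero]
    · intro hb'; exact absurd (Finset.mem_range.2 (by omega)) hb'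

lemma IsCK.wt_comp (b : ℕ) : C.comp (C.wt π) (π b) = ((b : ℚ) - X.dim) • π b := by
  rw [ChowTheory.wt, C.sum_comp]
  by_cases hb : 2 * X.dim < b
  · rw [h.eq_zero hb, smul_zero]
    exact Finset.sum_eq_zero fun j _ => C.comp_zero _
  · rw [Finset.sum_eq_single b]
    · rw [C.smul_comp, h.idem]
    · intro j _ hj
      rw [C.smul_comp, h.orth j b hj, smul_zero]
    · intro hb'; exact absurd (Finset.mem_range.2 (by omega)) hb'

lemma IsCK.wt_mem : C.wt π ∈ C.gr (X.prod X) X.dim :=
  Submodule.sum_mem _ fun j _ => Submodule.smul_mem _ _ (h.mem j)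

/-- A correspondence without blocks is zero. -/
lemma IsCK.eq_zero_of_blocks {γ : C.CH (X.prod X)}
    (h0 : ∀ a b, C.comp (C.comp (π a) γ) (π b) = 0) : γ = 0 := by
  rw [← C.comp_diagC γ, ← C.diagC_comp γ, ← h.sum, C.sum_comp, C.sum_comp]
  refine Finset.sum_eq_zero fun a _ => ?_
  rw [C.comp_sum]
  exact Finset.sum_eq_zero fun b _ => h0 a b

lemma IsCK.block_bracket (γ : C.CH (X.prod X)) (a b : ℕ) :
    C.comp (C.comp (π a) (C.bracket (C.wt π) γ)) (π b) =
      ((b : ℚ) - a) • C.comp (C.comp (π a) γ) (π b) := by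
  have e1 : C.comp (C.comp (π a) (C.comp γ (C.wt π))) (π b) =
      ((b : ℚ) - X.dim) • C.comp (C.comp (π a) γ) (π b) := by
    rw [← C.comp_assoc (π a) γ, C.comp_assoc _ (C.wt π) (π b), h.wt_comp, C.comp_smul]
  have e2 : C.comp (C.comp (π a) (C.comp (C.wt π) γ)) (π b) =
      ((a : ℚ) - X.dim) • C.comp (C.comp (π a) γ) (π b) := by
    rw [← C.comp_assoc (π a) (C.wt π), h.comp_wt, C.smul_comp, C.smul_comp]
  have e3 : C.comp (C.comp (π a) (C.bracket (C.wt π) γ)) (π b) =
      C.comp (C.comp (π a) (C.comp γ (C.wt π))) (π b) -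
        C.comp (C.comp (π a) (C.comp (C.wt π) γ)) (π b) := by
    have hof : Function.Injective (CorrRing.of C X) := (CorrRing.of C X).injective
    apply hof
    simp only [CorrRing.of_comp, C.of_bracket, map_sub]
    noncomm_ring
  rw [e3, e1, e2]
  module

omit h in
lemma isZeroMap_of_cl {γ : C.CH (X.prod X)} (h0 : W.cl _ γ = 0) : IsZeroMap (W.act γ) := by
  intro a
  rw [act_apply, h0, zero_mul, map_zero]

lemma IsCK.noRaising_iff : W.NoRaising X (C.wt π) ↔ W.LowersIndex π π := by
  constructor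
  · intro hN γ hγ h0 a b hab
    refine hN (b - a) _ (C.comp_mem (C.comp_mem (h.mem a) hγ rfl) (h.mem b) rfl) ?_ ?_
    · refine cl_eq_zero_of_isZeroMap fun c => ?_
      rw [W.act_comp _ (h.mem b), W.act_comp _ hγ, h0, map_zero]
    · rw [ChowTheory.bracket, C.comp_assoc _ (π b), h.comp_wt, ← C.comp_assoc (C.wt π),
        ← C.comp_assoc (C.wt π), h.wt_comp, C.comp_smul, C.smul_comp, C.smul_comp,
        Nat.cast_sub hab]
      module
  · intro hL w γ hγ h0 hw
    refine h.eq_zero_of_blocks fun a b => ?_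
    have h1 := h.block_bracket γ a b
    rw [hw, C.comp_smul, C.smul_comp] at h1
    by_cases hab : a ≤ b
    · exact hL γ hγ (isZeroMap_of_cl h0) a b hab
    · have h2 : ((w : ℚ) - (b - a)) • C.comp (C.comp (π a) γ) (π b) = 0 := by
        rw [sub_smul, h1, sub_self]
      refine (smul_eq_zero.1 h2).resolve_left fun h3 => ?_
      have h4 : (w : ℚ) + a = b := by linarith
      have h5 : w + a = b := by exact_mod_cast h4
      omega

lemma IsCK.act_eigen {x : C.CH X} {m : ℕ} (hx : C.act (C.wt π) x = ((m : ℚ) - X.dim) • x) {b : ℕ}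
    (hb : b ≠ m) : C.act (π b) x = 0 := by
  have h1 : C.act (π b) (C.act (C.wt π) x) = ((b : ℚ) - X.dim) • C.act (π b) x := by
    rw [← C.act_comp, h.wt_comp, C.act_smul, LinearMap.smul_apply]
  rw [hx, map_smul] at h1
  have h2 : ((m : ℚ) - b) • C.act (π b) x = 0 := by
    have : ((m : ℚ) - b) • C.act (π b) x = ((m : ℚ) - X.dim) • C.act (π b) x -
      ((b : ℚ) - X.dim) • C.act (π b) x := by module
    rw [this, h1, sub_self]
  refine (smul_eq_zero.1 h2).resolve_left fun h3 => hb ?_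
  exact_mod_cast (sub_eq_zero.1 h3).symm

lemma IsCK.act_wt (b : ℕ) (x : C.CH X) :
    C.act (C.wt π) (C.act (π b) x) = ((b : ℚ) - X.dim) • C.act (π b) x := by
  rw [← C.act_comp, h.comp_wt, C.act_smul, LinearMap.smul_apply]

lemma IsCK.eq_zero_of_act {x : C.CH X} (h0 : ∀ b, C.act (π b) x = 0) : x = 0 := by
  rw [← h.sum_act x]
  exact Finset.sum_eq_zero fun b _ => h0 b


/-! ### the Abel–Jacobi map -/

lemma IsCK.aj_act (A : R898.B.AJMap W) {j b : ℕ} {x : C.CH X} (hx : x ∈ C.gr X j)
    (h0 : W.cl X x = 0) (hb : A.aj X j x = 0 ∨ b + 2 ≤ 2 * j) : A.aj X j (C.act (π b) x) = 0 := by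
  obtain ⟨S, hS, hS0⟩ := A.functorial X X j j X.dim (π b) rfl (h.mem b)
  rw [hS x hx h0]
  rcases hb with hb | hb
  · rw [hb, map_zero]
  · rw [hS0 (2 * j - 1) (by omega) fun a ha => ?_, LinearMap.zero_apply]
    rw [h.proj b _ a ha, if_neg (by omega)]

lemma IsCK.noHighEigen_iff (A : R898.B.AJMap W) {j : ℕ} (hD : W.FirstIsKernel π j) :
    NoHighEigen (C.act (C.wt π)) (C.gr X j) (W.cl X) (A.aj X j) j X.dim ↔
      R898.IsLinKernelOn (A.aj X j) (C.ckFil π j 1) (C.ckFil π j 2) := by
  constructor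
  · intro hN x
    constructor
    · intro hx
      rw [mem_ckFil h] at hx
      have h1 : x ∈ C.ckFil π j 1 := (mem_ckFil h).2 ⟨hx.1, fun b hb => hx.2 b (by omega)⟩
      refine ⟨h1, ?_⟩
      rw [← h.sum_act x, map_sum]
      refine Finset.sum_eq_zero fun b _ => ?_
      by_cases hb : 2 * j < b + 2
      · rw [hx.2 b hb, map_zero]
      · exact h.aj_act A hx.1 ((hD x).1 h1).2 (Or.inr (by omega))
    · rintro ⟨hx, haj⟩
      have hx1 := (hD x).1 hx
      rw [mem_ckFil h]
      refine ⟨hx1.1, fun b hb => ?_⟩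
      refine hN b _ (by omega) (C.act_mem (h.mem b) hx1.1 rfl) ?_
        (h.aj_act A hx1.1 hx1.2 (Or.inl haj)) (h.act_wt b x)
      rw [W.cl_act, hx1.2, map_zero]
  · intro hK m x hm hx h0 haj hw
    have h1 := (hK x).2 ⟨(hD x).2 ⟨hx, h0⟩, haj⟩
    rw [mem_ckFil h] at h1
    refine h.eq_zero_of_act fun b => ?_
    by_cases hb : b = m
    · exact h1.2 b (by omega)
    · exact h.act_eigen hw hb

omit [Field k] h in
lemma sum_range_eq {M : Type*} [AddCommMonoid M] {g : ℕ → M} {m n : ℕ} (hm : ∀ b, m ≤ b → g b = 0)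
    (hn : ∀ b, n ≤ b → g b = 0) : ∑ b ∈ Finset.range m, g b = ∑ b ∈ Finset.range n, g b := by
  rcases Nat.le_total m n with hmn | hmn
  · refine Finset.sum_subset (Finset.range_mono hmn) fun b _ hb => hm b ?_
    rw [Finset.mem_range] at hb
    omega
  · refine (Finset.sum_subset (Finset.range_mono hmn) fun b _ hb => hn b ?_).symm
    rw [Finset.mem_range] at hb
    omega

lemma IsCK.isEigenFil (j : ℕ) :
    IsEigenFil (C.act (C.wt π)) (C.gr X j) j X.dim (C.ckFil π j) := by
  intro k x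
  rw [mem_ckFil h]
  constructor
  · rintro ⟨hx, h0⟩
    refine ⟨fun m => C.act (π m) x, fun m => ⟨C.act_mem (h.mem m) hx rfl, h.act_wt m x⟩, ?_⟩
    conv_lhs => rw [← h.sum_act x]
    refine sum_range_eq (fun b hb => ?_) (fun b hb => h0 b (by omega))
    rw [h.eq_zero (by omega), C.act_zero, LinearMap.zero_apply]
  · rintro ⟨f, hf, rfl⟩
    refine ⟨Submodule.sum_mem _ fun m _ => (hf m).1, fun b hb => ?_⟩
    rw [map_sum]
    refine Finset.sum_eq_zero fun m hm => ?_
    rw [Finset.mem_range] at hm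
    exact h.act_eigen (hf m).2 (by omega)

end CK

/-! ### pairs -/

lemma act_congr {γ δ : C.CH (X.prod Y)} (h : W.cl _ γ = W.cl _ δ) : W.act γ = W.act δ := by
  ext a
  rw [act_apply, act_apply, h]

/-- A pair gives a Chow–Künneth decomposition. -/
theorem IsLefPair.exists_CK {L' L Λ : C.CH (X.prod X)} (hL' : W.IsLefschetzOp X L')
    (h : W.IsLefPair X L' L Λ) : ∃ π, W.IsCK X π ∧ C.wt π = C.bracket L Λ ∧
      ∀ j, C.ckFil π j (j + 1) = ⊥ := by
  obtain ⟨Λ', π, hs, hw⟩ := ChowTheory.exists_system_wt h.mem h.mem' h.eqn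
  have hhard : W.HardLefschetz L := by
    have := hL'.hard
    rwa [HardLefschetz, ← act_congr h.cl_eq] at this
  have hπ := hs.isCK h.mem W hhard
  refine ⟨π, hπ, hw, fun j => ?_⟩
  rw [Submodule.eq_bot_iff]
  intro x hx
  rw [mem_ckFil hπ] at hx
  refine hπ.eq_zero_of_act fun b => ?_
  by_cases hb : j ≤ b
  · exact hx.2 b (by omega)
  · exact hs.act_eq_zero h.mem (Or.inl (by omega)) hx.1

/-- The degree operator of the Lefschetz standard conjecture. -/
theorem LefschetzStandard.exists_degree {L : C.CH (X.prod X)} (hL : W.IsLefschetzOp X L)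
    (h : W.LefschetzStandard X L) : ∃ d, W.IsDegree X d := by
  obtain ⟨Λ, hΛ, h⟩ := h
  by_cases hn : X.dim = 0
  · refine ⟨0, Submodule.zero_mem _, fun j a ha => ?_⟩
    rw [W.act_zero, LinearMap.zero_apply]
    by_cases hj : j = 0
    · rw [hj]; simp
    · rw [W.gr_eq_bot X j (by omega), Submodule.mem_bot] at ha
      rw [ha, smul_zero]
  refine ⟨C.bracket L Λ + (X.dim : ℚ) • C.diagC X, Submodule.add_mem _ (Submodule.sub_mem _
    (C.comp_mem hΛ hL.mem (by omega)) (C.comp_mem hL.mem hΛ (by omega)))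
      (Submodule.smul_mem _ _ (C.diagC_mem X)), fun j a ha => ?_⟩
  rw [W.act_add, LinearMap.add_apply, h j a ha, W.act_smul, LinearMap.smul_apply, W.act_diagC,
    Rat.cast_natCast]
  module

theorem kunneth_of_degree (h : ∀ X : 𝒱.Obj, ∃ d, W.IsDegree X d) : W.Kunneth := by
  intro X j
  obtain ⟨d, hd⟩ := h X
  by_cases hj : 2 * X.dim < j
  · refine ⟨0, Submodule.zero_mem _, fun l a ha => ?_⟩
    rw [W.act_zero, LinearMap.zero_apply]
    split_ifs with hl
    · rw [hl, W.gr_eq_bot X j hj, Submodule.mem_bot] at ha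
      exact ha.symm
    · rfl
  refine ⟨_, C.aeval_mem_gr hd.1 (lag (Finset.range (2 * X.dim + 1)) j), fun l a ha => ?_⟩
  have h2 : W.act d a = (((l : ℚ) : ℚ) : W.K) • a := by rw [hd.2 l a ha]; push_cast; rfl
  by_cases hl : 2 * X.dim < l
  · rw [W.gr_eq_bot X l hl, Submodule.mem_bot] at ha
    rw [ha, map_zero, ite_self]
  rw [act_aeval hd.1 h2]
  split_ifs with hlj
  · have h3 : (lag (Finset.range (2 * X.dim + 1)) j).eval (l : ℚ) = 1 := by
      rw [hlj]
      exact Lagrange.eval_basis_self (v := fun j : ℕ => (j : ℚ))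
        (fun a _ b _ hab => by have h : (a : ℚ) = b := hab; exact_mod_cast h)
        (Finset.mem_range.2 (by omega))
    rw [h3, Rat.cast_one, one_smul]
  · have h3 : (lag (Finset.range (2 * X.dim + 1)) j).eval (l : ℚ) = 0 :=
      Lagrange.eval_basis_of_ne (v := fun j : ℕ => (j : ℚ)) (Ne.symm hlj)
        (Finset.mem_range.2 (by omega))
    rw [h3, Rat.cast_zero, zero_smul]

/-! ### from the filtration to the pair -/

section Pair

variable {π : ℕ → C.CH (X.prod X)} (h : W.IsCK X π) {L Λ : C.CH (X.prod X)}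

/-- The part of degree `2` of `L`. -/
noncomputable def up (π : ℕ → C.CH (X.prod X)) (L : C.CH (X.prod X)) : C.CH (X.prod X) :=
  ∑ a ∈ Finset.range (2 * X.dim + 1), C.comp (C.comp (π a) L) (π (a + 2))

/-- The part of degree `-2` of `Λ`. -/
noncomputable def down (π : ℕ → C.CH (X.prod X)) (Λ : C.CH (X.prod X)) : C.CH (X.prod X) :=
  ∑ a ∈ Finset.range (2 * X.dim + 1), C.comp (C.comp (π (a + 2)) Λ) (π a)

include h

lemma up_mem (hL : L ∈ C.gr (X.prod X) (X.dim + 1)) : up π L ∈ C.gr (X.prod X) (X.dim + 1) :=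
  Submodule.sum_mem _ fun a _ => C.comp_mem (C.comp_mem (h.mem a) hL (Nat.add_comm _ _)) (h.mem _) rfl

lemma down_mem {q : ℕ} (hΛ : Λ ∈ C.gr (X.prod X) q) : down π Λ ∈ C.gr (X.prod X) q :=
  Submodule.sum_mem _ fun a _ => C.comp_mem (C.comp_mem (h.mem _) hΛ (Nat.add_comm _ _)) (h.mem _) rfl

lemma act_up (hL : L ∈ C.gr (X.prod X) (X.dim + 1)) (c : W.H X) :
    W.act (up π L) c = W.act L c := by
  refine gr_induction (W.isInternal X) (p := fun c => W.act (up π L) c = W.act L c) ?_ ?_ c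
  · intro l a ha
    rw [up, W.act_sum, LinearMap.sum_apply]
    by_cases hl : 2 * X.dim < l
    · rw [W.gr_eq_bot X l hl, Submodule.mem_bot] at ha
      rw [ha]
      simp
    rw [Finset.sum_eq_single l]
    · rw [W.act_comp _ (h.mem _), W.act_comp _ hL, h.proj l l a ha, if_pos rfl,
        h.proj (l + 2) (l + 2) _ (W.act_mem hL ha (by omega)), if_pos rfl]
    · intro b _ hb
      rw [W.act_comp _ (h.mem _), W.act_comp _ hL, h.proj b l a ha, if_neg (Ne.symm hb), map_zero,
        map_zero]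
    · intro hl'; exact absurd (Finset.mem_range.2 (by omega)) hl'
  · intro a b ha hb
    rw [map_add, ha, hb, map_add]

lemma act_down (hn : X.dim ≠ 0) (hΛ : Λ ∈ C.gr (X.prod X) (X.dim - 1)) (c : W.H X) :
    W.act (down π Λ) c = W.act Λ c := by
  refine gr_induction (W.isInternal X) (p := fun c => W.act (down π Λ) c = W.act Λ c) ?_ ?_ c
  · intro l a ha
    rw [down, W.act_sum, LinearMap.sum_apply]
    by_cases hl : 2 * X.dim < l
    · rw [W.gr_eq_bot X l hl, Submodule.mem_bot] at ha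
      rw [ha]
      simp
    by_cases hl2 : l < 2
    · rw [W.act_eq_zero hΛ ha (by omega)]
      refine Finset.sum_eq_zero fun b _ => ?_
      rw [W.act_comp _ (h.mem _), W.act_comp _ hΛ, h.proj (b + 2) l a ha, if_neg (by omega),
        map_zero, map_zero]
    obtain ⟨m, rfl⟩ : ∃ m, l = m + 2 := ⟨l - 2, by omega⟩
    rw [Finset.sum_eq_single m]
    · rw [W.act_comp _ (h.mem _), W.act_comp _ hΛ, h.proj (m + 2) (m + 2) a ha, if_pos rfl,
        h.proj m m _ (W.act_mem hΛ ha (by omega)), if_pos rfl]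
    · intro b _ hb
      rw [W.act_comp _ (h.mem _), W.act_comp _ hΛ, h.proj (b + 2) (m + 2) a ha, if_neg (by omega),
        map_zero, map_zero]
    · intro hl'; exact absurd (Finset.mem_range.2 (by omega)) hl'
  · intro a b ha hb
    rw [map_add, ha, hb, map_add]

lemma comp_up (c : ℕ) : C.comp (π c) (up π L) = C.comp (C.comp (π c) L) (π (c + 2)) := by
  rw [up, C.comp_sum]
  by_cases hc : 2 * X.dim < c
  · rw [h.eq_zero hc, C.zero_comp, C.zero_comp]
    exact Finset.sum_eq_zero fun a _ => C.zero_comp _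
  · rw [Finset.sum_eq_single c]
    · rw [← C.comp_assoc, ← C.comp_assoc, h.idem]
    · intro a _ ha
      rw [← C.comp_assoc, ← C.comp_assoc, h.orth c a (Ne.symm ha), C.zero_comp, C.zero_comp]
    · intro hc'; exact absurd (Finset.mem_range.2 (by omega)) hc'

lemma comp_down (c : ℕ) : C.comp (π (c + 2)) (down π Λ) = C.comp (C.comp (π (c + 2)) Λ) (π c) := by
  rw [down, C.comp_sum]
  by_cases hc : 2 * X.dim < c
  · rw [h.eq_zero hc, h.eq_zero (show 2 * X.dim < c + 2 by omega), C.comp_zero]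
    exact Finset.sum_eq_zero fun a _ => C.zero_comp _
  · rw [Finset.sum_eq_single c]
    · rw [← C.comp_assoc, ← C.comp_assoc, h.idem]
    · intro a _ ha
      rw [← C.comp_assoc, ← C.comp_assoc, h.orth (c + 2) (a + 2) (by omega), C.zero_comp,
        C.zero_comp]
    · intro hc'; exact absurd (Finset.mem_range.2 (by omega)) hc'

lemma comp_down_zero {c : ℕ} (hc : c < 2) : C.comp (π c) (down π Λ) = 0 := by
  rw [down, C.comp_sum]
  refine Finset.sum_eq_zero fun a _ => ?_
  rw [← C.comp_assoc, ← C.comp_assoc, h.orth c (a + 2) (by omega), C.zero_comp, C.zero_comp]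

omit h in
lemma block_sub (α β γ δ : C.CH (X.prod X)) :
    C.comp (C.comp α (γ - δ)) β = C.comp (C.comp α γ) β - C.comp (C.comp α δ) β := by
  have hof : Function.Injective (CorrRing.of C X) := (CorrRing.of C X).injective
  apply hof
  simp only [CorrRing.of_comp, map_sub]
  noncomm_ring

/-- The commutator of the two parts is diagonal. -/
lemma block_bracket_up_down {c d : ℕ} (hcd : c ≠ d) :
    C.comp (C.comp (π c) (C.bracket (up π L) (down π Λ))) (π d) = 0 := by
  rw [ChowTheory.bracket, block_sub]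
  have e1 : C.comp (C.comp (π c) (C.comp (up π L) (down π Λ))) (π d) = 0 := by
    rw [← C.comp_assoc (π c), comp_up h, C.comp_assoc (C.comp (π c) L), comp_down h,
      C.comp_assoc (C.comp (π c) L), C.comp_assoc _ (π c) (π d), h.orth c d hcd, C.comp_zero,
      C.comp_zero]
  have e2 : C.comp (C.comp (π c) (C.comp (down π Λ) (up π L))) (π d) = 0 := by
    rcases Nat.lt_or_ge c 2 with hc | hc
    · rw [← C.comp_assoc (π c), comp_down_zero h hc, C.zero_comp, C.zero_comp]
    · obtain ⟨m, rfl⟩ : ∃ m, c = m + 2 := ⟨c - 2, by omega⟩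
      rw [← C.comp_assoc (π (m + 2)), comp_down h, C.comp_assoc (C.comp (π (m + 2)) Λ), comp_up h,
        C.comp_assoc (C.comp (π (m + 2)) Λ), C.comp_assoc _ (π (m + 2)) (π d), h.orth _ d hcd,
        C.comp_zero, C.comp_zero]
  rw [e1, e2, sub_zero]

lemma bracket_up_wt : C.bracket (up π L) (C.wt π) = -((2 : ℚ) • up π L) := by
  have e1 : C.comp (C.wt π) (up π L) = ∑ a ∈ Finset.range (2 * X.dim + 1),
      ((a : ℚ) - X.dim) • C.comp (C.comp (π a) L) (π (a + 2)) := by
    rw [up, C.comp_sum]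
    refine Finset.sum_congr rfl fun a _ => ?_
    rw [← C.comp_assoc, ← C.comp_assoc, h.wt_comp, C.smul_comp, C.smul_comp]
  have e2 : C.comp (up π L) (C.wt π) = ∑ a ∈ Finset.range (2 * X.dim + 1),
      ((a : ℚ) + 2 - X.dim) • C.comp (C.comp (π a) L) (π (a + 2)) := by
    rw [up, C.sum_comp]
    refine Finset.sum_congr rfl fun a _ => ?_
    rw [C.comp_assoc, h.comp_wt, C.comp_smul]
    push_cast
    rfl
  rw [ChowTheory.bracket, e1, e2, ← Finset.sum_sub_distrib, up, Finset.smul_sum,
    ← Finset.sum_neg_distrib]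
  refine Finset.sum_congr rfl fun a _ => ?_
  module

lemma act_wtH {j : ℕ} {a : W.H X} (ha : a ∈ W.gr X j) :
    W.act (C.wt π) a = ((j : W.K) - X.dim) • a := by
  rw [ChowTheory.wt, W.act_sum, LinearMap.sum_apply]
  by_cases hj : 2 * X.dim < j
  · rw [W.gr_eq_bot X j hj, Submodule.mem_bot] at ha
    rw [ha]
    simp
  rw [Finset.sum_eq_single j]
  · rw [W.act_smul, LinearMap.smul_apply, h.proj j j a ha, if_pos rfl]
    push_cast
    rfl
  · intro b _ hb
    rw [W.act_smul, LinearMap.smul_apply, h.proj b j a ha, if_neg (Ne.symm hb), smul_zero]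
  · intro hj'; exact absurd (Finset.mem_range.2 (by omega)) hj'

/-- The commutator of the two parts is the weight operator. -/
theorem bracket_up_down (hL : L ∈ C.gr (X.prod X) (X.dim + 1))
    (hΛ : Λ ∈ C.gr (X.prod X) (X.dim - 1))
    (hs : ActsByDegree (W.act (C.bracket L Λ)) (W.gr X) X.dim) (hI : W.LowersIndex π π) :
    C.bracket (up π L) (down π Λ) = C.wt π := by
  have hU := up_mem h hL
  have hD := down_mem h hΛ
  have hact : ∀ j, ∀ a ∈ W.gr X j,
      W.act (C.bracket (up π L) (down π Λ)) a = ((j : W.K) - X.dim) • a := by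
    intro j a ha
    by_cases hn : X.dim = 0
    · have hU0 : up π L = 0 := by
        rw [C.gr_eq_bot _ _ (by rw [dim_prod]; omega), Submodule.mem_bot] at hU
        exact hU
      rw [hU0, ChowTheory.bracket, C.comp_zero, C.zero_comp, sub_zero, W.act_zero,
        LinearMap.zero_apply]
      by_cases hj : j = 0
      · rw [hj, hn]; simp
      · rw [W.gr_eq_bot X j (by omega), Submodule.mem_bot] at ha
        rw [ha, smul_zero]
    · have e1 : W.act (C.bracket (up π L) (down π Λ)) a = W.act (C.bracket L Λ) a := by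
        rw [ChowTheory.bracket, ChowTheory.bracket, W.act_sub, W.act_sub, LinearMap.sub_apply,
          LinearMap.sub_apply, W.act_comp _ hU, W.act_comp _ hD, W.act_comp _ hL,
          W.act_comp _ hΛ, act_up h hL, act_up h hL, act_down h hn hΛ, act_down h hn hΛ]
      rw [e1, hs j a ha]
  have hz : ∀ c, W.act (C.bracket (up π L) (down π Λ) - C.wt π) c = 0 := by
    intro c
    refine gr_induction (W.isInternal X) (p := fun c =>
      W.act (C.bracket (up π L) (down π Λ) - C.wt π) c = 0) ?_ ?_ c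
    · intro l a ha
      rw [W.act_sub, LinearMap.sub_apply, hact l a ha, act_wtH h ha, sub_self]
    · intro a b ha hb
      rw [map_add, ha, hb, add_zero]
  have hgr : C.bracket (up π L) (down π Λ) - C.wt π ∈ C.gr (X.prod X) X.dim := by
    refine Submodule.sub_mem _ ?_ h.wt_mem
    by_cases hn : X.dim = 0
    · have hU0 : up π L = 0 := by
        rw [C.gr_eq_bot _ _ (by rw [dim_prod]; omega), Submodule.mem_bot] at hU
        exact hU
      rw [hU0, ChowTheory.bracket, C.comp_zero, C.zero_comp, sub_zero]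
      exact Submodule.zero_mem _
    · exact Submodule.sub_mem _ (C.comp_mem hD hU (by omega)) (C.comp_mem hU hD (by omega))
  rw [← sub_eq_zero]
  refine h.eq_zero_of_blocks fun c d => ?_
  by_cases hcd : c = d
  · subst hcd
    exact hI _ hgr hz c c le_rfl
  · rw [block_sub, block_bracket_up_down h hcd, h.comp_wt, C.smul_comp, h.orth c d hcd, smul_zero,
      sub_zero]

/-- The pair given by the Lefschetz standard conjecture and a filtration. -/
theorem exists_pair (hL : W.IsLefschetzOp X L) (hs : W.LefschetzStandard X L)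
    (hI : W.LowersIndex π π) : ∃ L₀ Λ₀, W.IsLefPair X L L₀ Λ₀ ∧ C.bracket L₀ Λ₀ = C.wt π := by
  obtain ⟨Λ, hΛ, hs⟩ := hs
  have h1 := bracket_up_down h hL.mem hΛ hs hI
  refine ⟨up π L, down π Λ, ⟨up_mem h hL.mem, ?_, down_mem h hΛ, ?_⟩, h1⟩
  · rw [← sub_eq_zero, ← map_sub]
    refine cl_eq_zero_of_act fun a => ?_
    rw [W.act_sub, LinearMap.sub_apply, act_up h hL.mem, sub_self]
  · rw [h1, bracket_up_wt h]

end Pair

/-! ### the theorem -/

theorem hasLefPair_iff (A : R898.B.AJMap W) (hP : C.Polarized) (L : ∀ X : 𝒱.Obj, C.CH (X.prod X))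
    (hL : ∀ X, W.IsLefschetzOp X (L X)) :
    ((∀ X, W.LefschetzStandard X (L X)) ∧ ∃ F, R898.B.IsBB A F) ↔ ∀ X, HasLefPair A X (L X) := by
  have e1 : (∃ F, R898.B.IsBB A F) ↔ R898.HasBBAJ (R898.old A) :=
    exists_congr fun F => R898.isBB_iff A F
  rw [e1]
  constructor
  · rintro ⟨hs, F, hF⟩ X
    have hK : W.Kunneth := kunneth_of_degree fun X => (hs X).exists_degree (hL X)
    have hBB := hF.isBlochBeilinson hK hP
    obtain ⟨π, hπ⟩ := hBB.hasCK hK X
    have hker : ∀ (Y : 𝒱.Obj) σ, W.IsCK Y σ → ∀ i, W.FirstIsKernel σ i := by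
      intro Y σ hσ i
      rw [FirstIsKernel, ← hBB.eq_ckFil hσ]
      exact hBB.1.kernel Y i
    have hI : W.LowersIndex π π :=
      lowersIndex_of_square (fun σ hσ => hker (X.prod X) σ hσ X.dim) hπ hπ
    obtain ⟨L₀, Λ₀, hp, hw⟩ := exists_pair hπ (hL X) (hs X) hI
    refine ⟨L₀, Λ₀, hp, ?_, fun j => ?_⟩
    · rw [hw, hπ.noRaising_iff]
      exact hI
    · rw [hw, hπ.noHighEigen_iff A (hker X π hπ j), ← hBB.eq_ckFil hπ, ← hBB.eq_ckFil hπ]
      exact hF.ker_two X j
  · intro h
    have h1 : ∀ X, R898.HasAJDecomposition (R898.old A) X := by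
      intro X
      obtain ⟨L₀, Λ₀, hp, hN, hE⟩ := h X
      obtain ⟨π, hπ, hw, h0⟩ := hp.exists_CK (hL X)
      have hI : W.LowersIndex π π := by
        rw [← hπ.noRaising_iff, hw]
        exact hN
      have hD := hI.murreD hπ hP
      refine ⟨hI.noPhantoms hπ, π, hπ, hI.isTriangular hπ, fun j => ⟨hD π hπ j, ?_, h0 j⟩⟩
      have := (hπ.noHighEigen_iff A (hD π hπ j)).1 (by rw [hw]; exact hE j)
      exact this
    have h2 := (R898.bbaj_iff_decompositions (R898.old A) hP).2 h1
    refine ⟨fun X => ?_, h2.2⟩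
    obtain ⟨L₀, Λ₀, hp, hN, hE⟩ := h X
    obtain ⟨π, hπ, hw, h0⟩ := hp.exists_CK (hL X)
    refine ⟨Λ₀, hp.mem', fun j a ha => ?_⟩
    have e2 : W.act (C.bracket (L X) Λ₀) a = W.act (C.bracket L₀ Λ₀) a := by
      rw [ChowTheory.bracket, ChowTheory.bracket, W.act_sub, W.act_sub, LinearMap.sub_apply,
        LinearMap.sub_apply, W.act_comp _ (hL X).mem, W.act_comp _ hp.mem', W.act_comp _ hp.mem,
        W.act_comp _ hp.mem', act_congr hp.cl_eq]
    rw [e2, ← hw, act_wtH hπ ha]

theorem givenByPairs (A : R898.B.AJMap W) (hP : C.Polarized) (L : ∀ X : 𝒱.Obj, C.CH (X.prod X))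
    (hL : ∀ X, W.IsLefschetzOp X (L X)) (hs : ∀ X, W.LefschetzStandard X (L X))
    {F : ∀ X : 𝒱.Obj, ℕ → ℕ → Submodule ℚ (C.CH X)} (hF : R898.B.IsBB A F) :
    W.GivenByPairs L F := by
  have hK : W.Kunneth := kunneth_of_degree fun X => (hs X).exists_degree (hL X)
  have hBB := ((R898.isBB_iff A F).1 hF).isBlochBeilinson hK hP
  intro X L₀ Λ₀ hp j
  obtain ⟨π, hπ, hw, h0⟩ := hp.exists_CK (hL X)
  have h1 := hπ.isEigenFil j
  rw [hw] at h1
  intro k x
  rw [hBB.eq_ckFil hπ]
  exact h1 k x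

end WeilTheory

end Pool.Agent.R903
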