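import Pool.Agent.R903.LefDefs
import Pool.Agent.R898.BStmt

/-!
# The Lefschetz standard conjecture and the Bloch–Beilinson filtration: definitions
-/

open CategoryTheory CategoryTheory.Limits AlgebraicGeometry
open Pool.Agent.H914 Pool.Agent.H914.VarClass Pool.Agent.H914.VarClass.Obj
open Pool.Agent.R898

universe u v w

namespace Pool.Agent.R903

variable {k : Type u} [Field k] {𝒱 : VarClass k} {C : ChowTheory.{u, v} 𝒱}

section Alg

variable {A : Type v} [CommRing A] [Algebra ℚ A] {J : Type v} [AddCommGroup J] [Module ℚ J]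
  {K : Type w} [Field K] {H : Type w} [Ring H] [Algebra K H]

/-- `T` is multiplication by `j - n` on `gr j`. -/
def ActsByDegree (T : H →ₗ[K] H) (gr : ℕ → Submodule K H) (n : ℕ) : Prop :=
  ∀ j, ∀ a ∈ gr j, T a = ((j : K) - n) • a

/-- The operator `T` has no nonzero eigenvector `x` in `U` with `c x = 0`, `a x = 0` and an
eigenvalue `m - n` with `2j - 1 ≤ m`. -/
def NoHighEigen (T : A →ₗ[ℚ] A) (U : Submodule ℚ A) (c : A →+* H) (a : A →ₗ[ℚ] J)
    (j n : ℕ) : Prop :=
  ∀ (m : ℕ) (x : A), 2 * j ≤ m + 1 → x ∈ U → c x = 0 → a x = 0 → T x = ((m : ℚ) - n) • x → x = 0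

/-- `F k` consists of the sums `x = ∑ f m`, for `m + k ≤ 2j`, of elements `f m` of `U` with
`T (f m) = (m - n) • f m`. -/
def IsEigenFil (T : A →ₗ[ℚ] A) (U : Submodule ℚ A) (j n : ℕ) (F : ℕ → Submodule ℚ A) : Prop :=
  ∀ (k : ℕ) (x : A), x ∈ F k ↔ ∃ f : ℕ → A, (∀ m, f m ∈ U ∧ T (f m) = ((m : ℚ) - n) • f m) ∧
    x = ∑ m ∈ Finset.range (2 * j + 1 - k), f m

end Alg

/-- `L` is in `CH^(dim X + 1)(X × X)` and has the hard Lefschetz property: for example
`L = Δ_* D` for an ample divisor class `D`. -/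
structure WeilTheory.IsLefschetzOp (W : WeilTheory.{u, v, w} C) (X : 𝒱.Obj)
    (L : C.CH (X.prod X)) : Prop where
  mem : L ∈ C.gr (X.prod X) (X.dim + 1)
  hard : W.HardLefschetz L

/-- The **Lefschetz standard conjecture** for `L`: there is `Λ` in `CH^(dim X - 1)(X × X)` such that
`[L, Λ]` acts on `H^j(X)` as multiplication by `j - dim X`, for all `j`. -/
def WeilTheory.LefschetzStandard (W : WeilTheory.{u, v, w} C) (X : 𝒱.Obj)
    (L : C.CH (X.prod X)) : Prop :=
  ∃ Λ ∈ C.gr (X.prod X) (X.dim - 1), ActsByDegree (W.act (C.bracket L Λ)) (W.gr X) X.dim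

/-- `L` is in `CH^(dim X + 1)(X × X)` and homologically equivalent to `L'`, the correspondence `Λ` is
in `CH^(dim X - 1)(X × X)`, and `[L, [L, Λ]] = -2 L`. -/
structure WeilTheory.IsLefPair (W : WeilTheory.{u, v, w} C) (X : 𝒱.Obj)
    (L' L Λ : C.CH (X.prod X)) : Prop where
  mem : L ∈ C.gr (X.prod X) (X.dim + 1)
  cl_eq : W.cl (X.prod X) L = W.cl (X.prod X) L'
  mem' : Λ ∈ C.gr (X.prod X) (X.dim - 1)
  eqn : C.bracket L (C.bracket L Λ) = -((2 : ℚ) • L)

/-- There is no nonzero homologically trivial `γ` in `CH^(dim X)(X × X)` with `[h, γ] = w γ` for an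
integer `w ≥ 0`. -/
def WeilTheory.NoRaising (W : WeilTheory.{u, v, w} C) (X : 𝒱.Obj) (h : C.CH (X.prod X)) : Prop :=
  ∀ (w : ℕ), ∀ γ ∈ C.gr (X.prod X) X.dim, W.cl (X.prod X) γ = 0 → C.bracket h γ = (w : ℚ) • γ →
    γ = 0

variable {W : WeilTheory.{u, v, w} C}

/-- There are `L`, homologically equivalent to `L'`, and `Λ` with `[L, [L, Λ]] = -2 L` such that
`h = [L, Λ]` has the following properties: there is no nonzero homologically trivial `γ` in
`CH^(dim X)(X × X)` with `[h, γ] = w γ` for an integer `w ≥ 0`, and for all `j` there is no nonzero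
`x` in the kernel of the Abel–Jacobi map on the homologically trivial classes in `CH^j(X)` with
`h_* x = (m - dim X) x` for an integer `m ≥ 2j - 1`. -/
def HasLefPair (A : B.AJMap W) (X : 𝒱.Obj) (L' : C.CH (X.prod X)) : Prop :=
  ∃ L Λ : C.CH (X.prod X), W.IsLefPair X L' L Λ ∧ W.NoRaising X (C.bracket L Λ) ∧
    ∀ j, NoHighEigen (C.act (C.bracket L Λ)) (C.gr X j) (W.cl X) (A.aj X j) j X.dim

/-- For all `X` and all `L`, `Λ` as in `IsLefPair`, the group `F X j k` is the sum of the eigenspaces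
of `[L, Λ]_*` on `CH^j(X)` for the eigenvalues `m - dim X` with `m ≤ 2j - k`. -/
def WeilTheory.GivenByPairs (W : WeilTheory.{u, v, w} C) (L' : ∀ X : 𝒱.Obj, C.CH (X.prod X))
    (F : ∀ X : 𝒱.Obj, ℕ → ℕ → Submodule ℚ (C.CH X)) : Prop :=
  ∀ (X : 𝒱.Obj) (L Λ : C.CH (X.prod X)), W.IsLefPair X (L' X) L Λ → ∀ j,
    IsEigenFil (C.act (C.bracket L Λ)) (C.gr X j) j X.dim (F X j)

end Pool.Agent.R903
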