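import Pool.Agent.R903.LefBBStmt
import Pool.Agent.R903.LefBB

/-!
# Translation of the definitions used in the statement
-/

open CategoryTheory CategoryTheory.Limits AlgebraicGeometry
open Pool.Agent.H914 Pool.Agent.H914.VarClass Pool.Agent.H914.VarClass.Obj
open Pool.Agent.R898

universe u v w

namespace Pool.Agent.R903.LB

variable {k : Type u} [Field k] {𝒱 : VarClass k} {C : ChowTheory.{u, v} 𝒱}
  {W : WeilTheory.{u, v, w} C} {X : 𝒱.Obj}

lemma brk_eq (α β : C.CH (X.prod X)) : brk C X α β = C.bracket α β := rfl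

lemma isLefschetzOp_iff {L : C.CH (X.prod X)} : IsLefschetzOp W X L ↔ W.IsLefschetzOp X L :=
  ⟨fun h => ⟨h.mem, h.hard⟩, fun h => ⟨h.mem, h.hard⟩⟩

lemma standard_iff {L : C.CH (X.prod X)} : Standard W X L ↔ W.LefschetzStandard X L := Iff.rfl

lemma isPair_iff {L' L Λ : C.CH (X.prod X)} : IsPair W X L' L Λ ↔ W.IsLefPair X L' L Λ := by
  constructor
  · rintro ⟨h1, h2, h3, h4⟩
    refine ⟨h1, h2, h3, ?_⟩
    have h5 : C.bracket L (C.bracket L Λ) = (-2 : ℚ) • L := h4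
    rw [h5, neg_smul]
  · rintro ⟨h1, h2, h3, h4⟩
    refine ⟨h1, h2, h3, ?_⟩
    have h5 : C.bracket L (C.bracket L Λ) = (-2 : ℚ) • L := by rw [h4, neg_smul]
    exact h5

lemma hasPair_iff (A : B.AJMap W) {L' : C.CH (X.prod X)} : HasPair A X L' ↔ HasLefPair A X L' := by
  refine exists_congr fun L => exists_congr fun Λ => ?_
  rw [isPair_iff]
  refine and_congr_right fun _ => ?_
  refine and_congr ?_ Iff.rfl
  exact ⟨fun h w γ h1 h2 h3 => h w γ h1 h2 h3, fun h w γ h1 h2 h3 => h w γ h1 h2 h3⟩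

theorem main (A : B.AJMap W) (hP : C.Polarized)
    (L : ∀ X : 𝒱.Obj, C.CH (X.prod X)) (hL : ∀ X, IsLefschetzOp W X (L X)) :
    (((∀ X, Standard W X (L X)) ∧ ∃ F, B.IsBB A F) ↔ ∀ X, HasPair A X (L X)) ∧
      ((∀ X, Standard W X (L X)) → ∀ F, B.IsBB A F → GivenByPairs W L F) := by
  have hL' : ∀ X, W.IsLefschetzOp X (L X) := fun X => isLefschetzOp_iff.1 (hL X)
  refine ⟨?_, fun hs F hF X L₀ Λ₀ hp j => ?_⟩
  · refine (WeilTheory.hasLefPair_iff A hP L hL').trans (forall_congr' fun X => ?_)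
    exact (hasPair_iff A).symm
  · exact WeilTheory.givenByPairs A hP L hL' hs hF X L₀ Λ₀ (isPair_iff.1 hp) j

end Pool.Agent.R903.LB
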