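import Pool.Agent.R898.BStmt

/-!
# The Lefschetz standard conjecture and the Bloch–Beilinson filtration: the definitions used in the
# statement
-/

open CategoryTheory CategoryTheory.Limits AlgebraicGeometry
open Pool.Agent.H914 Pool.Agent.H914.VarClass Pool.Agent.H914.VarClass.Obj
open Pool.Agent.R898

universe u v w

namespace Pool.Agent.R903.LB

section Alg

variable {A B D E : Type v} [CommRing A] [Algebra ℚ A] [CommRing B] [Algebra ℚ B]
  [CommRing D] [Algebra ℚ D] [CommRing E] [Algebra ℚ E] {J : Type v} [AddCommGroup J]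
  [Module ℚ J] {K : Type w} [Field K] {H : Type w} [Ring H] [Algebra K H]

/-- The element `s(p(a) q(b))`. -/
def mulPush (p : A →ₐ[ℚ] D) (q : B →ₐ[ℚ] D) (s : D →ₗ[ℚ] E) (a : A) (b : B) : E :=
  s (p a * q b)

/-- The difference `a - b`. -/
def diff (a b : A) : A := a - b

/-- `a = q b` -/
def IsMul (q : ℚ) (a b : A) : Prop := a = q • b

/-- `c a = c b` -/
def SameImage (c : A →+* H) (a b : A) : Prop := c a = c b

/-- The hard Lefschetz property of an operator `T` of degree `2` on `H = ⨁ gr j`: for all `j ≤ n`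
the power `T^(n - j)` maps `gr j` bijectively onto `gr (2n - j)`. -/
def IsHard (n : ℕ) (gr : ℕ → Submodule K H) (T : H →ₗ[K] H) : Prop :=
  ∀ j ≤ n, Set.BijOn (T^[n - j]) (gr j) (gr (2 * n - j))

/-- `T` is multiplication by `j - n` on `gr j`. -/
def ActsByDegree (T : H →ₗ[K] H) (gr : ℕ → Submodule K H) (n : ℕ) : Prop :=
  ∀ j, ∀ a ∈ gr j, T a = ((j : K) - n) • a

/-- No nonzero `x` in `U` with `c x = 0` satisfies `T x = w x` for an integer `w ≥ 0`. -/
def NoNonnegEigen (T : A → A) (U : Submodule ℚ A) (c : A →+* H) : Prop :=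
  ∀ (w : ℕ) (x : A), x ∈ U → c x = 0 → T x = (w : ℚ) • x → x = 0

/-- No nonzero `x` in `U` with `c x = 0` and `a x = 0` satisfies `T x = (m - n) x` for an integer
`m ≥ 2j - 1`. -/
def NoHighEigen (T : A →ₗ[ℚ] A) (U : Submodule ℚ A) (c : A →+* H) (a : A →ₗ[ℚ] J)
    (j n : ℕ) : Prop :=
  ∀ (m : ℕ) (x : A), 2 * j ≤ m + 1 → x ∈ U → c x = 0 → a x = 0 → T x = ((m : ℚ) - n) • x → x = 0

/-- `F k` consists of the sums `∑ f m`, for `m + k ≤ 2j`, of elements `f m` of `U` with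
`T (f m) = (m - n) (f m)`. -/
def IsEigenFil (T : A →ₗ[ℚ] A) (U : Submodule ℚ A) (j n : ℕ) (F : ℕ → Submodule ℚ A) : Prop :=
  ∀ (k : ℕ) (x : A), x ∈ F k ↔ ∃ f : ℕ → A, (∀ m, f m ∈ U ∧ T (f m) = ((m : ℚ) - n) • f m) ∧
    x = ∑ m ∈ Finset.range (2 * j + 1 - k), f m

end Alg

variable {k : Type u} [Field k] {𝒱 : VarClass k} (C : ChowTheory.{u, v} 𝒱) {X Y Z : 𝒱.Obj}

/-- `X × (Y × Z) → X × Y` -/
noncomputable def q12 (X Y Z : 𝒱.Obj) : X.prod (Y.prod Z) ⟶ X.prod Y :=
  lift (fst X (Y.prod Z)) (snd X (Y.prod Z) ≫ fst Y Z)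

/-- `X × (Y × Z) → X × Z` -/
noncomputable def q13 (X Y Z : 𝒱.Obj) : X.prod (Y.prod Z) ⟶ X.prod Z :=
  lift (fst X (Y.prod Z)) (snd X (Y.prod Z) ≫ snd Y Z)

/-- The composition of correspondences, first `α`, then `β`: `p13_*(p12^* α · p23^* β)`. -/
noncomputable def cp (α : C.CH (X.prod Y)) (β : C.CH (Y.prod Z)) : C.CH (X.prod Z) :=
  mulPush (C.pull (q12 X Y Z)) (C.pull (snd X (Y.prod Z))) (C.push (q13 X Y Z)) α β

/-- The commutator `[α, β] = α ∘ β - β ∘ α` of correspondences from `X` to `X`. -/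
noncomputable def brk (X : 𝒱.Obj) (α β : C.CH (X.prod X)) : C.CH (X.prod X) :=
  diff (cp C β α) (cp C α β)

variable {C} (W : WeilTheory.{u, v, w} C)

/-- `L` is in `CH^(dim X + 1)(X × X)` and has the hard Lefschetz property. -/
structure IsLefschetzOp (X : 𝒱.Obj) (L : C.CH (X.prod X)) : Prop where
  mem : L ∈ C.gr (X.prod X) (X.dim + 1)
  hard : IsHard X.dim (W.gr X) (W.act L)

/-- The **Lefschetz standard conjecture** for `L`: there is `Λ` in `CH^(dim X - 1)(X × X)` such that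
`[L, Λ]` acts on `H^j(X)` as multiplication by `j - dim X`, for all `j`. -/
def Standard (X : 𝒱.Obj) (L : C.CH (X.prod X)) : Prop :=
  ∃ Λ ∈ C.gr (X.prod X) (X.dim - 1), ActsByDegree (W.act (brk C X L Λ)) (W.gr X) X.dim

/-- `L` is in `CH^(dim X + 1)(X × X)` and homologically equivalent to `L'`, the correspondence `Λ` is
in `CH^(dim X - 1)(X × X)`, and `[L, [L, Λ]] = -2 L`. -/
structure IsPair (X : 𝒱.Obj) (L' L Λ : C.CH (X.prod X)) : Prop where
  mem : L ∈ C.gr (X.prod X) (X.dim + 1)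
  hom : SameImage (W.cl (X.prod X)) L L'
  mem' : Λ ∈ C.gr (X.prod X) (X.dim - 1)
  eqn : IsMul (-2) (brk C X L (brk C X L Λ)) L

variable {W}

/-- The element `h` of `CH^(dim X)(X × X)` has the following properties: there is no nonzero
homologically trivial `γ` in `CH^(dim X)(X × X)` with `[h, γ] = w γ` for an integer `w ≥ 0`, and for
all `j` there is no nonzero `x` in the kernel of the Abel–Jacobi map on the homologically trivial
classes in `CH^j(X)` with `h_* x = (m - dim X) x` for an integer `m ≥ 2j - 1`. -/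
def IsStrict (A : B.AJMap W) (X : 𝒱.Obj) (h : C.CH (X.prod X)) : Prop :=
  NoNonnegEigen (brk C X h) (C.gr (X.prod X) X.dim) (W.cl (X.prod X)) ∧
    ∀ j, NoHighEigen (C.act h) (C.gr X j) (W.cl X) (A.aj X j) j X.dim

/-- There are `L`, homologically equivalent to `L'`, and `Λ` with `[L, [L, Λ]] = -2 L` such that
`[L, Λ]` has the properties in `IsStrict`. -/
def HasPair (A : B.AJMap W) (X : 𝒱.Obj) (L' : C.CH (X.prod X)) : Prop :=
  ∃ L Λ : C.CH (X.prod X), IsPair W X L' L Λ ∧ IsStrict A X (brk C X L Λ)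

/-- For all `X` and all `L`, `Λ` as in `IsPair`, the group `F X j k` is the sum of the eigenspaces of
`[L, Λ]_*` on `CH^j(X)` for the eigenvalues `m - dim X` with `m ≤ 2j - k`. -/
def GivenByPairs (W : WeilTheory.{u, v, w} C) (L' : ∀ X : 𝒱.Obj, C.CH (X.prod X))
    (F : ∀ X : 𝒱.Obj, ℕ → ℕ → Submodule ℚ (C.CH X)) : Prop :=
  ∀ (X : 𝒱.Obj) (L Λ : C.CH (X.prod X)), IsPair W X (L' X) L Λ → ∀ j,
    IsEigenFil (C.act (brk C X L Λ)) (C.gr X j) j X.dim (F X j)

end Pool.Agent.R903.LB
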