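import Pool.Agent.R903.Corr

/-!
# Lefschetz systems: definitions
-/

open CategoryTheory CategoryTheory.Limits AlgebraicGeometry
open Pool.Agent.H914 Pool.Agent.H914.VarClass Pool.Agent.H914.VarClass.Obj

universe u v w

namespace Pool.Agent.R903

variable {k : Type u} [Field k] {𝒱 : VarClass k} {C : ChowTheory.{u, v} 𝒱}

/-- The commutator `[α, β] = α ∘ β - β ∘ α` of correspondences from `X` to `X`. -/
noncomputable def ChowTheory.bracket (C : ChowTheory.{u, v} 𝒱) {X : 𝒱.Obj}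
    (α β : C.CH (X.prod X)) : C.CH (X.prod X) :=
  C.comp β α - C.comp α β

/-- The sum of the `(j - dim X) π_j`, for `0 ≤ j ≤ 2 dim X`. -/
noncomputable def ChowTheory.wt (C : ChowTheory.{u, v} 𝒱) {X : 𝒱.Obj}
    (π : ℕ → C.CH (X.prod X)) : C.CH (X.prod X) :=
  ∑ j ∈ Finset.range (2 * X.dim + 1), ((j : ℚ) - X.dim) • π j

/-- `π 0, …, π (2 dim X)` are mutually orthogonal idempotents in `CH^(dim X)(X × X)` whose sum is
the diagonal (and the other `π j` are `0`). -/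
structure ChowTheory.IsDecomposition (C : ChowTheory.{u, v} 𝒱) {X : 𝒱.Obj}
    (π : ℕ → C.CH (X.prod X)) : Prop where
  mem : ∀ j, π j ∈ C.gr (X.prod X) X.dim
  idem : ∀ j, C.comp (π j) (π j) = π j
  orth : ∀ i j, i ≠ j → C.comp (π i) (π j) = 0
  sum : ∑ j ∈ Finset.range (2 * X.dim + 1), π j = C.diagC X

/-- `(L, H, Λ)` is an `sl₂`-triple: `[L, Λ] = H`, `[H, L] = 2 L` and `[H, Λ] = -2 Λ`. -/
structure ChowTheory.IsTriple (C : ChowTheory.{u, v} 𝒱) {X : 𝒱.Obj}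
    (L H Λ : C.CH (X.prod X)) : Prop where
  bracket_LΛ : C.bracket L Λ = H
  bracket_HL : C.bracket H L = (2 : ℚ) • L
  bracket_HΛ : C.bracket H Λ = -((2 : ℚ) • Λ)

/-- `π 0, …, π (2 dim X)` are mutually orthogonal idempotents in `CH^(dim X)(X × X)` whose sum is
the diagonal, and `(L, ∑_j (j - dim X) π_j, Λ)` is an `sl₂`-triple, where `Λ` is in
`CH^(dim X - 1)(X × X)`. -/
structure ChowTheory.IsLefschetzSystem (C : ChowTheory.{u, v} 𝒱) {X : 𝒱.Obj}
    (L Λ : C.CH (X.prod X)) (π : ℕ → C.CH (X.prod X)) : Prop where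
  decomp : C.IsDecomposition π
  mem_Λ : Λ ∈ C.gr (X.prod X) (X.dim - 1)
  triple : C.IsTriple L (C.wt π) Λ

/-- The equation `[L, [L, Λ]] = -2 L`, which is linear in `Λ`, has a solution `Λ` in
`CH^(dim X - 1)(X × X)`. -/
def ChowTheory.Solvable (C : ChowTheory.{u, v} 𝒱) {X : 𝒱.Obj} (L : C.CH (X.prod X)) : Prop :=
  ∃ Λ ∈ C.gr (X.prod X) (X.dim - 1), C.bracket L (C.bracket L Λ) = -((2 : ℚ) • L)

/-- There are `Λ` and `π` such that `(L, ∑_j (j - dim X) π_j, Λ)` is an `sl₂`-triple as in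
`IsLefschetzSystem`. -/
def ChowTheory.HasLefschetzSystem (C : ChowTheory.{u, v} 𝒱) {X : 𝒱.Obj} (L : C.CH (X.prod X)) :
    Prop :=
  ∃ (Λ : C.CH (X.prod X)) (π : ℕ → C.CH (X.prod X)), C.IsLefschetzSystem L Λ π

/-- The correspondence `Δ_* D` of a divisor class `D`, which acts as multiplication by `D`. -/
noncomputable def ChowTheory.lef (C : ChowTheory.{u, v} 𝒱) {X : 𝒱.Obj} (D : C.CH X) :
    C.CH (X.prod X) :=
  C.push (diag X) D

/-- The class `p_2^* D - p_1^* D` on `X × X`. -/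
noncomputable def ChowTheory.diff (C : ChowTheory.{u, v} 𝒱) {X : 𝒱.Obj} (D : C.CH X) :
    C.CH (X.prod X) :=
  C.pull (snd X X) D - C.pull (fst X X) D

/-- `Δ_* D = (p_2^* D - p_1^* D)^2 · Λ` for some `Λ` in `CH^(dim X - 1)(X × X)`. -/
def ChowTheory.Divisible (C : ChowTheory.{u, v} 𝒱) {X : 𝒱.Obj} (D : C.CH X) : Prop :=
  ∃ Λ ∈ C.gr (X.prod X) (X.dim - 1), C.diff D * (C.diff D * Λ) = C.lef D

/-- The hard Lefschetz property of an operator `T` of degree `2` on `V = ⨁ gr j`: for all `j ≤ n`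
the power `T^(n - j)` maps `gr j` bijectively onto `gr (2n - j)`. -/
def IsHardLefschetz {K : Type w} [Field K] {V : Type w} [AddCommGroup V] [Module K V] (n : ℕ)
    (gr : ℕ → Submodule K V) (T : V →ₗ[K] V) : Prop :=
  ∀ j ≤ n, Set.BijOn (T^[n - j]) (gr j) (gr (2 * n - j))

/-- The action of `L` on the cohomology of `X` has the hard Lefschetz property: for all
`j ≤ n = dim X` the power `L^(n - j)` maps `H^j(X)` bijectively onto `H^(2n - j)(X)`. -/
def WeilTheory.HardLefschetz (W : WeilTheory.{u, v, w} C) {X : 𝒱.Obj} (L : C.CH (X.prod X)) :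
    Prop :=
  IsHardLefschetz X.dim (W.gr X) (W.act L)

/-- Each Lefschetz system of `L` is a Chow–Künneth decomposition for `W`. -/
def WeilTheory.SystemsAreCK (W : WeilTheory.{u, v, w} C) {X : 𝒱.Obj} (L : C.CH (X.prod X)) :
    Prop :=
  ∀ (Λ : C.CH (X.prod X)) (π : ℕ → C.CH (X.prod X)), C.IsLefschetzSystem L Λ π → W.IsCK X π

/-- `(π j)_* CH^i(X) = 0` unless `i ≤ j ≤ i + dim X`. -/
def ChowTheory.VanishesOutside (C : ChowTheory.{u, v} 𝒱) {X : 𝒱.Obj}
    (π : ℕ → C.CH (X.prod X)) : Prop :=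
  ∀ i j, (j < i ∨ i + X.dim < j) → ∀ x ∈ C.gr X i, C.act (π j) x = 0

end Pool.Agent.R903
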