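import Pool.Agent.R903.MatMain

/-!
# Relations between matchings of bounded shape
-/

open CategoryTheory CategoryTheory.Limits AlgebraicGeometry
open Pool.Agent.H914 Pool.Agent.H914.VarClass Pool.Agent.H914.VarClass.Obj
open Pool.Agent.R903.PermCore

universe u v w

namespace Pool.Agent.R903

namespace Mat

section Bound

variable {α : Type} {ε : ℤˣ} {r : ℕ}

/-- No (anti)symmetrization over `r + 1` points is nonzero on the orbit of `v`. -/
def Bound (ε : ℤˣ) (r : ℕ) (v : Matching α → ℚ) : Prop :=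
  ∀ (h : Equiv.Perm α) (ι : Fin (r + 1) ↪ α),
    ∑ g : Equiv.Perm (Fin (r + 1)), chi ε g • rho (g.viaEmbedding ι) (rho h v) = 0

lemma rho_rho (g h : Equiv.Perm α) (v : Matching α → ℚ) : rho g (rho h v) = rho (g * h) v := by
  rw [map_mul, Module.End.mul_apply]

lemma Bound.conj {v : Matching α → ℚ} (h : Bound ε r v) (g : Equiv.Perm α) :
    Bound ε r (rho g v) := by
  intro h' ι
  rw [rho_rho h' g]
  exact h (h' * g) ι

/-- the subspace of the functions with a bound -/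
def boundSub (α : Type) (ε : ℤˣ) (r : ℕ) : Submodule ℚ (Matching α → ℚ) where
  carrier := {v | Bound ε r v}
  add_mem' := by
    intro v v' h1 h2 h ι
    simp only [map_add, smul_add, Finset.sum_add_distrib, h1 h ι, h2 h ι, add_zero]
  zero_mem' := by
    intro h ι
    simp only [map_zero, smul_zero, Finset.sum_const_zero]
  smul_mem' := by
    intro c v h1 h ι
    simp only [map_smul, smul_comm _ c, ← Finset.smul_sum, h1 h ι, smul_zero]

lemma chi_swap_mul {κ : Type} [Fintype κ] [DecidableEq κ] (ε : ℤˣ) (g : Equiv.Perm κ) {p q : κ}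
    (hpq : p ≠ q) : chi ε (Equiv.swap p q * g) = -((ε : ℤ) : ℚ) * chi ε g := by
  rcases Int.units_eq_one_or ε with rfl | rfl
  · simp [chi, Equiv.Perm.sign_mul, Equiv.Perm.sign_swap hpq]
  · simp [chi]

lemma chi_sq {κ : Type} [Fintype κ] [DecidableEq κ] (ε : ℤˣ) (g : Equiv.Perm κ) :
    chi ε g * chi ε g = 1 := by
  rw [chi]
  split_ifs
  · rcases Int.units_eq_one_or (Equiv.Perm.sign g) with h | h <;> simp [h]
  · norm_num

variable [DecidableEq α]

omit [DecidableEq α] in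
lemma via_mul {κ : Type} (ι : κ ↪ α) (g h : Equiv.Perm κ) :
    (g * h).viaEmbedding ι = g.viaEmbedding ι * h.viaEmbedding ι :=
  map_mul (Equiv.Perm.viaEmbeddingHom ι) g h

lemma via_swap {κ : Type} [DecidableEq κ] (ι : κ ↪ α) (x y : κ) :
    (Equiv.swap x y).viaEmbedding ι = Equiv.swap (ι x) (ι y) := by
  ext a
  by_cases ha : a ∈ Set.range ι
  · obtain ⟨b, rfl⟩ := ha
    rw [Equiv.Perm.viaEmbedding_apply, Equiv.swap_apply_def, Equiv.swap_apply_def]
    simp only [EmbeddingLike.apply_eq_iff_eq]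
    split_ifs <;> rfl
  · rw [Equiv.Perm.viaEmbedding_apply_of_notMem _ _ _ ha, Equiv.swap_apply_of_ne_of_ne]
    · rintro rfl; exact ha ⟨x, rfl⟩
    · rintro rfl; exact ha ⟨y, rfl⟩

omit [DecidableEq α] in
lemma via_one {κ : Type} (ι : κ ↪ α) : (1 : Equiv.Perm κ).viaEmbedding ι = 1 :=
  map_one (Equiv.Perm.viaEmbeddingHom ι)

lemma rho_via {ι : Fin (r + 1) ↪ α} {v : Matching α → ℚ}
    (hv : ∀ x y, x ≠ y → rho (Equiv.swap (ι x) (ι y)) v = (-((ε : ℤ) : ℚ)) • v)
    (g : Equiv.Perm (Fin (r + 1))) : rho (g.viaEmbedding ι) v = chi ε g • v := by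
  induction g using Equiv.Perm.swap_induction_on with
  | one => rw [via_one, map_one, chi_one, Module.End.one_apply, one_smul]
  | swap_mul f x y hxy ih =>
    rw [via_mul, ← rho_rho, ih, map_smul, via_swap, hv x y hxy, chi_swap_mul ε f hxy, smul_smul,
      mul_comm]

lemma card_le_of_bound [Fintype α] {F : Finset α} {v : Matching α → ℚ} (h : Bound ε r v)
    (hv0 : v ≠ 0)
    (hv : ∀ p ∈ F, ∀ p' ∈ F, p ≠ p' → rho (Equiv.swap p p') v = (-((ε : ℤ) : ℚ)) • v) :
    F.card ≤ r := by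
  by_contra hc
  have h1 : Fintype.card (Fin (r + 1)) ≤ Fintype.card {x // x ∈ F} := by
    rw [Fintype.card_fin, Fintype.card_coe]
    omega
  obtain ⟨j⟩ := Function.Embedding.nonempty_of_card_le h1
  set ι : Fin (r + 1) ↪ α := j.trans (Function.Embedding.subtype _) with hι
  have h2 := h 1 ι
  have h3 : ∀ g : Equiv.Perm (Fin (r + 1)), chi ε g • rho (g.viaEmbedding ι) (rho 1 v) = v := by
    intro g
    rw [map_one, Module.End.one_apply, rho_via (ε := ε) (ι := ι), smul_smul, chi_sq, one_smul]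
    intro x y hxy
    exact hv _ (j x).2 _ (j y).2 fun h => hxy (j.injective (Subtype.ext h))
  rw [Finset.sum_congr rfl fun g _ => h3 g, Finset.sum_const, ← Nat.cast_smul_eq_nsmul ℚ] at h2
  rcases smul_eq_zero.1 h2 with h4 | h4
  · have h5 : (Finset.univ : Finset (Equiv.Perm (Fin (r + 1)))).card ≠ 0 :=
      Finset.card_ne_zero_of_mem (Finset.mem_univ 1)
    exact h5 (by exact_mod_cast h4)
  · exact hv0 h4

lemma bound_of_max [Fintype α] {S : Submodule ℚ (Matching α → ℚ)}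
    (hS : ∀ g, ∀ v ∈ S, rho g v ∈ S)
    (hmax : ∀ F : Finset α, ∀ v ∈ S, v ≠ 0 →
      (∀ p ∈ F, ∀ p' ∈ F, p ≠ p' → rho (Equiv.swap p p') v = (-((ε : ℤ) : ℚ)) • v) → F.card ≤ r)
    {v : Matching α → ℚ} (hv : v ∈ S) : Bound ε r v := by
  intro h ι
  by_contra hw
  have h1 := hmax (Finset.univ.map ι) _
    (S.sum_mem fun g _ => S.smul_mem (chi ε g) (hS (g.viaEmbedding ι) _ (hS h v hv))) hw ?_
  · rw [Finset.card_map, Finset.card_univ, Fintype.card_fin] at h1
    omega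
  · intro p hp p' hp' hpp
    obtain ⟨x, -, rfl⟩ := Finset.mem_map.1 hp
    obtain ⟨y, -, rfl⟩ := Finset.mem_map.1 hp'
    have hxy : x ≠ y := fun h => hpp (by rw [h])
    rw [map_sum, Finset.smul_sum, ← Equiv.sum_comp (Equiv.mulLeft (Equiv.swap x y))]
    refine Finset.sum_congr rfl fun g _ => ?_
    rw [Equiv.coe_mulLeft, map_smul, chi_swap_mul ε g hxy, via_mul, ← rho_rho _ (g.viaEmbedding ι),
      via_swap, rho_rho (Equiv.swap (ι x) (ι y)), Equiv.swap_mul_self, map_one,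
      Module.End.one_apply, smul_smul]

end Bound

section Contr

variable {α : Type} [Fintype α] [DecidableEq α] {p q : α}

/-- the contraction as a linear map -/
def contrL (t : ℚ) (hpq : p ≠ q) :
    (Matching α → ℚ) →ₗ[ℚ] (Matching {x // x ≠ p ∧ x ≠ q} → ℚ) where
  toFun := contr t hpq
  map_add' v v' := by
    funext τ
    simp only [contr, Pi.add_apply, Finset.sum_add_distrib]
    ring
  map_smul' c v := by
    funext τ
    simp only [contr, Pi.smul_apply, smul_eq_mul, ← Finset.mul_sum, RingHom.id_apply]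
    ring

omit [Fintype α] in
lemma ext_conj (hpq : p ≠ q) (g : Equiv.Perm {x // x ≠ p ∧ x ≠ q})
    (τ : Matching {x // x ≠ p ∧ x ≠ q}) :
    ext hpq (conj g τ) = conj (Equiv.Perm.ofSubtype g) (ext hpq τ) := by
  have hp : (Equiv.Perm.ofSubtype g) p = p :=
    Equiv.Perm.ofSubtype_apply_of_not_mem _ (by simp)
  have hq : (Equiv.Perm.ofSubtype g) q = q :=
    Equiv.Perm.ofSubtype_apply_of_not_mem _ (by simp)
  have hp' : (Equiv.Perm.ofSubtype g)⁻¹ p = p := by rw [Equiv.Perm.inv_eq_iff_eq, hp]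
  have hq' : (Equiv.Perm.ofSubtype g)⁻¹ q = q := by rw [Equiv.Perm.inv_eq_iff_eq, hq]
  apply Subtype.ext
  ext x
  rw [conj_apply]
  by_cases h1 : x = p
  · subst h1
    rw [ext_left, hp', ext_left, hq]
  by_cases h2 : x = q
  · subst h2
    rw [ext_right, hq', ext_right, hp]
  have h3 : (Equiv.Perm.ofSubtype g)⁻¹ x = (g⁻¹ ⟨x, h1, h2⟩ : {x // x ≠ p ∧ x ≠ q}) := by
    rw [← map_inv]
    exact Equiv.Perm.ofSubtype_apply_coe g⁻¹ ⟨x, h1, h2⟩
  rw [h3, ext_coe, Equiv.Perm.ofSubtype_apply_coe]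
  exact ext_coe hpq (conj g τ) ⟨x, h1, h2⟩

lemma contr_rho (t : ℚ) (hpq : p ≠ q) (g : Equiv.Perm {x // x ≠ p ∧ x ≠ q})
    (v : Matching α → ℚ) :
    contr t hpq (rho (Equiv.Perm.ofSubtype g) v) = rho g (contr t hpq v) := by
  have hq : (Equiv.Perm.ofSubtype g) q = q :=
    Equiv.Perm.ofSubtype_apply_of_not_mem _ (by simp)
  have hq' : (Equiv.Perm.ofSubtype g)⁻¹ q = q := by rw [Equiv.Perm.inv_eq_iff_eq, hq]
  funext τ
  rw [rho_apply, contr, contr, ext_conj, map_inv, rho_apply]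
  congr 1
  rw [← Equiv.sum_comp g]
  refine Finset.sum_congr rfl fun s _ => ?_
  rw [rho_apply, conj_conj, conj_conj, Equiv.mul_swap_eq_swap_mul, hq']
  have h3 : (Equiv.Perm.ofSubtype g)⁻¹ ((g s : {x // x ≠ p ∧ x ≠ q}) : α) = s := by
    rw [Equiv.Perm.inv_eq_iff_eq]
    exact (Equiv.Perm.ofSubtype_apply_coe g s).symm
  rw [h3]

omit [Fintype α] in
lemma ofSubtype_via {κ : Type} (ι : κ ↪ {x // x ≠ p ∧ x ≠ q}) (g : Equiv.Perm κ) :
    Equiv.Perm.ofSubtype (g.viaEmbedding ι) =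
      g.viaEmbedding (ι.trans (Function.Embedding.subtype _)) := by
  ext x
  by_cases hx : x ≠ p ∧ x ≠ q
  · have h1 : (Equiv.Perm.ofSubtype (g.viaEmbedding ι)) x = (g.viaEmbedding ι) ⟨x, hx⟩ :=
      Equiv.Perm.ofSubtype_apply_coe _ ⟨x, hx⟩
    rw [h1]
    by_cases h2 : (⟨x, hx⟩ : {x // x ≠ p ∧ x ≠ q}) ∈ Set.range ι
    · obtain ⟨k, hk⟩ := h2
      have h3 : x = (ι.trans (Function.Embedding.subtype _)) k := by
        change x = (ι k : α)
        rw [hk]
      rw [← hk, Equiv.Perm.viaEmbedding_apply]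
      conv_rhs => rw [h3, Equiv.Perm.viaEmbedding_apply]
      rfl
    · rw [Equiv.Perm.viaEmbedding_apply_of_notMem _ _ _ h2,
        Equiv.Perm.viaEmbedding_apply_of_notMem]
      rintro ⟨k, hk⟩
      exact h2 ⟨k, Subtype.ext hk⟩
  · rw [Equiv.Perm.ofSubtype_apply_of_not_mem (p := fun x => x ≠ p ∧ x ≠ q) _ hx,
      Equiv.Perm.viaEmbedding_apply_of_notMem]
    rintro ⟨k, hk⟩
    apply hx
    rw [← hk]
    exact (ι k).2

lemma Bound.contr {ε : ℤˣ} {r : ℕ} (t : ℚ) (hpq : p ≠ q) {v : Matching α → ℚ}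
    (h : Bound ε r v) : Bound ε r (contr t hpq v) := by
  intro h' ι
  have h1 := congrArg (contrL t hpq)
    (h (Equiv.Perm.ofSubtype h') (ι.trans (Function.Embedding.subtype _)))
  rw [map_zero, map_sum] at h1
  rw [← h1]
  refine Finset.sum_congr rfl fun g _ => ?_
  rw [map_smul]
  congr 1
  change _ = Mat.contr t hpq _
  rw [← ofSubtype_via, contr_rho, contr_rho]

end Contr

end Mat

end Pool.Agent.R903
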