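import Pool.Agent.R903.MatKill

/-!
# Coloured matchings
-/

open CategoryTheory CategoryTheory.Limits AlgebraicGeometry
open Pool.Agent.H914 Pool.Agent.H914.VarClass Pool.Agent.H914.VarClass.Obj
open Pool.Agent.R903.PermCore

universe u v w

namespace Pool.Agent.R903

variable {k : Type u} [Field k] {𝒱 : VarClass k} {C : ChowTheory.{u, v} 𝒱}

namespace Mat

variable {X Y : 𝒱.Obj} {e f : C.CH (X.prod X)}

/-- orthogonal symmetric idempotents -/
structure IsPair (C : ChowTheory.{u, v} 𝒱) {X : 𝒱.Obj} (e f : C.CH (X.prod X)) : Prop where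
  ee : C.comp e e = e
  ff : C.comp f f = f
  ef : C.comp e f = 0
  fe : C.comp f e = 0
  es : C.IsSymmetric e
  fs : C.IsSymmetric f

/-- the correspondence of a colour -/
noncomputable def col (e f : C.CH (X.prod X)) (b : Bool) : C.CH (X.prod X) := if b = true then e else f

/-- the correspondence of a pair of colours -/
noncomputable def cm (e f : C.CH (X.prod X)) : Option Bool → Option Bool → C.CH (X.prod X)
  | none, none => e + f
  | none, some b => col e f b
  | some b, none => col e f b
  | some b, some b' => if b = b' then col e f b else 0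

lemma cm_comm (x y : Option Bool) : cm e f x y = cm e f y x := by
  cases x with
  | none => cases y <;> rfl
  | some b =>
    cases y with
    | none => rfl
    | some b' =>
      by_cases h : b = b'
      · subst h; rfl
      · simp only [cm, if_neg h, if_neg (Ne.symm h)]

lemma col_comp_col (h : IsPair C e f) (b : Bool) : C.comp (col e f b) (col e f b) = col e f b := by
  cases b
  · exact h.ff
  · exact h.ee

lemma comp_zero' (a : C.CH (X.prod X)) : C.comp a (0 : C.CH (X.prod X)) = 0 := by
  have h1 := C.comp_smul (0 : ℚ) a (0 : C.CH (X.prod X))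
  rwa [zero_smul, zero_smul] at h1

lemma zero_comp' (a : C.CH (X.prod X)) : C.comp (0 : C.CH (X.prod X)) a = 0 := by
  have h1 := C.smul_comp (0 : ℚ) (0 : C.CH (X.prod X)) a
  rwa [zero_smul, zero_smul] at h1

lemma col_symm (h : IsPair C e f) (b : Bool) : C.IsSymmetric (col e f b) := by
  cases b
  · exact h.fs
  · exact h.es

lemma cm_symm (h : IsPair C e f) (x y : Option Bool) : C.IsSymmetric (cm e f x y) := by
  cases x with
  | none =>
    cases y with
    | none => exact ChowTheory.isSymmetric_add h.es h.fs
    | some b => exact col_symm h b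
  | some b =>
    cases y with
    | none => exact col_symm h b
    | some b' =>
      simp only [cm]
      split_ifs
      · exact col_symm h b
      · rw [ChowTheory.IsSymmetric, map_zero]

lemma comp_cm (h : IsPair C e f) (b : Bool) (y : Option Bool) :
    C.comp (col e f b) (cm e f (some b) y) = cm e f (some b) y := by
  cases y with
  | none => exact col_comp_col h b
  | some b' =>
    simp only [cm]
    split_ifs
    · exact col_comp_col h b
    · exact comp_zero' _

lemma comp_cm_cm (h : IsPair C e f) (b c d : Bool) :
    C.comp (cm e f (some b) (some c)) (cm e f (some b) (some d)) =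
      if c = b then cm e f (some c) (some d) else 0 := by
  by_cases hc : c = b
  · subst hc
    rw [if_pos rfl]
    simp only [cm, if_true]
    split_ifs
    · exact col_comp_col h c
    · exact comp_zero' _
  · rw [if_neg hc]
    simp only [cm]
    rw [if_neg (Ne.symm hc)]
    exact zero_comp' _

lemma cm_none (y : Option Bool) :
    cm e f none y = cm e f (some true) y + cm e f (some false) y := by
  cases y with
  | none => rfl
  | some b => cases b <;> simp [cm, col]

variable {α : Type}

/-- the coloured class of a pair -/
noncomputable def pc (e f : C.CH (X.prod X)) (χ : α → Option Bool) (z : α → (Y ⟶ X)) (i j : α) :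
    C.CH Y :=
  C.pull (lift (z i) (z j)) (cm e f (χ i) (χ j))

lemma pc_comm (h : IsPair C e f) (χ : α → Option Bool) (z : α → (Y ⟶ X)) (i j : α) :
    pc e f χ z i j = pc e f χ z j i := by
  rw [pc, pc, cm_comm (χ j) (χ i)]
  exact symm_pull (cm_symm h _ _) (z i) (z j)

variable [Fintype α] [DecidableEq α]

/-- the coloured class of a matching -/
noncomputable def kcl (h : IsPair C e f) (χ : α → Option Bool) (z : α → (Y ⟶ X))
    (m : Matching α) : C.CH Y :=
  gcl (pc e f χ z) (pc_comm h χ z) m

/-- the coloured family of a function -/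
noncomputable def fml (h : IsPair C e f) (χ : α → Option Bool) (v : Matching α → ℚ) :
    Fam C X α :=
  fun _ z => ∑ m, v m • kcl h χ z m

lemma fml_add (h : IsPair C e f) (χ : α → Option Bool) (v v' : Matching α → ℚ) :
    fml h χ (v + v') = fml h χ v + fml h χ v' := by
  funext Y z
  simp only [fml, Pi.add_apply, add_smul, Finset.sum_add_distrib]

lemma fml_smul (h : IsPair C e f) (χ : α → Option Bool) (c : ℚ) (v : Matching α → ℚ) :
    fml h χ (c • v) = c • fml h χ v := by
  funext Y z
  simp only [fml, Pi.smul_apply, smul_eq_mul, mul_smul, Finset.smul_sum]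

/-- `fml` as a linear map -/
noncomputable def fmlL (h : IsPair C e f) (χ : α → Option Bool) :
    (Matching α → ℚ) →ₗ[ℚ] Fam C X α where
  toFun := fml h χ
  map_add' := fml_add h χ
  map_smul' := fml_smul h χ

lemma rhoV_fml (h : IsPair C e f) {χ : α → Option Bool} {g : Equiv.Perm α}
    (hχ : ∀ i, χ (g i) = χ i) (v : Matching α → ℚ) :
    rhoV g (fml h χ v) = fml h χ (rho g v) := by
  funext Y z
  rw [rhoV_apply]
  refine Finset.sum_bij' (fun m _ => Mat.conj g m) (fun m _ => Mat.conj g⁻¹ m) ?_ ?_ ?_ ?_ ?_
  · intros; exact Finset.mem_univ _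
  · intros; exact Finset.mem_univ _
  · intro m _; simp only [conj_conj, inv_mul_cancel, conj_one]
  · intro m _; simp only [conj_conj, mul_inv_cancel, conj_one]
  · intro m _
    rw [rho_apply, conj_conj, inv_mul_cancel, conj_one, kcl, kcl, gcl_conj]
    congr 2
    funext i j
    rw [pc, pc, hχ, hχ]

lemma kcl_zero (h : IsPair C e f) {χ : α → Option Bool} (z : α → (Y ⟶ X)) {m : Matching α}
    {q : α} {b b' : Bool} (hq : χ q = some b) (hq' : χ (m.1 q) = some b') (hb : b ≠ b') :
    kcl h χ z m = 0 := by
  rw [kcl, gcl_eq_rest _ _ m q, pc, hq, hq']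
  simp only [cm]
  rw [if_neg hb, map_zero, zero_mul]

lemma tinv_fml (h : IsPair C e f) {χ : α → Option Bool} {j : α} {b : Bool} (hj : χ j = some b)
    (v : Matching α → ℚ) : Tinv (col e f b) (fml h χ v) j := by
  intro Y z x
  simp only [fml, Finset.mul_sum, map_sum, mul_smul_comm, map_smul]
  refine Finset.sum_congr rfl fun m _ => ?_
  congr 1
  have hmj : m.1 j ≠ j := m.2.2 j
  rw [kcl, kcl, gcl_eq_rest _ _ m j, gcl_eq_rest (pc e f χ (Function.update z j x)) _ m j,
    ← grest_congr (c := pc e f χ (Function.update z j x))
      (hc := pc_comm h χ (Function.update z j x)) (m := m) (r := j)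
      ((C.pull (fst Y X) : C.CH Y →+* C.CH (Y.prod X)) : C.CH Y →* C.CH (Y.prod X))
      (fun a a' ha _ ha' _ => ?_)]
  · rw [pc, pc, Function.update_self, Function.update_self, Function.update_of_ne hmj,
      Function.update_of_ne hmj, hj, ← mul_assoc]
    erw [C.push_mul]
    rw [ChowTheory.pull_comp_corr, comp_cm h]
  · rw [pc, pc, Function.update_of_ne ha, Function.update_of_ne ha', Function.update_of_ne ha,
      Function.update_of_ne ha', ← comp_lift, C.pull_comp]
    rfl

end Mat

end Pool.Agent.R903
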