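import Pool.Agent.R903.MatCyc

/-!
# Contractions of relations between matchings
-/

open CategoryTheory CategoryTheory.Limits AlgebraicGeometry
open Pool.Agent.H914 Pool.Agent.H914.VarClass Pool.Agent.H914.VarClass.Obj

universe u v w

namespace Pool.Agent.R903

variable {k : Type u} [Field k] {𝒱 : VarClass k} {C : ChowTheory.{u, v} 𝒱}

namespace Mat

variable {X Y : 𝒱.Obj} {ω : C.CH (X.prod X)} {α : Type} [Fintype α] [DecidableEq α]

lemma edges_ext {p q : α} (hpq : p ≠ q) (τ : Matching {x // x ≠ p ∧ x ≠ q}) :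
    edges (ext hpq τ) = insert s(p, q) ((edges τ).image (Sym2.map Subtype.val)) := by
  ext e
  simp only [edges, Finset.mem_image, Finset.mem_univ, true_and, Finset.mem_insert,
    exists_exists_eq_and]
  constructor
  · rintro ⟨i, rfl⟩
    by_cases h1 : i = p
    · left; rw [h1, ext_left]
    by_cases h2 : i = q
    · left; rw [h2, ext_right, Sym2.eq_swap]
    · right
      refine ⟨⟨i, h1, h2⟩, ?_⟩
      rw [Sym2.map_mk, ← ext_coe hpq τ]
  · rintro (rfl | ⟨i, rfl⟩)
    · exact ⟨p, by rw [ext_left]⟩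
    · exact ⟨i, by rw [ext_coe]; rfl⟩

lemma mcl_ext (hs : C.IsSymmetric ω) (z : α → (Y ⟶ X)) {p q : α} (hpq : p ≠ q)
    (τ : Matching {x // x ≠ p ∧ x ≠ q}) :
    mcl hs z (ext hpq τ) = C.pull (lift (z p) (z q)) ω * mcl hs (fun x => z x.1) τ := by
  rw [mcl, edges_ext, Finset.prod_insert, Finset.prod_image, fam_mk, mcl]
  · congr 1
    refine Finset.prod_congr rfl fun e _ => ?_
    induction e using Sym2.ind
    rfl
  · intro a _ b _ h; exact Sym2.map.injective Subtype.val_injective h
  · intro h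
    obtain ⟨e, _, he⟩ := Finset.mem_image.1 h
    have h1 : p ∈ Sym2.map Subtype.val e := by rw [he]; exact Sym2.mem_mk_left _ _
    obtain ⟨x, _, hx⟩ := Sym2.mem_map.1 h1
    exact x.2.1 hx

lemma pull_rest {Y' : 𝒱.Obj} (f : Y' ⟶ Y) (hs : C.IsSymmetric ω) (z : α → (Y ⟶ X))
    (m : Matching α) (r : α) : C.pull f (rest hs z m r) = rest hs (fun i => f ≫ z i) m r := by
  rw [rest, map_prod, rest]
  refine Finset.prod_congr rfl fun e _ => ?_
  induction e using Sym2.ind with
  | _ i j => rw [fam_mk, fam_mk, ← C.pull_comp, comp_lift]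

/-- the contraction of the pair `{p, q}` -/
def contr (t : ℚ) {p q : α} (hpq : p ≠ q) (v : Matching α → ℚ)
    (τ : Matching {x // x ≠ p ∧ x ≠ q}) : ℚ :=
  t * v (ext hpq τ) + ∑ r : {x // x ≠ p ∧ x ≠ q}, v (conj (Equiv.swap q r) (ext hpq τ))

lemma Rel.contr (hω : C.comp ω ω = ω) {hs : C.IsSymmetric ω} {p q : α} (hpq : p ≠ q)
    {v : Matching α → ℚ} (h : Rel C hs v) : Rel C hs (contr (C.motDim ω) hpq v) := by
  intro Y z
  set z' : α → (Y.prod X ⟶ X) :=
    fun i => if h : i ≠ p ∧ i ≠ q then fst Y X ≫ z ⟨i, h⟩ else snd Y X with hz'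
  have hzp : z' p = snd Y X := dif_neg (by simp)
  have hzq : z' q = snd Y X := dif_neg (by simp)
  have hzr : ∀ r : {x // x ≠ p ∧ x ≠ q}, z' r = fst Y X ≫ z r := fun r => dif_pos r.2
  have h1 := congrArg (C.push (fst Y X)) (h (Y.prod X) z')
  rw [map_zero, sum_build hpq, map_sum] at h1
  rw [← h1]
  refine Finset.sum_congr rfl fun τ _ => ?_
  rw [Mat.contr, add_smul, map_add, mul_smul, Finset.sum_smul, map_sum]
  congr 1
  · rw [map_smul, smul_comm, mcl_ext, hzp, hzq]
    simp only [hzr]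
    rw [← pull_mcl, C.push_mul]
    have h3 : (lift (snd Y X) (snd Y X) : Y.prod X ⟶ X.prod X) = snd Y X ≫ diag X := by
      apply hom_ext_prod <;> simp
    rw [h3, C.pull_comp, ChowTheory.push_fst_pull_snd, Algebra.smul_def (C.motDim ω)]
    rfl
  · refine Finset.sum_congr rfl fun r _ => ?_
    rw [map_smul, mcl_conj, mcl_ext,
      mcl_eq_rest hs (fun x : {x // x ≠ p ∧ x ≠ q} => z' (Equiv.swap q r x.1)) τ r,
      mcl_eq_rest hs z τ r]
    have hpr : p ≠ r := r.2.1.symm
    have hqr : q ≠ r := r.2.2.symm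
    have e1 : (Equiv.swap q (r : α)) p = p := Equiv.swap_apply_of_ne_of_ne hpq hpr
    have e2 : ((τ.1 r : {x // x ≠ p ∧ x ≠ q}) : α) ≠ r := fun h => τ.2.2 r (Subtype.ext h)
    have e3 : rest hs (fun x : {x // x ≠ p ∧ x ≠ q} => z' (Equiv.swap q r x.1)) τ r =
        C.pull (fst Y X) (rest hs z τ r) := by
      rw [pull_rest]
      apply rest_congr
      intro i hi _
      rw [Equiv.swap_apply_of_ne_of_ne i.2.2 (fun h => hi (Subtype.ext h)), hzr]
    rw [e3, e1, Equiv.swap_apply_left, Equiv.swap_apply_right,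
      Equiv.swap_apply_of_ne_of_ne (τ.1 r).2.2 e2, hzp, hzq, hzr, hzr, ← mul_assoc, C.push_mul,
      symm_pull hs (snd Y X) (fst Y X ≫ z r), ChowTheory.pull_comp_corr, hω]

omit [Fintype α] [DecidableEq α] in
lemma instSubsingleton_of_isEmpty [IsEmpty α] (m m' : Matching α) : m = m' :=
  Subtype.ext (Equiv.ext fun a => isEmptyElim a)

/-- A nonzero relation implies a nonzero relation on which the Jucys-Murphy elements are scalars. -/
theorem exists_harmonic (h1 : (1 : C.CH X) ≠ 0) (hω : C.comp ω ω = ω) (hs : C.IsSymmetric ω)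
    (n : ℕ) : ∀ (α : Type) [Fintype α] [DecidableEq α], Fintype.card α = n →
      ∀ v : Matching α → ℚ, v ≠ 0 → Rel C hs v →
      ∃ (β : Type) (_ : Fintype β) (_ : DecidableEq β) (_ : Nonempty β),
        Fintype.card β ≤ n ∧ ∃ v : Matching β → ℚ, v ∈ relS C hs (C.motDim ω) ∧ v ≠ 0 := by
  induction n using Nat.strong_induction_on with
  | _ n ih =>
    intro α _ _ hα v hv hrel
    by_cases hJ : IsJM (C.motDim ω) v
    · have hne : Nonempty α := by
        by_contra hne
        rw [not_nonempty_iff] at hne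
        apply hv
        funext m
        have h2 := hrel X (fun a => isEmptyElim a)
        rw [Finset.sum_eq_single m (fun m' _ h => absurd (instSubsingleton_of_isEmpty m' m) h)
          (fun h => absurd (Finset.mem_univ m) h)] at h2
        have h3 : mcl hs (fun a => isEmptyElim a : α → (X ⟶ X)) m = 1 := by
          rw [mcl, edges, Finset.univ_eq_empty, Finset.image_empty, Finset.prod_empty]
        rw [h3] at h2
        exact (smul_eq_zero.1 h2).resolve_right h1
      exact ⟨α, _, _, hne, hα.le, v, ⟨hrel, hJ⟩, hv⟩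
    · simp only [IsJM, not_forall] at hJ
      obtain ⟨q, m, hqm⟩ := hJ
      have hpq : m.1 q ≠ q := m.2.2 q
      obtain ⟨τ, hτ⟩ := ext_surj hpq (m := m) (m.2.1 q)
      have hc : contr (C.motDim ω) hpq v ≠ 0 := by
        intro h0
        apply hqm
        have h3 := congrFun h0 τ
        rw [contr, hτ, Pi.zero_apply] at h3
        have hp : m.1 q ∈ Finset.univ.erase q := Finset.mem_erase.2 ⟨hpq, Finset.mem_univ _⟩
        have h4 : ∑ r ∈ (Finset.univ.erase q).erase (m.1 q), v (Mat.conj (Equiv.swap q r) m) =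
            ∑ r : {x // x ≠ m.1 q ∧ x ≠ q}, v (Mat.conj (Equiv.swap q r) m) :=
          Finset.sum_subtype _ (fun x => by simp) _
        rw [← Finset.add_sum_erase _ _ hp, conj_pair, h4]
        linarith
      have hcard : Fintype.card {x // x ≠ m.1 q ∧ x ≠ q} < n := by
        rw [← hα]
        exact Fintype.card_subtype_lt (x := q) (by simp)
      obtain ⟨β, i1, i2, i3, h4, h5⟩ := ih _ hcard _ rfl _ hc (Rel.contr hω hpq hrel)
      exact ⟨β, i1, i2, i3, h4.trans hcard.le, h5⟩

end Mat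

end Pool.Agent.R903
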