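import Pool.Agent.R903.PermDefs

/-!
# Perfect matchings of the factors of a power of a variety: definitions
-/

open CategoryTheory CategoryTheory.Limits AlgebraicGeometry
open Pool.Agent.H914 Pool.Agent.H914.VarClass Pool.Agent.H914.VarClass.Obj

universe u v w

namespace Pool.Agent.R903

/-- A perfect matching of the set `α`: an involution without fixed points. -/
abbrev Matching (α : Type) : Type :=
  {σ : Equiv.Perm α // (∀ i, σ (σ i) = i) ∧ ∀ i, σ i ≠ i}

variable {k : Type u} [Field k] {𝒱 : VarClass k}

/-- For a correspondence `ω` on `X` and a perfect matching `m` of the `n + 1` factors of `X^(n + 1)`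
the product of the classes `(p_i, p_j)^* ω` over the pairs `{i, j}`, `i < j`, of the matching. -/
noncomputable def ChowTheory.matchingClass (C : ChowTheory.{u, v} 𝒱) {X : 𝒱.Obj}
    (ω : C.CH (X.prod X)) (n : ℕ) (m : Matching (Fin (n + 1))) : C.CH (pw X n) :=
  ∏ i with i < m.1 i, C.pull (lift (pr X n i) (pr X n (m.1 i))) ω

/-- The classes of the perfect matchings of the factors of `X^(2n)` are linearly dependent. -/
def ChowTheory.MatchingDependent (C : ChowTheory.{u, v} 𝒱) {X : 𝒱.Obj} (ω : C.CH (X.prod X))
    (n : ℕ) : Prop :=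
  ∃ l, l + 1 = 2 * n ∧ ¬ LinearIndependent ℚ (C.matchingClass ω l)

/-- The correspondence `ω` is equal to its transpose. -/
def ChowTheory.IsSymmetric (C : ChowTheory.{u, v} 𝒱) {X : 𝒱.Obj} (ω : C.CH (X.prod X)) : Prop :=
  C.pull (lift (snd X X) (fst X X)) ω = ω

end Pool.Agent.R903
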