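import Pool.Agent.R903.MatRep
import Pool.Agent.R903.MatDefs

/-!
# Functions on perfect matchings
-/

open Equiv Equiv.Perm

namespace Pool.Agent.R903.Mat

variable {α : Type}

lemma inv_eq (m : Matching α) : m.1⁻¹ = m.1 := by
  ext i
  rw [Perm.inv_eq_iff_eq]
  exact (m.2.1 i).symm

/-- relabelling -/
def conj (g : Perm α) (m : Matching α) : Matching α :=
  ⟨g * m.1 * g⁻¹, fun i => by simp [m.2.1], fun i h => by
    apply m.2.2 (g⁻¹ i)
    have h1 : g (m.1 (g⁻¹ i)) = i := h
    rw [Perm.eq_inv_iff_eq]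
    exact h1⟩

lemma conj_one (m : Matching α) : conj 1 m = m := Subtype.ext (by simp [conj])

lemma conj_conj (g h : Perm α) (m : Matching α) : conj g (conj h m) = conj (g * h) m :=
  Subtype.ext (by simp [conj, mul_assoc])

lemma conj_apply (g : Perm α) (m : Matching α) (i : α) : (conj g m).1 i = g (m.1 (g⁻¹ i)) := rfl

variable [DecidableEq α]

omit [DecidableEq α] in
/-- two relabellings agree if they differ by an automorphism of the matching -/
lemma conj_eq {g h : Perm α} {m : Matching α} (hc : m.1 * (h⁻¹ * g) = h⁻¹ * g * m.1) :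
    conj g m = conj h m := by
  apply Subtype.ext
  change g * m.1 * g⁻¹ = h * m.1 * h⁻¹
  have h1 : g * m.1 = h * m.1 * (h⁻¹ * g) := by
    rw [mul_assoc h, hc]; group
  rw [h1]; group

lemma mul_swap (m : Matching α) (p q : α) : m.1 * swap p q = swap (m.1 p) (m.1 q) * m.1 :=
  mul_swap_eq_swap_mul _ _ _

/-- swapping the two elements of a pair does not change the matching -/
lemma conj_pair (m : Matching α) (p : α) : conj (swap p (m.1 p)) m = m := by
  conv_rhs => rw [← conj_one m]
  apply conj_eq
  rw [inv_one, one_mul, mul_swap, m.2.1, swap_comm]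

lemma commute_swap {p q r s : α} (h1 : p ≠ r) (h2 : p ≠ s) (h3 : q ≠ r) (h4 : q ≠ s) :
    swap p q * swap r s = swap r s * swap p q := by
  rw [mul_swap_eq_swap_mul, swap_apply_of_ne_of_ne h1.symm h3.symm,
    swap_apply_of_ne_of_ne h2.symm h4.symm]

/-- the two ways to re-pair two pairs -/
lemma conj_repair (m : Matching α) {p q r z : α} (hpq : m.1 p = q) (hrz : m.1 r = z)
    (hpr : p ≠ r) (hpz : p ≠ z) : conj (swap p z) m = conj (swap q r) m := by
  have hqp : m.1 q = p := by rw [← hpq, m.2.1]
  have hzr : m.1 z = r := by rw [← hrz, m.2.1]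
  have hqz : q ≠ z := fun h => hpr (by rw [← hqp, ← hzr, h])
  have hqr : q ≠ r := fun h => hpz (by rw [← hqp, ← hrz, h])
  apply conj_eq
  have hpq' : p ≠ q := fun h => m.2.2 p (hpq.trans h.symm)
  have hrz' : z ≠ r := fun h => m.2.2 r (hrz.trans h)
  rw [swap_inv, ← mul_assoc, mul_swap, mul_assoc, mul_swap, hqp, hrz, hpq, hzr, ← mul_assoc,
    commute_swap hpq' hpr hqz.symm hrz']

/-- the representation on functions -/
def rho : Perm α →* Module.End ℚ (Matching α → ℚ) where
  toFun g :=
    { toFun := fun v m => v (conj g⁻¹ m)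
      map_add' := fun _ _ => rfl
      map_smul' := fun _ _ => rfl }
  map_one' := by
    ext v m
    change v (conj 1⁻¹ m) = v m
    rw [inv_one, conj_one]
  map_mul' g h := by
    ext v m
    change v (conj (g * h)⁻¹ m) = v (conj h⁻¹ (conj g⁻¹ m))
    rw [conj_conj, mul_inv_rev]

omit [DecidableEq α] in
lemma rho_apply (g : Perm α) (v : Matching α → ℚ) (m : Matching α) :
    rho g v m = v (conj g⁻¹ m) := rfl

lemma rho_swap (p q : α) (v : Matching α → ℚ) (m : Matching α) :
    rho (swap p q) v m = v (conj (swap p q) m) := by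
  rw [rho_apply, swap_inv]

/-- A function which is invariant under the permutations of three points, and such that no
symmetrization over four points is nonzero, vanishes. -/
lemma eq_zero_of_three {F : Finset α} (hF : F.card = 3) {v : Matching α → ℚ}
    (hinv : ∀ p ∈ F, ∀ p' ∈ F, p ≠ p' → ∀ m, v (conj (swap p p') m) = v m)
    (hx : ∀ x ∉ F, ∀ m, ∑ p ∈ F, v (conj (swap p x) m) = -v m) (m : Matching α) : v m = 0 := by
  have caseA : ∀ m : Matching α, (∃ p ∈ F, m.1 p ∈ F) → v m = 0 := by
    rintro m ⟨p, hp, hq⟩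
    set q := m.1 p with hqd
    have hpq : q ≠ p := m.2.2 p
    obtain ⟨r, hr⟩ : ∃ r, (F.erase p).erase q = {r} := by
      rw [← Finset.card_eq_one, Finset.card_erase_of_mem (Finset.mem_erase.2 ⟨hpq, hq⟩),
        Finset.card_erase_of_mem hp, hF]
    have hrm : r ∈ (F.erase p).erase q := by rw [hr]; exact Finset.mem_singleton_self r
    have hrq : r ≠ q := (Finset.mem_erase.1 hrm).1
    have hrp : r ≠ p := (Finset.mem_erase.1 (Finset.mem_erase.1 hrm).2).1
    have hrF : r ∈ F := (Finset.mem_erase.1 (Finset.mem_erase.1 hrm).2).2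
    have hqp' : m.1 q = p := by rw [hqd, m.2.1]
    set z := m.1 r with hz
    have hzr : z ≠ r := m.2.2 r
    have hzp : z ≠ p := fun h => hrq (by rw [← m.2.1 r, ← hz, h])
    have hzq : z ≠ q := fun h => hrp (by rw [← m.2.1 r, ← hz, h, hqp'])
    have hzF : z ∉ F := by
      intro h
      have : z ∈ (F.erase p).erase q :=
        Finset.mem_erase.2 ⟨hzq, Finset.mem_erase.2 ⟨hzp, h⟩⟩
      rw [hr, Finset.mem_singleton] at this
      exact hzr this
    have h1 := hx z hzF m
    rw [← Finset.add_sum_erase F _ hp, ← Finset.add_sum_erase (F.erase p) _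
      (Finset.mem_erase.2 ⟨hpq, hq⟩), hr, Finset.sum_singleton,
      conj_repair m rfl hz.symm hrp.symm hzp.symm, hinv q hq r hrF hrq.symm,
      conj_repair m hqp' hz.symm hrq.symm hzq.symm, hinv p hp r hrF hrp.symm,
      conj_pair m r] at h1
    linarith
  by_cases hA : ∃ p ∈ F, m.1 p ∈ F
  · exact caseA m hA
  · push Not at hA
    obtain ⟨p, hp⟩ : F.Nonempty := Finset.card_pos.1 (by omega)
    have h1 := hx (m.1 p) (hA p hp) m
    rw [← Finset.add_sum_erase F _ hp, conj_pair m p, Finset.sum_eq_zero] at h1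
    · linarith
    · intro q hq
      have hqp : q ≠ p := (Finset.mem_erase.1 hq).1
      have hqF : q ∈ F := (Finset.mem_erase.1 hq).2
      apply caseA
      refine ⟨p, hp, ?_⟩
      rw [conj_apply, swap_inv, swap_apply_of_ne_of_ne hqp.symm (m.2.2 p).symm, swap_apply_right]
      exact hqF

end Pool.Agent.R903.Mat
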