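import Pool.Agent.R903.MatExt
import Pool.Agent.R903.PermKim

/-!
# Relations between the classes of perfect matchings
-/

open CategoryTheory CategoryTheory.Limits AlgebraicGeometry
open Pool.Agent.H914 Pool.Agent.H914.VarClass Pool.Agent.H914.VarClass.Obj

universe u v w

namespace Pool.Agent.R903

variable {k : Type u} [Field k] {𝒱 : VarClass k} {C : ChowTheory.{u, v} 𝒱}

namespace Mat

variable {X Y : 𝒱.Obj} {ω : C.CH (X.prod X)}

lemma symm_pull (hs : C.IsSymmetric ω) (a b : Y ⟶ X) :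
    C.pull (lift a b) ω = C.pull (lift b a) ω := by
  conv_rhs => rw [← show C.pull (lift (snd X X) (fst X X)) ω = ω from hs]
  rw [← C.pull_comp, comp_lift, Obj.lift_fst, Obj.lift_snd]

variable {α : Type}

/-- the class of a pair -/
noncomputable def fam (hs : C.IsSymmetric ω) (z : α → (Y ⟶ X)) : Sym2 α → C.CH Y :=
  Sym2.lift ⟨fun i j => C.pull (lift (z i) (z j)) ω, fun i j => symm_pull hs (z i) (z j)⟩

lemma fam_mk (hs : C.IsSymmetric ω) (z : α → (Y ⟶ X)) (i j : α) :
    fam hs z s(i, j) = C.pull (lift (z i) (z j)) ω := rfl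

variable [Fintype α] [DecidableEq α]

/-- the pairs of a matching -/
def edges (m : Matching α) : Finset (Sym2 α) := Finset.univ.image fun i => s(i, m.1 i)

/-- the class of a matching -/
noncomputable def mcl (hs : C.IsSymmetric ω) (z : α → (Y ⟶ X)) (m : Matching α) : C.CH Y :=
  ∏ e ∈ edges m, fam hs z e

lemma mcl_conj (hs : C.IsSymmetric ω) (z : α → (Y ⟶ X)) (g : Equiv.Perm α) (m : Matching α) :
    mcl hs z (conj g m) = mcl hs (fun i => z (g i)) m := by
  have h1 : edges (conj g m) = (edges m).image (Sym2.map g) := by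
    ext e
    simp only [edges, Finset.mem_image, Finset.mem_univ, true_and, exists_exists_eq_and]
    constructor
    · rintro ⟨i, rfl⟩
      refine ⟨g⁻¹ i, ?_⟩
      rw [Sym2.map_mk, conj_apply]
      simp
    · rintro ⟨i, rfl⟩
      refine ⟨g i, ?_⟩
      rw [Sym2.map_mk, conj_apply]
      simp
  rw [mcl, h1, Finset.prod_image fun a _ b _ h => Sym2.map.injective g.injective h, mcl]
  refine Finset.prod_congr rfl fun e _ => ?_
  induction e using Sym2.ind
  rfl

lemma pull_mcl {Y' : 𝒱.Obj} (f : Y' ⟶ Y) (hs : C.IsSymmetric ω) (z : α → (Y ⟶ X))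
    (m : Matching α) : C.pull f (mcl hs z m) = mcl hs (fun i => f ≫ z i) m := by
  rw [mcl, map_prod, mcl]
  refine Finset.prod_congr rfl fun e _ => ?_
  induction e using Sym2.ind with
  | _ i j => rw [fam_mk, fam_mk, ← C.pull_comp, comp_lift]

/-- the product over the other pairs -/
noncomputable def rest (hs : C.IsSymmetric ω) (z : α → (Y ⟶ X)) (m : Matching α) (r : α) :
    C.CH Y :=
  ∏ e ∈ (edges m).erase s(r, m.1 r), fam hs z e

lemma mcl_eq_rest (hs : C.IsSymmetric ω) (z : α → (Y ⟶ X)) (m : Matching α) (r : α) :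
    mcl hs z m = C.pull (lift (z r) (z (m.1 r))) ω * rest hs z m r := by
  rw [mcl, rest, ← Finset.mul_prod_erase (edges m) _
    (Finset.mem_image.2 ⟨r, Finset.mem_univ r, rfl⟩), fam_mk]

lemma rest_congr (hs : C.IsSymmetric ω) {z z' : α → (Y ⟶ X)} {m : Matching α} {r : α}
    (h : ∀ i, i ≠ r → i ≠ m.1 r → z i = z' i) : rest hs z m r = rest hs z' m r := by
  rw [rest, rest]
  refine Finset.prod_congr rfl fun e he => ?_
  obtain ⟨h1, h2⟩ := Finset.mem_erase.1 he
  obtain ⟨i, -, rfl⟩ := Finset.mem_image.1 h2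
  have hi : i ≠ r := by rintro rfl; exact h1 rfl
  have hi' : i ≠ m.1 r := by
    rintro rfl
    apply h1
    rw [m.2.1, Sym2.eq_swap]
  have hm : m.1 i ≠ r := by
    rintro h3
    exact hi' (by rw [← h3, m.2.1])
  have hm' : m.1 i ≠ m.1 r := fun h3 => hi (m.1.injective h3)
  rw [fam_mk, fam_mk, h i hi hi', h _ hm hm']

/-- the product over half of the elements -/
lemma mcl_half (hs : C.IsSymmetric ω) (z : α → (Y ⟶ X)) (m : Matching α) {F : Finset α}
    (hF : ∀ a, a ∈ F ↔ m.1 a ∉ F) :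
    mcl hs z m = ∏ a ∈ F, C.pull (lift (z a) (z (m.1 a))) ω := by
  have h1 : edges m = F.image fun a => s(a, m.1 a) := by
    ext e
    rw [edges, Finset.mem_image, Finset.mem_image]
    constructor
    · rintro ⟨i, -, rfl⟩
      by_cases hi : i ∈ F
      · exact ⟨i, hi, rfl⟩
      · refine ⟨m.1 i, ?_, ?_⟩
        · by_contra h; exact hi ((hF i).2 h)
        · rw [m.2.1, Sym2.eq_swap]
    · rintro ⟨i, -, rfl⟩
      exact ⟨i, Finset.mem_univ i, rfl⟩
  rw [mcl, h1, Finset.prod_image]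
  · rfl
  · intro a ha b hb hab
    rcases Sym2.eq_iff.1 hab with ⟨h, -⟩ | ⟨h, -⟩
    · exact h
    · exfalso
      rw [h] at ha
      exact (hF b).1 hb ha

variable (C) in
/-- a linear relation between the classes of the matchings of `α` -/
def Rel (hs : C.IsSymmetric ω) (v : Matching α → ℚ) : Prop :=
  ∀ (Y : 𝒱.Obj) (z : α → (Y ⟶ X)), ∑ m, v m • mcl hs z m = 0

lemma Rel.conj {hs : C.IsSymmetric ω} {v : Matching α → ℚ} (h : Rel C hs v) (g : Equiv.Perm α) :
    Rel C hs (rho g v) := by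
  intro Y z
  rw [← h Y (fun i => z (g i))]
  refine Finset.sum_bij' (fun m _ => Mat.conj g⁻¹ m) (fun m _ => Mat.conj g m) ?_ ?_ ?_ ?_ ?_
  · intros; exact Finset.mem_univ _
  · intros; exact Finset.mem_univ _
  · intro m _; simp only [conj_conj, mul_inv_cancel, conj_one]
  · intro m _; simp only [conj_conj, inv_mul_cancel, conj_one]
  · intro m _
    rw [rho_apply, ← mcl_conj, conj_conj, mul_inv_cancel, conj_one]

/-- the Jucys-Murphy elements act as `1 - t` -/
def IsJM (t : ℚ) (v : Matching α → ℚ) : Prop :=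
  ∀ q m, ∑ r ∈ Finset.univ.erase q, v (conj (Equiv.swap q r) m) = (1 - t) * v m

lemma IsJM.conj {t : ℚ} {v : Matching α → ℚ} (h : IsJM t v) (g : Equiv.Perm α) :
    IsJM t (rho g v) := by
  intro q m
  rw [rho_apply, ← h (g⁻¹ q) (Mat.conj g⁻¹ m)]
  refine Finset.sum_bij' (fun r _ => g⁻¹ r) (fun r _ => g r) ?_ ?_ ?_ ?_ ?_
  · intro r hr
    exact Finset.mem_erase.2 ⟨fun h1 => (Finset.mem_erase.1 hr).1 (g⁻¹.injective h1),
      Finset.mem_univ _⟩
  · intro r hr
    refine Finset.mem_erase.2 ⟨fun h1 => (Finset.mem_erase.1 hr).1 ?_, Finset.mem_univ _⟩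
    rw [Equiv.Perm.eq_inv_iff_eq]; exact h1
  · intro r _; simp
  · intro r _; simp
  · intro r _
    rw [rho_apply, conj_conj, conj_conj, Equiv.mul_swap_eq_swap_mul]

variable (C) in
/-- the space of the relations on which the Jucys-Murphy elements act as `1 - t` -/
def relS (hs : C.IsSymmetric ω) (t : ℚ) : Submodule ℚ (Matching α → ℚ) where
  carrier := {v | Rel C hs v ∧ IsJM t v}
  add_mem' := by
    rintro v v' ⟨h1, h2⟩ ⟨h1', h2'⟩
    refine ⟨fun Y z => ?_, fun q m => ?_⟩
    · simp only [Pi.add_apply, add_smul, Finset.sum_add_distrib, h1 Y z, h1' Y z, add_zero]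
    · simp only [Pi.add_apply, Finset.sum_add_distrib, h2 q m, h2' q m]; ring
  zero_mem' := ⟨fun Y z => by simp, fun q m => by simp⟩
  smul_mem' := by
    rintro c v ⟨h1, h2⟩
    refine ⟨fun Y z => ?_, fun q m => ?_⟩
    · simp only [Pi.smul_apply, smul_eq_mul, mul_smul, ← Finset.smul_sum, h1 Y z, smul_zero]
    · simp only [Pi.smul_apply, smul_eq_mul, ← Finset.mul_sum, h2 q m]; ring

end Mat

end Pool.Agent.R903
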