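import Pool.Agent.R903.MatCore

/-!
# Matchings of a set with two more elements
-/

open Equiv Equiv.Perm

namespace Pool.Agent.R903.Mat

/-! ### matchings of a set with two more elements -/

section Ext

variable {α : Type} [DecidableEq α] {p q : α}

/-- the matching of `α` with the additional pair `{p, q}` -/
def ext (hpq : p ≠ q) (τ : Matching {x // x ≠ p ∧ x ≠ q}) : Matching α := by
  refine ⟨Perm.ofSubtype τ.1 * swap p q, ?_⟩
  have hp : (Perm.ofSubtype τ.1 * swap p q) p = q := by
    rw [Perm.mul_apply, swap_apply_left, Perm.ofSubtype_apply_of_not_mem _ (by simp)]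
  have hq : (Perm.ofSubtype τ.1 * swap p q) q = p := by
    rw [Perm.mul_apply, swap_apply_right, Perm.ofSubtype_apply_of_not_mem _ (by simp)]
  have hx : ∀ x (hx : x ≠ p ∧ x ≠ q), (Perm.ofSubtype τ.1 * swap p q) x = τ.1 ⟨x, hx⟩ := by
    intro x hx
    rw [Perm.mul_apply, swap_apply_of_ne_of_ne hx.1 hx.2]
    exact Perm.ofSubtype_apply_coe τ.1 ⟨x, hx⟩
  refine ⟨fun i => ?_, fun i => ?_⟩
  · by_cases h1 : i = p
    · rw [h1, hp, hq]
    by_cases h2 : i = q
    · rw [h2, hq, hp]
    rw [hx i ⟨h1, h2⟩, hx _ (τ.1 ⟨i, ⟨h1, h2⟩⟩).2]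
    simp [τ.2.1]
  · by_cases h1 : i = p
    · rw [h1, hp]; exact hpq.symm
    by_cases h2 : i = q
    · rw [h2, hq]; exact hpq
    rw [hx i ⟨h1, h2⟩]
    intro h
    exact τ.2.2 ⟨i, ⟨h1, h2⟩⟩ (Subtype.ext h)

variable (hpq : p ≠ q) (τ : Matching {x // x ≠ p ∧ x ≠ q})

lemma ext_left : (ext hpq τ).1 p = q := by
  change (Perm.ofSubtype τ.1 * swap p q) p = q
  rw [Perm.mul_apply, swap_apply_left, Perm.ofSubtype_apply_of_not_mem _ (by simp)]

lemma ext_right : (ext hpq τ).1 q = p := by
  change (Perm.ofSubtype τ.1 * swap p q) q = p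
  rw [Perm.mul_apply, swap_apply_right, Perm.ofSubtype_apply_of_not_mem _ (by simp)]

lemma ext_coe (x : {x // x ≠ p ∧ x ≠ q}) : (ext hpq τ).1 x = τ.1 x := by
  change (Perm.ofSubtype τ.1 * swap p q) x = _
  rw [Perm.mul_apply, swap_apply_of_ne_of_ne x.2.1 x.2.2, Perm.ofSubtype_apply_coe]

lemma ext_injective : Function.Injective (ext hpq) := by
  intro τ τ' h
  apply Subtype.ext
  ext x
  rw [← ext_coe hpq τ, ← ext_coe hpq τ', h]

lemma ext_surj {m : Matching α} (hm : m.1 p = q) : ∃ τ, ext hpq τ = m := by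
  have hq : m.1 q = p := by rw [← hm, m.2.1]
  have h : ∀ x, (m.1 x ≠ p ∧ m.1 x ≠ q) ↔ (x ≠ p ∧ x ≠ q) := by
    intro x
    rw [Ne, Ne, Ne, Ne, ← hq, m.1.injective.eq_iff, hq, ← hm, m.1.injective.eq_iff, hm]
    tauto
  refine ⟨⟨m.1.subtypePerm h, fun i => Subtype.ext (m.2.1 i), fun i hi => ?_⟩, ?_⟩
  · exact m.2.2 i (congrArg Subtype.val hi)
  · apply Subtype.ext
    ext x
    by_cases h1 : x = p
    · rw [h1, ext_left, hm]
    by_cases h2 : x = q
    · rw [h2, ext_right, hq]
    exact ext_coe hpq _ ⟨x, h1, h2⟩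

/-- all matchings from the matchings without `p` and `q` -/
def build (x : Matching {x // x ≠ p ∧ x ≠ q} × Option {x // x ≠ p ∧ x ≠ q}) : Matching α :=
  x.2.elim (ext hpq x.1) fun r => conj (swap q r) (ext hpq x.1)

lemma conj_swap_left (r : {x // x ≠ p ∧ x ≠ q}) :
    (conj (swap q r) (ext hpq τ)).1 p = r := by
  rw [conj_apply, swap_inv, swap_apply_of_ne_of_ne hpq r.2.1.symm, ext_left, swap_apply_left]

lemma build_bijective : Function.Bijective (build hpq) := by
  constructor
  · rintro ⟨τ, o⟩ ⟨τ', o'⟩ h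
    cases o with
    | none =>
      cases o' with
      | none =>
        obtain rfl : τ = τ' := ext_injective hpq h
        rfl
      | some r' =>
        exfalso
        have h1 := congrArg (fun m : Matching α => m.1 p) h
        change (ext hpq τ).1 p = (conj (swap q r') (ext hpq τ')).1 p at h1
        rw [ext_left, conj_swap_left] at h1
        exact r'.2.2 h1.symm
    | some r =>
      cases o' with
      | none =>
        exfalso
        have h1 := congrArg (fun m : Matching α => m.1 p) h
        change (conj (swap q r) (ext hpq τ)).1 p = (ext hpq τ').1 p at h1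
        rw [ext_left, conj_swap_left] at h1
        exact r.2.2 h1
      | some r' =>
        have h1 := congrArg (fun m : Matching α => m.1 p) h
        change (conj (swap q r) (ext hpq τ)).1 p = (conj (swap q r') (ext hpq τ')).1 p at h1
        rw [conj_swap_left, conj_swap_left] at h1
        obtain rfl : r = r' := Subtype.ext h1
        have h2 := congrArg (conj (swap q (r : α))) h
        change conj (swap q (r : α)) (conj (swap q r) (ext hpq τ)) =
          conj (swap q (r : α)) (conj (swap q r) (ext hpq τ')) at h2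
        rw [conj_conj, conj_conj, swap_mul_self, conj_one, conj_one] at h2
        obtain rfl : τ = τ' := ext_injective hpq h2
        rfl
  · intro m
    by_cases hm : m.1 p = q
    · obtain ⟨τ, hτ⟩ := ext_surj hpq hm
      exact ⟨(τ, none), hτ⟩
    · set r := m.1 p with hr
      have hrp : r ≠ p := m.2.2 p
      obtain ⟨τ, hτ⟩ := ext_surj hpq (m := conj (swap q r) m) (by
        rw [conj_apply, swap_inv, swap_apply_of_ne_of_ne hpq hrp.symm, ← hr, swap_apply_right])
      refine ⟨(τ, some ⟨r, hrp, hm⟩), ?_⟩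
      change conj (swap q r) (ext hpq τ) = m
      rw [hτ, conj_conj, swap_mul_self, conj_one]

lemma sum_build [Fintype α] {M : Type*} [AddCommMonoid M] (F : Matching α → M) :
    ∑ m, F m = ∑ τ : Matching {x // x ≠ p ∧ x ≠ q},
      (F (ext hpq τ) + ∑ r : {x // x ≠ p ∧ x ≠ q}, F (conj (swap q r) (ext hpq τ))) := by
  rw [← (build_bijective hpq).sum_comp, Fintype.sum_prod_type]
  refine Finset.sum_congr rfl fun τ _ => ?_
  rw [Fintype.sum_option]
  rfl

end Ext

end Pool.Agent.R903.Mat
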