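import Pool.Agent.R903.MatCore

/-!
# Functions on perfect matchings: the shape of a harmonic function
-/

open Equiv Equiv.Perm

namespace Pool.Agent.R903.Mat

variable {α : Type} [DecidableEq α]

omit [DecidableEq α] in
lemma even_card_of_stable {F : Finset α} {m : Matching α} (h : ∀ a ∈ F, m.1 a ∈ F) :
    Even F.card := by
  have h1 : ∑ a ∈ F, (1 : ZMod 2) = 0 := by
    refine Finset.sum_involution (fun a _ => m.1 a) ?_ ?_ ?_ ?_
    · intro a _; decide
    · intro a _ _; exact m.2.2 a
    · intro a ha; exact h a ha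
    · intro a _; exact m.2.1 a
  rw [Finset.sum_const, nsmul_eq_mul, mul_one, ZMod.natCast_eq_zero_iff] at h1
  exact even_iff_two_dvd.2 h1

/-- A function which is invariant under the permutations of `F`, and such that no symmetrization
over one more point is nonzero, vanishes if the cardinality of `F` is odd. -/
lemma eq_zero_of_odd {F : Finset α} (hF : Odd F.card) {v : Matching α → ℚ}
    (hinv : ∀ p ∈ F, ∀ p' ∈ F, p ≠ p' → ∀ m, v (conj (swap p p') m) = v m)
    (hx : ∀ x ∉ F, ∀ m, ∑ p ∈ F, v (conj (swap p x) m) = -v m) (c : ℕ) :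
    ∀ m : Matching α, (F.filter fun p => m.1 p ∉ F).card = c → v m = 0 := by
  induction c using Nat.strong_induction_on with
  | _ c ih =>
    intro m hm
    by_cases hA : ∀ p ∈ F, m.1 p ∈ F
    · exact absurd (even_card_of_stable hA) (Nat.not_even_iff_odd.2 hF)
    · push Not at hA
      obtain ⟨p₀, hp₀, hxF⟩ := hA
      set x := m.1 p₀ with hxd
      have hmx : m.1 x = p₀ := by rw [hxd, m.2.1]
      have hp0x : p₀ ≠ x := (m.2.2 p₀).symm
      have h1 := hx x hxF m
      have h2 : ∀ p ∈ F.erase p₀, v (conj (swap p x) m) = if m.1 p ∈ F then v m else 0 := by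
        intro p hp
        have hpp : p ≠ p₀ := (Finset.mem_erase.1 hp).1
        have hpF : p ∈ F := (Finset.mem_erase.1 hp).2
        have hpx : p ≠ x := fun h => hxF (h ▸ hpF)
        split_ifs with hmp
        · rw [conj_repair m rfl hxd.symm hpp hpx]
          refine hinv _ hmp _ hp₀ (fun h => hxF ?_) m
          rw [hxd, ← h, m.2.1]
          exact hpF
        · refine ih _ ?_ _ rfl
          rw [← hm]
          apply Finset.card_lt_card
          have hval : ∀ r ∈ F, r ≠ p₀ → r ≠ p → (conj (swap p x) m).1 r = m.1 r := by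
            intro r hr h3 h4
            have h5 : r ≠ x := fun h => hxF (h ▸ hr)
            rw [conj_apply, swap_inv, swap_apply_of_ne_of_ne h4 h5]
            refine swap_apply_of_ne_of_ne ?_ ?_
            · rintro h6
              apply hmp
              rw [← h6, m.2.1]
              exact hr
            · intro h6
              exact h3 (m.1.injective h6)
          have hp0 : (conj (swap p x) m).1 p₀ = p := by
            rw [conj_apply, swap_inv, swap_apply_of_ne_of_ne hpp.symm hp0x, ← hxd,
              swap_apply_right]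
          have hpv : (conj (swap p x) m).1 p = p₀ := by
            rw [conj_apply, swap_inv, swap_apply_left, hmx, swap_apply_of_ne_of_ne hpp.symm hp0x]
          rw [Finset.ssubset_iff_of_subset]
          · refine ⟨p₀, Finset.mem_filter.2 ⟨hp₀, hxF⟩, ?_⟩
            intro h
            apply (Finset.mem_filter.1 h).2
            rw [hp0]
            exact hpF
          · intro r hr
            obtain ⟨hr1, hr2⟩ := Finset.mem_filter.1 hr
            have h3 : r ≠ p₀ := by
              rintro rfl
              apply hr2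
              rw [hp0]
              exact hpF
            have h4 : r ≠ p := by
              rintro rfl
              apply hr2
              rw [hpv]
              exact hp₀
            rw [hval r hr1 h3 h4] at hr2
            exact Finset.mem_filter.2 ⟨hr1, hr2⟩
      rw [← Finset.add_sum_erase F _ hp₀, hxd, conj_pair m p₀, ← hxd, Finset.sum_congr rfl h2,
        ← Finset.sum_filter, Finset.sum_const, nsmul_eq_mul] at h1
      have h3 : (0 : ℚ) ≤ ((Finset.filter (fun p => m.1 p ∈ F) (F.erase p₀)).card : ℚ) := by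
        positivity
      have h4 : (2 + ((Finset.filter (fun p => m.1 p ∈ F) (F.erase p₀)).card : ℚ)) * v m = 0 := by
        linarith
      refine (mul_eq_zero.1 h4).resolve_left ?_
      positivity

variable [Fintype α]

/-- The shape of a space of functions on which the Jucys-Murphy elements are scalars. -/
theorem core [Nonempty α] (S : Submodule ℚ (Matching α → ℚ))
    (hS : ∀ g, ∀ v ∈ S, rho g v ∈ S) {t : ℚ}
    (hJ : ∀ v ∈ S, ∀ q m, ∑ r ∈ Finset.univ.erase q, v (conj (swap q r) m) = (1 - t) * v m)
    (hne : ∃ v ∈ S, v ≠ 0) :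
    ∃ a b : ℕ, 1 ≤ a ∧ 1 ≤ b ∧ Even b ∧ Fintype.card α = a * b ∧ t = a - b + 1 ∧
      (∃ F : Finset α, ∃ v ∈ S, v ≠ 0 ∧ F.card = a ∧
        ∀ p ∈ F, ∀ p' ∈ F, p ≠ p' → ∀ m, v (conj (swap p p') m) = -v m) ∧
      (∃ F : Finset α, ∃ v ∈ S, v ≠ 0 ∧ F.card = b ∧
        ∀ p ∈ F, ∀ p' ∈ F, p ≠ p' → ∀ m, v (conj (swap p p') m) = v m) ∧
      (∀ F : Finset α, ∀ v ∈ S, v ≠ 0 →
        (∀ p ∈ F, ∀ p' ∈ F, p ≠ p' → ∀ m, v (conj (swap p p') m) = -v m) → F.card ≤ a) ∧
      ∀ F : Finset α, ∀ v ∈ S, v ≠ 0 →
        (∀ p ∈ F, ∀ p' ∈ F, p ≠ p' → ∀ m, v (conj (swap p p') m) = v m) → F.card ≤ b := by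
  have hJ' : ∀ v ∈ S, ∀ q, ∑ r ∈ Finset.univ.erase q, rho (swap q r) v = (1 - t) • v := by
    intro v hv q
    funext m
    rw [Finset.sum_apply, Pi.smul_apply, smul_eq_mul, ← hJ v hv q m]
    exact Finset.sum_congr rfl fun r _ => rho_swap q r v m
  have hN0 : (0 : ℚ) < Fintype.card α := by exact_mod_cast Fintype.card_pos
  obtain ⟨F, v, hv, hv0, hF1, hF2, hF3, hF4⟩ :=
    MatRep.exists_max rho S hS (1 - t) hJ' 1 (by norm_num) hne
  obtain ⟨F', v', hv', hv0', hF1', hF2', hF3', hF4'⟩ :=
    MatRep.exists_max rho S hS (1 - t) hJ' (-1) (by norm_num) hne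
  have hb : 1 ≤ F.card := by
    by_contra h
    have h0 : F.card = 0 := by omega
    rw [h0] at hF3
    norm_num at hF3
  have ha : 1 ≤ F'.card := by
    by_contra h
    have h0 : F'.card = 0 := by omega
    rw [h0] at hF3'
    norm_num at hF3'
    exact hN0.ne hF3'
  have hbe : Even F.card := by
    by_contra h
    apply hv0
    funext m
    refine eq_zero_of_odd (Nat.not_even_iff_odd.1 h) ?_ ?_ _ m rfl
    · intro p hp p' hp' hpp m
      have := congrFun (hF1 p hp p' hp' hpp) m
      rw [rho_swap, one_smul] at this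
      exact this
    · intro x hx m
      have := congrFun (hF2 x hx) m
      rw [Finset.sum_apply, neg_smul, one_smul, Pi.neg_apply] at this
      rw [← this]
      exact Finset.sum_congr rfl fun r _ => (rho_swap r x v m).symm
  have ha' : (1 : ℚ) ≤ F'.card := by exact_mod_cast ha
  have hb' : (1 : ℚ) ≤ F.card := by exact_mod_cast hb
  have h1 : ((F.card : ℚ) - F'.card - 1 + t) * (F.card + F'.card) = 0 := by linarith
  have h2 : (F.card : ℚ) - F'.card - 1 + t = 0 :=
    (mul_eq_zero.1 h1).resolve_right (by positivity)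
  have ht : t = F'.card - F.card + 1 := by linarith
  have hN : (Fintype.card α : ℚ) = F'.card * F.card := by
    rw [ht] at hF3
    linarith
  refine ⟨F'.card, F.card, ha, hb, hbe, by exact_mod_cast hN, ht, ⟨F', v', hv', hv0', rfl, ?_⟩,
    ⟨F, v, hv, hv0, rfl, ?_⟩, ?_, ?_⟩
  · intro p hp p' hp' hpp m
    have := congrFun (hF1' p hp p' hp' hpp) m
    rw [rho_swap, neg_smul, one_smul, Pi.neg_apply] at this
    exact this
  · intro p hp p' hp' hpp m
    have := congrFun (hF1 p hp p' hp' hpp) m
    rw [rho_swap, one_smul] at this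
    exact this
  · intro G w hw hw0 hG
    refine hF4' G w hw hw0 fun p hp p' hp' hpp => ?_
    funext m
    rw [rho_swap, neg_smul, one_smul, Pi.neg_apply]
    exact hG p hp p' hp' hpp m
  · intro G w hw hw0 hG
    refine hF4 G w hw hw0 fun p hp p' hp' hpp => ?_
    funext m
    rw [rho_swap, one_smul]
    exact hG p hp p' hp' hpp m

/-- invariance under the exchanges implies invariance -/
lemma invariant_of_swap {v : Matching α → ℚ}
    (h : ∀ x y, x ≠ y → ∀ m, v (conj (swap x y) m) = v m) (g : Perm α) (m : Matching α) :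
    v (conj g m) = v m := by
  induction g using swap_induction_on generalizing m with
  | one => rw [conj_one]
  | swap_mul f x y hxy ih => rw [← conj_conj, h x y hxy, ih]

omit [DecidableEq α] in
lemma even_card (m : Matching α) : Even (Fintype.card α) := by
  rw [← Finset.card_univ]
  exact even_card_of_stable (m := m) fun a _ => Finset.mem_univ _

/-- The permutations act transitively on the matchings. -/
lemma exists_conj [Nonempty α] (m m' : Matching α) : ∃ g, conj g m = m' := by
  have key : ∀ m : Matching α, m.1.cycleType = Multiset.replicate (Fintype.card α / 2) 2 := by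
    intro m
    have h1 : m.1 ^ 2 = 1 := by
      ext i
      rw [pow_two, Perm.mul_apply, m.2.1, Perm.one_apply]
    have h2 : m.1 ≠ 1 := by
      intro h
      obtain ⟨i⟩ := ‹Nonempty α›
      exact m.2.2 i (by rw [h, Perm.one_apply])
    have h3 : orderOf m.1 = 2 := orderOf_eq_prime h1 h2
    obtain ⟨n, hn⟩ := cycleType_prime_order (σ := m.1) (by rw [h3]; exact Nat.prime_two)
    have h4 : m.1.support = Finset.univ := by
      ext i
      simp [Perm.mem_support, m.2.2 i]
    have h5 := m.1.sum_cycleType
    rw [hn, h3, Multiset.sum_replicate, h4, Finset.card_univ, smul_eq_mul] at h5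
    rw [hn, h3, ← h5]
    congr 1
    omega
  have h1 : IsConj m.1 m'.1 := isConj_iff_cycleType_eq.2 (by rw [key, key])
  obtain ⟨c, hc⟩ := isConj_iff.1 h1
  exact ⟨c, Subtype.ext hc⟩

end Pool.Agent.R903.Mat
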