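import Pool.Agent.R903.MatContr
import Pool.Agent.R903.MatPar

/-!
# Relations between matchings and relations between permutations
-/

open CategoryTheory CategoryTheory.Limits AlgebraicGeometry
open Pool.Agent.H914 Pool.Agent.H914.VarClass Pool.Agent.H914.VarClass.Obj

universe u v w

namespace Pool.Agent.R903

variable {k : Type u} [Field k] {𝒱 : VarClass k} {C : ChowTheory.{u, v} 𝒱}

namespace Mat

variable {X Y : 𝒱.Obj} {ω : C.CH (X.prod X)} {α γ : Type}

/-! ### transport -/

/-- transport of matchings -/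
def mapEquiv (e : α ≃ γ) (m : Matching α) : Matching γ :=
  ⟨(e.symm.trans m.1).trans e, fun i => by simp [m.2.1], fun i h => by
    apply m.2.2 (e.symm i)
    have h1 : e (m.1 (e.symm i)) = i := h
    rw [Equiv.eq_symm_apply]
    exact h1⟩

lemma mapEquiv_apply (e : α ≃ γ) (m : Matching α) (i : γ) :
    (mapEquiv e m).1 i = e (m.1 (e.symm i)) := rfl

lemma mapEquiv_symm (e : α ≃ γ) (m : Matching α) : mapEquiv e.symm (mapEquiv e m) = m := by
  apply Subtype.ext
  ext i
  simp [mapEquiv_apply]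

lemma mapEquiv_symm' (e : α ≃ γ) (m : Matching γ) : mapEquiv e (mapEquiv e.symm m) = m := by
  apply Subtype.ext
  ext i
  simp [mapEquiv_apply]

variable [Fintype α] [DecidableEq α] [Fintype γ] [DecidableEq γ]

lemma mcl_mapEquiv (hs : C.IsSymmetric ω) (z : γ → (Y ⟶ X)) (e : α ≃ γ) (m : Matching α) :
    mcl hs z (mapEquiv e m) = mcl hs (fun i => z (e i)) m := by
  have h1 : edges (mapEquiv e m) = (edges m).image (Sym2.map e) := by
    ext f
    simp only [edges, Finset.mem_image, Finset.mem_univ, true_and, exists_exists_eq_and]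
    constructor
    · rintro ⟨i, rfl⟩
      refine ⟨e.symm i, ?_⟩
      rw [Sym2.map_mk, mapEquiv_apply, e.apply_symm_apply]
    · rintro ⟨i, rfl⟩
      refine ⟨e i, ?_⟩
      rw [Sym2.map_mk, mapEquiv_apply, e.symm_apply_apply]
  rw [mcl, h1, Finset.prod_image fun a _ b _ h => Sym2.map.injective e.injective h, mcl]
  refine Finset.prod_congr rfl fun e _ => ?_
  induction e using Sym2.ind
  rfl

lemma Rel.map {hs : C.IsSymmetric ω} {v : Matching α → ℚ} (h : Rel C hs v) (e : α ≃ γ) :
    Rel C hs fun m : Matching γ => v (mapEquiv e.symm m) := by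
  intro Y z
  rw [← h Y (fun i => z (e i))]
  refine Finset.sum_bij' (fun m _ => mapEquiv e.symm m) (fun m _ => mapEquiv e m) ?_ ?_ ?_ ?_ ?_
  · intros; exact Finset.mem_univ _
  · intros; exact Finset.mem_univ _
  · intro m _; exact mapEquiv_symm' e m
  · intro m _; exact mapEquiv_symm e m
  · intro m _
    rw [← mcl_mapEquiv, mapEquiv_symm']

/-! ### the classes of matchings -/

lemma matchingClass_eq (hs : C.IsSymmetric ω) {l : ℕ} (m : Matching (Fin (l + 1))) :
    C.matchingClass ω l m = mcl hs (pr X l) m := by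
  rw [mcl_half hs (pr X l) m (F := Finset.univ.filter fun i => i < m.1 i)]
  · rfl
  · intro a
    rw [Finset.mem_filter, Finset.mem_filter, m.2.1]
    have := m.2.2 a
    simp only [Finset.mem_univ, true_and, not_lt]
    exact ⟨fun h => h.le, fun h => lt_of_le_of_ne h this.symm⟩

lemma rel_iff (hs : C.IsSymmetric ω) {l : ℕ} {v : Matching (Fin (l + 1)) → ℚ} :
    Rel C hs v ↔ ∑ m, v m • C.matchingClass ω l m = 0 := by
  simp only [matchingClass_eq hs]
  constructor
  · intro h
    rw [← h _ (pr X l)]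
    exact Finset.sum_congr (by ext; simp) fun m _ => rfl
  · intro h Y z
    obtain ⟨f, hf⟩ := ChowTheory.exists_lift l z
    have h1 := congrArg (C.pull f) h
    rw [map_zero, map_sum] at h1
    rw [← h1]
    refine Finset.sum_congr (by ext; simp) fun m _ => ?_
    rw [map_smul, pull_mcl]
    simp only [hf]

lemma matchingDependent_iff (hs : C.IsSymmetric ω) {n : ℕ} : C.MatchingDependent ω n ↔
    ∃ l, l + 1 = 2 * n ∧ ∃ v : Matching (Fin (l + 1)) → ℚ, v ≠ 0 ∧ Rel C hs v := by
  constructor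
  · rintro ⟨l, hl, h⟩
    rw [Fintype.linearIndependent_iff] at h
    push Not at h
    obtain ⟨a, ha, i, hi⟩ := h
    exact ⟨l, hl, a, fun h => hi (congrFun h i), (rel_iff hs).2 ha⟩
  · rintro ⟨l, hl, a, ha0, ha⟩
    refine ⟨l, hl, ?_⟩
    rw [Fintype.linearIndependent_iff]
    intro h
    exact ha0 (funext (h a ((rel_iff hs).1 ha)))

/-! ### from permutations to matchings -/

section ofPerm

variable {N : ℕ}

/-- the matching given by a permutation -/
def ofPerm (σ : Equiv.Perm (Fin N)) : Matching (Fin N ⊕ Fin N) :=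
  ⟨(Equiv.sumCongr σ σ.symm).trans (Equiv.sumComm _ _), fun i => by
    cases i <;> simp, fun i h => by cases i <;> simp at h⟩

lemma ofPerm_inl (σ : Equiv.Perm (Fin N)) (i : Fin N) :
    (ofPerm σ).1 (Sum.inl i) = Sum.inr (σ i) := rfl

lemma ofPerm_inr (σ : Equiv.Perm (Fin N)) (i : Fin N) :
    (ofPerm σ).1 (Sum.inr i) = Sum.inl (σ.symm i) := rfl

lemma ofPerm_injective : Function.Injective (ofPerm (N := N)) := by
  intro σ σ' h
  ext i
  have h1 : (ofPerm σ).1 (Sum.inl i) = (ofPerm σ').1 (Sum.inl i) := by rw [h]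
  rw [ofPerm_inl, ofPerm_inl] at h1
  rw [Sum.inr.inj h1]

lemma mcl_ofPerm (hs : C.IsSymmetric ω) (z : Fin N ⊕ Fin N → (Y ⟶ X)) (σ : Equiv.Perm (Fin N)) :
    mcl hs z (ofPerm σ) = ∏ i, C.pull (lift (z (Sum.inl i)) (z (Sum.inr (σ i)))) ω := by
  rw [mcl_half hs z (ofPerm σ) (F := Finset.univ.map ⟨Sum.inl, Sum.inl_injective⟩),
    Finset.prod_map]
  · rfl
  · intro a
    cases a <;> simp [ofPerm_inl, ofPerm_inr]

/-- A relation between permutations is a relation between matchings. -/
lemma rel_of_permRel (hs : C.IsSymmetric ω) {a : Equiv.Perm (Fin N) → ℚ} (ha : a ≠ 0)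
    (h : C.PermRel ω N a) : ∃ v : Matching (Fin N ⊕ Fin N) → ℚ, v ≠ 0 ∧ Rel C hs v := by
  classical
  refine ⟨fun m => ∑ σ, if ofPerm σ = m then a σ else 0, ?_, ?_⟩
  · intro h0
    apply ha
    funext σ
    have h1 := congrFun h0 (ofPerm σ)
    simp only [Pi.zero_apply] at h1
    rw [Finset.sum_eq_single σ, if_pos rfl] at h1
    · exact h1
    · intro τ _ hτ
      rw [if_neg fun h => hτ (ofPerm_injective h)]
    · intro h; exact absurd (Finset.mem_univ _) h
  · intro Y z
    rw [← h Y (fun i => z (Sum.inl i)) (fun i => z (Sum.inr i))]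
    simp only [Finset.sum_smul]
    rw [Finset.sum_comm]
    refine Finset.sum_congr rfl fun σ _ => ?_
    rw [Finset.sum_eq_single (ofPerm σ), if_pos rfl, mcl_ofPerm]
    · intro m _ hm
      rw [if_neg (Ne.symm hm), zero_smul]
    · intro h; exact absurd (Finset.mem_univ _) h

lemma matchingDependent_of_perm (hs : C.IsSymmetric ω) (h : C.PermDependent ω N) :
    C.MatchingDependent ω N := by
  obtain ⟨hN, a, ha0, ha⟩ := ChowTheory.permDependent_iff.1 h
  obtain ⟨v, hv, hr⟩ := rel_of_permRel hs ha0 ha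
  have e : Fin N ⊕ Fin N ≃ Fin (2 * N - 1 + 1) :=
    finSumFinEquiv.trans (finCongr (by omega))
  refine (matchingDependent_iff hs).2 ⟨2 * N - 1, by omega, _, ?_, hr.map e⟩
  intro h0
  apply hv
  funext m
  have h1 := congrFun h0 (mapEquiv e m)
  rw [mapEquiv_symm] at h1
  exact h1

end ofPerm

/-! ### from matchings to permutations -/

omit [DecidableEq α] in
lemma mixed_iff {F : Finset α} (hcard : Fintype.card α = 2 * F.card) {m : Matching α}
    (h : ∀ a ∈ F, m.1 a ∉ F) (a : α) : a ∈ F ↔ m.1 a ∉ F := by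
  classical
  refine ⟨h a, fun ha => ?_⟩
  have h1 : F.image m.1 = Fᶜ := by
    apply Finset.eq_of_subset_of_card_le
    · intro b hb
      obtain ⟨c, hc, rfl⟩ := Finset.mem_image.1 hb
      exact Finset.mem_compl.2 (h c hc)
    · rw [Finset.card_image_of_injective _ m.1.injective, Finset.card_compl]
      omega
  by_contra ha'
  have h2 : a ∈ F.image m.1 := by rw [h1]; exact Finset.mem_compl.2 ha'
  obtain ⟨b, hb, rfl⟩ := Finset.mem_image.1 h2
  exact ha (by rw [m.2.1]; exact hb)

omit [Fintype α] [DecidableEq α] in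
lemma eq_of_mixed {F : Finset α} {m m' : Matching α} (h : ∀ b ∈ F, m.1 b = m'.1 b)
    (hm : ∀ a, a ∉ F → m.1 a ∈ F) : m = m' := by
  apply Subtype.ext
  ext a
  by_cases ha : a ∈ F
  · exact h a ha
  · have h1 := h _ (hm a ha)
    rw [m.2.1] at h1
    have h2 := congrArg m'.1 h1
    rw [m'.2.1] at h2
    exact h2.symm

/-- A relation between matchings of `F` with the complement of `F` is a relation between
permutations. -/
theorem permDependent_of_mixed [Nonempty α] {hs : C.IsSymmetric ω} {F : Finset α}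
    (hcard : Fintype.card α = 2 * F.card) {v : Matching α → ℚ} (h : Rel C hs v) (hv : v ≠ 0)
    (hsupp : ∀ m, v m ≠ 0 → ∀ a ∈ F, m.1 a ∉ F) : C.PermDependent ω F.card := by
  obtain ⟨m₀, hm₀⟩ : ∃ m₀, v m₀ ≠ 0 := by
    by_contra hc
    push Not at hc
    exact hv (funext hc)
  have hmix := mixed_iff hcard (hsupp m₀ hm₀)
  have hmix' : ∀ a, a ∉ F → m₀.1 a ∈ F := by
    intro a ha
    by_contra hc
    exact ha ((hmix a).2 hc)
  have hpos : 0 < Fintype.card α := Fintype.card_pos
  set N := F.card with hN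
  let e : Fin N ≃ {a // a ∈ F} := F.equivFin.symm
  let ψ : Equiv.Perm (Fin N) → Matching α :=
    fun σ => conj (Equiv.Perm.ofSubtype (e.permCongr σ))⁻¹ m₀
  have hψ : ∀ (σ : Equiv.Perm (Fin N)) (i : Fin N), (ψ σ).1 (e i) = m₀.1 (e (σ i)) := by
    intro σ i
    change (conj (Equiv.Perm.ofSubtype (e.permCongr σ))⁻¹ m₀).1 (e i) = _
    rw [conj_apply, inv_inv, Equiv.Perm.ofSubtype_apply_coe, Equiv.permCongr_apply,
      Equiv.symm_apply_apply, ← map_inv, Equiv.Perm.ofSubtype_apply_of_not_mem]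
    exact (hmix _).1 (e (σ i)).2
  have hψF : ∀ σ, ∀ a ∈ F, (ψ σ).1 a ∉ F := by
    intro σ a ha
    obtain ⟨i, hi⟩ := e.surjective ⟨a, ha⟩
    have h1 : a = e i := by rw [hi]
    rw [h1, hψ]
    exact (hmix _).1 (e (σ i)).2
  have hinj : Function.Injective ψ := by
    intro σ σ' hσ
    ext i
    have h1 : (ψ σ).1 (e i) = (ψ σ').1 (e i) := by rw [hσ]
    rw [hψ, hψ] at h1
    rw [e.injective (Subtype.ext (m₀.1.injective h1))]
  have hrange : ∀ m, m ∉ Set.range ψ → v m = 0 := by
    intro m hm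
    by_contra hvm
    apply hm
    have hm' := mixed_iff hcard (hsupp m hvm)
    let f : Fin N → Fin N := fun i => e.symm ⟨m₀.1 (m.1 (e i)), hmix' _ ((hm' _).1 (e i).2)⟩
    have hf : Function.Injective f := by
      intro i j hij
      have h1 := congrArg Subtype.val (e.symm.injective hij)
      exact e.injective (Subtype.ext (m.1.injective (m₀.1.injective h1)))
    refine ⟨Equiv.ofBijective f (Finite.injective_iff_bijective.1 hf), ?_⟩
    refine eq_of_mixed (F := F) ?_ ?_
    · intro b hb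
      obtain ⟨i, hi⟩ := e.surjective ⟨b, hb⟩
      have h1 : b = e i := by rw [hi]
      rw [h1, hψ, Equiv.ofBijective_apply]
      change m₀.1 (e (e.symm _)) = _
      rw [e.apply_symm_apply, m₀.2.1]
    · intro a ha
      by_contra hc
      exact ha ((mixed_iff hcard (hψF _) a).2 hc)
  refine ChowTheory.permDependent_iff.2 ⟨by omega, fun σ => v (ψ σ), ?_, ?_⟩
  · intro h0
    apply hm₀
    have h1 := congrFun h0 1
    have h2 : ψ 1 = m₀ := by
      refine (eq_of_mixed (F := F) (fun b hb => ?_) hmix').symm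
      obtain ⟨i, hi⟩ := e.surjective ⟨b, hb⟩
      have h1 : b = e i := by rw [hi]
      rw [h1, hψ, Equiv.Perm.one_apply]
    simpa only [h2, Pi.zero_apply] using h1
  · intro Y x y
    set z : α → (Y ⟶ X) := fun a => if h : a ∈ F then x (e.symm ⟨a, h⟩) else
      y (e.symm ⟨m₀.1 a, hmix' a h⟩) with hz
    have hzx : ∀ i, z (e i) = x i := by
      intro i
      rw [hz]
      simp only [(e i).2, dif_pos, Subtype.coe_eta, Equiv.symm_apply_apply]
    have hzy : ∀ i, z (m₀.1 (e i)) = y i := by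
      intro i
      rw [hz]
      simp only [(hmix _).1 (e i).2, dif_neg, not_false_eq_true, m₀.2.1, Subtype.coe_eta,
        Equiv.symm_apply_apply]
    rw [← h Y z]
    refine Fintype.sum_of_injective ψ hinj _ _ (fun m hm => ?_) (fun σ => ?_)
    · rw [hrange m hm, zero_smul]
    · congr 1
      rw [mcl_half hs z (ψ σ) (mixed_iff hcard (hψF σ)), ← Finset.prod_coe_sort F, ← e.prod_comp]
      refine Finset.prod_congr rfl fun i _ => ?_
      rw [hψ, hzx, hzy]

end Mat

end Pool.Agent.R903
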