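import Pool.Agent.R903.MatVan

/-!
# The relation between matchings for a sum of an even and an odd motive
-/

open CategoryTheory CategoryTheory.Limits AlgebraicGeometry
open Pool.Agent.H914 Pool.Agent.H914.VarClass Pool.Agent.H914.VarClass.Obj
open Pool.Agent.R903.PermCore

universe u v w

namespace Pool.Agent.R903

variable {k : Type u} [Field k] {𝒱 : VarClass k} {C : ChowTheory.{u, v} 𝒱}

namespace Mat

section Expand

variable {X Y : 𝒱.Obj} {e f : C.CH (X.prod X)} {α : Type} [Fintype α] [DecidableEq α]

lemma kcl_add (h : IsPair C e f) {χ : α → Option Bool} {i : α} (hi : χ i = none)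
    (z : α → (Y ⟶ X)) (m : Matching α) :
    kcl h χ z m = kcl h (Function.update χ i (some true)) z m +
      kcl h (Function.update χ i (some false)) z m := by
  have hmi : m.1 i ≠ i := m.2.2 i
  have key : ∀ b : Bool, grest (pc e f (Function.update χ i (some b)) z) (pc_comm h _ z) m i =
      grest (pc e f χ z) (pc_comm h _ z) m i := by
    intro b
    refine (grest_congr (MonoidHom.id _) fun a a' ha _ ha' _ => ?_)
    rw [pc, pc, Function.update_of_ne ha, Function.update_of_ne ha']
    rfl
  rw [kcl, kcl, kcl, gcl_eq_rest _ _ m i,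
    gcl_eq_rest (pc e f (Function.update χ i (some true)) z) _ m i,
    gcl_eq_rest (pc e f (Function.update χ i (some false)) z) _ m i, key, key, ← add_mul]
  congr 1
  rw [pc, pc, pc, Function.update_self, Function.update_self, Function.update_of_ne hmi,
    Function.update_of_ne hmi, ← map_add, ← cm_none, hi]

lemma fml_add_col (h : IsPair C e f) {χ : α → Option Bool} {i : α} (hi : χ i = none)
    (v : Matching α → ℚ) :
    fml h χ v = fml h (Function.update χ i (some true)) v +
      fml h (Function.update χ i (some false)) v := by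
  funext Y z
  change ∑ m, v m • kcl h χ z m = ∑ m, v m • _ + ∑ m, v m • _
  rw [← Finset.sum_add_distrib]
  refine Finset.sum_congr rfl fun m _ => ?_
  rw [kcl_add h hi, smul_add]

lemma fml_zero_of_full (h : IsPair C e f) {v : Matching α → ℚ}
    (hv : ∀ χ : α → Bool, fml h (fun i => some (χ i)) v = 0) (n : ℕ) :
    ∀ χ : α → Option Bool, (Finset.univ.filter (fun i => χ i = none)).card = n →
      fml h χ v = 0 := by
  induction n using Nat.strong_induction_on with
  | _ n ih =>
    intro χ hχ
    by_cases hn : ∃ i, χ i = none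
    · obtain ⟨i, hi⟩ := hn
      have hlt : ∀ b : Bool, (Finset.univ.filter
          (fun j => Function.update χ i (some b) j = none)).card < n := by
        intro b
        rw [← hχ]
        apply Finset.card_lt_card
        rw [Finset.ssubset_iff_of_subset]
        · refine ⟨i, Finset.mem_filter.2 ⟨Finset.mem_univ i, hi⟩, fun h1 => ?_⟩
          have h2 := (Finset.mem_filter.1 h1).2
          rw [Function.update_self] at h2
          exact Option.some_ne_none _ h2
        · intro r hr
          have h1 := (Finset.mem_filter.1 hr).2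
          have hri : r ≠ i := by
            rintro rfl
            rw [Function.update_self] at h1
            exact Option.some_ne_none _ h1
          rw [Function.update_of_ne hri] at h1
          exact Finset.mem_filter.2 ⟨Finset.mem_univ r, h1⟩
      rw [fml_add_col h hi, ih _ (hlt true) _ rfl, ih _ (hlt false) _ rfl, add_zero]
    · push Not at hn
      have h1 : χ = fun i => some ((χ i).get (Option.isSome_iff_ne_none.2 (hn i))) := by
        funext i
        rw [Option.some_get]
      rw [h1]
      exact hv _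

/-- A relation with a new pair. -/
lemma Rel.addPair {ω : C.CH (X.prod X)} {hs : C.IsSymmetric ω} {p q : α} (hpq : p ≠ q)
    {v : Matching {x // x ≠ p ∧ x ≠ q} → ℚ} (hv0 : v ≠ 0) (hv : Rel C hs v) :
    ∃ v' : Matching α → ℚ, v' ≠ 0 ∧ Rel C hs v' := by
  classical
  refine ⟨fun m => ∑ τ, if ext hpq τ = m then v τ else 0, ?_, ?_⟩
  · intro h0
    apply hv0
    funext τ
    have h1 := congrFun h0 (ext hpq τ)
    simp only [Pi.zero_apply] at h1
    rw [Finset.sum_eq_single τ, if_pos rfl] at h1
    · exact h1
    · intro τ' _ hτ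
      rw [if_neg fun h => hτ (ext_injective hpq h)]
    · intro h; exact absurd (Finset.mem_univ _) h
  · intro Y z
    have h1 := congrArg (fun x => C.pull (lift (z p) (z q)) ω * x) (hv Y (fun x => z x.1))
    simp only [mul_zero, Finset.mul_sum, mul_smul_comm] at h1
    rw [← h1]
    simp only [Finset.sum_smul]
    rw [Finset.sum_comm]
    refine Finset.sum_congr rfl fun τ _ => ?_
    rw [Finset.sum_eq_single (ext hpq τ), if_pos rfl, mcl_ext]
    · intro m _ hm
      rw [if_neg (Ne.symm hm), zero_smul]
    · intro h; exact absurd (Finset.mem_univ _) h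

lemma matchingDependent_of_rel {ω : C.CH (X.prod X)} {hs : C.IsSymmetric ω} {n : ℕ} (hn : 1 ≤ n)
    (hcard : Fintype.card α = 2 * n) {v : Matching α → ℚ} (hv0 : v ≠ 0) (hv : Rel C hs v) :
    C.MatchingDependent ω n := by
  have e : α ≃ Fin (2 * n - 1 + 1) :=
    (Fintype.equivFin α).trans (finCongr (by omega))
  refine (matchingDependent_iff hs).2 ⟨2 * n - 1, by omega, _, ?_, hv.map e⟩
  intro h0
  apply hv0
  funext m
  have h1 := congrFun h0 (mapEquiv e m)
  rw [mapEquiv_symm] at h1
  exact h1

end Expand

end Mat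

namespace ChowTheory

variable {X : 𝒱.Obj} {e f ω : C.CH (X.prod X)}

lemma MatchingDependent.succ (hs : C.IsSymmetric ω) {n : ℕ} (h : C.MatchingDependent ω n) :
    C.MatchingDependent ω (n + 1) := by
  obtain ⟨l, hl, v, hv0, hv⟩ := (Mat.matchingDependent_iff hs).1 h
  have e1 : Fin (l + 1) ≃ {x : Option (Option (Fin (l + 1))) // x ≠ none ∧ x ≠ some none} :=
    { toFun := fun i => ⟨some (some i), by simp, by simp⟩
      invFun := fun x => match x with
        | ⟨none, h⟩ => absurd rfl h.1
        | ⟨some none, h⟩ => absurd rfl h.2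
        | ⟨some (some i), _⟩ => i
      left_inv := fun i => rfl
      right_inv := by
        rintro ⟨x, h1, h2⟩
        cases x with
        | none => exact absurd rfl h1
        | some x =>
          cases x with
          | none => exact absurd rfl h2
          | some i => rfl }
  obtain ⟨v', hv0', hv'⟩ := Mat.Rel.addPair (p := none) (q := some none) (by simp)
    (v := fun m => v (Mat.mapEquiv e1.symm m)) (by
      intro h0
      apply hv0
      funext m
      have h1 := congrFun h0 (Mat.mapEquiv e1 m)
      rw [Mat.mapEquiv_symm] at h1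
      exact h1) (hv.map e1)
  exact Mat.matchingDependent_of_rel (by omega) (by
    rw [Fintype.card_option, Fintype.card_option, Fintype.card_fin]
    omega) hv0' hv'

lemma MatchingDependent.mono (hs : C.IsSymmetric ω) {n n' : ℕ} (h : C.MatchingDependent ω n)
    (hn : n ≤ n') : C.MatchingDependent ω n' := by
  induction n', hn using Nat.le_induction with
  | base => exact h
  | succ m _ ih => exact ih.succ hs

/-- Finite-dimensionality implies a relation between the products of disjoint diagonals. -/
theorem matchings_of_even_odd (h : Mat.IsPair C e f) {a g : ℕ} (hea : C.motDim e = a)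
    (he : C.ExtVanishes e (a + 1)) (hf : C.SymVanishes f (2 * g + 1)) :
    C.MatchingDependent (e + f) ((a + 1) * (g + 1)) := by
  have hcard : Fintype.card (Mat.Harm.Cell (a + 1) (g + 1)) = (a + 1) * (2 * g + 2) := by
    simp only [Fintype.card_prod, Fintype.card_fin, Fintype.card_bool]
    ring
  have hfull : ∀ χ : Mat.Harm.Cell (a + 1) (g + 1) → Bool,
      Mat.fml h (fun i => some (χ i)) Mat.Harm.v = 0 := fun χ =>
    Mat.fml_eq_zero h hea (extVanishes_iff.1 he).2 (symVanishes_iff.1 hf).2 hcard
      (v := Mat.Harm.v) (fun q m => by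
        rw [Mat.Harm.v_jm]
        push_cast
        ring) _ χ rfl
  have h1 := Mat.fml_zero_of_full h hfull _ (fun _ => none) rfl
  refine Mat.matchingDependent_of_rel (hs := isSymmetric_add h.es h.fs)
    (Nat.mul_pos (Nat.succ_pos a) (Nat.succ_pos g)) (by rw [hcard]; ring) Mat.Harm.v_ne_zero ?_
  intro Y z
  exact congrFun (congrFun h1 Y) z

/-- The products of few disjoint diagonals are linearly independent. -/
theorem le_of_matchingDependent (hP : C.Polarized) (h : Mat.IsPair C e f) {a g : ℕ}
    (hea : C.motDim e = a) (hfg : C.motDim f = -2 * g) {n : ℕ}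
    (hd : C.MatchingDependent (e + f) n) : (a + 1) * (g + 1) ≤ n := by
  have h1 := one_ne_zero_of_polarized hP X
  have hs := isSymmetric_add h.es h.fs
  have hω : C.comp (e + f) (e + f) = e + f := by
    rw [C.add_comp, C.comp_add, C.comp_add, h.ee, h.ef, h.fe, h.ff, add_zero, zero_add]
  have heω : C.comp e (e + f) = e := by rw [C.comp_add, h.ee, h.ef, add_zero]
  have ht : C.motDim (e + f) = a - 2 * g := by
    have : C.motDim (e + f) = C.motDim e + C.motDim f := by
      simp only [motDim, map_add]
    rw [this, hea, hfg]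
    ring
  obtain ⟨β, i1, i2, A, B, v, hA, hB, hBe, hAB, hAt, hv0, hv, hbA, hbB⟩ :=
    Mat.exists_bounds h1 hω hs hd
  have hAB' : A + 2 * g + 1 = B + a := by
    rw [ht] at hAt
    have : ((A + 2 * g + 1 : ℕ) : ℚ) = ((B + a : ℕ) : ℚ) := by
      push_cast
      linarith
    exact_mod_cast this
  obtain ⟨β', j1, j2, j3, A', B', hA', hB', hBe', hAB1, hAt', -, -, hle, -⟩ :=
    Mat.exists_shape_bound h1 h.ee h.es 1 A hv0 (hv.restrict h.es heω h.ee) hbA
  have hAA := hle rfl
  have h2 : A' + 1 = B' + a := by
    rw [hea] at hAt'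
    have : ((A' + 1 : ℕ) : ℚ) = ((B' + a : ℕ) : ℚ) := by
      push_cast
      linarith
    exact_mod_cast this
  have hB2 : 2 ≤ B' := by
    obtain ⟨r, hr⟩ := hBe'
    omega
  have h3 : a + 1 ≤ A := by omega
  have h4 : 2 * g + 2 ≤ B := by omega
  have h5 : (a + 1) * (2 * g + 2) ≤ A * B := Nat.mul_le_mul h3 h4
  have h6 : (a + 1) * (2 * g + 2) = 2 * ((a + 1) * (g + 1)) := by ring
  omega

/-- Finite-dimensionality and products of disjoint diagonals. -/
theorem even_odd_tfae (hP : C.Polarized) (h : Mat.IsPair C e f) {a g : ℕ}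
    (hea : C.motDim e = a) (hfg : C.motDim f = -2 * g) :
    List.TFAE [(∃ m, C.ExtVanishes e m) ∧ ∃ m, C.SymVanishes f m,
      C.ExtVanishes e (a + 1) ∧ C.SymVanishes f (2 * g + 1),
      ∃ n < (a + 3) * (g + 2), C.MatchingDependent (e + f) n,
      C.MatchingDependent (e + f) ((a + 1) * (g + 1)),
      ∀ n, C.MatchingDependent (e + f) n ↔ (a + 1) * (g + 1) ≤ n] := by
  tfae_have 1 → 2 := by
    rintro ⟨h1, h2⟩
    obtain ⟨N, hN, h3⟩ := ((ext_tfae hP h.ee).out 0 1).1 h1
    obtain ⟨M, hM, h4⟩ := ((sym_tfae hP h.ff).out 0 1).1 h2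
    have e1 : N = a + 1 := by
      rw [hea] at hN
      exact_mod_cast hN
    have e2 : M = 2 * g + 1 := by
      rw [hfg] at hM
      have : (M : ℚ) = ((2 * g + 1 : ℕ) : ℚ) := by
        push_cast
        linarith
      exact_mod_cast this
    rw [e1] at h3
    rw [e2] at h4
    exact ⟨h3, h4⟩
  tfae_have 2 → 4 := fun ⟨h1, h2⟩ => matchings_of_even_odd h hea h1 h2
  tfae_have 4 → 5 := fun h1 n => ⟨fun h2 => le_of_matchingDependent hP h hea hfg h2,
    fun h2 => h1.mono (isSymmetric_add h.es h.fs) h2⟩
  tfae_have 5 → 3 := fun h1 => ⟨(a + 1) * (g + 1),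
    Nat.mul_lt_mul'' (by omega) (by omega), (h1 _).2 le_rfl⟩
  tfae_have 3 → 1 := by
    intro h1
    obtain ⟨h2, h3⟩ := even_odd_of_matchings hP h.ee h.ff h.ef h.fe h.es h.fs hea hfg h1
    exact ⟨⟨_, h2⟩, ⟨_, h3⟩⟩
  tfae_finish

end ChowTheory

end Pool.Agent.R903
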