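import Pool.Agent.R903.MatHarm

/-!
# Products over the pairs of a matching; a vanishing criterion
-/

open Pool.Agent.R903.PermCore

namespace Pool.Agent.R903

namespace Mat

section Gen

variable {R : Type*} [CommMonoid R] {α : Type}

/-- a symmetric function on the pairs -/
def gfam (c : α → α → R) (hc : ∀ i j, c i j = c j i) : Sym2 α → R := Sym2.lift ⟨c, hc⟩

omit [CommMonoid R] in
lemma gfam_mk (c : α → α → R) (hc : ∀ i j, c i j = c j i) (i j : α) :
    gfam c hc s(i, j) = c i j := rfl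

variable [Fintype α] [DecidableEq α]

/-- the product over the pairs of a matching -/
def gcl (c : α → α → R) (hc : ∀ i j, c i j = c j i) (m : Matching α) : R :=
  ∏ e ∈ edges m, gfam c hc e

lemma edges_conj (g : Equiv.Perm α) (m : Matching α) :
    edges (conj g m) = (edges m).image (Sym2.map g) := by
  ext e
  simp only [edges, Finset.mem_image, Finset.mem_univ, true_and, exists_exists_eq_and]
  constructor
  · rintro ⟨i, rfl⟩
    refine ⟨g⁻¹ i, ?_⟩
    rw [Sym2.map_mk, conj_apply]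
    simp
  · rintro ⟨i, rfl⟩
    refine ⟨g i, ?_⟩
    rw [Sym2.map_mk, conj_apply]
    simp

lemma gcl_conj (c : α → α → R) (hc : ∀ i j, c i j = c j i) (g : Equiv.Perm α)
    (m : Matching α) : gcl c hc (conj g m) =
      gcl (fun i j => c (g i) (g j)) (fun i j => hc (g i) (g j)) m := by
  rw [gcl, edges_conj, Finset.prod_image fun a _ b _ h => Sym2.map.injective g.injective h, gcl]
  refine Finset.prod_congr rfl fun e _ => ?_
  induction e using Sym2.ind
  rfl

/-- the product over the other pairs -/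
def grest (c : α → α → R) (hc : ∀ i j, c i j = c j i) (m : Matching α) (r : α) : R :=
  ∏ e ∈ (edges m).erase s(r, m.1 r), gfam c hc e

lemma gcl_eq_rest (c : α → α → R) (hc : ∀ i j, c i j = c j i) (m : Matching α) (r : α) :
    gcl c hc m = c r (m.1 r) * grest c hc m r := by
  rw [gcl, grest, ← Finset.mul_prod_erase (edges m) _
    (Finset.mem_image.2 ⟨r, Finset.mem_univ r, rfl⟩), gfam_mk]

lemma grest_congr {R' : Type*} [CommMonoid R'] {c : α → α → R} {hc : ∀ i j, c i j = c j i}
    {c' : α → α → R'} {hc' : ∀ i j, c' i j = c' j i} {m : Matching α} {r : α} (φ : R →* R')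
    (h : ∀ i j, i ≠ r → i ≠ m.1 r → j ≠ r → j ≠ m.1 r → φ (c i j) = c' i j) :
    φ (grest c hc m r) = grest c' hc' m r := by
  rw [grest, grest, map_prod]
  refine Finset.prod_congr rfl fun e he => ?_
  obtain ⟨h1, h2⟩ := Finset.mem_erase.1 he
  obtain ⟨i, -, rfl⟩ := Finset.mem_image.1 h2
  have hi : i ≠ r := by rintro rfl; exact h1 rfl
  have hi' : i ≠ m.1 r := by
    rintro rfl
    apply h1
    rw [m.2.1, Sym2.eq_swap]
  have hm : m.1 i ≠ r := by
    rintro h3
    exact hi' (by rw [← h3, m.2.1])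
  have hm' : m.1 i ≠ m.1 r := fun h3 => hi (m.1.injective h3)
  rw [gfam_mk, gfam_mk, h i _ hi hi' hm hm']

lemma gcl_ext (c : α → α → R) (hc : ∀ i j, c i j = c j i) {p q : α} (hpq : p ≠ q)
    (τ : Matching {x // x ≠ p ∧ x ≠ q}) : gcl c hc (ext hpq τ) =
      c p q * gcl (fun x y : {x // x ≠ p ∧ x ≠ q} => c x y) (fun x y => hc x y) τ := by
  rw [gcl, edges_ext, Finset.prod_insert, Finset.prod_image, gfam_mk, gcl]
  · congr 1
    refine Finset.prod_congr rfl fun e _ => ?_
    induction e using Sym2.ind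
    rfl
  · intro a _ b _ h; exact Sym2.map.injective Subtype.val_injective h
  · intro h
    obtain ⟨e, _, he⟩ := Finset.mem_image.1 h
    have h1 : p ∈ Sym2.map Subtype.val e := by rw [he]; exact Sym2.mem_mk_left _ _
    obtain ⟨x, _, hx⟩ := Sym2.mem_map.1 h1
    exact x.2.1 hx

/-- grouping the matchings by the partner of `q` -/
lemma sum_parts {M : Type*} [AddCommMonoid M] (q : α) (F : Matching α → M) :
    ∑ m, F m = ∑ p, if h : p ≠ q then ∑ τ : Matching {x // x ≠ p ∧ x ≠ q}, F (ext h τ) else 0 := by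
  rw [← Finset.sum_fiberwise Finset.univ (fun m : Matching α => m.1 q)]
  refine Finset.sum_congr rfl fun p _ => ?_
  split_ifs with h
  · symm
    refine Finset.sum_bij (fun τ _ => ext h τ) ?_ ?_ ?_ ?_
    · intro τ _
      exact Finset.mem_filter.2 ⟨Finset.mem_univ _, ext_right h τ⟩
    · intro τ _ τ' _ h2
      exact ext_injective h h2
    · intro m hm
      obtain ⟨τ, hτ⟩ := ext_surj h (m := m) (by
        rw [← (Finset.mem_filter.1 hm).2, m.2.1])
      exact ⟨τ, Finset.mem_univ _, hτ⟩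
    · intro τ _
      rfl
  · apply Finset.sum_eq_zero
    intro m hm
    have h1 : m.1 q = p := (Finset.mem_filter.1 hm).2
    rw [not_not] at h
    exact absurd (h1.trans h) (m.2.2 q)

end Gen

section Vanish

variable {β : Type} [Fintype β] [DecidableEq β] {V : Type*} [AddCommGroup V] [Module ℚ V]

omit [Fintype β] in
lemma card_lt_of_kill (ρ : Equiv.Perm β →* Module.End ℚ V) {ε : ℤˣ} {N : ℕ} {F : Finset β}
    {v : V}
    (h : ∀ ι : Fin N ↪ β, ∑ g : Equiv.Perm (Fin N), chi ε g • ρ (g.viaEmbedding ι) v = 0)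
    (hv0 : v ≠ 0)
    (hv : ∀ p ∈ F, ∀ p' ∈ F, p ≠ p' → ρ (Equiv.swap p p') v = (-((ε : ℤ) : ℚ)) • v) :
    F.card < N := by
  by_contra hc
  have h1 : Fintype.card (Fin N) ≤ Fintype.card {x // x ∈ F} := by
    rw [Fintype.card_fin, Fintype.card_coe]
    omega
  obtain ⟨j⟩ := Function.Embedding.nonempty_of_card_le h1
  set ι : Fin N ↪ β := j.trans (Function.Embedding.subtype _) with hι
  have h2 := h ι
  have h4 : ∀ g : Equiv.Perm (Fin N), ρ (g.viaEmbedding ι) v = chi ε g • v := by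
    intro g
    induction g using Equiv.Perm.swap_induction_on with
    | one => rw [via_one, map_one, chi_one, Module.End.one_apply, one_smul]
    | swap_mul f x y hxy ih =>
      have h5 : ρ (Equiv.swap (ι x) (ι y)) v = (-((ε : ℤ) : ℚ)) • v :=
        hv _ (j x).2 _ (j y).2 (fun h => hxy (j.injective (Subtype.ext h)))
      rw [via_mul, map_mul, Module.End.mul_apply, ih, map_smul, via_swap, h5,
        chi_swap_mul ε f hxy, smul_smul, mul_comm]
  have h3 : ∀ g : Equiv.Perm (Fin N), chi ε g • ρ (g.viaEmbedding ι) v = v := by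
    intro g
    rw [h4, smul_smul, chi_sq, one_smul]
  rw [Finset.sum_congr rfl fun g _ => h3 g, Finset.sum_const, ← Nat.cast_smul_eq_nsmul ℚ] at h2
  rcases smul_eq_zero.1 h2 with h4 | h4
  · have h5 : (Finset.univ : Finset (Equiv.Perm (Fin N))).card ≠ 0 :=
      Finset.card_ne_zero_of_mem (Finset.mem_univ 1)
    exact h5 (by exact_mod_cast h4)
  · exact hv0 h4

/-- A vanishing criterion. -/
theorem vanish (ρ : Equiv.Perm β →* Module.End ℚ V) (ε : ℤˣ) (N : ℕ) (κ : ℚ) (Φ : V)
    (hJ : ∀ q, ∑ r ∈ Finset.univ.erase q, ρ (Equiv.swap q r) Φ = κ • Φ)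
    (hK : ∀ (h : Equiv.Perm β) (ι : Fin N ↪ β),
      ∑ g : Equiv.Perm (Fin N), chi ε g • ρ (g.viaEmbedding ι) (ρ h Φ) = 0)
    (hnum : ∀ b : ℕ, κ * b = -((ε : ℤ) : ℚ) * b * (b - 1) +
      ((ε : ℤ) : ℚ) * (Fintype.card β - b) → N ≤ b) : Φ = 0 := by
  by_contra hΦ
  have hρ : ∀ g h (v : V), ρ g (ρ h v) = ρ (g * h) v := by
    intro g h v
    rw [map_mul, Module.End.mul_apply]
  let S : Submodule ℚ V :=
    { carrier := {v | (∀ q, ∑ r ∈ Finset.univ.erase q, ρ (Equiv.swap q r) v = κ • v) ∧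
        ∀ (h : Equiv.Perm β) (ι : Fin N ↪ β),
          ∑ g : Equiv.Perm (Fin N), chi ε g • ρ (g.viaEmbedding ι) (ρ h v) = 0}
      add_mem' := by
        rintro v v' ⟨h1, h2⟩ ⟨h1', h2'⟩
        refine ⟨fun q => ?_, fun h ι => ?_⟩
        · simp only [map_add, Finset.sum_add_distrib, h1 q, h1' q, smul_add]
        · simp only [map_add, smul_add, Finset.sum_add_distrib, h2 h ι, h2' h ι, add_zero]
      zero_mem' := by
        refine ⟨fun q => ?_, fun h ι => ?_⟩
        · simp only [map_zero, Finset.sum_const_zero, smul_zero]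
        · simp only [map_zero, smul_zero, Finset.sum_const_zero]
      smul_mem' := by
        rintro c v ⟨h1, h2⟩
        refine ⟨fun q => ?_, fun h ι => ?_⟩
        · simp only [map_smul, ← Finset.smul_sum, h1 q, smul_comm c κ]
        · simp only [map_smul, smul_comm _ c, ← Finset.smul_sum, h2 h ι, smul_zero] }
  have hS : ∀ g, ∀ v ∈ S, ρ g v ∈ S := by
    rintro g v ⟨h1, h2⟩
    refine ⟨fun q => ?_, fun h ι => ?_⟩
    · have h3 : ∀ r, ρ (Equiv.swap q r) (ρ g v) = ρ g (ρ (Equiv.swap (g⁻¹ q) (g⁻¹ r)) v) := by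
        intro r
        rw [hρ, hρ, Equiv.mul_swap_eq_swap_mul]
        simp
      simp only [h3]
      rw [← map_sum]
      have h4 : ∑ r ∈ Finset.univ.erase q, ρ (Equiv.swap (g⁻¹ q) (g⁻¹ r)) v =
          ∑ r ∈ Finset.univ.erase (g⁻¹ q), ρ (Equiv.swap (g⁻¹ q) r) v := by
        refine Finset.sum_bij' (fun r _ => g⁻¹ r) (fun r _ => g r) ?_ ?_ ?_ ?_ ?_
        · intro r hr
          exact Finset.mem_erase.2 ⟨fun h5 => (Finset.mem_erase.1 hr).1 (g⁻¹.injective h5),
            Finset.mem_univ _⟩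
        · intro r hr
          refine Finset.mem_erase.2 ⟨fun h5 => (Finset.mem_erase.1 hr).1 ?_, Finset.mem_univ _⟩
          rw [Equiv.Perm.eq_inv_iff_eq]; exact h5
        · intro r _; simp
        · intro r _; simp
        · intro r _; rfl
      rw [h4, h1, map_smul]
    · rw [hρ h g]
      exact h2 (h * g) ι
  obtain ⟨F, w, hw, hw0, hF1, -, hF3, -⟩ := MatRep.exists_max ρ S hS κ (fun v hv => hv.1)
    (-((ε : ℤ) : ℚ)) (by rw [neg_mul_neg, units_sq]) ⟨Φ, ⟨hJ, hK⟩, hΦ⟩
  have h1 := card_lt_of_kill ρ (F := F) (v := w) (fun ι => by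
    have := hw.2 1 ι
    rwa [map_one, Module.End.one_apply] at this) hw0 hF1
  have h2 := hnum F.card (by rw [hF3]; ring)
  omega

end Vanish

end Mat

end Pool.Agent.R903
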