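import Pool.Agent.R903.MatBound

/-!
# A function on the matchings of a rectangle on which the Jucys-Murphy elements are scalars
-/

open Pool.Agent.R903.PermCore

namespace Pool.Agent.R903

namespace Mat

namespace Harm

variable {A G : ℕ}

/-- the cells of the rectangle -/
abbrev Cell (A G : ℕ) : Type := Fin A × (Fin G × Bool)

/-- the involution given by permutations -/
def matFun (σ : Fin G → Equiv.Perm (Fin A)) : Cell A G → Cell A G
  | (i, (k, false)) => (σ k i, (k, true))
  | (i, (k, true)) => ((σ k)⁻¹ i, (k, false))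

lemma matFun_matFun (σ : Fin G → Equiv.Perm (Fin A)) (x : Cell A G) :
    matFun σ (matFun σ x) = x := by
  obtain ⟨i, k, s⟩ := x
  cases s <;> simp [matFun]

/-- the matching given by permutations -/
def mat (σ : Fin G → Equiv.Perm (Fin A)) : Matching (Cell A G) :=
  ⟨Function.Involutive.toPerm (matFun σ) (matFun_matFun σ), matFun_matFun σ, by
    rintro ⟨i, k, s⟩ h
    cases s
    · have := congrArg (fun x : Cell A G => x.2.2) h
      simp [matFun] at this
    · have := congrArg (fun x : Cell A G => x.2.2) h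
      simp [matFun] at this⟩

lemma mat_apply (σ : Fin G → Equiv.Perm (Fin A)) (x : Cell A G) : (mat σ).1 x = matFun σ x := rfl

/-- the sign -/
def sgn (σ : Fin G → Equiv.Perm (Fin A)) : ℚ := ∏ k, ((Equiv.Perm.sign (σ k) : ℤ) : ℚ)

/-- the product of determinants -/
def w (m : Matching (Cell A G)) : ℚ := ∑ σ, if mat σ = m then sgn σ else 0

lemma swap_cell (i i' j : Fin A) (c d : Fin G × Bool) :
    Equiv.swap (i, c) (i', c) (j, d) = (if d = c then Equiv.swap i i' j else j, d) := by
  by_cases h : d = c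
  · subst h
    rw [if_pos rfl]
    exact (Prod.mk_left_injective d).swap_apply i i' j
  · rw [if_neg h, Equiv.swap_apply_of_ne_of_ne]
    · exact fun h' => h (congrArg Prod.snd h')
    · exact fun h' => h (congrArg Prod.snd h')

/-- exchange of two rows in a column -/
def op (i i' : Fin A) (c : Fin G × Bool) (σ : Fin G → Equiv.Perm (Fin A)) :
    Fin G → Equiv.Perm (Fin A) :=
  Function.update σ c.1 (if c.2 = false then σ c.1 * Equiv.swap i i' else
    Equiv.swap i i' * σ c.1)

lemma op_op (i i' : Fin A) (c : Fin G × Bool) (σ : Fin G → Equiv.Perm (Fin A)) :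
    op i i' c (op i i' c σ) = σ := by
  obtain ⟨k, s⟩ := c
  funext l
  by_cases hl : l = k
  · subst hl
    cases s <;> simp [op, mul_assoc]
  · simp [op, hl]

lemma sgn_op {i i' : Fin A} (h : i ≠ i') (c : Fin G × Bool) (σ : Fin G → Equiv.Perm (Fin A)) :
    sgn (op i i' c σ) = -sgn σ := by
  obtain ⟨k, s⟩ := c
  rw [sgn, sgn, ← Finset.mul_prod_erase Finset.univ _ (Finset.mem_univ k),
    ← Finset.mul_prod_erase Finset.univ (fun k => ((Equiv.Perm.sign (σ k) : ℤ) : ℚ))
      (Finset.mem_univ k), ← neg_mul]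
  congr 1
  · cases s <;> simp [op, Equiv.Perm.sign_mul, Equiv.Perm.sign_swap h]
  · refine Finset.prod_congr rfl fun l hl => ?_
    rw [op, Function.update_of_ne (Finset.mem_erase.1 hl).1]

lemma mat_op (i i' : Fin A) (c : Fin G × Bool) (σ : Fin G → Equiv.Perm (Fin A)) :
    mat (op i i' c σ) = conj (Equiv.swap (i, c) (i', c)) (mat σ) := by
  apply Subtype.ext
  ext1 x
  obtain ⟨j, l, b⟩ := x
  obtain ⟨k, s⟩ := c
  rw [conj_apply, Equiv.swap_inv, mat_apply, mat_apply, swap_cell]
  by_cases hl : l = k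
  · subst hl
    cases s <;> cases b <;> simp [matFun, op, swap_cell]
  · cases s <;> cases b <;> simp [matFun, op, swap_cell, hl]

lemma conj_injective {α : Type} [DecidableEq α] (g : Equiv.Perm α) :
    Function.Injective (conj g : Matching α → Matching α) := by
  intro m m' h
  have := congrArg (conj g⁻¹) h
  rwa [conj_conj, conj_conj, inv_mul_cancel, conj_one, conj_one] at this

lemma w_col {i i' : Fin A} (h : i ≠ i') (c : Fin G × Bool) (m : Matching (Cell A G)) :
    w (conj (Equiv.swap (i, c) (i', c)) m) = -w m := by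
  rw [w, w, ← Finset.sum_neg_distrib,
    ← Equiv.sum_comp (Function.Involutive.toPerm (op i i' c) (op_op i i' c))]
  refine Finset.sum_congr rfl fun σ _ => ?_
  change (if mat (op i i' c σ) = _ then sgn (op i i' c σ) else 0) = _
  rw [mat_op, sgn_op h]
  by_cases h1 : mat σ = m
  · rw [if_pos h1, if_pos (by rw [h1])]
  · rw [if_neg h1, if_neg fun h2 => h1 (conj_injective _ h2), neg_zero]

lemma rho_w {i i' : Fin A} (h : i ≠ i') (c : Fin G × Bool) :
    rho (Equiv.swap (i, c) (i', c)) (w : Matching (Cell A G) → ℚ) = -w := by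
  funext m
  rw [rho_swap, w_col h]
  rfl

lemma bound_w : Bound (-1) (2 * G) (w : Matching (Cell A G) → ℚ) := by
  intro h ι
  obtain ⟨x, y, hxy, hc⟩ := Fintype.exists_ne_map_eq_of_card_lt
    (fun x : Fin (2 * G + 1) => (h⁻¹ (ι x)).2) (by
      simp only [Fintype.card_prod, Fintype.card_fin, Fintype.card_bool]
      omega)
  set u : Matching (Cell A G) → ℚ := rho h w with hu
  have h1 : rho (Equiv.swap (ι x) (ι y)) u = -u := by
    have h2 : Equiv.swap (ι x) (ι y) * h = h * Equiv.swap (h⁻¹ (ι x)) (h⁻¹ (ι y)) := by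
      rw [Equiv.mul_swap_eq_swap_mul]
      simp
    rw [hu, rho_rho, h2, ← rho_rho]
    rcases hx : h⁻¹ (ι x) with ⟨i, c⟩
    rcases hy : h⁻¹ (ι y) with ⟨i', c'⟩
    rw [hx, hy] at hc
    simp only at hc
    subst hc
    rw [rho_w, map_neg]
    rintro rfl
    exact hxy (ι.injective (h⁻¹.injective (hx.trans hy.symm)))
  have h3 : ∑ g : Equiv.Perm (Fin (2 * G + 1)), chi (-1) g • rho (g.viaEmbedding ι) u =
      -∑ g : Equiv.Perm (Fin (2 * G + 1)), chi (-1) g • rho (g.viaEmbedding ι) u := by
    conv_lhs => rw [← Equiv.sum_comp (Equiv.mulRight (Equiv.swap x y))]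
    rw [← Finset.sum_neg_distrib]
    refine Finset.sum_congr rfl fun g _ => ?_
    rw [Equiv.coe_mulRight, via_mul, ← rho_rho, via_swap, h1, map_neg, smul_neg]
    simp [chi]
  have h4 := eq_neg_iff_add_eq_zero.1 h3
  rw [← two_smul ℚ] at h4
  exact (smul_eq_zero.1 h4).resolve_left two_ne_zero

/-- the permutations of the rows -/
def rowP (r : Fin A → Equiv.Perm (Fin G × Bool)) : Equiv.Perm (Cell A G) :=
  Equiv.prodCongrRight r

lemma rowP_apply (r : Fin A → Equiv.Perm (Fin G × Bool)) (i : Fin A) (c : Fin G × Bool) :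
    rowP r (i, c) = (i, r i c) := rfl

lemma rowP_mul (r r' : Fin A → Equiv.Perm (Fin G × Bool)) :
    rowP (r * r') = rowP r * rowP r' := by
  ext1 ⟨i, c⟩
  rfl

lemma rowP_swap (i : Fin A) (c c' : Fin G × Bool) :
    rowP (Pi.mulSingle i (Equiv.swap c c')) = Equiv.swap (i, c) (i, c') := by
  ext1 ⟨j, d⟩
  rw [rowP_apply]
  by_cases h : j = i
  · subst h
    rw [Pi.mulSingle_eq_same]
    exact ((Prod.mk_right_injective j).swap_apply c c' d).symm
  · rw [Pi.mulSingle_eq_of_ne h, Equiv.swap_apply_of_ne_of_ne]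
    · rfl
    · exact fun h' => h (congrArg Prod.fst h')
    · exact fun h' => h (congrArg Prod.fst h')

/-- the symmetrized product of determinants -/
noncomputable def v : Matching (Cell A G) → ℚ :=
  ∑ r : Fin A → Equiv.Perm (Fin G × Bool), rho (rowP r) w

lemma rho_v (s : Fin A → Equiv.Perm (Fin G × Bool)) :
    rho (rowP s) (v : Matching (Cell A G) → ℚ) = v := by
  rw [v, map_sum, ← Equiv.sum_comp (Equiv.mulLeft s) (fun r => rho (rowP r) w)]
  refine Finset.sum_congr rfl fun r _ => ?_
  rw [rho_rho, Equiv.coe_mulLeft, rowP_mul]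

lemma bound_v : Bound (-1) (2 * G) (v : Matching (Cell A G) → ℚ) :=
  (boundSub (Cell A G) (-1) (2 * G)).sum_mem fun r _ => Bound.conj bound_w (rowP r)

lemma v_row (i : Fin A) (c c' : Fin G × Bool) (m : Matching (Cell A G)) :
    v (conj (Equiv.swap (i, c) (i, c')) m) = v m := by
  rw [← rho_swap (i, c) (i, c') v m, ← rowP_swap, rho_v]

lemma v_garnir {q : Cell A G} {i : Fin A} (hq : q.1 ≠ i) (m : Matching (Cell A G)) :
    ∑ c, v (conj (Equiv.swap q (i, c)) m) = -v m := by
  set F : Finset (Cell A G) := Finset.univ.map ⟨fun c => (i, c), Prod.mk_right_injective i⟩ with hF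
  have hFc : F.card = 2 * G := by
    rw [hF, Finset.card_map, Finset.card_univ, Fintype.card_prod, Fintype.card_fin,
      Fintype.card_bool, mul_comm]
  have hqF : q ∉ F := by
    rw [hF]
    intro h
    obtain ⟨c, -, hc⟩ := Finset.mem_map.1 h
    exact hq (by rw [← hc]; rfl)
  have hsym : ∀ p ∈ F, ∀ p' ∈ F, p ≠ p' →
      rho (Equiv.swap p p') (v : Matching (Cell A G) → ℚ) = (1 : ℚ) • v := by
    intro p hp p' hp' _
    obtain ⟨c, -, rfl⟩ := Finset.mem_map.1 hp
    obtain ⟨c', -, rfl⟩ := Finset.mem_map.1 hp'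
    rw [one_smul]
    funext m
    rw [rho_swap]
    exact v_row i c c' m
  have h1 := MatRep.insert_sym rho (by norm_num) hsym hqF
  rw [one_smul] at h1
  have h2 : (v : Matching (Cell A G) → ℚ) + ∑ p ∈ F, rho (Equiv.swap p q) v = 0 := by
    by_contra hc
    have h3 : Bound (-1) (2 * G) ((v : Matching (Cell A G) → ℚ) +
        ∑ p ∈ F, rho (Equiv.swap p q) v) :=
      (boundSub (Cell A G) (-1) (2 * G)).add_mem bound_v
        ((boundSub (Cell A G) (-1) (2 * G)).sum_mem fun p _ => Bound.conj bound_v _)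
    have h4 := card_le_of_bound (F := insert q F) h3 hc fun p hp p' hp' hpp => by
      rw [h1 p hp p' hp' hpp]
      simp
    rw [Finset.card_insert_of_notMem hqF, hFc] at h4
    omega
  have h5 := congrFun h2 m
  rw [Pi.add_apply, Finset.sum_apply, Pi.zero_apply, hF, Finset.sum_map] at h5
  rw [eq_neg_iff_add_eq_zero, add_comm, ← h5]
  congr 1
  refine Finset.sum_congr rfl fun c _ => ?_
  rw [rho_swap]
  congr 2
  exact Equiv.swap_comm _ _

lemma v_jm (q : Cell A G) (m : Matching (Cell A G)) :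
    ∑ r ∈ Finset.univ.erase q, v (conj (Equiv.swap q r) m) = (2 * G - A) * v m := by
  have h0 : ∑ r, v (conj (Equiv.swap q r) m) = (2 * G - A + 1) * v m := by
    rw [Fintype.sum_prod_type, ← Finset.add_sum_erase Finset.univ _ (Finset.mem_univ q.1)]
    have h1 : ∑ c, v (conj (Equiv.swap q (q.1, c)) m) = 2 * G * v m := by
      have h2 : ∀ c, v (conj (Equiv.swap q (q.1, c)) m) = v m := fun c => v_row q.1 q.2 c m
      rw [Finset.sum_congr rfl fun c _ => h2 c, Finset.sum_const, Finset.card_univ,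
        Fintype.card_prod, Fintype.card_fin, Fintype.card_bool, nsmul_eq_mul]
      push_cast
      ring
    have h3 : ∀ i ∈ Finset.univ.erase q.1, ∑ c, v (conj (Equiv.swap q (i, c)) m) = -v m :=
      fun i hi => v_garnir (Finset.mem_erase.1 hi).1.symm m
    have h4 : 1 ≤ A := by
      have := q.1.2
      omega
    rw [h1, Finset.sum_congr rfl h3, Finset.sum_const, Finset.card_erase_of_mem
      (Finset.mem_univ _), Finset.card_univ, Fintype.card_fin, nsmul_eq_mul]
    push_cast [h4]
    ring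
  rw [← Finset.add_sum_erase Finset.univ _ (Finset.mem_univ q), Equiv.swap_self] at h0
  have h5 : conj (Equiv.refl (Cell A G)) m = m := conj_one m
  rw [h5] at h0
  linarith

lemma v_ne_zero : (v : Matching (Cell A G) → ℚ) ≠ 0 := by
  intro h
  have h1 := congrFun h (mat 1)
  rw [v, Finset.sum_apply, Pi.zero_apply] at h1
  have hone : ∀ (m : Matching (Cell A G)), (∀ x, (m.1 x).1 = x.1) → ∀ σ, mat σ = m → σ = 1 := by
    intro m hm σ hσ
    funext k
    ext1 i
    have h2 := hm (i, (k, false))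
    rw [← hσ] at h2
    exact h2
  have hnn : ∀ (m : Matching (Cell A G)), (∀ x, (m.1 x).1 = x.1) → 0 ≤ w m := by
    intro m hm
    refine Finset.sum_nonneg fun σ _ => ?_
    split_ifs with h2
    · rw [hone m hm σ h2]
      simp [sgn]
    · exact le_rfl
  have hrow : ∀ (r : Fin A → Equiv.Perm (Fin G × Bool)) (x : Cell A G),
      ((conj (rowP r)⁻¹ (mat 1)).1 x).1 = x.1 := by
    intro r x
    have e1 : ∀ (y : Cell A G), (rowP r y).1 = y.1 := fun y => rfl
    have e2 : ∀ (y : Cell A G), ((rowP r)⁻¹ y).1 = y.1 := by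
      intro y
      have := e1 ((rowP r)⁻¹ y)
      rw [show rowP r ((rowP r)⁻¹ y) = y from (rowP r).apply_symm_apply y] at this
      exact this.symm
    have e3 : ∀ (y : Cell A G), ((mat 1).1 y).1 = y.1 := by
      rintro ⟨i, k, s⟩
      cases s <;> rfl
    rw [conj_apply, e2, e3, inv_inv, e1]
  have h2 := Finset.sum_eq_zero_iff_of_nonneg
    (fun (r : Fin A → Equiv.Perm (Fin G × Bool)) (_ : r ∈ Finset.univ) => by
      rw [rho_apply]
      exact hnn _ (hrow r)) |>.1 h1 1 (Finset.mem_univ _)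
  have h3 : rowP (1 : Fin A → Equiv.Perm (Fin G × Bool)) = 1 := rfl
  rw [h3, map_one, Module.End.one_apply, w, Finset.sum_eq_single 1, if_pos rfl] at h2
  · simp [sgn] at h2
  · intro σ _ hσ
    rw [if_neg]
    intro h4
    apply hσ
    refine hone (mat 1) ?_ σ h4
    rintro ⟨i, k, s⟩
    cases s <;> rfl
  · intro h4
    exact absurd (Finset.mem_univ _) h4

end Harm

end Mat

end Pool.Agent.R903
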