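import Pool.Agent.R903.MatBound

/-!
# Relations between matchings for a sum of an even and an odd motive
-/

open CategoryTheory CategoryTheory.Limits AlgebraicGeometry
open Pool.Agent.H914 Pool.Agent.H914.VarClass Pool.Agent.H914.VarClass.Obj
open Pool.Agent.R903.PermCore

universe u v w

namespace Pool.Agent.R903

variable {k : Type u} [Field k] {𝒱 : VarClass k} {C : ChowTheory.{u, v} 𝒱}

namespace Mat

variable {X Y : 𝒱.Obj} {ω γ : C.CH (X.prod X)} {α : Type}

/-- the classes of the pairs, where some of the `ω` are replaced by `γ` -/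
noncomputable def fam2 (hs : C.IsSymmetric ω) (hs' : C.IsSymmetric γ) (z : α → (Y ⟶ X))
    [DecidableEq α] (s : Finset α) : Sym2 α → C.CH Y :=
  Sym2.lift ⟨fun i j => C.pull (lift (z i) (z j)) (if i ∈ s ∨ j ∈ s then γ else ω), fun i j => by
    beta_reduce
    by_cases h : i ∈ s ∨ j ∈ s
    · rw [if_pos h, if_pos h.symm]
      exact symm_pull hs' (z i) (z j)
    · rw [if_neg h, if_neg fun h' => h h'.symm]
      exact symm_pull hs (z i) (z j)⟩

variable [Fintype α] [DecidableEq α]

omit [Fintype α] in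
lemma fam2_mk (hs : C.IsSymmetric ω) (hs' : C.IsSymmetric γ) (z : α → (Y ⟶ X)) (s : Finset α)
    (i j : α) : fam2 hs hs' z s s(i, j) =
      C.pull (lift (z i) (z j)) (if i ∈ s ∨ j ∈ s then γ else ω) := rfl

/-- Relations hold for direct summands. -/
lemma Rel.restrict {hs : C.IsSymmetric ω} (hs' : C.IsSymmetric γ) (h1 : C.comp γ ω = γ)
    (h2 : C.comp γ γ = γ) {v : Matching α → ℚ} (h : Rel C hs v) : Rel C hs' v := by
  have key : ∀ (s : Finset α) (Y : 𝒱.Obj) (z : α → (Y ⟶ X)),
      ∑ m, v m • ∏ e ∈ edges m, fam2 hs hs' z s e = 0 := by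
    intro s
    induction s using Finset.induction_on with
    | empty =>
      intro Y z
      rw [← h Y z]
      refine Finset.sum_congr rfl fun m _ => ?_
      rw [mcl]
      refine congrArg (fun x => v m • x) (Finset.prod_congr rfl fun e _ => ?_)
      induction e using Sym2.ind with
      | _ i j => rw [fam2_mk, fam_mk, if_neg (by simp)]
    | insert j s hj ih =>
      intro Y z
      have h3 := ih (Y.prod X) fun i => if i = j then snd Y X else fst Y X ≫ z i
      have h4 := congrArg (fun x => C.push (fst Y X)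
        (C.pull (lift (fst Y X ≫ z j) (snd Y X)) γ * x)) h3
      simp only [mul_zero, map_zero, Finset.mul_sum, map_sum, mul_smul_comm, map_smul] at h4
      rw [← h4]
      refine Finset.sum_congr rfl fun m _ => ?_
      congr 1
      have hmem : s(j, m.1 j) ∈ edges m := Finset.mem_image.2 ⟨j, Finset.mem_univ j, rfl⟩
      have hmj : m.1 j ≠ j := m.2.2 j
      rw [← Finset.mul_prod_erase (edges m) _ hmem, ← Finset.mul_prod_erase (edges m)
        (fun e => fam2 hs hs' (fun i => if i = j then snd Y X else fst Y X ≫ z i) s e) hmem]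
      have h5 : ∀ e ∈ (edges m).erase s(j, m.1 j),
          fam2 hs hs' (fun i => if i = j then snd Y X else fst Y X ≫ z i) s e =
            C.pull (fst Y X) (fam2 hs hs' z (insert j s) e) := by
        intro e he
        obtain ⟨h6, h7⟩ := Finset.mem_erase.1 he
        obtain ⟨i, -, rfl⟩ := Finset.mem_image.1 h7
        have hi : i ≠ j := by rintro rfl; exact h6 rfl
        have hi' : m.1 i ≠ j := by
          intro h8
          apply h6
          rw [h8, ← h8, m.2.1, Sym2.eq_swap]
        rw [fam2_mk, fam2_mk, if_neg hi, if_neg hi', ← comp_lift, C.pull_comp]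
        simp only [Finset.mem_insert, hi, hi', false_or]
      rw [Finset.prod_congr rfl h5, ← map_prod, fam2_mk, fam2_mk, if_pos rfl, if_neg hmj,
        if_pos (Or.inl (Finset.mem_insert_self j s)), ← mul_assoc, C.push_mul,
        ChowTheory.pull_comp_corr]
      congr 2
      split_ifs
      · exact h2.symm
      · exact h1.symm
  intro Y z
  rw [← key Finset.univ Y z]
  refine Finset.sum_congr rfl fun m _ => ?_
  rw [mcl]
  congr 1
  refine Finset.prod_congr rfl fun e _ => ?_
  induction e using Sym2.ind with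
  | _ i j => rw [fam2_mk, fam_mk, if_pos (Or.inl (Finset.mem_univ _))]

/-- A nonzero relation with a bound implies a nonzero relation with the same bound, on which the
Jucys-Murphy elements are scalars. -/
theorem exists_harmonic_bound (h1 : (1 : C.CH X) ≠ 0) (hω : C.comp ω ω = ω)
    (hs : C.IsSymmetric ω) (ε : ℤˣ) (r : ℕ) (n : ℕ) :
    ∀ (α : Type) [Fintype α] [DecidableEq α], Fintype.card α = n →
      ∀ v : Matching α → ℚ, v ≠ 0 → Rel C hs v → Bound ε r v →
      ∃ (β : Type) (_ : Fintype β) (_ : DecidableEq β) (_ : Nonempty β),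
        ∃ v : Matching β → ℚ, v ∈ relS C hs (C.motDim ω) ∧ v ≠ 0 ∧ Bound ε r v := by
  induction n using Nat.strong_induction_on with
  | _ n ih =>
    intro α _ _ hα v hv hrel hb
    by_cases hJ : IsJM (C.motDim ω) v
    · have hne : Nonempty α := by
        by_contra hne
        rw [not_nonempty_iff] at hne
        apply hv
        funext m
        have h2 := hrel X (fun a => isEmptyElim a)
        rw [Finset.sum_eq_single m (fun m' _ h => absurd (instSubsingleton_of_isEmpty m' m) h)
          (fun h => absurd (Finset.mem_univ m) h)] at h2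
        have h3 : mcl hs (fun a => isEmptyElim a : α → (X ⟶ X)) m = 1 := by
          rw [mcl, edges, Finset.univ_eq_empty, Finset.image_empty, Finset.prod_empty]
        rw [h3] at h2
        exact (smul_eq_zero.1 h2).resolve_right h1
      exact ⟨α, _, _, hne, v, ⟨hrel, hJ⟩, hv, hb⟩
    · simp only [IsJM, not_forall] at hJ
      obtain ⟨q, m, hqm⟩ := hJ
      have hpq : m.1 q ≠ q := m.2.2 q
      obtain ⟨τ, hτ⟩ := ext_surj hpq (m := m) (m.2.1 q)
      have hc : contr (C.motDim ω) hpq v ≠ 0 := by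
        intro h0
        apply hqm
        have h3 := congrFun h0 τ
        rw [contr, hτ, Pi.zero_apply] at h3
        have hp : m.1 q ∈ Finset.univ.erase q := Finset.mem_erase.2 ⟨hpq, Finset.mem_univ _⟩
        have h4 : ∑ r ∈ (Finset.univ.erase q).erase (m.1 q), v (Mat.conj (Equiv.swap q r) m) =
            ∑ r : {x // x ≠ m.1 q ∧ x ≠ q}, v (Mat.conj (Equiv.swap q r) m) :=
          Finset.sum_subtype _ (fun x => by simp) _
        rw [← Finset.add_sum_erase _ _ hp, conj_pair, h4]
        linarith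
      have hcard : Fintype.card {x // x ≠ m.1 q ∧ x ≠ q} < n := by
        rw [← hα]
        exact Fintype.card_subtype_lt (x := q) (by simp)
      exact ih _ hcard _ rfl _ hc (Rel.contr hω hpq hrel) (hb.contr _ hpq)

omit [Fintype α] in
lemma rho_swap_eq {ε : ℤˣ} {v : Matching α → ℚ} {p p' : α} :
    rho (Equiv.swap p p') v = (-((ε : ℤ) : ℚ)) • v ↔
      ∀ m, v (conj (Equiv.swap p p') m) = -((ε : ℤ) : ℚ) * v m := by
  constructor
  · intro h m
    have := congrFun h m
    rwa [rho_swap] at this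
  · intro h
    funext m
    rw [rho_swap, h m]
    rfl

/-- The shape of a relation, with bounds. -/
lemma exists_shape_bound (h1 : (1 : C.CH X) ≠ 0) (hω : C.comp ω ω = ω) (hs : C.IsSymmetric ω)
    (ε : ℤˣ) (r : ℕ) {v : Matching α → ℚ} (hv0 : v ≠ 0) (hv : Rel C hs v) (hb : Bound ε r v) :
    ∃ (β : Type) (_ : Fintype β) (_ : DecidableEq β) (_ : Nonempty β) (a b : ℕ),
      1 ≤ a ∧ 1 ≤ b ∧ Even b ∧ Fintype.card β = a * b ∧ C.motDim ω = a - b + 1 ∧
      (∃ F : Finset β, ∃ v : Matching β → ℚ, Rel C hs v ∧ v ≠ 0 ∧ F.card = a ∧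
        ∀ p ∈ F, ∀ p' ∈ F, p ≠ p' → ∀ m, v (conj (Equiv.swap p p') m) = -v m) ∧
      (∃ F : Finset β, ∃ v : Matching β → ℚ, Rel C hs v ∧ v ≠ 0 ∧ F.card = b ∧
        ∀ p ∈ F, ∀ p' ∈ F, p ≠ p' → ∀ m, v (conj (Equiv.swap p p') m) = v m) ∧
      (ε = 1 → a ≤ r) ∧ (ε = -1 → b ≤ r) := by
  obtain ⟨β, i1, i2, i3, v', hv', hv0', hb'⟩ :=
    exists_harmonic_bound h1 hω hs ε r _ α rfl v hv0 hv hb
  obtain ⟨a, b, ha, hb, hbe, hab, ht, ⟨F, w, hw, hw0, hFa, hF⟩, ⟨F', w', hw', hw0', hFb, hF'⟩,
    -, -⟩ :=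
    core (relS C hs (C.motDim ω) ⊓ boundSub β ε r)
      (fun g v hv => ⟨⟨hv.1.1.conj g, hv.1.2.conj g⟩, Bound.conj hv.2 g⟩)
      (fun v hv => hv.1.2) ⟨v', ⟨hv', hb'⟩, hv0'⟩
  refine ⟨β, i1, i2, i3, a, b, ha, hb, hbe, hab, ht, ⟨F, w, hw.1.1, hw0, hFa, hF⟩,
    ⟨F', w', hw'.1.1, hw0', hFb, hF'⟩, ?_, ?_⟩
  · rintro rfl
    rw [← hFa]
    refine card_le_of_bound (ε := 1) hw.2 hw0 fun p hp p' hp' hpp => ?_
    rw [rho_swap_eq]
    intro m
    rw [hF p hp p' hp' hpp m]
    simp
  · rintro rfl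
    rw [← hFb]
    refine card_le_of_bound (ε := -1) hw'.2 hw0' fun p hp p' hp' hpp => ?_
    rw [rho_swap_eq]
    intro m
    rw [hF' p hp p' hp' hpp m]
    simp

/-- The relation of least size with its bounds. -/
lemma exists_bounds (h1 : (1 : C.CH X) ≠ 0) (hω : C.comp ω ω = ω) (hs : C.IsSymmetric ω) {n : ℕ}
    (h : C.MatchingDependent ω n) :
    ∃ (β : Type) (_ : Fintype β) (_ : DecidableEq β) (a b : ℕ) (v : Matching β → ℚ),
      1 ≤ a ∧ 1 ≤ b ∧ Even b ∧ a * b ≤ 2 * n ∧ C.motDim ω = a - b + 1 ∧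
      v ≠ 0 ∧ Rel C hs v ∧ Bound 1 a v ∧ Bound (-1) b v := by
  obtain ⟨l, hl, v, hv, hr⟩ := (matchingDependent_iff hs).1 h
  obtain ⟨β, i1, i2, i3, h4, v', hv', hv0'⟩ := exists_harmonic h1 hω hs (l + 1) (Fin (l + 1))
    (Fintype.card_fin _) v hv hr
  have hS : ∀ g, ∀ v ∈ relS C hs (C.motDim ω) (α := β), rho g v ∈ relS C hs (C.motDim ω) :=
    fun g v hv => ⟨hv.1.conj g, hv.2.conj g⟩
  obtain ⟨a, b, ha, hb, hbe, hab, ht, -, -, hma, hmb⟩ :=
    core (relS C hs (C.motDim ω)) hS (fun v hv => hv.2) ⟨v', hv', hv0'⟩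
  refine ⟨β, i1, i2, a, b, v', ha, hb, hbe, by omega, ht, hv0', hv'.1, ?_, ?_⟩
  · refine bound_of_max hS (fun F w hw hw0 hF => hma F w hw hw0 fun p hp p' hp' hpp m => ?_) hv'
    have := (rho_swap_eq.1 (hF p hp p' hp' hpp)) m
    rw [this]
    simp
  · refine bound_of_max hS (fun F w hw hw0 hF => hmb F w hw hw0 fun p hp p' hp' hpp m => ?_) hv'
    have := (rho_swap_eq.1 (hF p hp p' hp' hpp)) m
    rw [this]
    simp

end Mat

namespace ChowTheory

variable {X : 𝒱.Obj} {e f : C.CH (X.prod X)}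

lemma isSymmetric_add (he : C.IsSymmetric e) (hf : C.IsSymmetric f) : C.IsSymmetric (e + f) := by
  rw [IsSymmetric, map_add]
  rw [IsSymmetric] at he hf
  rw [he, hf]

/-- One relation between few products of disjoint diagonals implies finite-dimensionality. -/
theorem even_odd_of_matchings (hP : C.Polarized) (he : C.comp e e = e) (hf : C.comp f f = f)
    (hef : C.comp e f = 0) (hfe : C.comp f e = 0) (hes : C.IsSymmetric e)
    (hfs : C.IsSymmetric f) {a g : ℕ} (hea : C.motDim e = a) (hfg : C.motDim f = -2 * g)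
    (h : ∃ n < (a + 3) * (g + 2), C.MatchingDependent (e + f) n) :
    C.ExtVanishes e (a + 1) ∧ C.SymVanishes f (2 * g + 1) := by
  obtain ⟨n, hn, hd⟩ := h
  have h1 := one_ne_zero_of_polarized hP X
  have hs := isSymmetric_add hes hfs
  have hω : C.comp (e + f) (e + f) = e + f := by
    rw [C.add_comp, C.comp_add, C.comp_add, he, hef, hfe, hf, add_zero, zero_add]
  have heω : C.comp e (e + f) = e := by rw [C.comp_add, he, hef, add_zero]
  have hfω : C.comp f (e + f) = f := by rw [C.comp_add, hfe, hf, zero_add]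
  have ht : C.motDim (e + f) = a - 2 * g := by
    have : C.motDim (e + f) = C.motDim e + C.motDim f := by
      simp only [motDim, map_add]
    rw [this, hea, hfg]
    ring
  obtain ⟨β, i1, i2, A, B, v, hA, hB, hBe, hAB, hAt, hv0, hv, hbA, hbB⟩ :=
    Mat.exists_bounds h1 hω hs hd
  have hAB' : A + 2 * g + 1 = B + a := by
    rw [ht] at hAt
    have : ((A + 2 * g + 1 : ℕ) : ℚ) = ((B + a : ℕ) : ℚ) := by
      push_cast
      linarith
    exact_mod_cast this
  have hAa : A ≤ a + 1 := by
    by_contra hc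
    have h2 : a + 3 ≤ A := by
      obtain ⟨r, hr⟩ := hBe
      omega
    have h3 : 2 * g + 4 ≤ B := by omega
    have h4 : (a + 3) * (2 * g + 4) ≤ A * B := Nat.mul_le_mul h2 h3
    have h5 : (a + 3) * (2 * g + 4) = 2 * ((a + 3) * (g + 2)) := by ring
    omega
  have hBg : B ≤ 2 * g + 2 := by omega
  constructor
  · obtain ⟨β', j1, j2, j3, A', B', hA', hB', hBe', hAB1, hAt', ⟨F, w, hw, hw0, hF, hFw⟩, -, hle,
      -⟩ := Mat.exists_shape_bound h1 he hes 1 A hv0 (hv.restrict hes heω he) hbA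
    have hAA := hle rfl
    have h2 : A' + 1 = B' + a := by
      rw [hea] at hAt'
      have : ((A' + 1 : ℕ) : ℚ) = ((B' + a : ℕ) : ℚ) := by
        push_cast
        linarith
      exact_mod_cast this
    have hB2 : B' = 2 := by
      obtain ⟨r, hr⟩ := hBe'
      omega
    have hA2 : A' = a + 1 := by omega
    have h3 := Mat.permDependent_of_mixed (by rw [hAB1, hF, hB2, mul_comm]) hw hw0
      fun m hm p hp hq => by
        apply hm
        have h4 := hFw p hp _ hq (m.2.2 p).symm m
        rw [Mat.conj_pair] at h4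
        linarith
    rw [hF, hA2] at h3
    have h4 : ∃ m : ℕ, (m : ℚ) ≤ 2 * C.motDim e + 3 ∧ C.PermDependent e m := by
      refine ⟨a + 1, ?_, h3⟩
      rw [hea]
      push_cast
      have : (0 : ℚ) ≤ a := by positivity
      linarith
    obtain ⟨N, hN, hext⟩ := (ext_iff hP he).1 h4
    have h5 : N = a + 1 := by
      rw [hea] at hN
      exact_mod_cast hN
    rwa [h5] at hext
  · obtain ⟨β', j1, j2, j3, A', B', hA', hB', hBe', hAB1, hAt', -, ⟨F, w, hw, hw0, hF, hFw⟩, -,
      hle⟩ := Mat.exists_shape_bound h1 hf hfs (-1) B hv0 (hv.restrict hfs hfω hf) hbB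
    have hBB := hle rfl
    have h2 : A' + 2 * g + 1 = B' := by
      rw [hfg] at hAt'
      have : ((A' + 2 * g + 1 : ℕ) : ℚ) = ((B' : ℕ) : ℚ) := by
        push_cast
        linarith
      exact_mod_cast this
    have hA2 : A' = 1 := by omega
    subst hA2
    rw [one_mul] at hAB1
    have h3 := Mat.rel_one hfs hAB1 hw hw0 hF hFw
    have h4 : C.PermDependent f (2 * g + 1) :=
      Mat.permDependent_of_all hfs ⟨g, rfl⟩ fun γ _ _ hγ => Mat.rel_one_all h3 (by omega)
    have h5 : ∃ m : ℕ, (m : ℚ) ≤ -2 * C.motDim f + 3 ∧ C.PermDependent f m := by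
      refine ⟨2 * g + 1, ?_, h4⟩
      rw [hfg]
      push_cast
      have : (0 : ℚ) ≤ g := by positivity
      linarith
    obtain ⟨N, hN, hsym⟩ := (sym_iff hP hf).1 h5
    have h6 : N = 2 * g + 1 := by
      rw [hfg] at hN
      have : (N : ℚ) = ((2 * g + 1 : ℕ) : ℚ) := by
        push_cast
        linarith
      exact_mod_cast this
    rwa [h6] at hsym

end ChowTheory

end Pool.Agent.R903
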