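import Pool.Agent.R903.MatGen
import Pool.Agent.R903.MatSum

/-!
# Families of cycles and the symmetrization over points
-/

open CategoryTheory CategoryTheory.Limits AlgebraicGeometry
open Pool.Agent.H914 Pool.Agent.H914.VarClass Pool.Agent.H914.VarClass.Obj
open Pool.Agent.R903.PermCore

universe u v w

namespace Pool.Agent.R903

variable {k : Type u} [Field k] {𝒱 : VarClass k} {C : ChowTheory.{u, v} 𝒱}

namespace Mat

/-- Families of cycles depending on points of `X` indexed by `α`. -/
abbrev Fam (C : ChowTheory.{u, v} 𝒱) (X : 𝒱.Obj) (α : Type) :=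
  (Y : 𝒱.Obj) → (α → (Y ⟶ X)) → C.CH Y

variable {X : 𝒱.Obj} {α : Type}

/-- the action of the permutations -/
def rhoV : Equiv.Perm α →* Module.End ℚ (Fam C X α) where
  toFun g :=
    { toFun := fun Φ Y z => Φ Y fun i => z (g i)
      map_add' := fun _ _ => rfl
      map_smul' := fun _ _ => rfl }
  map_one' := rfl
  map_mul' _ _ := rfl

lemma rhoV_apply (g : Equiv.Perm α) (Φ : Fam C X α) (Y : 𝒱.Obj) (z : α → (Y ⟶ X)) :
    rhoV g Φ Y z = Φ Y fun i => z (g i) := rfl

variable [DecidableEq α]

/-- The family `Φ` is invariant under the composition with `c` at the point `j`. -/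
def Tinv (c : C.CH (X.prod X)) (Φ : Fam C X α) (j : α) : Prop :=
  ∀ (Y : 𝒱.Obj) (z : α → (Y ⟶ X)) (x : Y ⟶ X),
    C.push (fst Y X) (C.pull (lift (fst Y X ≫ x) (snd Y X)) c *
      Φ (Y.prod X) (Function.update (fun i => fst Y X ≫ z i) j (snd Y X))) =
      Φ Y (Function.update z j x)

lemma chi_inv {κ : Type} [Fintype κ] [DecidableEq κ] (ε : ℤˣ) (g : Equiv.Perm κ) :
    chi ε g⁻¹ = chi ε g := by
  rw [chi, chi, Equiv.Perm.sign_inv]

/-- The (anti)symmetrization over `N` points is zero if the `N`-th exterior or symmetric power is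
zero. -/
theorem kill {c : C.CH (X.prod X)} {N : ℕ} {ε : ℤˣ} (hc : C.PermRel c N (chi ε))
    {Φ : Fam C X α} {ι : Fin N ↪ α} (hΦ : ∀ i, Tinv c Φ (ι i)) :
    ∑ g : Equiv.Perm (Fin N), chi ε g • rhoV (g.viaEmbedding ι) Φ = 0 := by
  have key : ∀ (s : Finset (Fin N)) (Y : 𝒱.Obj) (z : α → (Y ⟶ X)) (y : Fin N → (Y ⟶ X)),
      ∑ g : Equiv.Perm (Fin N), chi ε g •
        ((∏ i ∈ sᶜ, C.pull (lift (z (ι (g i))) (y i)) c) *
          Φ Y (Function.extend ι (fun i => if i ∈ s then z (ι (g i)) else y i) z)) = 0 := by
    intro s
    induction s using Finset.induction_on with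
    | empty =>
      intro Y z y
      simp only [Finset.notMem_empty, if_false, Finset.compl_empty, ← smul_mul_assoc,
        ← Finset.sum_mul]
      have h1 := hc Y (fun i => z (ι i)) y
      rw [← Equiv.sum_comp (Equiv.inv (Equiv.Perm (Fin N)))] at h1
      have h2 : ∑ g : Equiv.Perm (Fin N), chi ε g •
          ∏ i, C.pull (lift (z (ι (g i))) (y i)) c = 0 := by
        rw [← h1]
        refine Finset.sum_congr rfl fun g _ => ?_
        rw [Equiv.inv_apply, chi_inv]
        congr 1
        rw [← Equiv.prod_comp g (fun i => C.pull (lift (z (ι i)) (y (g⁻¹ i))) c)]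
        refine Finset.prod_congr rfl fun i _ => ?_
        rw [show g⁻¹ (g i) = i from g.symm_apply_apply i]
      rw [h2, zero_mul]
    | insert j s hj ih =>
      intro Y z y
      have h1 := ih (Y.prod X) (fun i => fst Y X ≫ z i)
        (Function.update (fun i => fst Y X ≫ y i) j (snd Y X))
      have h2 := congrArg (C.push (fst Y X)) h1
      simp only [map_zero, map_sum, map_smul] at h2
      rw [← h2]
      refine Finset.sum_congr rfl fun g _ => ?_
      congr 1
      have hjs : j ∈ sᶜ := Finset.mem_compl.2 hj
      have e1 : (insert j s)ᶜ = sᶜ.erase j := by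
        ext i
        simp only [Finset.mem_compl, Finset.mem_insert, Finset.mem_erase, not_or]
      have e2 : ∀ i ∈ sᶜ.erase j, C.pull (lift (fst Y X ≫ z (ι (g i)))
          (Function.update (fun i => fst Y X ≫ y i) j (snd Y X) i)) c =
          C.pull (fst Y X) (C.pull (lift (z (ι (g i))) (y i)) c) := by
        intro i hi
        rw [Function.update_of_ne (Finset.mem_erase.1 hi).1, ← comp_lift, C.pull_comp]
      rw [← Finset.mul_prod_erase sᶜ _ hjs, Finset.prod_congr rfl e2, ← map_prod,
        Function.update_self, e1]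
      set z' : α → (Y ⟶ X) :=
        Function.extend ι (fun i => if i ∈ insert j s then z (ι (g i)) else y i) z with hz'
      have e3 : Function.extend ι (fun i => if i ∈ s then fst Y X ≫ z (ι (g i)) else
          Function.update (fun i => fst Y X ≫ y i) j (snd Y X) i) (fun i => fst Y X ≫ z i) =
          Function.update (fun i => fst Y X ≫ z' i) (ι j) (snd Y X) := by
        funext a
        by_cases ha : ∃ i, ι i = a
        · obtain ⟨i, rfl⟩ := ha
          rw [ι.injective.extend_apply]
          by_cases hij : i = j
          · subst hij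
            rw [if_neg hj, Function.update_self, Function.update_self]
          · rw [Function.update_of_ne hij, Function.update_of_ne
              (fun h => hij (ι.injective h)), hz', ι.injective.extend_apply]
            by_cases his : i ∈ s
            · rw [if_pos his, if_pos (Finset.mem_insert_of_mem his)]
            · rw [if_neg his, if_neg fun h => (Finset.mem_insert.1 h).elim hij his]
        · rw [Function.extend_apply' _ _ _ ha, Function.update_of_ne, hz',
            Function.extend_apply' _ _ _ ha]
          rintro rfl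
          exact ha ⟨j, rfl⟩
      rw [e3]
      have e4 := hΦ j Y z' (z (ι (g j)))
      have e5 : Function.update z' (ι j) (z (ι (g j))) = z' := by
        rw [Function.update_eq_self_iff, hz', ι.injective.extend_apply,
          if_pos (Finset.mem_insert_self j s)]
      rw [e5] at e4
      rw [← e4]
      rw [mul_right_comm, C.push_mul, mul_comm]
  funext Y z
  have h1 := key Finset.univ Y z (fun i => z (ι i))
  rw [Finset.sum_apply, Finset.sum_apply]
  change _ = (0 : C.CH Y)
  rw [← h1]
  refine Finset.sum_congr rfl fun g _ => ?_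
  rw [Finset.compl_univ, Finset.prod_empty, one_mul]
  change chi ε g • Φ Y _ = _
  congr 2
  funext a
  by_cases ha : ∃ i, ι i = a
  · obtain ⟨i, rfl⟩ := ha
    rw [Equiv.Perm.viaEmbedding_apply, ι.injective.extend_apply, if_pos (Finset.mem_univ i)]
  · rw [Equiv.Perm.viaEmbedding_apply_of_notMem _ _ _ ha, Function.extend_apply' _ _ _ ha]

end Mat

end Pool.Agent.R903
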