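import Pool.Agent.R903.MatStab

/-!
# Linear relations between perfect matchings and finite-dimensionality
-/

open CategoryTheory CategoryTheory.Limits AlgebraicGeometry
open Pool.Agent.H914 Pool.Agent.H914.VarClass Pool.Agent.H914.VarClass.Obj
open Pool.Agent.R903.PermCore

universe u v w

namespace Pool.Agent.R903

variable {k : Type u} [Field k] {𝒱 : VarClass k} {C : ChowTheory.{u, v} 𝒱}

namespace Mat

variable {X : 𝒱.Obj} {ω : C.CH (X.prod X)}

/-- The shape of a relation between matchings of least size. -/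
lemma exists_shape (h1 : (1 : C.CH X) ≠ 0) (hω : C.comp ω ω = ω) (hs : C.IsSymmetric ω) {n : ℕ}
    (h : C.MatchingDependent ω n) :
    ∃ (β : Type) (_ : Fintype β) (_ : DecidableEq β) (_ : Nonempty β) (a b : ℕ),
      Fintype.card β ≤ 2 * n ∧ 1 ≤ a ∧ 1 ≤ b ∧ Even b ∧ Fintype.card β = a * b ∧
      C.motDim ω = a - b + 1 ∧
      (∃ F : Finset β, ∃ v : Matching β → ℚ, Rel C hs v ∧ v ≠ 0 ∧ F.card = a ∧
        ∀ p ∈ F, ∀ p' ∈ F, p ≠ p' → ∀ m, v (conj (Equiv.swap p p') m) = -v m) ∧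
      ∃ F : Finset β, ∃ v : Matching β → ℚ, Rel C hs v ∧ v ≠ 0 ∧ F.card = b ∧
        ∀ p ∈ F, ∀ p' ∈ F, p ≠ p' → ∀ m, v (conj (Equiv.swap p p') m) = v m := by
  obtain ⟨l, hl, v, hv, hr⟩ := (matchingDependent_iff hs).1 h
  obtain ⟨β, i1, i2, i3, h4, v', hv', hv0'⟩ := exists_harmonic h1 hω hs (l + 1) (Fin (l + 1))
    (Fintype.card_fin _) v hv hr
  obtain ⟨a, b, ha, hb, hbe, hab, ht, ⟨F, w, hw, h5⟩, ⟨F', w', hw', h6⟩, -, -⟩ :=
    core (relS C hs (C.motDim ω)) (fun g v hv => ⟨hv.1.conj g, hv.2.conj g⟩)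
      (fun v hv => hv.2) ⟨v', hv', hv0'⟩
  exact ⟨β, i1, i2, i3, a, b, by omega, ha, hb, hbe, hab, ht, ⟨F, w, hw.1, h5⟩,
    ⟨F', w', hw'.1, h6⟩⟩

/-- A relation between few matchings implies a relation between permutations, in the even case. -/
lemma permDependent_even (h1 : (1 : C.CH X) ≠ 0) (hω : C.comp ω ω = ω) (hs : C.IsSymmetric ω)
    {n : ℕ} (hn : (n : ℚ) ≤ 2 * C.motDim ω + 5) (h : C.MatchingDependent ω n) :
    ∃ m : ℕ, (m : ℚ) ≤ 2 * C.motDim ω + 3 ∧ C.PermDependent ω m := by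
  obtain ⟨β, i1, i2, i3, a, b, h2, ha, hb, hbe, hab, ht, ⟨F, v, hv, hv0, hF, hFv⟩, -⟩ :=
    exists_shape h1 hω hs h
  have hb2 : b = 2 := by
    have h3 : b < 4 := by
      by_contra hc
      have hc' : (4 : ℚ) ≤ b := by exact_mod_cast (not_lt.1 hc)
      have ha' : (1 : ℚ) ≤ a := by exact_mod_cast ha
      have h4 : ((a * b : ℕ) : ℚ) ≤ ((2 * n : ℕ) : ℚ) := by
        rw [← hab]; exact_mod_cast h2
      push_cast at h4
      rw [ht] at hn
      nlinarith
    obtain ⟨r, hr⟩ := hbe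
    omega
  subst hb2
  have h3 := permDependent_of_mixed (by rw [hab, hF, mul_comm]) hv hv0 fun m hm p hp hq => by
    apply hm
    have h4 := hFv p hp _ hq (m.2.2 p).symm m
    rw [conj_pair] at h4
    linarith
  rw [hF] at h3
  refine ⟨a, ?_, h3⟩
  have ha' : (1 : ℚ) ≤ a := by exact_mod_cast ha
  rw [ht]
  push_cast
  linarith

/-- A relation of the least possible size, in the odd case. -/
lemma rel_one {β : Type} [Fintype β] [DecidableEq β] [Nonempty β]
    (hs : C.IsSymmetric ω) {b : ℕ} (hab : Fintype.card β = b) {F : Finset β}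
    {v : Matching β → ℚ} (hv : Rel C hs v) (hv0 : v ≠ 0) (hF : F.card = b)
    (hFv : ∀ p ∈ F, ∀ p' ∈ F, p ≠ p' → ∀ m, v (conj (Equiv.swap p p') m) = v m) :
    Rel C hs fun _ : Matching β => (1 : ℚ) := by
  have hFu : F = Finset.univ := by
    rw [← Finset.card_eq_iff_eq_univ, hF, hab]
  have hinv := invariant_of_swap (v := v) fun x y hxy m =>
    hFv x (by rw [hFu]; exact Finset.mem_univ _) y (by rw [hFu]; exact Finset.mem_univ _) hxy m
  obtain ⟨m₀, hm₀⟩ : ∃ m₀, v m₀ ≠ 0 := by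
    by_contra hc
    push Not at hc
    exact hv0 (funext hc)
  have hconst : v = fun _ => v m₀ := by
    funext m
    obtain ⟨g, hg⟩ := exists_conj m₀ m
    rw [← hg, hinv]
  have h1 := (relSub C hs).smul_mem (v m₀)⁻¹ hv
  have h2 : (v m₀)⁻¹ • v = fun _ => 1 := by
    rw [hconst]
    funext m
    rw [Pi.smul_apply, smul_eq_mul, inv_mul_cancel₀ hm₀]
  rwa [h2] at h1

/-- the sum over all matchings -/
lemma rel_one_iff (hs : C.IsSymmetric ω) {l : ℕ} :
    (Rel C hs fun _ : Matching (Fin (l + 1)) => (1 : ℚ)) ↔ ∑ m, C.matchingClass ω l m = 0 := by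
  rw [rel_iff hs]
  simp only [one_smul]

lemma rel_one_all {hs : C.IsSymmetric ω} {β γ : Type} [Fintype β] [DecidableEq β] [Fintype γ]
    [DecidableEq γ] (h : Rel C hs fun _ : Matching β => (1 : ℚ))
    (hc : Fintype.card β = Fintype.card γ) : Rel C hs fun _ : Matching γ => (1 : ℚ) :=
  h.map (Fintype.equivOfCardEq hc)

end Mat

namespace ChowTheory

variable {X : 𝒱.Obj} {ω : C.CH (X.prod X)}

/-- A symmetric motive is evenly finite-dimensional if and only if there is a linear relation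
between few perfect matchings. -/
theorem ext_matching_tfae (hP : C.Polarized) (hω : C.comp ω ω = ω) (hs : C.IsSymmetric ω) :
    List.TFAE [∃ m, C.ExtVanishes ω m,
      ∃ N : ℕ, (N : ℚ) = C.motDim ω + 1 ∧ C.ExtVanishes ω N,
      ∃ n : ℕ, (n : ℚ) ≤ 2 * C.motDim ω + 5 ∧ C.MatchingDependent ω n] := by
  have h0 := ext_tfae hP hω
  have h1 := one_ne_zero_of_polarized hP X
  tfae_have 1 ↔ 2 := h0.out 0 1
  tfae_have 3 → 1 := by
    rintro ⟨n, hn, hd⟩
    exact (h0.out 2 0).1 (Mat.permDependent_even h1 hω hs hn hd)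
  tfae_have 2 → 3 := by
    rintro ⟨N, hN, h2⟩
    obtain ⟨h3, h4⟩ := extVanishes_iff.1 h2
    refine ⟨N, ?_, Mat.matchingDependent_of_perm hs
      (permDependent_iff.2 ⟨h3, _, chi_ne_zero, h4⟩)⟩
    have h5 : (1 : ℚ) ≤ N := by exact_mod_cast h3
    linarith
  tfae_finish

/-- A symmetric motive is oddly finite-dimensional if and only if there is a linear relation
between few perfect matchings. -/
theorem sym_matching_tfae (hP : C.Polarized) (hω : C.comp ω ω = ω) (hs : C.IsSymmetric ω) :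
    List.TFAE [∃ m, C.SymVanishes ω m,
      ∃ N : ℕ, (N : ℚ) = -C.motDim ω + 1 ∧ C.SymVanishes ω N,
      ∃ g : ℕ, C.motDim ω = -2 * g ∧ ∑ m, C.matchingClass ω (2 * g + 1) m = 0,
      ∃ g : ℕ, C.motDim ω = -2 * g ∧ ∃ n ≤ 3 * g + 5, C.MatchingDependent ω n,
      ∃ n : ℕ, (n : ℚ) ≤ 2 - C.motDim ω ∧ C.MatchingDependent ω n] := by
  have h0 := sym_tfae hP hω
  have h1 := one_ne_zero_of_polarized hP X
  tfae_have 1 ↔ 2 := h0.out 0 1
  tfae_have 2 → 5 := by
    rintro ⟨N, hN, h2⟩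
    obtain ⟨h3, h4⟩ := symVanishes_iff.1 h2
    refine ⟨N, by linarith, Mat.matchingDependent_of_perm hs
      (permDependent_iff.2 ⟨h3, _, chi_ne_zero, h4⟩)⟩
  tfae_have 5 → 4 := by
    rintro ⟨n, hn, hd⟩
    obtain ⟨β, i1, i2, i3, a, b, h2, ha, hb, hbe, hab, ht, -, -⟩ := Mat.exists_shape h1 hω hs hd
    have ha1 : a = 1 := by
      by_contra hc
      have ha' : (2 : ℚ) ≤ a := by
        have : 2 ≤ a := by omega
        exact_mod_cast this
      have hb' : (1 : ℚ) ≤ b := by exact_mod_cast hb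
      have h4 : ((a * b : ℕ) : ℚ) ≤ ((2 * n : ℕ) : ℚ) := by
        rw [← hab]; exact_mod_cast h2
      push_cast at h4
      rw [ht] at hn
      nlinarith
    subst ha1
    obtain ⟨r, hr⟩ := hbe
    have hr1 : 1 ≤ r := by omega
    refine ⟨r - 1, ?_, n, ?_, hd⟩
    · rw [ht, hr]
      push_cast [hr1]
      ring
    · rw [ht, hr] at hn
      push_cast at hn
      have h5 : (n : ℚ) ≤ ((2 * r : ℕ) : ℚ) := by push_cast; linarith
      have h6 : n ≤ 2 * r := by exact_mod_cast h5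
      omega
  tfae_have 4 → 3 := by
    rintro ⟨g, hg, n, hn, hd⟩
    obtain ⟨β, i1, i2, i3, a, b, h2, ha, hb, hbe, hab, ht, -, ⟨F, v, hv, hv0, hF, hFv⟩⟩ :=
      Mat.exists_shape h1 hω hs hd
    have hab' : b = a + 2 * g + 1 := by
      have : (b : ℚ) = ((a + 2 * g + 1 : ℕ) : ℚ) := by
        push_cast
        linarith
      exact_mod_cast this
    have ha1 : a = 1 := by
      by_contra hc
      have ha3 : 3 ≤ a := by
        obtain ⟨r, hr⟩ := hbe
        omega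
      have h4 : a * b ≤ 2 * n := by rw [← hab]; exact h2
      rw [hab'] at h4
      nlinarith
    subst ha1
    rw [one_mul] at hab
    have h3 := Mat.rel_one hs hab hv hv0 hF hFv
    refine ⟨g, hg, (Mat.rel_one_iff hs).1 (Mat.rel_one_all h3 ?_)⟩
    rw [hab, hab', Fintype.card_fin]
    ring
  tfae_have 3 → 1 := by
    rintro ⟨g, hg, h2⟩
    have h3 := (Mat.rel_one_iff hs).2 h2
    have h4 : C.PermDependent ω (2 * g + 1) := by
      refine Mat.permDependent_of_all hs ⟨g, rfl⟩ fun γ _ _ hγ => Mat.rel_one_all h3 ?_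
      rw [hγ, Fintype.card_fin]
    have h5 : ((2 * g + 1 : ℕ) : ℚ) ≤ -2 * C.motDim ω + 3 := by
      rw [hg]
      push_cast
      have hg0 : (0 : ℚ) ≤ g := by positivity
      linarith
    have h7 : ∃ m : ℕ, (m : ℚ) ≤ -2 * C.motDim ω + 3 ∧ C.PermDependent ω m := ⟨_, h5, h4⟩
    exact (h0.out 2 0).1 h7
  tfae_finish

/-- A direct sum of symmetric motives, each of which has a linear relation between few perfect
matchings, is Kimura finite-dimensional. -/
theorem kimuraFinite_of_matchings (hP : C.Polarized) {J : Type*} [Fintype J]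
    {p : J → C.CH (X.prod X)} (hp : ∀ j, p j ∈ C.gr (X.prod X) X.dim)
    (hidem : ∀ j, C.comp (p j) (p j) = p j) (horth : ∀ i j, i ≠ j → C.comp (p i) (p j) = 0)
    (hs : ∀ j, C.IsSymmetric (p j))
    (hrel : ∀ j, ∃ n : ℕ, C.MatchingDependent (p j) n ∧ ((n : ℚ) ≤ 2 * C.motDim (p j) + 5 ∨
      (n : ℚ) ≤ 2 - C.motDim (p j) ∨ ∃ g : ℕ, C.motDim (p j) = -2 * g ∧ n ≤ 3 * g + 5)) :
    C.KimuraFinite (∑ j, p j) := by
  refine kimuraFinite_of_relations hP hp hidem horth fun j => ?_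
  have hext : (∃ m : ℕ, (m : ℚ) ≤ 2 * C.motDim (p j) + 3 ∧ C.PermDependent (p j) m) →
      ∃ m : ℕ, (m : ℚ) ≤ 2 * |C.motDim (p j)| + 3 ∧ C.PermDependent (p j) m := by
    rintro ⟨m, h1, h2⟩
    exact ⟨m, h1.trans (by linarith [le_abs_self (C.motDim (p j))]), h2⟩
  have hsym : (∃ m, C.SymVanishes (p j) m) →
      ∃ m : ℕ, (m : ℚ) ≤ 2 * |C.motDim (p j)| + 3 ∧ C.PermDependent (p j) m := by
    intro h
    obtain ⟨m, h1, h2⟩ := ((sym_tfae hP (hidem j)).out 0 2).1 h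
    exact ⟨m, h1.trans (by linarith [neg_le_abs (C.motDim (p j))]), h2⟩
  obtain ⟨n, hd, hn | hn | ⟨g, hg, hn⟩⟩ := hrel j
  · exact hext (Mat.permDependent_even (one_ne_zero_of_polarized hP X) (hidem j) (hs j) hn hd)
  · have h : ∃ n : ℕ, (n : ℚ) ≤ 2 - C.motDim (p j) ∧ C.MatchingDependent (p j) n := ⟨n, hn, hd⟩
    exact hsym (((sym_matching_tfae hP (hidem j) (hs j)).out 4 0).1 h)
  · have h : ∃ g : ℕ, C.motDim (p j) = -2 * g ∧ ∃ n ≤ 3 * g + 5, C.MatchingDependent (p j) n :=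
      ⟨g, hg, n, hn, hd⟩
    exact hsym (((sym_matching_tfae hP (hidem j) (hs j)).out 3 0).1 h)

end ChowTheory

end Pool.Agent.R903
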