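import Pool.Agent.R903.MatCol

/-!
# Contractions of coloured matchings
-/

open CategoryTheory CategoryTheory.Limits AlgebraicGeometry
open Pool.Agent.H914 Pool.Agent.H914.VarClass Pool.Agent.H914.VarClass.Obj
open Pool.Agent.R903.PermCore

universe u v w

namespace Pool.Agent.R903

variable {k : Type u} [Field k] {𝒱 : VarClass k} {C : ChowTheory.{u, v} 𝒱}

namespace Mat

variable {X Y : 𝒱.Obj} {e f : C.CH (X.prod X)} {α : Type} [Fintype α] [DecidableEq α]

lemma map_gcl {R R' : Type*} [CommMonoid R] [CommMonoid R'] (φ : R →* R') {c : α → α → R}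
    {hc : ∀ i j, c i j = c j i} {c' : α → α → R'} {hc' : ∀ i j, c' i j = c' j i} (m : Matching α)
    (h : ∀ i j, φ (c i j) = c' i j) : φ (gcl c hc m) = gcl c' hc' m := by
  rw [gcl, gcl, map_prod]
  refine Finset.prod_congr rfl fun e _ => ?_
  induction e using Sym2.ind with
  | _ i j => rw [gfam_mk, gfam_mk, h]

/-- the coloured contraction of the pair `{p, q}` -/
def contrc (t : ℚ) {p q : α} (hpq : p ≠ q) (χ : α → Bool) (b : Bool) (v : Matching α → ℚ)
    (τ : Matching {x // x ≠ p ∧ x ≠ q}) : ℚ :=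
  t * v (ext hpq τ) + ∑ r : {x // x ≠ p ∧ x ≠ q},
    if χ r = b then v (conj (Equiv.swap q r) (ext hpq τ)) else 0

lemma push_fml (h : IsPair C e f) {p q : α} (hpq : p ≠ q) {χ : α → Bool} {b : Bool}
    (hp : χ p = b) (hq : χ q = b) (v : Matching α → ℚ) (z : {x // x ≠ p ∧ x ≠ q} → (Y ⟶ X)) :
    C.push (fst Y X) (fml h (fun i => some (χ i)) v (Y.prod X)
      (fun i => if h : i ≠ p ∧ i ≠ q then fst Y X ≫ z ⟨i, h⟩ else snd Y X)) =
      ∑ τ, contrc (C.motDim (col e f b)) hpq χ b v τ •
        kcl h (fun x : {x // x ≠ p ∧ x ≠ q} => some (χ x)) z τ := by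
  set z' : α → (Y.prod X ⟶ X) :=
    fun i => if h : i ≠ p ∧ i ≠ q then fst Y X ≫ z ⟨i, h⟩ else snd Y X with hz'
  have hzp : z' p = snd Y X := dif_neg (by simp)
  have hzq : z' q = snd Y X := dif_neg (by simp)
  have hzr : ∀ r : {x // x ≠ p ∧ x ≠ q}, z' r = fst Y X ≫ z r := fun r => dif_pos r.2
  rw [fml, sum_build hpq, map_sum]
  refine Finset.sum_congr rfl fun τ _ => ?_
  rw [Mat.contrc, add_smul, map_add, mul_smul, Finset.sum_smul, map_sum]
  congr 1
  · rw [map_smul, smul_comm, kcl, gcl_ext]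
    rw [← map_gcl (c := pc e f (fun x : {x // x ≠ p ∧ x ≠ q} => some (χ x)) z)
      (hc := pc_comm h _ z)
      ((C.pull (fst Y X) : C.CH Y →+* C.CH (Y.prod X)) : C.CH Y →* C.CH (Y.prod X)) τ
      (fun i j => by
        rw [pc, pc, hzr, hzr, ← comp_lift, C.pull_comp]
        rfl)]
    rw [pc, hzp, hzq, hp, hq]
    erw [C.push_mul]
    have h3 : (lift (snd Y X) (snd Y X) : Y.prod X ⟶ X.prod X) = snd Y X ≫ diag X := by
      apply hom_ext_prod <;> simp
    have h4 : cm e f (some b) (some b) = col e f b := by simp only [cm, if_true]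
    rw [h3, h4, C.pull_comp, ChowTheory.push_fst_pull_snd, Algebra.smul_def (C.motDim _)]
    rfl
  · refine Finset.sum_congr rfl fun r _ => ?_
    have hpr : p ≠ r := r.2.1.symm
    have hqr : q ≠ r := r.2.2.symm
    have e1 : (Equiv.swap q (r : α)) p = p := Equiv.swap_apply_of_ne_of_ne hpq hpr
    have e2 : ((τ.1 r : {x // x ≠ p ∧ x ≠ q}) : α) ≠ r := fun h => τ.2.2 r (Subtype.ext h)
    rw [map_smul, kcl, gcl_conj, gcl_ext, gcl_eq_rest _ _ τ r, kcl, gcl_eq_rest _ _ τ r]
    rw [← grest_congr (c := pc e f (fun x : {x // x ≠ p ∧ x ≠ q} => some (χ x)) z)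
      (hc := pc_comm h _ z) (m := τ) (r := r)
      ((C.pull (fst Y X) : C.CH Y →+* C.CH (Y.prod X)) : C.CH Y →* C.CH (Y.prod X))
      (fun i j hi _ hj _ => by
        rw [pc, pc, Equiv.swap_apply_of_ne_of_ne i.2.2 (fun h => hi (Subtype.ext h)),
          Equiv.swap_apply_of_ne_of_ne j.2.2 (fun h => hj (Subtype.ext h)),
          hzr, hzr, ← comp_lift, C.pull_comp]
        rfl)]
    rw [e1, Equiv.swap_apply_left, Equiv.swap_apply_right,
      Equiv.swap_apply_of_ne_of_ne (τ.1 r).2.2 e2, pc_comm h _ _ p r]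
    rw [pc, pc, pc, hzp, hzq, hzr, hzr, hp, hq, ← mul_assoc]
    erw [C.push_mul]
    rw [ChowTheory.pull_comp_corr, cm_comm (some (χ r)) (some b), comp_cm_cm h]
    split_ifs with h5
    · rfl
    · rw [map_zero, zero_mul, smul_zero, zero_smul]

lemma contrc_eq (t : ℚ) {p q : α} (hpq : p ≠ q) (χ : α → Bool) (b : Bool) (v : Matching α → ℚ)
    (τ : Matching {x // x ≠ p ∧ x ≠ q}) : contrc t hpq χ b v τ = t * v (ext hpq τ) +
      ∑ r ∈ (Finset.univ.filter (fun r => r ≠ q ∧ χ r = b)).erase p,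
        v (conj (Equiv.swap q r) (ext hpq τ)) := by
  have h1 : (Finset.univ.filter (fun r => r ≠ q ∧ χ r = b)).erase p =
      ((Finset.univ.erase p).erase q).filter (fun r => χ r = b) := by
    ext r
    simp only [Finset.mem_erase, Finset.mem_filter, Finset.mem_univ, true_and, and_true]
    tauto
  rw [contrc, h1, Finset.sum_filter, Finset.sum_subtype (p := fun x => x ≠ p ∧ x ≠ q)
    ((Finset.univ.erase p).erase q) (fun x => by
      simp only [Finset.mem_erase, Finset.mem_univ, and_true]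
      tauto)]

/-- If the contractions of the colour `b` vanish then the Jucys-Murphy elements of the points of
this colour act as scalars. -/
lemma jm_fml (h : IsPair C e f) {χ : α → Bool} {b : Bool} {q : α} (hq : χ q = b) (t : ℚ)
    (v : Matching α → ℚ)
    (hc : ∀ (p : α) (hpq : p ≠ q), χ p = b → ∀ (Y : 𝒱.Obj) (z : {x // x ≠ p ∧ x ≠ q} → (Y ⟶ X)),
      ∑ τ, contrc t hpq χ b v τ • kcl h (fun x : {x // x ≠ p ∧ x ≠ q} => some (χ x)) z τ = 0) :
    ∑ r ∈ Finset.univ.filter (fun r => r ≠ q ∧ χ r = b),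
      rhoV (Equiv.swap q r) (fml h (fun i => some (χ i)) v) =
      (1 - t) • fml h (fun i => some (χ i)) v := by
  set S : Finset α := Finset.univ.filter (fun r => r ≠ q ∧ χ r = b) with hS
  have h1 : ∀ r ∈ S, rhoV (Equiv.swap q r) (fml h (fun i => some (χ i)) v) =
      fml h (fun i => some (χ i)) (rho (Equiv.swap q r) v) := by
    intro r hr
    refine rhoV_fml h (fun i => ?_) v
    congr 1
    have hr' : χ r = b := (Finset.mem_filter.1 hr).2.2
    by_cases h1 : i = q
    · rw [h1, Equiv.swap_apply_left, hr', hq]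
    · by_cases h2 : i = r
      · rw [h2, Equiv.swap_apply_right, hr', hq]
      · rw [Equiv.swap_apply_of_ne_of_ne h1 h2]
  rw [Finset.sum_congr rfl h1]
  funext Y z
  rw [Finset.sum_apply, Finset.sum_apply]
  change ∑ r ∈ S, ∑ m, _ • kcl h (fun i => some (χ i)) z m =
    (1 - t) • ∑ m, v m • kcl h (fun i => some (χ i)) z m
  rw [Finset.sum_comm, Finset.smul_sum]
  -- the sum of the contractions
  have h2 : ∑ m : Matching α, (t * v m + ∑ r ∈ S.erase (m.1 q), v (conj (Equiv.swap q r) m)) •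
      kcl h (fun i => some (χ i)) z m = 0 := by
    rw [sum_parts q]
    refine Finset.sum_eq_zero fun p _ => ?_
    split_ifs with hpq
    · by_cases hp : χ p = b
      · have h3 := congrArg (fun x => pc e f (fun i => some (χ i)) z p q * x)
          (hc p hpq hp Y (fun x => z x.1))
        simp only [mul_zero, Finset.mul_sum, mul_smul_comm] at h3
        rw [← h3]
        refine Finset.sum_congr rfl fun τ _ => ?_
        rw [contrc_eq, ext_right, kcl, gcl_ext]
        rfl
      · refine Finset.sum_eq_zero fun τ _ => ?_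
        rw [kcl_zero h z (q := q) (b := b) (b' := χ p) (by rw [hq]) (by rw [ext_right])
          (Ne.symm hp), smul_zero]
    · rfl
  rw [← sub_eq_zero, ← Finset.sum_sub_distrib, ← h2]
  refine Finset.sum_congr rfl fun m _ => ?_
  by_cases hm : χ (m.1 q) = b
  · have hmS : m.1 q ∈ S := Finset.mem_filter.2 ⟨Finset.mem_univ _, m.2.2 q, hm⟩
    rw [← Finset.sum_smul, smul_smul, ← sub_smul, ← Finset.add_sum_erase S _ hmS]
    congr 1
    rw [rho_swap, conj_pair]
    simp only [rho_swap]
    ring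
  · have h3 : kcl h (fun i => some (χ i)) z m = 0 :=
      kcl_zero h z (q := q) (b := b) (b' := χ (m.1 q)) (by rw [hq]) rfl (Ne.symm hm)
    simp only [h3, smul_zero, Finset.sum_const_zero, sub_zero]

end Mat

end Pool.Agent.R903
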