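import Mathlib

/-!
# Representations of symmetric groups on which the Jucys-Murphy elements are scalars
-/

open Equiv Equiv.Perm

namespace Pool.Agent.R903.MatRep

variable {α : Type*} [Fintype α] [DecidableEq α] {V : Type*} [AddCommGroup V] [Module ℚ V]

omit [Fintype α] in
/-- The symmetrization over one more point. -/
lemma insert_sym (ρ : Perm α →* Module.End ℚ V) {ε : ℚ} (hε : ε * ε = 1) {F : Finset α} {v : V}
    (hvF : ∀ p ∈ F, ∀ p' ∈ F, p ≠ p' → ρ (swap p p') v = ε • v) {x : α} (hxF : x ∉ F) :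
    ∀ p ∈ insert x F, ∀ p' ∈ insert x F, p ≠ p' →
      ρ (swap p p') (v + ε • ∑ p ∈ F, ρ (swap p x) v) =
        ε • (v + ε • ∑ p ∈ F, ρ (swap p x) v) := by
  have hmul : ∀ g h : Perm α, ρ g (ρ h v) = ρ (g * h) v := by
    intro g h
    rw [map_mul, Module.End.mul_apply]
  set w : V := v + ε • ∑ p ∈ F, ρ (swap p x) v with hw
  have hA : ∀ p ∈ F, ∀ p' ∈ F, p ≠ p' → ρ (swap p p') w = ε • w := by
    intro p hp p' hp' hpp
    rw [hw, map_add, map_smul, map_sum, hvF p hp p' hp' hpp, smul_add]
    congr 1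
    rw [Finset.smul_sum, Finset.smul_sum, Finset.smul_sum]
    have hmem : ∀ r ∈ F, swap p p' r ∈ F := by
      intro r hr
      rcases eq_or_ne r p with rfl | h1
      · simpa using hp'
      · rcases eq_or_ne r p' with rfl | h2
        · simpa using hp
        · rw [swap_apply_of_ne_of_ne h1 h2]; exact hr
    refine Finset.sum_bij (fun r _ => swap p p' r) hmem ?_ ?_ ?_
    · intro r _ r' _ h
      exact (swap p p').injective h
    · intro r hr
      exact ⟨swap p p' r, hmem r hr, by simp⟩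
    · intro r hr
      have hxp : x ≠ p := fun h => hxF (h ▸ hp)
      have hxp' : x ≠ p' := fun h => hxF (h ▸ hp')
      have h1 : swap p p' * swap r x = swap (swap p p' r) x * swap p p' := by
        rw [mul_swap_eq_swap_mul, swap_apply_of_ne_of_ne hxp hxp']
      rw [hmul, h1, ← hmul, hvF p hp p' hp' hpp, map_smul, smul_smul]
  have hB : ∀ p ∈ F, ρ (swap p x) w = ε • w := by
    intro p hp
    have hpx : p ≠ x := fun h => hxF (h ▸ hp)
    rw [hw, map_add, map_smul, map_sum, smul_add, smul_smul, hε, one_smul,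
      ← Finset.add_sum_erase F _ hp, ← Finset.add_sum_erase F _ hp, hmul, swap_mul_self,
      map_one, Module.End.one_apply, smul_add]
    have h2 : ∀ r ∈ F.erase p, ρ (swap p x) (ρ (swap r x) v) = ε • ρ (swap r x) v := by
      intro r hr
      have hrp : r ≠ p := (Finset.mem_erase.1 hr).1
      have hrF : r ∈ F := (Finset.mem_erase.1 hr).2
      have hrx : r ≠ x := fun h => hxF (h ▸ hrF)
      have h1 : swap p x * swap r x = swap r x * swap p r := by
        have h3 : swap r x * swap p r = swap (swap r x p) (swap r x r) * swap r x :=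
          mul_swap_eq_swap_mul _ _ _
        rw [h3, swap_apply_of_ne_of_ne hrp.symm hpx, swap_apply_left]
      rw [hmul, h1, ← hmul, hvF p hp r hrF hrp.symm, map_smul]
    rw [Finset.sum_congr rfl h2, ← Finset.smul_sum, smul_smul, hε, one_smul]
    abel
  intro p hp p' hp' hpp
  rcases Finset.mem_insert.1 hp with rfl | hp1
  · rcases Finset.mem_insert.1 hp' with rfl | hp2
    · exact absurd rfl hpp
    · rw [swap_comm]; exact hB p' hp2
  · rcases Finset.mem_insert.1 hp' with rfl | hp2
    · exact hB p hp1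
    · exact hA p hp1 p' hp2 hpp

/-- If all Jucys-Murphy elements act on the nonzero invariant subspace `S` as the scalar `c`, then
there are a subset `F` and a nonzero element of `S` which transforms under permutations of `F` by
the character `ε`, and the cardinality of `F` is a root of a quadratic equation. -/
theorem exists_max (ρ : Perm α →* Module.End ℚ V) (S : Submodule ℚ V)
    (hS : ∀ g, ∀ v ∈ S, ρ g v ∈ S) (c : ℚ)
    (hJ : ∀ v ∈ S, ∀ q, ∑ r ∈ Finset.univ.erase q, ρ (swap q r) v = c • v)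
    (ε : ℚ) (hε : ε * ε = 1) (hne : ∃ v ∈ S, v ≠ 0) :
    ∃ F : Finset α, ∃ v ∈ S, v ≠ 0 ∧
      (∀ p ∈ F, ∀ p' ∈ F, p ≠ p' → ρ (swap p p') v = ε • v) ∧
      (∀ x ∉ F, ∑ p ∈ F, ρ (swap p x) v = -ε • v) ∧
      c * F.card = ε * F.card * (F.card - 1) - ε * (Fintype.card α - F.card) ∧
      ∀ F' : Finset α, ∀ v' ∈ S, v' ≠ 0 →
        (∀ p ∈ F', ∀ p' ∈ F', p ≠ p' → ρ (swap p p') v' = ε • v') → F'.card ≤ F.card := by
  classical
  set P : Finset α → Prop := fun F => ∃ v ∈ S, v ≠ 0 ∧
      (∀ p ∈ F, ∀ p' ∈ F, p ≠ p' → ρ (swap p p') v = ε • v) with hP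
  have hPe : P ∅ := by
    obtain ⟨v, hv, hv0⟩ := hne
    exact ⟨v, hv, hv0, fun p hp => absurd hp (Finset.notMem_empty p)⟩
  obtain ⟨F, hF, hmax⟩ := Finset.exists_max_image (Finset.univ.filter P) Finset.card
    ⟨∅, by simp [hPe]⟩
  obtain ⟨v, hv, hv0, hvF⟩ := (Finset.mem_filter.1 hF).2
  have hx : ∀ x ∉ F, ∑ p ∈ F, ρ (swap p x) v = -ε • v := by
    intro x hxF
    set w : V := v + ε • ∑ p ∈ F, ρ (swap p x) v with hw
    have hwS : w ∈ S := S.add_mem hv (S.smul_mem _ (S.sum_mem fun p _ => hS _ _ hv))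
    by_contra hne'
    have hw0 : w ≠ 0 := by
      intro h0
      apply hne'
      have h1 : ε • ∑ p ∈ F, ρ (swap p x) v = -v := by
        rw [hw] at h0
        rw [eq_neg_iff_add_eq_zero, add_comm]
        exact h0
      have h2 := congrArg (fun u => ε • u) h1
      simp only [smul_smul, hε, one_smul] at h2
      rw [h2, smul_neg, neg_smul]
    have hPi : P (insert x F) := by
      exact ⟨w, hwS, hw0, insert_sym ρ hε hvF hxF⟩
    have h3 := hmax (insert x F) (Finset.mem_filter.2 ⟨Finset.mem_univ _, hPi⟩)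
    rw [Finset.card_insert_of_notMem hxF] at h3
    omega
  refine ⟨F, v, hv, hv0, hvF, hx, ?_, fun F' v' h1 h2 h3 =>
    hmax F' (Finset.mem_filter.2 ⟨Finset.mem_univ _, v', h1, h2, h3⟩)⟩
  have h1 : ∑ p ∈ F, ∑ r ∈ Finset.univ.erase p, ρ (swap p r) v = (c * F.card) • v := by
    rw [Finset.sum_congr rfl fun p _ => hJ v hv p, Finset.sum_const, ← Nat.cast_smul_eq_nsmul ℚ,
      smul_smul, mul_comm]
  have h2 : ∀ p ∈ F, ∑ r ∈ Finset.univ.erase p, ρ (swap p r) v =
      (ε * (F.card - 1)) • v + ∑ x ∈ Fᶜ, ρ (swap p x) v := by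
    intro p hp
    have h3 : Finset.univ.erase p = F.erase p ∪ Fᶜ := by
      ext r
      simp only [Finset.mem_erase, Finset.mem_univ, and_true, Finset.mem_union, Finset.mem_compl]
      constructor
      · intro h
        by_cases hr : r ∈ F
        · exact Or.inl ⟨h, hr⟩
        · exact Or.inr hr
      · rintro (⟨h, -⟩ | h)
        · exact h
        · rintro rfl; exact h hp
    have h4 : Disjoint (F.erase p) Fᶜ := by
      rw [Finset.disjoint_left]
      intro r hr hr'
      exact (Finset.mem_compl.1 hr') (Finset.mem_erase.1 hr).2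
    rw [h3, Finset.sum_union h4]
    congr 1
    rw [Finset.sum_congr rfl fun r hr => hvF p hp r (Finset.mem_erase.1 hr).2
      (Finset.mem_erase.1 hr).1.symm, Finset.sum_const, Finset.card_erase_of_mem hp,
      ← Nat.cast_smul_eq_nsmul ℚ, smul_smul]
    congr 1
    have h5 : 1 ≤ F.card := Finset.card_pos.2 ⟨p, hp⟩
    push_cast [h5]
    ring
  rw [Finset.sum_congr rfl h2, Finset.sum_add_distrib, Finset.sum_const, Finset.sum_comm,
    Finset.sum_congr rfl fun x hx' => hx x (Finset.mem_compl.1 hx'), Finset.sum_const,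
    ← Nat.cast_smul_eq_nsmul ℚ, ← Nat.cast_smul_eq_nsmul ℚ, smul_smul, smul_smul, ← add_smul,
    Finset.card_compl] at h1
  have h6 := sub_eq_zero.2 h1
  rw [← sub_smul] at h6
  have h7 := (smul_eq_zero.1 h6).resolve_right hv0
  have h8 : F.card ≤ Fintype.card α := Finset.card_le_univ F
  push_cast [h8] at h7
  linarith

end Pool.Agent.R903.MatRep
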