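import Pool.Agent.R903.MatExtr

/-!
# The sum over all matchings and finite-dimensionality
-/

open CategoryTheory CategoryTheory.Limits AlgebraicGeometry
open Pool.Agent.H914 Pool.Agent.H914.VarClass Pool.Agent.H914.VarClass.Obj

universe u v w

namespace Pool.Agent.R903

variable {k : Type u} [Field k] {𝒱 : VarClass k} {C : ChowTheory.{u, v} 𝒱}

namespace Mat

variable {X Y : 𝒱.Obj} {ω : C.CH (X.prod X)} {α : Type} [Fintype α] [DecidableEq α]

variable (C) in
/-- the space of the relations -/
def relSub (hs : C.IsSymmetric ω) : Submodule ℚ (Matching α → ℚ) where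
  carrier := {v | Rel C hs v}
  add_mem' := by
    intro v v' h1 h1' Y z
    simp only [Pi.add_apply, add_smul, Finset.sum_add_distrib, h1 Y z, h1' Y z, add_zero]
  zero_mem' := fun Y z => by simp
  smul_mem' := by
    intro c v h1 Y z
    simp only [Pi.smul_apply, smul_eq_mul, mul_smul, ← Finset.smul_sum, h1 Y z, smul_zero]

lemma rel_of_parts {hs : C.IsSymmetric ω} (a : α) {w : Matching α → ℚ}
    (h : ∀ b (hab : a ≠ b), Rel C hs fun τ => w (ext hab τ)) : Rel C hs w := by
  intro Y z
  rw [← Finset.sum_fiberwise Finset.univ (fun m : Matching α => m.1 a)]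
  refine Finset.sum_eq_zero fun b _ => ?_
  by_cases hab : a = b
  · apply Finset.sum_eq_zero
    intro m hm
    exact absurd ((Finset.mem_filter.1 hm).2.trans hab.symm) (m.2.2 a)
  · have h1 := congrArg (fun x => C.pull (lift (z a) (z b)) ω * x) (h b hab Y fun x => z x.1)
    simp only [mul_zero, Finset.mul_sum, mul_smul_comm] at h1
    rw [← h1]
    symm
    refine Finset.sum_bij (fun τ _ => ext hab τ) ?_ ?_ ?_ ?_
    · intro τ _
      exact Finset.mem_filter.2 ⟨Finset.mem_univ _, ext_left hab τ⟩
    · intro τ _ τ' _ h2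
      exact ext_injective hab h2
    · intro m hm
      obtain ⟨τ, hτ⟩ := ext_surj hab (Finset.mem_filter.1 hm).2
      exact ⟨τ, Finset.mem_univ _, hτ⟩
    · intro τ _
      rw [mcl_ext]

/-- the indicator function of the matchings of `A` and of the complement of `A` -/
def stab (A : Finset α) (m : Matching α) : ℚ := if ∀ a ∈ A, m.1 a ∈ A then 1 else 0

lemma stab_compl (A : Finset α) : stab Aᶜ = stab A := by
  have key : ∀ (A : Finset α) (m : Matching α), (∀ a ∈ A, m.1 a ∈ A) → ∀ a ∈ Aᶜ, m.1 a ∈ Aᶜ := by
    intro A m h a ha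
    rw [Finset.mem_compl] at ha ⊢
    intro h1
    apply ha
    rw [← m.2.1 a]
    exact h _ h1
  funext m
  rw [stab, stab]
  congr 1
  apply propext
  constructor
  · intro h
    have := key Aᶜ m h
    rwa [compl_compl] at this
  · exact key A m

lemma card_two (a b : α) (hab : a ≠ b) :
    Fintype.card {x // x ≠ a ∧ x ≠ b} + 2 = Fintype.card α := by
  have h1 : (Finset.univ.filter fun x => x ≠ a ∧ x ≠ b) = (Finset.univ.erase a).erase b := by
    ext x
    simp [and_comm]
  rw [Fintype.card_subtype, h1, Finset.card_erase_of_mem (Finset.mem_erase.2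
    ⟨hab.symm, Finset.mem_univ _⟩), Finset.card_erase_of_mem (Finset.mem_univ _),
    Finset.card_univ]
  have h2 : 1 < Fintype.card α := Fintype.one_lt_card_iff.2 ⟨a, b, hab⟩
  omega

/-- If the sum over all matchings of `c` points is zero, then also the sum over all matchings for
which a subset with at least `c` points is stable. -/
lemma rel_stab {hs : C.IsSymmetric ω} {c : ℕ} (hc : Even c)
    (H : ∀ (γ : Type) [Fintype γ] [DecidableEq γ], Fintype.card γ = c →
      Rel C hs fun _ : Matching γ => (1 : ℚ)) (n : ℕ) :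
    ∀ (α : Type) [Fintype α] [DecidableEq α], Fintype.card α = n →
      ∀ A : Finset α, c ≤ A.card → Rel C hs (stab A) := by
  induction n using Nat.strong_induction_on with
  | _ n ih =>
    intro α _ _ hα A hA
    by_cases hAu : A = Finset.univ
    · subst hAu
      rw [Finset.card_univ] at hA
      have h1 : ∀ (γ : Type) [Fintype γ] [DecidableEq γ],
          stab (Finset.univ : Finset γ) = fun _ => 1 := by
        intro γ _ _
        funext m
        rw [stab, if_pos fun a _ => Finset.mem_univ _]
      rw [h1]
      rcases hA.eq_or_lt with h2 | h2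
      · exact H α h2.symm
      · by_cases he : Even (Fintype.card α)
        · obtain ⟨a⟩ : Nonempty α := Fintype.card_pos_iff.1 (by omega)
          refine rel_of_parts a fun b hab => ?_
          have h3 := card_two a b hab
          have h4 : c ≤ Fintype.card {x // x ≠ a ∧ x ≠ b} := by
            obtain ⟨r, hr⟩ := hc
            obtain ⟨s, hs⟩ := he
            omega
          have h5 := ih (Fintype.card {x // x ≠ a ∧ x ≠ b}) (by omega) _ rfl Finset.univ
            (by rw [Finset.card_univ]; exact h4)
          rwa [h1] at h5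
        · intro Y z
          refine Finset.sum_eq_zero fun m _ => ?_
          exact absurd (even_card m) he
    · obtain ⟨a, ha⟩ : ∃ a, a ∉ A := by
        by_contra hc
        push Not at hc
        exact hAu (Finset.eq_univ_iff_forall.2 hc)
      refine rel_of_parts a fun b hab => ?_
      by_cases hb : b ∈ A
      · have h1 : (fun τ => stab A (ext hab τ)) = 0 := by
          funext τ
          rw [stab, if_neg, Pi.zero_apply]
          intro h
          have := h b hb
          rw [ext_right] at this
          exact ha this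
        rw [h1]
        exact (relSub C hs).zero_mem
      · have h1 : (fun τ => stab A (ext hab τ)) = stab (A.subtype fun x => x ≠ a ∧ x ≠ b) := by
          funext τ
          rw [stab, stab]
          congr 1
          apply propext
          constructor
          · intro h x hx
            rw [Finset.mem_subtype] at hx ⊢
            have := h x hx
            rwa [ext_coe] at this
          · intro h x hx
            have hxa : x ≠ a := fun h => ha (h ▸ hx)
            have hxb : x ≠ b := fun h => hb (h ▸ hx)
            have := h ⟨x, hxa, hxb⟩ (Finset.mem_subtype.2 hx)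
            rw [Finset.mem_subtype, ← ext_coe hab τ] at this
            exact this
        have h2 : (A.subtype fun x => x ≠ a ∧ x ≠ b).card = A.card := by
          rw [Finset.card_subtype, Finset.filter_true_of_mem]
          intro x hx
          exact ⟨fun h => ha (h ▸ hx), fun h => hb (h ▸ hx)⟩
        rw [h1]
        have h3 := card_two a b hab
        exact ih _ (by omega) _ rfl _ (by rw [h2]; exact hA)

/-- the sign of a subset -/
def sg (F A : Finset α) : ℚ := if ((A ∩ F).card + 3 * (A \ F).card) % 4 = 0 then 1 else -1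

omit [Fintype α] in
lemma sg_mixed {F A : Finset α} {m : Matching α} (hm : ∀ a, a ∈ F ↔ m.1 a ∉ F)
    (hA : ∀ a ∈ A, m.1 a ∈ A) : sg F A = 1 := by
  have h1 : (A ∩ F).card = (A \ F).card := by
    refine Finset.card_bij' (fun a _ => m.1 a) (fun a _ => m.1 a) ?_ ?_ ?_ ?_
    · intro a ha
      obtain ⟨h1, h2⟩ := Finset.mem_inter.1 ha
      exact Finset.mem_sdiff.2 ⟨hA a h1, (hm a).1 h2⟩
    · intro a ha
      obtain ⟨h1, h2⟩ := Finset.mem_sdiff.1 ha
      refine Finset.mem_inter.2 ⟨hA a h1, ?_⟩
      by_contra h3
      exact h2 ((hm a).2 h3)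
    · intro a _; exact m.2.1 a
    · intro a _; exact m.2.1 a
  rw [sg, h1, if_pos (by omega)]

/-- exchange of a pair -/
def tog (p q : α) (A : Finset α) : Finset α := symmDiff A {p, q}

omit [Fintype α] in
lemma tog_tog (p q : α) (A : Finset α) : tog p q (tog p q A) = A :=
  symmDiff_symmDiff_cancel_right _ _

omit [Fintype α] in
lemma tog_stable {p q : α} {m : Matching α} (hpq : m.1 p = q) {A : Finset α}
    (hA : ∀ a ∈ A, m.1 a ∈ A) : ∀ a ∈ tog p q A, m.1 a ∈ tog p q A := by
  have hqp : m.1 q = p := by rw [← hpq, m.2.1]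
  intro a ha
  rw [tog, Finset.mem_symmDiff] at ha ⊢
  rcases ha with ⟨h1, h2⟩ | ⟨h1, h2⟩
  · left
    refine ⟨hA a h1, fun h3 => h2 ?_⟩
    rw [Finset.mem_insert, Finset.mem_singleton] at h3 ⊢
    rcases h3 with h3 | h3
    · right; rw [← hpq, ← h3, m.2.1]
    · left; rw [← hqp, ← h3, m.2.1]
  · right
    refine ⟨?_, fun h3 => h2 ?_⟩
    · rw [Finset.mem_insert, Finset.mem_singleton] at h1 ⊢
      rcases h1 with rfl | rfl
      · right; exact hpq
      · left; exact hqp
    · rw [← m.2.1 a]; exact hA _ h3

omit [Fintype α] in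
lemma sg_tog_aux {p q : α} (hne : p ≠ q) {F : Finset α} (hp : p ∈ F) (hq : q ∈ F)
    {A : Finset α} (hA : Even A.card) (hpA : p ∉ A) (hqA : q ∉ A) :
    sg F (tog p q A) = -sg F A := by
  have h0 : tog p q A = insert p (insert q A) := by
    ext x
    rw [tog, Finset.mem_symmDiff, Finset.mem_insert, Finset.mem_insert, Finset.mem_insert,
      Finset.mem_singleton]
    constructor
    · tauto
    · rintro (rfl | rfl | h)
      · exact Or.inr ⟨Or.inl rfl, hpA⟩
      · exact Or.inr ⟨Or.inr rfl, hqA⟩
      · refine Or.inl ⟨h, ?_⟩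
        rintro (rfl | rfl)
        · exact hpA h
        · exact hqA h
  have h1 : (tog p q A ∩ F).card = (A ∩ F).card + 2 := by
    rw [h0, Finset.insert_inter_of_mem hp, Finset.insert_inter_of_mem hq,
      Finset.card_insert_of_notMem, Finset.card_insert_of_notMem]
    · exact fun h => hqA (Finset.mem_inter.1 h).1
    · intro h
      rcases Finset.mem_insert.1 h with h | h
      · exact hne h
      · exact hpA (Finset.mem_inter.1 h).1
  have h2 : tog p q A \ F = A \ F := by
    rw [h0, Finset.insert_sdiff_of_mem _ hp, Finset.insert_sdiff_of_mem _ hq]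
  have h3 := Finset.card_inter_add_card_sdiff A F
  obtain ⟨r, hr⟩ := hA
  rw [sg, sg, h1, h2]
  by_cases h4 : ((A ∩ F).card + 3 * (A \ F).card) % 4 = 0
  · rw [if_pos h4, if_neg (by omega)]
  · rw [if_neg h4, if_pos (by omega), neg_neg]

omit [Fintype α] in
lemma sg_tog {p q : α} {F : Finset α} (hp : p ∈ F) (hq : q ∈ F) {m : Matching α}
    (hpq : m.1 p = q) {A : Finset α} (hA : ∀ a ∈ A, m.1 a ∈ A) :
    sg F (tog p q A) = -sg F A := by
  have hqp : m.1 q = p := by rw [← hpq, m.2.1]
  have hne : p ≠ q := fun h => m.2.2 p (hpq.trans h.symm)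
  by_cases hpA : p ∈ A
  · have h1 : p ∉ tog p q A := by
      rw [tog, Finset.mem_symmDiff]
      simp [hpA]
    have hqA : q ∈ A := by rw [← hpq]; exact hA p hpA
    have h2 : q ∉ tog p q A := by
      rw [tog, Finset.mem_symmDiff]
      simp [hqA]
    have h3 := sg_tog_aux hne hp hq (even_card_of_stable (tog_stable hpq hA)) h1 h2
    rw [tog_tog] at h3
    rw [h3, neg_neg]
  · have hqA : q ∉ A := by
      intro h
      apply hpA
      rw [← hqp]
      exact hA q h
    exact sg_tog_aux hne hp hq (even_card_of_stable hA) hpA hqA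

/-- the signed sum of the indicator functions -/
def wsum (F : Finset α) (m : Matching α) : ℚ := ∑ A, sg F A * stab A m

lemma wsum_eq_zero {F : Finset α} {m : Matching α} {p : α} (hp : p ∈ F) (hq : m.1 p ∈ F) :
    wsum F m = 0 := by
  have key : ∀ A, sg F (tog p (m.1 p) A) * stab (tog p (m.1 p) A) m = -(sg F A * stab A m) := by
    intro A
    by_cases hA : ∀ a ∈ A, m.1 a ∈ A
    · rw [stab, stab, if_pos hA, if_pos (tog_stable rfl hA), sg_tog hp hq rfl hA]
      ring
    · have hA' : ¬ ∀ a ∈ tog p (m.1 p) A, m.1 a ∈ tog p (m.1 p) A := by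
        intro h
        apply hA
        have := tog_stable (m := m) (p := p) (q := m.1 p) rfl h
        rwa [tog_tog] at this
      rw [stab, stab, if_neg hA, if_neg hA']
      ring
  have h1 : wsum F m = ∑ A, sg F (tog p (m.1 p) A) * stab (tog p (m.1 p) A) m :=
    (Equiv.sum_comp (Function.Involutive.toPerm (tog p (m.1 p)) (tog_tog p (m.1 p)))
      (fun A => sg F A * stab A m)).symm
  simp only [key, Finset.sum_neg_distrib] at h1
  have h2 : wsum F m = -wsum F m := h1
  linarith

lemma wsum_pos {F : Finset α} {m : Matching α} (hm : ∀ a, a ∈ F ↔ m.1 a ∉ F) :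
    0 < wsum F m := by
  have h1 : ∀ A ∈ (Finset.univ : Finset (Finset α)), 0 ≤ sg F A * stab A m := by
    intro A _
    rw [stab]
    split_ifs with hA
    · rw [sg_mixed hm hA]; norm_num
    · rw [mul_zero]
  have h2 : sg F ∅ * stab ∅ m = 1 := by
    rw [stab, if_pos (by simp), sg_mixed hm (by simp)]
    norm_num
  have h3 := Finset.single_le_sum h1 (Finset.mem_univ ∅)
  rw [h2] at h3
  exact lt_of_lt_of_le one_pos h3

/-- If the sum over all matchings of `c` points is zero, then the permutations of `c - 1` letters
are linearly dependent. -/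
theorem permDependent_of_all (hs : C.IsSymmetric ω) {N : ℕ} (hN : Odd N)
    (H : ∀ (γ : Type) [Fintype γ] [DecidableEq γ], Fintype.card γ = N + 1 →
      Rel C hs fun _ : Matching γ => (1 : ℚ)) : C.PermDependent ω N := by
  have hN0 : 0 < N := hN.pos
  have : Nonempty (Fin N ⊕ Fin N) := ⟨Sum.inl ⟨0, hN0⟩⟩
  have he : Even (N + 1) := hN.add_one
  set F : Finset (Fin N ⊕ Fin N) := Finset.univ.map ⟨Sum.inl, Sum.inl_injective⟩ with hF
  have hFc : F.card = N := by rw [hF, Finset.card_map, Finset.card_univ, Fintype.card_fin]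
  have hcard : Fintype.card (Fin N ⊕ Fin N) = 2 * F.card := by
    rw [hFc, Fintype.card_sum, Fintype.card_fin]
    ring
  have hst : ∀ A : Finset (Fin N ⊕ Fin N), Rel C hs (stab A) := by
    intro A
    by_cases h1 : N + 1 ≤ A.card
    · exact rel_stab he H _ _ rfl A h1
    · by_cases h2 : Even A.card
      · rw [← stab_compl]
        refine rel_stab he H _ _ rfl _ ?_
        rw [Finset.card_compl, hcard, hFc]
        obtain ⟨r, hr⟩ := h2
        obtain ⟨s, hs⟩ := he
        omega
      · have h3 : stab A = 0 := by
          funext m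
          rw [stab, if_neg, Pi.zero_apply]
          exact fun h => h2 (even_card_of_stable h)
        rw [h3]
        exact (relSub C hs).zero_mem
  have hw : Rel C hs (wsum F) := by
    have h1 : wsum F = ∑ A, sg F A • stab A := by
      funext m
      rw [wsum, Finset.sum_apply]
      rfl
    rw [h1]
    exact (relSub C hs).sum_mem fun A _ => (relSub C hs).smul_mem _ (hst A)
  have hm1 : ∀ a, a ∈ F ↔ (ofPerm (1 : Equiv.Perm (Fin N))).1 a ∉ F := by
    intro a
    rw [hF]
    cases a <;> simp [ofPerm_inl, ofPerm_inr]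
  have hw0 : wsum F ≠ 0 := by
    intro h0
    have h1 := wsum_pos hm1
    rw [h0] at h1
    exact lt_irrefl _ h1
  have h4 := permDependent_of_mixed hcard hw hw0 fun m hm a ha => by
    intro hb
    exact hm (wsum_eq_zero ha hb)
  rwa [hFc] at h4

end Mat

end Pool.Agent.R903
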