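import Pool.Agent.R903.MatPush

/-!
# The coloured matchings of a harmonic function vanish
-/

open CategoryTheory CategoryTheory.Limits AlgebraicGeometry
open Pool.Agent.H914 Pool.Agent.H914.VarClass Pool.Agent.H914.VarClass.Obj
open Pool.Agent.R903.PermCore

universe u v w

namespace Pool.Agent.R903

variable {k : Type u} [Field k] {𝒱 : VarClass k} {C : ChowTheory.{u, v} 𝒱}

namespace Mat

variable {X Y : 𝒱.Obj} {e f : C.CH (X.prod X)} {α : Type} [Fintype α] [DecidableEq α]

omit [Fintype α] [DecidableEq α] in
lemma ofSubtype_viaE {P : α → Prop} [DecidablePred P] {κ : Type} (ι : κ ↪ {x // P x})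
    (g : Equiv.Perm κ) : Equiv.Perm.ofSubtype (g.viaEmbedding ι) =
      g.viaEmbedding (ι.trans (Function.Embedding.subtype _)) := by
  ext x
  by_cases hx : P x
  · have h1 : (Equiv.Perm.ofSubtype (g.viaEmbedding ι)) x = (g.viaEmbedding ι) ⟨x, hx⟩ :=
      Equiv.Perm.ofSubtype_apply_coe _ ⟨x, hx⟩
    rw [h1]
    by_cases h2 : (⟨x, hx⟩ : {x // P x}) ∈ Set.range ι
    · obtain ⟨k, hk⟩ := h2
      have h3 : x = (ι.trans (Function.Embedding.subtype _)) k := by
        change x = (ι k : α)
        rw [hk]
      rw [← hk, Equiv.Perm.viaEmbedding_apply]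
      conv_rhs => rw [h3, Equiv.Perm.viaEmbedding_apply]
      rfl
    · rw [Equiv.Perm.viaEmbedding_apply_of_notMem _ _ _ h2,
        Equiv.Perm.viaEmbedding_apply_of_notMem]
      rintro ⟨k, hk⟩
      exact h2 ⟨k, Subtype.ext hk⟩
  · rw [Equiv.Perm.ofSubtype_apply_of_not_mem (p := P) _ hx,
      Equiv.Perm.viaEmbedding_apply_of_notMem]
    rintro ⟨k, hk⟩
    apply hx
    rw [← hk]
    exact (ι k).2

omit [Fintype α] [DecidableEq α] in
lemma chi_ofSubtype {χ : α → Bool} {b : Bool} (g : Equiv.Perm {x // χ x = b}) (i : α) :
    χ (Equiv.Perm.ofSubtype g i) = χ i := by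
  by_cases hi : χ i = b
  · have h1 : (Equiv.Perm.ofSubtype g) i = g ⟨i, hi⟩ := Equiv.Perm.ofSubtype_apply_coe _ ⟨i, hi⟩
    rw [h1, (g ⟨i, hi⟩).2, hi]
  · rw [Equiv.Perm.ofSubtype_apply_of_not_mem (p := fun x => χ x = b) _ hi]

/-- The families of a harmonic function on all matchings of `(a + 1)(2g + 2)` points vanish. -/
theorem fml_eq_zero (h : IsPair C e f) {a g : ℕ} (hea : C.motDim e = a)
    (he : C.PermRel e (a + 1) (chi 1)) (hf : C.PermRel f (2 * g + 1) (chi (-1)))
    (hcard : Fintype.card α = (a + 1) * (2 * g + 2))
    {v : Matching α → ℚ}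
    (hv : ∀ q m, ∑ r ∈ Finset.univ.erase q, v (conj (Equiv.swap q r) m) =
      (1 - (a - 2 * g)) * v m) (n : ℕ) :
    ∀ χ : α → Bool, (Finset.univ.filter (fun i => χ i = false)).card = n →
      fml h (fun i => some (χ i)) v = 0 := by
  induction n using Nat.strong_induction_on with
  | _ n ih =>
    intro χ hχ
    rcases Nat.eq_zero_or_pos n with h0 | hpos
    · -- all points have the colour of `e`
      have hχt : ∀ i, χ i = true := by
        intro i
        by_contra hc
        rw [Bool.not_eq_true] at hc
        have h1 : i ∈ Finset.univ.filter (fun i => χ i = false) :=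
          Finset.mem_filter.2 ⟨Finset.mem_univ i, hc⟩
        rw [Finset.card_eq_zero.1 (hχ.trans h0)] at h1
        exact Finset.notMem_empty i h1
      obtain rfl : χ = fun _ => true := funext hχt
      refine vanish rhoV 1 (a + 1) (1 - (a - 2 * g)) _ (fun q => ?_) (fun σ ι => ?_)
        (fun b hb => ?_)
      · have h1 : ∀ r, rhoV (Equiv.swap q r) (fml h (fun _ => some true) v) =
            fmlL h (fun _ => some true) (rho (Equiv.swap q r) v) :=
          fun r => rhoV_fml h (fun i => rfl) v
        simp only [h1]
        rw [← map_sum]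
        have h2 : ∑ r ∈ Finset.univ.erase q, rho (Equiv.swap q r) v =
            (1 - (a - 2 * g) : ℚ) • v := by
          funext m
          rw [Finset.sum_apply, Pi.smul_apply, smul_eq_mul, ← hv q m]
          exact Finset.sum_congr rfl fun r _ => rho_swap q r v m
        rw [h2, map_smul]
        rfl
      · rw [rhoV_fml h (fun i => rfl) v]
        exact kill he fun i =>
          tinv_fml h (χ := fun _ => some true) (j := ι i) (b := true) rfl (rho σ v)
      · rw [hcard] at hb
        push_cast at hb
        by_contra hc
        have h2 : (b : ℚ) < a + 1 := by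
          have : b < a + 1 := by omega
          exact_mod_cast this
        have h3 : ((b : ℚ) - (a + 1)) * (b + 2 * g + 2) = 0 := by
          linarith
        have h4 : (0 : ℚ) < b + 2 * g + 2 := by positivity
        rcases mul_eq_zero.1 h3 with h5 | h5
        · linarith
        · linarith
    · -- the contractions of the points with the colour of `f` vanish
      have key : ∀ (q : α), χ q = false → ∀ (p : α) (hpq : p ≠ q), χ p = false →
          ∀ (Y : 𝒱.Obj) (z : {x // x ≠ p ∧ x ≠ q} → (Y ⟶ X)),
          ∑ τ, contrc (-(2 * g : ℚ)) hpq χ false v τ •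
            kcl h (fun x : {x // x ≠ p ∧ x ≠ q} => some (χ x)) z τ = 0 := by
        intro q hq p hpq hp Y z
        set χ' : α → Bool := Function.update (Function.update χ p true) q true with hχ'
        have hp' : χ' p = true := by
          rw [hχ', Function.update_of_ne hpq, Function.update_self]
        have hq' : χ' q = true := by rw [hχ', Function.update_self]
        have hr' : ∀ r, r ≠ p → r ≠ q → χ' r = χ r := by
          intro r h1 h2
          rw [hχ', Function.update_of_ne h2, Function.update_of_ne h1]
        have hlt : (Finset.univ.filter (fun i => χ' i = false)).card < n := by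
          rw [← hχ]
          apply Finset.card_lt_card
          rw [Finset.ssubset_iff_of_subset]
          · refine ⟨q, Finset.mem_filter.2 ⟨Finset.mem_univ q, hq⟩, fun h1 => ?_⟩
            have h2 := (Finset.mem_filter.1 h1).2
            rw [hq'] at h2
            exact Bool.noConfusion h2
          · intro r hr
            have h1 := (Finset.mem_filter.1 hr).2
            refine Finset.mem_filter.2 ⟨Finset.mem_univ r, ?_⟩
            rw [← hr' r, h1]
            · rintro rfl
              rw [hp'] at h1
              exact Bool.noConfusion h1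
            · rintro rfl
              rw [hq'] at h1
              exact Bool.noConfusion h1
        have h1 := push_fml h hpq hp' hq' v z
        rw [ih _ hlt χ' rfl] at h1
        change C.push (fst Y X) (0 : C.CH (Y.prod X)) = _ at h1
        rw [map_zero] at h1
        rw [← neg_eq_zero, h1, ← Finset.sum_neg_distrib]
        refine Finset.sum_congr rfl fun τ _ => ?_
        rw [← neg_smul]
        have h2 : (fun x : {x // x ≠ p ∧ x ≠ q} => some (χ' x)) =
            fun x : {x // x ≠ p ∧ x ≠ q} => some (χ x) := by
          funext x
          rw [hr' x x.2.1 x.2.2]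
        rw [h2]
        congr 1
        have h3 := hv q (ext hpq τ)
        have h4 : ∑ r ∈ (Finset.univ.erase q).erase p, v (conj (Equiv.swap q r) (ext hpq τ)) =
            ∑ r : {x // x ≠ p ∧ x ≠ q}, v (conj (Equiv.swap q r) (ext hpq τ)) :=
          Finset.sum_subtype _ (fun x => by simp) _
        have h5 : conj (Equiv.swap q p) (ext hpq τ) = ext hpq τ := by
          have h6 := conj_pair (ext hpq τ) q
          rwa [ext_right] at h6
        rw [← Finset.add_sum_erase _ _ (Finset.mem_erase.2 ⟨hpq, Finset.mem_univ p⟩), h5, h4] at h3
        have h6 : contrc (C.motDim (col e f true)) hpq χ' true v τ =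
            a * v (ext hpq τ) + ∑ r : {x // x ≠ p ∧ x ≠ q},
              if χ r = true then v (conj (Equiv.swap q r) (ext hpq τ)) else 0 := by
          rw [contrc]
          congr 1
          · rw [show col e f true = e from rfl, hea]
          · refine Finset.sum_congr rfl fun r _ => ?_
            rw [hr' r r.2.1 r.2.2]
        have h7 : ∑ r : {x // x ≠ p ∧ x ≠ q}, v (conj (Equiv.swap q r) (ext hpq τ)) =
            (∑ r : {x // x ≠ p ∧ x ≠ q},
              if χ r = true then v (conj (Equiv.swap q r) (ext hpq τ)) else 0) +
            ∑ r : {x // x ≠ p ∧ x ≠ q},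
              if χ r = false then v (conj (Equiv.swap q r) (ext hpq τ)) else 0 := by
          rw [← Finset.sum_add_distrib]
          refine Finset.sum_congr rfl fun r _ => ?_
          cases χ r <;> simp
        rw [h6, contrc]
        linarith
      have hJ : ∀ q, χ q = false → ∑ r ∈ Finset.univ.filter (fun r => r ≠ q ∧ χ r = false),
          rhoV (Equiv.swap q r) (fml h (fun i => some (χ i)) v) =
          (1 + 2 * g : ℚ) • fml h (fun i => some (χ i)) v := by
        intro q hq
        rw [jm_fml h hq (-(2 * g : ℚ)) v fun p hpq hp => key q hq p hpq hp, sub_neg_eq_add]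
      refine vanish (β := {x // χ x = false}) (rhoV.comp Equiv.Perm.ofSubtype) (-1) (2 * g + 1)
        (1 + 2 * g) _ (fun q => ?_) (fun σ ι => ?_) (fun b hb => ?_)
      · rw [← hJ q q.2]
        refine Finset.sum_bij (fun r _ => r.1) ?_ ?_ ?_ ?_
        · intro r hr
          exact Finset.mem_filter.2 ⟨Finset.mem_univ _,
            fun h1 => (Finset.mem_erase.1 hr).1 (Subtype.ext h1), r.2⟩
        · intro r _ r' _ h1
          exact Subtype.ext h1
        · intro r hr
          obtain ⟨-, h1, h2⟩ := Finset.mem_filter.1 hr
          exact ⟨⟨r, h2⟩, Finset.mem_erase.2 ⟨fun h3 => h1 (congrArg Subtype.val h3),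
            Finset.mem_univ _⟩, rfl⟩
        · intro r _
          rw [MonoidHom.comp_apply, Equiv.Perm.ofSubtype_swap_eq]
      · simp only [MonoidHom.comp_apply]
        have hσ : ∀ i, (fun i => some (χ i)) (Equiv.Perm.ofSubtype σ i) =
            (fun i => some (χ i)) i := fun i => congrArg some (chi_ofSubtype σ i)
        rw [rhoV_fml h hσ v]
        simp only [ofSubtype_viaE]
        exact kill hf fun i => tinv_fml h (χ := fun i => some (χ i))
          (j := (ι.trans (Function.Embedding.subtype _)) i) (b := false)
          (congrArg some (ι i).2) _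
      · by_contra hc
        have h1 : 0 < Fintype.card {x // χ x = false} := by
          rw [Fintype.card_subtype, hχ]
          exact hpos
        have h2 : (0 : ℚ) < Fintype.card {x // χ x = false} := by exact_mod_cast h1
        have h3 : (b : ℚ) ≤ 2 * g := by
          have : b ≤ 2 * g := by omega
          exact_mod_cast this
        simp only [Units.val_neg, Units.val_one, Int.cast_neg, Int.cast_one] at hb
        have h4 : (0 : ℚ) ≤ b := by positivity
        nlinarith

end Mat

end Pool.Agent.R903
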