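import Pool.Agent.R903.CK

/-!
# Murre's conjecture (C) and the first half of Murre's conjecture (B)
-/

open CategoryTheory CategoryTheory.Limits AlgebraicGeometry
open Pool.Agent.H914 Pool.Agent.H914.VarClass Pool.Agent.H914.VarClass.Obj

universe u v w

namespace Pool.Agent.R903

variable {k : Type u} [Field k] {𝒱 : VarClass k} {C : ChowTheory.{u, v} 𝒱}

namespace WeilTheory

variable {W : WeilTheory.{u, v, w} C} {X Y : 𝒱.Obj}

/-- the decomposition conjugated by `1 + φ` -/
noncomputable def shiftCK (π : ℕ → C.CH (X.prod X)) (φ : C.CH (X.prod X)) (s t : ℕ) (j : ℕ) :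
    C.CH (X.prod X) :=
  π j + ((if j = s then (1 : ℚ) else 0) - (if j = t then (1 : ℚ) else 0)) • φ

lemma IsCK.shift {π : ℕ → C.CH (X.prod X)} (h : W.IsCK X π) {φ : C.CH (X.prod X)}
    (hφ : φ ∈ C.gr (X.prod X) X.dim) (h0 : W.act φ = 0) {s t : ℕ} (hst : s ≠ t)
    (hs : C.comp (π s) φ = φ) (ht : C.comp φ (π t) = φ) (hs' : s ≤ 2 * X.dim)
    (ht' : t ≤ 2 * X.dim) : W.IsCK X (shiftCK π φ s t) := by
  have h1 : ∀ i, C.comp (π i) φ = if i = s then φ else 0 := by
    intro i
    conv_lhs => rw [← hs]
    rw [← C.comp_assoc, h.comp_eq]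
    split_ifs with hi
    · rw [hi, hs]
    · exact C.zero_comp _
  have h2 : ∀ j, C.comp φ (π j) = if j = t then φ else 0 := by
    intro j
    conv_lhs => rw [← ht]
    rw [C.comp_assoc, h.comp_eq]
    by_cases hj : t = j
    · rw [if_pos hj, if_pos hj.symm, ht]
    · rw [if_neg hj, if_neg (Ne.symm hj), C.comp_zero]
  have h3 : C.comp φ φ = 0 := by
    have h4 : C.comp φ (C.comp (π s) φ) = 0 := by
      rw [← C.comp_assoc, h2, if_neg hst, C.zero_comp]
    rwa [hs] at h4
  have key : ∀ i j, C.comp (shiftCK π φ s t i) (shiftCK π φ s t j) =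
      if i = j then shiftCK π φ s t i else 0 := by
    intro i j
    rw [shiftCK, shiftCK, C.comp_add, C.add_comp, C.add_comp, C.comp_smul, C.smul_comp,
      C.comp_smul, C.smul_comp, h1, h2, h3, h.comp_eq]
    by_cases hij : i = j
    · subst hij
      by_cases his : i = s
      · subst his
        simp [hst]
      · by_cases hit : i = t
        · subst hit
          simp [his]
        · simp [his, hit]
    · by_cases his : i = s
      · subst his
        by_cases hjt : j = t
        · subst hjt
          simp [hst, Ne.symm hst]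
        · simp [hij, hjt, Ne.symm hij]
      · by_cases hjt : j = t
        · subst hjt
          simp [hij, his]
        · simp [hij, his, hjt]
  refine ⟨fun j => ?_, fun j => ?_, fun i j hij => ?_, ?_, fun j => ?_⟩
  · exact Submodule.add_mem _ (h.mem j) (Submodule.smul_mem _ _ hφ)
  · rw [key, if_pos rfl]
  · rw [key, if_neg hij]
  · unfold shiftCK
    rw [Finset.sum_add_distrib, h.sum, ← Finset.sum_smul, Finset.sum_sub_distrib,
      Finset.sum_ite_eq', Finset.sum_ite_eq', if_pos (Finset.mem_range.2 (by omega)),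
      if_pos (Finset.mem_range.2 (by omega)), sub_self, zero_smul, add_zero]
  · intro l a ha
    rw [shiftCK, W.act_add, W.act_smul, h0, smul_zero, add_zero]
    exact h.proj j l a ha

/-- A class with positive weight gives a second decomposition with a different `F^0`. -/
theorem Indep.murreB0 (hP : C.Polarized) {i : ℕ} (hI : W.Indep X i 0) : W.MurreB0 X i := by
  intro π h
  rw [ckFil_zero_eq_iff h]
  intro a ha x hx
  by_cases hi : X.dim < i
  · rw [C.gr_eq_bot X i hi, Submodule.mem_bot] at hx
    rw [hx, map_zero]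
  by_cases ha' : 2 * X.dim < a
  · rw [h.eq_zero ha', C.act_zero, LinearMap.zero_apply]
  set z := C.act (π a) x with hz
  have hza : C.act (π a) z = z := by rw [hz, h.act_act, if_pos rfl]
  have hzgr : z ∈ C.gr X i := C.act_mem (h.mem a) hx rfl
  have hclz : W.cl X z = 0 := by
    rw [hz, W.cl_act, h.proj a _ _ (W.cl_mem hx), if_neg (by omega)]
  obtain ⟨D, hD, hdeg⟩ := hP X
  have hpow : ∀ m, D ^ m ∈ C.gr X m := by
    intro m
    induction m with
    | zero => rw [pow_zero]; exact C.one_mem X
    | succ m ih => rw [pow_succ]; exact C.mul_mem ih hD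
  set y := D ^ (X.dim - i) with hy
  have hygr : y ∈ C.gr X (X.dim - i) := hpow _
  have hφ0gr : C.ext y z ∈ C.gr (X.prod X) X.dim := by
    have := C.ext_mem hygr hzgr
    rwa [Nat.sub_add_cancel (by omega)] at this
  have hφ00 : W.act (C.ext y z) = 0 := by
    ext c
    rw [act_apply, ChowTheory.ext, W.cl_mul, W.cl_pull (snd X X), hclz, map_zero, mul_zero,
      zero_mul, map_zero, LinearMap.zero_apply]
  set φ := C.comp (π (2 * i)) (C.comp (C.ext y z) (π a)) with hφ
  have hφgr : φ ∈ C.gr (X.prod X) X.dim :=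
    C.comp_mem (h.mem _) (C.comp_mem hφ0gr (h.mem a) rfl) rfl
  have hφ0 : W.act φ = 0 := by
    ext c
    rw [hφ, W.act_comp _ (C.comp_mem hφ0gr (h.mem a) rfl), W.act_comp _ (h.mem a), hφ00,
      LinearMap.zero_apply, map_zero, LinearMap.zero_apply]
  have hs : C.comp (π (2 * i)) φ = φ := by rw [hφ, ← C.comp_assoc, h.idem]
  have ht : C.comp φ (π a) = φ := by rw [hφ, C.comp_assoc, C.comp_assoc, h.idem]
  have hCK := h.shift hφgr hφ0 (s := 2 * i) (t := a) (by omega) hs ht (by omega) (by omega)
  -- compute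
  have hφact : ∀ x', C.act φ x' = C.deg X (C.act (π (2 * i)) x' * y) • z := by
    intro x'
    rw [hφ, C.act_comp, C.act_comp, C.act_ext, map_smul, hza]
  have hdeg' : C.deg X (C.act (π (2 * i)) (D ^ i) * y) = C.deg X (D ^ X.dim) := by
    have h1 : (C.deg X (C.act (π (2 * i)) (D ^ i) * y) : W.K) = (C.deg X (D ^ X.dim) : W.K) := by
      rw [← W.tr_cl, ← W.tr_cl, W.cl_mul, W.cl_act, h.proj _ _ _ (W.cl_mem (hpow i)), if_pos rfl,
        ← W.cl_mul, hy, ← pow_add, Nat.add_sub_cancel' (by omega)]
    exact_mod_cast h1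
  -- the element `D^i + φ(D^i)` of the new filtration
  have hmem : C.act (shiftCK π φ (2 * i) a (2 * i)) (D ^ i) ∈ C.ckFil π i 0 := by
    rw [hI π _ h hCK, mem_ckFil hCK]
    refine ⟨C.act_mem (hCK.mem _) (hpow i) rfl, fun b hb => ?_⟩
    rw [hCK.act_act, if_neg (by omega)]
  have h2 := ((mem_ckFil h).1 hmem).2 a (by omega)
  rw [shiftCK, if_pos rfl, if_neg (by omega), sub_zero, one_smul, C.act_add, LinearMap.add_apply,
    map_add, h.act_act, if_neg (by omega), zero_add, hφact, hdeg', map_smul, hza] at h2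
  exact (smul_eq_zero.1 h2).resolve_left hdeg

/-- the action of the product decomposition on a block -/
lemma act_prodCK_block {π π' : ℕ → C.CH (X.prod X)} (h : W.IsCK X π) (h' : W.IsCK X π')
    {a : ℕ} (ha : a ≤ 2 * X.dim) (b : ℕ) (γ : C.CH (X.prod X)) :
    C.act (prodCK C (transCK C π) π' (2 * X.dim - a + b))
      (C.comp (C.comp (π a) γ) (π' b)) = C.comp (C.comp (π a) γ) (π' b) := by
  rw [prodCK, act_sum_apply]
  rw [Finset.sum_eq_single (2 * X.dim - a, b)]
  · have ha : 2 * X.dim - a ≤ 2 * X.dim := Nat.sub_le _ _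
    have ha2 : 2 * X.dim - (2 * X.dim - a) = a := by omega
    rw [transCK, if_pos ha, C.act_tensor, ha2, ← C.comp_assoc, ← C.comp_assoc, h.idem,
      C.comp_assoc, h'.idem]
  · rintro ⟨p, q⟩ _ hne
    rw [transCK]
    split_ifs with hp
    · rw [C.act_tensor]
      by_cases hpa : 2 * X.dim - p = a
      · have hqb : b ≠ q := by
          rintro rfl
          apply hne
          have hp : p = 2 * X.dim - a := by
            dsimp only at *
            omega
          rw [hp]
        rw [C.comp_assoc, C.comp_assoc, h'.orth b q hqb, C.comp_zero, C.comp_zero]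
      · rw [← C.comp_assoc, ← C.comp_assoc, h.orth _ _ hpa, C.zero_comp, C.zero_comp,
          C.zero_comp]
    · rw [C.zero_tensor, C.act_zero, LinearMap.zero_apply]
  · intro hnot
    exact (hnot (Finset.HasAntidiagonal.mem_antidiagonal.2 rfl)).elim

/-- The first half of (B) for `X × X` implies the vanishing of `Hom(h^a(X), h^b(X))`, `a < b`. -/
theorem MurreB0.triangular (hB : W.MurreB0 (X.prod X) X.dim) : W.Triangular X := by
  intro π π' h h' a b hab γ hγ
  by_cases hb : 2 * X.dim < b
  · rw [h'.eq_zero hb, C.comp_zero]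
  have hCK := h.transp.prod h'
  have h1 := (ckFil_zero_eq_iff hCK).1 (hB _ hCK) (2 * X.dim - a + b) (by omega)
    (C.comp (C.comp (π a) γ) (π' b)) (C.comp_mem (C.comp_mem (h.mem a) hγ rfl) (h'.mem b) rfl)
  rwa [act_prodCK_block h h' (by omega)] at h1

lemma Triangular.comp_eq_zero (hT : W.Triangular X) {π π' : ℕ → C.CH (X.prod X)}
    (h : W.IsCK X π) (h' : W.IsCK X π') {a b : ℕ} (hab : a < b) : C.comp (π a) (π' b) = 0 := by
  have := hT π π' h h' a b hab _ (C.diagC_mem X)
  rwa [C.comp_diagC] at this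

theorem Triangular.murreC (hT : W.Triangular X) : W.MurreC X := by
  have key : ∀ (i k : ℕ) (π π' : ℕ → C.CH (X.prod X)), W.IsCK X π → W.IsCK X π' →
      C.ckFil π i k ≤ C.ckFil π' i k := by
    intro i k π π' h h' x hx
    rw [mem_ckFil h] at hx
    rw [mem_ckFil h']
    refine ⟨hx.1, fun b hb => ?_⟩
    rw [← h.sum_act x, map_sum]
    refine Finset.sum_eq_zero fun a _ => ?_
    by_cases ha : 2 * i < a + k
    · rw [hx.2 a ha, map_zero]
    · rw [← C.act_comp, hT.comp_eq_zero h h' (by omega), C.act_zero, LinearMap.zero_apply]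
  intro i k π π' h h'
  exact le_antisymm (key i k π π' h h') (key i k π' π h' h)

end WeilTheory

end Pool.Agent.R903
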