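import Mathlib

/-!
# Systems of linear relations between permutations

The combinatorial part of the theorem on relations between the permutations of the factors of a
power of a motive: a system of relations which is closed under multiplication by permutations and
under partial traces, and which contains a relation between permutations of few letters, contains
the symmetrizer or the antisymmetrizer of the expected size.
-/

set_option autoImplicit false

open Equiv Equiv.Perm Finset

namespace Pool.Agent.R903.PermCore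

section

variable {α : Type*} [Fintype α] [DecidableEq α]

/-- The function `a` on the permutations is an eigenvector of the sums `∑_{p ≠ q} (q p)` for the
eigenvalue `-t`, for all `q`. -/
def JM (t : ℚ) (a : Perm α → ℚ) : Prop :=
  ∀ (g : Perm α) (q : α), (t - 1) * a g + ∑ p, a (g * swap q p) = 0

/-- The sign character for `ε = 1`, the trivial character for `ε = -1`. -/
def chi (ε : ℤˣ) (g : Perm α) : ℚ := if ε = 1 then ((sign g : ℤ) : ℚ) else 1

lemma sum_mul_right (F : Perm α → ℚ) (u : Perm α) : ∑ g, F (g * u) = ∑ g, F g :=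
  Equiv.sum_comp (Equiv.mulRight u) F

omit [Fintype α] in
lemma swap_rel {p q r : α} (hpq : p ≠ q) (hpr : p ≠ r) (hqr : q ≠ r) :
    swap p r * swap q r = swap q r * swap p q := by
  ext x
  simp only [Perm.mul_apply, swap_apply_def]
  split_ifs <;> simp_all

lemma inner_ge {ε : ℚ} (hε : ε * ε = 1) {b : Perm α → ℚ} {p q r : α} (hpq : p ≠ q) (hpr : p ≠ r)
    (hqr : q ≠ r) (hb : ∀ g, b (g * swap p q) = ε * b g) :
    -(∑ g, b g ^ 2) / 2 ≤ ε * ∑ g, b g * b (g * swap p r) := by
  set u := swap p r with hu
  set v := swap q r with hv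
  set s := swap p q with hs
  have huu : ∀ g : Perm α, g * u * u = g := fun g => by rw [mul_assoc, hu, swap_mul_self, mul_one]
  have hvv : ∀ g : Perm α, g * v * v = g := fun g => by rw [mul_assoc, hv, swap_mul_self, mul_one]
  have huv : u * v = v * s := swap_rel hpq hpr hqr
  have hvu : v * u = u * s := by
    have := swap_rel (α := α) hpq.symm hqr hpr
    rw [swap_comm q p] at this
    exact this
  have e1 : ∑ g, b (g * u) * b (g * v) = ε * ∑ g, b g * b (g * v) := by
    have h1 := sum_mul_right (fun g => b g * b (g * u * v)) u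
    simp only [huu] at h1
    rw [h1, Finset.mul_sum]
    refine Finset.sum_congr rfl fun g _ => ?_
    rw [mul_assoc g, huv, ← mul_assoc, hb]
    ring
  have e2 : ∑ g, b (g * u) * b (g * v) = ε * ∑ g, b g * b (g * u) := by
    have h1 := sum_mul_right (fun g => b g * b (g * v * u)) v
    simp only [hvv] at h1
    rw [Finset.sum_congr rfl fun g _ => mul_comm (b (g * u)) (b (g * v)), h1, Finset.mul_sum]
    refine Finset.sum_congr rfl fun g _ => ?_
    rw [mul_assoc g, hvu, ← mul_assoc, hb]
    ring
  have e3 : ∑ g, b (g * u) ^ 2 = ∑ g, b g ^ 2 := sum_mul_right (fun g => b g ^ 2) u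
  have e4 : ∑ g, b (g * v) ^ 2 = ∑ g, b g ^ 2 := sum_mul_right (fun g => b g ^ 2) v
  have h0 : 0 ≤ ∑ g, (b g + ε * b (g * u) + ε * b (g * v)) ^ 2 :=
    Finset.sum_nonneg fun g _ => sq_nonneg _
  have h1 : ∑ g, (b g + ε * b (g * u) + ε * b (g * v)) ^ 2 =
      ∑ g, b g ^ 2 + ε * ε * ∑ g, b (g * u) ^ 2 + ε * ε * ∑ g, b (g * v) ^ 2 +
      2 * ε * ∑ g, b g * b (g * u) + 2 * ε * ∑ g, b g * b (g * v) +
      2 * (ε * ε) * ∑ g, b (g * u) * b (g * v) := by
    simp only [Finset.mul_sum, ← Finset.sum_add_distrib]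
    refine Finset.sum_congr rfl fun g _ => ?_
    ring
  rw [h1, e3, e4, hε] at h0
  have e5 : ε * ∑ g, b g * b (g * v) = ε * ∑ g, b g * b (g * u) := by rw [← e1, e2]
  rw [e2] at h0
  have e6 : 2 * ε * ∑ g, b g * b (g * v) = 2 * (ε * ∑ g, b g * b (g * u)) := by
    rw [mul_assoc, e5]
  rw [e6] at h0
  linarith

lemma JM.swap_eq {t ε : ℚ} (hε : ε * ε = 1) {a : Perm α → ℚ} (ha : JM t a)
    (hc : (Fintype.card α : ℚ) < 2 * (ε * t) + 4) {p q : α} (hpq : p ≠ q) (g : Perm α) :
    a (g * swap p q) = -ε * a g := by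
  set s := swap p q with hs
  have hss : ∀ g : Perm α, g * s * s = g := fun g => by rw [mul_assoc, hs, swap_mul_self, mul_one]
  set b : Perm α → ℚ := fun g => a g + ε * a (g * s) with hb
  have hbs : ∀ g, b (g * s) = ε * b g := by
    intro g
    simp only [hb, hss]
    linear_combination (-a (g * s)) * hε
  have hJ : ∀ g, (t - 1) * b g + ∑ r, b (g * swap p r) = 0 := by
    intro g
    have h1 := ha g p
    have h2 := ha (g * s) q
    have h3 : ∑ r, a (g * swap p r * s) = ∑ r, a (g * s * swap q r) := by
      rw [← Equiv.sum_comp s (fun r => a (g * s * swap q r))]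
      refine Finset.sum_congr rfl fun r _ => ?_
      congr 1
      have h4 : swap p r * s = s * swap q (s r) := by
        have h5 : s * swap q (s r) * s⁻¹ = swap (s q) (s (s r)) := by
          rw [← swap_apply_apply]
        have h6 : s q = p := by rw [hs, swap_apply_right]
        have h7 : s (s r) = r := by rw [hs]; exact swap_apply_self p q r
        rw [h6, h7] at h5
        rw [← h5, inv_mul_cancel_right]
      rw [mul_assoc, h4, mul_assoc]
    simp only [hb, Finset.sum_add_distrib, ← Finset.mul_sum, h3]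
    linear_combination h1 + ε * h2
  set N : ℚ := ∑ g, b g ^ 2 with hN
  have hN0 : 0 ≤ N := Finset.sum_nonneg fun g _ => sq_nonneg _
  have hsum : ε * ((t - 1) * N) + ∑ r, ε * ∑ g, b g * b (g * swap p r) = 0 := by
    have h1 : ∑ g, ε * (b g * ((t - 1) * b g + ∑ r, b (g * swap p r))) = 0 :=
      Finset.sum_eq_zero fun g _ => by rw [hJ, mul_zero, mul_zero]
    rw [← h1]
    simp only [mul_add, Finset.sum_add_distrib]
    congr 1
    · rw [hN, Finset.mul_sum, Finset.mul_sum]
      refine Finset.sum_congr rfl fun g _ => ?_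
      ring
    · rw [← Finset.mul_sum, ← Finset.mul_sum, Finset.sum_comm]
      congr 1
      refine Finset.sum_congr rfl fun g _ => ?_
      rw [Finset.mul_sum]
  have hle : ∑ r : α, (-N / 2 + (if r = p then ε * N + N / 2 else 0) +
      (if r = q then N + N / 2 else 0)) ≤ ∑ r, ε * ∑ g, b g * b (g * swap p r) := by
    refine Finset.sum_le_sum fun r _ => ?_
    by_cases hrp : r = p
    · subst hrp
      rw [if_pos rfl, if_neg hpq, swap_self]
      have : ∑ g, b g * b (g * (Equiv.refl α)) = N := by
        rw [hN]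
        refine Finset.sum_congr rfl fun g _ => ?_
        have : g * (Equiv.refl α) = g := mul_one g
        rw [this]; ring
      rw [this]
      apply le_of_eq
      ring
    · by_cases hrq : r = q
      · subst hrq
        rw [if_neg hrp, if_pos rfl]
        have : ∑ g, b g * b (g * swap p r) = ε * N := by
          rw [hN, Finset.mul_sum]
          refine Finset.sum_congr rfl fun g _ => ?_
          rw [hbs]; ring
        rw [this]
        apply le_of_eq
        linear_combination (-N) * hε
      · rw [if_neg hrp, if_neg hrq]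
        have := inner_ge hε (b := b) hpq (Ne.symm hrp) (Ne.symm hrq) hbs
        rw [add_zero, add_zero]
        exact this
  rw [Finset.sum_add_distrib, Finset.sum_add_distrib, Finset.sum_ite_eq' Finset.univ p,
    Finset.sum_ite_eq' Finset.univ q, Finset.sum_const, Finset.card_univ] at hle
  simp only [Finset.mem_univ, if_true, nsmul_eq_mul] at hle
  have hN1 : N = 0 := by
    by_contra hne
    have hpos : 0 < N := lt_of_le_of_ne hN0 (Ne.symm hne)
    nlinarith
  have hb0 : b g = 0 := by
    have h1 := (Finset.sum_eq_zero_iff_of_nonneg (fun g _ => sq_nonneg (b g))).1 hN1 g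
      (Finset.mem_univ g)
    exact pow_eq_zero_iff (two_ne_zero) |>.1 h1
  simp only [hb] at hb0
  linear_combination ε * hb0 - a (g * s) * hε

lemma chi_one (ε : ℤˣ) : chi ε (1 : Perm α) = 1 := by
  simp [chi]

lemma chi_mul_swap (ε : ℤˣ) (g : Perm α) {p q : α} (hpq : p ≠ q) :
    chi ε (g * swap p q) = -((ε : ℤ) : ℚ) * chi ε g := by
  rcases Int.units_eq_one_or ε with rfl | rfl
  · simp [chi, Perm.sign_mul, sign_swap hpq]
  · simp [chi]

lemma units_sq (ε : ℤˣ) : ((ε : ℤ) : ℚ) * ((ε : ℤ) : ℚ) = 1 := by
  rcases Int.units_eq_one_or ε with rfl | rfl <;> simp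

/-- The conclusion in the case of an eigenvector. -/
lemma JM.eq_chi {t : ℚ} {ε : ℤˣ} {a : Perm α → ℚ} (ha : JM t a) (ha0 : a ≠ 0)
    (hc : (Fintype.card α : ℚ) < 2 * (((ε : ℤ) : ℚ) * t) + 4) [Nonempty α] :
    (∀ g, a g = a 1 * chi ε g) ∧ a 1 ≠ 0 ∧ (Fintype.card α : ℚ) = ((ε : ℤ) : ℚ) * t + 1 := by
  have h1 : ∀ g, a g = a 1 * chi ε g := by
    intro g
    refine swap_induction_on' (motive := fun g => a g = a 1 * chi ε g) g ?_ ?_
    · rw [chi_one, mul_one]
    · intro f x y hxy hf
      rw [ha.swap_eq (units_sq ε) hc hxy, chi_mul_swap ε f hxy, hf]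
      ring
  have h2 : a 1 ≠ 0 := by
    intro h
    apply ha0
    funext g
    rw [h1 g, h, zero_mul]
    rfl
  refine ⟨h1, h2, ?_⟩
  obtain ⟨q⟩ := ‹Nonempty α›
  have h3 := ha 1 q
  have h4 : ∀ p, a (1 * swap q p) = a 1 * (-((ε : ℤ) : ℚ)) +
      (if p = q then a 1 * (1 + ((ε : ℤ) : ℚ)) else 0) := by
    intro p
    by_cases hp : p = q
    · subst hp
      rw [swap_self, if_pos rfl]
      have : (1 : Perm α) * Equiv.refl α = 1 := mul_one _
      rw [this]; ring
    · rw [ha.swap_eq (units_sq ε) hc (Ne.symm hp), if_neg hp]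
      ring
  rw [Finset.sum_congr rfl fun p _ => h4 p, Finset.sum_add_distrib, Finset.sum_ite_eq',
    Finset.sum_const, Finset.card_univ] at h3
  simp only [Finset.mem_univ, if_true, nsmul_eq_mul] at h3
  have h5 : a 1 * (t - ((ε : ℤ) : ℚ) * ((Fintype.card α : ℚ) - 1)) = 0 := by
    linear_combination h3
  have h6 := (mul_eq_zero.1 h5).resolve_left h2
  have h7 := units_sq ε
  linear_combination (-((ε : ℤ) : ℚ)) * h6 - ((Fintype.card α : ℚ) - 1) * h7

end

/-- The partial trace of a function on the permutations of `n + 1` letters: permutations which fix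
`0` are restricted and multiplied by `t`, in the others `0` is removed from its cycle. -/
def ptr (t : ℚ) {n : ℕ} (a : Perm (Fin (n + 1)) → ℚ) (τ : Perm (Fin n)) : ℚ :=
  ∑ p : Fin (n + 1), (if p = 0 then t else 1) * a (decomposeFin.symm (p, τ))

/-- A system of relations between permutations: it is closed under multiplication by permutations,
scalar multiples and partial traces, and it contains no relation for `n = 0`. -/
structure IsRelSystem (t : ℚ) (R : ∀ n : ℕ, (Perm (Fin n) → ℚ) → Prop) : Prop where
  translate : ∀ {n : ℕ} {a : Perm (Fin n) → ℚ} (g h : Perm (Fin n)), R n a →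
    R n fun σ => a (g * σ * h)
  smul : ∀ {n : ℕ} {a : Perm (Fin n) → ℚ} (c : ℚ), R n a → R n fun σ => c * a σ
  trace : ∀ {n : ℕ} {a : Perm (Fin (n + 1)) → ℚ}, R (n + 1) a → R n (ptr t a)
  zero : ∀ {a : Perm (Fin 0) → ℚ}, R 0 a → a = 0

theorem IsRelSystem.main {t : ℚ} {R : ∀ n : ℕ, (Perm (Fin n) → ℚ) → Prop}
    (hR : IsRelSystem t R) (ε : ℤˣ) {n : ℕ} {a : Perm (Fin n) → ℚ} (ha : R n a) (ha0 : a ≠ 0)
    (hn : (n : ℚ) < 2 * (((ε : ℤ) : ℚ) * t) + 4) :
    ∃ N ≤ n, (N : ℚ) = ((ε : ℤ) : ℚ) * t + 1 ∧ R N (chi ε) := by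
  induction n with
  | zero => exact absurd (hR.zero ha) ha0
  | succ n ih =>
    by_cases h : ∃ g h : Perm (Fin (n + 1)), ptr t (fun σ => a (g * σ * h)) ≠ 0
    · obtain ⟨g, h, hgh⟩ := h
      obtain ⟨N, h1, h2, h3⟩ := ih (hR.trace (hR.translate g h ha)) hgh
        (lt_of_le_of_lt (by push_cast; linarith) hn)
      exact ⟨N, by omega, h2, h3⟩
    · push Not at h
      have hJ : JM t a := by
        intro g q
        set h0 : Perm (Fin (n + 1)) := swap 0 q with hh0
        have h1 := congrFun (h (g * h0⁻¹) h0) 1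
        rw [ptr] at h1
        simp only [decomposeFin_symm_of_one, Pi.zero_apply] at h1
        have h2 : ∀ p, g * h0⁻¹ * swap 0 p * h0 = g * swap q (h0⁻¹ p) := by
          intro p
          have h3 : h0⁻¹ * swap 0 p * (h0⁻¹)⁻¹ = swap (h0⁻¹ 0) (h0⁻¹ p) := by
            rw [← swap_apply_apply]
          have h4 : h0⁻¹ 0 = q := by
            rw [Perm.inv_eq_iff_eq, hh0, swap_apply_right]
          rw [h4, inv_inv] at h3
          rw [← h3]
          simp only [mul_assoc]
        simp only [h2] at h1
        have h5 : ∀ p : Fin (n + 1), (if p = 0 then t else 1) * a (g * swap q (h0⁻¹ p)) =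
            (if p = 0 then (t - 1) * a g else 0) + a (g * swap q (h0⁻¹ p)) := by
          intro p
          split_ifs with hp
          · subst hp
            have h4 : h0⁻¹ 0 = q := by
              rw [Perm.inv_eq_iff_eq, hh0, swap_apply_right]
            rw [h4, swap_self]
            have : g * Equiv.refl (Fin (n + 1)) = g := mul_one g
            rw [this]; ring
          · ring
        rw [Finset.sum_congr rfl fun p _ => h5 p, Finset.sum_add_distrib,
          Finset.sum_ite_eq' Finset.univ (0 : Fin (n + 1))] at h1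
        simp only [Finset.mem_univ, if_true] at h1
        rw [Equiv.sum_comp h0⁻¹ (fun p => a (g * swap q p))] at h1
        exact h1
      obtain ⟨h1, h2, h3⟩ := hJ.eq_chi (ε := ε) ha0 (by rw [Fintype.card_fin]; exact hn)
      rw [Fintype.card_fin] at h3
      refine ⟨n + 1, le_rfl, h3, ?_⟩
      have h4 := hR.smul (a 1)⁻¹ ha
      have h5 : (fun σ => (a 1)⁻¹ * a σ) = chi ε := by
        funext σ
        rw [h1 σ, inv_mul_cancel_left₀ h2]
      rwa [h5] at h4

end Pool.Agent.R903.PermCore
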