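import Pool.Agent.R903.PermDefs
import Pool.Agent.R903.PermCore
import Pool.Agent.R903.Tensor

/-!
# Linear relations between the permutations of the factors of a power of a motive
-/

open CategoryTheory CategoryTheory.Limits AlgebraicGeometry
open Pool.Agent.H914 Pool.Agent.H914.VarClass Pool.Agent.H914.VarClass.Obj
open Equiv Equiv.Perm Pool.Agent.R903.PermCore

universe u v w

namespace Pool.Agent.R903

variable {k : Type u} [Field k] {𝒱 : VarClass k} {C : ChowTheory.{u, v} 𝒱}

namespace ChowTheory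

variable {X Y Z W B B' T : 𝒱.Obj}

/-- Base change for the push-forward along a projection. -/
lemma pull_push_proj (b : B' ⟶ B) (t : B' ⟶ T) (h : IsIso (lift b t)) (f : Y ⟶ B)
    (g : Y.prod T ⟶ B') (hg1 : g ≫ b = fst Y T ≫ f) (hg2 : g ≫ t = snd Y T) (z : C.CH B') :
    C.pull f (C.push b z) = C.push (fst Y T) (C.pull g z) := by
  set s : Y ⟶ Y.prod B := lift (𝟙 Y) f with hs
  have hs1 : s ≫ fst Y B = 𝟙 Y := Obj.lift_fst _ _
  have hs2 : s ≫ snd Y B = f := Obj.lift_snd _ _
  set b₁ : Y.prod B' ⟶ Y.prod B := prodMap (𝟙 Y) b with hb₁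
  have e1 : C.pull (snd Y B) (C.push b z) = C.push b₁ (C.pull (snd Y B') z) :=
    C.pull_snd_push b z
  have e2 : ∀ A : C.CH (Y.prod B), C.pull s A = C.push (fst Y B) (C.push s 1 * A) := by
    intro A
    rw [← C.push_mul, one_mul, ← C.push_comp, hs1, C.push_id]
  set f' : Y.prod T ⟶ Y.prod B' := lift (fst Y T) g with hf'
  have e3 : C.pull b₁ (C.push s 1) = C.push f' 1 := by
    have h1 : f' ≫ b₁ = fst Y T ≫ s := by
      apply hom_ext_prod
      · simp [hf', hb₁, hs]
      · simp [hf', hb₁, hs, hg1]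
    have h2 : IsIso (lift b₁ (snd Y B' ≫ t)) := by
      refine isIso_of (lift (fst (Y.prod B) T ≫ fst Y B)
        (lift (fst (Y.prod B) T ≫ snd Y B) (snd (Y.prod B) T) ≫ inv (lift b t))) ?_ ?_
      · apply hom_ext_prod
        · simp [hb₁]
        · have h3 : lift b₁ (snd Y B' ≫ t) ≫ lift (fst (Y.prod B) T ≫ snd Y B)
              (snd (Y.prod B) T) = snd Y B' ≫ lift b t := by
            apply hom_ext_prod <;> simp [hb₁]
          simp only [Category.assoc, Obj.lift_snd, Category.id_comp]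
          rw [reassoc_of% h3, IsIso.hom_inv_id, Category.comp_id]
      · have h4 : inv (lift b t) ≫ b = fst B T := by
          rw [IsIso.inv_comp_eq]; simp
        have h5 : inv (lift b t) ≫ t = snd B T := by
          rw [IsIso.inv_comp_eq]; simp
        apply hom_ext_prod
        · apply hom_ext_prod
          · simp [hb₁]
          · simp [hb₁, h4]
        · simp [h5]
    have h6 : IsIso (lift (fst Y T) (f' ≫ snd Y B' ≫ t)) := by
      have : f' ≫ snd Y B' ≫ t = snd Y T := by
        rw [hf', Obj.lift_snd_assoc, hg2]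
      rw [this]
      exact isIso_lift_fst_snd
    have h7 := C.base_change s f' (fst Y T) b₁ (snd Y B' ≫ t) h1 h2 h6 1
    rw [h7, map_one]
  rw [← hs2, C.pull_comp, e1, e2, ← C.mul_push, e3]
  have e4 : C.push f' 1 * C.pull (snd Y B') z = C.push f' (C.pull f' (C.pull (snd Y B') z)) := by
    rw [← C.push_mul, one_mul]
  rw [e4, ← C.pull_comp, ← C.push_comp, ← C.push_comp]
  have e5 : f' ≫ b₁ ≫ fst Y B = fst Y T := by simp [hf', hb₁]
  have e6 : f' ≫ snd Y B' = g := Obj.lift_snd _ _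
  rw [e5, e6]

lemma isIso_p13 (X W Z : 𝒱.Obj) :
    IsIso (lift (p13 X W Z) (snd X (W.prod Z) ≫ fst W Z)) := by
  refine isIso_of (lift (fst (X.prod Z) W ≫ fst X Z)
    (lift (snd (X.prod Z) W) (fst (X.prod Z) W ≫ snd X Z))) ?_ ?_
  · apply hom_ext_prod
    · simp
    · apply hom_ext_prod <;> simp
  · apply hom_ext_prod
    · apply hom_ext_prod <;> simp
    · simp

/-- The pull-back of a composition of correspondences. -/
lemma pull_comp_corr (α : C.CH (X.prod W)) (β : C.CH (W.prod Z)) (x : Y ⟶ X) (z : Y ⟶ Z) :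
    C.push (fst Y W) (C.pull (lift (fst Y W ≫ x) (snd Y W)) α *
      C.pull (lift (snd Y W) (fst Y W ≫ z)) β) = C.pull (lift x z) (C.comp α β) := by
  set g : Y.prod W ⟶ X.prod (W.prod Z) := lift (fst Y W ≫ x) (lift (snd Y W) (fst Y W ≫ z)) with hg
  rw [comp, C.pull_push_proj (p13 X W Z) (snd X (W.prod Z) ≫ fst W Z) (isIso_p13 X W Z) (lift x z) g
    (by apply hom_ext_prod <;> simp [hg]) (by simp [hg]), C.pull_mul, ← C.pull_comp, ← C.pull_comp]
  have h1 : g ≫ p12 X W Z = lift (fst Y W ≫ x) (snd Y W) := by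
    apply hom_ext_prod <;> simp [hg]
  have h2 : g ≫ snd X (W.prod Z) = lift (snd Y W) (fst Y W ≫ z) := Obj.lift_snd _ _
  rw [h1, h2]

lemma push_fst_pull_snd (X Y : 𝒱.Obj) (y : C.CH Y) :
    C.push (fst X Y) (C.pull (snd X Y) y) = algebraMap ℚ (C.CH X) (C.deg Y y) := by
  have h1 : C.push (snd Y X) (C.pull (fst Y X) y) = algebraMap ℚ (C.CH X) (C.deg Y y) :=
    C.push_snd_pull_fst Y X y
  rw [← h1]
  have : IsIso (swap X Y) := isIso_swap
  have h3 : C.push (swap X Y) (C.pull (swap X Y) (C.pull (fst Y X) y)) = C.pull (fst Y X) y :=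
    C.push_pull_iso (swap X Y) _
  rw [← h3, ← C.push_comp, swap_snd, ← C.pull_comp, swap_fst]

variable (C)

/-- The classes `∏ (x_i, y_{σ(i)})^* ω` satisfy the linear relation with coefficients `a`, for all
families of morphisms `x_i, y_i : Y → X`. -/
def PermRel {X : 𝒱.Obj} (ω : C.CH (X.prod X)) (n : ℕ) (a : Perm (Fin n) → ℚ) : Prop :=
  ∀ (Y : 𝒱.Obj) (x y : Fin n → (Y ⟶ X)), ∑ σ, a σ • ∏ i, C.pull (lift (x i) (y (σ i))) ω = 0

variable {C} {ω : C.CH (X.prod X)} {n : ℕ}

lemma PermRel.translate {a : Perm (Fin n) → ℚ} (g h : Perm (Fin n)) (ha : C.PermRel ω n a) :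
    C.PermRel ω n fun σ => a (g * σ * h) := by
  intro Y x y
  rw [← ha Y (fun i => x (h i)) (fun i => y (g⁻¹ i)),
    ← Equiv.sum_comp ((Equiv.mulLeft g⁻¹).trans (Equiv.mulRight h⁻¹))]
  refine Finset.sum_congr rfl fun σ _ => ?_
  have h1 : ((Equiv.mulLeft g⁻¹).trans (Equiv.mulRight h⁻¹)) σ = g⁻¹ * σ * h⁻¹ := rfl
  have h2 : g * (g⁻¹ * σ * h⁻¹) * h = σ := by group
  simp only [h1, h2]
  rw [← Equiv.prod_comp h (fun i => C.pull (lift (x i) (y ((g⁻¹ * σ * h⁻¹) i))) ω)]
  congr 1
  refine Finset.prod_congr rfl fun i _ => ?_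
  have h3 : (g⁻¹ * σ * h⁻¹) (h i) = g⁻¹ (σ i) := by
    simp
  rw [h3]

lemma PermRel.smul {a : Perm (Fin n) → ℚ} (c : ℚ) (ha : C.PermRel ω n a) :
    C.PermRel ω n fun σ => c * a σ := by
  intro Y x y
  simp only [mul_smul]
  rw [← Finset.smul_sum, ha, smul_zero]

lemma PermRel.trace (hω : C.comp ω ω = ω) {a : Perm (Fin (n + 1)) → ℚ}
    (ha : C.PermRel ω (n + 1) a) : C.PermRel ω n (ptr (C.motDim ω) a) := by
  intro Y x y
  have h1 := ha (Y.prod X) (Fin.cons (snd Y X) fun i => fst Y X ≫ x i)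
    (Fin.cons (snd Y X) fun i => fst Y X ≫ y i)
  have h2 := congrArg (C.push (fst Y X)) h1
  rw [map_zero, map_sum, ← Equiv.sum_comp decomposeFin.symm, Fintype.sum_prod_type,
    Finset.sum_comm] at h2
  rw [← h2]
  refine Finset.sum_congr rfl fun τ _ => ?_
  rw [ptr, Finset.sum_smul]
  refine Finset.sum_congr rfl fun p _ => ?_
  rw [map_smul, mul_comm, mul_smul]
  congr 1
  rw [Fin.prod_univ_succ]
  simp only [Fin.cons_zero, Fin.cons_succ, decomposeFin_symm_apply_zero,
    decomposeFin_symm_apply_succ]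
  have hpull : ∀ i j, C.pull (lift (fst Y X ≫ x i) (fst Y X ≫ y j)) ω =
      C.pull (fst Y X) (C.pull (lift (x i) (y j)) ω) := by
    intro i j
    rw [← C.pull_comp, comp_lift]
  refine Fin.cases ?_ (fun q => ?_) p
  · simp only [if_true, swap_self, Equiv.refl_apply, Fin.cons_succ, Fin.cons_zero, hpull]
    rw [← map_prod, C.push_mul]
    have h3 : (lift (snd Y X) (snd Y X) : Y.prod X ⟶ X.prod X) = snd Y X ≫ diag X := by
      apply hom_ext_prod <;> simp
    rw [h3, C.pull_comp, push_fst_pull_snd, Algebra.smul_def]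
    rfl
  · rw [if_neg (Fin.succ_ne_zero q), one_smul, Fin.cons_succ]
    set j₀ := τ⁻¹ q with hj₀
    have hτ : τ j₀ = q := by simp [hj₀]
    rw [← Finset.mul_prod_erase Finset.univ _ (Finset.mem_univ j₀),
      ← Finset.mul_prod_erase Finset.univ _ (Finset.mem_univ j₀)]
    have h4 : ∀ i ∈ Finset.univ.erase j₀, C.pull (lift (fst Y X ≫ x i)
        ((Fin.cons (snd Y X) fun i => fst Y X ≫ y i : Fin (n + 1) → (Y.prod X ⟶ X))
          (Equiv.swap 0 q.succ (τ i).succ))) ω = C.pull (fst Y X) (C.pull (lift (x i) (y (τ i))) ω) := by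
      intro i hi
      have h5 : τ i ≠ q := by
        intro h
        apply (Finset.mem_erase.1 hi).1
        simp [hj₀, ← h]
      rw [swap_apply_of_ne_of_ne (Fin.succ_ne_zero _) (fun h => h5 (Fin.succ_injective _ h)),
        Fin.cons_succ, hpull]
    rw [Finset.prod_congr rfl h4, hτ, swap_apply_right, Fin.cons_zero, ← map_prod, ← mul_assoc,
      C.push_mul, mul_comm (C.pull (lift (snd Y X) (fst Y X ≫ y q)) ω), pull_comp_corr, hω]

lemma PermRel.zero (h1 : (1 : C.CH X) ≠ 0) {a : Perm (Fin 0) → ℚ} (ha : C.PermRel ω 0 a) :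
    a = 0 := by
  have h2 := ha X Fin.elim0 Fin.elim0
  rw [Fintype.sum_unique, Fin.prod_univ_zero] at h2
  have h3 := (smul_eq_zero.1 h2).resolve_right h1
  funext σ
  rw [Subsingleton.elim σ default, h3]
  rfl

lemma isRelSystem (h1 : (1 : C.CH X) ≠ 0) (hω : C.comp ω ω = ω) :
    IsRelSystem (C.motDim ω) (C.PermRel ω) where
  translate := fun g h ha => ha.translate g h
  smul := fun c ha => ha.smul c
  trace := fun ha => ha.trace hω
  zero := fun ha => ha.zero h1

/-- Relations hold for direct summands. -/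
lemma PermRel.restrict {γ : C.CH (X.prod X)} (hγ : C.comp γ ω = γ) {a : Perm (Fin n) → ℚ}
    (ha : C.PermRel ω n a) : C.PermRel γ n a := by
  classical
  have key : ∀ (s : Finset (Fin n)) (Y : 𝒱.Obj) (x y : Fin n → (Y ⟶ X)),
      ∑ σ, a σ • ∏ i, C.pull (lift (x i) (y (σ i))) (if i ∈ s then γ else ω) = 0 := by
    intro s
    induction s using Finset.induction_on with
    | empty =>
      intro Y x y
      simpa using ha Y x y
    | insert j s hj ih =>
      intro Y x y
      have h1 := ih (Y.prod X) (fun i => if i = j then snd Y X else fst Y X ≫ x i)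
        (fun i => fst Y X ≫ y i)
      have h2 := congrArg (fun z => C.push (fst Y X)
        (C.pull (lift (fst Y X ≫ x j) (snd Y X)) γ * z)) h1
      simp only [mul_zero, map_zero, Finset.mul_sum, map_sum, mul_smul_comm, map_smul] at h2
      rw [← h2]
      refine Finset.sum_congr rfl fun σ _ => ?_
      congr 1
      rw [← Finset.mul_prod_erase Finset.univ _ (Finset.mem_univ j),
        ← Finset.mul_prod_erase Finset.univ _ (Finset.mem_univ j)]
      have h3 : ∀ i ∈ Finset.univ.erase j, C.pull (lift (if i = j then snd Y X else fst Y X ≫ x i)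
          (fst Y X ≫ y (σ i))) (if i ∈ s then γ else ω) =
          C.pull (fst Y X) (C.pull (lift (x i) (y (σ i))) (if i ∈ insert j s then γ else ω)) := by
        intro i hi
        have hij := (Finset.mem_erase.1 hi).1
        rw [if_neg hij, ← comp_lift, C.pull_comp]
        have : (i ∈ insert j s) = (i ∈ s) := by simp [hij]
        simp only [this]
      rw [Finset.prod_congr rfl h3, ← map_prod, ← mul_assoc, C.push_mul, if_pos rfl, if_neg hj,
        if_pos (Finset.mem_insert_self j s), pull_comp_corr, hγ]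
  intro Y x y
  simpa using key Finset.univ Y x y

/-- An object of dimension zero with a vanishing exterior power is zero. -/
lemma eq_zero_of_altRel (hω : C.comp ω ω = ω) (h0 : C.motDim ω = 0) (n : ℕ)
    (h : C.PermRel ω (n + 1) (chi 1)) : ω = 0 := by
  induction n with
  | zero =>
    have h1 := h (X.prod X) (fun _ => fst X X) (fun _ => snd X X)
    have hu : (Finset.univ : Finset (Perm (Fin (0 + 1)))) = {1} := by decide
    rw [hu, Finset.sum_singleton, chi_one, one_smul, Fin.prod_univ_one, lift_fst_snd,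
      C.pull_id] at h1
    exact h1
  | succ n ih =>
    apply ih
    have h1 := h.trace hω
    have h2 : ptr (C.motDim ω) (chi (α := Fin (n + 1 + 1)) 1) =
        fun τ => (-((n : ℚ) + 1)) * chi 1 τ := by
      funext τ
      rw [ptr, h0, Fin.sum_univ_succ, if_pos rfl, zero_mul, zero_add]
      have h3 : ∀ i : Fin (n + 1), (if i.succ = 0 then (0 : ℚ) else 1) *
          chi 1 (decomposeFin.symm (i.succ, τ)) = -chi 1 τ := by
        intro i
        rw [if_neg (Fin.succ_ne_zero i), one_mul, chi, chi, if_pos rfl, if_pos rfl,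
          decomposeFin.symm_sign, if_neg (Fin.succ_ne_zero i)]
        simp
      rw [Finset.sum_congr rfl fun i _ => h3 i, Finset.sum_const, Finset.card_univ,
        Fintype.card_fin, nsmul_eq_mul]
      push_cast
      ring
    rw [h2] at h1
    have h4 := h1.smul (-((n : ℚ) + 1))⁻¹
    have h5 : (-((n : ℚ) + 1)) ≠ 0 := by
      have : (0 : ℚ) < (n : ℚ) + 1 := by positivity
      exact (neg_lt_zero.2 this).ne
    simpa only [inv_mul_cancel_left₀ h5] using h4

/-! ### the universal case -/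

lemma exists_lift (n : ℕ) (f : Fin (n + 1) → (Y ⟶ X)) :
    ∃ g : Y ⟶ pw X n, ∀ i, g ≫ pr X n i = f i := by
  induction n with
  | zero =>
    refine ⟨f 0, fun i => ?_⟩
    have hi : i = 0 := Fin.ext (by omega)
    rw [hi]
    exact Category.comp_id _
  | succ n ih =>
    obtain ⟨g, hg⟩ := ih (fun i => f i.succ)
    refine ⟨lift (f 0) g, fun i => ?_⟩
    refine Fin.cases ?_ (fun j => ?_) i
    · exact Obj.lift_fst _ _
    · change lift (f 0) g ≫ snd X (pw X n) ≫ pr X n j = f j.succ
      rw [Obj.lift_snd_assoc, hg]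

lemma permRel_iff {a : Perm (Fin (n + 1)) → ℚ} :
    C.PermRel ω (n + 1) a ↔ ∑ σ, a σ • C.permCycle ω n σ = 0 := by
  constructor
  · intro h
    exact h _ (fun i => fst (pw X n) (pw X n) ≫ pr X n i) (fun i => snd (pw X n) (pw X n) ≫ pr X n i)
  · intro h Y x y
    obtain ⟨f, hf⟩ := exists_lift n x
    obtain ⟨g, hg⟩ := exists_lift n y
    have h1 := congrArg (C.pull (lift f g)) h
    rw [map_zero, map_sum] at h1
    rw [← h1]
    refine Finset.sum_congr rfl fun σ _ => ?_
    rw [map_smul, permCycle, map_prod]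
    congr 1
    refine Finset.prod_congr rfl fun i _ => ?_
    rw [← C.pull_comp, comp_lift, Obj.lift_fst_assoc, Obj.lift_snd_assoc, hf, hg]

lemma permDependent_iff {m : ℕ} : C.PermDependent ω m ↔
    1 ≤ m ∧ ∃ a : Perm (Fin m) → ℚ, a ≠ 0 ∧ C.PermRel ω m a := by
  constructor
  · rintro ⟨n, rfl, h⟩
    rw [Fintype.linearIndependent_iff] at h
    push Not at h
    obtain ⟨a, ha, i, hi⟩ := h
    exact ⟨by omega, a, fun h => hi (congrFun h i), permRel_iff.2 ha⟩
  · rintro ⟨hm, a, ha0, ha⟩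
    obtain ⟨n, rfl⟩ : ∃ n, m = n + 1 := ⟨m - 1, by omega⟩
    refine ⟨n, rfl, ?_⟩
    rw [Fintype.linearIndependent_iff]
    intro h
    exact ha0 (funext (h a (permRel_iff.1 ha)))

lemma extVanishes_iff {m : ℕ} : C.ExtVanishes ω m ↔ 1 ≤ m ∧ C.PermRel ω m (chi 1) := by
  constructor
  · rintro ⟨n, rfl, h⟩
    exact ⟨by omega, permRel_iff.2 (by simpa [chi] using h)⟩
  · rintro ⟨hm, ha⟩
    obtain ⟨n, rfl⟩ : ∃ n, m = n + 1 := ⟨m - 1, by omega⟩
    exact ⟨n, rfl, by simpa [chi] using permRel_iff.1 ha⟩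

lemma symVanishes_iff {m : ℕ} : C.SymVanishes ω m ↔ 1 ≤ m ∧ C.PermRel ω m (chi (-1)) := by
  constructor
  · rintro ⟨n, rfl, h⟩
    exact ⟨by omega, permRel_iff.2 (by simpa [chi] using h)⟩
  · rintro ⟨hm, ha⟩
    obtain ⟨n, rfl⟩ : ∃ n, m = n + 1 := ⟨m - 1, by omega⟩
    exact ⟨n, rfl, by simpa [chi] using permRel_iff.1 ha⟩

end ChowTheory

end Pool.Agent.R903
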