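import Pool.Agent.R903.Corr

/-!
# Permutations of the factors of a power of a variety: definitions
-/

open CategoryTheory CategoryTheory.Limits AlgebraicGeometry
open Pool.Agent.H914 Pool.Agent.H914.VarClass Pool.Agent.H914.VarClass.Obj

universe u v w

namespace Pool.Agent.R903

variable {k : Type u} [Field k] {𝒱 : VarClass k}

/-- The power `X × (X × ⋯)` with `n + 1` factors `X`. -/
noncomputable def pw (X : 𝒱.Obj) : ℕ → 𝒱.Obj
  | 0 => X
  | n + 1 => X.prod (pw X n)

/-- The projections of the power of `X` with `n + 1` factors to its factors. -/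
noncomputable def pr (X : 𝒱.Obj) : ∀ n : ℕ, Fin (n + 1) → (pw X n ⟶ X)
  | 0, _ => 𝟙 X
  | n + 1, i => Fin.cases (fst X (pw X n)) (fun j => snd X (pw X n) ≫ pr X n j) i

/-- For a correspondence `ω` on `X` and a permutation `σ` of `m = n + 1` letters, the class
`∏ p_{i, σ(i)}^* ω` on `X^m × X^m`, where `p_{i, j} : X^m × X^m → X × X` is the `i`-th projection of
the first factor and the `j`-th projection of the second factor. For the diagonal `ω` it is the
class of the graph of the permutation `σ` of the factors of `X^m`, and for an idempotent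
correspondence `ω` it is the permutation `σ` of the factors of the `m`-th tensor power of the
motive `(X, ω)`. -/
noncomputable def ChowTheory.permCycle (C : ChowTheory.{u, v} 𝒱) {X : 𝒱.Obj}
    (ω : C.CH (X.prod X)) (n : ℕ) (σ : Equiv.Perm (Fin (n + 1))) :
    C.CH ((pw X n).prod (pw X n)) :=
  ∏ i, C.pull (lift (fst (pw X n) (pw X n) ≫ pr X n i) (snd (pw X n) (pw X n) ≫ pr X n (σ i))) ω

/-- The classes of the permutations of `m` letters are linearly dependent. -/
def ChowTheory.PermDependent (C : ChowTheory.{u, v} 𝒱) {X : 𝒱.Obj} (ω : C.CH (X.prod X))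
    (m : ℕ) : Prop :=
  ∃ n, n + 1 = m ∧ ¬ LinearIndependent ℚ (C.permCycle ω n)

/-- The alternating sum of the classes of the permutations of `m` letters vanishes: the `m`-th
exterior power of the motive `(X, ω)` is zero. -/
def ChowTheory.ExtVanishes (C : ChowTheory.{u, v} 𝒱) {X : 𝒱.Obj} (ω : C.CH (X.prod X))
    (m : ℕ) : Prop :=
  ∃ n, n + 1 = m ∧ ∑ σ, ((Equiv.Perm.sign σ : ℤ) : ℚ) • C.permCycle ω n σ = 0

/-- The sum of the classes of the permutations of `m` letters vanishes: the `m`-th symmetric power
of the motive `(X, ω)` is zero. -/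
def ChowTheory.SymVanishes (C : ChowTheory.{u, v} 𝒱) {X : 𝒱.Obj} (ω : C.CH (X.prod X))
    (m : ℕ) : Prop :=
  ∃ n, n + 1 = m ∧ ∑ σ, C.permCycle ω n σ = 0

/-- The dimension (Euler characteristic) of the motive `(X, ω)`: the degree of the restriction of
`ω` to the diagonal. -/
noncomputable def ChowTheory.motDim (C : ChowTheory.{u, v} 𝒱) {X : 𝒱.Obj} (ω : C.CH (X.prod X)) :
    ℚ :=
  C.deg X (C.pull (diag X) ω)

end Pool.Agent.R903
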