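import Pool.Agent.R903.Calc

/-!
# Correspondences form a category: associativity and units
-/

open CategoryTheory CategoryTheory.Limits AlgebraicGeometry
open Pool.Agent.H914 Pool.Agent.H914.VarClass Pool.Agent.H914.VarClass.Obj

universe u v w

namespace Pool.Agent.R903

variable {k : Type u} [Field k] {𝒱 : VarClass k}

namespace ChowTheory

variable (C : ChowTheory.{u, v} 𝒱) {W X Y Z T A B P : 𝒱.Obj}

/-- `X × (Y × (Z × T)) → X × (Y × Z)` -/
noncomputable def q123 (X Y Z T : 𝒱.Obj) : X.prod (Y.prod (Z.prod T)) ⟶ X.prod (Y.prod Z) :=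
  lift (fst X _) (snd X _ ≫ p12 Y Z T)

/-- `X × (Y × (Z × T)) → X × (Y × T)` -/
noncomputable def q124 (X Y Z T : 𝒱.Obj) : X.prod (Y.prod (Z.prod T)) ⟶ X.prod (Y.prod T) :=
  lift (fst X _) (snd X _ ≫ p13 Y Z T)

@[reassoc (attr := simp)]
lemma q123_fst : q123 X Y Z T ≫ fst X _ = fst X _ := by simp [q123]
@[reassoc (attr := simp)]
lemma q123_snd : q123 X Y Z T ≫ snd X _ = snd X _ ≫ p12 Y Z T := by simp [q123]
@[reassoc (attr := simp)]
lemma q124_fst : q124 X Y Z T ≫ fst X _ = fst X _ := by simp [q124]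
@[reassoc (attr := simp)]
lemma q124_snd : q124 X Y Z T ≫ snd X _ = snd X _ ≫ p13 Y Z T := by simp [q124]

lemma isIso_q123 : IsIso (lift (q123 X Y Z T) (snd X _ ≫ snd Y _ ≫ snd Z T)) := by
  refine isIso_of (lift (fst _ _ ≫ fst _ _) (lift (fst _ _ ≫ snd _ _ ≫ fst _ _)
    (lift (fst _ _ ≫ snd _ _ ≫ snd _ _) (snd _ _)))) ?_ ?_
  · apply hom_ext_prod
    · simp
    · apply hom_ext_prod
      · simp
      · apply hom_ext_prod <;> simp
  · apply hom_ext_prod
    · apply hom_ext_prod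
      · simp
      · apply hom_ext_prod <;> simp
    · simp

theorem comp_assoc (α : C.CH (X.prod Y)) (β : C.CH (Y.prod Z)) (γ : C.CH (Z.prod T)) :
    C.comp (C.comp α β) γ = C.comp α (C.comp β γ) := by
  have h1 : C.pull (p12 X Z T) (C.push (p13 X Y Z)
      (C.pull (p12 X Y Z) α * C.pull (snd X (Y.prod Z)) β)) =
      C.push (p13 X Y (Z.prod T)) (C.pull (q123 X Y Z T)
        (C.pull (p12 X Y Z) α * C.pull (snd X (Y.prod Z)) β)) := by
    refine C.base_change (T := T) _ _ _ (p12 X Z T) (snd X _ ≫ snd Z T) ?_ isIso_assoc ?_ _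
    · apply hom_ext_prod <;> simp
    · rw [p13_snd_assoc]; exact isIso_q123
  have h2 : C.pull (snd X (Y.prod T)) (C.push (p13 Y Z T)
      (C.pull (p12 Y Z T) β * C.pull (snd Y (Z.prod T)) γ)) =
      C.push (q124 X Y Z T) (C.pull (snd X _)
        (C.pull (p12 Y Z T) β * C.pull (snd Y (Z.prod T)) γ)) := by
    refine C.base_change (T := X) _ _ _ (snd X (Y.prod T)) (fst X _) ?_ isIso_swap ?_ _
    · simp
    · rw [q124_fst]; exact isIso_swap
  rw [comp, comp, comp, comp, h1, h2, ← C.push_mul, ← C.push_comp, ← C.mul_push, ← C.push_comp,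
    C.pull_mul, C.pull_mul, ← C.pull_comp, ← C.pull_comp, ← C.pull_comp, ← C.pull_comp,
    ← C.pull_comp, ← C.pull_comp]
  have e1 : p13 X Y (Z.prod T) ≫ p13 X Z T = q124 X Y Z T ≫ p13 X Y T := by
    apply hom_ext_prod <;> simp
  have e2 : q123 X Y Z T ≫ p12 X Y Z = p12 X Y (Z.prod T) := by
    apply hom_ext_prod <;> simp
  have e3 : q124 X Y Z T ≫ p12 X Y T = p12 X Y (Z.prod T) := by
    apply hom_ext_prod <;> simp
  rw [e1, e2, e3, q123_snd, p13_snd, mul_assoc]

lemma diagC_comp (α : C.CH (X.prod Y)) : C.comp (C.diagC X) α = α := by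
  have h1 : C.pull (p12 X X Y) (C.push (diag X) 1) =
      C.push (lift (fst X Y) (𝟙 _)) (C.pull (fst X Y) 1) := by
    refine C.base_change (T := Y) (diag X) (lift (fst X Y) (𝟙 _)) (fst X Y) (p12 X X Y)
      (snd X _ ≫ snd X Y) ?_ isIso_assoc ?_ 1
    · apply hom_ext_prod <;> simp
    · have : lift (fst X Y) (𝟙 (X.prod Y)) ≫ snd X (X.prod Y) ≫ snd X Y = snd X Y := by simp
      rw [this]; exact isIso_lift_fst_snd
  rw [comp, diagC, h1, ← C.push_mul, ← C.push_comp, ← C.pull_comp, map_one, one_mul]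
  have e1 : lift (fst X Y) (𝟙 (X.prod Y)) ≫ p13 X X Y = 𝟙 _ := by
    apply hom_ext_prod <;> simp
  rw [e1, C.push_id, lift_snd, C.pull_id]

lemma comp_diagC (α : C.CH (X.prod Y)) : C.comp α (C.diagC Y) = α := by
  have h1 : C.pull (snd X (Y.prod Y)) (C.push (diag Y) 1) =
      C.push (lift (fst X Y) (snd X Y ≫ diag Y)) (C.pull (snd X Y) 1) := by
    refine C.base_change (T := X) (diag Y) (lift (fst X Y) (snd X Y ≫ diag Y)) (snd X Y)
      (snd X (Y.prod Y)) (fst X _) ?_ isIso_swap ?_ 1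
    · simp
    · rw [lift_fst]; exact isIso_swap
  rw [comp, diagC, h1, ← C.mul_push, ← C.push_comp, ← C.pull_comp, map_one, mul_one]
  have e1 : lift (fst X Y) (snd X Y ≫ diag Y) ≫ p13 X Y Y = 𝟙 _ := by
    apply hom_ext_prod <;> simp
  have e2 : lift (fst X Y) (snd X Y ≫ diag Y) ≫ p12 X Y Y = 𝟙 _ := by
    apply hom_ext_prod <;> simp
  rw [e1, C.push_id, e2, C.pull_id]

lemma smul_comp (q : ℚ) (α : C.CH (X.prod Y)) (β : C.CH (Y.prod Z)) :
    C.comp (q • α) β = q • C.comp α β := by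
  simp [comp]

lemma comp_smul (q : ℚ) (α : C.CH (X.prod Y)) (β : C.CH (Y.prod Z)) :
    C.comp α (q • β) = q • C.comp α β := by
  simp [comp]

lemma zero_comp (β : C.CH (Y.prod Z)) : C.comp (0 : C.CH (X.prod Y)) β = 0 := by
  simp [comp]

lemma comp_zero (α : C.CH (X.prod Y)) : C.comp α (0 : C.CH (Y.prod Z)) = 0 := by
  simp [comp]

lemma sum_comp {ι : Type*} (s : Finset ι) (α : ι → C.CH (X.prod Y)) (β : C.CH (Y.prod Z)) :
    C.comp (∑ i ∈ s, α i) β = ∑ i ∈ s, C.comp (α i) β := by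
  simp [comp, Finset.sum_mul]

lemma comp_sum {ι : Type*} (s : Finset ι) (α : C.CH (X.prod Y)) (β : ι → C.CH (Y.prod Z)) :
    C.comp α (∑ i ∈ s, β i) = ∑ i ∈ s, C.comp α (β i) := by
  simp [comp, Finset.mul_sum]

end ChowTheory

/-- The ring of correspondences from `X` to `X` (of all degrees), with `a * b = a ∘ b`. -/
def CorrRing (C : ChowTheory.{u, v} 𝒱) (X : 𝒱.Obj) : Type v := C.CH (X.prod X)

namespace CorrRing

variable {C : ChowTheory.{u, v} 𝒱} {X : 𝒱.Obj}

noncomputable instance : AddCommGroup (CorrRing C X) :=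
  inferInstanceAs (AddCommGroup (C.CH (X.prod X)))

noncomputable instance : Module ℚ (CorrRing C X) :=
  inferInstanceAs (Module ℚ (C.CH (X.prod X)))

/-- a correspondence as an element of the ring -/
noncomputable def of (C : ChowTheory.{u, v} 𝒱) (X : 𝒱.Obj) : C.CH (X.prod X) ≃ₗ[ℚ] CorrRing C X :=
  LinearEquiv.refl ℚ _

noncomputable instance : Ring (CorrRing C X) :=
  { (inferInstance : AddCommGroup (CorrRing C X)) with
    mul := fun a b => of C X (C.comp ((of C X).symm b) ((of C X).symm a))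
    one := of C X (C.diagC X)
    left_distrib := fun a b c => C.add_comp (X := X) (Y := X) (Z := X) _ _ _
    right_distrib := fun a b c => C.comp_add (X := X) (Y := X) (Z := X) _ _ _
    zero_mul := fun a => C.comp_zero (X := X) (Y := X) (Z := X) _
    mul_zero := fun a => C.zero_comp (X := X) (Y := X) (Z := X) _
    mul_assoc := fun a b c => (C.comp_assoc (X := X) (Y := X) (Z := X) (T := X) _ _ _).symm
    one_mul := fun a => C.comp_diagC (X := X) (Y := X) _
    mul_one := fun a => C.diagC_comp (X := X) (Y := X) _ }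

lemma of_mul (a b : C.CH (X.prod X)) : of C X a * of C X b = of C X (C.comp b a) := rfl
lemma of_comp (a b : C.CH (X.prod X)) : of C X (C.comp a b) = of C X b * of C X a := rfl
lemma of_one : of C X (C.diagC X) = 1 := rfl

noncomputable instance : Algebra ℚ (CorrRing C X) :=
  Algebra.ofModule (fun r _ _ => C.comp_smul (X := X) (Y := X) (Z := X) r _ _)
    (fun r _ _ => C.smul_comp (X := X) (Y := X) (Z := X) r _ _)

/-- The action of the ring of correspondences on `CH(X)`. -/
noncomputable def actH (C : ChowTheory.{u, v} 𝒱) (X : 𝒱.Obj) :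
    CorrRing C X →ₐ[ℚ] Module.End ℚ (C.CH X) :=
  AlgHom.ofLinearMap (C.actL X X ∘ₗ (of C X).symm.toLinearMap)
    (by ext x; exact C.act_diagC x) (by intro a b; ext x; exact C.act_comp _ _ x)

lemma actH_of (γ : C.CH (X.prod X)) : actH C X (of C X γ) = C.act γ := rfl

end CorrRing

end Pool.Agent.R903
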