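import Pool.Agent.R903.SmashDefs
import Pool.Agent.R903.PermCyc

/-!
# Linear independence of exterior products of cycles
-/

open CategoryTheory CategoryTheory.Limits AlgebraicGeometry
open Pool.Agent.H914 Pool.Agent.H914.VarClass Pool.Agent.H914.VarClass.Obj

universe u v w

namespace Pool.Agent.R903

variable {k : Type u} [Field k] {𝒱 : VarClass k} {C : ChowTheory.{u, v} 𝒱}

namespace ChowTheory

variable {X Y Z : 𝒱.Obj}

variable (C) in
/-- The `n`-fold exterior product of `a` is not zero, in a form which includes `n = 0`. -/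
def NZ {X : 𝒱.Obj} (a : C.CH X) (n : ℕ) : Prop :=
  ∃ (Y : 𝒱.Obj) (z : Fin n → (Y ⟶ X)), ∏ j, C.pull (z j) a ≠ 0

lemma pull_extProd {n : ℕ} {x : Fin (n + 1) → (Y ⟶ X)} {g : Y ⟶ pw X n}
    (hg : ∀ i, g ≫ pr X n i = x i) (v : Fin (n + 1) → C.CH X) :
    C.pull g (C.extProd n v) = ∏ i, C.pull (x i) (v i) := by
  rw [extProd, map_prod]
  refine Finset.prod_congr rfl fun i _ => ?_
  rw [← C.pull_comp, hg]

lemma nz_succ_iff {a : C.CH X} {n : ℕ} :
    C.NZ a (n + 1) ↔ C.extProd n (fun _ => a) ≠ 0 := by
  constructor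
  · rintro ⟨Y, z, h⟩ h0
    obtain ⟨g, hg⟩ := exists_lift n z
    apply h
    rw [← pull_extProd hg, h0, map_zero]
  · intro h
    exact ⟨pw X n, pr X n, h⟩

lemma NZ.anti {a : C.CH X} {m n : ℕ} (h : C.NZ a n) (hmn : m ≤ n) : C.NZ a m := by
  obtain ⟨r, rfl⟩ := Nat.exists_eq_add_of_le hmn
  obtain ⟨Y, z, h⟩ := h
  refine ⟨Y, fun i => z (Fin.castAdd r i), fun h0 => h ?_⟩
  rw [Fin.prod_univ_add, h0, zero_mul]

/-- the number of the `i` with `c i = none` -/
def cnt {κ : Type*} {n : ℕ} (c : Fin n → Option κ) : ℕ := ∑ i, if (c i).isNone then 1 else 0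

lemma cnt_cons_none {κ : Type*} {n : ℕ} (c : Fin n → Option κ) :
    cnt (Fin.cons none c : Fin (n + 1) → Option κ) = cnt c + 1 := by
  rw [cnt, cnt, Fin.sum_univ_succ, add_comm]
  simp only [Fin.cons_zero, Fin.cons_succ, Option.isNone_none, if_true]

lemma cnt_cons_some {κ : Type*} {n : ℕ} (j : κ) (c : Fin n → Option κ) :
    cnt (Fin.cons (some j) c : Fin (n + 1) → Option κ) = cnt c := by
  rw [cnt, cnt, Fin.sum_univ_succ]
  simp only [Fin.cons_zero, Fin.cons_succ, Option.isNone_some, Bool.false_eq_true, if_false,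
    zero_add]

lemma deg_push_fst (b : C.CH X) (v : C.CH X) (P : C.CH Y) :
    C.push (fst Y X) (C.pull (snd Y X) b * (C.pull (snd Y X) v * C.pull (fst Y X) P)) =
      C.deg X (v * b) • P := by
  rw [← mul_assoc, ← C.pull_mul, C.push_mul, push_fst_pull_snd, Algebra.smul_def, mul_comm b v]

lemma indep {κ : Type*} [Fintype κ] [DecidableEq κ] (w b : κ → C.CH X) (a : C.CH X)
    (hwb : ∀ i j, C.deg X (w i * b j) = if i = j then 1 else 0)
    (hab : ∀ j, C.deg X (a * b j) = 0) (n : ℕ) :
    ∀ (r : ℕ) (lam : (Fin n → Option κ) → ℚ), (∀ c, lam c ≠ 0 → C.NZ a (r + cnt c)) →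
      (∀ (Y : 𝒱.Obj) (x : Fin n → (Y ⟶ X)) (z : Fin r → (Y ⟶ X)),
        ∑ c, lam c • ((∏ i, C.pull (x i) ((c i).elim a w)) * ∏ j, C.pull (z j) a) = 0) →
      ∀ c, lam c = 0 := by
  induction n with
  | zero =>
    intro r lam hN h c
    by_contra hc
    obtain ⟨Y, z, hz⟩ := hN _ hc
    have hr : r + cnt c = r := by simp [cnt]
    have h1 := h Y Fin.elim0 (fun i => z (Fin.cast hr.symm i))
    rw [Fintype.sum_eq_single c (fun d hd => absurd (Subsingleton.elim d c) hd),
      Fin.prod_univ_zero, one_mul] at h1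
    have h2 := (smul_eq_zero.1 h1).resolve_left hc
    apply hz
    rw [← h2]
    exact (Equiv.prod_comp (finCongr hr.symm) fun i => C.pull (z i) a).symm
  | succ n ih =>
    intro r lam hN h
    have hsplit : ∀ (Y : 𝒱.Obj) (x : Fin (n + 1) → (Y ⟶ X)) (z : Fin r → (Y ⟶ X)),
        ∑ o : Option κ, ∑ c : Fin n → Option κ, lam (Fin.cons o c) •
          ((C.pull (x 0) (o.elim a w) * ∏ i : Fin n, C.pull (x i.succ) ((c i).elim a w)) *
            ∏ j, C.pull (z j) a) = 0 := by
      intro Y x z
      rw [← h Y x z, ← (Fin.consEquiv fun _ : Fin (n + 1) => Option κ).sum_comp,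
        Fintype.sum_prod_type]
      refine Finset.sum_congr rfl fun o _ => Finset.sum_congr rfl fun c _ => ?_
      rw [Fin.prod_univ_succ]
      rfl
    have hsome : ∀ (j : κ) (c : Fin n → Option κ), lam (Fin.cons (some j) c) = 0 := by
      intro j
      refine ih r (fun c => lam (Fin.cons (some j) c)) (fun c hc => ?_) fun Y x z => ?_
      · have := hN _ hc
        rwa [cnt_cons_some] at this
      · have h1 := hsplit (Y.prod X) (Fin.cons (snd Y X) fun i => fst Y X ≫ x i)
          (fun i => fst Y X ≫ z i)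
        have h2 := congrArg (fun y => C.push (fst Y X) (C.pull (snd Y X) (b j) * y)) h1
        simp only [mul_zero, map_zero, Finset.mul_sum, map_sum, mul_smul_comm, map_smul,
          Fin.cons_zero, Fin.cons_succ] at h2
        have h3 : ∀ (o : Option κ) (c : Fin n → Option κ),
            C.push (fst Y X) (C.pull (snd Y X) (b j) * ((C.pull (snd Y X) (o.elim a w) *
              ∏ i : Fin n, C.pull (fst Y X ≫ x i) ((c i).elim a w)) *
                ∏ i, C.pull (fst Y X ≫ z i) a)) = C.deg X (o.elim a w * b j) •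
              ((∏ i, C.pull (x i) ((c i).elim a w)) * ∏ i, C.pull (z i) a) := by
          intro o c
          have e1 : (∏ i : Fin n, C.pull (fst Y X ≫ x i) ((c i).elim a w)) *
              ∏ i, C.pull (fst Y X ≫ z i) a = C.pull (fst Y X)
              ((∏ i, C.pull (x i) ((c i).elim a w)) * ∏ i, C.pull (z i) a) := by
            rw [C.pull_mul, map_prod, map_prod]
            simp only [C.pull_comp]
          rw [mul_assoc, e1, deg_push_fst]
        simp only [h3] at h2
        rw [Fintype.sum_option] at h2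
        simp only [Option.elim_none, Option.elim_some, hab, hwb, zero_smul, smul_zero,
          Finset.sum_const_zero, zero_add] at h2
        rw [Finset.sum_eq_single j] at h2
        · simpa using h2
        · intro i _ hi
          simp [hi]
        · intro hj
          exact absurd (Finset.mem_univ j) hj
    have hnone : ∀ c : Fin n → Option κ, lam (Fin.cons none c) = 0 := by
      refine ih (r + 1) (fun c => lam (Fin.cons none c)) (fun c hc => ?_) fun Y x z => ?_
      · have := hN _ hc
        rw [cnt_cons_none] at this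
        rwa [show r + 1 + cnt c = r + (cnt c + 1) by ring]
      · have h1 := hsplit Y (Fin.cons (z 0) x) (fun i => z i.succ)
        rw [Fintype.sum_option] at h1
        simp only [hsome, zero_smul, Finset.sum_const_zero, add_zero, Fin.cons_zero,
          Fin.cons_succ] at h1
        rw [← h1]
        refine Finset.sum_congr rfl fun c _ => ?_
        rw [Fin.prod_univ_succ (n := r)]
        congr 1
        simp only [Option.elim_none]
        ring
    intro c
    rw [← Fin.cons_self_tail c]
    rcases c 0 with _ | j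
    · exact hnone _
    · exact hsome _ _

end ChowTheory

end Pool.Agent.R903
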