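import Pool.Agent.R903.PermDefs

/-!
# Exterior products of cycles on powers of a variety: definitions
-/

open CategoryTheory CategoryTheory.Limits AlgebraicGeometry
open Pool.Agent.H914 Pool.Agent.H914.VarClass Pool.Agent.H914.VarClass.Obj

universe u v w

namespace Pool.Agent.R903

variable {k : Type u} [Field k] {𝒱 : VarClass k}

/-- The exterior product `v 0 × ⋯ × v n` on the power `X^(n + 1)`, which is the product of the
pull-backs of the `v i` under the projections to the factors. -/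
noncomputable def ChowTheory.extProd (C : ChowTheory.{u, v} 𝒱) {X : 𝒱.Obj} (n : ℕ)
    (v : Fin (n + 1) → C.CH X) : C.CH (pw X n) :=
  ∏ i, C.pull (pr X n i) (v i)

/-- The class `a` is smash-nilpotent: for some `m = n + 1 ≥ 1` its `m`-fold exterior product
`a × ⋯ × a` is zero on `X^m`. -/
def ChowTheory.SmashNilpotent (C : ChowTheory.{u, v} 𝒱) {X : 𝒱.Obj} (a : C.CH X) : Prop :=
  ∃ n, C.extProd n (fun _ => a) = 0

/-- The class `a` is numerically trivial: `deg (a * b) = 0` for all `b`. -/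
def ChowTheory.NumTriv (C : ChowTheory.{u, v} 𝒱) {X : 𝒱.Obj} (a : C.CH X) : Prop :=
  ∀ b, C.deg X (a * b) = 0

/-- `deg (a * b) = 0` for all `b` of codimension `dim X - r`. -/
def ChowTheory.NumTrivAt (C : ChowTheory.{u, v} 𝒱) {X : 𝒱.Obj} (r : ℕ) (a : C.CH X) : Prop :=
  ∀ b ∈ C.gr X (X.dim - r), C.deg X (a * b) = 0

/-- The space of the numerically trivial classes on `X`. -/
noncomputable def ChowTheory.numTrivial (C : ChowTheory.{u, v} 𝒱) (X : 𝒱.Obj) :
    Submodule ℚ (C.CH X) where
  carrier := {a | C.NumTriv a}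
  add_mem' := fun {a a'} ha ha' b => by rw [add_mul, map_add, ha, ha', add_zero]
  zero_mem' := fun b => by rw [zero_mul, map_zero]
  smul_mem' := fun c a ha b => by rw [smul_mul_assoc, map_smul, ha, smul_zero]

/-- The dimension of a space of classes. -/
noncomputable def ChowTheory.dimOf (C : ChowTheory.{u, v} 𝒱) {X : 𝒱.Obj}
    (V : Submodule ℚ (C.CH X)) : ℕ :=
  Module.finrank ℚ V

/-- The numerical rank of a finite-dimensional space `V` of classes: its dimension modulo numerical
equivalence. -/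
noncomputable def ChowTheory.numRank (C : ChowTheory.{u, v} 𝒱) {X : 𝒱.Obj}
    (V : Submodule ℚ (C.CH X)) : ℕ :=
  C.dimOf V - C.dimOf (V ⊓ C.numTrivial X)

/-- The subspace of `CH(X^(n + 1))` spanned by the exterior products `v 0 × ⋯ × v n` of classes in
`V`. -/
noncomputable def ChowTheory.extSpan (C : ChowTheory.{u, v} 𝒱) {X : 𝒱.Obj}
    (V : Submodule ℚ (C.CH X)) (n : ℕ) : Submodule ℚ (C.CH (pw X n)) :=
  Submodule.span ℚ {z | ∃ v : Fin (n + 1) → C.CH X, (∀ i, v i ∈ V) ∧ z = C.extProd n v}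

/-- The dimension of the space of exterior products of `n + 1` classes in `V`. -/
noncomputable def ChowTheory.extDim (C : ChowTheory.{u, v} 𝒱) {X : 𝒱.Obj}
    (V : Submodule ℚ (C.CH X)) (n : ℕ) : ℕ :=
  C.dimOf (C.extSpan V n)

/-- All numerically trivial classes in `V` are smash-nilpotent. -/
def ChowTheory.NilpotentOn (C : ChowTheory.{u, v} 𝒱) {X : 𝒱.Obj} (V : Submodule ℚ (C.CH X)) :
    Prop :=
  ∀ a ∈ V, C.NumTriv a → C.SmashNilpotent a

/-- `dim V_m < (ρ + 1)^m` for some `m = n + 1`, where `V_m` is the space of exterior products of `m`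
classes in `V` and `ρ` is the numerical rank of `V`. -/
def ChowTheory.BelowGap (C : ChowTheory.{u, v} 𝒱) {X : 𝒱.Obj} (V : Submodule ℚ (C.CH X)) : Prop :=
  ∃ n, C.extDim V n < (C.numRank V + 1) ^ (n + 1)

/-- `dim V_m ≤ A m^d ρ^m` for large `m = n + 1`, for some `A` and `d`. -/
def ChowTheory.PolynomialGrowth (C : ChowTheory.{u, v} 𝒱) {X : 𝒱.Obj}
    (V : Submodule ℚ (C.CH X)) : Prop :=
  ∃ A d : ℕ, ∀ n, A ≤ n → C.extDim V n ≤ A * (n + 1) ^ d * C.numRank V ^ (n + 1)

/-- `dim V_m = ∑ (m choose i) ρ^(m - i) dim N_i` for all `m = n + 1`, where `N` is the space of the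
numerically trivial classes in `V`, and `dim N_0` is read as `1`. -/
def ChowTheory.DimensionFormula (C : ChowTheory.{u, v} 𝒱) {X : 𝒱.Obj}
    (V : Submodule ℚ (C.CH X)) : Prop :=
  ∀ n, C.extDim V n = C.numRank V ^ (n + 1) + ∑ i ∈ Finset.range (n + 1),
    (n + 1).choose (i + 1) * C.numRank V ^ (n - i) * C.extDim (V ⊓ C.numTrivial X) i

/-- The exterior product with the class `a` in the factors in `S` and `w` in the other factors. -/
noncomputable def ChowTheory.mixedProd (C : ChowTheory.{u, v} 𝒱) {X : 𝒱.Obj} (a w : C.CH X)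
    (n : ℕ) (S : Finset (Fin (n + 1))) : C.CH (pw X n) :=
  C.extProd n fun i => if i ∈ S then a else w

/-- The `2^(n + 1)` exterior products of copies of `a` and `w` on `X^(n + 1)` are linearly
dependent. -/
def ChowTheory.MixedDependent (C : ChowTheory.{u, v} 𝒱) {X : 𝒱.Obj} (a w : C.CH X) (n : ℕ) :
    Prop :=
  ¬ LinearIndependent ℚ (C.mixedProd a w n)

end Pool.Agent.R903
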