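import Pool.Agent.R903.Smash

/-!
# The dimensions of the spaces of exterior products
-/

open CategoryTheory CategoryTheory.Limits AlgebraicGeometry
open Pool.Agent.H914 Pool.Agent.H914.VarClass Pool.Agent.H914.VarClass.Obj
open Module

universe u v w

namespace Pool.Agent.R903

variable {k : Type u} [Field k] {𝒱 : VarClass k} {C : ChowTheory.{u, v} 𝒱}

/-- `n + r` morphisms to `X` -/
structure Pt (X : 𝒱.Obj) (n r : ℕ) where
  Y : 𝒱.Obj
  x : Fin n → (Y ⟶ X)
  z : Fin r → (Y ⟶ X)

/-- the index set -/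
abbrev Idx (κ τ : Type) (n r : ℕ) : Type := (Fin n → κ ⊕ τ) × (Fin r → τ)

namespace ChowTheory

variable {X : 𝒱.Obj} {κ τ : Type}

/-- products of classes on the factors -/
noncomputable def fam (w : κ → C.CH X) (a : τ → C.CH X) (n r : ℕ) (i : Idx κ τ n r) :
    ∀ p : Pt X n r, C.CH p.Y :=
  fun p => (∏ l, C.pull (p.x l) (Sum.elim w a (i.1 l))) * ∏ j, C.pull (p.z j) (a (i.2 j))

section

variable [Fintype κ] [Fintype τ]

/-- the linear relations between the products -/
noncomputable def relSub (w : κ → C.CH X) (a : τ → C.CH X) (n r : ℕ) :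
    Submodule ℚ (Idx κ τ n r → ℚ) :=
  LinearMap.ker (Fintype.linearCombination ℚ (fam w a n r))

lemma mem_relSub {w : κ → C.CH X} {a : τ → C.CH X} {n r : ℕ} {lam : Idx κ τ n r → ℚ} :
    lam ∈ relSub w a n r ↔ ∀ (Y : 𝒱.Obj) (x : Fin n → (Y ⟶ X)) (z : Fin r → (Y ⟶ X)),
      ∑ c, ∑ d, lam (c, d) • ((∏ l, C.pull (x l) (Sum.elim w a (c l))) *
        ∏ j, C.pull (z j) (a (d j))) = 0 := by
  rw [relSub, LinearMap.mem_ker, Fintype.linearCombination_apply]
  constructor
  · intro h Y x z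
    have h1 := congrFun h ⟨Y, x, z⟩
    rw [Finset.sum_apply, Fintype.sum_prod_type] at h1
    exact h1
  · intro h
    funext p
    rw [Finset.sum_apply, Fintype.sum_prod_type]
    exact h p.Y p.x p.z

lemma sum_cons {n : ℕ} {M : Type*} [AddCommMonoid M] (f : (Fin (n + 1) → κ ⊕ τ) → M) :
    ∑ c, f c = (∑ j : κ, ∑ c : Fin n → κ ⊕ τ, f (Fin.cons (Sum.inl j) c)) +
      ∑ t : τ, ∑ c : Fin n → κ ⊕ τ, f (Fin.cons (Sum.inr t) c) := by
  rw [← (Fin.consEquiv fun _ : Fin (n + 1) => κ ⊕ τ).sum_comp, Fintype.sum_prod_type,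
    Fintype.sum_sum_type]
  rfl

/-- restriction of the relation to the functions with first value `j` -/
def resL (n r : ℕ) (lam : Idx κ τ (n + 1) r → ℚ) (j : κ) : Idx κ τ n r → ℚ :=
  fun i => lam (Fin.cons (Sum.inl j) i.1, i.2)

/-- restriction of the relation to the functions with first value in `τ` -/
def resR (n r : ℕ) (lam : Idx κ τ (n + 1) r → ℚ) : Idx κ τ n (r + 1) → ℚ :=
  fun i => lam (Fin.cons (Sum.inr (i.2 0)) i.1, Fin.tail i.2)

/-- gluing -/
def glue (n r : ℕ) (f : κ → Idx κ τ n r → ℚ) (g : Idx κ τ n (r + 1) → ℚ) :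
    Idx κ τ (n + 1) r → ℚ :=
  fun i => Sum.elim (fun j => f j (Fin.tail i.1, i.2))
    (fun t => g (Fin.tail i.1, Fin.cons t i.2)) (i.1 0)

omit [Fintype κ] [Fintype τ] in
lemma glue_res (n r : ℕ) (lam : Idx κ τ (n + 1) r → ℚ) :
    glue n r (resL n r lam) (resR n r lam) = lam := by
  funext ⟨c, d⟩
  simp only [glue, resL, resR]
  rcases h : c 0 with j | t
  · simp only [Sum.elim_inl]
    rw [← h, Fin.cons_self_tail]
  · simp only [Sum.elim_inr, Fin.cons_zero, Fin.tail_cons]
    rw [← h, Fin.cons_self_tail]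

omit [Fintype κ] [Fintype τ] in
lemma resL_glue (n r : ℕ) (f : κ → Idx κ τ n r → ℚ) (g : Idx κ τ n (r + 1) → ℚ) :
    resL n r (glue n r f g) = f := by
  funext j ⟨c, d⟩
  simp [glue, resL]

omit [Fintype κ] [Fintype τ] in
lemma resR_glue (n r : ℕ) (f : κ → Idx κ τ n r → ℚ) (g : Idx κ τ n (r + 1) → ℚ) :
    resR n r (glue n r f g) = g := by
  funext ⟨c, d⟩
  simp [glue, resR]

lemma sum_split {w : κ → C.CH X} {a : τ → C.CH X} {n r : ℕ} (lam : Idx κ τ (n + 1) r → ℚ)
    {Y : 𝒱.Obj} (x : Fin (n + 1) → (Y ⟶ X)) (z : Fin r → (Y ⟶ X)) :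
    ∑ c, ∑ d, lam (c, d) • ((∏ l, C.pull (x l) (Sum.elim w a (c l))) *
        ∏ j, C.pull (z j) (a (d j))) =
      (∑ j, C.pull (x 0) (w j) * ∑ c, ∑ d, resL n r lam j (c, d) •
        ((∏ l, C.pull (x (Fin.succ l)) (Sum.elim w a (c l))) * ∏ j, C.pull (z j) (a (d j)))) +
      ∑ c, ∑ d, resR n r lam (c, d) •
        ((∏ l, C.pull (x (Fin.succ l)) (Sum.elim w a (c l))) *
          ∏ j, C.pull ((Fin.cons (x 0) z : Fin (r + 1) → (Y ⟶ X)) j) (a (d j))) := by
  rw [sum_cons]
  congr 1
  · refine Finset.sum_congr rfl fun j _ => ?_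
    rw [Finset.mul_sum]
    refine Finset.sum_congr rfl fun c _ => ?_
    rw [Finset.mul_sum]
    refine Finset.sum_congr rfl fun d _ => ?_
    rw [Fin.prod_univ_succ, mul_smul_comm, ← mul_assoc]
    rfl
  · rw [Finset.sum_comm]
    refine Finset.sum_congr rfl fun c _ => ?_
    rw [← (Fin.consEquiv fun _ : Fin (r + 1) => τ).sum_comp, Fintype.sum_prod_type]
    refine Finset.sum_congr rfl fun t _ => Finset.sum_congr rfl fun d _ => ?_
    have e1 : (Fin.consEquiv fun _ : Fin (r + 1) => τ) (t, d) = Fin.cons t d := rfl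
    rw [e1, resR]
    simp only [Fin.cons_zero, Fin.tail_cons, Fin.prod_univ_succ, Fin.cons_succ, Sum.elim_inr]
    congr 1
    ring

/-- contraction of the first factor -/
lemma res_mem [DecidableEq κ] {w b : κ → C.CH X} {a : τ → C.CH X}
    (hwb : ∀ i j, C.deg X (w i * b j) = if i = j then 1 else 0)
    (hab : ∀ t j, C.deg X (a t * b j) = 0) {n r : ℕ} {lam : Idx κ τ (n + 1) r → ℚ}
    (h : lam ∈ relSub w a (n + 1) r) :
    (∀ j, resL n r lam j ∈ relSub w a n r) ∧ resR n r lam ∈ relSub w a n (r + 1) := by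
  rw [mem_relSub] at h
  have hL : ∀ j, resL n r lam j ∈ relSub w a n r := by
    intro j₀
    rw [mem_relSub]
    intro Y x z
    have h1 := h (Y.prod X) (Fin.cons (snd Y X) fun i => fst Y X ≫ x i) (fun i => fst Y X ≫ z i)
    rw [sum_cons] at h1
    have h2 := congrArg (fun y => C.push (fst Y X) (C.pull (snd Y X) (b j₀) * y)) h1
    simp only [mul_zero, map_zero, Finset.mul_sum, map_sum, mul_smul_comm, map_smul, mul_add,
      map_add, Fin.prod_univ_succ, Fin.cons_zero, Fin.cons_succ, Sum.elim_inl,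
      Sum.elim_inr] at h2
    have h3 : ∀ (v : C.CH X) (c : Fin n → κ ⊕ τ) (d : Fin r → τ),
        C.push (fst Y X) (C.pull (snd Y X) (b j₀) * ((C.pull (snd Y X) v *
          ∏ i : Fin n, C.pull (fst Y X ≫ x i) (Sum.elim w a (c i))) *
            ∏ i, C.pull (fst Y X ≫ z i) (a (d i)))) = C.deg X (v * b j₀) •
          ((∏ i, C.pull (x i) (Sum.elim w a (c i))) * ∏ i, C.pull (z i) (a (d i))) := by
      intro v c d
      have e1 : (∏ i : Fin n, C.pull (fst Y X ≫ x i) (Sum.elim w a (c i))) *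
          ∏ i, C.pull (fst Y X ≫ z i) (a (d i)) = C.pull (fst Y X)
          ((∏ i, C.pull (x i) (Sum.elim w a (c i))) * ∏ i, C.pull (z i) (a (d i))) := by
        rw [C.pull_mul, map_prod, map_prod]
        simp only [C.pull_comp]
      rw [mul_assoc, e1, deg_push_fst]
    simp only [h3, hab, hwb, zero_smul, smul_zero, Finset.sum_const_zero, add_zero] at h2
    rw [Finset.sum_eq_single j₀] at h2
    · simp only [if_true, one_smul] at h2
      exact h2
    · intro i _ hi
      simp [hi]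
    · intro hj
      exact absurd (Finset.mem_univ _) hj
  refine ⟨hL, ?_⟩
  rw [mem_relSub]
  intro Y x z
  have h1 := h Y (Fin.cons (z 0) x) (Fin.tail z)
  rw [sum_split] at h1
  have h2 : (∑ j, C.pull ((Fin.cons (z 0) x : Fin (n + 1) → (Y ⟶ X)) 0) (w j) *
      ∑ c, ∑ d, resL n r lam j (c, d) •
        ((∏ l : Fin n, C.pull ((Fin.cons (z 0) x : Fin (n + 1) → (Y ⟶ X)) (Fin.succ l))
          (Sum.elim w a (c l))) * ∏ j, C.pull (Fin.tail z j) (a (d j)))) = 0 := by
    refine Finset.sum_eq_zero fun j _ => ?_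
    have h3 := mem_relSub.1 (hL j) Y x (Fin.tail z)
    simp only [Fin.cons_succ]
    rw [h3, mul_zero]
  rw [h2, zero_add] at h1
  simpa only [Fin.cons_zero, Fin.cons_succ, Fin.cons_self_tail] using h1

lemma glue_mem {w : κ → C.CH X} {a : τ → C.CH X} {n r : ℕ} {f : κ → Idx κ τ n r → ℚ}
    {g : Idx κ τ n (r + 1) → ℚ} (hf : ∀ j, f j ∈ relSub w a n r)
    (hg : g ∈ relSub w a n (r + 1)) : glue n r f g ∈ relSub w a (n + 1) r := by
  rw [mem_relSub]
  intro Y x z
  rw [sum_split, resL_glue, resR_glue]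
  have h1 := mem_relSub.1 hg Y (fun l => x (Fin.succ l)) (Fin.cons (x 0) z)
  rw [h1, add_zero]
  refine Finset.sum_eq_zero fun j _ => ?_
  rw [mem_relSub.1 (hf j) Y (fun l => x (Fin.succ l)) z, mul_zero]

/-- the recursion for the space of relations -/
noncomputable def relEquiv [DecidableEq κ] {w b : κ → C.CH X} {a : τ → C.CH X}
    (hwb : ∀ i j, C.deg X (w i * b j) = if i = j then 1 else 0)
    (hab : ∀ t j, C.deg X (a t * b j) = 0) (n r : ℕ) :
    relSub w a (n + 1) r ≃ₗ[ℚ] (κ → relSub w a n r) × relSub w a n (r + 1) where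
  toFun lam := (fun j => ⟨resL n r lam.1 j, (res_mem hwb hab lam.2).1 j⟩,
    ⟨resR n r lam.1, (res_mem hwb hab lam.2).2⟩)
  invFun p := ⟨glue n r (fun j => (p.1 j).1) p.2.1, glue_mem (fun j => (p.1 j).2) p.2.2⟩
  map_add' _ _ := rfl
  map_smul' _ _ := rfl
  left_inv lam := Subtype.ext (glue_res n r lam.1)
  right_inv p := by
    refine Prod.ext (funext fun j => Subtype.ext ?_) (Subtype.ext ?_)
    · exact congrFun (resL_glue n r (fun j => (p.1 j).1) p.2.1) j
    · exact resR_glue n r (fun j => (p.1 j).1) p.2.1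

/-- the dimension of the space spanned by the products -/
noncomputable def rk (w : κ → C.CH X) (a : τ → C.CH X) (n r : ℕ) : ℕ :=
  finrank ℚ (Submodule.span ℚ (Set.range (fam w a n r)))

lemma finrank_span_add {ι : Type*} [Fintype ι] {M : Type*} [AddCommGroup M] [Module ℚ M]
    (f : ι → M) : finrank ℚ (Submodule.span ℚ (Set.range f)) +
      finrank ℚ (LinearMap.ker (Fintype.linearCombination ℚ f)) = Fintype.card ι := by
  rw [← Fintype.range_linearCombination, LinearMap.finrank_range_add_finrank_ker]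
  exact Module.finrank_fintype_fun_eq_card ℚ

lemma rk_rec [DecidableEq κ] [DecidableEq τ] {w b : κ → C.CH X} {a : τ → C.CH X}
    (hwb : ∀ i j, C.deg X (w i * b j) = if i = j then 1 else 0)
    (hab : ∀ t j, C.deg X (a t * b j) = 0) (n r : ℕ) :
    rk w a (n + 1) r = Fintype.card κ * rk w a n r + rk w a n (r + 1) := by
  have h1 := finrank_span_add (fam w a (n + 1) r)
  have h2 := finrank_span_add (fam w a n r)
  have h3 := finrank_span_add (fam w a n (r + 1))
  have h4 := (relEquiv hwb hab n r).finrank_eq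
  rw [Module.finrank_prod, Module.finrank_pi_fintype, Finset.sum_const, Finset.card_univ,
    smul_eq_mul] at h4
  have h5 : Fintype.card (Idx κ τ (n + 1) r) = Fintype.card κ * Fintype.card (Idx κ τ n r) +
      Fintype.card (Idx κ τ n (r + 1)) := by
    simp only [Idx, Fintype.card_prod, Fintype.card_fun, Fintype.card_sum, Fintype.card_fin]
    ring
  change rk w a (n + 1) r + finrank ℚ (relSub w a (n + 1) r) = _ at h1
  change rk w a n r + finrank ℚ (relSub w a n r) = _ at h2
  change rk w a n (r + 1) + finrank ℚ (relSub w a n (r + 1)) = _ at h3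
  rw [h4, h5, ← h2, ← h3] at h1
  linarith

end

lemma pascal (f : ℕ → ℕ → ℕ) (q : ℕ) (h : ∀ n r, f (n + 1) r = q * f n r + f n (r + 1)) (n : ℕ) :
    ∀ r, f n r = ∑ i ∈ Finset.range (n + 1), n.choose i * q ^ (n - i) * f 0 (r + i) := by
  induction n with
  | zero => intro r; simp
  | succ n ih =>
    intro r
    rw [h, ih r, ih (r + 1), Finset.sum_range_succ' _ (n + 1)]
    have e1 : ∀ i ∈ Finset.range (n + 1),
        (n + 1).choose (i + 1) * q ^ (n + 1 - (i + 1)) * f 0 (r + (i + 1)) =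
        n.choose i * q ^ (n - i) * f 0 (r + 1 + i) +
          n.choose (i + 1) * q ^ (n - i) * f 0 (r + (i + 1)) := by
      intro i _
      rw [Nat.choose_succ_succ, Nat.succ_sub_succ, show r + 1 + i = r + (i + 1) by ring]
      ring
    rw [Finset.sum_congr rfl e1, Finset.sum_add_distrib]
    have e2 : q * ∑ i ∈ Finset.range (n + 1), n.choose i * q ^ (n - i) * f 0 (r + i) =
        ∑ i ∈ Finset.range (n + 1), n.choose (i + 1) * q ^ (n - i) * f 0 (r + (i + 1)) +
          (n + 1).choose 0 * q ^ (n + 1 - 0) * f 0 (r + 0) := by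
      conv_lhs => rw [Finset.sum_range_succ']
      conv_rhs => rw [Finset.sum_range_succ]
      rw [Nat.choose_succ_self, zero_mul, zero_mul, add_zero, mul_add, Finset.mul_sum]
      congr 1
      · refine Finset.sum_congr rfl fun i hi => ?_
        have hi' : i < n := Finset.mem_range.1 hi
        have : n - i = n - (i + 1) + 1 := by omega
        rw [this, pow_succ]
        ring
      · simp only [Nat.choose_zero_right, Nat.sub_zero, one_mul, pow_succ]
        ring
    rw [e2]
    ring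

end ChowTheory

end Pool.Agent.R903
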