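import Pool.Agent.R903.SmashDim

/-!
# The growth of the spaces of exterior products
-/

open CategoryTheory CategoryTheory.Limits AlgebraicGeometry
open Pool.Agent.H914 Pool.Agent.H914.VarClass Pool.Agent.H914.VarClass.Obj
open Module

universe u v w

namespace Pool.Agent.R903

variable {k : Type u} [Field k] {𝒱 : VarClass k} {C : ChowTheory.{u, v} 𝒱}

namespace ChowTheory

variable {X Y : 𝒱.Obj} {κ τ : Type}

lemma span_extProd {ι : Type*} [Fintype ι] (e : ι → C.CH X) {V : Submodule ℚ (C.CH X)}
    (hV : Submodule.span ℚ (Set.range e) = V) (n : ℕ) :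
    Submodule.span ℚ (Set.range fun c : Fin (n + 1) → ι => C.extProd n fun i => e (c i)) =
      C.extSpan V n := by
  classical
  apply le_antisymm
  · rw [Submodule.span_le]
    rintro _ ⟨c, rfl⟩
    exact Submodule.subset_span ⟨_, fun i => hV ▸ Submodule.subset_span ⟨c i, rfl⟩, rfl⟩
  · rw [extSpan, Submodule.span_le]
    rintro _ ⟨v, hv, rfl⟩
    have h1 : ∀ i, ∃ q : ι → ℚ, ∑ j, q j • e j = v i := by
      intro i
      have := hv i
      rwa [← hV, Submodule.mem_span_range_iff_exists_fun] at this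
    choose q hq using h1
    have h2 : C.extProd n v = ∑ c : Fin (n + 1) → ι, (∏ i, q i (c i)) •
        C.extProd n fun i => e (c i) := by
      simp only [extProd]
      have h3 : ∀ i, C.pull (pr X n i) (v i) = ∑ j, q i j • C.pull (pr X n i) (e j) := by
        intro i
        rw [← hq i, map_sum]
        simp only [map_smul]
      simp only [h3]
      rw [Finset.prod_univ_sum, Fintype.piFinset_univ]
      refine Finset.sum_congr rfl fun c _ => ?_
      rw [Finset.prod_smul]
    rw [SetLike.mem_coe, h2]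
    exact Submodule.sum_mem _ fun c _ => Submodule.smul_mem _ _ (Submodule.subset_span ⟨c, rfl⟩)

lemma finrank_span_eq_of_ker_eq {ι : Type*} [Fintype ι] {M N : Type*} [AddCommGroup M]
    [Module ℚ M] [AddCommGroup N] [Module ℚ N] (f : ι → M) (g : ι → N)
    (h : ∀ lam : ι → ℚ, ∑ i, lam i • f i = 0 ↔ ∑ i, lam i • g i = 0) :
    finrank ℚ (Submodule.span ℚ (Set.range f)) = finrank ℚ (Submodule.span ℚ (Set.range g)) := by
  have h1 := finrank_span_add f
  have h2 := finrank_span_add g
  have h3 : LinearMap.ker (Fintype.linearCombination ℚ f) =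
      LinearMap.ker (Fintype.linearCombination ℚ g) := by
    ext lam
    rw [LinearMap.mem_ker, LinearMap.mem_ker, Fintype.linearCombination_apply,
      Fintype.linearCombination_apply]
    exact h lam
  rw [h3] at h1
  omega

lemma rk_left [Fintype κ] [Fintype τ] (w : κ → C.CH X) (a : τ → C.CH X)
    {V : Submodule ℚ (C.CH X)} (hV : Submodule.span ℚ (Set.range (Sum.elim w a)) = V) (n : ℕ) :
    rk w a (n + 1) 0 = finrank ℚ (C.extSpan V n) := by
  rw [← span_extProd _ hV]
  have h1 : Set.range (fun c : Fin (n + 1) → κ ⊕ τ => C.extProd n fun i => Sum.elim w a (c i)) =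
      Set.range (fun i : Idx κ τ (n + 1) 0 => C.extProd n fun l => Sum.elim w a (i.1 l)) := by
    ext z
    constructor
    · rintro ⟨c, rfl⟩
      exact ⟨(c, Fin.elim0), rfl⟩
    · rintro ⟨i, rfl⟩
      exact ⟨i.1, rfl⟩
  rw [h1, rk]
  refine finrank_span_eq_of_ker_eq _ _ fun lam => ?_
  constructor
  · intro h
    have h2 := congrFun h ⟨pw X n, pr X n, Fin.elim0⟩
    rw [Finset.sum_apply] at h2
    refine Eq.trans (Finset.sum_congr rfl fun i _ => ?_) h2
    rw [Pi.smul_apply, fam, Fin.prod_univ_zero, mul_one]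
    rfl
  · intro h
    funext p
    rw [Finset.sum_apply]
    obtain ⟨g, hg⟩ := exists_lift n p.x
    have h2 := congrArg (C.pull g) h
    rw [map_zero, map_sum] at h2
    rw [Pi.zero_apply, ← h2]
    refine Finset.sum_congr rfl fun i _ => ?_
    rw [Pi.smul_apply, fam, Fin.prod_univ_zero, mul_one, map_smul, pull_extProd hg]

lemma rk_right [Fintype κ] [Fintype τ] (w : κ → C.CH X) (a : τ → C.CH X)
    {V : Submodule ℚ (C.CH X)} (hV : Submodule.span ℚ (Set.range a) = V) (r : ℕ) :
    rk w a 0 (r + 1) = finrank ℚ (C.extSpan V r) := by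
  rw [← span_extProd _ hV]
  have h1 : Set.range (fun c : Fin (r + 1) → τ => C.extProd r fun i => a (c i)) =
      Set.range (fun i : Idx κ τ 0 (r + 1) => C.extProd r fun l => a (i.2 l)) := by
    ext z
    constructor
    · rintro ⟨c, rfl⟩
      exact ⟨(Fin.elim0, c), rfl⟩
    · rintro ⟨i, rfl⟩
      exact ⟨i.2, rfl⟩
  rw [h1, rk]
  refine finrank_span_eq_of_ker_eq _ _ fun lam => ?_
  constructor
  · intro h
    have h2 := congrFun h ⟨pw X r, Fin.elim0, pr X r⟩
    rw [Finset.sum_apply] at h2
    refine Eq.trans (Finset.sum_congr rfl fun i _ => ?_) h2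
    rw [Pi.smul_apply, fam, Fin.prod_univ_zero, one_mul]
    rfl
  · intro h
    funext p
    rw [Finset.sum_apply]
    obtain ⟨g, hg⟩ := exists_lift r p.z
    have h2 := congrArg (C.pull g) h
    rw [map_zero, map_sum] at h2
    rw [Pi.zero_apply, ← h2]
    refine Finset.sum_congr rfl fun i _ => ?_
    rw [Pi.smul_apply, fam, Fin.prod_univ_zero, one_mul, map_smul, pull_extProd hg]

lemma rk_zero [Fintype κ] [Fintype τ] (w : κ → C.CH X) (a : τ → C.CH X)
    (h1 : (1 : C.CH X) ≠ 0) : rk w a 0 0 = 1 := by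
  have h2 : Set.range (fam w a 0 0) = {fam w a 0 0 (Fin.elim0, Fin.elim0)} := by
    ext z
    rw [Set.mem_singleton_iff]
    constructor
    · rintro ⟨i, rfl⟩
      congr 1
      exact Subsingleton.elim _ _
    · rintro rfl
      exact ⟨_, rfl⟩
  rw [rk, h2]
  apply finrank_span_singleton
  intro h
  apply h1
  have h3 := congrFun h ⟨X, Fin.elim0, Fin.elim0⟩
  rw [fam, Fin.prod_univ_zero, Fin.prod_univ_zero, one_mul] at h3
  exact h3

lemma finrank_map_mkQ {M : Type*} [AddCommGroup M] [Module ℚ M] (V N : Submodule ℚ M)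
    [FiniteDimensional ℚ V] : finrank ℚ (V.map N.mkQ) =
      finrank ℚ V - finrank ℚ (V ⊓ N : Submodule ℚ M) := by
  have h1 := LinearMap.finrank_range_add_finrank_ker (N.mkQ.domRestrict V)
  rw [LinearMap.range_domRestrict, LinearMap.ker_domRestrict, Submodule.ker_mkQ] at h1
  have h2 : finrank ℚ (N.comap V.subtype) = finrank ℚ (V ⊓ N : Submodule ℚ M) := by
    have h3 : N.comap V.subtype = (V ⊓ N).comap V.subtype := by
      ext x
      simp
    rw [h3]
    exact (Submodule.comapSubtypeEquivOfLe inf_le_left).finrank_eq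
  rw [← h1, h2]
  omega

/-- a basis of `V` modulo numerical equivalence, with a dual family -/
lemma exists_dual (V : Submodule ℚ (C.CH X)) [FiniteDimensional ℚ V] :
    ∃ w b : Fin (C.numRank V) → C.CH X, (∀ i, w i ∈ V) ∧
      (∀ i j, C.deg X (w i * b j) = if i = j then 1 else 0) ∧
      ∀ v ∈ V, ∃ c : Fin (C.numRank V) → ℚ, v - ∑ i, c i • w i ∈ C.numTrivial X := by
  classical
  set N := C.numTrivial X with hN
  set U := V.map N.mkQ with hU
  set P : C.CH X →ₗ[ℚ] C.CH X →ₗ[ℚ] ℚ := (LinearMap.mul ℚ (C.CH X)).compr₂ (C.deg X) with hP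
  have hPa : ∀ a b, P a b = C.deg X (a * b) := fun _ _ => rfl
  have hPN : N ≤ LinearMap.ker P := by
    intro a ha
    rw [LinearMap.mem_ker]
    ext b
    exact ha b
  set Q : (C.CH X ⧸ N) →ₗ[ℚ] C.CH X →ₗ[ℚ] ℚ := N.liftQ P hPN with hQ
  have hQi : Function.Injective Q := by
    rw [← LinearMap.ker_eq_bot, hQ, Submodule.ker_liftQ_eq_bot']
    apply le_antisymm hPN
    intro a ha b
    rw [← hPa, LinearMap.mem_ker.1 ha]
    rfl
  set R : U →ₗ[ℚ] C.CH X →ₗ[ℚ] ℚ := Q ∘ₗ U.subtype with hR
  have hRi : Function.Injective R := hQi.comp U.injective_subtype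
  have hRs : Function.Surjective R.flip := LinearMap.flip_surjective_iff₁.2 hRi
  set u : Basis (Fin (C.numRank V)) ℚ U := finBasisOfFinrankEq ℚ U (finrank_map_mkQ V N) with hu
  choose b hb using fun j => hRs (u.coord j)
  have h1 : ∀ i, ∃ w ∈ V, N.mkQ w = (u i : C.CH X ⧸ N) := fun i => Submodule.mem_map.1 (u i).2
  choose w hwV hwu using h1
  refine ⟨w, b, hwV, fun i j => ?_, fun v hv => ?_⟩
  · have h2 := congrArg (fun f => f (u i)) (hb j)
    simp only [Basis.coord_apply, Basis.repr_self, Finsupp.single_apply] at h2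
    rw [← h2]
    change C.deg X (w i * b j) = Q (u i : C.CH X ⧸ N) (b j)
    rw [← hwu i]
    rfl
  · set y : U := ⟨N.mkQ v, Submodule.mem_map_of_mem hv⟩ with hy
    refine ⟨fun i => u.repr y i, ?_⟩
    rw [← Submodule.Quotient.mk_eq_zero, ← Submodule.mkQ_apply, map_sub, map_sum, sub_eq_zero]
    have h3 := congrArg Subtype.val (u.sum_repr y)
    rw [hy] at h3
    simp only at h3
    rw [← h3]
    simp only [map_smul, hwu]
    rw [← Submodule.coe_subtype, map_sum]
    rfl

lemma one_ne_zero_of_numRank {V : Submodule ℚ (C.CH X)} (h : C.numRank V ≠ 0) :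
    (1 : C.CH X) ≠ 0 := by
  intro h1
  apply h
  have h2 : Subsingleton (C.CH X) := ⟨fun a b => by rw [← mul_one a, ← mul_one b, h1]; simp⟩
  rw [numRank, dimOf, Module.finrank_zero_of_subsingleton, Nat.zero_sub]

/-- The dimension of the space of exterior products. -/
theorem finrank_extSpan (V : Submodule ℚ (C.CH X)) [FiniteDimensional ℚ V] (n : ℕ) :
    finrank ℚ (C.extSpan V n) = C.numRank V ^ (n + 1) + ∑ i ∈ Finset.range (n + 1),
      (n + 1).choose (i + 1) * C.numRank V ^ (n - i) *
        finrank ℚ (C.extSpan (V ⊓ C.numTrivial X) i) := by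
  classical
  obtain ⟨w, b, hw, hwb, hV⟩ := exists_dual V
  have hfin : FiniteDimensional ℚ (V ⊓ C.numTrivial X : Submodule ℚ (C.CH X)) :=
    Submodule.finiteDimensional_of_le inf_le_left
  set u := finBasis ℚ (V ⊓ C.numTrivial X : Submodule ℚ (C.CH X)) with hu
  set a : Fin (finrank ℚ (V ⊓ C.numTrivial X : Submodule ℚ (C.CH X))) → C.CH X :=
    fun i => (u i : C.CH X) with ha
  have hspa : Submodule.span ℚ (Set.range a) = V ⊓ C.numTrivial X := by
    have h1 := congrArg (Submodule.map (V ⊓ C.numTrivial X).subtype) u.span_eq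
    rw [Submodule.map_span, Submodule.map_top, Submodule.range_subtype, ← Set.range_comp] at h1
    exact h1
  have hspV : Submodule.span ℚ (Set.range (Sum.elim w a)) = V := by
    rw [Set.Sum.elim_range, Submodule.span_union, hspa]
    apply le_antisymm
    · apply sup_le _ inf_le_left
      rw [Submodule.span_le]
      rintro _ ⟨i, rfl⟩
      exact hw i
    · intro v hv
      obtain ⟨c, hc⟩ := hV v hv
      have h1 : ∑ i, c i • w i ∈ Submodule.span ℚ (Set.range w) :=
        Submodule.sum_mem _ fun i _ => Submodule.smul_mem _ _ (Submodule.subset_span ⟨i, rfl⟩)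
      have h2 : ∑ i, c i • w i ∈ V :=
        Submodule.sum_mem _ fun i _ => Submodule.smul_mem _ _ (hw i)
      have h3 : v = ∑ i, c i • w i + (v - ∑ i, c i • w i) := by ring
      rw [h3]
      exact Submodule.add_mem_sup h1 ⟨Submodule.sub_mem _ hv h2, hc⟩
  have hab : ∀ t j, C.deg X (a t * b j) = 0 := fun t j => (u t).2.2 (b j)
  have h1 := pascal (rk w a) (C.numRank V) (fun n r => by
    have := rk_rec hwb hab n r
    rwa [Fintype.card_fin] at this) (n + 1) 0
  rw [rk_left w a hspV, Finset.sum_range_succ'] at h1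
  rw [h1, add_comm]
  congr 1
  · simp only [Nat.choose_zero_right, Nat.sub_zero, one_mul, add_zero]
    by_cases h0 : C.numRank V = 0
    · have h5 : C.numRank V ^ (n + 1) = 0 := by simp [h0]
      rw [h5, zero_mul]
    · rw [rk_zero w a (one_ne_zero_of_numRank h0), mul_one]
  · refine Finset.sum_congr rfl fun i _ => ?_
    rw [zero_add, rk_right w a hspa, Nat.succ_sub_succ]

end ChowTheory

end Pool.Agent.R903
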