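import Pool.Agent.R903.SqZStmt
import Pool.Agent.R903.LefBBEq
import Pool.Agent.R898.F

/-!
# Homologically trivial cycles and linear equations
-/

open CategoryTheory CategoryTheory.Limits AlgebraicGeometry
open Pool.Agent.H914 Pool.Agent.H914.VarClass Pool.Agent.H914.VarClass.Obj
open Pool.Agent.R898 Pool.Agent.R903.WeilTheory

universe u v w

namespace Pool.Agent.R903.LB

variable {k : Type u} [Field k] {𝒱 : VarClass k} {C : ChowTheory.{u, v} 𝒱}
  {W : WeilTheory.{u, v, w} C} {X Y : 𝒱.Obj}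

/-- `[h, γ] = -γ` for all homologically trivial `γ` -/
def AdMinus (W : WeilTheory.{u, v, w} C) (X : 𝒱.Obj) (h : C.CH (X.prod X)) : Prop :=
  ∀ γ ∈ C.gr (X.prod X) X.dim, W.cl _ γ = 0 → C.bracket h γ = (-1 : ℚ) • γ

lemma AdMinus.noRaising {h : C.CH (X.prod X)} (hA : AdMinus W X h) : W.NoRaising X h := by
  intro w γ hγ h0 hw
  have h1 := hA γ hγ h0
  rw [hw] at h1
  have h2 : ((w : ℚ) + 1) • γ = 0 := by
    rw [add_smul, h1]; module
  exact (smul_eq_zero.1 h2).resolve_left (by positivity)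

section

variable {π : ℕ → C.CH (X.prod X)} (h : W.IsCK X π)

include h

lemma AdMinus.block (hA : AdMinus W X (C.wt π)) {γ : C.CH (X.prod X)}
    (hγ : γ ∈ C.gr (X.prod X) X.dim) (h0 : W.cl _ γ = 0) {a b : ℕ} (hab : b + 1 ≠ a) :
    C.comp (C.comp (π a) γ) (π b) = 0 := by
  have h1 := h.block_bracket γ a b
  rw [hA γ hγ h0, C.comp_smul, C.smul_comp] at h1
  have h2 : ((b : ℚ) + 1 - a) • C.comp (C.comp (π a) γ) (π b) = 0 := by
    have h3 : ((b : ℚ) + 1 - a) • C.comp (C.comp (π a) γ) (π b) =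
        ((b : ℚ) - a) • C.comp (C.comp (π a) γ) (π b) -
          (-1 : ℚ) • C.comp (C.comp (π a) γ) (π b) := by module
    rw [h3, ← h1, sub_self]
  refine (smul_eq_zero.1 h2).resolve_left fun h3 => hab ?_
  exact_mod_cast sub_eq_zero.1 h3

/-- If all blocks of the homologically trivial correspondences except those of weight `-1` vanish,
then `[h, γ] = -γ`. -/
lemma adMinus_of_blocks (hB : ∀ γ ∈ C.gr (X.prod X) X.dim, W.cl _ γ = 0 → ∀ a b, b + 1 ≠ a →
    C.comp (C.comp (π a) γ) (π b) = 0) : AdMinus W X (C.wt π) := by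
  intro γ hγ h0
  rw [← sub_eq_zero]
  refine h.eq_zero_of_blocks fun a b => ?_
  rw [block_sub, h.block_bracket, C.comp_smul, C.smul_comp]
  by_cases hab : b + 1 = a
  · rw [← sub_smul]
    have h1 : (b : ℚ) - a - (-1) = 0 := by rw [← hab]; push_cast; ring
    rw [h1, zero_smul]
  · rw [hB γ hγ h0 a b hab, smul_zero, smul_zero, sub_zero]

/-- Only one component acts on the homologically trivial classes. -/
lemma AdMinus.act_hom (hP : C.Polarized) (hA : AdMinus W X (C.wt π)) {i : ℕ} {x : C.CH X}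
    (hx : x ∈ C.gr X i) (hcl : W.cl X x = 0) {b : ℕ} (hb : b + 1 ≠ 2 * i) :
    C.act (π b) x = 0 := by
  by_cases hi : X.dim < i
  · rw [C.gr_eq_bot X i hi, Submodule.mem_bot] at hx
    rw [hx, map_zero]
  obtain ⟨D, hD, hdeg⟩ := hP X
  have hpow : ∀ m, D ^ m ∈ C.gr X m := by
    intro m
    induction m with
    | zero => rw [pow_zero]; exact C.one_mem X
    | succ m ih => rw [pow_succ]; exact C.mul_mem ih hD
  set y := D ^ (X.dim - i) with hy
  have hγ : C.ext y x ∈ C.gr (X.prod X) X.dim := by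
    have := C.ext_mem (hpow (X.dim - i)) hx
    rwa [Nat.sub_add_cancel (by omega)] at this
  have hγ0 : W.cl _ (C.ext y x) = 0 := by
    rw [ChowTheory.ext, W.cl_mul, W.cl_pull (snd X X), hcl, map_zero, mul_zero]
  have h1 := congrArg (fun γ => C.act γ (D ^ i)) (hA.block h hγ hγ0 hb)
  simp only [C.act_comp, C.act_ext, C.act_zero, LinearMap.zero_apply, map_smul] at h1
  have hdeg' : C.deg X (C.act (π (2 * i)) (D ^ i) * y) = C.deg X (D ^ X.dim) := by
    have h1 : (C.deg X (C.act (π (2 * i)) (D ^ i) * y) : W.K) = (C.deg X (D ^ X.dim) : W.K) := by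
      rw [← W.tr_cl, ← W.tr_cl, W.cl_mul, W.cl_act, h.proj _ _ _ (W.cl_mem (hpow i)), if_pos rfl,
        ← W.cl_mul, hy, ← pow_add, Nat.add_sub_cancel' (by omega)]
    exact_mod_cast h1
  rw [hdeg'] at h1
  exact (smul_eq_zero.1 h1).resolve_left hdeg

end

/-- The condition, in terms of the library. -/
def LinPair (W : WeilTheory.{u, v, w} C) (X : 𝒱.Obj) (L' : C.CH (X.prod X)) : Prop :=
  ∃ L Λ : C.CH (X.prod X), W.IsLefPair X L' L Λ ∧ AdMinus W X (C.bracket L Λ)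

theorem twoStep_of_linPair (hP : C.Polarized) {L : ∀ X : 𝒱.Obj, C.CH (X.prod X)}
    (hL : ∀ X, W.IsLefschetzOp X (L X)) (hp : ∀ X, LinPair W X (L X)) : TwoStep W := by
  have hG : ∀ X : 𝒱.Obj, W.HasBBDecomposition X := by
    intro X
    obtain ⟨L₀, Λ₀, hp, hA⟩ := hp X
    obtain ⟨π, hπ, hw, h0⟩ := hp.exists_CK (hL X)
    have hI : W.LowersIndex π π := by
      rw [← hπ.noRaising_iff, hw]
      exact hA.noRaising
    exact ⟨hI.noPhantoms hπ, π, hπ, hI.isTriangular hπ, fun i => ⟨hI.murreD hπ hP π hπ i, h0 i⟩⟩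
  obtain ⟨hK, F', hF⟩ := (bb_iff_decompositions hP).2 hG
  intro X Y c γ m hγ h0 x hx
  by_cases h : m + 1 + c < X.dim
  · exact C.act_eq_zero hγ hx.1 h
  obtain ⟨i, hi⟩ : ∃ i, m + 1 + c = i + X.dim := ⟨m + 1 + c - X.dim, by omega⟩
  have h1 : C.act γ x ∈ F' Y i (1 + 1) :=
    bb_weight hK hF hγ hi (show 2 * m + 1 + 1 = 2 * (m + 1) by omega) h0
      ((hF.1.kernel X (m + 1) x).2 hx)
  obtain ⟨L₀, Λ₀, hp, hA⟩ := hp Y
  obtain ⟨π, hπ, hw, _⟩ := hp.exists_CK (hL Y)
  rw [← hw] at hA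
  rw [hF.eq_ckFil hπ, mem_ckFil hπ] at h1
  have hcl : W.cl Y (C.act γ x) = 0 := by rw [W.cl_act, hx.2, map_zero]
  refine hπ.eq_zero_of_act fun b => ?_
  by_cases hb : b + 1 = 2 * i
  · exact h1.2 b (by omega)
  · exact hA.act_hom hπ hP h1.1 hcl hb

theorem linPair_of_twoStep (hP : C.Polarized) {L : C.CH (X.prod X)}
    (hL : W.IsLefschetzOp X L) (hs : W.LefschetzStandard X L) (hT : TwoStep W)
    (hCK : W.HasCK X) : LinPair W X L := by
  obtain ⟨π, hπ⟩ := hCK
  have hB : ∀ γ ∈ C.gr (X.prod X) X.dim, W.cl _ γ = 0 → ∀ a b, b + 1 ≠ a →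
      C.comp (C.comp (π a) γ) (π b) = 0 := by
    intro γ hγ h0 a b hab
    by_cases ha : 2 * X.dim < a
    · rw [hπ.eq_zero ha, C.zero_comp, C.zero_comp]
    rcases Nat.eq_zero_or_pos X.dim with hd | hd
    · rw [hd] at hγ
      have h1 : γ = 0 := homTriv_zero (W := W) hP ⟨hγ, h0⟩
      rw [h1, C.comp_zero, C.zero_comp]
    obtain ⟨m, hm⟩ : ∃ m, X.dim = m + 1 := ⟨X.dim - 1, by omega⟩
    rw [← C.act_tensor]
    have hpm : C.tensor (C.transp (π a)) (π b) ∈ C.gr _ (X.prod X).dim :=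
      C.tensor_mem (C.transp_mem (hπ.mem _)) (hπ.mem _)
    refine hT _ _ _ _ m hpm ?_ γ ⟨by rw [← hm]; exact hγ, h0⟩
    intro z hz
    have h2 := act_tensor_memH hπ hπ (j' := b) (by omega : a ≤ 2 * X.dim) z
    have h3 := act_memH W hpm hz (j := 2 * m + 1) rfl
    exact gr_inter (by omega) h2 h3
  have hI : W.LowersIndex π π := by
    intro γ hγ h0 a b hab
    exact hB γ hγ (cl_eq_zero_of_isZeroMap h0) a b (by omega)
  obtain ⟨L₀, Λ₀, hp, hw⟩ := exists_pair hπ hL hs hI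
  refine ⟨L₀, Λ₀, hp, ?_⟩
  rw [hw]
  exact adMinus_of_blocks hπ hB

theorem standard_of_linPair {L : C.CH (X.prod X)} (hL : W.IsLefschetzOp X L)
    (h : LinPair W X L) : W.LefschetzStandard X L := by
  obtain ⟨L₀, Λ₀, hp, hA⟩ := h
  obtain ⟨π, hπ, hw, h0⟩ := hp.exists_CK hL
  refine ⟨Λ₀, hp.mem', fun j a ha => ?_⟩
  have e2 : W.act (C.bracket L Λ₀) a = W.act (C.bracket L₀ Λ₀) a := by
    rw [ChowTheory.bracket, ChowTheory.bracket, W.act_sub, W.act_sub, LinearMap.sub_apply,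
      LinearMap.sub_apply, W.act_comp _ hL.mem, W.act_comp _ hp.mem', W.act_comp _ hp.mem,
      W.act_comp _ hp.mem', act_congr hp.cl_eq]
  rw [e2, ← hw, act_wtH hπ ha]

end Pool.Agent.R903.LB

namespace Pool.Agent.R903.SZ

open LB

variable {k : Type u} [Field k] {𝒱 : VarClass k} {C : ChowTheory.{u, v} 𝒱}
  {W : WeilTheory.{u, v, w} C} {X Y : 𝒱.Obj}

lemma isLefschetzOp_iff {L : C.CH (X.prod X)} : IsLefschetzOp W X L ↔ W.IsLefschetzOp X L :=
  ⟨fun h => ⟨h.mem, h.hard⟩, fun h => ⟨h.mem, h.hard⟩⟩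

lemma standard_iff {L : C.CH (X.prod X)} : Standard W X L ↔ W.LefschetzStandard X L := Iff.rfl

lemma isPair_iff {L' L Λ : C.CH (X.prod X)} : IsPair W X L' L Λ ↔ W.IsLefPair X L' L Λ := by
  constructor
  · rintro ⟨h1, h2, h3, h4⟩
    refine ⟨h1, h2, h3, ?_⟩
    have h5 : C.bracket L (C.bracket L Λ) = (-2 : ℚ) • L := h4
    rw [h5, neg_smul]
  · rintro ⟨h1, h2, h3, h4⟩
    refine ⟨h1, h2, h3, ?_⟩
    have h5 : C.bracket L (C.bracket L Λ) = (-2 : ℚ) • L := by rw [h4, neg_smul]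
    exact h5

lemma hasLinearPair_iff {L' : C.CH (X.prod X)} : HasLinearPair W X L' ↔ LinPair W X L' := by
  refine exists_congr fun L => exists_congr fun Λ => ?_
  rw [isPair_iff]
  refine and_congr_right fun _ => ?_
  exact ⟨fun h γ h1 h2 => h γ ⟨h1, h2⟩, fun h γ h1 => h γ h1.1 h1.2⟩

lemma vanishing_iff : Vanishing W ↔ F.Vanishing W :=
  ⟨fun h X p m hp h0 x hx => h X p m hp h0 x hx, fun h X p m hp h0 x hx => h X p m hp h0 x hx⟩

lemma pw_eq (γ : C.CH (X.prod X)) (i : ℕ) : pw C X γ i = F.pw C γ i := by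
  induction i with
  | zero => rfl
  | succ i ih =>
    change cp C X X X (pw C X γ i) γ = F.cp C (F.pw C γ i) γ
    rw [ih]
    rfl

lemma algebraic_iff : Algebraic W ↔ F.Algebraic W := by
  refine forall_congr' fun X => forall_congr' fun γ => ?_
  have e : pw C X γ = F.pw C γ := funext fun i => pw_eq γ i
  have e2 : FinSpan (pw C X γ) ↔ F.FinDim (F.spanA (F.pw C γ)) := by rw [e]; exact Iff.rfl
  exact imp_congr Iff.rfl e2

theorem linear_main (W : WeilTheory.{u, v, w} C) (hP : C.Polarized)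
    (L : ∀ X : 𝒱.Obj, C.CH (X.prod X)) (hL : ∀ X, IsLefschetzOp W X (L X)) :
    (((∀ X, Standard W X (L X)) ∧ Vanishing W ∧ Algebraic W) ↔
      ∀ X, HasLinearPair W X (L X)) ∧
      ((∀ X, HasLinearPair W X (L X)) → VanishingForVarieties W ∧ ScalarOnHomTriv W L) := by
  have hL' : ∀ X, W.IsLefschetzOp X (L X) := fun X => isLefschetzOp_iff.1 (hL X)
  have e1 : (∀ X, HasLinearPair W X (L X)) ↔ ∀ X, LinPair W X (L X) :=
    forall_congr' fun X => hasLinearPair_iff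
  rw [e1, vanishing_iff, algebraic_iff]
  refine ⟨⟨?_, fun h => ?_⟩, fun h => ?_⟩
  · rintro ⟨hs, hV, hA⟩
    have hK : W.Kunneth :=
      kunneth_of_degree fun X => (standard_iff.1 (hs X)).exists_degree (hL' X)
    have hCK := hasCK_of_algebraic hK hA
    exact fun X => linPair_of_twoStep hP (hL' X) (hs X) (twoStep_of_vanishing hP hCK hV) (hCK X)
  · have hT := twoStep_of_linPair hP hL' h
    exact ⟨fun X => standard_of_linPair (hL' X) (h X), hT.vanishing, hT.algebraic hP⟩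
  · have hT := twoStep_of_linPair hP hL' h
    refine ⟨fun X m hm => ?_, fun X L₀ Λ₀ hp m x hx => ?_⟩
    · intro x hx
      have h1 := hT X X X.dim (C.diagC X) m (C.diagC_mem X) (fun a ha => ?_) x hx
      · rwa [C.act_diagC] at h1
      · rw [hm, Submodule.mem_bot] at ha
        rw [ha, map_zero]
    · obtain ⟨π, hπ, hw, _⟩ := (isPair_iff.1 hp).exists_CK (hL' X)
      have h1 : C.act (C.bracket L₀ Λ₀) x = ((2 * m + 1 - X.dim : ℚ)) • x := by
        have h2 := act_of_vanishing hT.vanishing hπ hx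
        rw [← hw]
        conv_lhs => rw [← h2]
        rw [hπ.act_wt, h2]
        push_cast
        rfl
      exact h1

end Pool.Agent.R903.SZ
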