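import Pool.Agent.R903.Chow

/-!
# Homologically trivial cycles and linear equations: the definitions used in the statement
-/

open CategoryTheory CategoryTheory.Limits AlgebraicGeometry
open Pool.Agent.H914 Pool.Agent.H914.VarClass Pool.Agent.H914.VarClass.Obj

universe u v w

namespace Pool.Agent.R903.SZ

section Alg

variable {A B D E : Type v} [CommRing A] [Algebra ℚ A] [CommRing B] [Algebra ℚ B]
  [CommRing D] [Algebra ℚ D] [CommRing E] [Algebra ℚ E]
  {K : Type w} [Field K] {H : Type w} [Ring H] [Algebra K H]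

/-- The element `s(p(a) q(b))`. -/
def mulPush (p : A →ₐ[ℚ] D) (q : B →ₐ[ℚ] D) (s : D →ₗ[ℚ] E) (a : A) (b : B) : E :=
  s (p a * q b)

/-- The difference `a - b`. -/
def diff (a b : A) : A := a - b

/-- `a = q b` -/
def IsMul (q : ℚ) (a b : A) : Prop := a = q • b

/-- `c a = c b` -/
def SameImage (c : A →+* H) (a b : A) : Prop := c a = c b

/-- `x` is in `U` and `c x = 0`. -/
def InKer (U : Submodule ℚ A) (c : A →+* H) (x : A) : Prop := x ∈ U ∧ c x = 0

/-- `T x = 0` for all `x` in `U` with `c x = 0`. -/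
def KillsKer (T : A →ₗ[ℚ] A) (U : Submodule ℚ A) (c : A →+* H) : Prop :=
  ∀ x, InKer U c x → T x = 0

/-- `T x = q x` for all `x` in `U` with `c x = 0`. -/
def ScalarOnKer (T : A →ₗ[ℚ] A) (q : ℚ) (U : Submodule ℚ A) (c : A →+* H) : Prop :=
  ∀ x, InKer U c x → T x = q • x

/-- The `f i` span a finite-dimensional space. -/
def FinSpan (f : ℕ → A) : Prop := Module.Finite ℚ (Submodule.span ℚ (Set.range f))

/-- The hard Lefschetz property of an operator `T` of degree `2` on `H = ⨁ gr j`: for all `j ≤ n`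
the power `T^(n - j)` maps `gr j` bijectively onto `gr (2n - j)`. -/
def IsHard (n : ℕ) (gr : ℕ → Submodule K H) (T : H →ₗ[K] H) : Prop :=
  ∀ j ≤ n, Set.BijOn (T^[n - j]) (gr j) (gr (2 * n - j))

/-- `T` is multiplication by `j - n` on `gr j`. -/
def ActsByDegree (T : H →ₗ[K] H) (gr : ℕ → Submodule K H) (n : ℕ) : Prop :=
  ∀ j, ∀ a ∈ gr j, T a = ((j : K) - n) • a

/-- `T` vanishes on `U`. -/
def ZeroOn (T : H →ₗ[K] H) (U : Submodule K H) : Prop := ∀ b ∈ U, T b = 0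

end Alg

variable {k : Type u} [Field k] {𝒱 : VarClass k} (C : ChowTheory.{u, v} 𝒱) {X Y Z : 𝒱.Obj}

/-- `X × (Y × Z) → X × Y` -/
noncomputable def q12 (X Y Z : 𝒱.Obj) : X.prod (Y.prod Z) ⟶ X.prod Y :=
  lift (fst X (Y.prod Z)) (snd X (Y.prod Z) ≫ fst Y Z)

/-- `X × (Y × Z) → X × Z` -/
noncomputable def q13 (X Y Z : 𝒱.Obj) : X.prod (Y.prod Z) ⟶ X.prod Z :=
  lift (fst X (Y.prod Z)) (snd X (Y.prod Z) ≫ snd Y Z)

/-- The composition of correspondences, first `α`, then `β`: `p13_*(p12^* α · p23^* β)`. -/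
noncomputable def cp (X Y Z : 𝒱.Obj) (α : C.CH (X.prod Y)) (β : C.CH (Y.prod Z)) :
    C.CH (X.prod Z) :=
  mulPush (C.pull (q12 X Y Z)) (C.pull (snd X (Y.prod Z))) (C.push (q13 X Y Z)) α β

/-- The commutator `[α, β] = α ∘ β - β ∘ α` of correspondences from `X` to `X`. -/
noncomputable def brk (X : 𝒱.Obj) (α β : C.CH (X.prod X)) : C.CH (X.prod X) :=
  diff (cp C X X X β α) (cp C X X X α β)

/-- The powers `γ ∘ ⋯ ∘ γ` (`i + 1` factors) of a correspondence. -/
noncomputable def pw (X : 𝒱.Obj) (γ : C.CH (X.prod X)) : ℕ → C.CH (X.prod X)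
  | 0 => γ
  | i + 1 => cp C X X X (pw X γ i) γ

/-- `x` is in `CH^i(X)`. -/
def Codim (X : 𝒱.Obj) (i : ℕ) (x : C.CH X) : Prop := x ∈ C.gr X i

/-- `(X, p)` is a Chow motive: `p ∈ CH^(dim X)(X × X)` and `p ∘ p = p`. -/
def IsMotive (X : 𝒱.Obj) (p : C.CH (X.prod X)) : Prop :=
  Codim C (X.prod X) X.dim p ∧ cp C X X X p p = p

variable {C} (W : WeilTheory.{u, v, w} C)

/-- `x` is in `CH^i(X)` and homologically trivial. -/
def HomTriv (X : 𝒱.Obj) (i : ℕ) (x : C.CH X) : Prop := InKer (C.gr X i) (W.cl X) x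

/-- `L` is in `CH^(dim X + 1)(X × X)` and has the hard Lefschetz property. -/
structure IsLefschetzOp (X : 𝒱.Obj) (L : C.CH (X.prod X)) : Prop where
  mem : Codim C (X.prod X) (X.dim + 1) L
  hard : IsHard X.dim (W.gr X) (W.act L)

/-- The **Lefschetz standard conjecture** for `L`: there is `Λ` in `CH^(dim X - 1)(X × X)` such that
`[L, Λ]` acts on `H^j(X)` as multiplication by `j - dim X`, for all `j`. -/
def Standard (X : 𝒱.Obj) (L : C.CH (X.prod X)) : Prop :=
  ∃ Λ, Codim C (X.prod X) (X.dim - 1) Λ ∧ ActsByDegree (W.act (brk C X L Λ)) (W.gr X) X.dim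

/-- If `H^(2m+1)(M) = 0` then `CH^(m+1)(M)_hom = 0`, for all motives `M = (X, p)`. -/
def Vanishing : Prop :=
  ∀ (X : 𝒱.Obj) (p : C.CH (X.prod X)) (m : ℕ), IsMotive C X p →
    ZeroOn (W.act p) (W.gr X (2 * m + 1)) → KillsKer (C.act p) (C.gr X (m + 1)) (W.cl X)

/-- The powers of each homologically trivial correspondence in `CH^(dim X)(X × X)` span a
finite-dimensional space. -/
def Algebraic : Prop :=
  ∀ (X : 𝒱.Obj) (γ : C.CH (X.prod X)), HomTriv W (X.prod X) X.dim γ → FinSpan (pw C X γ)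

/-- `L` is in `CH^(dim X + 1)(X × X)` and homologically equivalent to `L'`, the correspondence `Λ` is
in `CH^(dim X - 1)(X × X)`, and `[L, [L, Λ]] = -2 L`. -/
structure IsPair (X : 𝒱.Obj) (L' L Λ : C.CH (X.prod X)) : Prop where
  mem : Codim C (X.prod X) (X.dim + 1) L
  hom : SameImage (W.cl (X.prod X)) L L'
  mem' : Codim C (X.prod X) (X.dim - 1) Λ
  eqn : IsMul (-2) (brk C X L (brk C X L Λ)) L

/-- There are `L`, homologically equivalent to `L'`, and `Λ` with `[L, [L, Λ]] = -2 L` and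
`[[L, Λ], γ] = -γ` for all homologically trivial `γ` in `CH^(dim X)(X × X)`. -/
def HasLinearPair (X : 𝒱.Obj) (L' : C.CH (X.prod X)) : Prop :=
  ∃ L Λ : C.CH (X.prod X), IsPair W X L' L Λ ∧
    ∀ γ, HomTriv W (X.prod X) X.dim γ → IsMul (-1) (brk C X (brk C X L Λ) γ) γ

/-- If `H^(2m+1)(X) = 0` then each homologically trivial class in `CH^(m+1)(X)` is zero. -/
def VanishingForVarieties : Prop :=
  ∀ (X : 𝒱.Obj) (m : ℕ), W.gr X (2 * m + 1) = ⊥ → ∀ x, HomTriv W X (m + 1) x → x = 0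

/-- For all `X` and all `L`, `Λ` as in `IsPair` the operator `[L, Λ]_*` is multiplication by
`2m + 1 - dim X` on the homologically trivial classes in `CH^(m+1)(X)`. -/
def ScalarOnHomTriv (L' : ∀ X : 𝒱.Obj, C.CH (X.prod X)) : Prop :=
  ∀ (X : 𝒱.Obj) (L Λ : C.CH (X.prod X)), IsPair W X (L' X) L Λ → ∀ m : ℕ,
    ScalarOnKer (C.act (brk C X L Λ)) (2 * m + 1 - X.dim) (C.gr X (m + 1)) (W.cl X)

end Pool.Agent.R903.SZ
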