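import Pool.Agent.R903.SmashDefs
import Pool.Agent.R903.AlgCohDefs

/-!
# Tautological rings of powers: definitions
-/

open CategoryTheory CategoryTheory.Limits AlgebraicGeometry
open Pool.Agent.H914 Pool.Agent.H914.VarClass Pool.Agent.H914.VarClass.Obj

universe u v w

namespace Pool.Agent.R903

variable {k : Type u} [Field k] {𝒱 : VarClass k}

/-- The tautological ring of `X^(n + 1)`: the `ℚ`-subalgebra of the Chow ring which is generated by
the pull-backs of the elements of `V` under the projections `X^(n + 1) → X` and by the pull-backs of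
the diagonal under the projections `X^(n + 1) → X × X` to different factors. -/
noncomputable def ChowTheory.tautRing (C : ChowTheory.{u, v} 𝒱) {X : 𝒱.Obj}
    (V : Submodule ℚ (C.CH X)) (n : ℕ) : Subalgebra ℚ (C.CH (pw X n)) :=
  Algebra.adjoin ℚ ({z | ∃ i, ∃ v ∈ V, z = C.pull (pr X n i) v} ∪
    {z | ∃ i j, i ≠ j ∧ z = C.pull (lift (pr X n i) (pr X n j)) (C.diagC X)})

/-- The dimension of the tautological ring of `X^(n + 1)`. -/
noncomputable def ChowTheory.tautRank (C : ChowTheory.{u, v} 𝒱) {X : 𝒱.Obj}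
    (V : Submodule ℚ (C.CH X)) (n : ℕ) : Cardinal :=
  Module.rank ℚ (C.tautRing V n)

/-- The cycle class map is injective on the tautological ring of `X^(n + 1)`. -/
def WeilTheory.InjectiveOnTaut {C : ChowTheory.{u, v} 𝒱} (W : WeilTheory.{u, v, w} C) {X : 𝒱.Obj}
    (V : Submodule ℚ (C.CH X)) (n : ℕ) : Prop :=
  ∀ z ∈ C.tautRing V n, W.cl (pw X n) z = 0 → z = 0

/-- `V` is a complement of the space of the numerically trivial classes. -/
def ChowTheory.IsLift (C : ChowTheory.{u, v} 𝒱) {X : 𝒱.Obj} (V : Submodule ℚ (C.CH X)) : Prop :=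
  IsCompl V (C.numTrivial X)

end Pool.Agent.R903
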